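import Mathlib

/-! Maximal functional subalgebras of a product of two fields. -/

open Polynomial

namespace Pool.Agent.Lib.MP_fc2ced_ag.K

variable {k K K' : Type} [Field k] [Field K] [Field K'] [Algebra k K] [Algebra k K']

/-- Subalgebras that are graphs of functions. -/
def GrFn (S : Subalgebra k (K × K')) : Prop := ∀ b, ((0 : K), b) ∈ S → b = 0

theorem GrFn.exists_max {S : Subalgebra k (K × K')} (h : GrFn S) :
    ∃ M, S ≤ M ∧ Maximal GrFn M := by
  refine zorn_le_nonempty₀ {S | GrFn S} (fun c hc hch y hy => ?_) S h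
  have : Nonempty c := ⟨⟨y, hy⟩⟩
  refine ⟨⨆ i : c, i.1, fun b hb => ?_, fun z hz => le_iSup (fun i : c => i.1) ⟨z, hz⟩⟩
  have hb' : ((0 : K), b) ∈ ((⨆ i : c, i.1 : Subalgebra k (K × K')) : Set (K × K')) := hb
  rw [Subalgebra.coe_iSup_of_directed hch.directed] at hb'
  obtain ⟨i, hi⟩ := Set.mem_iUnion.1 hb'
  exact hc i.2 b hi

/-- The first projection. -/
def pr1 (S : Subalgebra k (K × K')) : S →+* K := (RingHom.fst K K').comp S.val.toRingHom

/-- The second projection. -/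
def pr2 (S : Subalgebra k (K × K')) : S →+* K' := (RingHom.snd K K').comp S.val.toRingHom

variable {M : Subalgebra k (K × K')} {a : K} {b : K'}

theorem GrFn.inj (h : GrFn M) : Function.Injective (pr1 M) :=
  (injective_iff_map_eq_zero _).2 fun ⟨⟨x, y⟩, hz⟩ e => by
    obtain rfl : x = 0 := e
    exact Subtype.ext (Prod.ext rfl (h y hz))

theorem max_inv (h : Maximal GrFn M) (hab : (a, b) ∈ M) (hb : b ≠ 0) : (a⁻¹, b⁻¹) ∈ M := by
  let N : Subalgebra k (K × K') :=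
    { carrier := {z | ∃ s ∈ M, s.2 ≠ 0 ∧ z * s ∈ M}
      mul_mem' := fun ⟨s, h1, h2, h3⟩ ⟨t, h4, h5, h6⟩ => ⟨s * t, mul_mem h1 h4,
        mul_ne_zero h2 h5, by rw [mul_mul_mul_comm]; exact mul_mem h3 h6⟩
      add_mem' := fun {x y} ⟨s, h1, h2, h3⟩ ⟨t, h4, h5, h6⟩ => ⟨s * t, mul_mem h1 h4,
        mul_ne_zero h2 h5, by
          rw [show (x + y) * (s * t) = x * s * t + y * t * s by ring]
          exact add_mem (mul_mem h3 h4) (mul_mem h6 h1)⟩
      algebraMap_mem' := fun c => ⟨1, one_mem _, one_ne_zero, by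
        rw [mul_one]; exact M.algebraMap_mem c⟩ }
  have h1 : GrFn N := fun y ⟨s, _, h2, h3⟩ => by
    rw [Prod.mk_mul_mk, zero_mul] at h3
    exact (mul_eq_zero.1 (h.1 _ h3)).resolve_right h2
  have h2 : M ≤ N := fun z hz => ⟨1, one_mem _, one_ne_zero, by rwa [mul_one]⟩
  have a0 : a ≠ 0 := fun e => hb (h.1 b (e ▸ hab))
  refine h.2 h1 h2 ⟨(a, b), hab, hb, ?_⟩
  rw [Prod.mk_mul_mk, inv_mul_cancel₀ a0, inv_mul_cancel₀ hb]
  exact one_mem M

theorem max_ext (h : Maximal GrFn M)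
    (e : ∀ p : M[X], p.eval₂ (pr1 M) a = 0 → p.eval₂ (pr2 M) b = 0) : (a, b) ∈ M := by
  let N : Subalgebra k (K × K') :=
    { carrier := {z | ∃ p : M[X], p.eval₂ (pr1 M) a = z.1 ∧ p.eval₂ (pr2 M) b = z.2}
      mul_mem' := fun ⟨p, h1, h2⟩ ⟨q, h3, h4⟩ =>
        ⟨p * q, by rw [eval₂_mul, h1, h3]; rfl, by rw [eval₂_mul, h2, h4]; rfl⟩
      add_mem' := fun ⟨p, h1, h2⟩ ⟨q, h3, h4⟩ =>
        ⟨p + q, by rw [eval₂_add, h1, h3]; rfl, by rw [eval₂_add, h2, h4]; rfl⟩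
      algebraMap_mem' := fun c => ⟨C ⟨_, M.algebraMap_mem c⟩, eval₂_C _ _, eval₂_C _ _⟩ }
  have h1 : GrFn N := fun y ⟨p, h2, h3⟩ => h3.symm.trans (e p h2)
  have h2 : M ≤ N := fun z hz => ⟨C ⟨z, hz⟩, eval₂_C _ _, eval₂_C _ _⟩
  exact h.2 h1 h2 ⟨X, eval₂_X _ _, eval₂_X _ _⟩

theorem max_or [IsAlgClosed K'] (h : Maximal GrFn M) (a : K) :
    (∃ b, (a, b) ∈ M) ∨ ∃ p : M[X], p.eval₂ (pr1 M) a = 0 ∧ p.map (pr2 M) = 1 := by
  let F : Subfield K' :=
    { (pr2 M).range with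
      inv_mem' := by
        rintro _ ⟨⟨⟨x, y⟩, hz⟩, rfl⟩
        by_cases hy : y = 0
        · refine ⟨0, ?_⟩
          change (0 : K') = y⁻¹
          rw [hy, inv_zero]
        · exact ⟨⟨_, max_inv h hz hy⟩, rfl⟩ }
  let g : M →+* F := (pr2 M).codRestrict F fun z => ⟨z, rfl⟩
  have hg : Function.Surjective g := fun ⟨_, z, hz⟩ => ⟨z, Subtype.ext hz⟩
  have eg : F.subtype.comp g = pr2 M := rfl
  let J : Ideal F[X] := (RingHom.ker (eval₂RingHom (pr1 M) a)).map (mapRingHom g)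
  obtain ⟨f, hf⟩ := (IsPrincipalIdealRing.principal J).principal
  by_cases h0 : f.degree = 0
  · have h1 : (1 : F[X]) ∈ J := by
      rw [hf, Ideal.submodule_span_eq, Ideal.mem_span_singleton]
      exact (isUnit_iff_degree_eq_zero.2 h0).dvd
    obtain ⟨p, h2, h3⟩ := (Ideal.mem_map_iff_of_surjective _ (map_surjective g hg)).1 h1
    refine .inr ⟨p, h2, ?_⟩
    rw [← eg, ← Polynomial.map_map, show p.map g = 1 from h3, Polynomial.map_one]
  · obtain ⟨b, hb⟩ := IsAlgClosed.exists_eval₂_eq_zero F.subtype f h0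
    refine .inl ⟨b, max_ext h fun p hp => ?_⟩
    have h1 : p.map g ∈ J := Ideal.mem_map_of_mem (mapRingHom g) hp
    rw [hf, Ideal.submodule_span_eq, Ideal.mem_span_singleton] at h1
    obtain ⟨r, hr⟩ := h1
    rw [← eg, ← eval₂_map, hr, eval₂_mul, hb, zero_mul]

theorem max_total [IsAlgClosed K'] (h : Maximal GrFn M) (a : K) :
    (∃ b, (a, b) ∈ M) ∨ (a⁻¹, (0 : K')) ∈ M := by
  have hs := (pr1 M).rangeRestrict_surjective
  obtain ⟨V, h1, h2⟩ := Ideal.image_subset_nonunits_valuationSubring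
    ((RingHom.ker (pr2 M)).map (pr1 M).rangeRestrict) fun e => by
      obtain ⟨z, h1, h2⟩ := (Ideal.mem_map_iff_of_surjective _ hs).1 ((Ideal.eq_top_iff_one _).1 e)
      obtain rfl : z = 1 := h.1.inj ((congrArg Subtype.val h2).trans (map_one _).symm)
      exact one_ne_zero ((map_one _).symm.trans h1)
  have h3 : ∀ z : M, pr2 M z = 0 → V.valuation (pr1 M z) < 1 := fun z hz =>
    V.mem_nonunits_iff.1 (h2 ⟨_, Ideal.mem_map_of_mem _ hz, rfl⟩)
  have h4 : ∀ u ∈ V, ∃ b, (u, b) ∈ M := fun u hu => (max_or h u).resolve_right fun ⟨p, e1, e2⟩ => by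
    have h5 : V.valuation ((p - 1).eval₂ (pr1 M) u) < 1 := by
      rw [eval₂_eq_sum_range]
      refine V.valuation.map_sum_lt one_ne_zero fun i _ => ?_
      rw [map_mul, map_pow]
      refine mul_lt_one_of_nonneg_of_lt_one_left zero_le (h3 _ ?_)
        (pow_le_one' ((V.valuation_le_one_iff u).2 hu) i)
      rw [← coeff_map, Polynomial.map_sub, e2, Polynomial.map_one, sub_self, coeff_zero]
    rw [eval₂_sub, e1, eval₂_one, zero_sub, Valuation.map_neg, map_one] at h5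
    exact lt_irrefl _ h5
  rcases V.mem_or_inv_mem a with ha | ha
  · exact .inl (h4 a ha)
  · obtain ⟨b, hb⟩ := h4 _ ha
    by_cases b0 : b = 0
    · exact .inr (b0 ▸ hb)
    · exact .inl ⟨b⁻¹, by simpa only [inv_inv] using max_inv h hb b0⟩

end Pool.Agent.Lib.MP_fc2ced_ag.K
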