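import Pool.Agent.Lib.MP_fc2ced_ag.K.SeqB

/-! Irrelevant subspaces: the one-parameter group of transformations that fixes such a subspace
and translates the function `fU`. -/

open Module Polynomial

namespace Pool.Agent.Lib.MP_fc2ced_ag.K

variable {K : Type} [Field K] {n w m : ℕ} {U V W : Sp K} {j e : ℤ} {c : ℤ → K} {μ : Sq K}

theorem Stab.shift_memC (h : Stab n U) (q : ℤ) :
    ∀ y ∈ U, (fun t => y (t + q * n) : Sq K) ∈ U := by
  induction q using Int.induction_on with
  | zero => simp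
  | succ q ih =>
    intro y hy
    have := ih _ (h.symm_mem hy)
    simpa only [sh_symm_apply, add_mul, one_mul, add_assoc] using this
  | pred q ih =>
    intro y hy
    have := ih _ (h.mem y hy)
    simpa only [sh_apply, sub_mul, one_mul, add_sub_assoc] using this

/-- A nonzero vector that vanishes on a window of length the dimension gives a dependence. -/
theorem exists_det [FiniteDimensional K W] {y : Sq K} (hy : y ∈ W) (h0 : y ≠ 0) (i e : ℤ)
    (he : e + 1 = i + finrank K W) (hv : ∀ t, i ≤ t → t ≤ e → y t = 0) :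
    ∃ l, i ≤ l ∧ l ≤ e ∧ ∀ z ∈ W, (∀ t, l < t → t ≤ e → z t = 0) → z l = 0 := by
  by_contra! hc
  let f : ℕ → Sp K := fun k => W ⊓ Submodule.pi (Set.Icc (i + k) e) fun _ => ⊥
  have hf : ∀ k z, z ∈ f k ↔ z ∈ W ∧ ∀ t, i + k ≤ t → t ≤ e → z t = 0 := by
    simp [f, Submodule.mem_pi]
  have fin : ∀ k, FiniteDimensional K (f k) := fun k =>
    Submodule.finiteDimensional_of_le inf_le_left
  have key : ∀ k : ℕ, k ≤ finrank K W → k < finrank K (f k) := by
    intro k
    induction k with
    | zero =>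
      intro _
      have := fin 0
      refine finrank_pos_iff_exists_ne_zero.2 ⟨⟨y, (hf _ _).2 ⟨hy, by simpa using hv⟩⟩, ?_⟩
      simpa using h0
    | succ k ih =>
      intro hk
      have := fin (k + 1)
      obtain ⟨z, hz, h1, h2⟩ := hc (i + k) (by omega) (by omega)
      refine (Nat.succ_le_of_lt (ih (by omega))).trans_lt (Submodule.finrank_lt_finrank_of_lt
        (lt_of_le_of_ne (fun x hx => ?_) fun k' => h2 ?_))
      · rw [hf] at hx ⊢
        exact ⟨hx.1, fun t a b => hx.2 t (by omega) b⟩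
      · have : z ∈ f k := k' ▸ (hf _ _).2 ⟨hz, fun t a b => h1 t (by omega) b⟩
        exact ((hf _ _).1 this).2 _ le_rfl (by omega)
  exact (key _ le_rfl).not_ge (Submodule.finrank_mono inf_le_left)

/-- An irrelevant invariant subspace has a descent. -/
theorem exists_descent (hn : 0 < n) (hU : Rel n w U) (hW : Stab n W) (le : W ≤ U)
    (hm : finrank K W = m) (h : ¬ Rel n m W) : ∃ j e : ℤ, 0 ≤ j ∧ j < n ∧ j < e ∧ e < j + w ∧
      (∃ μ ∈ W, μ j = 1 ∧ ∀ t, j < t → t ≤ e → μ t = 0) ∧
      ∀ y ∈ W, (∀ t, j + 1 < t → t ≤ e → y t = 0) → y (j + 1) = 0 := by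
  have := hW.fin
  rw [rel_iff] at h
  push Not at h
  obtain ⟨y, hy, i, hv, h0⟩ := h hW hm
  obtain ⟨e, he⟩ : ∃ e : ℤ, e + 1 = i + m := ⟨i + m - 1, by ring⟩
  obtain ⟨l₀, a₀⟩ := exists_det hy h0 i e (by rw [hm, he]) fun t a b => hv t a (by omega)
  obtain ⟨t₀, b₀⟩ : ∃ t, (e + 1 - w ≤ t ∧ t < i) ∧ y t ≠ 0 := by
    by_contra! hc
    refine h0 (hU.eq_zero (le hy) (e + 1 - w) fun t a b => ?_)
    by_cases k : t < i
    · exact hc t ⟨a, k⟩
    · exact hv t (by omega) (by omega)
  obtain ⟨j₀, ⟨⟨b1, b2⟩, b3⟩, b4⟩ := Int.exists_greatest_of_bdd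
    (P := fun t => (e + 1 - w ≤ t ∧ t < i) ∧ y t ≠ 0) ⟨i, fun t k => k.1.2.le⟩ ⟨t₀, b₀⟩
  obtain ⟨l, ⟨a1, a2, a3⟩, a4⟩ := Int.exists_least_of_bdd
    (P := fun l => j₀ < l ∧ l ≤ e ∧ ∀ z ∈ W, (∀ t, l < t → t ≤ e → z t = 0) → z l = 0)
    ⟨j₀, fun t k => k.1.le⟩ ⟨l₀, by omega, a₀.2⟩
  obtain ⟨j, rfl⟩ : ∃ j, l = j + 1 := ⟨l - 1, by ring⟩
  obtain ⟨z, hz, z1, z2⟩ : ∃ z ∈ W, (∀ t, j < t → t ≤ e → z t = 0) ∧ z j ≠ 0 := by
    by_contra! hc
    rcases (by omega : j = j₀ ∨ j₀ < j) with rfl | k
    · refine b3 (hc y hy fun t a b => ?_)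
      by_cases k : t < i
      · by_contra k'
        exact (b4 t ⟨⟨by omega, k⟩, k'⟩).not_gt a
      · exact hv t (by omega) (by omega)
    · have := a4 j ⟨k, by omega, hc⟩
      omega
  have e1 := Int.emod_add_ediv_mul j n
  refine ⟨j % n, e - j / n * n, Int.emod_nonneg _ (by omega), Int.emod_lt_of_pos _ (by omega),
    by omega, by omega, ⟨_, hW.shift_memC (j / n) _ (W.smul_mem (z j)⁻¹ hz), ?_, fun t a b => ?_⟩,
    fun x hx k => ?_⟩
  · simp [e1, z2]
  · simp [z1 (t + j / n * n) (by omega) (by omega)]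
  · have := a3 _ (hW.shift_memC (-(j / n)) x hx) fun t a b =>
      k _ (by rw [neg_mul]; omega) (by rw [neg_mul]; omega)
    rwa [show j + 1 + -(j / n) * n = j % n + 1 by rw [neg_mul]; omega] at this

/-- The data that define the transformations. -/
structure Desc (n : ℕ) (W : Sp K) (j e : ℤ) (c : ℤ → K) (μ : Sq K) : Prop where
  pos : 0 < n
  stab : Stab n W
  lt : j < e
  le : e ≤ j + n
  mem : μ ∈ W
  one : μ j = 1
  zero : ∀ t, j < t → t ≤ e → μ t = 0
  ker : ∀ y ∈ W, theta j e c y = 0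

variable (D : Desc n W j e c μ) (r : K)

/-- The transformation attached to a descent. -/
noncomputable def Desc.psi : Sq K →ₗ[K] Sq K := Psi n j (theta j e c) μ (D.ker μ D.mem) r

theorem zpow_semiconj (a b : Sq K ≃ₗ[K] Sq K) (f : Sq K → Sq K) (P : Sq K → Prop)
    (h1 : ∀ x, P x → P (a x)) (h2 : ∀ x, P x → P (a.symm x)) (h : ∀ x, P x → b (f x) = f (a x))
    (q : ℤ) : ∀ x, P x → (b ^ q) (f x) = f ((a ^ q) x) := by
  induction q using Int.induction_on with
  | zero => exact fun _ _ => rfl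
  | succ q ih =>
    intro x hx
    rw [zpow_add_one, zpow_add_one, LinearEquiv.mul_apply, LinearEquiv.mul_apply, h x hx,
      ih _ (h1 x hx)]
  | pred q ih =>
    intro x hx
    have k : b⁻¹ (f x) = f (a⁻¹ x) :=
      b.symm_apply_eq.2 ((h _ (h2 x hx)).trans (congrArg f (a.apply_symm_apply x))).symm
    rw [zpow_sub_one, zpow_sub_one, LinearEquiv.mul_apply, LinearEquiv.mul_apply, k,
      ih (a⁻¹ x) (h2 x hx)]

theorem sh_symm_zpow (q : ℤ) : ∀ (y : Sq K) (t : ℤ), ((sh K n).symm ^ q) y t = y (t + q * n) := by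
  induction q using Int.induction_on with
  | zero => simp
  | succ q ih =>
    intro y t
    rw [zpow_add_one, LinearEquiv.mul_apply, ih, sh_symm_apply, add_mul, one_mul, add_assoc]
  | pred q ih =>
    intro y t
    rw [zpow_sub_one, LinearEquiv.mul_apply, ih, sub_mul, one_mul, ← add_sub_assoc]
    rfl

/-- The transvection attached to a descent. -/
noncomputable def Desc.tr : Sq K ≃ₗ[K] Sq K := tv (theta j e c) μ (D.ker μ D.mem) r

theorem Desc.tr_apply (y : Sq K) : D.tr r y = y + (r * theta j e c y) • μ := by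
  simp [Desc.tr, tv, smul_smul]

theorem Desc.tr_symm (y : Sq K) : (D.tr r).symm y = y - (r * theta j e c y) • μ := by
  simp [Desc.tr, tv, smul_smul]

theorem Desc.psi_at (y : Sq K) (q : ℤ) {s : ℤ} (h1 : j < s) (h2 : s ≤ j + n) :
    D.psi r y (s + q * n) = ((D.tr r * (sh K n).symm) ^ q) y s := by
  have hn : (n : ℤ) ≠ 0 := by have := D.pos; omega
  have e1 : s + q * n - j - 1 = s - j - 1 + q * n := by ring
  have e2 : (s + q * n - j - 1) % n + j + 1 = s := by
    rw [e1, Int.add_mul_emod_self_right, Int.emod_eq_of_lt (by omega) (by omega)]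
    ring
  have e3 : (s + q * n - j - 1) / n = q := by
    rw [e1, Int.add_mul_ediv_right _ _ hn, Int.ediv_eq_zero_of_lt (by omega) (by omega), zero_add]
  change ((D.tr r * (sh K n).symm) ^ ((s + q * n - j - 1) / n)) y
    ((s + q * n - j - 1) % n + j + 1) = _
  rw [e2, e3]

omit [Field K] in
theorem exists_res (hn : 0 < n) (j t : ℤ) : ∃ s q : ℤ, j < s ∧ s ≤ j + n ∧ t = s + q * n := by
  have h1 := Int.emod_add_ediv_mul (t - j - 1) n
  have h2 := Int.emod_nonneg (t - j - 1) (show (n : ℤ) ≠ 0 by omega)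
  have h3 := Int.emod_lt_of_pos (t - j - 1) (show 0 < (n : ℤ) by omega)
  exact ⟨(t - j - 1) % n + j + 1, (t - j - 1) / n, by omega, by omega, by omega⟩

theorem Desc.psi_mid (y : Sq K) {t : ℤ} (h1 : j < t) (h2 : t ≤ j + n + 1) : D.psi r y t = y t := by
  rcases h2.eq_or_lt with rfl | k
  · have := D.psi_at r y 1 (s := j + 1) (by omega) (by have := D.pos; omega)
    rw [zpow_one, LinearEquiv.mul_apply, D.tr_apply, show j + 1 + 1 * n = j + n + 1 by ring] at this
    simp [this, D.zero (j + 1) (by omega) D.lt, add_right_comm]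
  · simpa using D.psi_at r y 0 h1 (by omega)

theorem Desc.psi_low (y : Sq K) {t : ℤ} (h1 : j - n < t) (h2 : t ≤ e) :
    D.psi r y t = (D.tr r).symm y t := by
  by_cases k : j < t
  · have := D.le
    simp [D.psi_mid r y k (by omega), D.tr_symm, D.zero t k h2]
  · have := D.psi_at r y (-1) (s := t + n) (by omega) (by omega)
    rw [show t + n + -1 * n = t by ring] at this
    rw [this]
    change (D.tr r).symm y (t + n - n) = _
    rw [add_sub_cancel_right]

theorem Desc.sh_psi (y : Sq K) :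
    (sh K n).symm (D.psi r y) = D.psi r (D.tr r ((sh K n).symm y)) := by
  funext t
  obtain ⟨s, q, h1, h2, rfl⟩ := exists_res D.pos j t
  rw [sh_symm_apply, D.psi_at r _ q h1 h2, show s + q * n + n = s + (q + 1) * n by ring,
    D.psi_at r _ _ h1 h2, zpow_add_one]
  rfl

theorem Desc.theta_psi (y : Sq K) : theta j e c (D.psi r y) = theta j e c y := by
  have := D.le
  refine congrArg₂ (· + ·) (D.psi_mid r y (t := j + 1) (by omega) (by omega))
    (Finset.sum_congr rfl fun l hl => ?_)
  rw [Finset.mem_Icc] at hl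
  rw [D.psi_mid r y (by omega) (by omega)]

theorem Desc.psi_mem' {y : Sq K} (hy : y ∈ W) : D.psi r y = y := by
  funext t
  obtain ⟨s, q, h1, h2, rfl⟩ := exists_res D.pos j t
  rw [D.psi_at r _ q h1 h2, ← sh_symm_zpow q y s]
  refine congrFun (zpow_semiconj _ _ id (· ∈ W) (fun _ => D.stab.symm_mem) D.stab.mem
    (fun x hx => ?_) q y hy) s
  simp [D.tr_apply, D.ker _ (D.stab.symm_mem hx)]

theorem Desc.psi_zero (y : Sq K) : D.psi 0 y = y := by
  funext t
  obtain ⟨s, q, h1, h2, rfl⟩ := exists_res D.pos j t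
  rw [D.psi_at 0 _ q h1 h2, ← sh_symm_zpow q y s, show D.tr 0 = 1 from
    LinearEquiv.ext fun x => by simp [D.tr_apply], one_mul]

theorem Desc.psi_neg (y : Sq K) : D.psi (-r) (D.psi r y) = y := by
  funext t
  obtain ⟨s, q, h1, h2, rfl⟩ := exists_res D.pos j t
  rw [D.psi_at _ _ q h1 h2, zpow_semiconj (sh K n).symm _ (D.psi r) (fun _ => True)
    (fun _ _ => trivial) (fun _ _ => trivial) (fun x _ => ?_) q y trivial,
    D.psi_mid r _ h1 (by omega), sh_symm_zpow]
  rw [LinearEquiv.mul_apply, D.sh_psi, D.tr_apply, D.theta_psi, D.tr_apply]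
  simp [D.psi_mem' r D.mem, D.ker μ D.mem]

theorem Desc.psi_mem {y : Sq K} (hy : y ∈ W) : D.psi r y = y := D.psi_mem' r hy

theorem Desc.map_of_le (h : V ≤ W) : V.map (D.psi r) = V := by
  ext x
  constructor
  · rintro ⟨y, hy, rfl⟩
    rwa [D.psi_mem r (h hy)]
  · exact fun hx => ⟨x, hx, D.psi_mem r (h hx)⟩

theorem Desc.psi_inj : Function.Injective (D.psi r) :=
  Function.LeftInverse.injective (D.psi_neg r)

theorem Desc.tr_symm_mem (h : W ≤ V) {y : Sq K} (hy : y ∈ V) : (D.tr r).symm y ∈ V := by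
  rw [D.tr_symm]
  exact V.sub_mem hy (V.smul_mem _ (h D.mem))

theorem Desc.sh_psi' (y : Sq K) : sh K n (D.psi r y) = D.psi r (sh K n ((D.tr r).symm y)) := by
  rw [← LinearEquiv.eq_symm_apply, D.sh_psi]
  simp

theorem Desc.stab_map (hV : Stab n V) (h : W ≤ V) :
    Stab n (V.map (D.psi r)) ∧ chi n (V.map (D.psi r)) = chi n V := by
  have := hV.fin
  have := D.stab.fin
  have hs : Stab n (V.map (D.psi r)) := ⟨inferInstance, by
    rintro _ ⟨y, hy, rfl⟩
    exact ⟨_, hV.mem _ (D.tr_symm_mem r h hy), (D.sh_psi' r y).symm⟩⟩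
  refine ⟨hs, ?_⟩
  let b : V →ₗ[K] V := (sh K n).toLinearMap.restrict hV.mem
  let b' : V →ₗ[K] V := ((sh K n).toLinearMap ∘ₗ (D.tr r).symm.toLinearMap).restrict
    fun y hy => hV.mem _ (D.tr_symm_mem r h hy)
  let a : W →ₗ[K] W := (sh K n).toLinearMap.restrict D.stab.mem
  let X := W.comap V.subtype
  have hX : X ≤ X.comap b := fun y hy => D.stab.mem _ hy
  have ex : Function.Exact (Submodule.inclusion h) X.mkQ := fun y => by
    rw [Submodule.mkQ_apply, Submodule.Quotient.mk_eq_zero]
    exact ⟨fun k => ⟨⟨y, k⟩, rfl⟩, by rintro ⟨x, rfl⟩; exact x.2⟩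
  have k1 := charpoly_exact _ _ (Submodule.inclusion_injective h) ex X.mkQ_surjective a b
    (X.mapQ X b hX) rfl (X.mapQ_mkQ X b)
  have k2 := charpoly_exact _ _ (Submodule.inclusion_injective h) ex X.mkQ_surjective a b'
    (X.mapQ X b hX) (LinearMap.ext fun x => Subtype.ext (by
      change sh K n ((D.tr r).symm x) = sh K n x
      simp [D.tr_symm, D.ker _ x.2])) (LinearMap.ext fun x => by
      refine (Submodule.Quotient.eq X).2 ?_
      change sh K n x - sh K n ((D.tr r).symm x) ∈ W
      rw [← map_sub, D.tr_symm, sub_sub_cancel]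
      exact D.stab.mem _ (W.smul_mem _ D.mem))
  rw [hs.chi_eq, hV.chi_eq, ← show b'.charpoly = b.charpoly from k2.trans k1.symm,
    ← (Submodule.equivMapOfInjective _ (D.psi_inj r) V).charpoly_conj b']
  congr 1
  refine LinearMap.ext fun x => ?_
  obtain ⟨y, rfl⟩ := (Submodule.equivMapOfInjective _ (D.psi_inj r) V).surjective x
  rw [LinearEquiv.conj_apply_apply, LinearEquiv.symm_apply_apply]
  exact Subtype.ext (D.sh_psi' r y)

theorem Band.val_one {g : ℤ → ℕ → K} (h : Band n w g) (hw : 0 < w) {y : Sq K} (hy : y ∈ Sol w g)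
    {i : ℤ} (h1 : y (i + 1) = 1) (h2 : ∀ t, i + 1 < t → t ≤ i + w → y t = 0) :
    y i = -g i 1 := by
  obtain ⟨w, rfl⟩ : ∃ v, w = v + 1 := ⟨w - 1, by omega⟩
  have k := mem_Sol.1 hy i
  rw [op_apply, Finset.sum_range_succ', Finset.sum_range_succ',
    Finset.sum_eq_zero fun l hl => by
      rw [Finset.mem_range] at hl
      rw [h2 _ (by omega) (by omega), mul_zero]] at k
  simp only [zero_add, Nat.cast_one, h1, h.one, Nat.cast_zero, add_zero] at k
  linear_combination k

theorem theta_eq {y : Sq K} (h : ∀ t, j + 1 < t → t ≤ e → y t = 0) :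
    theta j e c y = y (j + 1) := by
  refine add_eq_left.2 (Finset.sum_eq_zero fun l hl => ?_)
  rw [Finset.mem_Icc] at hl
  rw [h l (by omega) hl.2, mul_zero]

theorem Desc.psi_of_zero {y : Sq K} (h : theta j e c (D.psi r y) = 0) {t : ℤ} (h1 : j - n < t)
    (h2 : t ≤ j + n + 1) : D.psi r y t = y t := by
  by_cases k : j < t
  · exact D.psi_mid r y k h2
  · have := D.lt
    rw [D.theta_psi] at h
    simp [D.psi_low r y h1 (by omega), D.tr_symm, h]

theorem Desc.rel_map (hU : Rel n w U) (h : W ≤ U) (hw : w ≤ n + 1) (he : e < j + w) :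
    Rel n w (U.map (D.psi r)) ∧ fU n w (U.map (D.psi r)) = fU n w U - r := by
  have hs := (D.stab_map r hU.stab h).1
  have l1 := D.lt
  have l2 := D.le
  have hn := D.pos
  have hr : Rel n w (U.map (D.psi r)) := by
    refine rel_iff.2 ⟨hs, ?_, fun z hz i hv => ?_⟩
    · rw [← hU.finrank_eq]
      exact (Submodule.equivMapOfInjective _ (D.psi_inj r) U).finrank_eq.symm
    obtain ⟨s, q, h1, h2, rfl⟩ := exists_res hn (j - n) i
    obtain ⟨y, hy, e1⟩ := hs.shift_memC q z hz
    have hv' : ∀ t, s ≤ t → t < s + w → D.psi r y t = 0 := fun t a b => by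
      rw [e1]
      exact hv _ (by omega) (by omega)
    have y0 : y = 0 := by
      by_cases k : s + w ≤ e + 1
      · refine (D.tr r).symm.map_eq_zero_iff.1
          (hU.eq_zero (D.tr_symm_mem r h hy) s fun t a b => ?_)
        rw [← D.psi_low r y (by omega) (by omega), hv' t a b]
      · refine hU.eq_zero hy s fun t a b => ?_
        rw [← D.psi_of_zero r (y := y) ?_ (by omega) (by omega), hv' t a b]
        rw [theta_eq fun t a b => hv' t (by omega) (by omega), hv' _ (by omega) (by omega)]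
    funext t
    simpa [y0] using (congrFun e1 (t - q * n)).symm
  refine ⟨hr, ?_⟩
  have b := hU.band
  have b' := hr.band
  have key : ∀ i, j - n < i → i ≤ j → coef n w (U.map (D.psi r)) i 1 - coef n w U i 1 =
      if i = j then r else 0 := by
    intro i h1 h2
    obtain ⟨z, hz, hv⟩ := b'.exists_sol 0 (Pi.single (i + 1) 1) (i + 1)
    have z1 : z (i + 1) = 1 := by rw [hv _ le_rfl (by omega), Pi.single_eq_same]
    have z2 : ∀ t, i + 1 < t → t ≤ i + w → z t = 0 := fun t a b => by
      rw [hv _ a.le (by omega), Pi.single_eq_of_ne a.ne']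
    have z3 := b'.val_one (by omega) hz z1 z2
    obtain ⟨y, hy, rfl⟩ : z ∈ U.map (D.psi r) := by
      rw [hr.eq_sol]
      exact hz
    have hU' : ∀ x ∈ U, x ∈ Sol w (coef n w U) := fun x hx => hU.eq_sol ▸ hx
    split_ifs with k
    · subst k
      have y1 := (D.psi_mid r y (by omega) (by omega)).symm.trans z1
      have y2 : ∀ t, i + 1 < t → t ≤ i + w → y t = 0 := fun t a b =>
        (D.psi_mid r y (by omega) (by omega)).symm.trans (z2 t a b)
      have y3 := b.val_one (by omega) (hU' y hy) y1 y2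
      rw [D.psi_low r y h1 l1.le, D.tr_symm, theta_eq fun t a b => y2 t a (by omega), y1] at z3
      simp only [Pi.sub_apply, Pi.smul_apply, D.one, smul_eq_mul, mul_one, y3] at z3
      linear_combination z3
    · by_cases k' : i + w ≤ e
      · have := b.val_one (by omega) (hU' _ (D.tr_symm_mem r h hy))
          ((D.psi_low r y (by omega) (by omega)).symm.trans z1) fun t a b =>
            (D.psi_low r y (by omega) (by omega)).symm.trans (z2 t a b)
        rw [D.psi_low r y h1 (by omega), this] at z3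
        linear_combination z3
      · have t0 : theta j e c (D.psi r y) = 0 := by
          rw [theta_eq fun t a b => z2 t (by omega) (by omega), z2 _ (by omega) (by omega)]
        have := b.val_one (by omega) (hU' y hy)
          ((D.psi_of_zero r t0 (by omega) (by omega)).symm.trans z1) fun t a b =>
            (D.psi_of_zero r t0 (by omega) (by omega)).symm.trans (z2 t a b)
        rw [D.psi_of_zero r t0 h1 (by omega), this] at z3
        linear_combination z3
  have per : Function.Periodic (fun i => coef n w (U.map (D.psi r)) i 1 - coef n w U i 1) (n : ℤ) :=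
    fun i => by simp only [b.per, b'.per]
  have e1 := Int.emod_add_ediv_mul j n
  have e2 := Int.emod_nonneg j (show (n : ℤ) ≠ 0 by omega)
  have e3 := Int.emod_lt_of_pos j (show 0 < (n : ℤ) by omega)
  have : ∑ i ∈ Finset.range n, (coef n w (U.map (D.psi r)) i 1 - coef n w U i 1) = r := by
    rw [Finset.sum_eq_single (j % n).toNat (fun i hi k => ?_) fun k => absurd (by simp; omega) k]
    · have := per.int_mul (j / n) (j % n)
      rw [Int.toNat_of_nonneg e2, ← this]
      simpa [e1] using key j (by omega) le_rfl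
    · obtain ⟨s, q, h1, h2, h3⟩ := exists_res hn (j - n) i
      have := per.int_mul q s
      simp only [Int.cast_id] at this
      rw [Finset.mem_range] at hi
      rw [h3, this, key s h1 (by omega), if_neg]
      rintro rfl
      refine k ?_
      have : (i : ℤ) % n = s % n := by rw [h3, Int.add_mul_emod_self_right]
      rw [← this, Int.emod_eq_of_lt (by omega) (by omega), Int.toNat_natCast]
  rw [Finset.sum_sub_distrib] at this
  rw [fU, fU]
  linear_combination -this

end Pool.Agent.Lib.MP_fc2ced_ag.K
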