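import Pool.Agent.Lib.MP_fc2ced_ag.K.SeqB

/-! Flags: forgetting, splitting and gluing; full flags of relevant spaces. -/

open Module Polynomial

namespace Pool.Agent.Lib.MP_fc2ced_ag.K

variable {K : Type} [Field K] {n w j l : ℕ} {I I' : Finset ℕ} {F F' G : ℕ → Sp K}

theorem forget_of_mem {i : ℕ} (hi : i ∈ I) : forget w I F i = F i := if_pos (Or.inl hi)

theorem forget_top : forget w I F w = F w := if_pos (Or.inr rfl)

theorem mem_lowI {i : ℕ} : i ∈ lowI j I ↔ i ∈ I ∧ i < j := Finset.mem_filter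

theorem mem_uppI {m : ℕ} : m ∈ uppI j I ↔ j + m ∈ I ∧ 0 < m := by
  unfold uppI
  simp only [Finset.mem_image, Finset.mem_filter]
  constructor
  · rintro ⟨a, ⟨h1, h2⟩, rfl⟩
    rw [Nat.add_sub_cancel' h2.le]
    exact ⟨h1, by omega⟩
  · rintro ⟨h1, h2⟩
    exact ⟨j + m, ⟨h1, by omega⟩, by omega⟩

theorem low_of_le {i : ℕ} (hi : i ≤ j) : low j F i = F i := if_pos hi

theorem low_of_lt {i : ℕ} (hi : j < i) : low j F i = ⊥ := if_neg (not_le.2 hi)

theorem map_op_self (U : Sp K) : U.map (op j (coef n j U)) = ⊥ := by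
  rw [eq_bot_iff]
  rintro _ ⟨y, hy, rfl⟩
  rw [Submodule.mem_bot]
  by_cases h : Rel n j U
  · have h1 : y ∈ Sol j (coef n j U) := h.eq_sol ▸ hy
    exact h1
  · funext i
    rw [op_apply, coef, dif_neg h]
    simp

theorem upp_zero : upp n j F 0 = ⊥ := map_op_self _

theorem Flag.le_of (h : Flag n w I F) {a b : ℕ} (ha : a ∈ I) (hb : b ∈ I ∨ b = w) (e : a ≤ b) :
    F a ≤ F b := by
  rcases hb with hb | rfl
  · exact h.mono a ha b hb e
  · exact h.le_top a ha

theorem Flag.stab_of (h : Flag n w I F) {b : ℕ} (hb : b ∈ I ∨ b = w) : Stab n (F b) := by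
  rcases hb with hb | rfl
  · exact h.stab b hb
  · exact h.rel.stab

theorem Flag.forget_flag (h : Flag n w I F) (hI : I' ⊆ I) : Flag n w I' (forget w I' F) := by
  refine ⟨by rw [forget_top]; exact h.rel, fun i hi => ?_, fun i hi => ?_, fun i hi => ?_,
    fun i hi a ha e => ?_, fun i h1 h2 => if_neg (not_or.2 ⟨h1, h2⟩)⟩
  · rw [forget_of_mem hi]; exact h.stab i (hI hi)
  · rw [forget_of_mem hi]; exact h.rank i (hI hi)
  · rw [forget_of_mem hi, forget_top]; exact h.le_top i (hI hi)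
  · rw [forget_of_mem hi, forget_of_mem ha]; exact h.mono i (hI hi) a (hI ha) e

theorem forget_forget (hI : I' ⊆ I) : forget w I' (forget w I F) = forget w I' F := by
  funext i
  unfold forget
  by_cases h : i ∈ I' ∨ i = w
  · rw [if_pos h, if_pos h, if_pos (h.imp_left fun h => hI h)]
  · rw [if_neg h, if_neg h]

theorem Flag.forget_self (h : Flag n w I F) : forget w I F = F := by
  funext i
  unfold forget
  by_cases hi : i ∈ I ∨ i = w
  · rw [if_pos hi]
  · rw [if_neg hi, h.bot i (not_or.1 hi).1 (not_or.1 hi).2]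

theorem lowI_subset (hI : I ⊆ Finset.Ioo 0 (j + l)) : lowI j I ⊆ Finset.Ioo 0 j := by
  intro i hi
  rw [mem_lowI] at hi
  exact Finset.mem_Ioo.2 ⟨(Finset.mem_Ioo.1 (hI hi.1)).1, hi.2⟩

theorem uppI_subset (hI : I ⊆ Finset.Ioo 0 (j + l)) : uppI j I ⊆ Finset.Ioo 0 l := by
  intro i hi
  rw [mem_uppI] at hi
  have := (Finset.mem_Ioo.1 (hI hi.1)).2
  exact Finset.mem_Ioo.2 ⟨hi.2, by omega⟩

theorem lowI_full (hl : 0 < l) : lowI j (Finset.Ioo 0 (j + l)) = Finset.Ioo 0 j := by
  ext i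
  simp only [mem_lowI, Finset.mem_Ioo]
  omega

theorem uppI_full (hj : 0 < j) : uppI j (Finset.Ioo 0 (j + l)) = Finset.Ioo 0 l := by
  ext i
  simp only [mem_uppI, Finset.mem_Ioo]
  omega

section Split
variable (hI : I ⊆ Finset.Ioo 0 (j + l)) (hj : j ∈ I)
include hI hj

theorem Flag.low_iff (h : Flag n (j + l) I F) :
    Flag n j (lowI j I) (low j F) ↔ Rel n j (F j) := by
  have h0 := Finset.mem_Ioo.1 (hI hj)
  refine ⟨fun h1 => by simpa only [low_of_le le_rfl] using h1.rel, fun hr => ?_⟩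
  refine ⟨by rw [low_of_le le_rfl]; exact hr, fun i hi => ?_, fun i hi => ?_, fun i hi => ?_,
    fun i hi a ha e => ?_, fun i h1 h2 => ?_⟩
  · rw [mem_lowI] at hi
    rw [low_of_le hi.2.le]; exact h.stab i hi.1
  · rw [mem_lowI] at hi
    rw [low_of_le hi.2.le]; exact h.rank i hi.1
  · rw [mem_lowI] at hi
    rw [low_of_le hi.2.le, low_of_le le_rfl]; exact h.mono i hi.1 j hj hi.2.le
  · rw [mem_lowI] at hi ha
    rw [low_of_le hi.2.le, low_of_le ha.2.le]; exact h.mono i hi.1 a ha.1 e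
  · by_cases h3 : i ≤ j
    · rw [low_of_le h3]
      exact h.bot i (fun h4 => h1 (mem_lowI.2 ⟨h4, by omega⟩)) (by omega)
    · exact low_of_lt (not_le.1 h3)

theorem Flag.upp_flag (h : Flag n (j + l) I F) (hr : Rel n j (F j)) :
    Flag n l (uppI j I) (upp n j F) := by
  refine ⟨(h.rel.rel_map hr (h.le_top j hj)).1, fun i hi => ?_, fun i hi => ?_, fun i hi => ?_,
    fun i hi a ha e => ?_, fun i h1 h2 => ?_⟩
  · rw [mem_uppI] at hi
    exact (hr.stab_map (h.stab _ hi.1) (h.mono j hj _ hi.1 (by omega))).1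
  · rw [mem_uppI] at hi
    have h3 := (hr.stab_map (h.stab _ hi.1) (h.mono j hj _ hi.1 (by omega))).2
    rw [h.rank _ hi.1] at h3
    exact (Nat.add_left_cancel h3).symm
  · rw [mem_uppI] at hi
    exact Submodule.map_mono (h.le_top _ hi.1)
  · rw [mem_uppI] at hi ha
    exact Submodule.map_mono (h.mono _ hi.1 _ ha.1 (by omega))
  · rcases Nat.eq_zero_or_pos i with rfl | h3
    · exact upp_zero
    · unfold upp
      rw [h.bot (j + i) (fun h4 => h1 (mem_uppI.2 ⟨h4, h3⟩)) (by omega), Submodule.map_bot]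

theorem Flag.glue_flag (h : Flag n j (lowI j I) F) (h' : Flag n l (uppI j I) G) :
    Flag n (j + l) I (glue n j l I F G) ∧ low j (glue n j l I F G) = F ∧
      upp n j (glue n j l I F G) = G := by
  have h0 := Finset.mem_Ioo.1 (hI hj)
  have e1 : ∀ i ≤ j, glue n j l I F G i = F i := fun i hi => if_pos hi
  have e2 : ∀ m, 0 < m → j + m ∈ I ∨ m = l →
      glue n j l I F G (j + m) = (G m).comap (op j (coef n j (F j))) := by
    intro m hm h1
    unfold glue
    rw [if_neg (by omega), if_pos (h1.imp_right fun h2 => by rw [h2]), Nat.add_sub_cancel_left]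
  have e3 : ∀ m, 0 < m → j + m ∈ I ∨ m = l → m ∈ uppI j I ∨ m = l := fun m hm h1 =>
    h1.imp_left fun h2 => mem_uppI.2 ⟨h2, hm⟩
  have e4 : ∀ i ∈ I, i ≤ j → i ∈ lowI j I ∨ i = j := fun i hi h1 =>
    (h1.lt_or_eq).imp_left fun h2 => mem_lowI.2 ⟨hi, h2⟩
  have e5 : ∀ i ∈ I, i ≤ j → F i ≤ F j := fun i hi h1 => by
    rcases e4 i hi h1 with h2 | rfl
    · exact h.le_top i h2
    · exact le_rfl
  have e6 : ∀ i : ℕ, i ≤ j ∨ ∃ m, 0 < m ∧ i = j + m := fun i => by
    by_cases h1 : i ≤ j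
    · exact Or.inl h1
    · exact Or.inr ⟨i - j, by omega, by omega⟩
  have e7 : ∀ i ∈ I, ∀ m, 0 < m → j + m ∈ I ∨ m = l → i ≤ j + m →
      glue n j l I F G i ≤ glue n j l I F G (j + m) := by
    intro i hi m hm h1 h2
    rw [e2 m hm h1]
    rcases e6 i with h3 | ⟨a, ha, rfl⟩
    · rw [e1 i h3]
      exact (e5 i hi h3).trans (h.rel.stab_comap (h'.stab_of (e3 m hm h1))).2.1
    · rw [e2 a ha (Or.inl hi)]
      exact Submodule.comap_mono (h'.le_of (mem_uppI.2 ⟨hi, ha⟩) (e3 m hm h1) (by omega))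
  refine ⟨⟨?_, fun i hi => ?_, fun i hi => ?_, fun i hi => ?_, fun i hi a ha e => ?_,
    fun i h1 h2 => ?_⟩, funext fun i => ?_, funext fun m => ?_⟩
  · rw [e2 l (by omega) (Or.inr rfl)]
    exact h'.rel.rel_comap h.rel
  · rcases e6 i with h3 | ⟨a, ha, rfl⟩
    · rw [e1 i h3]
      exact h.stab_of (e4 i hi h3)
    · rw [e2 a ha (Or.inl hi)]
      exact (h.rel.stab_comap (h'.stab a (mem_uppI.2 ⟨hi, ha⟩))).1
  · rcases e6 i with h3 | ⟨a, ha, rfl⟩
    · rw [e1 i h3]
      rcases e4 i hi h3 with h2 | rfl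
      · exact h.rank i h2
      · exact h.rel.finrank_eq
    · rw [e2 a ha (Or.inl hi)]
      obtain ⟨h4, h5, h6⟩ := h.rel.stab_comap (h'.stab a (mem_uppI.2 ⟨hi, ha⟩))
      rw [(h.rel.stab_map h4 h5).2, h6, h'.rank a (mem_uppI.2 ⟨hi, ha⟩)]
  · exact e7 i hi l (by omega) (Or.inr rfl) (Finset.mem_Ioo.1 (hI hi)).2.le
  · rcases e6 a with h3 | ⟨m, hm, rfl⟩
    · rw [e1 a h3, e1 i (e.trans h3)]
      rcases e.lt_or_eq with h4 | rfl
      · exact h.le_of (mem_lowI.2 ⟨hi, by omega⟩) (e4 a ha h3) e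
      · exact le_rfl
    · exact e7 i hi m hm (Or.inl ha) e
  · by_cases h3 : i ≤ j
    · rw [e1 i h3]
      exact h.bot i (fun h4 => h1 (mem_lowI.1 h4).1) fun h4 => h1 (h4 ▸ hj)
    · unfold glue
      rw [if_neg h3, if_neg (not_or.2 ⟨h1, h2⟩)]
  · by_cases h3 : i ≤ j
    · rw [low_of_le h3, e1 i h3]
    · rw [low_of_lt (not_le.1 h3), h.bot i (fun h4 => h3 (mem_lowI.1 h4).2.le) (by omega)]
  · rcases Nat.eq_zero_or_pos m with rfl | hm
    · rw [upp_zero, h'.bot 0 (fun h4 => (mem_uppI.1 h4).2.false) (by omega)]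
    · unfold upp
      rw [e1 j le_rfl]
      by_cases h1 : j + m ∈ I ∨ m = l
      · rw [e2 m hm h1]
        exact (h.rel.stab_comap (h'.stab_of (e3 m hm h1))).2.2
      · obtain ⟨h2, h3⟩ := not_or.1 h1
        unfold glue
        rw [if_neg (by omega), if_neg (not_or.2 ⟨h2, by omega⟩), Submodule.map_bot,
          h'.bot m (fun h4 => h2 (mem_uppI.1 h4).1) h3]

theorem Flag.glue_split (h : Flag n (j + l) I F) (hr : Rel n j (F j)) :
    glue n j l I (low j F) (upp n j F) = F := by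
  funext i
  unfold glue
  by_cases h1 : i ≤ j
  · rw [if_pos h1, low_of_le h1]
  · rw [if_neg h1]
    by_cases h2 : i ∈ I ∨ i = j + l
    · rw [if_pos h2, low_of_le le_rfl]
      unfold upp
      rw [Nat.add_sub_cancel' (not_le.1 h1).le]
      exact hr.comap_map (h.le_of hj h2 (not_le.1 h1).le)
    · rw [if_neg h2, h.bot i (not_or.1 h2).1 (not_or.1 h2).2]

theorem Flag.fU_split (h : Flag n (j + l) I F) (hr : Rel n j (F j)) :
    fU n (j + l) (F (j + l)) = fU n j (low j F j) + fU n l (upp n j F l) := by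
  rw [low_of_le le_rfl]
  exact h.rel.fU_map hr (h.le_top j hj)

theorem Flag.chi_split (h : Flag n (j + l) I F) (hr : Rel n j (F j)) :
    chi n (F (j + l)) = chi n (low j F j) * chi n (upp n j F l) := by
  rw [low_of_le le_rfl]
  exact hr.chi_map h.rel.stab (h.le_top j hj)

theorem low_forget : low j (forget (j + l) I F) = forget j (lowI j I) (low j F) := by
  have h0 := Finset.mem_Ioo.1 (hI hj)
  funext i
  by_cases h1 : i ≤ j
  · rw [low_of_le h1]
    unfold forget
    rw [low_of_le h1]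
    refine if_congr ?_ rfl rfl
    rw [mem_lowI]
    constructor
    · rintro (h2 | h2)
      · exact h1.lt_or_eq.imp_left fun h3 => ⟨h2, h3⟩
      · omega
    · rintro (h2 | rfl)
      · exact Or.inl h2.1
      · exact Or.inl hj
  · rw [low_of_lt (not_le.1 h1)]
    unfold forget
    rw [low_of_lt (not_le.1 h1), ite_self]

theorem upp_forget : upp n j (forget (j + l) I F) = forget l (uppI j I) (upp n j F) := by
  have h0 := Finset.mem_Ioo.1 (hI hj)
  funext m
  rcases Nat.eq_zero_or_pos m with rfl | hm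
  · rw [upp_zero]
    unfold forget
    rw [upp_zero, ite_self]
  · unfold upp
    rw [forget_of_mem hj]
    unfold forget
    by_cases h1 : j + m ∈ I ∨ j + m = j + l
    · rw [if_pos h1, if_pos (h1.imp (fun h2 => mem_uppI.2 ⟨h2, hm⟩) Nat.add_left_cancel)]
    · rw [if_neg h1, if_neg fun h2 : m ∈ uppI j I ∨ m = l =>
        h1 (h2.imp (fun h3 => (mem_uppI.1 h3).1) fun h3 => by rw [h3]), Submodule.map_bot]

end Split

theorem Flag.le_full (h : Flag n w (Finset.Ioo 0 w) F) {a b : ℕ} (e : a ≤ b) (hb : b ≤ w) :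
    F a ≤ F b := by
  rcases e.lt_or_eq with h1 | rfl
  · rcases Nat.eq_zero_or_pos a with rfl | ha
    · rw [h.bot 0 (by simp) (by omega)]
      exact bot_le
    · exact h.le_of (Finset.mem_Ioo.2 ⟨ha, by omega⟩)
        (hb.lt_or_eq.imp_left fun h2 => Finset.mem_Ioo.2 ⟨by omega, h2⟩) e
  · exact le_rfl

theorem Flag.allRel_split (hj : 0 < j) (hl : 0 < l) (h : Flag n (j + l) (Finset.Ioo 0 (j + l)) F) :
    AllRel n (j + l) F ↔ AllRel n j (low j F) ∧ AllRel n l (upp n j F) := by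
  refine ⟨fun hr => ⟨fun i hi => ?_, fun m hm => ?_⟩, fun ⟨h1, h2⟩ i hi => ?_⟩
  · rw [low_of_le hi]
    exact hr i (by omega)
  · exact ((hr (j + m) (by omega)).rel_map (hr j (by omega)) (h.le_full (by omega) (by omega))).1
  · have h3 : ∀ a ≤ j, Rel n a (F a) := fun a ha => by simpa only [low_of_le ha] using h1 a ha
    by_cases h4 : i ≤ j
    · exact h3 i h4
    · obtain ⟨m, rfl⟩ := Nat.exists_eq_add_of_le (not_le.1 h4).le
      have h5 := (h2 m (by omega)).rel_comap (h3 j le_rfl)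
      unfold upp at h5
      rwa [(h3 j le_rfl).comap_map (h.le_full (by omega) hi)] at h5

theorem Flag.jmap_split (hj : 0 < j) (hl : 0 < l) (h : Flag n (j + l) (Finset.Ioo 0 (j + l)) F)
    (hr : AllRel n (j + l) F) :
    (∀ a, jmap n j (low j F) a = jmap n (j + l) F (Fin.castAdd l a)) ∧
      ∀ b, jmap n l (upp n j F) b = jmap n (j + l) F (Fin.natAdd j b) := by
  obtain ⟨h1, h2⟩ := (h.allRel_split hj hl).1 hr
  have h3 : ∀ m ≤ l, ∀ i, coef n (j + m) (F (j + m)) i 1 =
      coef n j (F j) i 1 + coef n m (upp n j F m) i 1 := by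
    intro m hm i
    obtain ⟨h4, h5⟩ := (hr (j + m) (by omega)).rel_map (hr j (by omega))
      (h.le_full (by omega) (by omega))
    rw [h5, (hr j (by omega)).band.conv_one h4.band]
    rfl
  refine ⟨fun a => funext fun i => ?_, fun b => funext fun i => ?_⟩
  · unfold jmap
    rw [if_pos h1, if_pos hr, low_of_le a.2.le, low_of_le (Nat.succ_le_of_lt a.2)]
    rfl
  · unfold jmap
    rw [if_pos h2, if_pos hr, Fin.val_natAdd, add_assoc, h3 b b.2.le,
      h3 (b + 1) (Nat.succ_le_of_lt b.2)]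
    ring

section Full
variable [NeZero n] {x : Fin w → Fin n → K}

theorem val_intCast' (i : ℤ) : (((Fin.intCast i : Fin n) : ℕ) : ℤ) = i % n := by
  have h1 : ((Fin.intCast i : Fin n) : ℕ) = (i % n).toNat := Fin.val_intCast i
  rw [h1, Int.toNat_of_nonneg (Int.emod_nonneg _ (by exact_mod_cast NeZero.ne n))]

theorem intCast_add (i : ℤ) : (Fin.intCast (i + n) : Fin n) = Fin.intCast i := by
  apply Fin.ext
  have h1 := val_intCast' (n := n) (i + n)
  rw [Int.add_emod_right, ← val_intCast'] at h1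
  exact_mod_cast h1

theorem intCast_val (i : Fin n) : (Fin.intCast ((i : ℕ) : ℤ) : Fin n) = i := by
  apply Fin.ext
  have h1 := val_intCast' (n := n) ((i : ℕ) : ℤ)
  rw [Int.emod_eq_of_lt (by positivity) (by exact_mod_cast i.2)] at h1
  exact_mod_cast h1

omit [NeZero n] in
theorem Band.per_mul {g : ℤ → ℕ → K} (h : Band n w g) (i : ℤ) (l : ℕ) (c : ℤ) :
    g (i + n * c) l = g i l := by
  induction c using Int.induction_on with
  | zero => simp
  | succ c ih => rw [mul_add, mul_one, ← add_assoc, h.per, ih]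
  | pred c ih => rw [← h.per, ← ih]; congr 1; ring

theorem wh_one (x : Fin n → K) (i : ℤ) : wh x i 1 = -x (Fin.intCast i) := by simp [wh]

theorem whs_succ {m : ℕ} (hm : m < w) : whs x (m + 1) = conv (whs x m) (wh (x ⟨m, hm⟩)) := by
  rw [whs, dif_pos hm]

theorem flagOf_of_le {m : ℕ} (hm : m ≤ w) : flagOf x m = Sol m (whs x m) := if_pos hm

omit [NeZero n] in
theorem filter_succ {m : ℕ} (hm : m < w) :
    (Finset.univ.filter fun a : Fin w => (a : ℕ) < m + 1) =
      insert ⟨m, hm⟩ (Finset.univ.filter fun a : Fin w => (a : ℕ) < m) := by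
  ext a
  simp only [Finset.mem_filter, Finset.mem_univ, true_and, Finset.mem_insert, Fin.ext_iff]
  omega

theorem band_wh {x : Fin n → K} (hx : ∀ i, x i ≠ 0) : Band n 1 (wh x) := by
  refine ⟨fun i l => ?_, fun i => if_pos rfl, fun i => ?_, fun i l hl => ?_⟩
  · unfold wh
    rw [intCast_add]
  · rw [wh_one]
    exact neg_ne_zero.2 (hx _)
  · unfold wh
    rw [if_neg (by omega), if_neg (by omega)]

theorem band_whs (hx : ∀ a i, x a i ≠ 0) {m : ℕ} (hm : m ≤ w) : Band n m (whs x m) := by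
  induction m with
  | zero =>
    exact ⟨fun _ _ => rfl, fun _ => by simp [whs], fun _ => by simp [whs],
      fun _ l hl => if_neg hl.ne'⟩
  | succ m ih =>
    rw [whs_succ hm]
    exact (ih (by omega)).band_conv (band_wh (hx _))

theorem flagOf_zero (hx : ∀ a i, x a i ≠ 0) : flagOf x 0 = ⊥ := by
  rw [flagOf_of_le (Nat.zero_le _)]
  exact rel_zero_iff.1 (band_whs hx (Nat.zero_le _)).rel

theorem flagOf_succ (hx : ∀ a i, x a i ≠ 0) {m : ℕ} (hm : m < w) :
    flagOf x (m + 1) = (Sol 1 (wh (x ⟨m, hm⟩))).comap (op m (whs x m)) := by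
  rw [flagOf_of_le hm, whs_succ hm, (band_whs hx hm.le).sol_conv (band_wh (hx _))]

theorem flagOf_mono (hx : ∀ a i, x a i ≠ 0) {a b : ℕ} (e : a ≤ b) (hb : b ≤ w) :
    flagOf x a ≤ flagOf x b := by
  induction b, e using Nat.le_induction with
  | base => exact le_rfl
  | succ b _ ih =>
    refine (ih (by omega)).trans ?_
    rw [flagOf_succ hx hb, flagOf_of_le (by omega)]
    exact LinearMap.ker_le_comap _

theorem coef_flagOf (hx : ∀ a i, x a i ≠ 0) {m : ℕ} (hm : m ≤ w) :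
    coef n m (flagOf x m) = whs x m := by
  rw [flagOf_of_le hm, (band_whs hx hm).coef_sol]

theorem rel_flagOf (hx : ∀ a i, x a i ≠ 0) {m : ℕ} (hm : m ≤ w) : Rel n m (flagOf x m) := by
  rw [flagOf_of_le hm]
  exact (band_whs hx hm).rel

theorem whs_succ_one (hx : ∀ a i, x a i ≠ 0) {m : ℕ} (hm : m < w) (i : ℤ) :
    whs x (m + 1) i 1 = whs x m i 1 - x ⟨m, hm⟩ (Fin.intCast i) := by
  rw [whs_succ hm, (band_whs hx hm.le).conv_one (band_wh (hx _)), wh_one, sub_eq_add_neg]

theorem flagOf_flag (hx : ∀ a i, x a i ≠ 0) :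
    Flag n w (Finset.Ioo 0 w) (flagOf x) ∧ AllRel n w (flagOf x) ∧ jmap n w (flagOf x) = x := by
  have h1 : AllRel n w (flagOf x) := fun i hi => rel_flagOf hx hi
  refine ⟨⟨h1 w le_rfl, fun i hi => (h1 i (Finset.mem_Ioo.1 hi).2.le).stab,
    fun i hi => (h1 i (Finset.mem_Ioo.1 hi).2.le).finrank_eq,
    fun i hi => flagOf_mono hx (Finset.mem_Ioo.1 hi).2.le le_rfl,
    fun i _ a ha e => flagOf_mono hx e (Finset.mem_Ioo.1 ha).2.le, fun i h2 h3 => ?_⟩, h1,
    funext fun a => funext fun i => ?_⟩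
  · rcases Nat.eq_zero_or_pos i with rfl | hi
    · exact flagOf_zero hx
    · rw [Finset.mem_Ioo] at h2
      exact if_neg (by omega)
  · unfold jmap
    rw [if_pos h1, coef_flagOf hx a.2.le, coef_flagOf hx (Nat.succ_le_of_lt a.2),
      whs_succ_one hx a.2, intCast_val, sub_sub_cancel]

theorem Flag.jmap_spec (h : Flag n w (Finset.Ioo 0 w) F) (hr : AllRel n w F) :
    (∀ a i, jmap n w F a i ≠ 0) ∧ flagOf (jmap n w F) = F := by
  have h1 : ∀ a : Fin w, ∃ g, Band n 1 g ∧
      coef n (a + 1) (F (a + 1)) = conv (coef n a (F a)) g ∧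
      ∀ i : Fin n, jmap n w F a i = -g i 1 := by
    intro a
    obtain ⟨h2, h3⟩ := (hr (a + 1) (Nat.succ_le_of_lt a.2)).rel_map (hr a a.2.le)
      (h.le_full (Nat.le_succ _) (Nat.succ_le_of_lt a.2))
    refine ⟨_, h2.band, h3, fun i => ?_⟩
    unfold jmap
    rw [if_pos hr, h3, (hr a a.2.le).band.conv_one h2.band]
    ring
  have h2 : ∀ m ≤ w, whs (jmap n w F) m = coef n m (F m) := by
    intro m hm
    induction m with
    | zero =>
      have h3 := (hr 0 hm).band
      funext i l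
      rcases Nat.eq_zero_or_pos l with rfl | hl
      · rw [h3.one]; simp [whs]
      · rw [h3.zero i l hl]; exact if_neg hl.ne'
    | succ m ih =>
      obtain ⟨g, h3, h4, h5⟩ := h1 ⟨m, hm⟩
      rw [whs_succ hm, ih (by omega)]
      refine Eq.trans ?_ h4.symm
      congr 1
      funext i l
      unfold wh
      split_ifs with h6 h7
      · rw [h6, h3.one]
      · rw [h7, h5, neg_neg, val_intCast', ← h3.per_mul _ 1 (i / n), Int.emod_add_mul_ediv]
      · rw [h3.zero i l (by omega)]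
  refine ⟨fun a i => ?_, funext fun m => ?_⟩
  · obtain ⟨g, h3, -, h5⟩ := h1 a
    rw [h5]
    exact neg_ne_zero.2 (h3.top _)
  · by_cases hm : m ≤ w
    · rw [flagOf_of_le hm, h2 m hm]
      exact (hr m hm).eq_sol.symm
    · rw [h.bot m (fun h3 => hm (Finset.mem_Ioo.1 h3).2.le) (by omega)]
      exact if_neg hm

theorem whs_one (hx : ∀ a i, x a i ≠ 0) {m : ℕ} (hm : m ≤ w) (i : ℤ) : whs x m i 1 =
    -∑ a ∈ Finset.univ.filter fun a : Fin w => (a : ℕ) < m, x a (Fin.intCast i) := by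
  induction m with
  | zero => simp [whs]
  | succ m ih =>
    rw [whs_succ_one hx hm, ih (by omega), filter_succ hm, Finset.sum_insert (by simp)]
    ring

theorem fU_flagOf (hx : ∀ a i, x a i ≠ 0) : fU n w (flagOf x w) = ∑ a, ∑ i, x a i := by
  unfold fU
  rw [coef_flagOf hx le_rfl, Finset.sum_range, Finset.sum_comm, ← Finset.sum_neg_distrib]
  refine Finset.sum_congr rfl fun i _ => ?_
  rw [whs_one hx le_rfl, neg_neg, intCast_val, Finset.filter_true_of_mem fun a _ => a.2]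

theorem chi_wh {x : Fin n → K} (hx : ∀ i, x i ≠ 0) :
    chi n (Sol 1 (wh x)) = X - C (∏ i, x i) := by
  have h := band_wh hx
  rw [(chi_monic _).eq_X_add_C (h.stab.natDegree_chi.trans h.finrank_sol), h.chi_sol_coeff,
    Finset.prod_range]
  simp only [wh_one, intCast_val, pow_one, neg_mul, one_mul, neg_neg, map_neg, sub_eq_add_neg]

theorem chi_flagOf (hx : ∀ a i, x a i ≠ 0) {m : ℕ} (hm : m ≤ w) :
    chi n (flagOf x m) = chiA x m := by
  unfold chiA
  induction m with
  | zero => rw [flagOf_zero hx, chi_bot]; simp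
  | succ m ih =>
    have h1 := rel_flagOf hx (Nat.le_of_succ_le hm)
    have h2 := (h1.stab_comap (band_wh (hx ⟨m, hm⟩)).stab).2.2
    rw [h1.chi_map (rel_flagOf hx hm).stab (flagOf_mono hx (Nat.le_succ m) hm), ih (by omega),
      filter_succ hm, Finset.prod_insert (by simp), mul_comm, flagOf_succ hx hm,
      ← coef_flagOf hx (Nat.le_of_succ_le hm), h2, chi_wh (hx _)]

end Full

end Pool.Agent.Lib.MP_fc2ced_ag.K
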