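import Pool.Agent.Lib.MP_fc2ced_ag.K.Gr
import Pool.Agent.Lib.MP_fc2ced_ag.K.SeqC
import Pool.Agent.Lib.MP_fc2ced_ag.K.SeqD

/-! Specialization of recurrences and of their spaces of solutions. -/

open Module Polynomial

namespace Pool.Agent.Lib.MP_fc2ced_ag.K

namespace Place

variable {k : Type} [Field k] {K K' : Fld k} (φ : Place K K')

/-- Specialization of coefficients. -/
def CR (g : ℤ → ℕ → K) (g' : ℤ → ℕ → K') : Prop := ∀ i l, φ (g i l) (g' i l)

variable {φ} {n w : ℕ} {g : ℤ → ℕ → K} {g' : ℤ → ℕ → K'} {U W : Sp K} {U' W' : Sp K'}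
  {y : Sq K} {y' : Sq K'}

theorem VR.sh (h : φ.VR y y') : φ.VR (sh K n y) (sh K' n y') := fun _ => h _

theorem VR.op (h : φ.VR y y') (hg : φ.CR g g') : φ.VR (op w g y) (op w g' y') :=
  fun i => Place.sum (s := Finset.range (w + 1)) fun l _ => (hg i l).mul (h (i + l))

/-- Solutions whose values on a window specialize do specialize. -/
theorem CR.vr (hg : φ.CR g g') (h : Band n w g) (h' : Band n w g') {z : Sq K} {z' : Sq K'}
    (hz : φ.VR z z') (e : op w g y = z) (e' : op w g' y' = z')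
    (h0 : ∀ t : ℤ, 0 ≤ t → t < w → φ (y t) (y' t)) : φ.VR y y' := by
  have key : ∀ (m : ℕ) (t : ℤ), -(m : ℤ) ≤ t → t < w + m → φ (y t) (y' t) := by
    intro m
    induction m with
    | zero => exact fun t a b => h0 t (by omega) (by omega)
    | succ m ih =>
      have up : ∀ t : ℤ, -(m : ℤ) ≤ t → t < w + m + 1 → φ (y t) (y' t) := fun t a b => by
        rcases lt_or_ge t (w + m) with c | c
        · exact ih t a c
        obtain rfl : t = m + w := by omega
        have k := congrFun e m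
        have k' := congrFun e' m
        rw [op_apply, Finset.sum_range_succ] at k k'
        refine (((hz m).sub (Place.sum (s := Finset.range w) fun l hl => (hg m l).mul
          (ih (m + l) (by omega) (by have := Finset.mem_range.1 hl; omega)))).div (hg m w)
          (h'.top m)).congr ?_ ?_
        · rw [← k, add_sub_cancel_left, mul_div_cancel_left₀ _ (h.top _)]
        · rw [← k', add_sub_cancel_left, mul_div_cancel_left₀ _ (h'.top _)]
      intro t a b
      rcases le_or_gt (-(m : ℤ)) t with c | c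
      · exact up t c (by omega)
      have k := congrFun e t
      have k' := congrFun e' t
      rw [op_apply, Finset.sum_range_succ', Nat.cast_zero, add_zero] at k k'
      rw [h.one, one_mul] at k
      rw [h'.one, one_mul] at k'
      refine ((hz t).sub (Place.sum (s := Finset.range w) fun l hl => (hg t (l + 1)).mul
        (up (t + (l + 1 : ℕ)) (by omega) (by have := Finset.mem_range.1 hl; omega)))).congr ?_ ?_
      · rw [← k, add_sub_cancel_left]
      · rw [← k', add_sub_cancel_left]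
  exact fun t => key t.natAbs.succ t (by omega) (by omega)

theorem CR.exists_sol (hg : φ.CR g g') (h : Band n w g) (h' : Band n w g') {z : Sq K} {z' : Sq K'}
    (hz : φ.VR z z') : ∃ y y', φ.VR y y' ∧ op w g y = z ∧ op w g' y' = z' := by
  obtain ⟨y, e, a⟩ := h.exists_sol z 0 0
  obtain ⟨y', e', a'⟩ := h'.exists_sol z' 0 0
  refine ⟨y, y', hg.vr h h' hz e e' fun t b c => ?_, e, e'⟩
  rw [a t b (by omega), a' t b (by omega)]
  exact φ.zero

theorem CR.sol (hg : φ.CR g g') (h : Band n w g) (h' : Band n w g') :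
    φ.GR (Sol w g) (Sol w g') := by
  choose u hu e using fun a : Fin w => h.su (fun t => if (a : ℤ) = t then 1 else 0) 0
  choose u' hu' e' using fun a : Fin w => h'.su (fun t => if (a : ℤ) = t then 1 else 0) 0
  have := h.stab.fin
  have := h'.stab.fin
  have c : ∀ a b : Fin w, (((a : ℕ) : ℤ) = (b : ℕ)) = (a = b) := fun a b => by
    simp [Fin.ext_iff]
  have k := lin_span _ h.finrank_sol (fun b => ((b : ℕ) : ℤ)) u hu fun a b => by
    rw [e a _ (by omega) (by omega)]
    simp only [c]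
  have k' := lin_span _ h'.finrank_sol (fun b => ((b : ℕ) : ℤ)) u' hu' fun a b => by
    rw [e' a _ (by omega) (by omega)]
    simp only [c]
  refine ⟨w, u, u', fun a => hg.vr h h' VR.zero (hu a) (hu' a) fun t b c => ?_, k.1, k'.1, k'.2⟩
  rw [e a t b (by omega), e' a t b (by omega)]
  split_ifs
  exacts [φ.one, φ.zero]

theorem GR.coef (h : φ.GR U U') (hU : Rel n w U) (hU' : Rel n w U') :
    φ.CR (coef n w U) (coef n w U') := by
  intro i l
  have b := hU.band
  have b' := hU'.band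
  rcases l with _ | l
  · rw [b.one, b'.one]
    exact φ.one
  rcases lt_or_ge l w with hl | hl
  swap
  · rw [b.zero _ _ (by omega), b'.zero _ _ (by omega)]
    exact φ.zero
  obtain ⟨y, hy, e⟩ := b.su (fun t => if t = i + 1 + l then 1 else 0) (i + 1)
  have c : ∀ t, i + 1 ≤ t → t < i + 1 + w → φ (y t) (if t = i + 1 + l then 1 else 0) :=
    fun t a1 a2 => by
      rw [e t a1 a2]
      split_ifs
      exacts [φ.one, φ.zero]
  have hy' : y ∈ U := hU.eq_sol.ge hy
  obtain ⟨y', hv⟩ := h.exists_of_piv (Set.Ico (i + 1) (i + 1 + w))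
    (fun z' hz' k => hU'.eq_zero hz' (i + 1) fun t a1 a2 => k t ⟨a1, a2⟩) hy'
    fun t ht => ⟨_, c t ht.1 ht.2⟩
  rw [An.val (U := U) ⟨b.one i, b.zero i, fun _ k => mem_Sol.1 (hU.eq_sol.le k) i⟩ hy' hl e,
    An.val (U := U') ⟨b'.one i, b'.zero i, fun _ k => mem_Sol.1 (hU'.eq_sol.le k) i⟩ (h.mem hy' hv)
      hl fun t a1 a2 => φ.func (hv t) (c t a1 a2)]
  exact (hv i).neg

theorem GR.fU (h : φ.GR U U') (hU : Rel n w U) (hU' : Rel n w U') : φ (fU n w U) (fU n w U') :=
  (Place.sum (s := Finset.range n) fun i _ => h.coef hU hU' i 1).neg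

theorem GR.stab (h : φ.GR U U') (hU : Stab n U) : Stab n U' :=
  have := h.finite.1
  have := h.finite.2
  ⟨this, (h.charpoly (MP_fc2ced_ag.K.sh K n).toLinearMap (MP_fc2ced_ag.K.sh K' n).toLinearMap (fun _ _ => VR.sh) hU.mem).1⟩

theorem GR.chi (h : φ.GR U U') (hU : Stab n U) : φ.PR (chi n U) (chi n U') := by
  have := h.finite.1
  have := h.finite.2
  rw [hU.chi_eq, (h.stab hU).chi_eq]
  exact (h.charpoly (MP_fc2ced_ag.K.sh K n).toLinearMap (MP_fc2ced_ag.K.sh K' n).toLinearMap (fun _ _ => VR.sh) hU.mem).2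

/-- Relevance is an open condition. -/
theorem GR.rel (h : φ.GR U U') (hU : Stab n U) (hU' : Rel n w U') : Rel n w U :=
  rel_iff.2 ⟨hU, h.finrank.symm.trans hU'.finrank_eq, fun y hy i k => h.piv (Set.Ico i (i + w))
    (fun _ hz' k' => hU'.eq_zero hz' i fun t a b => k' t ⟨a, b⟩) y hy fun t ht => k t ht.1 ht.2⟩

theorem GR.map_op (h : φ.GR U U') (h₁ : φ.GR W W') (e : W ≤ U) (hW : Rel n w W)
    (hW' : Rel n w W') : φ.GR (U.map (op w (_root_.Pool.Agent.Lib.MP_fc2ced_ag.K.coef n w W))) (U'.map (op w (_root_.Pool.Agent.Lib.MP_fc2ced_ag.K.coef n w W'))) :=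
  h.map h₁ e _ _ (fun _ _ k => k.op (h₁.coef hW hW')) hW.eq_sol.le
    (inf_le_right.trans hW'.eq_sol.ge)

theorem GR.comap_op (h : φ.GR U U') (h₁ : φ.GR W W') (hW : Rel n w W) (hW' : Rel n w W') :
    φ.GR (U.comap (op w (_root_.Pool.Agent.Lib.MP_fc2ced_ag.K.coef n w W))) (U'.comap (op w (_root_.Pool.Agent.Lib.MP_fc2ced_ag.K.coef n w W'))) :=
  h.comap _ _ ((h₁.coef hW hW').sol hW.band hW'.band) fun _ _ =>
    (h₁.coef hW hW').exists_sol hW.band hW'.band

theorem CR.whs [NeZero n] {x : Fin w → Fin n → K} {x' : Fin w → Fin n → K'}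
    (h : ∀ a i, φ (x a i) (x' a i)) (m : ℕ) : φ.CR (whs x m) (whs x' m) := by
  induction m with
  | zero =>
    intro i l
    simp only [MP_fc2ced_ag.K.whs]
    split_ifs
    exacts [φ.one, φ.zero]
  | succ m ih =>
    intro i l
    simp only [MP_fc2ced_ag.K.whs]
    split_ifs with hm
    · refine Place.sum fun a _ => R.mul ?_ (ih _ _)
      simp only [wh]
      split_ifs
      exacts [φ.one, (h _ _).neg, φ.zero]
    · exact φ.zero

theorem GR.flagOf [NeZero n] {x : Fin w → Fin n → K} {x' : Fin w → Fin n → K'}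
    (h : ∀ a i, φ (x a i) (x' a i)) (h' : ∀ a i, x' a i ≠ 0) (m : ℕ) :
    φ.GR (flagOf x m) (flagOf x' m) := by
  simp only [MP_fc2ced_ag.K.flagOf]
  split_ifs with hm
  · exact (CR.whs h m).sol (band_whs (fun a i => (h a i).ne_zero (h' a i)) hm) (band_whs h' hm)
  · exact GR.bot

theorem PR.chiA {x : Fin w → Fin n → K} {x' : Fin w → Fin n → K'}
    (h : ∀ a i, φ (x a i) (x' a i)) (m : ℕ) : φ.PR (chiA x m) (chiA x' m) :=
  PR.prod fun a _ => PR.X.sub (PR.C (Place.prod fun i _ => h a i))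

theorem VR.psi {j e : ℤ} {c : ℤ → K} {c' : ℤ → K'} {μ : Sq K} {μ' : Sq K'} (D : Desc n W j e c μ)
    (D' : Desc n W' j e c' μ') (hc : ∀ l, j + 2 ≤ l → l ≤ e → φ (c l) (c' l)) (hμ : φ.VR μ μ')
    {r : K} {r' : K'} (hr : φ r r') (h : φ.VR y y') : φ.VR (D.psi r y) (D'.psi r' y') := by
  have th : ∀ {y y'}, φ.VR y y' → φ (theta j e c y) (theta j e c' y') := fun k =>
    (k _).add (Place.sum fun l hl =>
      (hc l (Finset.mem_Icc.1 hl).1 (Finset.mem_Icc.1 hl).2).mul (k l))
  have key : ∀ (q : ℤ) (y y'), φ.VR y y' → φ.VR (((D.tr r * (MP_fc2ced_ag.K.sh K n).symm) ^ q) y)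
      (((D'.tr r' * (MP_fc2ced_ag.K.sh K' n).symm) ^ q) y') := fun q => by
    induction q using Int.induction_on with
    | zero => exact fun _ _ k => k
    | succ q ih =>
      intro y y' k
      rw [zpow_add_one, zpow_add_one, LinearEquiv.mul_apply, LinearEquiv.mul_apply]
      refine ih _ _ ?_
      change φ.VR (D.tr r ((MP_fc2ced_ag.K.sh K n).symm y))
        (D'.tr r' ((MP_fc2ced_ag.K.sh K' n).symm y'))
      rw [D.tr_apply, D'.tr_apply]
      exact fun t => (k (t + n)).add ((hr.mul (th fun s => k (s + n))).mul (hμ t))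
    | pred q ih =>
      intro y y' k
      rw [zpow_sub_one, zpow_sub_one, LinearEquiv.mul_apply, LinearEquiv.mul_apply]
      refine ih _ _ ?_
      change φ.VR (MP_fc2ced_ag.K.sh K n ((D.tr r).symm y)) (MP_fc2ced_ag.K.sh K' n ((D'.tr r').symm y'))
      rw [D.tr_symm, D'.tr_symm]
      exact VR.sh fun t => (k t).sub ((hr.mul (th k)).mul (hμ t))
  intro t
  obtain ⟨s, q, h1, h2, rfl⟩ := exists_res D.pos j t
  rw [D.psi_at r _ q h1 h2, D'.psi_at r' _ q h1 h2]
  exact key q y y' h s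

/-- The specialization of a flag is determined by finitely many elements. -/
theorem flag_fin (hn : 0 < n) {I : Finset ℕ} {x : ℕ → Sp K} (hx : Flag n w I x) : ∃ S : Finset K,
    ∀ (K' : Fld k) (φ φ' : Place K K'), (∀ s ∈ S, φ s = φ' s) → ∀ y, Flag n w I y →
      (∀ i, φ.GR (x i) (y i)) → ∀ i, φ'.GR (x i) (y i) := by
  classical
  choose S hS using fun i => GR.fin (x i) (Finset.Ico (0 : ℤ) w)
  refine ⟨I.biUnion S ∪ (Finset.Ico (0 : ℤ) n ×ˢ Finset.range (w + 1)).image
    fun p => MP_fc2ced_ag.K.coef n w (x w) p.1 p.2, fun K' φ φ' e y hy h => ?_⟩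
  have b := hx.rel.band
  have b' := hy.rel.band
  have top : φ'.GR (x w) (y w) := by
    rw [hx.rel.eq_sol, hy.rel.eq_sol]
    refine CR.sol (fun i l => ?_) b b'
    rcases lt_or_ge w l with hl | hl
    · rw [b.zero _ _ hl, b'.zero _ _ hl]
      exact φ'.zero
    obtain ⟨s, q, h1, h2, rfl⟩ := exists_res hn (-1) i
    have p : Function.Periodic (fun i => MP_fc2ced_ag.K.coef n w (x w) i l) (n : ℤ) := fun i => b.per i l
    have p' : Function.Periodic (fun i => MP_fc2ced_ag.K.coef n w (y w) i l) (n : ℤ) := fun i => b'.per i l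
    have k := p.int_mul q s
    have k' := p'.int_mul q s
    simp only [Int.cast_id] at k k'
    rw [k, k', ← e _ (Finset.mem_union_right _ (Finset.mem_image.2 ⟨(s, l), by
      simp only [Finset.mem_product, Finset.mem_Ico, Finset.mem_range]; omega, rfl⟩))]
    exact (h w).coef hx.rel hy.rel s l
  intro i
  by_cases hi : i ∈ I
  · exact hS i K' φ φ' (fun s hs => e s (Finset.mem_union_left _
      (Finset.mem_biUnion.2 ⟨i, hi, hs⟩))) _ _ _ (hx.le_top i hi) (h w) top
      (fun z hz k => hy.rel.eq_zero hz 0 fun t a c => k t (Finset.mem_Ico.2 ⟨a, by omega⟩)) (h i)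
  by_cases hw : i = w
  · rw [hw]
    exact top
  · rw [hx.bot i hi hw, hy.bot i hi hw]
    exact GR.bot

/-- A specialization of a flag with relevant top is a flag. -/
theorem flag_of_gr {I : Finset ℕ} {x : ℕ → Sp K} {y : ℕ → Sp K'} (hx : Flag n w I x)
    (h : ∀ i, φ.GR (x i) (y i)) (hy : Rel n w (y w)) : Flag n w I y :=
  ⟨hy, fun i hi => (h i).stab (hx.stab i hi), fun i hi => (h i).finrank.trans (hx.rank i hi),
    fun i hi => (h i).mono (h w) (hx.le_top i hi),
    fun i hi j hj e => (h i).mono (h j) (hx.mono i hi j hj e),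
    fun i hi hw => (h i).func (hx.bot i hi hw ▸ GR.bot)⟩

end Place

theorem Flag.stab' {K : Type} [Field K] {n w : ℕ} {I : Finset ℕ} {x : ℕ → Sp K}
    (hx : Flag n w I x) (i : ℕ) : Stab n (x i) ∧ x i ≤ x w := by
  by_cases hi : i ∈ I
  · exact ⟨hx.stab i hi, hx.le_top i hi⟩
  by_cases hw : i = w
  · rw [hw]
    exact ⟨hx.rel.stab, le_rfl⟩
  · rw [hx.bot i hi hw]
    exact ⟨Stab.bot, bot_le⟩

theorem Flag.finite {K : Type} [Field K] {n w : ℕ} {I : Finset ℕ} {x : ℕ → Sp K}
    (hx : Flag n w I x) (i : ℕ) : FiniteDimensional K (x i) := (hx.stab' i).1.fin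

end Pool.Agent.Lib.MP_fc2ced_ag.K
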