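import Pool.Agent.Lib.MP_fc2ced_ag.K.SF

/-! Roofs `A ← Z → B` whose left arrow is invertible in all theories. -/

open CategoryTheory Function

namespace Pool.Agent.Lib.MP_fc2ced_ag.K

noncomputable section

variable {k : Type} [Field k] {F : Type} [Field F]

open Ob

variable {Z A B Z' A' B' Z'' A'' B'' : Ob k F}

/-- The roof kills the map `w`. -/
def Kills (j : Z ⟶ A) (q : Z ⟶ B) {A₀ : Ob k F} (w : A₀ ⟶ A) : Prop :=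
  ∀ (Θ : Theory k F) (α : Θ.Φ.obj A ⟶ Θ.Φ.obj B), Θ.Φ.map j ≫ α = Θ.Φ.map q → Θ.Φ.map w ≫ α = 0

/-- The roof identifies `B` with the image of the idempotent `e` of `A`. -/
def Quo (j : Z ⟶ A) (q : Z ⟶ B) (e : A ⟶ A) : Prop :=
  ∀ (Θ : Theory k F) (α : Θ.Φ.obj A ⟶ Θ.Φ.obj B), Θ.Φ.map j ≫ α = Θ.Φ.map q →
    ∃ s, s ≫ α = 𝟙 _ ∧ α ≫ s = Θ.Φ.map e

variable {j : Z ⟶ A} {q : Z ⟶ B} {e : A ⟶ A} {j' : Z' ⟶ A'} {q' : Z' ⟶ B'} {e' : A' ⟶ A'}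
  {j'' : Z'' ⟶ A''} {q'' : Z'' ⟶ B''} {e'' : A'' ⟶ A''}

namespace Roof

theorem ex (hj : UIso j) (q : Z ⟶ B) (Θ : Theory k F) : ∃ α, Θ.Φ.map j ≫ α = Θ.Φ.map q :=
  have := hj Θ
  ⟨inv (Θ.Φ.map j) ≫ Θ.Φ.map q, IsIso.hom_inv_id_assoc _ _⟩

variable {Θ : Theory k F} {α : Θ.Φ.obj A ⟶ Θ.Φ.obj B}

theorem squ (hj : UIso j) {z : Z ⟶ Z'} {a : A ⟶ A'} {b : B ⟶ B'} (h1 : z ≫ j' = j ≫ a)
    (h2 : z ≫ q' = q ≫ b) {α' : Θ.Φ.obj A' ⟶ Θ.Φ.obj B'} (h : Θ.Φ.map j ≫ α = Θ.Φ.map q)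
    (h' : Θ.Φ.map j' ≫ α' = Θ.Φ.map q') : Θ.Φ.map a ≫ α' = α ≫ Θ.Φ.map b := by
  have := hj Θ
  rw [← cancel_epi (Θ.Φ.map j), ← Θ.Φ.map_comp_assoc, ← h1, Θ.Φ.map_comp_assoc, h', reassoc_of% h,
    ← Θ.Φ.map_comp, ← Θ.Φ.map_comp, h2]

theorem cmp {z₁ : Z'' ⟶ Z} {z₂ : Z'' ⟶ Z'} {j' : Z' ⟶ B} {q' : Z' ⟶ B'} (hj : UIso j)
    (hz : UIso z₁) (sq : z₁ ≫ q = z₂ ≫ j') {α' : Θ.Φ.obj B ⟶ Θ.Φ.obj B'}
    {β : Θ.Φ.obj A ⟶ Θ.Φ.obj B'} (h : Θ.Φ.map j ≫ α = Θ.Φ.map q)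
    (h' : Θ.Φ.map j' ≫ α' = Θ.Φ.map q') (hβ : Θ.Φ.map (z₁ ≫ j) ≫ β = Θ.Φ.map (z₂ ≫ q')) :
    β = α ≫ α' := by
  have := hz.comp hj Θ
  rw [← cancel_epi (Θ.Φ.map (z₁ ≫ j)), hβ, Θ.Φ.map_comp_assoc, reassoc_of% h,
    ← Θ.Φ.map_comp_assoc, sq, Θ.Φ.map_comp_assoc, h', Θ.Φ.map_comp]

theorem fix (h : Kills j q (e - 𝟙 A)) (hα : Θ.Φ.map j ≫ α = Θ.Φ.map q) : Θ.Φ.map e ≫ α = α := by
  have := h Θ α hα
  rwa [Θ.Φ.map_sub, Θ.Φ.map_id, Preadditive.sub_comp, Category.id_comp, sub_eq_zero] at this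

theorem iso_iff {P : Ob k F} {s : P ⟶ A} {p : A ⟶ P} (h1 : s ≫ p = 𝟙 P) (h2 : p ≫ s = e)
    (h : Θ.Φ.map e ≫ α = α) :
    IsIso (Θ.Φ.map s ≫ α) ↔ ∃ t, t ≫ α = 𝟙 _ ∧ α ≫ t = Θ.Φ.map e := by
  subst h2
  refine ⟨fun _ => ⟨inv (Θ.Φ.map s ≫ α) ≫ Θ.Φ.map s, by simp, ?_⟩, fun ⟨t, t1, t2⟩ =>
    ⟨t ≫ Θ.Φ.map p, ?_, ?_⟩⟩
  · refine (congrArg (· ≫ _) h.symm).trans ?_
    rw [Θ.Φ.map_comp, Category.assoc (Θ.Φ.map p), Category.assoc, IsIso.hom_inv_id_assoc]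
  · rw [Category.assoc, reassoc_of% t2, ← Θ.Φ.map_comp, ← Θ.Φ.map_comp, Category.assoc, h1,
      Category.comp_id, h1, Θ.Φ.map_id]
  · rw [Category.assoc, ← Θ.Φ.map_comp_assoc, h, t1]

theorem ses_split {P' P P'' : Ob k F} {i : A' ⟶ A} {π : A ⟶ A''} (T : Ses i π) {s' : P' ⟶ A'}
    {p' : A' ⟶ P'} {s : P ⟶ A} {p : A ⟶ P} {s'' : P'' ⟶ A''} {p'' : A'' ⟶ P''}
    (a' : s' ≫ p' = 𝟙 _) (a : s ≫ p = 𝟙 _) (a'' : s'' ≫ p'' = 𝟙 _)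
    (h5 : i ≫ p ≫ s = (p' ≫ s') ≫ i) (h6 : π ≫ p'' ≫ s'' = (p ≫ s) ≫ π) :
    Ses (s' ≫ i ≫ p) (s ≫ π ≫ p'') ∧ (s' ≫ i ≫ p) ≫ s = s' ≫ i ∧ (s ≫ π ≫ p'') ≫ s'' = s ≫ π := by
  have e1 : (s' ≫ i ≫ p) ≫ s = s' ≫ i := by simp only [Category.assoc, h5, reassoc_of% a']
  have e2 : (s ≫ π ≫ p'') ≫ s'' = s ≫ π := by simp only [Category.assoc, h6, reassoc_of% a]
  have e3 : p' ≫ s' ≫ i ≫ p = i ≫ p := by
    rw [← Category.assoc, ← Category.assoc, ← h5]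
    simp only [Category.assoc, a, Category.comp_id]
  have e4 : p ≫ s ≫ π ≫ p'' = π ≫ p'' := by
    rw [← Category.assoc, ← Category.assoc, ← h6]
    simp only [Category.assoc, a'', Category.comp_id]
  have e5 : (s' ≫ i ≫ p) ≫ s ≫ π ≫ p'' = 0 := by
    rw [← Category.assoc _ s, e1, Category.assoc, reassoc_of% T.zero, Limits.zero_comp, Limits.comp_zero]
  refine ⟨⟨fun O u v h => ?_, fun O v => ⟨fun h => ?_, ?_⟩, fun O v => ?_⟩, e1, e2⟩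
  · exact LeftInverse.injective (g := p'.1 O) (fun v => congr(($a').1 O v)) (T.inj O
      ((congr(($e1).1 O u)).symm.trans ((congrArg (s.1 O) h).trans congr(($e1).1 O v))))
  · obtain ⟨w, hw⟩ := (T.exact O (s.1 O v)).1 ((congr(($e2).1 O v)).symm.trans
      ((congrArg (s''.1 O) h).trans (map_zero _)))
    exact ⟨p'.1 O w, (congr(($e3).1 O w)).trans ((congrArg (p.1 O) hw).trans congr(($a).1 O v))⟩
  · rintro ⟨w, rfl⟩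
    exact congr(($e5).1 O w)
  · obtain ⟨u, hu⟩ := T.surj O (s''.1 O v)
    exact ⟨p.1 O u, (congr(($e4).1 O u)).trans ((congrArg (p''.1 O) hu).trans congr(($a'').1 O v))⟩

end Roof

open Roof

section Kills
variable {A₀ A₁ : Ob k F} {w w' : A₀ ⟶ A}

theorem Kills.of_null (h : Null w) : Kills j q w := fun Θ α _ => by
  rw [h Θ, Limits.zero_comp]
theorem Kills.add (h : Kills j q w) (h' : Kills j q w') : Kills j q (w + w') :=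
  fun Θ α hα => by rw [Θ.Φ.map_add, Preadditive.add_comp, h Θ α hα, h' Θ α hα, add_zero]
theorem Kills.precomp (h : Kills j q w) (u : A₁ ⟶ A₀) : Kills j q (u ≫ w) :=
  fun Θ α hα => by rw [Θ.Φ.map_comp_assoc, h Θ α hα, Limits.comp_zero]
theorem Kills.smul (h : Kills j q w) (c : F) : Kills j q (c • w) := by
  simpa using h.precomp (c • 𝟙 A₀)
theorem Kills.sum {ι : Type} {s : Finset ι} {w : ι → (A₀ ⟶ A)} (h : ∀ i ∈ s, Kills j q (w i)) :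
    Kills j q (∑ i ∈ s, w i) :=
  Finset.sum_induction w (Kills j q) (fun _ _ => .add) (.of_null .zero) h
theorem Kills.postcomp (hj : UIso j) (h : Kills j q w) (b : B ⟶ B') : Kills j (q ≫ b) w :=
  fun Θ β hβ => by
    obtain ⟨α, hα⟩ := ex hj q Θ
    have := hj Θ
    rw [show β = α ≫ Θ.Φ.map b by rw [← cancel_epi (Θ.Φ.map j), hβ, reassoc_of% hα, Θ.Φ.map_comp],
      reassoc_of% h Θ α hα, Limits.zero_comp]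
theorem Kills.of_postcomp {b : B ⟶ B'} (hb : UIso b) (h : Kills j (q ≫ b) w) : Kills j q w :=
  fun Θ α hα => by
    have := hb Θ
    rw [← cancel_mono (Θ.Φ.map b), Category.assoc, Limits.zero_comp]
    exact h Θ _ (by rw [reassoc_of% hα, Θ.Φ.map_comp])

/-- Change of the roof along a map of roofs. -/
theorem Kills.of_map {z : Z ⟶ Z'} {a : A ⟶ A'} {b : B ⟶ B'} (hj : UIso j) (hj' : UIso j')
    (h1 : z ≫ j' = j ≫ a) (h2 : z ≫ q' = q ≫ b) : Kills j' q' (w ≫ a) ↔ Kills j (q ≫ b) w := by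
  refine forall_congr' fun Θ => ⟨fun h β hβ => ?_, fun h α' hα' => ?_⟩
  · obtain ⟨α', hα'⟩ := ex hj' q' Θ
    have := squ hj (b := 𝟙 _) h1 (h2.trans (Category.comp_id _).symm) hβ hα'
    rw [Θ.Φ.map_id, Category.comp_id] at this
    rw [← this, ← Θ.Φ.map_comp_assoc, h α' hα']
  · rw [Θ.Φ.map_comp_assoc]
    exact h _ (by rw [← Θ.Φ.map_comp_assoc, ← h1, Θ.Φ.map_comp_assoc, hα', ← Θ.Φ.map_comp, h2])

/-- An automorphism of the roof that acts on the target as a scalar. -/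
theorem Kills.of_aut (hj : UIso j) {z : Z ⟶ Z} {a : A ⟶ A} {b : B ⟶ B} {c : F}
    (h1 : z ≫ j = j ≫ a) (h2 : z ≫ q = q ≫ b) (hb : Null (b - c • 𝟙 B)) :
    Kills j q (a - c • 𝟙 A) := fun Θ α hα => by
  rw [squ hj (z := z - c • 𝟙 Z) (b := b - c • 𝟙 B) (by simp [h1]) (by simp [h2]) hα hα, hb Θ,
    Limits.comp_zero]

/-- The first half of a composite roof. -/
theorem Kills.comp₁ {z₁ : Z'' ⟶ Z} {z₂ : Z'' ⟶ Z'} {j' : Z' ⟶ B} {q' : Z' ⟶ B'} (hj : UIso j)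
    (hz : UIso z₁) (hj' : UIso j') (sq : z₁ ≫ q = z₂ ≫ j') (h : Kills j q w) :
    Kills (z₁ ≫ j) (z₂ ≫ q') w := fun Θ β hβ => by
  obtain ⟨α, hα⟩ := ex hj q Θ
  obtain ⟨α', hα'⟩ := ex hj' q' Θ
  rw [cmp hj hz sq hα hα' hβ, reassoc_of% h Θ α hα, Limits.zero_comp]

/-- The second half of a composite roof. -/
theorem Kills.comp₂ {z₁ : Z'' ⟶ Z} {z₂ : Z'' ⟶ Z'} {j' : Z' ⟶ B} {q' : Z' ⟶ B'} (hj : UIso j)
    (hz : UIso z₁) (hj' : UIso j') (sq : z₁ ≫ q = z₂ ≫ j') {z : Z ⟶ Z} {a : A ⟶ A} {b : B ⟶ B}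
    (h1 : z ≫ j = j ≫ a) (h2 : z ≫ q = q ≫ b) (h : Kills j' q' b) :
    Kills (z₁ ≫ j) (z₂ ≫ q') a := fun Θ β hβ => by
  obtain ⟨α, hα⟩ := ex hj q Θ
  obtain ⟨α', hα'⟩ := ex hj' q' Θ
  rw [cmp hj hz sq hα hα' hβ, reassoc_of% squ hj h1 h2 hα hα, h Θ α' hα', Limits.comp_zero]

end Kills

theorem Quo.kills (h : Quo j q e) : Kills j q (e - 𝟙 A) := fun Θ α hα => by
  obtain ⟨s, s1, s2⟩ := h Θ α hα
  rw [Θ.Φ.map_sub, Θ.Φ.map_id, Preadditive.sub_comp, ← s2, Category.assoc, s1, Category.id_comp,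
    Category.comp_id, sub_self]

theorem Quo.of_uiso (hj : UIso j) (hq : UIso q) : Quo j q (𝟙 A) := fun Θ α hα => by
  have := hj Θ
  have : IsIso (Θ.Φ.map j ≫ α) := hα ▸ hq Θ
  have := IsIso.of_isIso_comp_left (Θ.Φ.map j) α
  exact ⟨inv α, IsIso.inv_hom_id _, by simp⟩

theorem Quo.of_uzero (he : Null e) (hB : UZero B) : Quo j q e := fun Θ _ _ =>
  ⟨0, (hB Θ).eq_of_src _ _, Limits.comp_zero.trans (he Θ).symm⟩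

theorem Quo.congr (h : Quo j q e) {e₁ : A ⟶ A} (he : Null (e - e₁)) : Quo j q e₁ :=
  fun Θ α hα => he.map_eq Θ ▸ h Θ α hα

/-- A retract of a roof. -/
theorem Quo.retract (h : Quo j' q' e') (hj : UIso j) (hj' : UIso j') {z : Z ⟶ Z'} {a : A ⟶ A'}
    {b : B ⟶ B'} {z' : Z' ⟶ Z} {a' : A' ⟶ A} {b' : B' ⟶ B} (h1 : z ≫ j' = j ≫ a)
    (h2 : z ≫ q' = q ≫ b) (h3 : z' ≫ j = j' ≫ a') (h4 : z' ≫ q = q' ≫ b') {c : F} (hc : c ≠ 0)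
    (hb : b ≫ b' = c • 𝟙 B) (ha : a ≫ e' ≫ a' = c • e) : Quo j q e := fun Θ α hα => by
  obtain ⟨α', hα'⟩ := ex hj' q' Θ
  obtain ⟨s, s1, s2⟩ := h Θ α' hα'
  have e1 := squ hj (z := c⁻¹ • z) (a := c⁻¹ • a) (b := c⁻¹ • b) (by simp [h1]) (by simp [h2]) hα hα'
  refine ⟨Θ.Φ.map (c⁻¹ • b) ≫ s ≫ Θ.Φ.map a', ?_, ?_⟩
  · rw [Category.assoc, Category.assoc, squ hj' h3 h4 hα' hα, reassoc_of% s1, ← Θ.Φ.map_comp,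
      Linear.smul_comp, hb, inv_smul_smul₀ hc, Θ.Φ.map_id]
  · rw [← reassoc_of% e1, reassoc_of% s2, ← Θ.Φ.map_comp, ← Θ.Φ.map_comp, Linear.smul_comp, ha,
      inv_smul_smul₀ hc]

/-- Transport along invertible maps. -/
theorem Quo.uiso_iff (hj : UIso j) (hj' : UIso j') {z : Z ⟶ Z'} {a : A ⟶ A'} {b : B ⟶ B'}
    (h1 : z ≫ j' = j ≫ a) (h2 : z ≫ q' = q ≫ b) (ha : UIso a) (hb : UIso b)
    (he : e ≫ a = a ≫ e') : Quo j q e ↔ Quo j' q' e' := by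
  refine forall_congr' fun Θ => ?_
  have := ha Θ
  have := hb Θ
  have e2 := (Θ.Φ.map_comp _ _).symm.trans ((congrArg Θ.Φ.map he).trans (Θ.Φ.map_comp _ _))
  refine ⟨fun h α' hα' => ?_, fun h α hα => ?_⟩
  · obtain ⟨α, hα⟩ := ex hj q Θ
    obtain ⟨s, s1, s2⟩ := h α hα
    have e1 := squ hj h1 h2 hα hα'
    refine ⟨inv (Θ.Φ.map b) ≫ s ≫ Θ.Φ.map a, ?_, ?_⟩
    · rw [Category.assoc, Category.assoc, e1, reassoc_of% s1, IsIso.inv_hom_id]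
    · rw [← cancel_epi (Θ.Φ.map a), reassoc_of% e1, IsIso.hom_inv_id_assoc, reassoc_of% s2, e2]
  · obtain ⟨α', hα'⟩ := ex hj' q' Θ
    obtain ⟨s, s1, s2⟩ := h α' hα'
    have e1 := squ hj h1 h2 hα hα'
    refine ⟨Θ.Φ.map b ≫ s ≫ inv (Θ.Φ.map a), ?_, ?_⟩
    · rw [← cancel_mono (Θ.Φ.map b), Category.assoc, ← e1, Category.assoc, Category.assoc,
        IsIso.inv_hom_id_assoc, s1, Category.id_comp, Category.comp_id]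
    · rw [← reassoc_of% e1, reassoc_of% s2, ← reassoc_of% e2, IsIso.hom_inv_id, Category.comp_id]

/-- Induction from a subgroup. -/
theorem Quo.induce (h : Quo j' q' e') (hj : UIso j) (hj' : UIso j') {z : Z' ⟶ Z} {a : A' ⟶ A}
    {b : B' ⟶ B} (h1 : z ≫ j = j' ≫ a) (h2 : z ≫ q = q' ≫ b) (hb : UIso b)
    (hk : Kills j q (e - 𝟙 A)) {π : A ⟶ A'} (h3 : e' ≫ a ≫ e = a ≫ e) (h4 : π ≫ a ≫ e = e) :
    Quo j q e := fun Θ α hα => by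
  obtain ⟨α', hα'⟩ := ex hj' q' Θ
  obtain ⟨s, s1, s2⟩ := h Θ α' hα'
  have := hb Θ
  have _ := hj
  have e1 := squ hj' h1 h2 hα' hα
  have e2 : Θ.Φ.map (a ≫ e) ≫ α = α' ≫ Θ.Φ.map b := by rw [Θ.Φ.map_comp_assoc, fix hk hα, e1]
  refine ⟨inv (Θ.Φ.map b) ≫ s ≫ Θ.Φ.map (a ≫ e), ?_, ?_⟩
  · rw [Category.assoc, Category.assoc, e2, reassoc_of% s1, IsIso.inv_hom_id]
  · rw [show α = Θ.Φ.map π ≫ α' ≫ Θ.Φ.map b by rw [← e2, ← Θ.Φ.map_comp_assoc, h4, fix hk hα],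
      Category.assoc, Category.assoc, IsIso.hom_inv_id_assoc, reassoc_of% s2, ← Θ.Φ.map_comp,
      ← Θ.Φ.map_comp, h3, h4]

/-- The composition of two roofs. -/
theorem Quo.comp {z₁ : Z'' ⟶ Z} {z₂ : Z'' ⟶ Z'} {j' : Z' ⟶ B} {q' : Z' ⟶ B'} {e' : B ⟶ B}
    (hj : UIso j) (hz : UIso z₁) (hj' : UIso j') (sq : z₁ ≫ q = z₂ ≫ j') (h : Quo j q e)
    (h' : Quo j' q' e') {z : Z ⟶ Z} {a : A ⟶ A} (h1 : z ≫ j = j ≫ a) (h2 : z ≫ q = q ≫ e') :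
    Quo (z₁ ≫ j) (z₂ ≫ q') (a ≫ e) := fun Θ β hβ => by
  obtain ⟨α, hα⟩ := ex hj q Θ
  obtain ⟨α', hα'⟩ := ex hj' q' Θ
  obtain ⟨s, s1, s2⟩ := h Θ α hα
  obtain ⟨s', s1', s2'⟩ := h' Θ α' hα'
  rw [cmp hj hz sq hα hα' hβ]
  refine ⟨s' ≫ s, by rw [Category.assoc, reassoc_of% s1, s1'], ?_⟩
  rw [Category.assoc, reassoc_of% s2', ← reassoc_of% squ hj h1 h2 hα hα, s2, Θ.Φ.map_comp]

section Ses
variable {iZ : Z' ⟶ Z} {pZ : Z ⟶ Z''} {iA : A' ⟶ A} {pA : A ⟶ A''} {iB : B' ⟶ B} {pB : B ⟶ B''}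
  (sZ : Ses iZ pZ) (sA : Ses iA pA) (sB : Ses iB pB) (hj' : UIso j') (hj : UIso j)
  (hj'' : UIso j'') (h1 : iZ ≫ j = j' ≫ iA) (h2 : pZ ≫ j'' = j ≫ pA) (h3 : iZ ≫ q = q' ≫ iB)
  (h4 : pZ ≫ q'' = q ≫ pB) (h5 : iA ≫ e = e' ≫ iA) (h6 : pA ≫ e'' = e ≫ pA)
  (i' : e' ≫ e' = e') (i : e ≫ e = e) (i'' : e'' ≫ e'' = e'') (k' : Kills j' q' (e' - 𝟙 _))
  (k₀ : Kills j q (e - 𝟙 _)) (k'' : Kills j'' q'' (e'' - 𝟙 _))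
include sZ sA sB hj' hj hj'' h1 h2 h3 h4 h5 h6 i' i i'' k' k₀ k''

open Pretriangulated in
theorem Roof.tri {Θ : Theory k F} {α' : Θ.Φ.obj A' ⟶ Θ.Φ.obj B'} {α : Θ.Φ.obj A ⟶ Θ.Φ.obj B}
    {α'' : Θ.Φ.obj A'' ⟶ Θ.Φ.obj B''} (a' : Θ.Φ.map j' ≫ α' = Θ.Φ.map q')
    (a : Θ.Φ.map j ≫ α = Θ.Φ.map q) (a'' : Θ.Φ.map j'' ≫ α'' = Θ.Φ.map q'')
    (H'' : ∃ t, t ≫ α'' = 𝟙 _ ∧ α'' ≫ t = Θ.Φ.map e'') :
    (∃ t, t ≫ α' = 𝟙 _ ∧ α' ≫ t = Θ.Φ.map e') ↔ ∃ t, t ≫ α = 𝟙 _ ∧ α ≫ t = Θ.Φ.map e := by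
  obtain ⟨P', s', p', b', rfl⟩ := exists_split_idem e' i'
  obtain ⟨P, s, p, b, rfl⟩ := exists_split_idem e i
  obtain ⟨P'', s'', p'', b'', rfl⟩ := exists_split_idem e'' i''
  obtain ⟨sP, c1, c2⟩ := ses_split sA b' b b'' h5 h6
  rw [← iso_iff b'' rfl (fix k'' a'')] at H''
  rw [← iso_iff b' rfl (fix k' a'), ← iso_iff b rfl (fix k₀ a)]
  have := hj'' Θ
  let φ : Triangle.mk (Θ.Φ.map iA) (Θ.Φ.map pA) (Θ.δ sA) ⟶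
      Triangle.mk (Θ.Φ.map iB) (Θ.Φ.map pB) (Θ.δ sB) :=
    { hom₁ := α'
      hom₂ := α
      hom₃ := α''
      comm₁ := squ hj' h1 h3 a' a
      comm₂ := squ hj h2 h4 a a''
      comm₃ := by
        change Θ.δ sA ≫ α'⟦(1 : ℤ)⟧' = α'' ≫ Θ.δ sB
        rw [← cancel_epi (Θ.Φ.map j''), reassoc_of% a'', ← Θ.nat sZ sB q' q q'' h3 h4,
          ← reassoc_of% Θ.nat sZ sA j' j j'' h1 h2, ← Functor.map_comp, a'] }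
  exact ⟨fun h => isIso₂_of_isIso₁₃ (sP.hom sA c1 c2 Θ ≫ φ) (Θ.dist _) (Θ.dist _) h H'',
    fun h => isIso₁_of_isIso₂₃ (sP.hom sA c1 c2 Θ ≫ φ) (Θ.dist _) (Θ.dist _) h H''⟩

theorem Quo.ses₂ (H' : Quo j' q' e') (H'' : Quo j'' q'' e'') : Quo j q e := fun Θ α a => by
  obtain ⟨α', a'⟩ := ex hj' q' Θ
  obtain ⟨α'', a''⟩ := ex hj'' q'' Θ
  exact (tri sZ sA sB hj' hj hj'' h1 h2 h3 h4 h5 h6 i' i i'' k' k₀ k'' a' a a''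
    (H'' Θ α'' a'')).1 (H' Θ α' a')

theorem Quo.ses₁ (H : Quo j q e) (H'' : Quo j'' q'' e'') : Quo j' q' e' := fun Θ α' a' => by
  obtain ⟨α, a⟩ := ex hj q Θ
  obtain ⟨α'', a''⟩ := ex hj'' q'' Θ
  exact (tri sZ sA sB hj' hj hj'' h1 h2 h3 h4 h5 h6 i' i i'' k' k₀ k'' a' a a''
    (H'' Θ α'' a'')).2 (H Θ α a)

end Ses

end

end Pool.Agent.Lib.MP_fc2ced_ag.K
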