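import Pool.Agent.Lib.MP_fc2ced_ag.K.Van

/-! Schur-finite objects form a thick tensor subcategory; tori; Artin-Schreier coverings. -/

open CategoryTheory Function

namespace Pool.Agent.Lib.MP_fc2ced_ag.K

noncomputable section

variable {k : Type} [Field k] {F : Type} [Field F] [CharZero F]

open Ob Pt

variable {M M' M₁ M₂ M₃ : Ob k F}

omit [CharZero F] in
theorem SF.of_swap' {c : F} (h : Null (reidx M (Equiv.swap (0 : Fin 2) 1) - c • 𝟙 _)) : SF M := by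
  classical
  have hs : Equiv.swap (0 : Fin 2) 1 ≠ 1 := by decide
  refine ⟨2, Pi.single (Equiv.swap 0 1) 1 - Pi.single 1 c, fun h => ?_, ?_⟩
  · simpa [hs] using congrFun h (Equiv.swap 0 1)
  · have e : act M (Pi.single (Equiv.swap (0 : Fin 2) 1) 1 - Pi.single 1 c) =
        reidx M (Equiv.swap 0 1) - c • 𝟙 _ := by
      simp [act, sub_smul, Finset.sum_sub_distrib, Pi.single_apply]
    rwa [e]

theorem SF.of_swap {c : F} (h : Null (reidx M (Equiv.swap (0 : Fin 2) 1) - c • 𝟙 _)) : SF M :=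
  SF.of_swap' h

omit [CharZero F] in
theorem SF.of_eqv (h : Eqv M M') (h' : SF M') : SF M :=
  h.elim fun _ hf => (SF.uiso_iff hf.uiso (con _)).2 h'

protected theorem SF.one : SF (one k F) := by
  refine SF.of_swap (c := 1) ?_
  have e : reidx (one k F) (Equiv.swap (0 : Fin 2) 1) = 𝟙 _ := by
    refine Ob.hom_ext fun O => PiTensorProduct.ext (MultilinearMap.ext fun m => ?_)
    have key (m : Fin 2 → F) : PiTensorProduct.tprod F (s := fun _ : Fin 2 => F) m =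
        (∏ a, m a) • PiTensorProduct.tprod F fun _ => (1 : F) := by
      rw [← MultilinearMap.map_smul_univ]
      simp only [smul_eq_mul, mul_one]
    refine (reidx_tprod (M := one k F) _ O m).trans ((key _).trans (Eq.trans ?_ (key m).symm))
    rw [Equiv.prod_comp (Equiv.swap (0 : Fin 2) 1).symm m]
  rw [e, one_smul, sub_self]
  exact .zero

protected theorem SF.pow (h : SF M) (α : Type) [Finite α] : SF (M.pow α) :=
  pow_induction (fun _ _ => SF.of_eqv) SF.one (fun _ h' => SF.ten (con _) (con _) h' h) α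

theorem SF.of_sum {J : Type} [Fintype J] {P : J → Ob k F} (h : ∀ j, SF (P j))
    (p : ∀ j, M ⟶ P j) (s : ∀ j, P j ⟶ M) (e : UIso (∑ j, p j ≫ s j)) : SF M := by
  classical
  suffices H : ∀ S : Finset J, ∃ (N : Ob k F) (a : M ⟶ N) (b : N ⟶ M), SF N ∧
      a ≫ b = ∑ j ∈ S, p j ≫ s j by
    obtain ⟨N, a, b, hN, hab⟩ := H Finset.univ
    exact hN.retract (con _) (hab ▸ e)
  intro S
  induction S using Finset.induction_on with
  | empty => exact ⟨_, 0, 0, SF.one, by simp⟩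
  | insert j S hj ih =>
    obtain ⟨N, a, b, hN, hab⟩ := ih
    refine ⟨_, p j ≫ inl _ _ + a ≫ inr _ _, fst _ _ ≫ s j + snd _ _ ≫ b,
      SF.prod (con _) (con _) (h j) hN, ?_⟩
    rw [Finset.sum_insert hj, ← hab]
    ext; simp

omit [CharZero F] in
theorem Ses.of_eqv (e : Eqv M M₁) {i : M₁ ⟶ M₂} {p : M₂ ⟶ M₃} (T : Ses i p) :
    ∃ j : M ⟶ M₂, Ses j p :=
  e.elim fun u hu => ⟨u ≫ i, fun O => (T.inj O).comp (hu O).1,
    fun O => (hu O).2.comp_exact_iff_exact.2 (T.exact O), T.surj⟩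

variable (k) in
/-- The affine line with the coordinate function. -/
@[reducible] def lineX : Pt k := (line k).withF (fun _ x => x) fun _ _ _ _ _ _ _ h => h

omit [CharZero F] in
/-- The origin and its complement in the affine line. -/
theorem exists_ses_gm (χ : Chr k F) : ∃ (i : one k F ⟶ (lineX k).E χ)
    (p : (lineX k).E χ ⟶ (gm k).E χ), Ses i p := by
  have hi : IsMap ((line k).pi Empty) (lineX k) fun _ _ => 0 :=
    .of_proper ⟨fun _ _ _ => trivial, fun _ _ φ _ _ _ _ _ => φ.zero⟩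
      (fun _ _ _ => by simp) fun _ _ _ _ _ _ _ _ => ⟨fun a => a.elim, fun a => a.elim,
        fun a => a.elim⟩
  have hp : IsMap (lineX k) (gm k) fun _ x => x :=
    (isMap_open (S := line k) (T := fun _ x => x ≠ 0) fun _ _ _ _ _ _ _ h => h.ne_zero).withF
      _ _ fun _ _ _ _ => rfl
  have T := ses (χ := χ) hi hp (fun _ _ _ => trivial) (fun _ _ _ _ _ _ => Subsingleton.elim _ _)
    (fun _ y _ => ⟨fun h => ⟨fun a => a.elim, fun a => a.elim,
      (not_not.1 fun l => h ⟨trivial, l⟩ : y = 0).symm⟩, fun ⟨_, _, h⟩ l => l.2 h.symm⟩)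
    (fun _ _ _ _ _ _ h => h) fun _ z _ => ⟨z, trivial, rfl⟩
  obtain ⟨j, T'⟩ := T.of_eqv (Eqv.trans ⟨_, bij_pow Empty⟩ (Eqv.empty _ _)).symm
  exact ⟨j, _, T'⟩

omit [CharZero F] in
theorem uzero_lineX (χ : Chr k F) (hχ : χ.ψ 1 ≠ 1) : UZero ((lineX k).E χ) :=
  Flow.uzero (τ := fun _ r x => x + r) hχ ⟨fun _ _ _ _ => trivial, fun _ x _ => add_zero x,
    fun _ r x _ => add_neg_cancel_right x r, fun _ _ _ _ => rfl,
    fun _ _ _ _ _ _ _ h _ _ h' => h'.add h⟩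

omit [CharZero F] in
theorem sf_of_acts {χ : Chr k F} {S : Pt k} {c : F}
    {e : ∀ ⦃K⦄, (S.pi (Fin 2)).X K → (S.pi (Fin 2)).X K} (h : (S.pi (Fin 2)).Acts χ e c)
    (he : ∀ ⦃K⦄ (x : (S.pi (Fin 2)).X K), e x = fun a => x ((Equiv.swap 0 1).symm a)) :
    SF (S.E χ) := by
  obtain ⟨m, n⟩ := h
  rw [m.hom_congr (S.isMap_perm (Equiv.swap 0 1)) fun _ x _ => by rw [he]] at n
  refine SF.of_swap' (c := c) (.of_uiso_comp (bij_pow (Fin 2)).uiso ?_)
  rw [Preadditive.comp_sub, ← pow_perm]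
  simpa using n.comp (isLift_pow χ S (Fin 2)).hom

/-- The suspension of the unit object. -/
theorem exists_susp (χ : Chr k F) (hχ : χ.ψ 1 ≠ 1) : ∃ (C : Ob k F) (i : one k F ⟶ C)
    (p : C ⟶ (gm k).E χ), Ses i p ∧ UZero C := by
  obtain ⟨i, p, T⟩ := exists_ses_gm χ
  exact ⟨_, i, p, T, uzero_lineX χ hχ⟩

theorem sf_susp (χ : Chr k F) (hχ : χ.ψ 1 ≠ 1) : SF ((gm k).E χ) := by
  have h : ((gm k).pi (Fin 2)).Swap (fun _ x => x 0) (fun _ x => x 1) (fun _ _ => 1)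
      fun _ _ s t => ![s, t] := by
    refine ⟨fun _ _ _ _ _ _ _ r => r 0, fun _ _ _ _ _ _ _ r => r 1, regF_one,
      fun _ _ _ => one_ne_zero, fun _ x _ => ?_, fun _ x s t hx e => ?_,
      fun _ _ _ _ _ _ _ _ _ _ _ _ hs ht _ => Fin.forall_fin_two.2 ⟨hs, ht⟩⟩
    · exact funext (Fin.forall_fin_two.2 ⟨rfl, rfl⟩)
    · have h0 : s * t ≠ 0 := e ▸ mul_ne_zero (hx 0).2 (hx 1).2
      refine ⟨Fin.forall_fin_two.2 ⟨⟨trivial, left_ne_zero_of_mul h0⟩,
        ⟨trivial, right_ne_zero_of_mul h0⟩⟩, rfl, rfl, rfl, ?_,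
        funext (Fin.forall_fin_two.2 ⟨rfl, rfl⟩)⟩
      simp only [Fin.sum_univ_two, Matrix.cons_val_zero, Matrix.cons_val_one]
      ring
  exact sf_of_acts (h.acts hχ) fun _ x => funext (Fin.forall_fin_two.2 ⟨rfl, rfl⟩)

theorem SF.ses₃ (χ : Chr k F) (hχ : χ.ψ 1 ≠ 1) {i : M₁ ⟶ M₂} {p : M₂ ⟶ M₃} (T : Ses i p)
    (h₁ : SF M₁) (h₂ : SF M₂) : SF M₃ := by
  obtain ⟨C, j, q, S, hC⟩ := exists_susp χ hχ
  obtain ⟨j', S'⟩ := (S.ten_left M₁).of_eqv (Eqv.rid M₁).symm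
  obtain ⟨P, a, a', b, b', T₁, T₂⟩ := T.pushout S'
  exact (SF.uiso_iff (T₂.uzero₁_iff.1 (hC.ten_left (con _))) (con _)).1
    (SF.ses₂ T₁ (con _) (con _) h₂ (SF.ten (con _) (con _) h₁ (sf_susp χ hχ)))

theorem sf_line (χ : Chr k F) : SF ((line k).E χ) := by
  have h : ((line k).pi (Fin 2)).Free (fun _ x => x 0) (fun _ x => x 0 + x 1)
      fun _ x t => ![t, x 0 + x 1 - t] := by
    refine ⟨fun _ _ _ _ _ _ _ r => r 0, fun _ _ _ _ _ _ _ r => (r 0).add (r 1),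
      fun _ x _ => ?_, fun _ x t _ => ⟨fun _ => trivial, rfl, ?_, rfl, ?_⟩,
      fun _ _ _ _ _ _ _ _ _ r ht => Fin.forall_fin_two.2 ⟨ht, ((r 0).add (r 1)).sub ht⟩⟩
    · exact funext (Fin.forall_fin_two.2 ⟨rfl, by simp⟩)
    · simp
    · exact funext (Fin.forall_fin_two.2 ⟨rfl, by simp⟩)
  exact sf_of_acts h.acts fun _ x => funext (Fin.forall_fin_two.2 ⟨by simp, by simp⟩)

omit [CharZero F] in
theorem Chr.cf_trivC {χ : Chr k F} (hχ : χ.ψ = 1) {K K' : Fld k} {φ : Place K K'} {b : K} {b' : K'}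
    (h : φ b b') : χ.cf φ b = 1 := by
  obtain ⟨y, h1, h2⟩ := Chr.exists_rel (χ.rt_spec b) h
  obtain ⟨c, hc⟩ := χ.exists_cast (Chr.sub_fix (h2.trans (χ.rt_spec b').symm))
  rw [Chr.cf_eq h h1, hc, Chr.ev_cast, hχ, AddChar.one_apply]

/-- For the trivial character the function does not matter. -/
theorem exists_bij_triv (χ : Chr k F) (hχ : χ.ψ = 1) (S : Pt k) (g : ∀ ⦃K⦄, S.X K → K)
    (hg : S.RegF g) : ∃ u : S.E χ ⟶ (S.withF g hg).E χ, Bij u := by
  have h : IsLift S χ ((S.withF g hg).E χ) fun _ x => (S.withF g hg).cl F x :=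
    ⟨fun _ _ φ x y hx hy r => by
      rw [map_cl (S := S.withF g hg) (.of_R hx hy r), Chr.cf_trivC hχ (hg φ x y hx hy r),
        Chr.cf_trivC hχ (S.reg φ x y hx hy r)],
      fun _ _ _ _ _ hd => map_cl_Dd (S := S.withF g hg) hd⟩
  exact ⟨h.hom, .of_inv (fun _ => LinearMap.id) (fun _ => lin_ext fun _ hx => h.hom_cl hx)
    fun _ => lin_ext (S := S) fun _ hx => h.hom_cl hx⟩

theorem sf_gm (χ : Chr k F) (hχ : χ.ψ 1 ≠ 1) (χ₀ : Chr k F) (h₀ : χ₀.ψ = 1) :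
    SF ((gm k).E χ₀) := by
  obtain ⟨i, p, T⟩ := exists_ses_gm χ₀
  exact SF.ses₃ χ hχ T SF.one
    (SF.of_eqv (Eqv.symm (exists_bij_triv χ₀ h₀ (line k) _ _)) (sf_line χ₀))

/-- The torus of vectors with given product, with the sum of the coordinates. -/
@[reducible] def tor (n : ℕ) (a : k) : Pt k :=
  ((gm k).pi (Fin n)).restr (fun K x => ∏ i, x i = algebraMap k K a)
    (Closed.conv fun _ _ φ _ _ _ _ h e => (Place.prod fun i _ => h i).eq_of (φ.alg a) e)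

theorem sf_tor_triv (χ : Chr k F) (hχ : χ.ψ 1 ≠ 1) (χ₀ : Chr k F) (h₀ : χ₀.ψ = 1) {n : ℕ}
    (hn : 0 < n) {a : k} (ha : a ≠ 0) : SF ((tor n a).E χ₀) := by
  obtain ⟨m, rfl⟩ := Nat.exists_eq_succ_of_ne_zero hn.ne'
  have h1 : (tor (m + 1) a).Reg ((gm k).pi (Fin m)) fun _ x i => x i.succ :=
    ⟨fun _ _ h i => h.1 i.succ, fun _ _ _ _ _ _ _ r i => r i.succ⟩
  have h0 {K : Fld k} {y : Fin m → K} (hy : ((gm k).pi (Fin m)).L y) : ∏ i, y i ≠ 0 :=
    Finset.prod_ne_zero_iff.2 fun i _ => (hy i).2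
  have h2 : ((gm k).pi (Fin m)).Reg (tor (m + 1) a)
      fun K y => Fin.cons (algebraMap k K a / ∏ i, y i) y :=
    ⟨fun K y hy => ⟨Fin.cases ⟨trivial, div_ne_zero ((map_ne_zero _).2 ha) (h0 hy)⟩ hy,
      (Fin.prod_cons _ _).trans (div_mul_cancel₀ _ (h0 hy))⟩,
      fun _ _ φ _ _ _ hy r => Fin.cases ((φ.alg a).div (Place.prod fun i _ => r i) (h0 hy)) r⟩
  have h3 ⦃K : Fld k⦄ (x : Fin (m + 1) → K) (hx : (tor (m + 1) a).L x) :
      (Fin.cons (algebraMap k K a / ∏ i : Fin m, x i.succ) fun i => x i.succ :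
        Fin (m + 1) → K) = x := by
    rw [← hx.2, Fin.prod_univ_succ, mul_div_cancel_right₀ _ (h0 (h1.live x hx))]
    exact Fin.cons_self_tail x
  have h4 : IsMap ((tor (m + 1) a).withF _ (h1.regF regF_f)) ((gm k).pi (Fin m))
      fun _ x i => x i.succ :=
    .of_inv ⟨h1.live, h1.reg⟩ ⟨h2.live, h2.reg⟩ (fun _ _ _ => rfl) h3
  refine SF.of_eqv (Eqv.trans (exists_bij_triv χ₀ h₀ _ _ _) (Eqv.trans ⟨_, h4.bij h1.live
    (fun _ x x' hx hx' e => ?_) fun _ y hy => ⟨_, h2.live y hy, rfl⟩⟩ ⟨_, bij_pow (Fin m)⟩))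
    ((sf_gm χ hχ χ₀ h₀).pow _)
  rw [← h3 x hx, ← h3 x' hx']
  simp only [funext_iff.1 e]

/-- The Artin-Schreier covering, with the zero function. -/
@[reducible] def Pt.cover (S : Pt k) (p : ℕ) : Pt k :=
  ((S.prod (line k)).restr (fun _ x => x.2 ^ p - x.2 = S.f x.1)
    (Closed.conv fun _ _ φ _ _ a b h e =>
      ((h.2.pow p).sub h.2).eq_of (S.reg φ _ _ a.1 b.1 h.1) e)).withF (fun _ _ => 0) regF_zero

section Cover

omit [CharZero F]

variable (χ : Chr k F) {χ₀ : Chr k F} (h₀ : χ₀.ψ = 1) (S : Pt k)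

theorem live_cover {K : Fld k} {x : S.X K} (hx : S.L x) (c : ZMod χ.p) :
    (S.cover χ.p).L (x, χ.rt (S.f x) + χ.cst K c) := by
  have := χ.charFld K
  refine ⟨⟨hx, trivial⟩, ?_⟩
  change (χ.rt (S.f x) + χ.cst K c) ^ χ.p - (χ.rt (S.f x) + χ.cst K c) = S.f x
  rw [add_pow_char, ← map_pow, ZMod.pow_card]
  linear_combination χ.rt_spec (S.f x)

include h₀

/-- The projection of the covering to an isotypic part. -/
theorem isLift_down : IsLift (S.cover χ.p) χ₀ (S.E χ)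
    fun _ z => χ.ev (z.2 - χ.rt (S.f z.1)) • S.cl F z.1 := by
  refine ⟨fun _ _ φ x y hx hy r => ?_, fun _ _ φ x hx hd => ?_⟩
  · have h := S.reg φ _ _ hx.1.1 hy.1.1 r.1
    obtain ⟨w, h1, h2⟩ := Chr.exists_rel (χ.rt_spec _) h
    rw [map_smul, map_cl (.of_R hx.1.1 hy.1.1 r.1), smul_smul, Chr.cf_trivC h₀ φ.zero, one_smul,
      Chr.cf_eq h h1, ← Chr.ev_rel (Chr.sub_fix (hx.2.trans (χ.rt_spec _).symm)) (r.2.sub h1),
      ← Chr.ev_add (Chr.sub_fix (hy.2.trans h2.symm))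
        (Chr.sub_fix (h2.trans (χ.rt_spec _).symm)), sub_add_sub_cancel]
  · rw [map_smul, map_cl_Dd fun _ y hy r => ?_, smul_zero]
    obtain ⟨w, h1, h2⟩ := Chr.exists_rel hx.2 (S.reg φ _ _ hx.1.1 hy r)
    exact hd hx (y, w) ⟨⟨hy, trivial⟩, h2⟩ ⟨r, h1⟩

/-- The inclusion of an isotypic part in the covering. -/
theorem isLift_up : IsLift S χ ((S.cover χ.p).E χ₀) fun K x =>
    ∑ c : ZMod χ.p, χ.ψ (-c) • (S.cover χ.p).cl F (x, χ.rt (S.f x) + χ.cst K c) := by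
  refine ⟨fun K K' φ x y hx hy r => ?_, fun K K' φ x hx hd => ?_⟩
  · have h := S.reg φ _ _ hx hy r
    obtain ⟨w, h1, h2⟩ := Chr.exists_rel (χ.rt_spec _) h
    obtain ⟨d, hd⟩ := χ.exists_cast (Chr.sub_fix (h2.trans (χ.rt_spec _).symm))
    rw [Chr.cf_eq h h1, hd, Chr.ev_cast, map_sum, Finset.smul_sum]
    refine Fintype.sum_equiv (Equiv.addLeft d) _ _ fun c => ?_
    have h3 : φ (χ.rt (S.f x) + χ.cst K c) (χ.rt (S.f y) + χ.cst K' (d + c)) :=
      (h1.add (χ.rel_cast φ c)).congr rfl (by rw [map_add, ← hd]; ring)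
    rw [map_smul, map_cl (S := S.cover χ.p) (.of_R (live_cover χ S hx c)
      (live_cover χ S hy (d + c)) ⟨r, h3⟩), Chr.cf_trivC h₀ φ.zero, one_smul, smul_smul,
      ← AddChar.map_add_eq_mul, Equiv.coe_addLeft, neg_add, add_neg_cancel_left]
  · rw [map_sum]
    refine Finset.sum_eq_zero fun c _ => ?_
    rw [map_smul, map_cl_Dd (S := S.cover χ.p) fun _ z hz r => hd hx z.1 hz.1.1 r.1, smul_zero]

end Cover

/-- The multiples of a character. -/
@[reducible] def Chr.shift (χ : Chr k F) (j : ZMod χ.p) : Chr k F :=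
  { χ with ψ := χ.ψ.mulShift j }

/-- The decomposition of the covering by the characters of the Galois group. -/
theorem sf_cover (χ : Chr k F) (hχ : χ.ψ 1 ≠ 1) (χ₀ : Chr k F) (h₀ : χ₀.ψ = 1) (S : Pt k)
    (h : ∀ χ' : Chr k F, SF (S.E χ')) : SF ((S.cover χ.p).E χ₀) := by
  classical
  have pr : χ.ψ.IsPrimitive := .of_ne_one fun e => hχ (by rw [e, AddChar.one_apply])
  refine SF.of_sum (fun j => h (χ.shift j)) (fun j => (isLift_down (χ.shift j) h₀ S).hom)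
    (fun j => (isLift_up (χ.shift j) h₀ S).hom) ?_
  have e : ∑ j, (isLift_down (χ.shift j) h₀ S).hom ≫ (isLift_up (χ.shift j) h₀ S).hom =
      (χ.p : F) • 𝟙 ((S.cover χ.p).E χ₀) := by
    refine Pt.hom_ext fun K z hz => ?_
    obtain ⟨d, hd⟩ := χ.exists_cast (Chr.sub_fix (hz.2.trans (χ.rt_spec _).symm))
    have h1 (j : ZMod χ.p) : ((isLift_down (χ.shift j) h₀ S).hom ≫
        (isLift_up (χ.shift j) h₀ S).hom).1 K ((S.cover χ.p).cl F z) =
        ∑ c : ZMod χ.p, χ.ψ (j * (d - c)) •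
          (S.cover χ.p).cl F (z.1, χ.rt (S.f z.1) + χ.cst K c) := by
      rw [Ob.comp_apply, IsLift.hom_cl _ hz, map_smul, IsLift.hom_cl _ hz.1.1, Finset.smul_sum]
      refine Finset.sum_congr rfl fun c _ => ?_
      have h2 : (χ.shift j).ev (z.2 - (χ.shift j).rt (S.f z.1)) = χ.ψ (j * d) :=
        (congrArg (χ.shift j).ev hd).trans ((χ.shift j).ev_cast d)
      rw [h2, smul_smul, sub_eq_add_neg, mul_add, AddChar.map_add_eq_mul]
      rfl
    rw [sum_app, LinearMap.sum_apply, Finset.sum_congr rfl fun j _ => h1 j, Finset.sum_comm]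
    simp only [← Finset.sum_smul, AddChar.sum_mulShift _ pr, sub_eq_zero]
    rw [Finset.sum_eq_single d (fun c _ hc => by rw [if_neg hc.symm, Nat.cast_zero, zero_smul])
      (fun h => absurd (Finset.mem_univ d) h), if_pos rfl, ZMod.card, ← hd, add_sub_cancel]
    rfl
  rw [e]
  exact UIso.id.smul (Nat.cast_ne_zero.2 χ.prime.out.ne_zero)

end

end Pool.Agent.Lib.MP_fc2ced_ag.K
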