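import Pool.Agent.Lib.MP_fc2ced_ag.K.Cx

/-! The complex of parabolic idempotents in the group algebra of the symmetric group. -/

namespace Pool.Agent.Lib.MP_fc2ced_ag.K

noncomputable section

variable {F : Type} [Field F]

/-- The Young subgroup that preserves the initial segments with lengths in `I`. -/
def Young (m : ℕ) (I : Finset ℕ) : Subgroup (Equiv.Perm (Fin m)) where
  carrier := {w | ∀ i ∈ I, ∀ a : Fin m, (w a : ℕ) < i ↔ (a : ℕ) < i}
  one_mem' _ _ _ := Iff.rfl
  mul_mem' h h' i hi a := (h i hi _).trans (h' i hi a)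
  inv_mem' {w} h i hi a := by simpa using (h i hi (w⁻¹ a)).symm

open Classical in
/-- The idempotent of the character `ε` of a subgroup. -/
def idem {G : Type} [Group G] [Fintype G] (ε : G →* F) (H : Subgroup G) : MonoidAlgebra F G :=
  (Nat.card H : F)⁻¹ • ∑ w ∈ Finset.univ.filter (· ∈ H), MonoidAlgebra.single w (ε w)

variable [CharZero F]

section
variable {G : Type} [Group G] [Fintype G] {ε : G →* F} (hε : ∀ w, ε w * ε w = 1)
  {H H' : Subgroup G}
include hε

omit [CharZero F] in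
theorem idem_mul_single₀ {w : G} (hw : w ∈ H) :
    idem ε H * MonoidAlgebra.single w 1 = ε w • idem ε H := by
  rw [idem, smul_mul_assoc, smul_comm, Finset.sum_mul]
  congr 1
  rw [Finset.smul_sum]
  refine Finset.sum_equiv (Equiv.mulRight w) (fun v => by simp [H.mul_mem_cancel_right hw])
    fun v _ => ?_
  simp only [MonoidAlgebra.single_mul_single, mul_one, Equiv.coe_mulRight, map_mul,
    MonoidAlgebra.smul_single, smul_eq_mul]
  rw [mul_left_comm, hε, mul_one]

omit [CharZero F] in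
theorem single_mul_idem₀ {w : G} (hw : w ∈ H) :
    MonoidAlgebra.single w 1 * idem ε H = ε w • idem ε H := by
  rw [idem, mul_smul_comm, smul_comm, Finset.mul_sum]
  congr 1
  rw [Finset.smul_sum]
  refine Finset.sum_equiv (Equiv.mulLeft w) (fun v => by simp [H.mul_mem_cancel_left hw])
    fun v _ => ?_
  simp only [MonoidAlgebra.single_mul_single, one_mul, Equiv.coe_mulLeft, map_mul,
    MonoidAlgebra.smul_single, smul_eq_mul]
  rw [← mul_assoc, hε, one_mul]

/-- A linear map that transforms by `ε` under `H` fixes the idempotent. -/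
theorem map_idem {V : Type} [AddCommGroup V] [Module F V] (f : MonoidAlgebra F G →ₗ[F] V) {v : V}
    (h : ∀ w ∈ H, f (MonoidAlgebra.single w 1) = ε w • v) : f (idem ε H) = v := by
  classical
  have h1 : ∀ w ∈ Finset.univ.filter (· ∈ H), f (MonoidAlgebra.single w (ε w)) = v := fun w hw => by
    rw [show MonoidAlgebra.single w (ε w) = ε w • MonoidAlgebra.single w (1 : F) by simp, map_smul,
      h w (Finset.mem_filter.1 hw).2, smul_smul, hε, one_smul]
  have h2 : (Finset.univ.filter (· ∈ H)).card = Nat.card H :=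
    (Nat.subtype_card _ (by simp)).symm
  have h3 : (Nat.card H : F) ≠ 0 := Nat.cast_ne_zero.2 Nat.card_pos.ne'
  rw [idem, map_smul, map_sum]
  have h4 := Finset.sum_congr rfl h1
  rw [Finset.sum_const, h2, ← Nat.cast_smul_eq_nsmul F] at h4
  convert (congrArg ((Nat.card H : F)⁻¹ • ·) h4).trans (inv_smul_smul₀ h3 v)

theorem idem_mul_single {w : G} (hw : w ∈ H) :
    idem ε H * MonoidAlgebra.single w 1 = ε w • idem ε H := idem_mul_single₀ hε hw

theorem single_mul_idem {w : G} (hw : w ∈ H) :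
    MonoidAlgebra.single w 1 * idem ε H = ε w • idem ε H := single_mul_idem₀ hε hw

theorem idem_mul_idem (h : H ≤ H') : idem ε H' * idem ε H = idem ε H' :=
  map_idem hε (LinearMap.mulLeft F (idem ε H')) fun _ hw => idem_mul_single hε (h hw)

theorem idem_mul_idem' (h : H ≤ H') : idem ε H * idem ε H' = idem ε H' :=
  map_idem hε (LinearMap.mulRight F (idem ε H')) fun _ hw => single_mul_idem hε (h hw)

omit hε in
theorem idem_bot : idem ε ⊥ = 1 := by
  rw [idem, Finset.sum_eq_single 1 (fun b hb h => absurd (by simpa using hb) h)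
    fun h => absurd (by simp) h]
  simp [MonoidAlgebra.one_def]

end

theorem swap_mem_young {m : ℕ} {I : Finset ℕ} {a b : Fin m} (h : (b : ℕ) = a + 1)
    (hb : (b : ℕ) ∉ I) : Equiv.swap a b ∈ Young m I := fun i hi c => by
  have : (b : ℕ) ≠ i := fun e => hb (e ▸ hi)
  rw [Equiv.swap_apply_def]
  split_ifs with h1 h2
  · subst h1; omega
  · subst h2; omega
  · rfl

theorem young_induction₀ {m : ℕ} {I : Finset ℕ} {p : Equiv.Perm (Fin m) → Prop} (h1 : p 1)
    (hs : ∀ (a b : Fin m) (w : Equiv.Perm (Fin m)), (b : ℕ) = a + 1 → (b : ℕ) ∉ I →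
      w ∈ Young m I → p w → p (Equiv.swap a b * w)) (w : Equiv.Perm (Fin m))
    (hw : w ∈ Young m I) : p w := by
  induction w using (InvImage.wf (fun w : Equiv.Perm (Fin m) => toLex (⇑w⁻¹ : Fin m → Fin m))
    (Finite.to_wellFoundedLT (α := Lex (Fin m → Fin m))).wf).induction with
  | _ w ih =>
  by_cases h : ∃ a b : Fin m, (b : ℕ) = a + 1 ∧ w⁻¹ b < w⁻¹ a
  · obtain ⟨a, b, hab, h⟩ := h
    have hb : (b : ℕ) ∉ I := fun hb => by
      have e1 := (Young m I).inv_mem hw b hb a
      have e2 := (Young m I).inv_mem hw b hb b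
      have e3 : (w⁻¹ b : ℕ) < w⁻¹ a := h
      omega
    have hm := (Young m I).mul_mem (swap_mem_young hab hb) hw
    have := hs a b _ hab hb hm (ih _ ?_ hm)
    · rwa [Equiv.swap_mul_self_mul] at this
    · change toLex (⇑(Equiv.swap a b * w)⁻¹ : Fin m → Fin m) < toLex (⇑w⁻¹ : Fin m → Fin m)
      rw [mul_inv_rev, Equiv.swap_inv, Equiv.Perm.coe_mul]
      exact Pi.lex_desc (by rw [Fin.le_def]; omega) h
  · have hm : Monotone (w⁻¹ : Equiv.Perm (Fin m)) := by
      cases m with
      | zero => exact Subsingleton.monotone _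
      | succ n =>
        refine Fin.monotone_iff_le_succ.2 fun i => not_lt.1 fun hi => h ⟨_, _, ?_, hi⟩
        simp
    rw [Equiv.Perm.monotone_iff, inv_eq_one] at hm
    exact hm ▸ h1

theorem young_full (m : ℕ) : Young m (Finset.Ioo 0 m) = ⊥ :=
  eq_bot_iff.2 fun w hw => young_induction₀ (p := fun w => w = 1) rfl
    (fun a b _ h hb => absurd (Finset.mem_Ioo.2 ⟨by omega, b.2⟩) hb) w hw

theorem young_empty (m : ℕ) : Young m ∅ = ⊤ :=
  eq_top_iff.2 fun _ _ _ hi => absurd hi (Finset.notMem_empty _)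

theorem young_anti (m : ℕ) {I J : Finset ℕ} (h : J ⊆ I) : Young m I ≤ Young m J :=
  fun _ hw i hi => hw i (h hi)

/-- Young subgroups are generated by the simple transpositions they contain. -/
theorem young_induction {m : ℕ} {I : Finset ℕ} {p : Equiv.Perm (Fin m) → Prop} (h1 : p 1)
    (hs : ∀ (a b : Fin m) (w : Equiv.Perm (Fin m)), (b : ℕ) = a + 1 → (b : ℕ) ∉ I →
      w ∈ Young m I → p w → p (Equiv.swap a b * w)) (w : Equiv.Perm (Fin m))
    (hw : w ∈ Young m I) : p w := young_induction₀ h1 hs w hw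

section Flags

open Finset

variable {m : ℕ} {I J : Finset ℕ}

/-- The flag of the preimages of initial segments. -/
def flag (m : ℕ) (I : Finset ℕ) (w : Equiv.Perm (Fin m)) (i : ℕ) : Finset (Fin m) :=
  if i = m ∨ i ∈ I then univ.filter fun a => (w a : ℕ) < i else ∅

theorem card_seg (w : Equiv.Perm (Fin m)) {i : ℕ} (hi : i ≤ m) :
    (univ.filter fun a => (w a : ℕ) < i).card = i := by
  rw [card_equiv w (t := univ.filter fun a : Fin m => (a : ℕ) < i) (by simp),
    Fin.card_filter_val_lt, min_eq_right hi]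

theorem flag_ne (hI : I ⊆ Ioo 0 m) (w : Equiv.Perm (Fin m)) {i : ℕ} (hi : i ≠ m) :
    flag m I w i ≠ ⊥ ↔ i ∈ I := by
  rw [flag]
  split_ifs with h
  · have h1 := h.resolve_left hi
    have h2 := mem_Ioo.1 (hI h1)
    refine iff_of_true (fun e => ?_) h1
    have h3 := card_seg w h2.2.le
    rw [e, bot_eq_empty, card_empty] at h3
    omega
  · exact iff_of_false (fun e => e rfl) fun e => h (Or.inr e)

theorem mem_ty {x : ℕ → Finset (Fin m)} {i : ℕ} : i ∈ ty m x ↔ i ∈ Ioo 0 m ∧ x i ≠ ⊥ := by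
  simp only [ty, mem_filter]

theorem ty_flag (hI : I ⊆ Ioo 0 m) (w : Equiv.Perm (Fin m)) : ty m (flag m I w) = I := by
  ext i
  rw [mem_ty]
  exact ⟨fun h => (flag_ne hI w (mem_Ioo.1 h.1).2.ne).1 h.2,
    fun h => ⟨hI h, (flag_ne hI w (mem_Ioo.1 (hI h)).2.ne).2 h⟩⟩

theorem fl_flag (hI : I ⊆ Ioo 0 m) (w : Equiv.Perm (Fin m)) :
    Fl m card (· = univ) (fun _ => True) (flag m I w) := by
  refine ⟨by simp [flag], fun i hi h => ?_, fun i j hij h => ?_⟩
  · have h1 := (flag_ne hI w hi).1 h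
    have h2 := (mem_Ioo.1 (hI h1)).2
    exact ⟨trivial, by rw [flag, if_pos (Or.inr h1), card_seg w h2.le], h2⟩
  · unfold flag at h ⊢
    split_ifs at h ⊢
    · exact fun a ha => mem_filter.2 ⟨mem_univ _, (mem_filter.1 ha).2.trans_le hij⟩
    · exact absurd rfl h
    · exact empty_subset _
    · exact empty_subset _

theorem update_flag (w : Equiv.Perm (Fin m)) {i : ℕ} (hi : i ≠ m) :
    Function.update (flag m I w) i ⊥ = flag m (I.erase i) w := by
  funext j
  by_cases h : j = i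
  · subst h
    simp [flag, hi]
  · simp [flag, h]

theorem flag_mul {u : Equiv.Perm (Fin m)} (hu : u ∈ Young m I) (w : Equiv.Perm (Fin m)) :
    flag m I (u * w) = flag m I w := by
  funext i
  unfold flag
  split_ifs with h
  · refine filter_congr fun a _ => ?_
    rcases h with rfl | h
    · exact iff_of_true (Fin.is_lt _) (Fin.is_lt _)
    · exact hu i h _
  · rfl

theorem mem_young_of_flag {w w' : Equiv.Perm (Fin m)} (h : flag m I w' = flag m I w) :
    w' * w⁻¹ ∈ Young m I := fun i hi a => by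
  have h1 := congrFun h i
  simp only [flag, if_pos (Or.inr hi : i = m ∨ i ∈ I)] at h1
  simpa using Finset.ext_iff.1 h1 (w⁻¹ a)

theorem exists_flag {x : ℕ → Finset (Fin m)} (hx : Fl m card (· = univ) (fun _ => True) x) :
    ∃ w, flag m (ty m x) w = x := by
  have h0 : ∀ a : Fin m, ∃ i, a ∈ x i := fun a => ⟨m, hx.ok ▸ mem_univ a⟩
  let g : Fin m → ℕ := fun a => Nat.find (h0 a)
  have hg : ∀ a i, x i ≠ ⊥ → (g a ≤ i ↔ a ∈ x i) := fun a i hi =>
    ⟨fun h => hx.mono _ _ h hi (Nat.find_spec (h0 a)), fun h => Nat.find_min' _ h⟩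
  refine ⟨(Tuple.sort g)⁻¹, funext fun i => ?_⟩
  rw [flag]
  split_ifs with h
  · rcases eq_or_ne i m with rfl | hi
    · rw [hx.ok]
      simp
    · have h1 : x i ≠ ⊥ := (mem_ty.1 (h.resolve_left hi)).2
      have h2 : (univ.filter fun b => (g ∘ Tuple.sort g) b ≤ i).card = i := by
        rw [card_equiv (Tuple.sort g) (t := x i) (by simp [hg _ _ h1]), (hx.good i hi h1).2.1]
      ext a
      rw [mem_filter, ← hg a i h1]
      conv_lhs => rw [← h2]
      rw [Tuple.lt_card_le_iff_apply_le_of_monotone (Tuple.monotone_sort g)]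
      simp
  · by_contra h1
    have h2 : x i ≠ ⊥ := fun e => h1 e.symm
    have h3 := hx.good i (fun e => h (Or.inl e)) h2
    refine h (Or.inr (mem_ty.2 ⟨mem_Ioo.2 ⟨?_, h3.2.2⟩, h2⟩))
    rw [← h3.2.1, card_pos, nonempty_iff_ne_empty]
    exact h2

variable (ε : Equiv.Perm (Fin m) →* F)

/-- From the group algebra to chains of flags of type `I`. -/
def Phi (I : Finset ℕ) : MonoidAlgebra F (Equiv.Perm (Fin m)) →ₗ[F] (ℕ → Finset (Fin m)) →₀ F :=
  Finsupp.linearCombination F (fun w => ε w • Finsupp.single (flag m I w) 1) ∘ₗ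
    (MonoidAlgebra.coeffLinearEquiv F).toLinearMap

open Classical in
/-- From chains of flags to the group algebra. -/
def PsiK (I : Finset ℕ) :
    ((ℕ → Finset (Fin m)) →₀ F) →ₗ[F] MonoidAlgebra F (Equiv.Perm (Fin m)) :=
  Finsupp.linearCombination F fun x => if h : ∃ w, flag m I w = x then
    ε h.choose • (idem ε (Young m I) * MonoidAlgebra.single h.choose 1) else 0

variable {ε}

omit [CharZero F] in
theorem Phi_single (w : Equiv.Perm (Fin m)) (c : F) :
    Phi ε I (MonoidAlgebra.single w c) = c • ε w • Finsupp.single (flag m I w) 1 := by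
  simp [Phi]

omit [CharZero F] in
theorem alg_ext {V : Type} [AddCommGroup V] [Module F V]
    {f g : MonoidAlgebra F (Equiv.Perm (Fin m)) →ₗ[F] V}
    (h : ∀ w, f (MonoidAlgebra.single w 1) = g (MonoidAlgebra.single w 1)) (a) : f a = g a :=
  LinearMap.congr_fun (MonoidAlgebra.lhom_ext' fun w => LinearMap.ext_ring (h w)) a

omit [CharZero F] in
theorem sgn_ne {L : Finset ℕ} (h : sgn F I L ≠ 0) : L ⊆ I ∧ L.card + 1 = I.card := by
  obtain ⟨i, hi, h1⟩ := exists_ne_zero_of_sum_ne_zero h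
  have h2 : L = I.erase i := by_contra fun e => h1 (if_neg e)
  exact h2 ▸ ⟨erase_subset _ _, card_erase_add_one hi⟩

omit [CharZero F] in
theorem sum_sgn {V : Type} [AddCommGroup V] [Module F V] {S : Finset ℕ} (hI : I ⊆ S)
    (f : Finset ℕ → V) : ∑ L ∈ S.powerset, sgn F I L • f L =
      ∑ i ∈ I, (-1 : F) ^ (I.filter (· < i)).card • f (I.erase i) := by
  simp only [sgn, sum_smul]
  rw [sum_comm]
  refine sum_congr rfl fun i _ => ?_
  simp only [ite_smul, zero_smul]
  rw [sum_ite_eq', if_pos (mem_powerset.2 ((erase_subset _ _).trans hI))]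

omit [CharZero F] in
theorem bd_Phi (hI : I ⊆ Ioo 0 m) (a : MonoidAlgebra F (Equiv.Perm (Fin m))) :
    bd F m (Phi ε I a) = ∑ L ∈ (Ioo 0 m).powerset, sgn F I L • Phi ε L a := by
  have := alg_ext (f := bd F m ∘ₗ Phi ε I) (g := ∑ L ∈ (Ioo 0 m).powerset, sgn F I L • Phi ε L)
    (fun w => ?_) a
  · simpa [LinearMap.sum_apply] using this
  · rw [sum_sgn (F := F) hI (Phi ε)]
    simp only [LinearMap.comp_apply, LinearMap.sum_apply, LinearMap.smul_apply, Phi_single,
      one_smul, map_smul, bd, Finsupp.linearCombination_single, ty_flag hI, smul_sum]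
    refine sum_congr rfl fun i hi => ?_
    rw [update_flag w (mem_Ioo.1 (hI hi)).2.ne, smul_comm]

omit [CharZero F] in
theorem supp_Phi (hI : I ⊆ Ioo 0 m) (a : MonoidAlgebra F (Equiv.Perm (Fin m))) :
    Phi ε I a ∈ Finsupp.supported F F
      {x | Fl m card (· = univ) (fun _ => True) x ∧ (ty m x).card = I.card} := by
  induction a using MonoidAlgebra.induction_linear with
  | zero => simp
  | add a b ha hb => rw [map_add]; exact add_mem ha hb
  | single w c =>
    rw [Phi_single]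
    exact Submodule.smul_mem _ _ (Submodule.smul_mem _ _
      (Finsupp.single_mem_supported _ _ ⟨fl_flag hI w, by rw [ty_flag hI]⟩))

variable (hε : ∀ w, ε w * ε w = 1)
include hε

theorem Phi_idem (a : MonoidAlgebra F (Equiv.Perm (Fin m))) :
    Phi ε I (idem ε (Young m I) * a) = Phi ε I a := by
  refine map_idem hε (Phi ε I ∘ₗ LinearMap.mulRight F a) fun u hu => ?_
  refine alg_ext (f := Phi ε I ∘ₗ LinearMap.mulLeft F (MonoidAlgebra.single u 1))
    (g := ε u • Phi ε I) (fun w => ?_) a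
  simp only [LinearMap.comp_apply, LinearMap.mulLeft_apply, MonoidAlgebra.single_mul_single,
    Phi_single, LinearMap.smul_apply, flag_mul hu, map_mul, mul_one, one_smul, mul_smul]

theorem PsiK_flag (w : Equiv.Perm (Fin m)) : PsiK ε I (Finsupp.single (flag m I w) 1) =
    ε w • (idem ε (Young m I) * MonoidAlgebra.single w 1) := by
  have h : ∃ w', flag m I w' = flag m I w := ⟨w, rfl⟩
  rw [PsiK, Finsupp.linearCombination_single, one_smul, dif_pos h]
  have h1 := mem_young_of_flag h.choose_spec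
  generalize h.choose = w' at h1 ⊢
  obtain ⟨u, rfl⟩ : ∃ u, w' = u * w := ⟨w' * w⁻¹, by simp⟩
  rw [mul_inv_cancel_right] at h1
  rw [← mul_one (1 : F), ← MonoidAlgebra.single_mul_single, ← mul_assoc, idem_mul_single hε h1,
    smul_mul_assoc, smul_smul, map_mul, mul_right_comm, hε, one_mul, mul_one]

theorem PsiK_Phi (hI : I ⊆ Ioo 0 m) (hJ : J ⊆ Ioo 0 m) (a : MonoidAlgebra F (Equiv.Perm (Fin m))) :
    PsiK ε I (Phi ε J a) = if J = I then idem ε (Young m I) * a else 0 := by
  split_ifs with h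
  · subst h
    refine alg_ext (f := PsiK ε J ∘ₗ Phi ε J) (g := LinearMap.mulLeft F _) (fun w => ?_) a
    rw [LinearMap.comp_apply, Phi_single, one_smul, map_smul, PsiK_flag hε, smul_smul, hε, one_smul,
      LinearMap.mulLeft_apply]
  · refine alg_ext (f := PsiK ε I ∘ₗ Phi ε J) (g := 0) (fun w => ?_) a
    rw [LinearMap.comp_apply, Phi_single, one_smul, map_smul, PsiK,
      Finsupp.linearCombination_single, dif_neg, smul_zero, smul_zero, LinearMap.zero_apply]
    rintro ⟨w', e⟩
    exact h (by rw [← ty_flag hI w', e, ty_flag hJ])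

theorem sum_Phi_Psi {r : ℕ} {v : (ℕ → Finset (Fin m)) →₀ F}
    (hv : ∀ x ∈ v.support, Fl m card (· = univ) (fun _ => True) x ∧ (ty m x).card = r) :
    ∑ I ∈ (Ioo 0 m).powersetCard r, Phi ε I (PsiK ε I v) = v := by
  have key : ∀ x ∈ v.support, ∑ I ∈ (Ioo 0 m).powersetCard r,
      Phi ε I (PsiK ε I (Finsupp.single x 1)) = Finsupp.single x 1 := fun x hx => by
    obtain ⟨w, hw⟩ := exists_flag (hv x hx).1
    have hJ : ty m x ⊆ Ioo 0 m := fun _ h => (mem_ty.1 h).1
    have h1 : Finsupp.single x (1 : F) = Phi ε (ty m x) (MonoidAlgebra.single w (ε w)) := by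
      rw [Phi_single, smul_smul, hε, one_smul, hw]
    rw [h1, sum_eq_single (ty m x), PsiK_Phi hε hJ hJ, if_pos rfl, Phi_idem hε]
    · intro I hI hne
      rw [PsiK_Phi hε (mem_powersetCard.1 hI).1 hJ, if_neg hne.symm, map_zero]
    · exact fun h => absurd (mem_powersetCard.2 ⟨hJ, (hv x hx).2⟩) h
  have h2 : v = ∑ x ∈ v.support, v x • Finsupp.single x (1 : F) := by
    simp only [Finsupp.smul_single, smul_eq_mul, mul_one]
    exact v.sum_single.symm
  conv_lhs => rw [h2]
  simp only [map_sum, map_smul]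
  rw [sum_comm]
  conv_rhs => rw [h2]
  exact sum_congr rfl fun x hx => by rw [← smul_sum, key x hx]

theorem PsiK_bd_Phi (hI : I ⊆ Ioo 0 m) (hJ : J ⊆ Ioo 0 m)
    (a : MonoidAlgebra F (Equiv.Perm (Fin m))) :
    PsiK ε J (bd F m (Phi ε I a)) = sgn F I J • (idem ε (Young m J) * a) := by
  rw [bd_Phi hI, map_sum, sum_eq_single J, map_smul, PsiK_Phi hε hJ hJ, if_pos rfl]
  · intro L hL hne
    rw [map_smul, PsiK_Phi hε hJ (mem_powerset.1 hL), if_neg hne, smul_zero]
  · exact fun h => absurd (mem_powerset.2 hJ) h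

theorem sgn_sgn (hI : I ⊆ Ioo 0 m) (hJ : J ⊆ Ioo 0 m) :
    ∑ L ∈ (Ioo 0 m).powerset, sgn F I L * sgn F L J = 0 := by
  have h := congrArg (PsiK ε J) (bd_bd m (Phi ε I 1))
  rw [bd_Phi hI, map_sum, map_sum, map_zero] at h
  have h1 : ∑ L ∈ (Ioo 0 m).powerset, (sgn F I L * sgn F L J) • (idem ε (Young m J) * 1) = 0 := by
    rw [← h]
    exact sum_congr rfl fun L hL => by
      rw [map_smul, map_smul, PsiK_bd_Phi hε (mem_powerset.1 hL) hJ, mul_smul]
  rw [← sum_smul, smul_eq_zero] at h1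
  refine h1.resolve_right fun e => ?_
  have h2 := Phi_idem hε (I := J) 1
  rw [e, map_zero, MonoidAlgebra.one_def, Phi_single, map_one, one_smul, one_smul] at h2
  exact Finsupp.single_ne_zero.2 one_ne_zero h2.symm

/-- Exactness of the complex of right ideals. -/
theorem kos_exact {r : ℕ} (hr : r + 1 < m) (z : Finset ℕ → MonoidAlgebra F (Equiv.Perm (Fin m)))
    (hz : ∀ L ⊆ Ioo 0 m,
      ∑ J ∈ (Ioo 0 m).powersetCard r, sgn F J L • (idem ε (Young m L) * z J) = 0) :
    ∃ w : Finset ℕ → MonoidAlgebra F (Equiv.Perm (Fin m)), ∀ J ⊆ Ioo 0 m, J.card = r →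
      ∑ I ∈ (Ioo 0 m).powersetCard (r + 1), sgn F I J • (idem ε (Young m J) * w I) =
        idem ε (Young m J) * z J := by
  have H := exists_bd_bool (F := F) (univ : Finset (Fin m)) r
  rw [card_fin] at H
  have H1 : ∑ J ∈ (Ioo 0 m).powersetCard r, Phi ε J (z J) ∈ Finsupp.supported F F
      {x | Fl m card (· = univ) (fun _ => True) x ∧ (ty m x).card = r} :=
    Submodule.sum_mem _ fun J hJ =>
      (mem_powersetCard.1 hJ).2 ▸ supp_Phi (mem_powersetCard.1 hJ).1 _
  have H2 : bd F m (∑ J ∈ (Ioo 0 m).powersetCard r, Phi ε J (z J)) = 0 := by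
    rw [map_sum, sum_congr rfl fun J hJ => bd_Phi (mem_powersetCard.1 hJ).1 (z J), sum_comm]
    refine sum_eq_zero fun L hL => ?_
    have h1 := congrArg (Phi ε L) (hz L (mem_powerset.1 hL))
    simpa only [map_sum, map_smul, Phi_idem hε, map_zero] using h1
  obtain ⟨v, hv, e⟩ := H hr _ (fun x hx => (Finsupp.mem_supported _ _).1 H1 hx) H2
  refine ⟨fun I => PsiK ε I v, fun J hJ hc => ?_⟩
  have h1 := congrArg (PsiK ε J) e
  rw [← sum_Phi_Psi hε hv, map_sum, map_sum, map_sum, sum_eq_single J (s := powersetCard r _),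
    PsiK_Phi hε hJ hJ, if_pos rfl] at h1
  · rw [← h1]
    exact sum_congr rfl fun I hI => (PsiK_bd_Phi hε (mem_powersetCard.1 hI).1 hJ _).symm
  · intro L hL hne
    rw [PsiK_Phi hε hJ (mem_powersetCard.1 hL).1, if_neg hne]
  · exact fun h => absurd (mem_powersetCard.2 ⟨hJ, hc⟩) h

variable (ε) in
/-- The homotopy identity at a pair of types. -/
def HEq' (x : Finset ℕ → Finset ℕ → MonoidAlgebra F (Equiv.Perm (Fin m))) (J J' : Finset ℕ) :
    Prop :=
  ∑ I ∈ (Ioo 0 m).powersetCard (J.card + 1),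
      sgn F I J' • (idem ε (Young m J') * x J I * idem ε (Young m J)) +
    ∑ L ∈ (Ioo 0 m).powerset, sgn F J L • (idem ε (Young m J') * x L J' * idem ε (Young m L)) =
    if J = J' then idem ε (Young m J) else 0

theorem kos_cycle {x : Finset ℕ → Finset ℕ → MonoidAlgebra F (Equiv.Perm (Fin m))}
    (hJ : J ⊆ Ioo 0 m) (hx : ∀ L K, L ⊆ Ioo 0 m → K ⊆ Ioo 0 m → K.card = L.card →
      L.card + 1 = J.card → HEq' ε x L K) {K : Finset ℕ} (hK : K ⊆ Ioo 0 m) :
    ∑ J' ∈ (Ioo 0 m).powersetCard J.card, sgn F J' K • (idem ε (Young m K) *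
      ((if J = J' then idem ε (Young m J) else 0) -
        ∑ L ∈ (Ioo 0 m).powerset, sgn F J L • (x L J' * idem ε (Young m L)))) = 0 := by
  by_cases hc : K.card + 1 = J.card
  swap
  · refine sum_eq_zero fun J' hJ' => ?_
    have : sgn F J' K = 0 := by_contra fun h =>
      hc ((sgn_ne h).2.trans (mem_powersetCard.1 hJ').2)
    rw [this, zero_smul]
  have h1 : ∀ L ∈ (Ioo 0 m).powerset, sgn F J L • ∑ J' ∈ (Ioo 0 m).powersetCard J.card,
      sgn F J' K • (idem ε (Young m K) * x L J' * idem ε (Young m L)) =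
      sgn F J L • (if L = K then idem ε (Young m L) else 0) - ∑ M ∈ (Ioo 0 m).powerset,
        (sgn F J L * sgn F L M) • (idem ε (Young m K) * x M K * idem ε (Young m M)) :=
    fun L hL => by
      by_cases h : sgn F J L = 0
      · simp [h]
      · have h2 := (sgn_ne h).2
        have h3 := hx L K (mem_powerset.1 hL) hK (by omega) h2
        rw [HEq', h2] at h3
        simp only [mul_smul]
        rw [← smul_sum, ← smul_sub, ← h3, add_sub_cancel_right]
  have h2 := sum_congr rfl h1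
  rw [sum_sub_distrib, sum_comm (s := (Ioo 0 m).powerset) (t := (Ioo 0 m).powerset),
    sum_eq_zero (s := (Ioo 0 m).powerset) (f := fun M => ∑ L ∈ _, (sgn F J L * sgn F L M) • _)
      fun M hM => by rw [← sum_smul, sgn_sgn hε hJ (mem_powerset.1 hM), zero_smul], sub_zero] at h2
  simp only [smul_ite, smul_zero, sum_ite_eq', if_pos (mem_powerset.2 hK)] at h2
  simp only [mul_sub, smul_sub, sum_sub_distrib, mul_ite, mul_zero, smul_ite, smul_zero,
    sum_ite_eq, if_pos (mem_powersetCard.2 ⟨hJ, rfl⟩), mul_sum, smul_sum, mul_smul_comm]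
  rw [sum_comm, sub_eq_zero]
  simp only [smul_sum] at h2
  refine Eq.trans ?_ (h2.symm.trans (sum_congr rfl fun L _ => sum_congr rfl fun J' _ => ?_))
  · by_cases h : sgn F J K = 0
    · simp [h]
    · rw [idem_mul_idem hε (young_anti m (sgn_ne h).1)]
  · rw [smul_comm, mul_assoc]

theorem kos_step {x : Finset ℕ → Finset ℕ → MonoidAlgebra F (Equiv.Perm (Fin m))}
    (hJ : J ⊆ Ioo 0 m) (hr : J.card + 1 < m) (hx : ∀ L K, L ⊆ Ioo 0 m → K ⊆ Ioo 0 m →
      K.card = L.card → L.card + 1 = J.card → HEq' ε x L K) :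
    ∃ w : Finset ℕ → MonoidAlgebra F (Equiv.Perm (Fin m)), ∀ y : Finset ℕ → Finset ℕ → _,
      y J = w → (∀ L, L.card < J.card → y L = x L) → ∀ J' ⊆ Ioo 0 m, J'.card = J.card →
      HEq' ε y J J' := by
  obtain ⟨w, hw⟩ := kos_exact hε hr _ fun K hK => kos_cycle hε hJ hx hK
  refine ⟨w, fun y h1 h2 J' hJ' hc => ?_⟩
  have h3 := congrArg (· * idem ε (Young m J)) (hw J' hJ' hc)
  simp only [sum_mul, smul_mul_assoc, mul_sub, sub_mul, mul_sum, mul_smul_comm] at h3
  rw [HEq', h1, h3, sub_add_eq_add_sub, sub_eq_iff_eq_add]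
  congr 1
  · split_ifs with h
    · subst h
      rw [idem_mul_idem hε le_rfl, idem_mul_idem hε le_rfl]
    · rw [mul_zero, zero_mul]
  · refine sum_congr rfl fun L _ => ?_
    by_cases h : sgn F J L = 0
    · simp [h]
    · rw [h2 L (by have := (sgn_ne h).2; omega), mul_assoc, mul_assoc, mul_assoc,
        idem_mul_idem hε (young_anti m (sgn_ne h).1)]

theorem kos_all (r : ℕ) : ∃ x : Finset ℕ → Finset ℕ → MonoidAlgebra F (Equiv.Perm (Fin m)),
    ∀ J J' : Finset ℕ, J ⊆ Ioo 0 m → J' ⊆ Ioo 0 m → J'.card = J.card → J.card + 1 < m →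
      J.card < r → HEq' ε x J J' := by
  induction r with
  | zero => exact ⟨0, fun _ _ _ _ _ _ h => absurd h (Nat.not_lt_zero _)⟩
  | succ r ih =>
    obtain ⟨x, hx⟩ := ih
    have key : ∀ J : Finset ℕ, ∃ w : Finset ℕ → MonoidAlgebra F (Equiv.Perm (Fin m)),
        J ⊆ Ioo 0 m → J.card + 1 < m → J.card = r → ∀ y : Finset ℕ → Finset ℕ → _,
        y J = w → (∀ L, L.card < J.card → y L = x L) → ∀ J' ⊆ Ioo 0 m, J'.card = J.card →
        HEq' ε y J J' := fun J => by
      by_cases h : J ⊆ Ioo 0 m ∧ J.card + 1 < m ∧ J.card = r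
      · obtain ⟨w, hw⟩ := kos_step hε h.1 h.2.1 (x := x) fun L K hL hK h1 h2 =>
          hx L K hL hK h1 (by omega) (by omega)
        exact ⟨w, fun _ _ _ => hw⟩
      · exact ⟨0, fun h1 h2 h3 => absurd ⟨h1, h2, h3⟩ h⟩
    choose w hw using key
    refine ⟨fun J => if J.card = r then w J else x J, fun J J' hJ hJ' hc hm hr => ?_⟩
    by_cases h : J.card = r
    · exact hw J hJ hm h _ (if_pos h) (fun L hL => if_neg (by omega)) J' hJ' hc
    · have h1 := hx J J' hJ hJ' hc hm (by omega)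
      rw [HEq'] at h1 ⊢
      rw [← h1, if_neg h]
      congr 1
      refine sum_congr rfl fun L _ => ?_
      by_cases h2 : sgn F J L = 0
      · simp [h2]
      · rw [if_neg (by have := (sgn_ne h2).2; omega)]

end Flags

/-- A contracting homotopy below the top degree. -/
theorem exists_contraction (m : ℕ) (ε : Equiv.Perm (Fin m) →* F) (hε : ∀ w, ε w * ε w = 1) :
    ∃ x : Finset ℕ → Finset ℕ → MonoidAlgebra F (Equiv.Perm (Fin m)),
      ∀ J J' : Finset ℕ, J ⊆ Finset.Ioo 0 m → J' ⊆ Finset.Ioo 0 m → J'.card = J.card →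
        J.card + 1 < m →
        ∑ I ∈ (Finset.Ioo 0 m).powersetCard (J.card + 1),
            sgn F I J' • (idem ε (Young m J') * x J I * idem ε (Young m J)) +
          ∑ L ∈ (Finset.Ioo 0 m).powerset,
            sgn F J L • (idem ε (Young m J') * x L J' * idem ε (Young m L)) =
          if J = J' then idem ε (Young m J) else 0 := by
  obtain ⟨x, hx⟩ := kos_all hε m
  exact ⟨x, fun J J' hJ hJ' hc hm => hx J J' hJ hJ' hc hm (by omega)⟩

/-- The opposite character is killed by the minimal parabolic idempotents. -/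
theorem exists_opp (m : ℕ) (ε : Equiv.Perm (Fin m) →* F) (hε : ∀ w, ε w * ε w = 1) :
    ∃ r : MonoidAlgebra F (Equiv.Perm (Fin m)), r ≠ 0 ∧
      ∀ J ⊆ Finset.Ioo 0 m, J ≠ Finset.Ioo 0 m → idem ε (Young m J) * r = 0 := by
  let sg : Equiv.Perm (Fin m) →* F :=
    (Int.castRingHom F).toMonoidHom.comp ((Units.coeHom ℤ).comp Equiv.Perm.sign)
  have hsg : ∀ w, sg w * sg w = 1 := fun w => by
    rw [← map_mul]
    simp [sg]
  have hδ : ∀ w, (ε * sg) w * (ε * sg) w = 1 := fun w => by
    rw [MonoidHom.mul_apply, mul_mul_mul_comm, hε, hsg, mul_one]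
  refine ⟨idem (ε * sg) ⊤, fun h => ?_, fun J hJ hne => ?_⟩
  · have h1 := map_idem hδ (H := ⊤) (MonoidAlgebra.lift F F _ (ε * sg)).toLinearMap (v := 1)
      fun w _ => by simp
    rw [h, map_zero] at h1
    exact zero_ne_one h1
  · obtain ⟨b, hb, hbJ⟩ := Finset.exists_of_ssubset (hJ.ssubset_of_ne hne)
    obtain ⟨h0, hbm⟩ := Finset.mem_Ioo.1 hb
    let a' : Fin m := ⟨b - 1, by omega⟩
    let b' : Fin m := ⟨b, hbm⟩
    have hab : (b' : ℕ) = a' + 1 := by simp only [a', b']; omega
    have hne : a' ≠ b' := fun e => by rw [e] at hab; omega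
    have h1 := idem_mul_single hε (swap_mem_young hab hbJ)
    have h2 := single_mul_idem hδ (Subgroup.mem_top (Equiv.swap a' b'))
    have h3 : sg (Equiv.swap a' b') = -1 := by simp [sg, Equiv.Perm.sign_swap hne]
    have h4 := mul_assoc (idem ε (Young m J)) (MonoidAlgebra.single (Equiv.swap a' b') 1)
      (idem (ε * sg) ⊤)
    rw [h1, h2, smul_mul_assoc, mul_smul_comm, MonoidHom.mul_apply, h3, mul_neg_one, neg_smul,
      eq_neg_iff_add_eq_zero, ← add_smul, ← two_mul, smul_eq_zero] at h4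
    refine h4.resolve_left (mul_ne_zero two_ne_zero fun e => ?_)
    have h5 := hε (Equiv.swap a' b')
    rw [e, mul_zero] at h5
    exact zero_ne_one h5

end

end Pool.Agent.Lib.MP_fc2ced_ag.K
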