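import Pool.Agent.Lib.MP_fc2ced_ag.K.Span
import Pool.Agent.Lib.MP_fc2ced_ag.K.Kos

/-! An exact complex whose terms are the parabolic parts of an object with an action of the
symmetric group forces the opposite character to vanish. -/

open CategoryTheory Function

namespace Pool.Agent.Lib.MP_fc2ced_ag.K

noncomputable section

variable {k : Type} [Field k] {F : Type} [Field F] [CharZero F]

open Ob

/-- The subsets with `r` elements. -/
abbrev Pc (m r : ℕ) := {I // I ∈ (Finset.Ioo 0 m).powersetCard r}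

variable {m : ℕ} (B : Finset ℕ → Ob k F) (dd : ∀ I J, B I ⟶ B J)

/-- The differential of the total complex. -/
def totD (m r : ℕ) : Ob.pi (fun I : Pc m (r + 1) => B I.1) ⟶ Ob.pi fun J : Pc m r => B J.1 :=
  ⟨fun K => LinearMap.pi fun J => ∑ I : Pc m (r + 1),
      sgn F I.1 J.1 • (dd I.1 J.1).1 K ∘ₗ LinearMap.proj I,
    fun K K' g => by
      refine LinearMap.ext fun v => funext fun J => ?_
      simp [Ob.nat]⟩

variable {B dd}

section Incl

variable {ι : Type} [Fintype ι] [DecidableEq ι] (M : ι → Ob k F)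

/-- The inclusions into a finite direct sum. -/
def piIn (i : ι) : M i ⟶ Ob.pi M :=
  ⟨fun K => LinearMap.single F (fun i => (M i).V K) i, fun K K' g => by
    refine LinearMap.ext fun v => funext fun j => ?_
    by_cases h : j = i
    · subst h; simp
    · simp [Pi.single_eq_of_ne h]⟩

omit [CharZero F] in
theorem piIn_proj (i : ι) : piIn M i ≫ Ob.proj M i = 𝟙 _ :=
  hom_ext fun K => LinearMap.ext fun v => by simp [piIn, Ob.proj]

omit [CharZero F] in
theorem piIn_proj_ne {i j : ι} (h : i ≠ j) : piIn M i ≫ Ob.proj M j = 0 :=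
  hom_ext fun K => LinearMap.ext fun v => by simp [piIn, Ob.proj, Pi.single_eq_of_ne h.symm]

omit [CharZero F] in
theorem pi_total : ∑ i, Ob.proj M i ≫ piIn M i = 𝟙 _ :=
  hom_ext fun K => LinearMap.ext fun v => by
    simp [piIn, Ob.proj, LinearMap.sum_apply, Finset.univ_sum_single]

end Incl

omit [CharZero F] in
theorem piIn_totD (m r : ℕ) (I : Pc m (r + 1)) (J : Pc m r) :
    piIn (fun I : Pc m (r + 1) => B I.1) I ≫ totD B dd m r ≫ Ob.proj (fun J : Pc m r => B J.1) J =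
      sgn F I.1 J.1 • dd I.1 J.1 :=
  hom_ext fun K => LinearMap.ext fun v => by
    simp only [piIn, totD, Ob.proj, comp_app, LinearMap.comp_apply, LinearMap.proj_apply,
      LinearMap.pi_apply, LinearMap.sum_apply, LinearMap.smul_apply, LinearMap.single_apply,
      smul_app]
    rw [Finset.sum_eq_single I]
    · simp
    · intro I' _ h
      simp [Pi.single_eq_of_ne h]
    · simp

omit [CharZero F] in
theorem sgn_ne_zero {I J : Finset ℕ} (h : sgn F I J ≠ 0) : J ⊆ I ∧ J.card + 1 = I.card := by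
  obtain ⟨i, hi, h⟩ := Finset.exists_ne_zero_of_sum_ne_zero h
  have : J = I.erase i := by
    by_contra h'
    exact h (if_neg h')
  subst this
  exact ⟨Finset.erase_subset _ _, Finset.card_erase_add_one hi⟩

section Mat

variable (Θ : Theory k F) {R : Type} [Ring R] {A : Ob k F}
  (P : R →+ (Θ.Φ.obj A ⟶ Θ.Φ.obj A)) (α : ∀ I, Θ.Φ.obj A ⟶ Θ.Φ.obj (B I))
  (σ : ∀ I, Θ.Φ.obj (B I) ⟶ Θ.Φ.obj A)

/-- The map of direct sums given by a matrix of elements of the ring. -/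
def matx (m r r' : ℕ) (y : Finset ℕ → Finset ℕ → R) :
    Θ.Φ.obj (Ob.pi fun I : Pc m r => B I.1) ⟶ Θ.Φ.obj (Ob.pi fun I : Pc m r' => B I.1) :=
  ∑ I : Pc m r, ∑ J : Pc m r', Θ.Φ.map (Ob.proj (fun I : Pc m r => B I.1) I) ≫
    (σ I.1 ≫ P (y I.1 J.1) ≫ α J.1) ≫ Θ.Φ.map (piIn (fun I : Pc m r' => B I.1) J)

variable {Θ}

omit [CharZero F] in
theorem pi_ext {ι ι' : Type} [Fintype ι] [DecidableEq ι] [Fintype ι'] [DecidableEq ι']
    {M : ι → Ob k F} {M' : ι' → Ob k F} {f g : Θ.Φ.obj (Ob.pi M) ⟶ Θ.Φ.obj (Ob.pi M')}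
    (h : ∀ i j, Θ.Φ.map (piIn M i) ≫ f ≫ Θ.Φ.map (Ob.proj M' j) =
      Θ.Φ.map (piIn M i) ≫ g ≫ Θ.Φ.map (Ob.proj M' j)) : f = g := by
  have e (f : Θ.Φ.obj (Ob.pi M) ⟶ Θ.Φ.obj (Ob.pi M')) : f = ∑ i, ∑ j, Θ.Φ.map (Ob.proj M i) ≫
      (Θ.Φ.map (piIn M i) ≫ f ≫ Θ.Φ.map (Ob.proj M' j)) ≫ Θ.Φ.map (piIn M' j) := by
    calc f = Θ.Φ.map (∑ i, Ob.proj M i ≫ piIn M i) ≫ f ≫
          Θ.Φ.map (∑ i, Ob.proj M' i ≫ piIn M' i) := by simp [pi_total]
      _ = _ := by
        simp only [Functor.map_sum, Preadditive.sum_comp, Preadditive.comp_sum, Functor.map_comp,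
          Category.assoc]
        exact Finset.sum_comm
  rw [e f, e g]
  simp only [h]

omit [CharZero F] in
theorem piIn_comp {ι : Type} [Fintype ι] [DecidableEq ι] {M : ι → Ob k F} {X : DM k}
    (f : ∀ i, Θ.Φ.obj (M i) ⟶ X) (i : ι) :
    Θ.Φ.map (piIn M i) ≫ ∑ j, Θ.Φ.map (Ob.proj M j) ≫ f j = f i := by
  rw [Preadditive.comp_sum, Finset.sum_eq_single i]
  · rw [← Functor.map_comp_assoc, piIn_proj]; simp
  · intro j _ h
    rw [← Functor.map_comp_assoc, piIn_proj_ne _ h.symm]; simp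
  · simp

omit [CharZero F] in
theorem comp_proj {ι : Type} [Fintype ι] [DecidableEq ι] {M : ι → Ob k F} {X : DM k}
    (f : ∀ i, X ⟶ Θ.Φ.obj (M i)) (i : ι) :
    (∑ j, f j ≫ Θ.Φ.map (piIn M j)) ≫ Θ.Φ.map (Ob.proj M i) = f i := by
  rw [Preadditive.sum_comp, Finset.sum_eq_single i]
  · rw [Category.assoc, ← Functor.map_comp, piIn_proj]; simp
  · intro j _ h
    rw [Category.assoc, ← Functor.map_comp, piIn_proj_ne _ h]; simp
  · simp

omit [CharZero F] in
theorem piIn_matx (m r r' : ℕ) (y : Finset ℕ → Finset ℕ → R) (I : Pc m r) :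
    Θ.Φ.map (piIn (fun I : Pc m r => B I.1) I) ≫ matx Θ P α σ m r r' y =
      ∑ J : Pc m r', (σ I.1 ≫ P (y I.1 J.1) ≫ α J.1) ≫
        Θ.Φ.map (piIn (fun I : Pc m r' => B I.1) J) := by
  simp only [matx, ← Preadditive.comp_sum]
  exact piIn_comp (fun I : Pc m r => ∑ J : Pc m r', (σ I.1 ≫ P (y I.1 J.1) ≫ α J.1) ≫
        Θ.Φ.map (piIn (fun I : Pc m r' => B I.1) J)) I

omit [CharZero F] in
theorem matx_entry (m r r' : ℕ) (y : Finset ℕ → Finset ℕ → R) (I : Pc m r) (J : Pc m r') :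
    Θ.Φ.map (piIn (fun I : Pc m r => B I.1) I) ≫ matx Θ P α σ m r r' y ≫
      Θ.Φ.map (Ob.proj (fun I : Pc m r' => B I.1) J) = σ I.1 ≫ P (y I.1 J.1) ≫ α J.1 := by
  rw [← Category.assoc, piIn_matx]
  exact comp_proj (fun J : Pc m r' => σ I.1 ≫ P (y I.1 J.1) ≫ α J.1) J

omit [CharZero F] in
theorem matx_add (m r r' : ℕ) (y z : Finset ℕ → Finset ℕ → R) :
    matx Θ P α σ m r r' y + matx Θ P α σ m r r' z =
      matx Θ P α σ m r r' fun I J => y I J + z I J := by
  simp only [matx, ← Finset.sum_add_distrib, map_add, Preadditive.add_comp, Preadditive.comp_add]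

variable {P α σ} {e : Finset ℕ → R} (hP : ∀ x y, P (x * y) = P y ≫ P x)
  (h1 : ∀ I ⊆ Finset.Ioo 0 m, σ I ≫ α I = 𝟙 _) (h2 : ∀ I ⊆ Finset.Ioo 0 m, α I ≫ σ I = P (e I))

omit [CharZero F] in
theorem Pc.sub {r : ℕ} (I : Pc m r) : I.1 ⊆ Finset.Ioo 0 m := (Finset.mem_powersetCard.1 I.2).1

omit [CharZero F] in
theorem Pc.card {r : ℕ} (I : Pc m r) : I.1.card = r := (Finset.mem_powersetCard.1 I.2).2

omit [CharZero F] in
include hP h2 in
theorem matx_comp (r r' r'' : ℕ) (y z : Finset ℕ → Finset ℕ → R) :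
    matx Θ P α σ m r r' y ≫ matx Θ P α σ m r' r'' z = matx Θ P α σ m r r''
      fun I L => ∑ J ∈ (Finset.Ioo 0 m).powersetCard r', z J L * e J * y I J := by
  refine pi_ext fun I L => ?_
  rw [matx_entry, Category.assoc, ← Category.assoc, piIn_matx, Preadditive.sum_comp,
    ← Finset.sum_coe_sort ((Finset.Ioo 0 m).powersetCard r'), map_sum, Preadditive.sum_comp,
    Preadditive.comp_sum]
  refine Finset.sum_congr rfl fun J _ => ?_
  rw [Category.assoc, matx_entry, hP, hP, ← h2 _ J.sub]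
  simp only [Category.assoc]

omit [CharZero F] in
include hP h1 h2 in
theorem sandwich {I J : Finset ℕ} (hI : I ⊆ Finset.Ioo 0 m) (hJ : J ⊆ Finset.Ioo 0 m) (x : R) :
    σ I ≫ P (e J * x * e I) ≫ α J = σ I ≫ P x ≫ α J := by
  rw [hP, hP, ← h2 _ hI, ← h2 _ hJ]
  simp only [Category.assoc]
  rw [h1 _ hJ, ← Category.assoc, h1 _ hI]
  simp

omit [CharZero F] in
include hP h1 h2 in
theorem matx_eq_id (r : ℕ) (y : Finset ℕ → Finset ℕ → R)
    (hy : ∀ I J : Pc m r, e J.1 * y I.1 J.1 * e I.1 = if I.1 = J.1 then e I.1 else 0) :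
    matx Θ P α σ m r r y = 𝟙 _ := by
  refine pi_ext fun I J => ?_
  rw [matx_entry, ← sandwich hP h1 h2 I.sub J.sub, hy, Category.id_comp, ← Functor.map_comp]
  by_cases h : I = J
  · subst h
    rw [if_pos rfl, piIn_proj, ← h2 _ I.sub]
    simp only [Category.assoc]
    rw [h1 _ I.sub, Category.comp_id, h1 _ I.sub, Θ.Φ.map_id]
  · rw [if_neg fun h' => h (Subtype.ext h'), piIn_proj_ne _ h]
    simp

end Mat

section Tri

variable (B dd)

/-- The image of the differential. -/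
abbrev cyc (m r : ℕ) : Ob.Sub (Ob.pi fun J : Pc m r => B J.1) := Ob.range (totD B dd m r)

/-- The differential as a map onto its image. -/
def totP (m r : ℕ) : Ob.pi (fun I : Pc m (r + 1) => B I.1) ⟶ (cyc B dd m r).ob :=
  (cyc B dd m r).lift (totD B dd m r) fun _ v => ⟨v, rfl⟩

omit [CharZero F] in
theorem totP_incl (m r : ℕ) : totP B dd m r ≫ (cyc B dd m r).incl = totD B dd m r := rfl

variable {B dd}

omit [CharZero F] in
theorem ses_cyc {r : ℕ}
    (ex : ∀ K, Exact ((totD B dd m (r + 1)).1 K) ((totD B dd m r).1 K)) :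
    Ses (cyc B dd m (r + 1)).incl (totP B dd m r) where
  inj K := Subtype.val_injective
  exact K v := by
    refine Iff.trans ?_ ((ex K v).trans ?_)
    · exact Subtype.ext_iff
    · exact ⟨fun h => ⟨⟨v, h⟩, rfl⟩, fun ⟨w, h⟩ => h ▸ w.2⟩
  surj K := by
    rintro ⟨_, v, rfl⟩
    exact ⟨v, rfl⟩

omit [CharZero F] in
theorem mono_cyc (Θ : Theory k F) (s : Surj (totD B dd m 0))
    (ex : ∀ r K, Exact ((totD B dd m (r + 1)).1 K) ((totD B dd m r).1 K))
    (h : ∀ r, Θ.Φ.obj (Ob.pi fun I : Pc m r => B I.1) ⟶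
      Θ.Φ.obj (Ob.pi fun I : Pc m (r + 1) => B I.1))
    (hh : ∀ r, r + 1 < m → Θ.Φ.map (cyc B dd m r).incl ≫ h r ≫ Θ.Φ.map (totD B dd m r) =
      Θ.Φ.map (cyc B dd m r).incl) (r : ℕ) (hr : r < m) : Mono (Θ.Φ.map (cyc B dd m r).incl) := by
  induction r with
  | zero =>
    have : IsIso (Θ.Φ.map (cyc B dd m 0).incl) := Bij.uiso (f := (cyc B dd m 0).incl)
      (fun K => ⟨Subtype.val_injective, fun v => ⟨⟨v, s K v⟩, rfl⟩⟩) Θ
    infer_instance
  | succ r ih =>
    have := ih (by omega)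
    have h3 : (Θ.Φ.map (cyc B dd m r).incl ≫ h r) ≫ Θ.Φ.map (totP B dd m r) = 𝟙 _ := by
      rw [← cancel_mono (Θ.Φ.map (cyc B dd m r).incl), Category.id_comp, Category.assoc,
        ← Functor.map_comp, totP_incl, Category.assoc, hh r hr]
    have : Epi (Θ.Φ.map (totP B dd m r)) := epi_of_epi_fac h3
    have T := Θ.dist (ses_cyc (ex r))
    exact (Pretriangulated.Triangle.mor₃_eq_zero_iff_mono₁ _ T).1
      ((Pretriangulated.Triangle.mor₃_eq_zero_iff_epi₂ _ T).2 this)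

end Tri

theorem null_of_cube {Z A : Ob k F} (ρ : MonoidAlgebra F (Equiv.Perm (Fin m)) →ₐ[F] End A)
    (ε : Equiv.Perm (Fin m) →* F) (hε : ∀ w, ε w * ε w = 1) {j : Z ⟶ A} (hj : UIso j)
    (q : ∀ I, Z ⟶ B I) (hq : ∀ I J, I ⊆ Finset.Ioo 0 m → J ⊆ I → q I ≫ dd I J = q J)
    (H : ∀ I ⊆ Finset.Ioo 0 m, Quo j (q I) (ρ (idem ε (Young m I))))
    (s : Surj (totD B dd m 0))
    (ex : ∀ r K, Exact ((totD B dd m (r + 1)).1 K) ((totD B dd m r).1 K)) :
    ∃ r, r ≠ 0 ∧ Null (ρ r : A ⟶ A) := by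
  classical
  have key (Θ : Theory k F) : ∃ (P : MonoidAlgebra F (Equiv.Perm (Fin m)) →+
      (Θ.Φ.obj A ⟶ Θ.Φ.obj A)) (α : ∀ I, Θ.Φ.obj A ⟶ Θ.Φ.obj (B I))
      (σ : ∀ I, Θ.Φ.obj (B I) ⟶ Θ.Φ.obj A), (∀ x, P x = Θ.Φ.map (ρ x)) ∧
      (∀ x y, P (x * y) = P y ≫ P x) ∧ (∀ I ⊆ Finset.Ioo 0 m, σ I ≫ α I = 𝟙 _) ∧
      (∀ I ⊆ Finset.Ioo 0 m, α I ≫ σ I = P (idem ε (Young m I))) ∧
      ∀ r, Θ.Φ.map (totD B dd m r) = matx Θ P α σ m (r + 1) r fun I J => sgn F I J • 1 := by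
    have := hj Θ
    have h0 (I : Finset ℕ) : ∃ σ : Θ.Φ.obj (B I) ⟶ Θ.Φ.obj A, I ⊆ Finset.Ioo 0 m →
        σ ≫ inv (Θ.Φ.map j) ≫ Θ.Φ.map (q I) = 𝟙 _ ∧
          (inv (Θ.Φ.map j) ≫ Θ.Φ.map (q I)) ≫ σ = Θ.Φ.map (ρ (idem ε (Young m I))) := by
      by_cases hI : I ⊆ Finset.Ioo 0 m
      · obtain ⟨σ, h⟩ := H I hI Θ (inv (Θ.Φ.map j) ≫ Θ.Φ.map (q I)) (by simp)
        exact ⟨σ, fun _ => h⟩
      · exact ⟨0, fun h => absurd h hI⟩
    choose σ hσ using h0
    refine ⟨⟨⟨fun x => Θ.Φ.map (ρ x), ?_⟩, fun x y => ?_⟩,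
      fun I => inv (Θ.Φ.map j) ≫ Θ.Φ.map (q I), σ, fun _ => rfl, fun x y => ?_,
      fun I hI => (hσ I hI).1, fun I hI => (hσ I hI).2, fun r => pi_ext fun I J => ?_⟩
    · rw [map_zero]; exact Θ.Φ.map_zero _ _
    · change Θ.Φ.map (ρ (x + y)) = Θ.Φ.map (ρ x) + Θ.Φ.map (ρ y)
      rw [map_add]; exact Θ.Φ.map_add
    · change Θ.Φ.map (ρ (x * y)) = Θ.Φ.map (ρ y) ≫ Θ.Φ.map (ρ x)
      rw [map_mul, CategoryTheory.End.mul_def, Functor.map_comp]
    · rw [matx_entry, ← Functor.map_comp, ← Functor.map_comp, piIn_totD]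
      change _ = σ I.1 ≫ Θ.Φ.map (ρ (sgn F I.1 J.1 • 1)) ≫ inv (Θ.Φ.map j) ≫ Θ.Φ.map (q J.1)
      have e1 : Θ.Φ.map (ρ (sgn F I.1 J.1 • 1)) ≫ inv (Θ.Φ.map j) ≫ Θ.Φ.map (q J.1) =
          inv (Θ.Φ.map j) ≫ Θ.Φ.map (q I.1) ≫ Θ.Φ.map (sgn F I.1 J.1 • dd I.1 J.1) := by
        rw [IsIso.eq_inv_comp, ← Category.assoc, ← Functor.map_comp, ← Functor.map_comp,
          map_smul, map_one]
        have e2 : j ≫ (sgn F I.1 J.1 • (1 : End A)) = (sgn F I.1 J.1 • 𝟙 Z) ≫ j := by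
          change j ≫ (sgn F I.1 J.1 • 𝟙 A) = _
          simp
        rw [e2, Functor.map_comp, Category.assoc, IsIso.hom_inv_id_assoc, ← Functor.map_comp]
        congr 1
        by_cases h : sgn F I.1 J.1 = 0
        · simp [h]
        · simp [hq _ _ I.sub (sgn_ne_zero h).1]
      rw [e1, ← Category.assoc (inv _), ← Category.assoc, (hσ _ I.sub).1, Category.id_comp]
  have htop : idem ε (Young m (Finset.Ioo 0 m)) = 1 := by rw [young_full, idem_bot]
  have hemp {r : ℕ} (hr : m ≤ r + 1) (hr' : 1 ≤ r + 1) (I : Pc m (r + 1)) : False := by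
    have := Finset.card_le_card I.sub
    rw [I.card, Nat.card_Ioo] at this
    omega
  by_cases hm : m ≤ 1
  · refine ⟨1, one_ne_zero, fun Θ => ?_⟩
    obtain ⟨P, α, σ, hP0, hP, h1, h2, hd⟩ := key Θ
    have hz : UZero (Ob.pi fun J : Pc m 0 => B J.1) := .of_subsingleton fun K =>
      ⟨fun v w => by
        obtain ⟨v, rfl⟩ := s K v
        obtain ⟨w, rfl⟩ := s K w
        exact congrArg _ (funext fun I => (hemp (r := 0) hm le_rfl I).elim)⟩
    let I : Pc m 0 := ⟨Finset.Ioo 0 m, Finset.mem_powersetCard.2 ⟨subset_rfl, by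
      rw [Nat.card_Ioo]; omega⟩⟩
    have h3 : 𝟙 (Θ.Φ.obj (B (Finset.Ioo 0 m))) = 0 := by
      rw [← Θ.Φ.map_id, ← piIn_proj (fun J : Pc m 0 => B J.1) I, Functor.map_comp,
        hz.null_right _ Θ, Limits.zero_comp]
    rw [← hP0, ← htop, ← h2 _ subset_rfl, ← Category.comp_id (α _), h3]
    simp
  obtain ⟨n, rfl⟩ : ∃ n, m = n + 2 := ⟨m - 2, by omega⟩
  obtain ⟨r, hr0, hr⟩ := exists_opp (n + 2) ε hε
  refine ⟨r, hr0, fun Θ => ?_⟩
  obtain ⟨P, α, σ, hP0, hP, h1, h2, hd⟩ := key Θ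
  obtain ⟨x, hx⟩ := exists_contraction (n + 2) ε hε
  have ee {I J : Finset ℕ} (h : sgn F I J ≠ 0) :
      idem ε (Young (n + 2) J) * idem ε (Young (n + 2) I) = idem ε (Young (n + 2) J) :=
    idem_mul_idem hε (young_anti _ (sgn_ne_zero h).1)
  have a1 (I J J' : Finset ℕ) : idem ε (Young (n + 2) J') *
      ((sgn F I J' • 1) * idem ε (Young (n + 2) I) * x J I) * idem ε (Young (n + 2) J) =
      sgn F I J' • (idem ε (Young (n + 2) J') * x J I * idem ε (Young (n + 2) J)) := by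
    by_cases h : sgn F I J' = 0
    · simp [h]
    · rw [smul_mul_assoc, smul_mul_assoc, one_mul, mul_smul_comm, smul_mul_assoc, ← mul_assoc, ee h]
  have a2 (L J J' : Finset ℕ) : idem ε (Young (n + 2) J') *
      (x L J' * idem ε (Young (n + 2) L) * (sgn F J L • 1)) * idem ε (Young (n + 2) J) =
      sgn F J L • (idem ε (Young (n + 2) J') * x L J' * idem ε (Young (n + 2) L)) := by
    by_cases h : sgn F J L = 0
    · simp [h]
    · rw [mul_smul_comm, mul_one, mul_smul_comm, smul_mul_assoc, ← mul_assoc, mul_assoc _ _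
        (idem ε (Young (n + 2) J)), ee h]
  have hmono := mono_cyc Θ s ex (fun r => matx Θ P α σ (n + 2) r (r + 1) x) (fun t ht => by
    cases t with
    | zero =>
      rw [hd, matx_comp hP h2, matx_eq_id hP h1 h2, Category.comp_id]
      intro J J'
      have := hx J.1 J'.1 J.sub J'.sub (by rw [J.card, J'.card]) (by rw [J.card]; exact ht)
      rw [Finset.sum_eq_zero (s := Finset.powerset _) (fun L _ => by
        have : sgn F J.1 L = 0 := by
          by_contra h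
          have := (sgn_ne_zero h).2
          rw [J.card] at this
          omega
        rw [this, zero_smul]), add_zero, J.card] at this
      rw [← this, Finset.mul_sum, Finset.sum_mul]
      exact Finset.sum_congr rfl fun I _ => a1 _ _ _
    | succ t =>
      have e1 : matx Θ P α σ (n + 2) (t + 1) (t + 1 + 1) x ≫ Θ.Φ.map (totD B dd (n + 2) (t + 1)) +
          Θ.Φ.map (totD B dd (n + 2) t) ≫ matx Θ P α σ (n + 2) t (t + 1) x = 𝟙 _ := by
        rw [hd, hd, matx_comp hP h2, matx_comp hP h2, matx_add, matx_eq_id hP h1 h2]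
        intro J J'
        have := hx J.1 J'.1 J.sub J'.sub (by rw [J.card, J'.card]) (by rw [J.card]; exact ht)
        have e0 := Finset.sum_subset (s₁ := (Finset.Ioo 0 (n + 2)).powersetCard t)
          (s₂ := (Finset.Ioo 0 (n + 2)).powerset) (f := fun L => sgn F J.1 L •
            (idem ε (Young (n + 2) J'.1) * x L J'.1 * idem ε (Young (n + 2) L)))
          (fun L hL => Finset.mem_powerset.2 (Finset.mem_powersetCard.1 hL).1)
          (fun L hL hL' => by
            have : sgn F J.1 L = 0 := by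
              by_contra h
              have := (sgn_ne_zero h).2
              rw [J.card] at this
              exact hL' (Finset.mem_powersetCard.2 ⟨Finset.mem_powerset.1 hL, by omega⟩)
            rw [this, zero_smul])
        rw [← e0, J.card] at this
        rw [← this, mul_add, add_mul, Finset.mul_sum, Finset.sum_mul, Finset.mul_sum,
          Finset.sum_mul]
        exact congrArg₂ _ (Finset.sum_congr rfl fun I _ => a1 _ _ _)
          (Finset.sum_congr rfl fun I _ => a2 _ _ _)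
      have e2 : Θ.Φ.map (cyc B dd (n + 2) (t + 1)).incl ≫ Θ.Φ.map (totD B dd (n + 2) t) = 0 := by
        rw [← Functor.map_comp, ← totP_incl, ← Category.assoc, (ses_cyc (ex t)).zero,
          Limits.zero_comp, Functor.map_zero]
      rw [eq_sub_of_add_eq e1, Preadditive.comp_sub, Category.comp_id, ← Category.assoc, e2,
        Limits.zero_comp, sub_zero]) n (by omega)
  have hiso : IsIso (Θ.Φ.map (totP B dd (n + 2) n)) :=
    (ses_cyc (ex n)).uzero₁_iff.1 (.of_subsingleton fun K => ⟨by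
      rintro ⟨_, v, rfl⟩ ⟨_, w, rfl⟩
      obtain rfl : v = w := funext fun I => (hemp (r := n + 1) le_rfl (by omega) I).elim
      rfl⟩) Θ
  have hmono' : Mono (Θ.Φ.map (totD B dd (n + 2) n)) := by
    rw [← totP_incl, Functor.map_comp]
    infer_instance
  let I : Pc (n + 2) (n + 1) := ⟨Finset.Ioo 0 (n + 2), Finset.mem_powersetCard.2 ⟨subset_rfl, by
    rw [Nat.card_Ioo]; omega⟩⟩
  have h3 : P r ≫ α I.1 ≫ Θ.Φ.map (piIn (fun J : Pc (n + 2) (n + 1) => B J.1) I) = 0 := by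
    rw [← cancel_mono (Θ.Φ.map (totD B dd (n + 2) n)), Limits.zero_comp, hd]
    simp only [Category.assoc]
    rw [piIn_matx]
    simp only [Preadditive.comp_sum]
    refine Finset.sum_eq_zero fun J _ => ?_
    have hJ : J.1 ≠ Finset.Ioo 0 (n + 2) := fun h => by
      have := J.card
      rw [h, Nat.card_Ioo] at this
      omega
    rw [← sandwich hP h1 h2 I.sub J.sub]
    simp only [Category.assoc]
    rw [← Category.assoc (α _), h2 _ I.sub, ← Category.assoc (P r), ← hP, ← Category.assoc (P _),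
      ← hP]
    change P (_ * _ * idem ε (Young (n + 2) (Finset.Ioo 0 (n + 2))) *
      (idem ε (Young (n + 2) (Finset.Ioo 0 (n + 2))) * r)) ≫ _ = 0
    rw [htop, mul_one, one_mul, mul_smul_comm, mul_one, smul_mul_assoc, hr _ J.sub hJ, smul_zero,
      map_zero, Limits.zero_comp]
  have h4 : P r ≫ α I.1 = 0 := by
    have := h3 =≫ Θ.Φ.map (Ob.proj (fun J : Pc (n + 2) (n + 1) => B J.1) I)
    simpa only [Category.assoc, ← Functor.map_comp, piIn_proj, Θ.Φ.map_id, Category.comp_id,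
      Limits.zero_comp] using this
  have h5 := h4 =≫ σ I.1
  rw [Category.assoc, h2 _ I.sub, ← hP, Limits.zero_comp] at h5
  change P (idem ε (Young (n + 2) (Finset.Ioo 0 (n + 2))) * r) = 0 at h5
  rwa [htop, one_mul, hP0] at h5

end

end Pool.Agent.Lib.MP_fc2ced_ag.K
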