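import Pool.Agent.Lib.MP_fc2ced_ag.K.Place
import Pool.Agent.Lib.MP_fc2ced_ag.K.Place2Aux

/-! Places: polynomials, roots, determinants, and the extension theorem of Chevalley. -/

open Polynomial

namespace Pool.Agent.Lib.MP_fc2ced_ag.K

namespace Place

variable {k : Type} [Field k] {K K' K'' : Fld k} {φ : Place K K'} {a : K} {b : K'}
  {p p' : K[X]} {q q' : K'[X]}

theorem PR.iff_lift : φ.PR p q ↔ ∃ z : φ.D[X], z.map φ.D.subtype = p ∧ z.map φ.hom = q := by
  refine ⟨fun h => ?_, ?_⟩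
  · obtain ⟨z, hz⟩ := (mem_lifts (f := φ.D.subtype) p).1
      ((lifts_iff_coeff_lifts p).2 fun i => ⟨⟨_, _, h i⟩, rfl⟩)
    refine ⟨z, hz, Polynomial.ext fun i => ?_⟩
    rw [coeff_map]
    refine hom_eq ((h i).congr ?_ rfl)
    rw [← hz, coeff_map]
    rfl
  · rintro ⟨z, rfl, rfl⟩ i
    rw [coeff_map, coeff_map]
    exact rel_hom _

theorem PR.of_lift (z : φ.D[X]) : φ.PR (z.map φ.D.subtype) (z.map φ.hom) :=
  PR.iff_lift.2 ⟨z, rfl, rfl⟩

theorem D_inj : Function.Injective φ.D.subtype := Subtype.val_injective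

theorem PR.func (h : φ.PR p q) (h' : φ.PR p q') : q = q' :=
  Polynomial.ext fun i => φ.func (h i) (h' i)
theorem PR.C (h : φ a b) : φ.PR (C a) (C b) := fun i => by
  rw [coeff_C, coeff_C]
  split_ifs
  exacts [h, φ.zero]
theorem PR.X : φ.PR X X := PR.iff_lift.2 ⟨Polynomial.X, map_X _, map_X _⟩
theorem PR.one : φ.PR 1 1 := PR.iff_lift.2 ⟨1, Polynomial.map_one _, Polynomial.map_one _⟩
theorem PR.add (h : φ.PR p q) (h' : φ.PR p' q') : φ.PR (p + p') (q + q') := fun i => by
  rw [coeff_add, coeff_add]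
  exact (h i).add (h' i)
theorem PR.sub (h : φ.PR p q) (h' : φ.PR p' q') : φ.PR (p - p') (q - q') := fun i => by
  rw [coeff_sub, coeff_sub]
  exact (h i).sub (h' i)
theorem PR.mul (h : φ.PR p q) (h' : φ.PR p' q') : φ.PR (p * p') (q * q') := fun i => by
  rw [coeff_mul, coeff_mul]
  exact sum fun j _ => (h j.1).mul (h' j.2)
theorem PR.pow (h : φ.PR p q) (m : ℕ) : φ.PR (p ^ m) (q ^ m) := by
  induction m with
  | zero => simpa only [pow_zero] using PR.one
  | succ m ih => simpa only [pow_succ] using ih.mul h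
theorem PR.prod {ι : Type*} {s : Finset ι} {x : ι → K[X]} {y : ι → K'[X]}
    (h : ∀ i ∈ s, φ.PR (x i) (y i)) : φ.PR (∏ i ∈ s, x i) (∏ i ∈ s, y i) := by
  classical
  induction s using Finset.induction_on with
  | empty => simpa only [Finset.prod_empty] using PR.one
  | insert i s hi ih =>
    rw [Finset.prod_insert hi, Finset.prod_insert hi]
    exact (h i (by simp)).mul (ih fun j hj => h j (by simp [hj]))
theorem PR.eval (h : φ.PR p q) (h' : φ a b) : φ (p.eval a) (q.eval b) := by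
  obtain ⟨z, rfl, rfl⟩ := PR.iff_lift.1 h
  obtain ⟨w, rfl, rfl⟩ := iff_hom.1 h'
  exact iff_hom.2 ⟨z.eval w, (eval_map_apply φ.D.subtype (p := z) w).symm,
    (eval_map_apply φ.hom w).symm⟩

/-- Divisibility by a monic polynomial specializes. -/
theorem PR.dvd (h : φ.PR p q) (h' : φ.PR p' q') (hp : p.Monic) (e : p ∣ p') : q ∣ q' := by
  obtain ⟨z, rfl, rfl⟩ := PR.iff_lift.1 h
  obtain ⟨w, rfl, rfl⟩ := PR.iff_lift.1 h'
  exact Polynomial.map_dvd _ ((map_dvd_map _ D_inj (monic_of_injective D_inj hp)).1 e)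

/-- The valuation ring is integrally closed. -/
theorem PR.exists_root (h : φ.PR p q) (hp : p.Monic) (ha : p.IsRoot a) : ∃ b, φ a b := by
  obtain ⟨z, rfl, rfl⟩ := PR.iff_lift.1 h
  obtain ⟨w, rfl⟩ := (IsIntegrallyClosed.isIntegral_iff (R := φ.D) (K := K) (x := a)).1
    ⟨z, monic_of_injective D_inj hp, by rw [eval₂_eq_eval_map]; exact ha⟩
  exact w.2

theorem PR.lift_roots (hp : p.Monic) (h : ∀ a ∈ p.roots, ∃ b, φ a b) : ∃ s : Multiset φ.D,
    s.map φ.D.subtype = p.roots ∧
      φ.PR p ((s.map φ.hom).map fun b => Polynomial.X - Polynomial.C b).prod := by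
  obtain ⟨s, e⟩ : ∃ s : Multiset φ.D, s.map φ.D.subtype = p.roots :=
    ⟨p.roots.attach.map fun a => ⟨a.1, h a.1 a.2⟩, by
      rw [Multiset.map_map]
      exact Multiset.attach_map_val _⟩
  refine ⟨s, e, PR.iff_lift.2 ⟨(s.map fun b => Polynomial.X - Polynomial.C b).prod, ?_, ?_⟩⟩
  · rw [(IsAlgClosed.splits p).eq_prod_roots_of_monic hp, ← e, Polynomial.map_multiset_prod,
      Multiset.map_map, Multiset.map_map]
    simp only [Function.comp_def, Polynomial.map_sub, map_X, map_C]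
  · rw [Polynomial.map_multiset_prod, Multiset.map_map, Multiset.map_map]
    simp only [Function.comp_def, Polynomial.map_sub, map_X, map_C]

/-- The roots of a monic polynomial specialize, with multiplicities. -/
theorem PR.roots (h : φ.PR p q) (hp : p.Monic) : Multiset.Rel φ.R p.roots q.roots := by
  obtain ⟨s, h1, h2⟩ := PR.lift_roots hp fun a ha => h.exists_root hp (isRoot_of_mem_roots ha)
  rw [h.func h2, roots_multiset_prod_X_sub_C, ← h1, Multiset.rel_map]
  exact Multiset.rel_refl_of_refl_on fun z _ => rel_hom z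

/-- A monic polynomial specializes if its roots do. -/
theorem PR.of_roots (hp : p.Monic) (h : ∀ a ∈ p.roots, ∃ b, φ a b) : ∃ q, φ.PR p q :=
  (PR.lift_roots hp h).elim fun _ hs => ⟨_, hs.2⟩

theorem PR.monic (h : φ.PR p q) (hp : p.Monic) : q.Monic ∧ q.natDegree = p.natDegree := by
  obtain ⟨z, rfl, rfl⟩ := PR.iff_lift.1 h
  have hz := monic_of_injective D_inj hp
  exact ⟨hz.map _, by rw [hz.natDegree_map, hz.natDegree_map]⟩

theorem lift_matrix {ι : Type} {A : Matrix ι ι K} {B : Matrix ι ι K'}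
    (h : ∀ i j, φ (A i j) (B i j)) :
    ∃ Z : Matrix ι ι φ.D, Z.map φ.D.subtype = A ∧ Z.map φ.hom = B :=
  ⟨Matrix.of fun i j => ⟨A i j, _, h i j⟩, rfl, Matrix.ext fun i j => hom_eq (h i j)⟩

theorem det {ι : Type} [Fintype ι] [DecidableEq ι] {A : Matrix ι ι K} {B : Matrix ι ι K'}
    (h : ∀ i j, φ (A i j) (B i j)) : φ A.det B.det := by
  obtain ⟨Z, rfl, rfl⟩ := lift_matrix h
  exact iff_hom.2 ⟨Z.det, φ.D.subtype.map_det Z, φ.hom.map_det Z⟩

theorem inv_matrix {ι : Type} [Fintype ι] [DecidableEq ι] {A : Matrix ι ι K} {B : Matrix ι ι K'}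
    (h : ∀ i j, φ (A i j) (B i j)) (hB : B.det ≠ 0) (i j : ι) : φ (A⁻¹ i j) (B⁻¹ i j) := by
  rw [Matrix.inv_def, Matrix.inv_def, Ring.inverse_eq_inv', Ring.inverse_eq_inv',
    Matrix.smul_apply, Matrix.smul_apply, smul_eq_mul, smul_eq_mul]
  refine ((det h).inv hB).mul ?_
  obtain ⟨Z, rfl, rfl⟩ := lift_matrix h
  exact iff_hom.2 ⟨Z.adjugate i j, congrFun₂ (φ.D.subtype.map_adjugate Z) i j,
    congrFun₂ (φ.hom.map_adjugate Z) i j⟩

theorem charpoly {ι : Type} [Fintype ι] [DecidableEq ι] {A : Matrix ι ι K} {B : Matrix ι ι K'}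
    (h : ∀ i j, φ (A i j) (B i j)) : φ.PR A.charpoly B.charpoly := by
  obtain ⟨Z, rfl, rfl⟩ := lift_matrix h
  rw [Matrix.charpoly_map, Matrix.charpoly_map]
  exact PR.of_lift _

variable (φ) in
/-- An element of largest absolute value in a finite family. -/
theorem exists_max {ι : Type*} [Finite ι] (x : ι → K) (hx : x ≠ 0) :
    ∃ j, x j ≠ 0 ∧ ∀ i, ∃ b, φ (x i / x j) b := by
  obtain ⟨i₀, h0⟩ := Function.ne_iff.1 hx
  have : Nonempty ι := ⟨i₀⟩
  obtain ⟨j, hj⟩ := Finite.exists_max fun i => φ.D.valuation (x i)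
  have h1 : 0 < φ.D.valuation (x j) := ((Valuation.pos_iff _).2 h0).trans_le (hj i₀)
  refine ⟨j, (Valuation.pos_iff _).1 h1, fun i => mem_D.1 ((φ.D.valuation_le_one_iff _).1 ?_)⟩
  rw [map_div₀]
  exact (div_le_one₀ h1).2 (hj i)

/-- A root of unity different from one stays different from one. -/
theorem ne_one_of_pow {m : ℕ} (hm : 0 < m) (h : φ a b) (ha : a ^ m = 1) (h1 : a ≠ 1) : b ≠ 1 := by
  rintro rfl
  induction m using Nat.strong_induction_on with
  | _ m ih =>
    by_cases h0 : (m : k) = 0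
    · obtain ⟨l, rfl⟩ := (ringChar.spec k m).1 h0
      have hp : (ringChar k).Prime := (CharP.char_is_prime_or_zero k (ringChar k)).resolve_right
        fun e => by simp [e] at hm
      have : CharP K (ringChar k) := charP_of_injective_algebraMap (algebraMap k K).injective _
      have : ExpChar K (ringChar k) := .prime hp
      have l0 : 0 < l := Nat.pos_of_mul_pos_left hm
      refine ih l (by nlinarith [hp.two_le]) l0
        ((ExpChar.pow_prime_pow_mul_eq_one_iff (ringChar k) 1 l a).1 (by rwa [pow_one]))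
    · have h2 : ∑ i ∈ Finset.range m, a ^ i = 0 :=
        (mul_eq_zero.1 ((geom_sum_mul a m).trans (sub_eq_zero.2 ha))).resolve_right
          (sub_ne_zero.2 h1)
      have h3 := sum (s := Finset.range m) fun i _ => h.pow i
      rw [h2, zero_iff] at h3
      simp only [one_pow, Finset.sum_const, Finset.card_range, nsmul_eq_mul, mul_one] at h3
      exact h0 ((algebraMap k K').injective (by rw [map_natCast, map_zero, h3]))

/-- The extension theorem of Chevalley. -/
theorem exists_ext {A : Type} [CommRing A] [Algebra k A] (x : A →ₐ[k] K) (y : A →ₐ[k] K')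
    (h : ∀ a, x a = 0 → y a = 0) : ∃ φ : Place K K', ∀ a, φ (x a) (y a) := by
  have h0 : GrFn (x.prod y).range := fun b ⟨a, e⟩ =>
    (congrArg Prod.snd e).symm.trans (h a (congrArg Prod.fst e))
  obtain ⟨M, h1, h2⟩ := h0.exists_max
  exact ⟨⟨fun a b => (a, b) ∈ M, fun e e' => sub_eq_zero.1 (h2.1 _ (by
      simpa only [Prod.mk_sub_mk, sub_self] using sub_mem e e')), fun c => M.algebraMap_mem c,
    fun e e' => add_mem e e', fun e e' => mul_mem e e', max_total h2⟩, fun a => h1 ⟨a, rfl⟩⟩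

end Place

end Pool.Agent.Lib.MP_fc2ced_ag.K
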