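import Pool.Agent.Lib.MP_fc2ced_ag.K.Th
import Pool.Agent.Lib.MP_fc2ced_ag.K.Place2

/-! The basic theory: families of elements that are compatible with places. -/

open CategoryTheory CategoryTheory.Limits CategoryTheory.Pretriangulated Function

namespace Pool.Agent.Lib.MP_fc2ced_ag.K

noncomputable section

variable {k : Type} [Field k] {F : Type} [Field F]

/-- Families of elements, one for each geometric point, that are compatible with places. -/
def secs (M : Ob k F) (A : FT k) : Submodule F (∀ K : Fld k, (A →ₐ[k] K) → M.V K) where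
  carrier := {c | ∀ (K K' : Fld k) (φ : Place K K') (x : A →ₐ[k] K) (x' : A →ₐ[k] K'),
    (∀ a, φ (x a) (x' a)) → M.map φ (c K x) = c K' x'}
  zero_mem' _ _ _ _ _ _ := map_zero _
  add_mem' h h' K K' φ x x' e := by
    simp only [Pi.add_apply, map_add, h K K' φ x x' e, h' K K' φ x x' e]
  smul_mem' c _ h K K' φ x x' e := by simp only [Pi.smul_apply, map_smul, h K K' φ x x' e]

/-- The presheaf of compatible families. -/
def secF (M : Ob k F) : FT k ⥤ ModuleCat.{1} F where
  obj A := ModuleCat.of F (secs M A)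
  map g := ModuleCat.ofHom
    { toFun c := ⟨fun K x => c.1 K (AlgHom.comp x g), fun K K' φ _ _ e => c.2 K K' φ _ _ fun _ => e _⟩
      map_add' _ _ := rfl
      map_smul' _ _ := rfl }
  map_id _ := rfl
  map_comp _ _ := rfl

/-- The map of presheaves given by a morphism. -/
def secMap {M N : Ob k F} (f : M ⟶ N) : secF M ⟶ secF N where
  app A := ModuleCat.ofHom (X := secs M A) (Y := secs N A)
    { toFun c := ⟨fun K x => f.1 K (c.1 K x), fun K K' φ x x' e => by
        rw [← Ob.nat, c.2 K K' φ x x' e]⟩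
      map_add' _ _ := Subtype.ext (funext fun _ => funext fun _ => map_add _ _ _)
      map_smul' _ _ := Subtype.ext (funext fun _ => funext fun _ => map_smul _ _ _) }
  naturality _ _ _ := rfl

/-- A family is determined by its value at a generic point. -/
theorem secs_eq_zero {M : Ob k F} {A : FT k} {K : Fld k} (y : A →ₐ[k] K) (hy : Injective y)
    (c : secs M A) (h : c.1 K y = 0) : c = 0 := by
  refine Subtype.ext (funext fun K' => funext fun x => ?_)
  obtain ⟨φ, hφ⟩ := Place.exists_ext y x fun a e => by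
    rw [(injective_iff_map_eq_zero y).1 hy a e, map_zero]
  rw [← c.2 K K' φ y x hφ, h, map_zero]
  rfl

/-- Finitely many elements of a valuation ring can be adjoined. -/
theorem exists_adjoin {K : Fld k} (V : ValuationSubring K) {A : FT k} (x : A →ₐ[k] K)
    (hx : ∀ a, x a ∈ V) (S : Finset K) (hS : ∀ s ∈ S, s ∈ V) :
    ∃ (B : FT k) (g : A →ₐ[k] B) (y : B →ₐ[k] K), Injective y ∧ (∀ b, y b ∈ V) ∧ y.comp g = x ∧
      ∀ s ∈ S, ∃ b, y b = s := by
  let B : Subalgebra k K := x.range ⊔ Algebra.adjoin k (S : Set K)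
  have hB : B.FG := Subalgebra.FG.sup (by
    rw [← Algebra.map_top]
    exact Algebra.FiniteType.out.map x) (Subalgebra.fg_adjoin_finset S)
  have : Algebra.FiniteType k B := B.fg_iff_finiteType.1 hB
  let W : Subalgebra k K :=
    { V.toSubring.toSubsemiring with
      algebraMap_mem' := fun c => by
        rw [← x.commutes]
        exact hx _ }
  have hW : B ≤ W := sup_le (by
    rintro _ ⟨a, rfl⟩
    exact hx a) (Algebra.adjoin_le fun s hs => hS s hs)
  exact ⟨⟨B⟩, x.codRestrict B fun a => (le_sup_left : x.range ≤ B) ⟨a, rfl⟩, B.val,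
    Subtype.val_injective, fun b => hW b.2, rfl, fun s hs =>
      ⟨⟨s, (le_sup_right : _ ≤ B) (Algebra.subset_adjoin hs)⟩, rfl⟩⟩

theorem Place.rel_of_inv {K K' : Fld k} {φ φ' : Place K K'} {s : K} {t c : K'} (h : φ s⁻¹ t)
    (h' : φ' s⁻¹ t) (hc : φ s c) : φ' s c := by
  by_cases hs : s = 0
  · subst hs
    rw [Place.zero_iff] at hc ⊢
    exact hc
  · have e : c * t = 1 := φ.func (by simpa [mul_inv_cancel₀ hs] using φ.mul hc h) φ.one
    exact (h'.inv (right_ne_zero_of_mul_eq_one e)).congr (inv_inv s)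
      (eq_inv_of_mul_eq_one_left e).symm

/-- Every element spreads out to a family. -/
theorem exists_secs (M : Ob k F) {K : Fld k} (V : ValuationSubring K) {A : FT k} (x : A →ₐ[k] K)
    (hx : ∀ a, x a ∈ V) (v : M.V K) : ∃ (B : FT k) (g : A →ₐ[k] B) (y : B →ₐ[k] K),
      Injective y ∧ (∀ b, y b ∈ V) ∧ y.comp g = x ∧ ∃ c : secs M B, c.1 K y = v := by
  classical
  obtain ⟨S, hS⟩ := M.fin K v
  obtain ⟨B, g, y, hy, hV, hg, hs⟩ := exists_adjoin V x hx
    (S.image fun s => if s ∈ V then s else s⁻¹) (fun t ht => by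
      obtain ⟨s, -, rfl⟩ := Finset.mem_image.1 ht
      split_ifs with h
      exacts [h, (V.mem_or_inv_mem s).resolve_left h])
  have key (K' : Fld k) (x' : B →ₐ[k] K') (φ φ' : Place K K') (h : ∀ b, φ (y b) (x' b))
      (h' : ∀ b, φ' (y b) (x' b)) : M.map φ v = M.map φ' v := by
    refine hS K' φ φ' fun s hs' => funext fun c => propext ?_
    obtain ⟨b, hb⟩ := hs _ (Finset.mem_image_of_mem _ hs')
    have e := h b
    have e' := h' b
    rw [hb] at e e'
    split_ifs at e e'
    · exact ⟨fun hc => φ.func e hc ▸ e', fun hc => φ'.func e' hc ▸ e⟩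
    · exact ⟨Place.rel_of_inv e e', Place.rel_of_inv e' e⟩
  choose φ hφ using fun (K' : Fld k) (x' : B →ₐ[k] K') => Place.exists_ext y x' fun a e => by
    rw [(injective_iff_map_eq_zero y).1 hy a e, map_zero]
  refine ⟨B, g, y, hy, hV, hg, ⟨fun K' x' => M.map (φ K' x') v, fun K' K'' ψ x' x'' e => ?_⟩, ?_⟩
  · rw [Ob.map_map]
    exact key K'' x'' _ _ (fun b => ⟨_, hφ K' x' b, e b⟩) (hφ K'' x'')
  · change M.map (φ K y) v = v
    rw [key K y _ (Place.id K) (hφ K y) (fun _ => rfl), M.map_id]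
    rfl

variable [CharZero F]

variable (k F) in
/-- The functor from objects to presheaves. -/
def toPsh : Ob k F ⥤ Psh k where
  obj M := secF M ⋙ ModuleCat.restrictScalars (algebraMap ℚ F)
  map f := Functor.whiskerRight (secMap f) _
  map_id _ := rfl
  map_comp _ _ := rfl

instance : (toPsh k F).Additive := ⟨rfl⟩

theorem Gen.isIso {V W : Psh k} {u : V ⟶ W} (h : Gen k u) : IsIso ((toVerdier (Gen k)).map u) := by
  obtain ⟨Z, v, w, hT⟩ := distinguished_cocone_triangle ((DerivedCategory.singleFunctor _ 0).map u)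
  exact (Thick (Gen k)).trW.Q_inverts _ (ObjectProperty.trW.mk _ hT
    (ObjectProperty.le_triangEnvelope _ _ (.inr ⟨V, W, u, h, v, w, hT⟩)))

instance : (toVerdier (Gen k)).Additive := by unfold toVerdier; infer_instance

/-- The section of the projection at a rational point. -/
def cylSec (P : Psh k) (c : k) : P ⟶ cyl P where
  app A := ModuleCat.ofHom (Finsupp.lsingle (algebraMap k A c))
  naturality A B g := by
    refine ModuleCat.hom_ext (LinearMap.ext fun s => ?_)
    change Finsupp.single (algebraMap k B c) ((P.map g).hom s) =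
      Finsupp.mapDomain (show A →ₐ[k] B from g) (Finsupp.mapRange.linearMap (P.map g).hom
        (Finsupp.single (algebraMap k A c) s))
    rw [Finsupp.mapRange.linearMap_apply, Finsupp.mapRange_single, Finsupp.mapDomain_single,
      AlgHom.commutes]

omit [CharZero F] in
theorem cylSec_proj (P : Psh k) (c : k) : cylSec P c ≫ proj P = 𝟙 P :=
  NatTrans.ext (funext fun A => ModuleCat.hom_ext (LinearMap.ext fun s =>
    Finsupp.lsum_single ℚ (fun _ : A => (LinearMap.id : P.obj A →ₗ[ℚ] P.obj A)) _ s))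

/-- The member of a family at a function. -/
def Htpy.sec {M N : Ob k F} (H : Htpy M N) (A : FT k) (a : A) :
    ((toPsh k F).obj M).obj A →ₗ[ℚ] ((toPsh k F).obj N).obj A :=
  AddMonoidHom.toRatLinearMap (M := ((toPsh k F).obj M).obj A) (M₂ := ((toPsh k F).obj N).obj A)
    { toFun := fun (s : secs M A) => (⟨fun K x => H.h K (x a) (s.1 K x), fun K K' φ x x' e =>
        congr($(H.nat φ _ _ (e a)) (s.1 K x)).symm.trans
          (congrArg (H.h K' (x' a)) (s.2 K K' φ x x' e))⟩ : secs N A)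
      map_zero' := Subtype.ext (funext fun _ => funext fun _ => map_zero _)
      map_add' _ _ := Subtype.ext (funext fun _ => funext fun _ => map_add _ _ _) }

/-- A map from the cylinder. -/
def cylDesc {P Q : Psh k} (h : ∀ A : FT k, A → P.obj A →ₗ[ℚ] Q.obj A)
    (nat : ∀ (A B : FT k) (g : A →ₐ[k] B) (a : A) (s : P.obj A),
      h B (g a) ((P.map g).hom s) = (Q.map g).hom (h A a s)) : cyl P ⟶ Q where
  app A := ModuleCat.ofHom (Finsupp.lsum ℚ (h A))
  naturality A B g := by
    refine ModuleCat.hom_ext (Finsupp.lhom_ext fun a s => ?_)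
    change Finsupp.lsum ℚ (h B) (Finsupp.mapDomain (show A →ₐ[k] B from g)
      (Finsupp.mapRange.linearMap (P.map g).hom (Finsupp.single a s))) =
      (Q.map g).hom (Finsupp.lsum ℚ (h A) (Finsupp.single a s))
    rw [Finsupp.mapRange.linearMap_apply, Finsupp.mapRange_single, Finsupp.mapDomain_single,
      Finsupp.lsum_single, Finsupp.lsum_single]
    exact nat A B g a s

omit [CharZero F] in
theorem cylSec_cylDesc {P Q : Psh k} (h : ∀ A : FT k, A → P.obj A →ₗ[ℚ] Q.obj A) (nat) (c : k)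
    (A : FT k) (s : P.obj A) :
    ((cylSec P c ≫ cylDesc h nat).app A).hom s = h A (algebraMap k A c) s :=
  Finsupp.lsum_single ℚ (h A) _ s

/-- A family as a map from the cylinder. -/
def Htpy.cylMap {M N : Ob k F} (H : Htpy M N) : cyl ((toPsh k F).obj M) ⟶ (toPsh k F).obj N :=
  cylDesc H.sec fun _ _ _ _ _ => rfl

theorem Htpy.cylSec_cylMap {M N : Ob k F} (H : Htpy M N) (c : k) :
    cylSec _ c ≫ H.cylMap = (toPsh k F).map (H.val c) := by
  refine NatTrans.ext (funext fun A => ModuleCat.hom_ext (LinearMap.ext fun s => ?_))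
  refine (cylSec_cylDesc H.sec _ c A s).trans ?_
  refine Subtype.ext (funext fun K => funext fun x => ?_)
  exact congrArg (fun r => H.h K r ((show secs M A from s).1 K x)) (x.commutes c)

theorem Htpy.map_eq {M N : Ob k F} (H : Htpy M N) :
    (toVerdier (Gen k)).map ((toPsh k F).map (H.val 0)) =
      (toVerdier (Gen k)).map ((toPsh k F).map (H.val 1)) := by
  have := (Gen.line ((toPsh k F).obj M)).isIso
  have e : (toVerdier (Gen k)).map (cylSec ((toPsh k F).obj M) 0) =
      (toVerdier (Gen k)).map (cylSec ((toPsh k F).obj M) 1) := by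
    rw [← cancel_mono ((toVerdier (Gen k)).map (proj ((toPsh k F).obj M))), ← Functor.map_comp,
      ← Functor.map_comp, cylSec_proj, cylSec_proj]
  rw [← H.cylSec_cylMap, ← H.cylSec_cylMap, Functor.map_comp, Functor.map_comp, e]

open ZeroObject in
theorem exists_delta {C D : Type*} [Category C] [Abelian C] [HasDerivedCategory C] [Category D]
    [HasZeroObject D] [HasShift D ℤ] [Preadditive D] [∀ n : ℤ, (shiftFunctor D n).Additive]
    [Pretriangulated D] (Q : DerivedCategory C ⥤ D) [Q.CommShift ℤ] [Q.IsTriangulated]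
    (m : C ⥤ D) (hm : m = DerivedCategory.singleFunctor C 0 ⋙ Q) :
    ∃ δ : ∀ {S : ShortComplex C}, S.ShortExact → (m.obj S.X₃ ⟶ (m.obj S.X₁)⟦(1 : ℤ)⟧),
      (∀ {S : ShortComplex C} (h : S.ShortExact),
        Triangle.mk (m.map S.f) (m.map S.g) (δ h) ∈ distTriang D) ∧
      ∀ {S S' : ShortComplex C} (h : S.ShortExact) (h' : S'.ShortExact) (φ : S ⟶ S'),
        δ h ≫ (m.map φ.τ₁)⟦(1 : ℤ)⟧' = m.map φ.τ₃ ≫ δ h' := by
  subst hm
  exact ⟨fun h => (Q.mapTriangle.obj h.singleTriangle).mor₃,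
    fun h => Q.map_distinguished _ h.singleTriangle_distinguished, fun h h' φ =>
      (Q.mapTriangle.map (ShortComplex.ShortExact.singleTriangle.map h h' φ)).comm₃⟩

theorem exists_delta' {C D : Type*} [Category C] [Abelian C] [HasDerivedCategory C] [Category D]
    [HasZeroObject D] [HasShift D ℤ] [Preadditive D] [∀ n : ℤ, (shiftFunctor D n).Additive]
    [Pretriangulated D] (Q : DerivedCategory C ⥤ D) [Q.CommShift ℤ] [Q.IsTriangulated]
    (m : C ⥤ D) (hm : m = DerivedCategory.singleFunctor C 0 ⋙ Q) :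
    ∃ δ : ∀ {S : ShortComplex C}, Mono S.f ∧ IsIso (m.map (cokernel.desc S.f S.g S.zero)) →
        (m.obj S.X₃ ⟶ (m.obj S.X₁)⟦(1 : ℤ)⟧),
      (∀ {S : ShortComplex C} h, Triangle.mk (m.map S.f) (m.map S.g) (δ h) ∈ distTriang D) ∧
      ∀ {S S' : ShortComplex C} h h' (φ : S ⟶ S'),
        δ h ≫ (m.map φ.τ₁)⟦(1 : ℤ)⟧' = m.map φ.τ₃ ≫ δ h' := by
  obtain ⟨δ, h1, h2⟩ := exists_delta Q m hm
  have se {S : ShortComplex C} (h : Mono S.f) :
      (ShortComplex.mk S.f (cokernel.π S.f) (cokernel.condition _)).ShortExact :=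
    ShortComplex.ShortExact.mk' (ShortComplex.exact_of_g_is_cokernel _ (cokernelIsCokernel _)) h
      (inferInstanceAs (Epi (cokernel.π S.f)))
  refine ⟨fun {S} h => (have := h.2; inv (m.map (cokernel.desc S.f S.g S.zero))) ≫ δ (se h.1),
    fun {S} h => ?_, fun {S S'} h h' φ => ?_⟩
  · have := h.2
    refine isomorphic_distinguished _ (h1 (se h.1)) _ (Triangle.isoMk _ _ (Iso.refl _) (Iso.refl _)
      (asIso (m.map (cokernel.desc S.f S.g S.zero))).symm
      ((Category.comp_id _).trans (Category.id_comp _).symm) ?_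
      ((_ ≫= (shiftFunctor D (1 : ℤ)).map_id _).trans (Category.comp_id _)))
    change m.map S.g ≫ inv (m.map (cokernel.desc S.f S.g S.zero)) = 𝟙 _ ≫ m.map (cokernel.π S.f)
    rw [Category.id_comp, IsIso.comp_inv_eq, ← Functor.map_comp, cokernel.π_desc]
  · have := h.2
    have := h'.2
    have e := h2 (se h.1) (se h'.1)
      ⟨φ.τ₁, φ.τ₂, cokernel.map _ _ φ.τ₁ φ.τ₂ φ.comm₁₂.symm, φ.comm₁₂, by simp⟩
    dsimp only at e
    rw [Category.assoc, e, ← Category.assoc, ← Category.assoc]
    congr 1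
    rw [IsIso.inv_comp_eq, ← Category.assoc, IsIso.eq_comp_inv, ← Functor.map_comp,
      ← Functor.map_comp]
    congr 1
    rw [← cancel_epi (cokernel.π S.f)]
    simp [φ.comm₂₃]

section Abs

variable {J C : Type*} [Category J] [Category C] [Abelian C]

theorem mono_iff_app {P Q : J ⥤ C} (f : P ⟶ Q) : Mono f ↔ ∀ A, Mono (f.app A) :=
  NatTrans.mono_iff_mono_app f

theorem exact_of_app (S : ShortComplex (J ⥤ C))
    (h : ∀ A, (S.map ((evaluation J C).obj A)).Exact) : S.Exact := by
  have E : JointlyReflectIsomorphisms fun A => (evaluation J C).obj A :=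
    ⟨fun f h => have : ∀ X, IsIso (f.app X) := h; NatIso.isIso_of_isIso_app f⟩
  exact (E.exact_iff _).2 h

theorem mono_desc_app {S : ShortComplex (J ⥤ C)} (h : S.Exact) (A : J) :
    Mono ((cokernel.desc S.f S.g S.zero).app A) :=
  (mono_iff_app _).1 h.mono_cokernelDesc A

end Abs

namespace Ses

variable {M₁ M₂ M₃ : Ob k F} {i : M₁ ⟶ M₂} {p : M₂ ⟶ M₃} (T : Ses i p)

/-- The sequence of presheaves. -/
def sc : ShortComplex (Psh k) :=
  ShortComplex.mk ((toPsh k F).map i) ((toPsh k F).map p) (by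
    rw [← Functor.map_comp, T.zero, Functor.map_zero])

theorem sc_mono : Mono T.sc.f :=
  (mono_iff_app _).2 fun A => (ModuleCat.mono_iff_injective _).2
    fun (_ : secs M₁ A) (_ : secs M₁ A) h => Subtype.ext (funext fun K => funext fun x =>
      T.inj K (congrFun (congrFun (congrArg Subtype.val h) K) x))

theorem sc_exact : T.sc.Exact := by
  refine exact_of_app _ fun A => (ShortComplex.moduleCat_exact_iff _).2
    fun (s : secs M₂ A) hs => ?_
  choose t ht using fun (K : Fld k) (x : A →ₐ[k] K) => (T.exact K (s.1 K x)).1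
    (congrFun (congrFun (congrArg Subtype.val hs) K) x)
  exact ⟨(⟨t, fun K K' φ x x' e => T.inj K' (by rw [Ob.nat, ht, ht, s.2 K K' φ x x' e])⟩ :
    secs M₁ A), Subtype.ext (funext fun K => funext fun x => ht K x)⟩

theorem sc_hiso : HIso (cokernel.desc T.sc.f T.sc.g T.sc.zero) := by
  intro K _ _ _ V A x hx
  refine ⟨fun s hs => ⟨A, AlgHom.id k A, x, hx, rfl, ?_⟩, fun (t : secs M₃ A) => ?_⟩
  · have h := (ModuleCat.mono_iff_injective _).1 (mono_desc_app T.sc_exact A)
    rw [h (hs.trans (map_zero _).symm), map_zero]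
  · obtain ⟨v, hv⟩ := T.surj ⟨K⟩ (t.1 ⟨K⟩ x)
    obtain ⟨B, g, y, hy, hV, hg, c, hc⟩ := exists_secs M₂ (K := ⟨K⟩) V x hx v
    refine ⟨B, g, y, (cokernel.π T.sc.f).app B c, hV, hg, ?_⟩
    refine congr(($(cokernel.π_desc T.sc.f T.sc.g T.sc.zero)).app B c).trans ?_
    refine sub_eq_zero.1 (secs_eq_zero (M := M₃) (K := ⟨K⟩) y hy _ ?_)
    change p.1 ⟨K⟩ (c.1 ⟨K⟩ y) - t.1 ⟨K⟩ (y.comp g) = 0
    rw [hc, hv, hg, sub_self]

end Ses

variable (k F) in
/-- The basic theory. -/
theorem exists_theory : ∃ Θ : Theory k F, ∀ {M N : Ob k F} (f : M ⟶ N), Θ.Φ.map f = 0 →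
    Vanishes (Gen k) ((toPsh k F).map f) := by
  obtain ⟨δ, h1, h2⟩ := exists_delta' (Thick (Gen k)).trW.Q (toVerdier (Gen k)) rfl
  exact ⟨{
    Φ := toPsh k F ⋙ toVerdier (Gen k)
    δ T := δ (S := T.sc) ⟨T.sc_mono, (Gen.loc _ T.sc_hiso).isIso⟩
    dist T := h1 (S := T.sc) _
    nat T _ _ _ _ _ T' a b c e1 e2 := h2 (S := T.sc) (S' := T'.sc) _ _
      ⟨(toPsh k F).map a, (toPsh k F).map b, (toPsh k F).map c,
        ((toPsh k F).map_comp _ _).symm.trans (e1 ▸ (toPsh k F).map_comp _ _),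
        ((toPsh k F).map_comp _ _).symm.trans (e2 ▸ (toPsh k F).map_comp _ _)⟩
    htpy H := H.map_eq }, fun _ h => h⟩

end

end Pool.Agent.Lib.MP_fc2ced_ag.K
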