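import Pool.Agent.Lib.MP_fc2ced_ag.K.Fam

/-! Blocks: families of invertible matrices of size two with an involution that reflects the matrix
in the antidiagonal. -/

open CategoryTheory Function

namespace Pool.Agent.Lib.MP_fc2ced_ag.K

noncomputable section

variable {k : Type} [Field k] {F : Type} [Field F]

open Pt

variable (k) in
/-- A block. -/
structure Blk where
  S : Pt k
  g : ∀ ⦃K⦄, S.X K → Matrix (Fin 2) (Fin 2) K
  ι : ∀ ⦃K⦄, S.X K → S.X K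
  rg : ∀ i j, S.RegF fun _ x => g x i j
  det : ∀ ⦃K⦄ (x : S.X K), S.L x → (g x).det ≠ 0
  reg : S.Reg S ι
  inv : ∀ ⦃K⦄ (x : S.X K), S.L x → ι (ι x) = x
  f : ∀ ⦃K⦄ (x : S.X K), S.L x → S.f (ι x) = S.f x
  gι : ∀ ⦃K⦄ (x : S.X K), S.L x → g (ι x) = !![g x 1 1, g x 0 1; g x 1 0, g x 0 0]

namespace Blk

variable (b : Blk k)

/-- The big cell. -/
@[reducible] def big : Pt k :=
  (b.S.restr (fun _ x => b.g x 1 0 ≠ 0) ((b.rg 1 0).ne regF_zero).conv).withF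
    (fun _ x => b.S.f x - (b.g x 0 0 + b.g x 1 1) / b.g x 1 0) fun _ _ φ x y h h' r =>
      (b.S.reg φ x y h.1 h'.1 r).sub
        (((b.rg 0 0 φ x y h.1 h'.1 r).add (b.rg 1 1 φ x y h.1 h'.1 r)).div
          (b.rg 1 0 φ x y h.1 h'.1 r) h'.2)

theorem ne_of_small {K : Fld k} {x : b.S.X K} (h : b.S.L x) (e : b.g x 1 0 = 0) : b.g x 0 0 ≠ 0 :=
  fun e' => b.det x h (by simp [Matrix.det_fin_two, e, e'])

/-- The part of the small cell where the diagonal entries agree. -/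
@[reducible] def small : Pt k :=
  (b.S.restr (fun _ x => b.g x 1 0 = 0 ∧ b.g x 0 0 = b.g x 1 1)
    (((b.rg 1 0).eq regF_zero).and ((b.rg 0 0).eq (b.rg 1 1))).conv).withF
    (fun _ x => b.S.f x - b.g x 0 1 / b.g x 0 0) fun _ _ φ x y h h' r =>
      (b.S.reg φ x y h.1 h'.1 r).sub ((b.rg 0 1 φ x y h.1 h'.1 r).div
        (b.rg 0 0 φ x y h.1 h'.1 r) (b.ne_of_small h'.1 h'.2.1))

/-- The invariants on the big cell. -/
def qB ⦃K : Fld k⦄ (x : b.S.X K) : K × K := (b.g x 1 0, (b.g x).det)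

/-- The invariants on the small cell. -/
def qS ⦃K : Fld k⦄ (x : b.S.X K) : K × K := (b.g x 0 0, 0)

/-- The involution acts as `c` on the big cell. -/
def Big (χ : Chr k F) (c : F) : Prop := b.big.UActs χ b.qB b.ι c

/-- The involution acts as `c` on the small cell. -/
def Small (χ : Chr k F) (c : F) : Prop := b.small.UActs χ b.qS b.ι c

theorem regQ_big : b.big.RegQ b.qB :=
  ⟨fun _ _ φ x y h h' => b.rg 1 0 φ x y h.1 h'.1, fun _ _ φ x y h h' r => by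
    simpa only [qB, Matrix.det_fin_two] using
      (((b.rg 0 0).mul (b.rg 1 1)).sub ((b.rg 0 1).mul (b.rg 1 0))) φ x y h.1 h'.1 r⟩

theorem regQ_small : b.small.RegQ b.qS :=
  ⟨fun _ _ φ x y h h' => b.rg 0 0 φ x y h.1 h'.1, regF_zero⟩

theorem invol_big : b.big.Invol b.qB b.ι where
  reg := ⟨fun _ x h => ⟨b.reg.live x h.1, by simpa [b.gι x h.1] using h.2⟩,
    fun _ _ φ x y h h' => b.reg.reg φ x y h.1 h'.1⟩
  inv _ x h := b.inv x h.1
  f _ x h := by simp [b.gι x h.1, b.f x h.1, add_comm]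
  q _ x h := by simp [qB, b.gι x h.1, Matrix.det_fin_two, mul_comm]

theorem invol_small : b.small.Invol b.qS b.ι where
  reg := ⟨fun _ x h => ⟨b.reg.live x h.1, by simpa [b.gι x h.1, h.2.1] using h.2.2.symm⟩,
    fun _ _ φ x y h h' => b.reg.reg φ x y h.1 h'.1⟩
  inv _ x h := b.inv x h.1
  f _ x h := by simp [b.gι x h.1, b.f x h.1, h.2.2]
  q _ x h := by simp [qS, b.gι x h.1, h.2.2]

/-- The points `(((u, s), (s', u')), x)` with `u, u'` nonzero, and the function `f + s + s'`. -/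
@[reducible] def stepS : Pt k :=
  (((((line k).prod (line k)).prod ((line k).prod (line k))).prod b.S).restr
    (fun _ x => x.1.1.1 ≠ 0 ∧ x.1.2.2 ≠ 0) (Open.conv fun _ _ _ _ _ _ _ r h =>
      ⟨r.1.1.1.ne_zero h.1, r.1.2.2.ne_zero h.2⟩)).withF
    (fun _ x => b.S.f x.2 + x.1.1.2 + x.1.2.1) fun _ _ φ x y h h' r =>
      ((b.S.reg φ x.2 y.2 h.1.2 h'.1.2 r.2).add r.1.1.2).add r.1.2.1

/-- The matrix of the next block. -/
def stepG ⦃K : Fld k⦄ (x : b.stepS.X K) : Matrix (Fin 2) (Fin 2) K :=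
  !![0, x.1.1.1; 1, 0] * !![1, x.1.1.2; 0, 1] * b.g x.2 * !![1, x.1.2.1; 0, 1] * !![0, x.1.2.2; 1, 0]

theorem stepG_eq {K : Fld k} (u s s' u' : K) (x : b.S.X K) : b.stepG (((u, s), (s', u')), x) =
    !![u * (b.g x 1 0 * s' + b.g x 1 1), u * u' * b.g x 1 0;
      (b.g x 0 0 + s * b.g x 1 0) * s' + b.g x 0 1 + s * b.g x 1 1,
      u' * (b.g x 0 0 + s * b.g x 1 0)] := by
  ext i j
  fin_cases i <;> fin_cases j <;>
    simp [stepG, Matrix.mul_apply, Matrix.vecMul, dotProduct, Fin.sum_univ_two] <;> ring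

theorem det_stepG {K : Fld k} (u s s' u' : K) (x : b.S.X K) :
    (b.stepG (((u, s), (s', u')), x)).det = u * u' * (b.g x).det := by
  rw [stepG_eq, Matrix.det_fin_two_of, Matrix.det_fin_two]
  ring

/-- The involution of the next block. -/
def stepI ⦃K : Fld k⦄ (x : b.stepS.X K) : b.stepS.X K :=
  (((x.1.2.2, x.1.2.1), (x.1.1.2, x.1.1.1)), b.ι x.2)

theorem step_rg (i j : Fin 2) : b.stepS.RegF fun _ x => b.stepG x i j := by
  rintro _ _ φ ⟨⟨⟨u, s⟩, s', u'⟩, x⟩ ⟨⟨⟨v, t⟩, t', v'⟩, y⟩ h h' ⟨⟨⟨r1, r2⟩, r3, r4⟩, r⟩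
  have g := fun i j => b.rg i j φ x y h.1.2 h'.1.2 r
  refine Place.R.congr ?_ (congrFun₂ (b.stepG_eq u s s' u' x) i j).symm
    (congrFun₂ (b.stepG_eq v t t' v' y) i j).symm
  fin_cases i <;> fin_cases j
  · exact r1.mul (((g 1 0).mul r3).add (g 1 1))
  · exact (r1.mul r4).mul (g 1 0)
  · exact ((((g 0 0).add (r2.mul (g 1 0))).mul r3).add (g 0 1)).add (r2.mul (g 1 1))
  · exact r4.mul ((g 0 0).add (r2.mul (g 1 0)))

theorem step_gι ⦃K : Fld k⦄ (x : b.stepS.X K) (h : b.stepS.L x) : b.stepG (b.stepI x) =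
    !![b.stepG x 1 1, b.stepG x 0 1; b.stepG x 1 0, b.stepG x 0 0] := by
  obtain ⟨⟨⟨u, s⟩, s', u'⟩, x⟩ := x
  rw [stepI, stepG_eq, stepG_eq, b.gι x h.1.2]
  ext i j
  fin_cases i <;> fin_cases j <;> simp [-mul_eq_mul_left_iff, -mul_eq_mul_right_iff] <;> ring

/-- The next block. -/
@[reducible] def step : Blk k where
  S := b.stepS
  g := b.stepG
  ι := b.stepI
  rg := b.step_rg
  det _ x h := (b.det_stepG _ _ _ _ x.2).trans_ne
    (mul_ne_zero (mul_ne_zero h.2.1 h.2.2) (b.det x.2 h.1.2))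
  reg := ⟨fun _ x h => ⟨⟨h.1.1, b.reg.live x.2 h.1.2⟩, h.2.2, h.2.1⟩, fun _ _ φ x y h h' r =>
    ⟨⟨⟨r.1.2.2, r.1.2.1⟩, r.1.1.2, r.1.1.1⟩, b.reg.reg φ x.2 y.2 h.1.2 h'.1.2 r.2⟩⟩
  inv _ x h := Prod.ext rfl (b.inv x.2 h.1.2)
  f _ x h := by
    change b.S.f (b.ι x.2) + x.1.2.1 + x.1.1.2 = b.S.f x.2 + x.1.1.2 + x.1.2.1
    rw [b.f x.2 h.1.2, add_right_comm]
  gι := b.step_gι

theorem closed_inner : b.step.big.Closed fun _ x => b.g x.2 1 0 = 0 :=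
  fun _ _ φ x y h h' r e => (b.rg 1 0 φ x.2 y.2 h.1.1.2 h'.1.1.2 r.2).eq_of φ.zero e

/-- Transport along an isomorphism of blocks. -/
theorem of_iso {b b' : Blk k} {χ : Chr k F} {e : ∀ ⦃K⦄, b'.S.X K → b.S.X K}
    {e' : ∀ ⦃K⦄, b.S.X K → b'.S.X K} (h : b'.S.Reg b.S e) (h' : b.S.Reg b'.S e')
    (l : ∀ ⦃K⦄ (x : b'.S.X K), b'.S.L x → e' (e x) = x ∧ b.g (e x) = b'.g x ∧
      b.S.f (e x) = b'.S.f x ∧ e (b'.ι x) = b.ι (e x))
    (r : ∀ ⦃K⦄ (x : b.S.X K), b.S.L x → e (e' x) = x) (c : F) :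
    (b.Big χ c → b'.Big χ c) ∧ (b.Small χ c → b'.Small χ c) := by
  have g : ∀ ⦃K⦄ (x : b.S.X K), b.S.L x → b'.g (e' x) = b.g x ∧ b'.S.f (e' x) = b.S.f x :=
    fun _ x hx => by
      obtain ⟨-, a1, a2, -⟩ := l _ (h'.live x hx)
      rw [← a1, ← a2, r x hx]
      exact ⟨rfl, rfl⟩
  have i : ∀ ⦃K⦄ (x : b'.S.X K), b'.S.L x → b'.ι x = e' (b.ι (e x)) := fun _ x hx => by
    rw [← (l x hx).2.2.2, (l _ (b'.reg.live x hx)).1]
  refine ⟨fun H => (UActs.of_fam (S' := b'.big) (mv := fun _ _ y => e' y) b.regQ_big ⟨⟨fun _ x hx =>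
      ⟨h.live x hx.1, by simpa only [l x hx.1] using hx.2⟩,
      fun _ _ φ x y hx hy => h.reg φ x y hx.1 hy.1⟩,
      fun _ x hx => (l x hx.1).1, fun _ m x hm hx _ => ⟨⟨h'.live x hx.1,
        by simpa only [g x hx.1] using hx.2⟩, r x hx.1, ?_, fun _ => rfl⟩,
      fun _ _ φ _ _ x y _ _ _ hx hy s _ => h'.reg φ x y hx.1 hy.1 s⟩
      (fun _ m x hm hx s => ?_) H).congr fun _ x hx => i x hx.1,
    fun H => (UActs.of_fam (S' := b'.small) (mv := fun _ _ y => e' y) b.regQ_small ⟨⟨fun _ x hx =>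
      ⟨h.live x hx.1, by simpa only [l x hx.1] using hx.2⟩,
      fun _ _ φ x y hx hy => h.reg φ x y hx.1 hy.1⟩,
      fun _ x hx => (l x hx.1).1, fun _ m x hm hx _ => ⟨⟨h'.live x hx.1,
        by simpa only [g x hx.1] using hx.2⟩, r x hx.1, ?_, fun _ => rfl⟩,
      fun _ _ φ _ _ x y _ _ _ hx hy s _ => h'.reg φ x y hx.1 hy.1 s⟩
      (fun _ m x hm hx s => ?_) H).congr fun _ x hx => i x hx.1⟩
  · simp [g x hx.1, l m hm.1]
  · simpa only [qB, g x hx.1, l m hm.1] using s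
  · simp [g x hx.1, l m hm.1]
  · simpa only [qS, g x hx.1, l m hm.1] using s

end Blk

end

end Pool.Agent.Lib.MP_fc2ced_ag.K
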