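import Pool.Agent.Lib.MP_fc2ced_ag.K.Blk

/-! The big cell of the next block over the big cell of the block. -/

namespace Pool.Agent.Lib.MP_fc2ced_ag.K

variable {k : Type} [Field k] {F : Type} [Field F] [CharZero F] {χ : Chr k F} {b : Blk k} {c : F}

noncomputable section

open Pt

namespace Blk

variable (b)

/-- The big cell over the big cell. -/
def bb : Pt k := b.step.big.restr _ b.closed_inner.not.conv

/-- The point with given coordinates. -/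
def bbM {K : Fld k} (x : b.S.X K) (a d u v : K) : b.bb.X K :=
  (((u, a - b.g x 0 0 / b.g x 1 0), (d - b.g x 1 1 / b.g x 1 0, v)), x)

/-- The first additive coordinate. -/
def bbA ⦃K : Fld k⦄ (m : b.bb.X K) : K := m.1.1.2 + b.g m.2 0 0 / b.g m.2 1 0

/-- The second additive coordinate. -/
def bbD ⦃K : Fld k⦄ (m : b.bb.X K) : K := m.1.2.1 + b.g m.2 1 1 / b.g m.2 1 0

/-- The first multiplicative coordinate. -/
def bbU ⦃K : Fld k⦄ (m : b.bb.X K) : K := m.1.1.1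

/-- The second multiplicative coordinate. -/
def bbV ⦃K : Fld k⦄ (m : b.bb.X K) : K := m.1.2.2

/-- The inner point. -/
def bbX ⦃K : Fld k⦄ (m : b.bb.X K) : b.big.X K := m.2

/-- The lower left entry of the new matrix. -/
def bbG {K : Fld k} (q : K × K) (p : K) : K := p * q.1 - q.2 / q.1

variable {b} {K K' : Fld k} {x : b.S.X K} {y : b.S.X K'} {a d u v : K} {a' d' u' v' : K'}
  {φ : Place K K'}

@[simp] theorem bbA_M : b.bbA (b.bbM x a d u v) = a := sub_add_cancel _ _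
@[simp] theorem bbD_M : b.bbD (b.bbM x a d u v) = d := sub_add_cancel _ _
@[simp] theorem bbU_M : b.bbU (b.bbM x a d u v) = u := rfl
@[simp] theorem bbV_M : b.bbV (b.bbM x a d u v) = v := rfl
@[simp] theorem bbX_M : b.bbX (b.bbM x a d u v) = x := rfl

theorem bb_self (m : b.bb.X K) : b.bbM (b.bbX m) (b.bbA m) (b.bbD m) (b.bbU m) (b.bbV m) = m :=
  Prod.ext (Prod.ext (Prod.ext rfl (add_sub_cancel_right _ _))
    (Prod.ext (add_sub_cancel_right _ _) rfl)) rfl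

theorem bb_ind (m : b.bb.X K) : ∃ x a d u v, m = b.bbM x a d u v := ⟨_, _, _, _, _, (bb_self m).symm⟩

theorem bb_C (h : b.g x 1 0 ≠ 0) : b.stepG (b.bbM x a d u v) 1 0 = bbG (b.qB x) (a * d) := by
  rw [bbM, stepG_eq, bbG, qB, Matrix.det_fin_two]
  simp only [Matrix.of_apply, Matrix.cons_val', Matrix.cons_val_zero, Matrix.cons_val_one]
  field_simp
  ring

theorem bb_q (h : b.g x 1 0 ≠ 0) :
    b.step.qB (b.bbM x a d u v) = (bbG (b.qB x) (a * d), u * v * (b.qB x).2) :=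
  Prod.ext (bb_C h) (b.det_stepG ..)

theorem bb_f (h : b.g x 1 0 ≠ 0) : b.bb.f (b.bbM x a d u v) =
    b.S.f x - (b.g x 0 0 + b.g x 1 1) / b.g x 1 0 + a + d -
      (u * d + v * a) * (b.qB x).1 / bbG (b.qB x) (a * d) := by
  change b.S.f x + (a - _) + (d - _) - (b.stepG (b.bbM x a d u v) 0 0 +
    b.stepG (b.bbM x a d u v) 1 1) / b.stepG (b.bbM x a d u v) 1 0 = b.S.f x - _ + a + d - _
  rw [bb_C h, bbM, stepG_eq, qB]
  simp only [Matrix.of_apply, Matrix.cons_val', Matrix.cons_val_zero, Matrix.cons_val_one]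
  congr 1
  · ring
  · congr 1
    field_simp
    ring

theorem bb_L : b.bb.L (b.bbM x a d u v) ↔ b.big.L x ∧ u ≠ 0 ∧ v ≠ 0 ∧ bbG (b.qB x) (a * d) ≠ 0 :=
  ⟨fun h => ⟨⟨h.1.1.1.2, h.2⟩, h.1.1.2.1, h.1.1.2.2, bb_C h.2 ▸ h.1.2⟩, fun h =>
    ⟨⟨⟨⟨⟨⟨trivial, trivial⟩, trivial, trivial⟩, h.1.1⟩, h.2.1, h.2.2.1⟩,
      (bb_C h.1.2).trans_ne h.2.2.2⟩, h.1.2⟩⟩

theorem bb_R (hx : b.big.L x) (hy : b.big.L y) (r : b.S.R φ x y) (ha : φ a a') (hd : φ d d')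
    (hu : φ u u') (hv : φ v v') : b.bb.R φ (b.bbM x a d u v) (b.bbM y a' d' u' v') :=
  have g := fun i j => b.rg i j φ x y hx.1 hy.1 r
  ⟨⟨⟨hu, ha.sub ((g 0 0).div (g 1 0) hy.2)⟩, hd.sub ((g 1 1).div (g 1 0) hy.2), hv⟩, r⟩

theorem bb_rX : b.bb.Reg b.big b.bbX :=
  ⟨fun _ _ h => ⟨h.1.1.1.2, h.2⟩, fun _ _ _ _ _ _ _ r => r.2⟩

theorem bb_rg (i j : Fin 2) : b.bb.RegF fun _ m => b.g (b.bbX m) i j :=
  fun _ _ φ _ _ h h' r => b.rg i j φ _ _ h.1.1.1.2 h'.1.1.1.2 r.2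

theorem bb_rA : b.bb.RegF b.bbA := fun _ _ φ m m' h h' r =>
  r.1.1.2.add ((bb_rg 0 0 φ m m' h h' r).div (bb_rg 1 0 φ m m' h h' r) h'.2)

theorem bb_rD : b.bb.RegF b.bbD := fun _ _ φ m m' h h' r =>
  r.1.2.1.add ((bb_rg 1 1 φ m m' h h' r).div (bb_rg 1 0 φ m m' h h' r) h'.2)

theorem bb_rU : b.bb.RegF b.bbU := fun _ _ _ _ _ _ _ r => r.1.1.1

theorem bb_rV : b.bb.RegF b.bbV := fun _ _ _ _ _ _ _ r => r.1.2.2

theorem bb_rq : b.bb.RegQ b.step.qB :=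
  have p := reg_restr b.closed_inner.not.conv
  ⟨p.regF b.step.regQ_big.1, p.regF b.step.regQ_big.2⟩

omit [CharZero F] in
theorem bb_inner (hB : b.Big χ c) : b.bb.UActs χ b.step.qB
    (fun _ m => b.bbM (b.ι (b.bbX m)) (b.bbA m) (b.bbD m) (b.bbU m) (b.bbV m)) c := by
  refine UActs.of_fam (mv := fun _ m y => b.bbM y (b.bbA m) (b.bbD m) (b.bbU m) (b.bbV m))
    b.regQ_big ⟨bb_rX, fun _ m _ => bb_self m, fun _ m y h hy e => ?_,
      fun _ _ φ m m' x x' h h' r hx hx' r' _ => bb_R hx hx' r' (bb_rA φ m m' h h' r)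
        (bb_rD φ m m' h h' r) (bb_rU φ m m' h h' r) (bb_rV φ m m' h h' r)⟩
    (fun _ m y h hy e => ?_) hB
  all_goals
    obtain ⟨x, a, d, u, v, rfl⟩ := bb_ind m
    have l := bb_L.1 h
    simp only [bbA_M, bbD_M, bbU_M, bbV_M, bbX_M] at e ⊢
  · refine ⟨bb_L.2 ⟨hy, e ▸ l.2⟩, trivial, ?_, fun _ => trivial⟩
    rw [bb_f hy.2, bb_f l.1.2, e]
    ring
  · rw [bb_q hy.2, bb_q l.1.2, e]

variable (b) in
/-- The exchange of the coordinates. -/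
def bbW ⦃K : Fld k⦄ (m : b.bb.X K) : b.bb.X K :=
  b.bbM (b.bbX m) (b.bbD m) (b.bbA m) (b.bbV m) (b.bbU m)

theorem bbW_M : b.bbW (b.bbM x a d u v) = b.bbM x d a v u := by simp only [bbW, bbA_M, bbD_M]; rfl

theorem bb_invol : b.bb.Invol b.step.qB b.bbW := by
  refine ⟨⟨fun _ m h => ?_, fun _ _ φ m m' h h' r => bb_R (bb_rX.live m h) (bb_rX.live m' h') r.2
    (bb_rD φ m m' h h' r) (bb_rA φ m m' h h' r) (bb_rV φ m m' h h' r) (bb_rU φ m m' h h' r)⟩,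
    fun _ m h => ?_, fun _ m h => ?_, fun _ m h => ?_⟩
  all_goals
    obtain ⟨x, a, d, u, v, rfl⟩ := bb_ind m
    have l := bb_L.1 h
    rw [bbW_M]
  · exact bb_L.2 ⟨l.1, l.2.2.1, l.2.1, mul_comm a d ▸ l.2.2.2⟩
  · exact bbW_M
  · rw [bb_f l.1.2, bb_f l.1.2, mul_comm d a]
    ring
  · rw [bb_q l.1.2, bb_q l.1.2, mul_comm d a, mul_comm v u]

theorem bb_closed : b.bb.Closed fun _ m => b.bbA m * b.bbD m = 0 := (bb_rA.mul bb_rD).eq regF_zero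

theorem bb_omega (hχ : χ.ψ 1 ≠ 1) :
    (b.bb.restr _ bb_closed.conv).UActs χ b.step.qB b.bbW 1 := by
  have p := reg_restr (S := b.bb) bb_closed.conv
  refine UActs.of_omega (S := b.bb.restr _ bb_closed.conv)
    (κ := fun _ m => (b.qB (b.bbX m)).1 ^ 2 / (b.qB (b.bbX m)).2)
    (mv := fun _ m => b.bbM (b.bbX m)) hχ ⟨p.regF bb_rq.1, p.regF bb_rq.2⟩
    ⟨p.regF bb_rA, p.regF bb_rD, p.regF bb_rU, p.regF bb_rV,
      (((p.comp bb_rX).regF b.regQ_big.1).pow 2).div ((p.comp bb_rX).regF b.regQ_big.2)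
        fun _ _ h => b.det _ h.1.1.1.1.2,
      fun _ m h => ⟨div_ne_zero (pow_ne_zero 2 h.1.2) (b.det _ h.1.1.1.1.2), h.1.1.1.2.1,
        h.1.1.1.2.2, h.2⟩, fun _ m _ => bb_self m, fun _ m a' d' u' v' h e e' => ?_,
      fun _ _ φ m m' _ _ _ _ _ _ _ _ h h' r h1 h2 h3 h4 _ _ =>
        bb_R (bb_rX.live m h.1) (bb_rX.live m' h'.1) r.2 h1 h2 h3 h4⟩
    fun _ m a' d' u' v' h e e' => ?_
  all_goals
    obtain ⟨x, a, d, u, v, rfl⟩ := bb_ind m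
    have l := bb_L.1 h.1
    have z := h.2
    simp only [bbA_M, bbD_M, bbU_M, bbV_M, bbX_M] at e' z ⊢
  · have n := mul_ne_zero_iff.1 (e'.trans_ne (mul_ne_zero l.2.1 l.2.2.1))
    refine ⟨⟨bb_L.2 ⟨l.1, n.1, n.2, (e.trans z.symm) ▸ l.2.2.2⟩, e⟩, trivial, trivial, trivial,
      trivial, trivial, ?_, fun _ _ _ _ => trivial⟩
    have h1 : (b.qB x).1 ≠ 0 := l.1.2
    have h2 : (b.qB x).2 ≠ 0 := b.det x l.1.1
    rw [bb_f l.1.2, bb_f l.1.2, e, z, bbG, zero_mul, zero_sub]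
    field_simp
    ring
  · rw [bb_q l.1.2, bb_q l.1.2, e, z, e']

variable (b) in
/-- The part where both additive coordinates are nonzero. -/
abbrev bo : Pt k := b.bb.restr _ bb_closed.not.conv

theorem bo_L (h : b.bo.L (b.bbM x a d u v)) :
    (b.big.L x ∧ u ≠ 0 ∧ v ≠ 0 ∧ bbG (b.qB x) (a * d) ≠ 0) ∧ a ≠ 0 ∧ d ≠ 0 :=
  ⟨bb_L.1 h.1, mul_ne_zero_iff.1 (by simpa only [bbA_M, bbD_M] using h.2)⟩

theorem bo_one : b.bo.Swap b.bbA b.bbD (fun _ _ => 1) (fun _ m s t =>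
      b.bbM (b.bbX m) s t (b.bbU m * b.bbD m / t) (b.bbV m * b.bbA m / s)) ∧
    ∀ ⦃K : Fld k⦄ (m : b.bo.X K) (s t : K), b.bo.L m → s * t = b.bbA m * b.bbD m → b.step.qB
      (b.bbM (b.bbX m) s t (b.bbU m * b.bbD m / t) (b.bbV m * b.bbA m / s)) = b.step.qB m := by
  have p := reg_restr (S := b.bb) bb_closed.not.conv
  refine ⟨⟨p.regF bb_rA, p.regF bb_rD, regF_one, fun _ _ _ => one_ne_zero, fun _ m h => ?_,
    fun _ m s t h e => ?_, fun _ _ φ m m' s t s' t' h h' r hs ht e => ?_⟩, fun _ m s t h e => ?_⟩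
  pick_goal 3
  · have rA := bb_rA φ m m' h.1 h'.1 r
    have rD := bb_rD φ m m' h.1 h'.1 r
    have n := mul_ne_zero_iff.1 (((hs.mul ht).eq_of (rA.mul rD) e).trans_ne h'.2)
    exact bb_R (bb_rX.live m h.1) (bb_rX.live m' h'.1) r.2 hs ht
      (((bb_rU φ m m' h.1 h'.1 r).mul rD).div ht n.2)
      (((bb_rV φ m m' h.1 h'.1 r).mul rA).div hs n.1)
  all_goals
    obtain ⟨x, a, d, u, v, rfl⟩ := bb_ind m
    obtain ⟨l, ha, hd⟩ := bo_L h
    simp only [bbA_M, bbD_M, bbU_M, bbV_M, bbX_M] at *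
  · rw [mul_div_cancel_right₀ _ ha, mul_div_cancel_right₀ _ hd]
  all_goals obtain ⟨hs, ht⟩ := mul_ne_zero_iff.1 (e.trans_ne (mul_ne_zero ha hd))
  · refine ⟨⟨bb_L.2 ⟨l.1, div_ne_zero (mul_ne_zero l.2.1 hd) ht,
      div_ne_zero (mul_ne_zero l.2.2.1 ha) hs, e ▸ l.2.2.2⟩, mul_ne_zero hs ht⟩, trivial, trivial,
      trivial, ?_, ?_⟩
    · rw [bb_f l.1.2, bb_f l.1.2, e, div_mul_cancel₀ _ hs, div_mul_cancel₀ _ ht]
      ring
    · rw [div_mul_cancel₀ _ hs, div_mul_cancel₀ _ ht, mul_div_cancel_right₀ _ ha,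
        mul_div_cancel_right₀ _ hd]
  · rw [bb_q l.1.2, bb_q l.1.2, e, div_mul_div_comm, mul_comm t, e]
    congr 2
    field_simp

theorem bo_two : b.bo.Swap (fun _ m => b.bbU m * b.bbD m) (fun _ m => b.bbV m * b.bbA m)
      (fun _ m => -(b.qB (b.bbX m)).1 / (b.step.qB m).1) (fun _ m s t =>
      b.bbM (b.bbX m) (b.bbA m) (b.bbD m) (s / b.bbD m) (t / b.bbA m)) ∧
    ∀ ⦃K : Fld k⦄ (m : b.bo.X K) (s t : K), b.bo.L m →
      s * t = b.bbU m * b.bbD m * (b.bbV m * b.bbA m) → b.step.qB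
      (b.bbM (b.bbX m) (b.bbA m) (b.bbD m) (s / b.bbD m) (t / b.bbA m)) = b.step.qB m := by
  have p := reg_restr (S := b.bb) bb_closed.not.conv
  refine ⟨⟨p.regF (bb_rU.mul bb_rD), p.regF (bb_rV.mul bb_rA),
    ((p.comp bb_rX).regF b.regQ_big.1).neg.div (p.regF bb_rq.1) fun _ _ h => h.1.1.2,
    fun _ _ h => div_ne_zero (neg_ne_zero.2 h.1.2) h.1.1.2, fun _ m h => ?_,
    fun _ m s t h e => ?_, fun _ _ φ m m' s t s' t' h h' r hs ht e => ?_⟩, fun _ m s t h e => ?_⟩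
  pick_goal 3
  · have rA := bb_rA φ m m' h.1 h'.1 r
    have rD := bb_rD φ m m' h.1 h'.1 r
    have n := mul_ne_zero_iff.1 h'.2
    exact bb_R (bb_rX.live m h.1) (bb_rX.live m' h'.1) r.2 rA rD (hs.div rD n.2) (ht.div rA n.1)
  all_goals
    obtain ⟨x, a, d, u, v, rfl⟩ := bb_ind m
    obtain ⟨l, ha, hd⟩ := bo_L h
    simp only [bbA_M, bbD_M, bbU_M, bbV_M, bbX_M] at *
  · rw [mul_div_cancel_right₀ _ ha, mul_div_cancel_right₀ _ hd]
  · obtain ⟨hs, ht⟩ := mul_ne_zero_iff.1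
      (e.trans_ne (mul_ne_zero (mul_ne_zero l.2.1 hd) (mul_ne_zero l.2.2.1 ha)))
    refine ⟨⟨bb_L.2 ⟨l.1, div_ne_zero hs hd, div_ne_zero ht ha, l.2.2.2⟩, mul_ne_zero ha hd⟩,
      div_mul_cancel₀ _ hd, div_mul_cancel₀ _ ha, by rw [bb_q l.1.2, bb_q l.1.2], ?_, ?_⟩
    · rw [bb_f l.1.2, bb_f l.1.2, bb_q l.1.2, div_mul_cancel₀ _ ha, div_mul_cancel₀ _ hd]
      ring
    · rw [mul_div_cancel_right₀ _ ha, mul_div_cancel_right₀ _ hd]
  · rw [bb_q l.1.2, bb_q l.1.2, div_mul_div_comm, e]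
    congr 2
    field_simp

omit [CharZero F] in
theorem bb_open (hχ : χ.ψ 1 ≠ 1) : b.bo.UActs χ b.step.qB b.bbW 1 := by
  have p := reg_restr (S := b.bb) bb_closed.not.conv
  have hq : b.bo.RegQ b.step.qB := ⟨p.regF bb_rq.1, p.regF bb_rq.2⟩
  refine (UActs.of_swap hχ hq bo_one.1 bo_one.2).comp (UActs.of_swap hχ hq bo_two.1 bo_two.2)
    (fun _ m h => ⟨(bo_one.1.spec m _ _ h (mul_comm _ _)).1, bo_one.2 m _ _ h (mul_comm _ _)⟩)
    (fun _ m h => ?_) (by norm_num)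
  obtain ⟨x, a, d, u, v, rfl⟩ := bb_ind m
  obtain ⟨l, ha, hd⟩ := bo_L h
  simp only [bbW_M, bbA_M, bbD_M, bbU_M, bbV_M, bbX_M]
  rw [div_mul_cancel₀ _ ha, div_mul_cancel₀ _ hd, mul_div_cancel_right₀ _ ha,
    mul_div_cancel_right₀ _ hd]

end Blk

end

theorem Blk.big_big (hχ : χ.ψ 1 ≠ 1) (hB : b.Big χ c) :
    (b.step.big.restr _ b.closed_inner.not.conv).UActs χ b.step.qB b.step.ι c := by
  refine (Pt.UActs.of_closed bb_rq bb_invol (one_mul 1) bb_closed (bb_omega hχ) (bb_open hχ)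
    fun _ m _ h => ?_).comp (bb_inner hB) (fun _ m h => ⟨bb_invol.reg.live m h, bb_invol.q m h⟩)
    (fun _ m h => ?_) (one_mul c).symm
  all_goals obtain ⟨x, a, d, u, v, rfl⟩ := bb_ind m
  · simpa only [bbW_M, bbA_M, bbD_M, mul_comm] using h
  · simp only [bbW_M, bbA_M, bbD_M, bbU_M, bbV_M, bbX_M]
    rw [bbM, bbM, b.gι x (bb_L.1 h).1.1]
    rfl

end Pool.Agent.Lib.MP_fc2ced_ag.K
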