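import Pool.Agent.Lib.MP_fc2ced_ag.K.Blk

/-! The big cell of the next block over the small cell of the block. -/

namespace Pool.Agent.Lib.MP_fc2ced_ag.K

variable {k : Type} [Field k] {F : Type} [Field F] [CharZero F] {χ : Chr k F} {b : Blk k} {c : F}

noncomputable section

namespace BS

open Pt

variable (b) in
/-- The part of the big cell of the next block over the small cell. -/
@[reducible] def T : Pt k := b.step.big.restr _ b.closed_inner.conv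

theorem live_iff {K : Fld k} (u s s' u' : K) (x : b.S.X K) :
    (T b).L (((u, s), (s', u')), x) ↔ b.S.L x ∧ u ≠ 0 ∧ u' ≠ 0 ∧ b.g x 1 0 = 0 ∧
      b.g x 0 0 * s' + b.g x 0 1 + s * b.g x 1 1 ≠ 0 := by
  have e : b.stepG (((u, s), (s', u')), x) 1 0 =
      (b.g x 0 0 + s * b.g x 1 0) * s' + b.g x 0 1 + s * b.g x 1 1 := by
    rw [b.stepG_eq]; rfl
  constructor
  · rintro ⟨⟨⟨⟨_, h1⟩, h2, h3⟩, h4⟩, h5⟩
    refine ⟨h1, h2, h3, h5, ?_⟩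
    have h6 : b.stepG (((u, s), (s', u')), x) 1 0 ≠ 0 := h4
    have h7 : b.g x 1 0 = 0 := h5
    rwa [e, h7, mul_zero, add_zero] at h6
  · rintro ⟨h1, h2, h3, h4, h5⟩
    refine ⟨⟨⟨⟨⟨⟨trivial, trivial⟩, trivial, trivial⟩, h1⟩, h2, h3⟩, ?_⟩, h4⟩
    change b.stepG (((u, s), (s', u')), x) 1 0 ≠ 0
    rwa [e, h4, mul_zero, add_zero]

theorem f_eq {K : Fld k} (u s s' u' : K) (x : b.S.X K) (h : b.g x 1 0 = 0) :
    (T b).f (((u, s), (s', u')), x) = b.S.f x + s + s' - (u * b.g x 1 1 + u' * b.g x 0 0) /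
      (b.g x 0 0 * s' + b.g x 0 1 + s * b.g x 1 1) := by
  change b.S.f x + s + s' - (b.stepG (((u, s), (s', u')), x) 0 0 +
    b.stepG (((u, s), (s', u')), x) 1 1) / b.stepG (((u, s), (s', u')), x) 1 0 = _
  rw [b.stepG_eq]
  simp [h]

theorem q_eq {K : Fld k} (u s s' u' : K) (x : b.S.X K) (h : b.g x 1 0 = 0) :
    b.step.qB (((u, s), (s', u')), x) =
      (b.g x 0 0 * s' + b.g x 0 1 + s * b.g x 1 1, u * u' * (b.g x 0 0 * b.g x 1 1)) := by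
  change (b.stepG (((u, s), (s', u')), x) 1 0, (b.stepG (((u, s), (s', u')), x)).det) = _
  rw [b.det_stepG, b.stepG_eq, Matrix.det_fin_two]
  simp [h]

theorem rg (i j : Fin 2) : (T b).RegF fun _ m => b.g m.2 i j :=
  fun _ _ φ x y h h' r => b.rg i j φ x.2 y.2 h.1.1.1.2 h'.1.1.1.2 r.2

variable (b) in
theorem closed_AD : (T b).Closed fun _ m => b.g m.2 0 0 = b.g m.2 1 1 := (rg 0 0).eq (rg 1 1)

theorem regQ : (T b).RegQ b.step.qB :=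
  ⟨fun _ _ φ x y h h' r => b.step.regQ_big.1 φ x y h.1 h'.1 r,
    fun _ _ φ x y h h' r => b.step.regQ_big.2 φ x y h.1 h'.1 r⟩

theorem regQ_restr {S : Pt k} {q : ∀ ⦃K⦄, S.X K → K × K} (h : S.RegQ q) {C : S.Cond}
    (hC : S.Conv C) : (S.restr C hC).RegQ q :=
  ⟨fun _ _ φ x y a a' r => h.1 φ x y a.1 a'.1 r, fun _ _ φ x y a a' r => h.2 φ x y a.1 a'.1 r⟩

theorem invol_restr {S : Pt k} {q : ∀ ⦃K⦄, S.X K → K × K} {a : ∀ ⦃K⦄, S.X K → S.X K}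
    (h : S.Invol q a) {C : S.Cond} (hC : S.Conv C)
    (st : ∀ ⦃K⦄ (x : S.X K), S.L x → C x → C (a x)) : (S.restr C hC).Invol q a :=
  ⟨⟨fun _ x hx => ⟨h.reg.live x hx.1, st x hx.1 hx.2⟩,
    fun _ _ φ x y hx hy r => h.reg.reg φ x y hx.1 hy.1 r⟩,
    fun _ x hx => h.inv x hx.1, fun _ x hx => h.f x hx.1, fun _ x hx => h.q x hx.1⟩

theorem gι00 {K : Fld k} {x : b.S.X K} (h : b.S.L x) : b.g (b.ι x) 0 0 = b.g x 1 1 := by
  rw [b.gι x h]; rfl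
theorem gι01 {K : Fld k} {x : b.S.X K} (h : b.S.L x) : b.g (b.ι x) 0 1 = b.g x 0 1 := by
  rw [b.gι x h]; rfl
theorem gι10 {K : Fld k} {x : b.S.X K} (h : b.S.L x) : b.g (b.ι x) 1 0 = b.g x 1 0 := by
  rw [b.gι x h]; rfl
theorem gι11 {K : Fld k} {x : b.S.X K} (h : b.S.L x) : b.g (b.ι x) 1 1 = b.g x 0 0 := by
  rw [b.gι x h]; rfl

theorem invol : (T b).Invol b.step.qB b.step.ι :=
  invol_restr b.step.invol_big _ fun _ _ hx hC => (gι10 hx.1.1.2).trans hC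

omit [CharZero F] in
/-- The part where the diagonal entries differ: a flow. -/
theorem part_ne (hχ : χ.ψ 1 ≠ 1) :
    ((T b).restr _ (closed_AD b).not.conv).UActs χ b.step.qB b.step.ι c := by
  refine UActs.of_flow hχ (regQ_restr regQ _) (invol_restr invol _ fun _ x hx hC e => hC ?_)
    (τ := fun _ r m => (((m.1.1.1, m.1.1.2 + r * (b.g m.2 0 0 / (b.g m.2 0 0 - b.g m.2 1 1))),
      (m.1.2.1 - r * (b.g m.2 1 1 / (b.g m.2 0 0 - b.g m.2 1 1)), m.1.2.2)), m.2)) ?_ ?_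
  · have e' : b.g (b.ι x.2) 0 0 = b.g (b.ι x.2) 1 1 := e
    rw [gι00 hx.1.1.1.2, gι11 hx.1.1.1.2] at e'
    exact e'.symm
  · have key : ∀ {K : Fld k} (r s s' A B D : K), A ≠ D →
        A * (s' - r * (D / (A - D))) + B + (s + r * (A / (A - D))) * D = A * s' + B + s * D := by
      intro K r s s' A B D _
      ring
    refine ⟨?_, ?_, ?_, ?_, ?_⟩
    · rintro K r ⟨⟨⟨u, s⟩, s', u'⟩, x⟩ ⟨h, hn⟩
      obtain ⟨h1, h2, h3, h4, h5⟩ := (live_iff ..).1 h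
      refine ⟨(live_iff ..).2 ⟨h1, h2, h3, h4, ?_⟩, hn⟩
      rwa [key _ _ _ _ _ _ hn]
    · rintro K ⟨⟨⟨u, s⟩, s', u'⟩, x⟩ _
      simp
    · rintro K r ⟨⟨⟨u, s⟩, s', u'⟩, x⟩ _
      simp
    · rintro K r ⟨⟨⟨u, s⟩, s', u'⟩, x⟩ ⟨h, hn⟩
      obtain ⟨h1, h2, h3, h4, h5⟩ := (live_iff ..).1 h
      have hn' : b.g x 0 0 - b.g x 1 1 ≠ 0 := sub_ne_zero.2 hn
      refine (f_eq _ _ _ _ _ h4).trans ?_
      refine Eq.trans ?_ (congrArg (· + r) (f_eq _ _ _ _ _ h4)).symm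
      rw [key _ _ _ _ _ _ hn]
      have : r * (b.g x 0 0 / (b.g x 0 0 - b.g x 1 1)) -
          r * (b.g x 1 1 / (b.g x 0 0 - b.g x 1 1)) = r := by
        field_simp
      linear_combination this
    · intro K K' φ r r' x y hr hx hy R
      have hA := rg 0 0 φ x y hx.1 hy.1 R
      have hD := rg 1 1 φ x y hx.1 hy.1 R
      have hn : b.g y.2 0 0 - b.g y.2 1 1 ≠ 0 := sub_ne_zero.2 hy.2
      exact ⟨⟨⟨R.1.1.1, Place.R.add R.1.1.2 (hr.mul (hA.div (hA.sub hD) hn))⟩,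
        Place.R.sub R.1.2.1 (hr.mul (hD.div (hA.sub hD) hn)), R.1.2.2⟩, R.2⟩
  · rintro K r ⟨⟨⟨u, s⟩, s', u'⟩, x⟩ ⟨h, hn⟩
    obtain ⟨h1, h2, h3, h4, h5⟩ := (live_iff ..).1 h
    refine (q_eq _ _ _ _ _ h4).trans (Eq.trans ?_ (q_eq _ _ _ _ _ h4).symm)
    refine Prod.ext ?_ rfl
    dsimp only
    ring

variable (b) in
/-- The part where the diagonal entries agree. -/
@[reducible] def T₁ : Pt k := (T b).restr _ (closed_AD b).conv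

theorem live₁_iff {K : Fld k} (u s s' u' : K) (x : b.S.X K) :
    (T₁ b).L (((u, s), (s', u')), x) ↔ (b.S.L x ∧ u ≠ 0 ∧ u' ≠ 0 ∧ b.g x 1 0 = 0 ∧
      b.g x 0 0 * s' + b.g x 0 1 + s * b.g x 1 1 ≠ 0) ∧ b.g x 0 0 = b.g x 1 1 :=
  and_congr_left' (live_iff u s s' u' x)

theorem regQ₁ : (T₁ b).RegQ b.step.qB := regQ_restr regQ _

omit [CharZero F] in
/-- The exchange of the two units. -/
theorem acts_swap (hχ : χ.ψ 1 ≠ 1) : (T₁ b).UActs χ b.step.qB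
    (fun _ m => (((m.1.2.2, m.1.1.2), (m.1.2.1, m.1.1.1)), m.2)) (-1) := by
  refine UActs.of_swap hχ regQ₁ (u := fun _ m => m.1.1.1) (v := fun _ m => m.1.2.2)
    (κ := fun _ m => -(b.g m.2 0 0 / (b.g m.2 0 0 * m.1.2.1 + b.g m.2 0 1 + m.1.1.2 * b.g m.2 1 1)))
    (mv := fun _ m s t => (((s, m.1.1.2), (m.1.2.1, t)), m.2)) ?_ ?_
  · refine ⟨fun _ _ _ _ _ _ _ R => R.1.1.1, fun _ _ _ _ _ _ _ R => R.1.2.2, ?_, ?_,
      fun _ _ _ => rfl, ?_, ?_⟩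
    · rintro K K' φ x ⟨⟨⟨u, s⟩, s', u'⟩, y⟩ hx hy R
      have hA := rg 0 0 φ x _ hx.1 hy.1 R
      have hB := rg 0 1 φ x _ hx.1 hy.1 R
      have hD := rg 1 1 φ x _ hx.1 hy.1 R
      exact (hA.div (((hA.mul R.1.2.1).add hB).add (Place.R.mul R.1.1.2 hD))
        ((live₁_iff ..).1 hy).1.2.2.2.2).neg
    · rintro K ⟨⟨⟨u, s⟩, s', u'⟩, x⟩ h
      obtain ⟨⟨h1, h2, h3, h4, h5⟩, h6⟩ := (live₁_iff ..).1 h
      exact neg_ne_zero.2 (div_ne_zero (b.ne_of_small h1 h4) h5)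
    · rintro K ⟨⟨⟨u, s⟩, s', u'⟩, x⟩ v v' h e
      obtain ⟨⟨h1, h2, h3, h4, h5⟩, h6⟩ := (live₁_iff ..).1 h
      have e' : v * v' ≠ 0 := e ▸ mul_ne_zero h2 h3
      refine ⟨(live₁_iff ..).2 ⟨⟨h1, left_ne_zero_of_mul e', right_ne_zero_of_mul e', h4, h5⟩, h6⟩,
        rfl, rfl, rfl, ?_, rfl⟩
      refine (f_eq _ _ _ _ _ h4).trans ?_
      refine Eq.trans ?_ (congrArg (· + _) (f_eq _ _ _ _ _ h4)).symm
      dsimp only
      rw [← h6]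
      ring
    · intro K K' φ x y s t s' t' hx hy R hs ht _
      exact ⟨⟨⟨hs, R.1.1.2⟩, R.1.2.1, ht⟩, R.2⟩
  · rintro K ⟨⟨⟨u, s⟩, s', u'⟩, x⟩ v v' h e
    obtain ⟨⟨h1, h2, h3, h4, h5⟩, h6⟩ := (live₁_iff ..).1 h
    refine (q_eq _ _ _ _ _ h4).trans (Eq.trans ?_ (q_eq _ _ _ _ _ h4).symm)
    have e' : v * v' = u * u' := e
    rw [e']

/-- The exchange of the two additive coordinates. -/
theorem acts_free : (T₁ b).UActs χ b.step.qB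
    (fun _ m => (((m.1.1.1, m.1.1.2 + m.1.2.1 - m.1.1.2),
      (m.1.1.2 + m.1.2.1 - (m.1.1.2 + m.1.2.1 - m.1.1.2), m.1.2.2)), m.2)) 1 := by
  have key : ∀ {K : Fld k} (t s s' A B : K),
      A * (s + s' - t) + B + t * A = A * s' + B + s * A := by
    intro K t s s' A B
    ring
  refine UActs.of_free regQ₁ (s := fun _ m => m.1.1.2) (d := fun _ m => m.1.1.2 + m.1.2.1)
    (mv := fun _ m t => (((m.1.1.1, t), (m.1.1.2 + m.1.2.1 - t, m.1.2.2)), m.2)) ?_ ?_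
  · refine ⟨fun _ _ _ _ _ _ _ R => R.1.1.2, fun _ _ _ _ _ _ _ R => Place.R.add R.1.1.2 R.1.2.1,
      ?_, ?_, ?_⟩
    · rintro K ⟨⟨⟨u, s⟩, s', u'⟩, x⟩ _
      simp
    · rintro K ⟨⟨⟨u, s⟩, s', u'⟩, x⟩ t h
      obtain ⟨⟨h1, h2, h3, h4, h5⟩, h6⟩ := (live₁_iff ..).1 h
      refine ⟨(live₁_iff ..).2 ⟨⟨h1, h2, h3, h4, ?_⟩, h6⟩, rfl, by simp, ?_, by simp⟩
      · rw [← h6] at h5 ⊢
        rwa [key]
      · refine (f_eq _ _ _ _ _ h4).trans (Eq.trans ?_ (f_eq _ _ _ _ _ h4).symm)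
        rw [← h6, key]
        ring
    · intro K K' φ x y t t' hx hy R ht
      exact ⟨⟨⟨R.1.1.1, ht⟩, Place.R.sub (Place.R.add R.1.1.2 R.1.2.1) ht, R.1.2.2⟩, R.2⟩
  · rintro K ⟨⟨⟨u, s⟩, s', u'⟩, x⟩ t h
    obtain ⟨⟨h1, h2, h3, h4, h5⟩, h6⟩ := (live₁_iff ..).1 h
    refine (q_eq _ _ _ _ _ h4).trans (Eq.trans ?_ (q_eq _ _ _ _ _ h4).symm)
    rw [← h6, key]

omit [CharZero F] in
/-- The inner involution. -/
theorem acts_inner (hS : b.Small χ c) : (T₁ b).UActs χ b.step.qB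
    (fun _ m => (((m.1.1.1, m.1.1.2 + b.g m.2 0 1 / b.g m.2 0 0 -
      b.g (b.ι m.2) 0 1 / b.g (b.ι m.2) 0 0), m.1.2), b.ι m.2)) c := by
  have key : ∀ {K : Fld k} (s s' A B B' : K), A ≠ 0 →
      A * s' + B' + (s + B / A - B' / A) * A = A * s' + B + s * A := by
    intro K s s' A B B' h
    field_simp
    ring
  refine UActs.of_fam (S := b.small) (S' := T₁ b) b.regQ_small (π := fun _ m => m.2)
    (mv := fun _ m y => (((m.1.1.1, m.1.1.2 + b.g m.2 0 1 / b.g m.2 0 0 -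
      b.g y 0 1 / b.g y 0 0), m.1.2), y)) ?_ ?_ hS
  · refine ⟨⟨fun _ m h => ⟨h.1.1.1.1.2, h.1.2, h.2⟩, fun _ _ _ _ _ _ _ R => R.2⟩, ?_, ?_, ?_⟩
    · rintro K ⟨⟨⟨u, s⟩, s', u'⟩, x⟩ _
      simp
    · rintro K ⟨⟨⟨u, s⟩, s', u'⟩, x⟩ y h ⟨g1, g4, g6⟩ e
      obtain ⟨⟨h1, h2, h3, h4, h5⟩, h6⟩ := (live₁_iff ..).1 h
      have e' : b.g y 0 0 = b.g x 0 0 := congrArg Prod.fst e
      have h0 := b.ne_of_small h1 h4
      refine ⟨(live₁_iff ..).2 ⟨⟨g1, h2, h3, g4, ?_⟩, g6⟩, rfl, ?_, fun z => ?_⟩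
      · rw [← h6] at h5
        rwa [← g6, e', key _ _ _ _ _ h0]
      · refine (f_eq _ _ _ _ _ g4).trans ?_
        refine Eq.trans ?_ (congrArg (fun t => t + b.small.f y - b.small.f x)
          (f_eq _ _ _ _ _ h4)).symm
        change _ = _ + (b.S.f y - b.g y 0 1 / b.g y 0 0) - (b.S.f x - b.g x 0 1 / b.g x 0 0)
        rw [← g6, ← h6, e', key _ _ _ _ _ h0]
        ring
      · simp
    · intro K K' φ m m' x x' hm hm' R hx hx' R' _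
      have hA := rg 0 0 φ m m' hm.1 hm'.1 R
      have hB := rg 0 1 φ m m' hm.1 hm'.1 R
      exact ⟨⟨⟨R.1.1.1, Place.R.sub (Place.R.add R.1.1.2 (hB.div hA
        (b.ne_of_small hm'.1.1.1.1.2 hm'.1.2))) ((b.rg 0 1 φ x x' hx.1 hx'.1 R').div
        (b.rg 0 0 φ x x' hx.1 hx'.1 R') (b.ne_of_small hx'.1 hx'.2.1))⟩, R.1.2⟩, R'⟩
  · rintro K ⟨⟨⟨u, s⟩, s', u'⟩, x⟩ y h ⟨g1, g4, g6⟩ e
    obtain ⟨⟨h1, h2, h3, h4, h5⟩, h6⟩ := (live₁_iff ..).1 h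
    have e' : b.g y 0 0 = b.g x 0 0 := congrArg Prod.fst e
    have h0 := b.ne_of_small h1 h4
    refine (q_eq _ _ _ _ _ g4).trans (Eq.trans ?_ (q_eq _ _ _ _ _ h4).symm)
    rw [← g6, ← h6, e', key _ _ _ _ _ h0]

/-- The part where the diagonal entries agree: three maps are composed. -/
theorem part_eq (hχ : χ.ψ 1 ≠ 1) (hS : b.Small χ (-c)) :
    (T₁ b).UActs χ b.step.qB b.step.ι c := by
  have h12 : (T₁ b).UActs χ b.step.qB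
      (fun _ m => (((m.1.2.2, m.1.2.1), (m.1.1.2, m.1.1.1)), m.2)) (-1) := by
    refine (acts_swap hχ).comp acts_free ?_ ?_ (mul_one _).symm
    · rintro K ⟨⟨⟨u, s⟩, s', u'⟩, x⟩ h
      obtain ⟨⟨h1, h2, h3, h4, h5⟩, h6⟩ := (live₁_iff ..).1 h
      refine ⟨(live₁_iff ..).2 ⟨⟨h1, h3, h2, h4, h5⟩, h6⟩, ?_⟩
      refine (q_eq _ _ _ _ _ h4).trans (Eq.trans ?_ (q_eq _ _ _ _ _ h4).symm)
      rw [mul_comm u' u]
    · rintro K ⟨⟨⟨u, s⟩, s', u'⟩, x⟩ _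
      simp
  refine h12.comp (acts_inner hS) ?_ ?_ (by ring)
  · rintro K ⟨⟨⟨u, s⟩, s', u'⟩, x⟩ h
    obtain ⟨⟨h1, h2, h3, h4, h5⟩, h6⟩ := (live₁_iff ..).1 h
    have e : b.g x 0 0 * s + b.g x 0 1 + s' * b.g x 1 1 =
        b.g x 0 0 * s' + b.g x 0 1 + s * b.g x 1 1 := by
      rw [← h6]; ring
    refine ⟨(live₁_iff ..).2 ⟨⟨h1, h3, h2, h4, e ▸ h5⟩, h6⟩, ?_⟩
    refine (q_eq _ _ _ _ _ h4).trans (Eq.trans ?_ (q_eq _ _ _ _ _ h4).symm)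
    rw [mul_comm u' u, e]
  · rintro K ⟨⟨⟨u, s⟩, s', u'⟩, x⟩ h
    obtain ⟨⟨h1, h2, h3, h4, h5⟩, h6⟩ := (live₁_iff ..).1 h
    change (((u', s'), (s, u)), b.ι x) = (((u', s' + b.g x 0 1 / b.g x 0 0 -
      b.g (b.ι x) 0 1 / b.g (b.ι x) 0 0), (s, u)), b.ι x)
    rw [gι00 h1, gι01 h1, ← h6, add_sub_cancel_right]

end BS

end

theorem Blk.big_small (hχ : χ.ψ 1 ≠ 1) (hc : c * c = 1) (hS : b.Small χ (-c)) :
    (b.step.big.restr _ b.closed_inner.conv).UActs χ b.step.qB b.step.ι c := by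
  refine Pt.UActs.of_closed BS.regQ BS.invol hc (BS.closed_AD b) (BS.part_eq hχ hS)
    (BS.part_ne hχ) fun _ x hx e => ?_
  change b.g (b.ι x.2) 0 0 = b.g (b.ι x.2) 1 1
  rw [BS.gι00 hx.1.1.1.2, BS.gι11 hx.1.1.1.2]
  exact e.symm

end Pool.Agent.Lib.MP_fc2ced_ag.K
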