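import Pool.Agent.Lib.MP_fc2ced_ag.K.Blk

/-! The small cell of the next block. -/

namespace Pool.Agent.Lib.MP_fc2ced_ag.K

variable {k : Type} [Field k] {F : Type} [Field F] [CharZero F] {χ : Chr k F} {b : Blk k} {c : F}

open Pt

theorem Pt.RegQ.bs_restr {S : Pt k} {q : ∀ ⦃K⦄, S.X K → K × K} (h : S.RegQ q) {T : S.Cond}
    (hT : S.Conv T) : (S.restr T hT).RegQ q :=
  ⟨fun _ _ φ x y a d e => h.1 φ x y a.1 d.1 e, fun _ _ φ x y a d e => h.2 φ x y a.1 d.1 e⟩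

theorem Pt.Invol.bs_restr {S : Pt k} {q : ∀ ⦃K⦄, S.X K → K × K} {a : ∀ ⦃K⦄, S.X K → S.X K}
    (h : S.Invol q a) {T : S.Cond} (hT : S.Conv T)
    (st : ∀ ⦃K⦄ (x : S.X K), S.L x → T x → T (a x)) : (S.restr T hT).Invol q a :=
  ⟨⟨fun _ x hx => ⟨h.reg.live x hx.1, st x hx.1 hx.2⟩,
    fun _ _ φ x y d e r => h.reg.reg φ x y d.1 e.1 r⟩, fun _ x hx => h.inv x hx.1,
    fun _ x hx => h.f x hx.1, fun _ x hx => h.q x hx.1⟩

namespace Blk

section Coord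

variable {K : Fld k} {u s s' u' : K} {x : b.S.X K}

theorem bs_live : b.step.small.L (K := K) (((u, s), (s', u')), x) ↔ b.S.L x ∧ u ≠ 0 ∧ u' ≠ 0 ∧
    (b.g x 0 0 + s * b.g x 1 0) * s' + b.g x 0 1 + s * b.g x 1 1 = 0 ∧
    u * (b.g x 1 0 * s' + b.g x 1 1) = u' * (b.g x 0 0 + s * b.g x 1 0) := by
  change ((_ ∧ b.S.L x) ∧ u ≠ 0 ∧ u' ≠ 0) ∧ b.stepG (((u, s), (s', u')), x) 1 0 = 0 ∧
    b.stepG (((u, s), (s', u')), x) 0 0 = b.stepG (((u, s), (s', u')), x) 1 1 ↔ _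
  rw [stepG_eq]
  simp [and_assoc]

theorem bs_f : b.step.small.f (K := K) (((u, s), (s', u')), x) = b.S.f x + s + s' -
    u * u' * b.g x 1 0 / (u * (b.g x 1 0 * s' + b.g x 1 1)) := by
  change b.S.f x + s + s' - b.stepG (((u, s), (s', u')), x) 0 1 /
    b.stepG (((u, s), (s', u')), x) 0 0 = _
  rw [stepG_eq]
  simp

theorem bs_q : b.step.qS (K := K) (((u, s), (s', u')), x) =
    (u * (b.g x 1 0 * s' + b.g x 1 1), 0) := by
  change (b.stepG (((u, s), (s', u')), x) 0 0, (0 : K)) = _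
  rw [stepG_eq]
  simp

theorem bs_gι (h : b.S.L x) : b.g (b.ι x) 0 0 = b.g x 1 1 ∧ b.g (b.ι x) 0 1 = b.g x 0 1 ∧
    b.g (b.ι x) 1 0 = b.g x 1 0 ∧ b.g (b.ι x) 1 1 = b.g x 0 0 := by
  rw [b.gι x h]
  simp

theorem bs_det (h : b.S.L x) : b.g x 0 0 * b.g x 1 1 - b.g x 0 1 * b.g x 1 0 ≠ 0 := by
  simpa only [Matrix.det_fin_two] using b.det x h

end Coord

variable (b) in
theorem bs_rg (i j : Fin 2) : b.step.small.RegF fun _ m => b.g m.2 i j :=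
  fun _ _ φ x y h h' r => b.rg i j φ x.2 y.2 h.1.1.2 h'.1.1.2 r.2

variable (b) in
theorem bs_closed : b.step.small.Closed fun _ m => b.g m.2 1 0 = 0 := (b.bs_rg 1 0).eq regF_zero

variable (b) in
/-- The part over the big cell. -/
abbrev bsO : Pt k := b.step.small.restr _ b.bs_closed.not.conv

variable (b) in
/-- The part over the small cell. -/
abbrev bsC : Pt k := b.step.small.restr _ b.bs_closed.conv

variable (b) in
theorem bs_closed' : b.bsC.Closed fun _ m => b.g m.2 0 0 = b.g m.2 1 1 :=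
  fun _ _ φ x y h h' r => (b.bs_rg 0 0).eq (b.bs_rg 1 1) φ x y h.1 h'.1 r

/-! ### Over the big cell -/

variable (b) in
/-- The first coordinate over the big cell. -/
noncomputable def bsA ⦃K : Fld k⦄ (m : b.stepS.X K) : K := m.1.1.2 + b.g m.2 0 0 / b.g m.2 1 0

variable (b) in
/-- The second coordinate over the big cell. -/
noncomputable def bsB ⦃K : Fld k⦄ (m : b.stepS.X K) : K := m.1.2.1 + b.g m.2 1 1 / b.g m.2 1 0

variable (b) in
/-- The two coordinates are moved. -/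
noncomputable def bsSw ⦃K : Fld k⦄ (m : b.stepS.X K) (α β : K) : b.stepS.X K :=
  (((m.1.1.1 * b.bsB m / β, α - b.g m.2 0 0 / b.g m.2 1 0),
    (β - b.g m.2 1 1 / b.g m.2 1 0, m.1.1.1 * b.bsB m / α)), m.2)

variable (b) in
/-- The point of the big cell is moved. -/
noncomputable def bsIn ⦃K : Fld k⦄ (m : b.stepS.X K) (y : b.S.X K) : b.stepS.X K :=
  (((m.1.1.1, b.bsA m - b.g y 0 0 / b.g y 1 0), (b.bsB m - b.g y 1 1 / b.g y 1 0, m.1.2.2)), y)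

theorem bsO_iff {K : Fld k} {m : b.stepS.X K} : b.bsO.L m ↔ b.S.L m.2 ∧ b.g m.2 1 0 ≠ 0 ∧
    m.1.1.1 ≠ 0 ∧ m.1.2.2 ≠ 0 ∧ b.bsA m * b.bsB m * b.g m.2 1 0 ^ 2 = (b.g m.2).det ∧
    m.1.1.1 * b.bsB m = m.1.2.2 * b.bsA m := by
  obtain ⟨⟨⟨u, s⟩, s', u'⟩, x⟩ := m
  change _ ∧ ¬ b.g x 1 0 = 0 ↔ _
  rw [bs_live, Matrix.det_fin_two]
  simp only [bsA, bsB]
  constructor
  · rintro ⟨⟨h1, h2, h3, h4, h5⟩, h6⟩
    refine ⟨h1, h6, h2, h3, ?_, ?_⟩
    · field_simp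
      linear_combination b.g x 1 0 * h4
    · field_simp
      linear_combination h5
  · rintro ⟨h1, h6, h2, h3, h4, h5⟩
    refine ⟨⟨h1, h2, h3, mul_left_cancel₀ h6 ?_, ?_⟩, h6⟩
    · field_simp at h4
      linear_combination h4
    · field_simp at h5
      linear_combination h5

theorem bsO_ne {K : Fld k} {m : b.stepS.X K} (h : b.bsO.L m) : b.bsA m * b.bsB m ≠ 0 := by
  obtain ⟨h1, -, -, -, h4, -⟩ := bsO_iff.1 h
  exact left_ne_zero_of_mul (h4.trans_ne (b.det _ h1))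

theorem bsO_f {K : Fld k} {m : b.stepS.X K} (h : b.bsO.L m) : b.bsO.f m =
    b.big.f m.2 + b.bsA m + b.bsB m - m.1.1.1 * b.bsB m / (b.bsA m * b.bsB m) := by
  have h0 := bsO_ne h
  obtain ⟨-, h6, h2, h3, -, h5⟩ := bsO_iff.1 h
  have ha := left_ne_zero_of_mul h0
  have hb := right_ne_zero_of_mul h0
  rw [h5]
  obtain ⟨⟨⟨u, s⟩, s', u'⟩, x⟩ := m
  have e : b.g x 1 0 * s' + b.g x 1 1 = b.g x 1 0 * b.bsB (((u, s), (s', u')), x) := by
    simp only [bsB] at h6 ⊢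
    field_simp
  refine bs_f.trans ?_
  rw [e]
  change _ = b.S.f x - (b.g x 0 0 + b.g x 1 1) / b.g x 1 0 + _ + _ - _
  generalize hB : b.bsB (((u, s), (s', u')), x) = β at hb ⊢
  generalize hA : b.bsA (((u, s), (s', u')), x) = α at ha ⊢
  simp only [bsA, bsB] at hA hB h2 h6 ⊢
  have e1 : u * u' * b.g x 1 0 / (u * (b.g x 1 0 * β)) = u' * α / (α * β) := by field_simp
  rw [e1, add_div]
  linear_combination hA + hB

theorem bsO_q {K : Fld k} {m : b.stepS.X K} (h : b.g m.2 1 0 ≠ 0) :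
    b.step.qS m = (m.1.1.1 * b.bsB m * b.g m.2 1 0, 0) := by
  obtain ⟨⟨⟨u, s⟩, s', u'⟩, x⟩ := m
  refine bs_q.trans (Prod.ext ?_ rfl)
  simp only [bsB] at h ⊢
  field_simp

theorem bsA_sw {K : Fld k} (m : b.stepS.X K) (α β : K) : b.bsA (b.bsSw m α β) = α := by
  simp [bsA, bsSw]

theorem bsB_sw {K : Fld k} (m : b.stepS.X K) (α β : K) : b.bsB (b.bsSw m α β) = β := by
  simp only [bsSw, bsB, sub_add_cancel]

theorem bsA_in {K : Fld k} (m : b.stepS.X K) (y : b.S.X K) : b.bsA (b.bsIn m y) = b.bsA m := by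
  simp only [bsA, bsIn, sub_add_cancel]

theorem bsB_in {K : Fld k} (m : b.stepS.X K) (y : b.S.X K) : b.bsB (b.bsIn m y) = b.bsB m := by
  simp only [bsB, bsIn, sub_add_cancel]

theorem bsO_ra : b.bsO.RegF b.bsA := fun _ _ φ x y h h' r =>
  r.1.1.2.add ((b.bs_rg 0 0 φ x y h.1 h'.1 r).div (b.bs_rg 1 0 φ x y h.1 h'.1 r) h'.2)

theorem bsO_rb : b.bsO.RegF b.bsB := fun _ _ φ x y h h' r =>
  r.1.2.1.add ((b.bs_rg 1 1 φ x y h.1 h'.1 r).div (b.bs_rg 1 0 φ x y h.1 h'.1 r) h'.2)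

theorem bsSw_self {K : Fld k} {m : b.stepS.X K} (h : b.bsO.L m) :
    b.bsSw m (b.bsA m) (b.bsB m) = m := by
  have h0 := bsO_ne h
  obtain ⟨-, -, -, -, -, h5⟩ := bsO_iff.1 h
  refine Prod.ext (Prod.ext (Prod.ext ?_ ?_) (Prod.ext ?_ ?_)) rfl
  · exact mul_div_cancel_right₀ _ (right_ne_zero_of_mul h0)
  · exact add_sub_cancel_right _ _
  · exact add_sub_cancel_right _ _
  · change m.1.1.1 * b.bsB m / b.bsA m = _
    rw [h5, mul_div_cancel_right₀ _ (left_ne_zero_of_mul h0)]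

theorem bsSw_v {K : Fld k} (m : b.stepS.X K) (α : K) {β : K} (h : β ≠ 0) :
    (b.bsSw m α β).1.1.1 * b.bsB (b.bsSw m α β) = m.1.1.1 * b.bsB m := by
  rw [bsB_sw]
  exact div_mul_cancel₀ _ h

theorem bs_swap : b.bsO.Swap b.bsA b.bsB (fun _ _ => 1) b.bsSw where
  ra := bsO_ra
  rb := bsO_rb
  rκ := regF_one
  ne _ _ _ := one_ne_zero
  self _ _ h := bsSw_self h
  spec K m α β h e := by
    have h0 := bsO_ne h
    have hα := left_ne_zero_of_mul (e.trans_ne h0)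
    have hβ := right_ne_zero_of_mul (e.trans_ne h0)
    obtain ⟨h1, h6, h2, h3, h4, h5⟩ := bsO_iff.1 h
    have hv := mul_ne_zero h2 (right_ne_zero_of_mul h0)
    have hl : b.bsO.L (b.bsSw m α β) := by
      refine bsO_iff.2 ⟨h1, h6, div_ne_zero hv hβ, div_ne_zero hv hα, ?_, ?_⟩
      · rw [bsA_sw, bsB_sw, e]
        exact h4
      · rw [bsSw_v m α hβ, bsA_sw]
        exact (div_mul_cancel₀ _ hα).symm
    refine ⟨hl, bsA_sw _ _ _, bsB_sw _ _ _, rfl, ?_, ?_⟩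
    · rw [bsO_f hl, bsO_f h, bsSw_v m α hβ, bsA_sw, bsB_sw, e]
      change b.big.f m.2 + _ + _ - _ = _
      ring
    · refine Eq.trans ?_ (bsSw_self h)
      exact Prod.ext (Prod.ext (Prod.ext (congrArg (· / b.bsB m) (bsSw_v m α hβ)) rfl)
        (Prod.ext rfl (congrArg (· / b.bsA m) (bsSw_v m α hβ)))) rfl
  reg K K' φ x y α β α' β' h h' r hα hβ e := by
    have ra := bsO_ra φ x y h h' r
    have rb := bsO_rb φ x y h h' r
    have h0 := ((hα.mul hβ).eq_of (ra.mul rb) e).trans_ne (bsO_ne h')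
    have g := fun i j => b.bs_rg i j φ x y h.1 h'.1 r
    exact ⟨⟨⟨(r.1.1.1.mul rb).div hβ (right_ne_zero_of_mul h0),
      hα.sub ((g 0 0).div (g 1 0) h'.2)⟩, hβ.sub ((g 1 1).div (g 1 0) h'.2),
      (r.1.1.1.mul rb).div hα (left_ne_zero_of_mul h0)⟩, r.2⟩

theorem bs_famO : Fam b.big b.bsO b.qB (fun _ m => m.2) b.bsIn where
  reg := ⟨fun _ _ h => ⟨h.1.1.1.2, h.2⟩, fun _ _ _ _ _ _ _ r => r.2⟩
  self _ m _ := Prod.ext (Prod.ext (Prod.ext rfl (add_sub_cancel_right _ _))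
    (Prod.ext (add_sub_cancel_right _ _) rfl)) rfl
  spec K m y h hy e := by
    obtain ⟨h1, h6, h2, h3, h4, h5⟩ := bsO_iff.1 h
    have e1 : b.g y 1 0 = b.g m.2 1 0 := congrArg Prod.fst e
    have e2 : (b.g y).det = (b.g m.2).det := congrArg Prod.snd e
    have hl : b.bsO.L (b.bsIn m y) := by
      refine bsO_iff.2 ⟨hy.1, hy.2, h2, h3, ?_, ?_⟩
      · rw [bsA_in, bsB_in]
        change _ * b.g y 1 0 ^ 2 = (b.g y).det
        rw [e1, e2, h4]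
      · rw [bsA_in, bsB_in]
        exact h5
    refine ⟨hl, rfl, ?_, fun z => ?_⟩
    · rw [bsO_f hl, bsO_f h, bsA_in, bsB_in]
      change b.big.f y + _ + _ - m.1.1.1 * _ / _ = _
      ring
    · exact Prod.ext (Prod.ext (Prod.ext rfl (congrArg (· - b.g z 0 0 / b.g z 1 0) (bsA_in m y)))
        (Prod.ext (congrArg (· - b.g z 1 1 / b.g z 1 0) (bsB_in m y)) rfl)) rfl
  sp K K' φ m m' y y' h h' r hy hy' r' _ := by
    have g := fun i j => b.rg i j φ y y' hy.1 hy'.1 r'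
    exact ⟨⟨⟨r.1.1.1, (bsO_ra φ m m' h h' r).sub ((g 0 0).div (g 1 0) hy'.2)⟩,
      (bsO_rb φ m m' h h' r).sub ((g 1 1).div (g 1 0) hy'.2), r.1.2.2⟩, r'⟩

theorem bs_open (hχ : χ.ψ 1 ≠ 1) (hB : b.Big χ c) : b.bsO.UActs χ b.step.qS b.step.ι (-c) := by
  have hq : b.bsO.RegQ b.step.qS := b.step.regQ_small.bs_restr _
  have hm : ∀ ⦃K : Fld k⦄ (m : b.bsO.X K) (α β : K), b.bsO.L m → α * β = b.bsA m * b.bsB m →
      b.step.qS (b.bsSw m α β) = b.step.qS m := fun K m α β h e => by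
    rw [bsO_q (m := b.bsSw m α β) h.2, bsO_q h.2,
      bsSw_v m α (right_ne_zero_of_mul (e.trans_ne (bsO_ne h)))]
    rfl
  have H₁ := UActs.of_swap hχ hq bs_swap hm
  have H₂ : b.bsO.UActs χ b.step.qS (fun _ m => b.bsIn m (b.ι m.2)) c :=
    UActs.of_fam b.regQ_big bs_famO (fun K m y h hy e => by
      rw [bsO_q (m := b.bsIn m y) hy.2, bsO_q h.2, bsB_in]
      exact congrArg (fun t => (m.1.1.1 * b.bsB m * t, (0 : K))) (congrArg Prod.fst e)) hB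
  refine H₁.comp H₂ (fun K m h => ⟨(bs_swap.spec m _ _ h (mul_comm _ _)).1,
    hm m _ _ h (mul_comm _ _)⟩) (fun K m h => ?_) (neg_one_mul c).symm
  have h0 := bsO_ne h
  obtain ⟨h1, -, -, -, -, h5⟩ := bsO_iff.1 h
  obtain ⟨g1, -, g3, g4⟩ := bs_gι h1
  refine Prod.ext (Prod.ext (Prod.ext ?_ ?_) (Prod.ext ?_ ?_)) rfl
  · change m.1.2.2 = m.1.1.1 * b.bsB m / b.bsA m
    rw [h5, mul_div_cancel_right₀ _ (left_ne_zero_of_mul h0)]
  · change m.1.2.1 = b.bsA _ - b.g (b.ι m.2) 0 0 / b.g (b.ι m.2) 1 0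
    rw [bsA_sw, g1, g3]
    exact (add_sub_cancel_right _ _).symm
  · change m.1.1.2 = b.bsB _ - b.g (b.ι m.2) 1 1 / b.g (b.ι m.2) 1 0
    rw [bsB_sw, g4, g3]
    exact (add_sub_cancel_right _ _).symm
  · exact (mul_div_cancel_right₀ _ (right_ne_zero_of_mul h0)).symm

/-! ### Over the small cell -/

theorem bsC_iff {K : Fld k} {m : b.stepS.X K} : b.bsC.L m ↔ b.S.L m.2 ∧ b.g m.2 1 0 = 0 ∧
    m.1.1.1 ≠ 0 ∧ m.1.2.2 ≠ 0 ∧
    b.g m.2 0 0 * m.1.2.1 + b.g m.2 0 1 + m.1.1.2 * b.g m.2 1 1 = 0 ∧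
    m.1.1.1 * b.g m.2 1 1 = m.1.2.2 * b.g m.2 0 0 := by
  obtain ⟨⟨⟨u, s⟩, s', u'⟩, x⟩ := m
  change _ ∧ b.g x 1 0 = 0 ↔ _
  rw [bs_live]
  constructor
  · rintro ⟨⟨h1, h2, h3, h4, h5⟩, h6⟩
    exact ⟨h1, h6, h2, h3, by simpa only [h6, mul_zero, add_zero] using h4,
      by simpa only [h6, mul_zero, add_zero, zero_mul, zero_add] using h5⟩
  · rintro ⟨h1, h6, h2, h3, h4, h5⟩
    dsimp only at h6 h4 h5
    exact ⟨⟨h1, h2, h3, by simpa only [h6, mul_zero, add_zero] using h4,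
      by simpa only [h6, mul_zero, add_zero, zero_mul, zero_add] using h5⟩, h6⟩

theorem bsC_f {K : Fld k} {m : b.stepS.X K} (h : b.g m.2 1 0 = 0) :
    b.step.small.f m = b.S.f m.2 + m.1.1.2 + m.1.2.1 := by
  obtain ⟨⟨⟨u, s⟩, s', u'⟩, x⟩ := m
  refine bs_f.trans ?_
  dsimp only at h ⊢
  rw [h, mul_zero, zero_div, sub_zero]

theorem bsC_q {K : Fld k} {m : b.stepS.X K} (h : b.g m.2 1 0 = 0) :
    b.step.qS m = (m.1.1.1 * b.g m.2 1 1, 0) := by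
  obtain ⟨⟨⟨u, s⟩, s', u'⟩, x⟩ := m
  refine bs_q.trans ?_
  dsimp only at h ⊢
  rw [h, zero_mul, zero_add]

variable (b) in
/-- The flow where the diagonal entries differ. -/
noncomputable def bsFl ⦃K : Fld k⦄ (r : K) (m : b.stepS.X K) : b.stepS.X K :=
  (((m.1.1.1, m.1.1.2 + r * (b.g m.2 0 0 / (b.g m.2 0 0 - b.g m.2 1 1))),
    (m.1.2.1 - r * (b.g m.2 1 1 / (b.g m.2 0 0 - b.g m.2 1 1)), m.1.2.2)), m.2)

theorem bs_flow : (b.bsC.restr _ b.bs_closed'.not.conv).Flow b.bsFl where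
  live K r m h := by
    obtain ⟨h1, h6, h2, h3, h4, h5⟩ := bsC_iff.1 h.1
    refine ⟨bsC_iff.2 ⟨h1, h6, h2, h3, ?_, h5⟩, h.2⟩
    simp only [bsFl]
    linear_combination h4
  zero K m _ := by simp only [bsFl, zero_mul, add_zero, sub_zero]
  neg K r m _ := by simp only [bsFl, neg_mul, add_neg_cancel_right, sub_neg_eq_add, sub_add_cancel]
  f K r m h := by
    refine (bsC_f (m := b.bsFl r m) h.1.2).trans (.trans ?_ (congrArg (· + r) (bsC_f h.1.2)).symm)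
    have h0 : b.g m.2 0 0 - b.g m.2 1 1 ≠ 0 := sub_ne_zero.2 h.2
    simp only [bsFl]
    field_simp
    ring
  reg K K' φ r r' x y hr h h' e := by
    have g := fun i j => b.bs_rg i j φ x y h.1.1 h'.1.1 e
    have h0 : b.g y.2 0 0 - b.g y.2 1 1 ≠ 0 := sub_ne_zero.2 h'.2
    exact ⟨⟨⟨e.1.1.1, e.1.1.2.add (hr.mul ((g 0 0).div ((g 0 0).sub (g 1 1)) h0))⟩,
      e.1.2.1.sub (hr.mul ((g 1 1).div ((g 0 0).sub (g 1 1)) h0)), e.1.2.2⟩, e.2⟩

variable (b) in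
/-- The part where the diagonal entries agree. -/
abbrev bsD : Pt k := b.bsC.restr _ b.bs_closed'.conv

variable (b) in
/-- The free coordinate is moved. -/
noncomputable def bsFr ⦃K : Fld k⦄ (m : b.stepS.X K) (t : K) : b.stepS.X K :=
  (((m.1.1.1, t), (m.1.1.2 + m.1.2.1 - t, m.1.2.2)), m.2)

variable (b) in
/-- The point of the small cell is moved. -/
noncomputable def bsSm ⦃K : Fld k⦄ (m : b.stepS.X K) (y : b.S.X K) : b.stepS.X K :=
  (((m.1.1.1, m.1.1.2 + b.g m.2 0 1 / b.g m.2 0 0 - b.g y 0 1 / b.g y 0 0), m.1.2), y)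

theorem bs_free : b.bsD.Free (fun _ m => m.1.1.2) (fun _ m => m.1.1.2 + m.1.2.1) b.bsFr where
  rs _ _ _ _ _ _ _ r := r.1.1.2
  rc _ _ _ _ _ _ _ r := r.1.1.2.add r.1.2.1
  self _ m _ := by simp only [bsFr, add_sub_cancel_left]
  spec K m t h := by
    obtain ⟨h1, h6, h2, h3, h4, h5⟩ := bsC_iff.1 h.1
    have h7 : b.g m.2 0 0 = b.g m.2 1 1 := h.2
    refine ⟨⟨bsC_iff.2 ⟨h1, h6, h2, h3, ?_, h5⟩, h.2⟩, rfl, add_sub_cancel _ _, ?_, ?_⟩
    · simp only [bsFr]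
      linear_combination h4 + (m.1.1.2 - t) * h7
    · refine (bsC_f (m := b.bsFr m t) h6).trans (.trans ?_ (bsC_f h6).symm)
      simp only [bsFr]
      ring
    · simp only [bsFr, add_sub_cancel, add_sub_cancel_left]
  reg _ _ _ _ _ _ _ _ _ r ht := ⟨⟨⟨r.1.1.1, ht⟩, (r.1.1.2.add r.1.2.1).sub ht, r.1.2.2⟩, r.2⟩

theorem bs_famD : Fam b.small b.bsD b.qS (fun _ m => m.2) b.bsSm where
  reg := ⟨fun _ _ h => ⟨h.1.1.1.1.2, h.1.2, h.2⟩, fun _ _ _ _ _ _ _ r => r.2⟩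
  self _ m _ := by simp only [bsSm, add_sub_cancel_right]
  spec K m y h hy e := by
    obtain ⟨h1, h6, h2, h3, h4, h5⟩ := bsC_iff.1 h.1
    have h7 : b.g m.2 0 0 = b.g m.2 1 1 := h.2
    have h8 := b.ne_of_small h1 h6
    have e1 : b.g y 0 0 = b.g m.2 0 0 := congrArg Prod.fst e
    have e2 : b.g y 1 1 = b.g m.2 0 0 := hy.2.2.symm.trans e1
    refine ⟨⟨bsC_iff.2 ⟨hy.1, hy.2.1, h2, h3, ?_, ?_⟩, hy.2.2⟩, rfl, ?_, fun z => ?_⟩
    · simp only [bsSm, e1, e2]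
      rw [← h7] at h4
      field_simp
      linear_combination h4
    · simp only [bsSm, e1, e2]
      rwa [← h7] at h5
    · refine (bsC_f (m := b.bsSm m y) hy.2.1).trans (.trans ?_
        (congrArg (· + b.small.f y - b.small.f m.2) (bsC_f h6)).symm)
      change _ = _ + (b.S.f y - b.g y 0 1 / b.g y 0 0) - (b.S.f m.2 - b.g m.2 0 1 / b.g m.2 0 0)
      simp only [bsSm]
      ring
    · simp only [bsSm, sub_add_cancel]
  sp K K' φ m m' y y' h h' r hy hy' r' _ := by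
    have g := fun i j => b.rg i j φ y y' hy.1 hy'.1 r'
    have g' := fun i j => b.bs_rg i j φ m m' h.1.1 h'.1.1 r
    exact ⟨⟨⟨r.1.1.1, (r.1.1.2.add ((g' 0 1).div (g' 0 0) (b.ne_of_small h'.1.1.1.1.2 h'.1.2))).sub
      ((g 0 1).div (g 0 0) (b.ne_of_small hy'.1 hy'.2.1))⟩, r.1.2⟩, r'⟩

theorem bs_diag (hS : b.Small χ c) : b.bsD.UActs χ b.step.qS b.step.ι c := by
  have hq : b.bsD.RegQ b.step.qS := (b.step.regQ_small.bs_restr _).bs_restr _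
  have hm : ∀ ⦃K : Fld k⦄ (m : b.bsD.X K) (t : K), b.bsD.L m →
      b.step.qS (b.bsFr m t) = b.step.qS m := fun K m t h =>
    (bsC_q (m := b.bsFr m t) h.1.2).trans (bsC_q h.1.2).symm
  have H₁ := UActs.of_free (χ := χ) hq bs_free hm
  have H₂ : b.bsD.UActs χ b.step.qS (fun _ m => b.bsSm m (b.ι m.2)) c :=
    UActs.of_fam b.regQ_small bs_famD (fun K m y h hy e => by
      rw [bsC_q (m := b.bsSm m y) hy.2.1, bsC_q h.1.2]
      exact congrArg (fun t => (m.1.1.1 * t, (0 : K)))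
        (hy.2.2.symm.trans ((congrArg Prod.fst e).trans h.2))) hS
  refine H₁.comp H₂ (fun K m h => ⟨(bs_free.spec m _ h).1, hm m _ h⟩) (fun K m h => ?_)
    (one_mul c).symm
  obtain ⟨h1, h6, -, -, -, h5⟩ := bsC_iff.1 h.1
  have h7 : b.g m.2 0 0 = b.g m.2 1 1 := h.2
  obtain ⟨g1, g2, -, -⟩ := bs_gι h1
  have h9 : m.1.1.1 = m.1.2.2 := mul_right_cancel₀ (b.ne_of_small h1 h6) (by rw [← h5, h7])
  refine Prod.ext (Prod.ext (Prod.ext h9.symm ?_) (Prod.ext ?_ h9)) rfl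
  · change m.1.2.1 = m.1.1.2 + m.1.2.1 - m.1.1.2 + b.g m.2 0 1 / b.g m.2 0 0 -
      b.g (b.ι m.2) 0 1 / b.g (b.ι m.2) 0 0
    rw [g1, g2, h7]
    ring
  · change m.1.1.2 = m.1.1.2 + m.1.2.1 - (m.1.1.2 + m.1.2.1 - m.1.1.2)
    ring

end Blk

theorem Blk.small_step (hχ : χ.ψ 1 ≠ 1) (hc : c * c = 1) (hB : b.Big χ c) (hS : b.Small χ (-c)) :
    b.step.Small χ (-c) := by
  have hc' : -c * -c = 1 := by rw [neg_mul_neg, hc]
  have st : ∀ ⦃K⦄ (m : b.step.small.X K), b.step.small.L m → b.g m.2 1 0 = 0 →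
      b.g (b.step.ι m).2 1 0 = 0 := fun _ m h e => (Blk.bs_gι h.1.1.2).2.2.1.trans e
  have hq : b.bsC.RegQ b.step.qS := b.step.regQ_small.bs_restr _
  have ha : b.bsC.Invol b.step.qS b.step.ι := b.step.invol_small.bs_restr _ st
  refine UActs.of_closed b.step.regQ_small b.step.invol_small hc' b.bs_closed ?_
    (Blk.bs_open hχ hB) st
  refine UActs.of_closed hq ha hc' b.bs_closed' (Blk.bs_diag hS)
    (UActs.of_flow hχ (hq.bs_restr _) (ha.bs_restr _ fun _ m h e e' => e ?_) Blk.bs_flow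
      fun _ r m h => (Blk.bsC_q (m := b.bsFl r m) h.1.2).trans (Blk.bsC_q h.1.2).symm)
    fun _ m h e => ?_
  · obtain ⟨g1, -, -, g4⟩ := Blk.bs_gι h.1.1.1.2
    exact g4.symm.trans (e'.symm.trans g1)
  · obtain ⟨g1, -, -, g4⟩ := Blk.bs_gι h.1.1.1.2
    exact g1.trans (e.symm.trans g4.symm)

end Pool.Agent.Lib.MP_fc2ced_ag.K
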