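import Pool.Agent.Lib.MP_fc2ced_ag.K.SeqA

/-! The characteristic polynomial of the shift. -/

open Module Polynomial

namespace Pool.Agent.Lib.MP_fc2ced_ag.K

theorem charpoly_equiv {K A B : Type} [Field K] [AddCommGroup A] [Module K A] [AddCommGroup B]
    [Module K B] [FiniteDimensional K A] [FiniteDimensional K B] (e : A ≃ₗ[K] B) (a : A →ₗ[K] A)
    (b : B →ₗ[K] B) (h : ∀ x, b (e x) = e (a x)) : b.charpoly = a.charpoly := by
  rw [← e.charpoly_conj a]
  congr 1
  ext x
  obtain ⟨y, rfl⟩ := e.surjective x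
  simp [h]

/-- The characteristic polynomial is multiplicative in short exact sequences. -/
theorem charpoly_exact {K A B C : Type} [Field K] [AddCommGroup A] [Module K A] [AddCommGroup B]
    [Module K B] [AddCommGroup C] [Module K C] [FiniteDimensional K A] [FiniteDimensional K B]
    [FiniteDimensional K C] (i : A →ₗ[K] B) (p : B →ₗ[K] C) (hi : Function.Injective i)
    (he : Function.Exact i p) (hp : Function.Surjective p) (a : A →ₗ[K] A) (b : B →ₗ[K] B)
    (c : C →ₗ[K] C) (h1 : b ∘ₗ i = i ∘ₗ a) (h2 : c ∘ₗ p = p ∘ₗ b) :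
    b.charpoly = a.charpoly * c.charpoly := by
  classical
  obtain ⟨l, hl⟩ := p.exists_rightInverse_of_surjective (LinearMap.range_eq_top.2 hp)
  obtain ⟨e, e1, e2⟩ := he.splitSurjectiveEquiv hi ⟨l, hl⟩
  have k1 : ∀ x, e.conj b (x, 0) = (a x, 0) := fun x => by
    have := LinearMap.congr_fun h1 x
    rw [e1] at this
    simp only [LinearMap.comp_apply, LinearMap.inl_apply, LinearEquiv.coe_coe] at this
    rw [LinearEquiv.conj_apply_apply, this, e.apply_symm_apply]
  have k2 : ∀ z, (e.conj b z).2 = c z.2 := fun z => by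
    have := LinearMap.congr_fun h2 (e.symm z)
    rw [e2] at this
    simp only [LinearMap.comp_apply, LinearMap.snd_apply, LinearEquiv.coe_coe,
      e.apply_symm_apply] at this
    rw [LinearEquiv.conj_apply_apply, this]
  rw [← e.charpoly_conj b]
  generalize e.conj b = f at k1 k2
  let b₁ := Module.Free.chooseBasis K A
  let b₂ := Module.Free.chooseBasis K C
  rw [← LinearMap.charpoly_toMatrix a b₁, ← LinearMap.charpoly_toMatrix c b₂,
    ← LinearMap.charpoly_toMatrix f (b₁.prod b₂),
    ← Matrix.charpoly_fromBlocks_zero₂₁ _ (LinearMap.toMatrix (b₁.prod b₂) (b₁.prod b₂) f).toBlocks₁₂]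
  congr 1
  ext (s | s) (t | t)
  · simp [LinearMap.toMatrix_apply, k1]
  · rfl
  · simp [LinearMap.toMatrix_apply, k1]
  · simp [LinearMap.toMatrix_apply, k2]

variable {K : Type} [Field K] {n w j l : ℕ} {g g' : ℤ → ℕ → K} {U V W : Sp K}

theorem Stab.chi_eq (h : Stab n U) [FiniteDimensional K U] :
    chi n U = ((sh K n).toLinearMap.restrict h.mem).charpoly := dif_pos h

theorem chi_monic (U : Sp K) : (chi n U).Monic := by
  by_cases h : Stab n U
  · have := h.fin
    rw [h.chi_eq]
    exact LinearMap.charpoly_monic _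
  · rw [chi, dif_neg h]
    exact monic_one

theorem chi_bot : chi n (⊥ : Sp K) = 1 := by
  refine (chi_monic _).natDegree_eq_zero.1 ?_
  rw [Stab.bot.chi_eq, LinearMap.charpoly_natDegree, finrank_bot]

theorem Stab.natDegree_chi (h : Stab n U) : (chi n U).natDegree = finrank K U := by
  have := h.fin
  rw [h.chi_eq, LinearMap.charpoly_natDegree]

theorem chi_coeff_zero (U : Sp K) : (chi n U).coeff 0 ≠ 0 := by
  by_cases h : Stab n U
  · have := h.fin
    rw [h.chi_eq]
    intro e
    obtain ⟨m, h1, h2⟩ := (LinearMap.charpoly_constantCoeff_eq_zero_iff _).1 e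
    exact h1 (Subtype.ext ((sh K n).map_eq_zero_iff.1 (congrArg Subtype.val h2)))
  · rw [chi, dif_neg h]
    simp

theorem Rel.chi_map (h' : Rel n j W) (h : Stab n U) (e : W ≤ U) :
    chi n U = chi n W * chi n (U.map (op j (coef n j W))) := by
  have h1 := h'.stab
  have h2 := (h'.stab_map h e).1
  have := h.fin
  have := h1.fin
  have := h2.fin
  rw [h.chi_eq, h1.chi_eq, h2.chi_eq]
  refine charpoly_exact (Submodule.inclusion e)
    ((op j (coef n j W)).restrict fun x hx => Submodule.mem_map_of_mem hx)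
    (Submodule.inclusion_injective e) (fun y => ⟨fun k => ⟨⟨y, ?_⟩, rfl⟩, ?_⟩) ?_ _ _ _ rfl ?_
  · rw [h'.eq_sol]
    exact congrArg Subtype.val k
  · rintro ⟨⟨x, hx⟩, rfl⟩
    rw [h'.eq_sol] at hx
    exact Subtype.ext hx
  · rintro ⟨_, x, hx, rfl⟩
    exact ⟨⟨x, hx⟩, rfl⟩
  · exact LinearMap.ext fun y => Subtype.ext (h'.band.op_sh y).symm

theorem Stab.chi_dvd (h' : Stab n W) (h : Stab n U) (e : W ≤ U) : chi n W ∣ chi n U := by
  have := h.fin
  have := h'.fin
  rw [h.chi_eq, h'.chi_eq]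
  refine ⟨_, charpoly_exact (Submodule.inclusion e) (LinearMap.range (Submodule.inclusion e)).mkQ
    (Submodule.inclusion_injective e) (LinearMap.exact_map_mkQ_range _)
    (Submodule.mkQ_surjective _) _ _
    (Submodule.mapQ _ _ ((sh K n).toLinearMap.restrict h.mem) ?_) rfl rfl⟩
  rintro _ ⟨⟨x, hx⟩, rfl⟩
  exact ⟨⟨_, h'.mem x hx⟩, rfl⟩

/-- The matrix that moves the window one step to the left. -/
def cmat (w : ℕ) (g : ℤ → ℕ → K) (i : ℤ) : Matrix (Fin w) (Fin w) K :=
  Matrix.of fun a b => if (a : ℕ) = 0 then -g i (b + 1) else if (a : ℕ) = b + 1 then 1 else 0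

/-- The matrix that moves the window `m` steps to the left. -/
def pmat (w : ℕ) (g : ℤ → ℕ → K) : ℕ → Matrix (Fin w) (Fin w) K
  | 0 => 1
  | m + 1 => pmat w g m * cmat w g m

theorem Band.cmat_mulVec (h : Band n w g) {y : Sq K} (hy : y ∈ Sol w g) (i : ℤ) :
    (cmat w g i).mulVec (fun b => y (i + 1 + (b : ℕ))) = fun a : Fin w => y (i + (a : ℕ)) := by
  funext a
  simp only [Matrix.mulVec, dotProduct, cmat, Matrix.of_apply]
  by_cases ha : (a : ℕ) = 0
  · have k := mem_Sol.1 hy i
    rw [op_apply, Finset.sum_range_succ', h.one, one_mul, Finset.sum_range] at k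
    simp only [ha, if_true, neg_mul, Finset.sum_neg_distrib]
    rw [eq_neg_of_add_eq_zero_right k]
    refine congrArg _ (Finset.sum_congr rfl fun b _ => ?_)
    congr 2
    push_cast
    ring
  · obtain ⟨c, hc⟩ := Nat.exists_eq_succ_of_ne_zero ha
    rw [Finset.sum_eq_single (⟨c, by omega⟩ : Fin w)]
    · rw [if_neg ha, if_pos hc, one_mul, hc]
      congr 1
      push_cast
      ring
    · intro b _ hb
      rw [if_neg ha, if_neg fun k => hb (Fin.ext (by simp only; omega)), zero_mul]
    · simp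

theorem Band.pmat_mulVec (h : Band n w g) {y : Sq K} (hy : y ∈ Sol w g) : ∀ m : ℕ,
    (pmat w g m).mulVec (fun b => y (m + (b : ℕ))) = fun a : Fin w => y (a : ℕ)
  | 0 => by simp [pmat]
  | m + 1 => by
    rw [pmat, ← Matrix.mulVec_mulVec, Nat.cast_succ, h.cmat_mulVec hy, h.pmat_mulVec hy m]

theorem Band.chi_pmat (h : Band n w g) : chi n (Sol w g) = (pmat w g n).charpoly := by
  have := h.stab.fin
  let r : Sol w g →ₗ[K] Fin w → K :=
    LinearMap.pi fun b => LinearMap.proj ((n : ℤ) + (b : ℕ)) ∘ₗ (Sol w g).subtype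
  have hr : Function.Injective r := (injective_iff_map_eq_zero r).2 fun y k =>
    Subtype.ext (h.eq_zero y.2 n fun t h1 h2 => by
      obtain ⟨s, rfl⟩ := Int.le.dest h1
      exact congrFun k ⟨s, by omega⟩)
  rw [h.stab.chi_eq, ← Matrix.charpoly_mulVecLin]
  refine (charpoly_equiv (LinearEquiv.ofInjectiveOfFinrankEq r hr
    (by rw [h.finrank_sol, finrank_fin_fun])) _ _ fun y => ?_).symm
  refine (h.pmat_mulVec y.2 n).trans (funext fun a => ?_)
  change _ = y.1 (n + (a : ℕ) - n)
  rw [add_sub_cancel_left]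

theorem Band.det_cmat (h : Band n w g) (i : ℤ) : (cmat w g i).det = (-1) ^ w * g i w := by
  cases w with
  | zero => simp [h.one]
  | succ m =>
    rw [Matrix.det_succ_column _ (Fin.last m), Fin.sum_univ_succ, Finset.sum_eq_zero, add_zero]
    · have e : (cmat (m + 1) g i).submatrix (0 : Fin (m + 1)).succAbove (Fin.last m).succAbove =
          1 := by
        ext a b
        simp only [cmat, Matrix.submatrix_apply, Fin.succAbove_zero, Fin.succAbove_last,
          Matrix.of_apply, Fin.val_succ, Fin.val_castSucc, Matrix.one_apply, Fin.ext_iff,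
          Nat.succ_ne_zero, if_false, add_left_inj]
      rw [e]
      simp [cmat, pow_succ]
    · intro a _
      have : (a : ℕ) ≠ m := a.2.ne
      simp [cmat, this]

theorem Band.det_pmat (h : Band n w g) : ∀ m : ℕ,
    (pmat w g m).det = ∏ i ∈ Finset.range m, ((-1) ^ w * g i w)
  | 0 => by simp [pmat]
  | m + 1 => by rw [pmat, Matrix.det_mul, h.det_pmat m, h.det_cmat, Finset.prod_range_succ]

/-- The determinant of the shift. -/
theorem Band.chi_sol_coeff (h : Band n w g) :
    (chi n (Sol w g)).coeff 0 = (-1) ^ w * ∏ i ∈ Finset.range n, ((-1) ^ w * g i w) := by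
  rw [h.chi_pmat, ← h.det_pmat, Matrix.det_eq_sign_charpoly_coeff, Fintype.card_fin, ← mul_assoc,
    ← mul_pow, neg_one_mul, neg_neg, one_pow, one_mul]

/-- The matrix of the inverse monodromy of a recurrence of order two. -/
def mono (s c : ℕ → K) : ℕ → Matrix (Fin 2) (Fin 2) K
  | 0 => 1
  | m + 1 => mono s c m * !![s m, c m; 1, 0]

theorem Band.chi_two (h : Band n 2 g) :
    chi n (Sol 2 g) = (mono (fun i => -g i 1) (fun i => -g i 2) n).charpoly := by
  rw [h.chi_pmat]
  congr 1
  generalize n = m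
  induction m with
  | zero => rfl
  | succ m ih =>
    rw [pmat, mono, ih]
    congr 1
    ext a b
    fin_cases a <;> fin_cases b <;> simp [cmat]

theorem charpoly_two {A : Type} [AddCommGroup A] [Module K A] [FiniteDimensional K A]
    (hA : finrank K A = 2) (a c : A →ₗ[K] A) {d : K} (hd : d ≠ 0) (h : a.charpoly.coeff 0 = d)
    (e : a ∘ₗ c = d • LinearMap.id) : c.charpoly = a.charpoly := by
  let b := Module.finBasisOfFinrankEq K A hA
  have e1 := congrArg (LinearMap.toMatrix b b) e
  rw [LinearMap.toMatrix_comp b b b, map_smul, LinearMap.toMatrix_id] at e1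
  rw [← LinearMap.charpoly_toMatrix a b] at h ⊢
  rw [← LinearMap.charpoly_toMatrix c b]
  generalize LinearMap.toMatrix b b a = M, LinearMap.toMatrix b b c = N at h e1
  have h1 : M.det = d := by simpa [Matrix.charpoly_fin_two] using h
  have h2 : N = M.adjugate := by
    have k := congrArg (M.adjugate * ·) e1
    simp only [← mul_assoc, Matrix.adjugate_mul, h1, smul_mul_assoc, mul_smul_comm, one_mul,
      mul_one] at k
    exact smul_right_injective _ hd k
  rw [h2, Matrix.charpoly_fin_two, Matrix.charpoly_fin_two, Matrix.det_adjugate,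
    Matrix.adjugate_fin_two, Matrix.trace_fin_two, Matrix.trace_fin_two]
  simp [add_comm]

/-- A linear isomorphism that turns the shift into a multiple of its inverse. -/
theorem chi_map_inv (h : Stab n U) (G : Sq K ≃ₗ[K] Sq K) (d : K) (hd : d ≠ 0)
    (hG : ∀ y, sh K n (G y) = d • G ((sh K n).symm y)) :
    Stab n (U.map G.toLinearMap) ∧ (finrank K U = 2 → (chi n U).coeff 0 = d →
      chi n (U.map G.toLinearMap) = chi n U) := by
  have := h.fin
  have h1 : Stab n (U.map G.toLinearMap) := ⟨inferInstance, by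
    rintro _ ⟨y, hy, rfl⟩
    exact ⟨d • (sh K n).symm y, U.smul_mem d (h.symm_mem hy), by simp [hG]⟩⟩
  refine ⟨h1, fun h2 h3 => ?_⟩
  rw [h.chi_eq] at h3 ⊢
  rw [h1.chi_eq, ← charpoly_two h2 _
    (d • (sh K n).symm.toLinearMap.restrict fun y hy => h.symm_mem hy) hd h3
    (LinearMap.ext fun y => Subtype.ext (by simp))]
  exact charpoly_equiv (G.submoduleMap U) _ _ fun y => Subtype.ext (by simp [hG])

theorem Stab.coe_pow (h : Stab n U) (a : K) (k : ℕ) (x : U) :
    ((((sh K n).toLinearMap.restrict h.mem - a • 1) ^ k) x : Sq K) =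
      (((sh K n).toLinearMap - a • 1) ^ k) x := by
  induction k with
  | zero => rfl
  | succ k ih =>
    rw [pow_succ', pow_succ', Module.End.mul_apply, Module.End.mul_apply, ← ih]
    rfl

theorem Stab.chi_pow_iff (h : Stab n U) (a : K) : chi n U = (X - C a) ^ finrank K U ↔
    U ≤ Module.End.maxGenEigenspace (sh K n).toLinearMap a := by
  have := h.fin
  have k := LinearMap.charpoly_eq_X_pow_iff ((sh K n).toLinearMap.restrict h.mem - a • 1)
  rw [LinearMap.charpoly_sub_smul, ← h.chi_eq] at k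
  refine Iff.trans ⟨fun e => by simp [e], fun e => ?_⟩ (k.trans ⟨fun e y hy => ?_, fun e y => ?_⟩)
  · have k1 := congrArg (fun p => Polynomial.comp p (X - C a)) e
    simpa [comp_assoc] using k1
  · obtain ⟨m, hm⟩ := e ⟨y, hy⟩
    exact (Module.End.mem_maxGenEigenspace _ _ _).2
      ⟨m, (h.coe_pow a m ⟨y, hy⟩).symm.trans (congrArg Subtype.val hm)⟩
  · obtain ⟨m, hm⟩ := (Module.End.mem_maxGenEigenspace _ _ _).1 (e y.2)
    exact ⟨m, Subtype.ext ((h.coe_pow a m y).trans hm)⟩

/-- The generalized eigenspace. -/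
theorem Stab.existsUnique_gen (h : Stab n U) (a : K) (hj : (chi n U).rootMultiplicity a = j) :
    ∃! W, W ≤ U ∧ Stab n W ∧ finrank K W = j ∧ chi n W = (X - C a) ^ j := by
  have := h.fin
  have h1 : Stab n (U ⊓ Module.End.maxGenEigenspace (sh K n).toLinearMap a) :=
    ⟨inferInstance, fun y hy => ⟨h.mem y hy.1,
      Module.End.mapsTo_maxGenEigenspace_of_comm (Commute.refl _) a hy.2⟩⟩
  have h2 : finrank K ↥(U ⊓ Module.End.maxGenEigenspace (sh K n).toLinearMap a) = j := by
    rw [← hj, h.chi_eq, ← LinearMap.finrank_maxGenEigenspace_eq, Module.End.maxGenEigenspace,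
      U.inf_genEigenspace _ h.mem, Submodule.finrank_map_subtype_eq]
  refine ⟨_, ⟨inf_le_left, h1, h2, h2 ▸ (h1.chi_pow_iff a).2 inf_le_right⟩,
    fun W ⟨k1, k2, k3, k4⟩ => ?_⟩
  exact Submodule.eq_of_le_of_finrank_eq (le_inf k1 ((k2.chi_pow_iff a).1 (k3 ▸ k4)))
    (k3.trans h2.symm)

/-- The eigenspace of a relevant space of dimension `n + 1` with a single eigenvalue. -/
theorem Rel.exists_apex (hn : 0 < n) (h : Rel n (n + 1) U) (a : K) (ha : chi n U = (X - C a) ^ (n + 1)) :
    ∃ c : Sp K, c < U ∧ (∀ W, W ≤ c → Stab n W) ∧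
      ∀ W, W ≤ U → Stab n W → W ≠ ⊥ → W ⊓ c ≠ ⊥ := by
  have := h.stab.fin
  have hm : ∀ y, y ∈ Module.End.eigenspace (sh K n).toLinearMap a ↔ sh K n y = a • y :=
    fun y => Module.End.mem_eigenspace_iff
  refine ⟨U ⊓ Module.End.eigenspace (sh K n).toLinearMap a, inf_lt_left.2 fun e => ?_,
    fun W hW => ⟨Submodule.finiteDimensional_of_le (hW.trans inf_le_left), fun y hy => ?_⟩,
    fun W h1 h2 h3 => ?_⟩
  · obtain ⟨y, k1, k2⟩ := h.band.exists_sol 0 (Pi.single (n : ℤ) 1) 0
    have k3 := (hm y).1 (e (h.eq_sol.ge k1))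
    have k4 : y n = 1 := by rw [k2 n (by omega) (by omega), Pi.single_eq_same]
    have k5 : y 0 = 0 := by rw [k2 0 le_rfl (by omega), Pi.single_eq_of_ne (by omega)]
    have k6 := congrFun k3 n
    rw [sh_apply, sub_self, k5, Pi.smul_apply, k4, smul_eq_mul, mul_one] at k6
    rw [← k6, zero_smul, (sh K n).map_eq_zero_iff] at k3
    simp [k3] at k4
  · rw [(hm y).1 (hW hy).2]
    exact W.smul_mem a hy
  · obtain ⟨y, hy, y0⟩ := (Submodule.ne_bot_iff W).1 h3
    obtain ⟨m, hm'⟩ := (Module.End.mem_maxGenEigenspace _ _ _).1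
      ((h.stab.chi_pow_iff a).1 (h.finrank_eq ▸ ha) (h1 hy))
    induction m generalizing y with
    | zero => exact absurd hm' y0
    | succ m ih =>
      by_cases k : sh K n y = a • y
      · exact (Submodule.ne_bot_iff _).2 ⟨y, ⟨hy, h1 hy, (hm y).2 k⟩, y0⟩
      · rw [pow_succ, Module.End.mul_apply] at hm'
        exact ih _ (W.sub_mem (h2.mem y hy) (W.smul_mem a hy)) (sub_ne_zero.2 k) hm'

end Pool.Agent.Lib.MP_fc2ced_ag.K
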