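import Pool.Agent.Lib.MP_fc2ced_ag.K.BlkA
import Pool.Agent.Lib.MP_fc2ced_ag.K.BlkB
import Pool.Agent.Lib.MP_fc2ced_ag.K.BlkS
import Pool.Agent.Lib.MP_fc2ced_ag.K.SeqB

/-! The blocks of coefficients of recurrences of order two. -/

namespace Pool.Agent.Lib.MP_fc2ced_ag.K

noncomputable section

variable {k : Type} [Field k] {F : Type} [Field F] [CharZero F] {χ : Chr k F}

open Pt

variable (k) in
/-- The coefficients `s 1, ..., s (n - 1)` and `c 0, ..., c (n - 1)`, the latter nonzero. -/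
@[reducible] def seqs (n : ℕ) : Pt k where
  X K := (ℕ → K) × (ℕ → K)
  L _ x := x.1 0 = 0 ∧ (∀ i, n ≤ i → x.1 i = 0 ∧ x.2 i = 0) ∧ ∀ i < n, x.2 i ≠ 0
  R _ _ φ x y := (∀ i, φ (x.1 i) (y.1 i)) ∧ ∀ i, φ (x.2 i) (y.2 i)
  f _ x := ∑ i ∈ Finset.range n, x.1 i
  func _ _ φ _ _ _ _ _ _ h h' := Prod.ext (funext fun i => φ.func (h.1 i) (h'.1 i))
    (funext fun i => φ.func (h.2 i) (h'.2 i))
  id _ _ _ _ _ := by simp [Prod.ext_iff, funext_iff]
  comp _ _ _ φ φ' x z a b := by
    refine ⟨fun ⟨h, h'⟩ => ?_, fun ⟨y, _, h, h'⟩ =>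
      ⟨fun i => ⟨_, h.1 i, h'.1 i⟩, fun i => ⟨_, h.2 i, h'.2 i⟩⟩⟩
    choose s h1 h2 using h
    choose c h3 h4 using h'
    exact ⟨(s, c), ⟨(h1 0).eq_of φ.zero a.1, fun i hi => ⟨(h1 i).eq_of φ.zero (a.2.1 i hi).1,
      (h3 i).eq_of φ.zero (a.2.1 i hi).2⟩, fun i hi => (h4 i).ne_zero (b.2.2 i hi)⟩,
      ⟨h1, h3⟩, h2, h4⟩
  reg _ _ _ _ _ _ _ h := Place.sum fun i _ => h.1 i
  fin _ x a := by
    classical
    refine ⟨insert 0 ((Finset.range n).image x.1 ∪ (Finset.range n).image x.2),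
      fun _ _ _ e _ _ h => ⟨fun i => e (x.1 i) ?_ ▸ h.1 i, fun i => e (x.2 i) ?_ ▸ h.2 i⟩⟩
    · by_cases hi : i < n
      · exact Finset.mem_insert_of_mem (Finset.mem_union_left _
          (Finset.mem_image_of_mem _ (Finset.mem_range.2 hi)))
      · simp [(a.2.1 i (not_lt.1 hi)).1]
    · by_cases hi : i < n
      · exact Finset.mem_insert_of_mem (Finset.mem_union_right _
          (Finset.mem_image_of_mem _ (Finset.mem_range.2 hi)))
      · simp [(a.2.1 i (not_lt.1 hi)).2]

/-- The reversal of the coefficients. -/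
def revs (n : ℕ) ⦃K : Fld k⦄ (x : (seqs k n).X K) : (seqs k n).X K :=
  (fun i => if 0 < i ∧ i < n then x.1 (n - i) else 0, fun i => if i < n then x.2 (n - 1 - i) else 0)

theorem Place.mono {K K' : Fld k} {φ : Place K K'} {s c : ℕ → K} {s' c' : ℕ → K'}
    (hs : ∀ i, φ (s i) (s' i)) (hc : ∀ i, φ (c i) (c' i)) (n : ℕ) (i j : Fin 2) :
    φ (mono s c n i j) (mono s' c' n i j) := by
  induction n generalizing i j with
  | zero => fin_cases i <;> fin_cases j <;> simp [MP_fc2ced_ag.K.mono, φ.one, φ.zero]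
  | succ n ih =>
    simp only [MP_fc2ced_ag.K.mono, Matrix.mul_apply, Fin.sum_univ_two]
    refine φ.add (φ.mul (ih _ _) ?_) (φ.mul (ih _ _) ?_) <;> fin_cases j
    exacts [hs n, hc n, φ.one, φ.zero]

theorem det_mono {K : Type} [Field K] (s c : ℕ → K) (n : ℕ) :
    (mono s c n).det = ∏ i ∈ Finset.range n, -c i := by
  induction n with
  | zero => simp [mono]
  | succ n ih => simp [mono, ih, Finset.prod_range_succ, Matrix.det_fin_two_of]

section
variable {K : Type} [Field K] {s c s' c' : ℕ → K}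

theorem mono_succ' (s c : ℕ → K) (n : ℕ) : mono s c (n + 1) =
    !![s 0, c 0; 1, 0] * mono (fun i => s (i + 1)) (fun i => c (i + 1)) n := by
  induction n with
  | zero => simp [mono]
  | succ n ih => rw [mono, ih, mono, Matrix.mul_assoc]

theorem mono_congr {n : ℕ} (hs : ∀ i < n, s i = s' i) (hc : ∀ i < n, c i = c' i) :
    mono s c n = mono s' c' n := by
  induction n with
  | zero => rfl
  | succ n ih =>
    rw [mono, mono, ih (fun i h => hs i (by omega)) fun i h => hc i (by omega),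
      hs n (by omega), hc n (by omega)]

/-- The reflection in the antidiagonal. -/
def arefl (A : Matrix (Fin 2) (Fin 2) K) : Matrix (Fin 2) (Fin 2) K := !![A 1 1, A 0 1; A 1 0, A 0 0]

theorem arefl_mul (A B : Matrix (Fin 2) (Fin 2) K) : arefl (A * B) = arefl B * arefl A := by
  ext i j
  fin_cases i <;> fin_cases j <;> simp [arefl, Matrix.mul_apply, Fin.sum_univ_two] <;> ring

theorem mono_rev {n : ℕ} (hs : ∀ i ≤ n, s' i = s (n - i)) (hc : ∀ i < n, c' i = c (n - 1 - i)) :
    mono s' c' n * !![1, s' n; 0, 1] = arefl (mono s c n * !![1, s n; 0, 1]) := by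
  induction n generalizing s' c' with
  | zero => simp [mono, arefl, hs 0 le_rfl]
  | succ n ih =>
    have e : !![s n, c n; 1, 0] * !![1, s (n + 1); 0, 1] =
        !![1, s n; 0, 1] * !![0, c n; 1, s (n + 1)] := by
      simp [add_comm]
    rw [mono_succ', Matrix.mul_assoc, ih (s' := fun i => s' (i + 1)) (c' := fun i => c' (i + 1))
      (fun i h => (hs _ (by omega)).trans (congrArg s (by omega)))
      fun i h => (hc _ (by omega)).trans (congrArg c (by omega)), mono, Matrix.mul_assoc, e,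
      ← Matrix.mul_assoc, arefl_mul (_ * _), hs 0 (by omega), hc 0 (by omega)]
    simp [arefl]

end

theorem revs_reg (n : ℕ) : (seqs k n).Reg (seqs k n) (revs n) := by
  refine ⟨fun _ x h => ⟨by simp [revs], fun i hi => ⟨if_neg (by omega), if_neg (by omega)⟩,
    fun i hi => (if_pos hi).trans_ne (h.2.2 _ (by omega))⟩,
    fun _ _ φ x y _ _ r => ⟨fun i => ?_, fun i => ?_⟩⟩ <;> simp only [revs] <;> split_ifs
  exacts [r.1 _, φ.zero, r.2 _, φ.zero]

theorem revs_spec (n : ℕ) {K : Fld k} (x : (seqs k n).X K) (h : (seqs k n).L x) :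
    revs n (revs n x) = x ∧ (seqs k n).f (revs n x) = (seqs k n).f x ∧
      mono (revs n x).1 (revs n x).2 n = !![mono x.1 x.2 n 1 1, mono x.1 x.2 n 0 1;
        mono x.1 x.2 n 1 0, mono x.1 x.2 n 0 0] := by
  have hn := (h.2.1 n le_rfl).1
  have h1 : ∀ i ≤ n, (revs n x).1 i = x.1 (n - i) := fun i hi => by
    simp only [revs]
    split_ifs with e
    · rfl
    · rcases (by omega : n - i = n ∨ n - i = 0) with e | e <;> rw [e]
      exacts [hn.symm, h.1.symm]
  have h2 : (revs n x).1 n = 0 := if_neg (by omega)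
  refine ⟨Prod.ext (funext fun i => ?_) (funext fun i => ?_), ?_, ?_⟩
  · change (if _ then _ else _) = _
    split_ifs with e
    · exact (h1 _ (by omega)).trans (congrArg x.1 (by omega))
    · rcases (by omega : i = 0 ∨ n ≤ i) with e | e
      exacts [e ▸ h.1.symm, (h.2.1 i e).1.symm]
  · change (if _ then _ else _) = _
    split_ifs with e
    · exact (if_pos (by omega)).trans (congrArg x.2 (by omega))
    · exact (h.2.1 i (by omega)).2.symm
  · have e := Finset.sum_range_reflect x.1 (n + 1)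
    rw [← Finset.sum_congr rfl fun i hi => (h1 i (by simpa [Nat.lt_succ_iff] using hi)).trans
      (congrArg x.1 (show n - i = n + 1 - 1 - i from rfl)), Finset.sum_range_succ,
      Finset.sum_range_succ, h2, hn, add_zero, add_zero] at e
    exact e
  · have e := mono_rev (c := x.2) (c' := (revs n x).2) h1 fun i hi => if_pos hi
    rwa [h2, hn, ← Matrix.one_fin_two, mul_one, mul_one] at e

variable (k) in
/-- The block of coefficients. -/
@[reducible] def cb (n : ℕ) : Blk k where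
  S := seqs k n
  g _ x := mono x.1 x.2 n
  ι := revs n
  rg i j _ _ _ _ _ _ _ h := Place.mono h.1 h.2 n i j
  det _ x h := by
    rw [det_mono]
    exact Finset.prod_ne_zero_iff.2 fun i hi => neg_ne_zero.2 (h.2.2 i (Finset.mem_range.1 hi))
  reg := revs_reg n
  inv _ x h := (revs_spec n x h).1
  f _ x h := (revs_spec n x h).2.1
  gι _ x h := (revs_spec n x h).2.2

theorem cb_one : (cb k 1).Big χ 1 ∧ (cb k 1).Small χ (-1) := by
  refine ⟨UActs.of_fix fun _ x h => Prod.ext (funext fun i => ?_) (funext fun i => ?_),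
    UActs.of_empty fun _ x h => by simpa [mono] using h.2.1⟩
  · refine (if_neg (by omega)).trans ?_
    rcases i with _ | i
    exacts [h.1.1.symm, (h.1.2.1 _ (by omega)).1.symm]
  · rcases i with _ | i
    exacts [rfl, (h.1.2.1 _ (by omega)).2.symm]

theorem mono_two {K : Type} [Field K] {s : ℕ → K} (h : s 0 = 0) (c : ℕ → K) :
    mono s c 2 = !![c 0, 0; s 1, c 1] := by simp [mono, h]

theorem revs_two {K : Fld k} {x : (seqs k 2).X K} (h : (seqs k 2).L x) :
    revs 2 x = (x.1, fun i => if i = 0 then x.2 1 else if i = 1 then x.2 0 else 0) := by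
  refine Prod.ext (funext fun i => ?_) (funext fun i => ?_) <;> rcases i with _ | _ | i
  exacts [h.1.symm, rfl, (h.2.1 _ (by omega)).1.symm, rfl, rfl, rfl]

theorem cb_two (hχ : χ.ψ 1 ≠ 1) : (cb k 2).Big χ (-1) ∧ (cb k 2).Small χ 1 := by
  have g10 : ∀ ⦃K : Fld k⦄ (x : (seqs k 2).X K), x.1 0 = 0 → mono x.1 x.2 2 1 0 = x.1 1 :=
    fun _ x h => by rw [mono_two h]; rfl
  have self : ∀ ⦃K : Fld k⦄ (x : (seqs k 2).X K), (seqs k 2).L x →
      (fun i => if i = 0 then x.2 0 else if i = 1 then x.2 1 else 0) = x.2 :=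
    fun _ x h => funext fun i => by
      rcases i with _ | _ | i
      exacts [rfl, rfl, (h.2.1 _ (by omega)).2.symm]
  refine ⟨UActs.comp (UActs.of_fix (a := fun _ x => x) fun _ _ _ => rfl)
    (UActs.of_swap (u := fun _ x => x.2 0) (v := fun _ x => x.2 1) (κ := fun _ x => -1 / x.1 1)
      (mv := fun _ x s t => (x.1, fun i => if i = 0 then s else if i = 1 then t else 0))
      hχ (cb k 2).regQ_big ⟨fun _ _ _ _ _ _ _ r => r.2 0, fun _ _ _ _ _ _ _ r => r.2 1,
        fun _ _ φ _ y _ h r => φ.one.neg.div (r.1 1) (g10 y h.1.1 ▸ h.2),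
        fun _ x h => div_ne_zero (neg_ne_zero.2 one_ne_zero) (g10 x h.1.1 ▸ h.2),
        fun _ x h => Prod.ext rfl (self x h.1), fun _ x s t h e => ?_,
        fun _ _ φ x y s t s' t' _ _ r hs ht _ => ⟨r.1, fun i => ?_⟩⟩ fun _ x s t h e => ?_)
    (fun _ _ h => ⟨h, rfl⟩) (fun _ x h => revs_two h.1) (one_mul _).symm,
    UActs.of_fix fun _ x h => (revs_two h.1).trans (Prod.ext rfl ?_)⟩
  · have e0 : s * t ≠ 0 := e ▸ mul_ne_zero (h.1.2.2 0 (by omega)) (h.1.2.2 1 (by omega))
    have e1 : x.1 1 ≠ 0 := g10 x h.1.1 ▸ h.2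
    refine ⟨⟨⟨h.1.1, fun i hi => ⟨(h.1.2.1 i hi).1, (if_neg (by omega)).trans (if_neg (by omega))⟩,
      fun i hi => ?_⟩, ?_⟩, rfl, rfl, rfl, ?_, Prod.ext rfl (self x h.1)⟩
    · rcases i with _ | _ | i
      exacts [left_ne_zero_of_mul e0, right_ne_zero_of_mul e0, by omega]
    · change mono x.1 _ 2 1 0 ≠ 0
      rw [mono_two h.1.1]
      exact e1
    · simp only [mono_two h.1.1]
      simp
      ring
  · dsimp only
    split_ifs
    exacts [hs, ht, φ.zero]
  · simp [Blk.qB, mono_two h.1.1, e]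
  · have e : x.2 0 = x.2 1 := by simpa [mono_two h.1.1] using h.2.2
    rw [← self x h.1]
    simp [e]

theorem cb_step {n : ℕ} (hn : 0 < n) (c : F) :
    ((cb k n).step.Big χ c → (cb k (n + 2)).Big χ c) ∧
      ((cb k n).step.Small χ c → (cb k (n + 2)).Small χ c) := by
  refine Blk.of_iso (b := (cb k n).step) (b' := cb k (n + 2))
    (e := fun _ x => (((x.2 0, x.1 1), (x.1 (n + 1), x.2 (n + 1))),
      (fun i => if 0 < i ∧ i < n then x.1 (i + 1) else 0, fun i => if i < n then x.2 (i + 1) else 0)))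
    (e' := fun _ y => (fun i => if i = 1 then y.1.1.2 else if i = n + 1 then y.1.2.1 else y.2.1 (i - 1),
      fun i => if i = 0 then y.1.1.1 else if i = n + 1 then y.1.2.2 else y.2.2 (i - 1)))
    ⟨fun _ x h => ⟨⟨⟨⟨trivial, trivial⟩, trivial, trivial⟩, by simp,
      fun i hi => ⟨if_neg (by omega), if_neg (by omega)⟩,
      fun i hi => (if_pos hi).trans_ne (h.2.2 _ (by omega))⟩, h.2.2 _ (by omega), h.2.2 _ (by omega)⟩,
      fun _ _ φ x y _ _ r => ⟨⟨⟨r.2 _, r.1 _⟩, r.1 _, r.2 _⟩, fun i => ?_, fun i => ?_⟩⟩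
    ⟨fun _ y h => ⟨by simpa using h.1.2.1, fun i hi =>
      ⟨(if_neg (by omega)).trans ((if_neg (by omega)).trans (h.1.2.2.1 _ (by omega)).1),
        (if_neg (by omega)).trans ((if_neg (by omega)).trans (h.1.2.2.1 _ (by omega)).2)⟩,
      fun i hi => ?_⟩, fun _ _ φ x y _ _ r => ⟨fun i => ?_, fun i => ?_⟩⟩
    (fun _ x h => ⟨Prod.ext (funext fun i => ?_) (funext fun i => ?_), ?_, ?_, ?_⟩)
    (fun _ y h => ?_) c
  · dsimp only
    split_ifs
    exacts [r.1 _, φ.zero]
  · dsimp only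
    split_ifs
    exacts [r.2 _, φ.zero]
  · dsimp only
    split_ifs
    exacts [h.2.1, h.2.2, h.1.2.2.2 _ (by omega)]
  · dsimp only
    split_ifs
    exacts [r.1.1.2, r.1.2.1, r.2.1 _]
  · dsimp only
    split_ifs
    exacts [r.1.1.1, r.1.2.2, r.2.2 _]
  · dsimp only
    split_ifs with h1 h2 h3
    · rw [h1]
    · rw [h2]
    · exact congrArg x.1 (by omega)
    · rcases (by omega : i = 0 ∨ n + 2 ≤ i) with e | e
      exacts [e ▸ h.1.symm, (h.2.1 i e).1.symm]
  · dsimp only
    split_ifs with h1 h2 h3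
    · rw [h1]
    · rw [h2]
    · exact congrArg x.2 (by omega)
    · exact (h.2.1 i (by omega)).2.symm
  · obtain ⟨m, rfl⟩ : ∃ m, n = m + 1 := ⟨n - 1, by omega⟩
    change !![0, x.2 0; 1, 0] * !![1, x.1 1; 0, 1] *
      mono (fun i => if 0 < i ∧ i < m + 1 then x.1 (i + 1) else 0)
        (fun i => if i < m + 1 then x.2 (i + 1) else 0) (m + 1) * !![1, x.1 (m + 1 + 1); 0, 1] *
      !![0, x.2 (m + 1 + 1); 1, 0] = mono x.1 x.2 (m + 1 + 1) * !![x.1 (m + 1 + 1), x.2 (m + 1 + 1); 1, 0]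
    rw [mono_succ' x.1, mono_succ', mono_succ', h.1, if_neg (by omega), if_pos (by omega),
      mono_congr (s' := fun i => x.1 (i + 1 + 1)) (c' := fun i => x.2 (i + 1 + 1))
        (fun i hi => if_pos (by omega)) fun i hi => if_pos (by omega)]
    generalize mono (fun i => x.1 (i + 1 + 1)) (fun i => x.2 (i + 1 + 1)) m = A
    rw [Matrix.eta_fin_two A]
    simp only [Matrix.mul_fin_two]
    congr 1
    ext i j
    fin_cases i <;> fin_cases j <;> simp [add_comm]
  · obtain ⟨m, rfl⟩ : ∃ m, n = m + 1 := ⟨n - 1, by omega⟩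
    change ∑ i ∈ Finset.range (m + 1), (if 0 < i ∧ i < m + 1 then x.1 (i + 1) else 0) + x.1 1 +
      x.1 (m + 1 + 1) = ∑ i ∈ Finset.range (m + 1 + 1 + 1), x.1 i
    rw [Finset.sum_range_succ x.1, Finset.sum_range_succ' x.1, Finset.sum_range_succ',
      Finset.sum_range_succ', h.1, if_neg (by omega), add_zero, add_zero,
      Finset.sum_congr rfl fun i hi => if_pos ⟨i.succ_pos, by simpa using hi⟩]
  · refine Prod.ext (Prod.ext (Prod.ext (by simp [revs, Blk.stepI]) (by simp [revs, Blk.stepI]))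
      (Prod.ext (by simp [revs, Blk.stepI]) (by simp [revs, Blk.stepI])))
      (Prod.ext (funext fun i => ?_) (funext fun i => ?_))
    · refine if_ctx_congr Iff.rfl (fun hi => ?_) fun _ => rfl
      exact ((if_pos (by omega)).trans (congrArg x.1 (by omega))).trans (if_pos (by omega)).symm
    · refine if_ctx_congr Iff.rfl (fun hi => ?_) fun _ => rfl
      exact ((if_pos (by omega)).trans (congrArg x.2 (by omega))).trans (if_pos (by omega)).symm
  · refine Prod.ext (Prod.ext rfl (Prod.ext (by simp [hn.ne']) (by simp)))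
      (Prod.ext (funext fun i => ?_) (funext fun i => ?_))
    · dsimp only
      by_cases hi : 0 < i ∧ i < n
      · rw [if_pos hi, if_neg (by omega), if_neg (by omega), Nat.add_sub_cancel]
      · rw [if_neg hi]
        rcases (by omega : i = 0 ∨ n ≤ i) with e | e
        exacts [e ▸ h.1.2.1.symm, (h.1.2.2.1 i e).1.symm]
    · dsimp only
      by_cases hi : i < n
      · rw [if_pos hi, if_neg (by omega), if_neg (by omega), Nat.add_sub_cancel]
      · rw [if_neg hi, (h.1.2.2.1 i (by omega)).2]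

theorem cb_big (hχ : χ.ψ 1 ≠ 1) {n : ℕ} (hn : 0 < n) : (cb k n).Big χ ((-1) ^ (n + 1)) := by
  have key (m : ℕ) : (cb k (m + 1)).Big χ ((-1) ^ m) ∧ (cb k (m + 1)).Small χ (-(-1) ^ m) := by
    induction m using Nat.twoStepInduction with
    | zero => simpa only [pow_zero] using cb_one
    | one => simpa only [pow_one, neg_neg] using cb_two hχ
    | more m ih _ =>
      have hc : ((-1 : F) ^ m) * (-1) ^ m = 1 := by rw [← mul_pow, neg_mul_neg, one_mul, one_pow]
      rw [pow_add, neg_one_sq, mul_one]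
      exact ⟨(cb_step m.succ_pos _).1 (UActs.of_closed (cb k (m + 1)).step.regQ_big
        (cb k (m + 1)).step.invol_big hc (cb k (m + 1)).closed_inner (Blk.big_small hχ hc ih.2)
        (Blk.big_big hχ ih.1) fun _ x h e =>
          (congrFun (congrFun ((cb k (m + 1)).gι x.2 h.1.1.2) 1) 0).trans e),
        (cb_step m.succ_pos _).2 (Blk.small_step hχ hc ih.1 ih.2)⟩
  obtain ⟨m, rfl⟩ : ∃ m, n = m + 1 := ⟨n - 1, by omega⟩
  rw [add_assoc, pow_add, one_add_one_eq_two, neg_one_sq, mul_one]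
  exact (key m).1

end

end Pool.Agent.Lib.MP_fc2ced_ag.K
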