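import Pool.Agent.Lib.MP_fc2ced_ag.K.Var

/-! Morphisms given by maps on points: criteria, composition, bijectivity, localization
sequences, tensor products, stratifications. -/

open CategoryTheory Function Polynomial
open PiTensorProduct renaming tprod → tp
open scoped TensorProduct

namespace Pool.Agent.Lib.MP_fc2ced_ag.K

noncomputable section

variable {k : Type} [Field k] {F : Type} [Field F] {χ : Chr k F}

open Ob

theorem bij_of_basis' {V W ι κ : Type} [AddCommGroup V] [Module F V] [AddCommGroup W] [Module F W]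
    (b : Module.Basis ι F V) (b' : Module.Basis κ F W) (e : ι ≃ κ) (f : V →ₗ[F] W)
    (h : ∀ i, ∃ u : F, u ≠ 0 ∧ f (b i) = u • b' (e i)) : Bijective f := by
  choose u h1 h2 using h
  exact bij_of_basis b (b'.isUnitSMul (w := fun j => u (e.symm j)) fun _ => (h1 _).isUnit) e f
    fun i => by rw [h2, Module.Basis.isUnitSMul_apply, e.symm_apply_apply]

namespace Chr

variable {K K' : Fld k} {α : Type}

theorem sum_rt (s : Finset α) {y b : α → K} (h : ∀ a, y a ^ χ.p - y a = b a) :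
    (∑ a ∈ s, y a) ^ χ.p - ∑ a ∈ s, y a = ∑ a ∈ s, b a := by
  have := χ.charFld K
  simp only [sum_pow_char, ← Finset.sum_sub_distrib, h]

theorem sum_fix (s : Finset α) {z : α → K} (h : ∀ a, z a ^ χ.p = z a) :
    (∑ a ∈ s, z a) ^ χ.p = ∑ a ∈ s, z a := by
  have := χ.charFld K
  simp only [sum_pow_char, h]

theorem ev_sum (s : Finset α) {z : α → K} (h : ∀ a, z a ^ χ.p = z a) :
    χ.ev (∑ a ∈ s, z a) = ∏ a ∈ s, χ.ev (z a) := by
  classical
  induction s using Finset.induction_on with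
  | empty => simp
  | insert a s ha ih =>
    rw [Finset.sum_insert ha, Finset.prod_insert ha, ev_add (h a) (sum_fix s h), ih]

variable [Fintype α]

theorem rt_fix (b : α → K) : (χ.rt (∑ a, b a) - ∑ a, χ.rt (b a)) ^ χ.p =
    χ.rt (∑ a, b a) - ∑ a, χ.rt (b a) :=
  sub_fix ((χ.rt_spec _).trans (sum_rt _ fun _ => χ.rt_spec _).symm)

theorem ev_rt_ne (b : α → K) : χ.ev (χ.rt (∑ a, b a) - ∑ a, χ.rt (b a)) ≠ 0 :=
  ev_ne_zero (rt_fix b)

theorem cf_sum {φ : Place K K'} {b : α → K} {b' : α → K'} (h : ∀ a, φ (b a) (b' a)) :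
    χ.ev (χ.rt (∑ a, b a) - ∑ a, χ.rt (b a)) * ∏ a, χ.cf φ (b a) =
      χ.cf φ (∑ a, b a) * χ.ev (χ.rt (∑ a, b' a) - ∑ a, χ.rt (b' a)) := by
  choose y h1 h2 using fun a => exists_rel (χ.rt_spec (b a)) (h a)
  have h3 : φ (∑ a, b a) (∑ a, b' a) := Place.sum fun a _ => h a
  obtain ⟨w, h4, h5⟩ := exists_rel (χ.rt_spec _) h3
  have h6 : ∀ a, (y a - χ.rt (b' a)) ^ χ.p = y a - χ.rt (b' a) :=
    fun a => sub_fix ((h2 a).trans (χ.rt_spec _).symm)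
  simp only [fun a => cf_eq (h a) (h1 a)]
  rw [cf_eq h3 h4, ← ev_rel (rt_fix b) (h4.sub (Place.sum fun a _ => h1 a)), ← ev_sum _ h6,
    ← ev_add (sub_fix (h5.trans (sum_rt _ h2).symm)) (sum_fix _ h6),
    ← ev_add (sub_fix (h5.trans (χ.rt_spec _).symm)) (rt_fix b'), Finset.sum_sub_distrib,
    sub_add_sub_cancel, sub_add_sub_cancel]

end Chr

namespace Pt

variable {S S' S'' P P' : Pt k} {e e₁ : ∀ ⦃K⦄, S.X K → S'.X K} {e' : ∀ ⦃K⦄, S'.X K → S''.X K}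
  {T T' : S.Cond}

theorem basis_cl {K : Fld k} (x : S.Live K) : S.cl F x.1 = Finsupp.basisSingleOne x := cl_live S x

theorem prod_Dd {K K' : Fld k} {φ : Place K K'} {x : (S.prod P).X K} (hx : (S.prod P).L x)
    (h : (S.prod P).Dd φ x) : S.Dd φ x.1 ∨ P.Dd φ x.2 := by
  rcases R_or_Dd φ x.1 with ⟨y, h1, h2⟩ | l
  · rcases R_or_Dd φ x.2 with ⟨y', h3, h4⟩ | l
    · exact absurd ⟨h2, h4⟩ (h hx (y, y') ⟨h1, h3⟩)
    · exact .inr l
  · exact .inl l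

open Classical in
variable (F) in
/-- The class of a chosen preimage. -/
def pre {K : Fld k} {β : Type} (g : S.X K → β) (y : β) : S.Live K →₀ F :=
  if h : ∃ x, S.L x ∧ g x = y then S.cl F h.choose else 0

theorem pre_spec {K : Fld k} {β : Type} {g : S.X K → β} {y : β} (h : ∃ x, S.L x ∧ g x = y) :
    ∃ x, S.L x ∧ g x = y ∧ pre F g y = S.cl F x :=
  ⟨_, h.choose_spec.1, h.choose_spec.2, dif_pos h⟩

/-- The closure of a locally closed subset. -/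
theorem exists_closure (h : S.Conv T) : ∃ C : S.Cond, S.Closed C ∧
    (S.Closed fun _ x => C x ∧ ¬ T x) ∧ ∀ ⦃K⦄ (x : S.X K), S.L x → T x → C x := by
  have c : S.Closed fun K y => ∃ (K₀ : Fld k) (φ : Place K₀ K) (x : S.X K₀),
      S.L x ∧ T x ∧ S.R φ x y := fun _ _ φ' y z hy hz r ⟨K₀, φ, x, h1, h2, h3⟩ =>
    ⟨K₀, φ'.comp φ, x, h1, h2, (S.comp φ φ' x z h1 hz).2 ⟨y, hy, h3, r⟩⟩
  exact ⟨_, c, fun _ _ φ' y z hy hz r k => ⟨c φ' y z hy hz r k.1, fun l => by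
    obtain ⟨⟨K₀, φ, x, h1, h2, h3⟩, h4⟩ := k
    exact h4 (h φ φ' x y z h1 hy hz h3 r h2 l)⟩,
    fun K x hx k => ⟨K, .id K, x, hx, k, (S.id x x hx hx).2 rfl⟩⟩

/-- A proper regular map. -/
theorem IsMap.of_proper (h : S.Reg S' e) (f : ∀ ⦃K⦄ (x : S.X K), S.L x → S'.f (e x) = S.f x)
    (pr : ∀ ⦃K K'⦄ (φ : Place K K') (x : S.X K) (z : S'.X K'), S.L x → S'.L z → S'.R φ (e x) z →
      ∃ y, S.L y ∧ S.R φ x y) : IsMap S S' e :=
  ⟨fun _ x hx _ => f x hx,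
    fun _ _ φ x y hx hy r => .of_R (h.live x hx) (h.live y hy) (h.reg φ x y hx hy r),
    fun _ _ φ x hx hd _ z hz r => (pr φ x z hx hz r).elim fun y hy => hd hx y hy.1 hy.2⟩

/-- A regular map with a regular left inverse is proper if the image is closed; here the inverse
is defined on all of the target and two-sided. -/
theorem IsMap.of_inv (h : S.Reg S' e) {g : ∀ ⦃K⦄, S'.X K → S.X K} (h' : S'.Reg S g)
    (f : ∀ ⦃K⦄ (x : S.X K), S.L x → S'.f (e x) = S.f x)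
    (l : ∀ ⦃K⦄ (x : S.X K), S.L x → g (e x) = x) : IsMap S S' e :=
  .of_proper h f fun _ _ φ x z hx hz r =>
    ⟨g z, h'.live z hz, l x hx ▸ h'.reg φ _ z (h.live x hx) hz r⟩

/-- A map that is regular and proper on the open set of points with live image. -/
theorem IsMap.of_open (op : S.Open fun _ x => S'.L (e x))
    (h : IsMap (S.restr _ op.conv) S' e) : IsMap S S' e := by
  refine ⟨fun _ x hx h' => h.f x ⟨hx, h'⟩ h', fun _ _ φ x y hx hy r => ?_,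
    fun _ _ φ x hx hd h' => h.dead φ x ⟨hx, h'⟩ (fun _ y hy => hd hx y hy.1) h'⟩
  by_cases h' : S'.L (e y)
  · exact h.sp φ x y ⟨hx, op φ x y hx hy r h'⟩ ⟨hy, h'⟩ r
  · exact ⟨fun k => absurd k h', fun _ k => h.dead φ x ⟨hx, k⟩
      (fun _ z hz r' => h' (S.func φ x z y hx hz.1 hy r' r ▸ hz.2)) k⟩

theorem isMap_id : IsMap S S fun _ x => x :=
  ⟨fun _ _ _ _ => rfl, fun _ _ _ _ _ => .of_R, fun _ _ _ _ _ h => h⟩

theorem IsMap.hom_id {e₀ : ∀ ⦃K⦄, S.X K → S.X K} (h : IsMap S S e₀) (he : ∀ ⦃K⦄ (x : S.X K), S.L x → e₀ x = x) :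
    h.hom χ = 𝟙 _ :=
  hom_ext fun _ x hx => by rw [h.hom_cl hx, he x hx]; rfl

theorem IsMap.congr (h : IsMap S S' e) (he : ∀ ⦃K⦄ (x : S.X K), S.L x → e₁ x = e x) :
    IsMap S S' e₁ :=
  ⟨fun _ x hx => he x hx ▸ h.f x hx,
    fun _ _ φ x y hx hy r => he x hx ▸ he y hy ▸ h.sp φ x y hx hy r,
    fun _ _ φ x hx => he x hx ▸ h.dead φ x hx⟩

theorem IsMap.hom_congr (h : IsMap S S' e) (h₁ : IsMap S S' e₁)
    (he : ∀ ⦃K⦄ (x : S.X K), S.L x → S'.cl F (e x) = S'.cl F (e₁ x)) : h.hom χ = h₁.hom χ :=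
  hom_ext fun _ x hx => by rw [h.hom_cl hx, h₁.hom_cl hx, he x hx]

theorem IsMap.comp (h : IsMap S S' e) (h' : IsMap S' S'' e')
    (d : ∀ ⦃K⦄ (x : S.X K), S.L x → S''.L (e' (e x)) → S'.L (e x)) :
    IsMap S S'' fun _ x => e' (e x) := by
  refine ⟨fun _ x hx k => (h'.f _ (d x hx k) k).trans (h.f x hx (d x hx k)),
    fun _ _ φ x y hx hy r => ?_,
    fun _ _ φ x hx hd k => h'.dead φ _ (d x hx k) (h.dead φ x hx hd) k⟩
  have s := h.sp φ x y hx hy r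
  by_cases k : S'.L (e y)
  · exact h'.sp φ _ _ (s.1 k).1 k (s.1 k).2
  · exact ⟨fun k' => absurd (d y hy k') k, fun _ k' => h'.dead φ _ (d x hx k') (s.2 k) k'⟩

theorem IsMap.hom_comp (h : IsMap S S' e) (h' : IsMap S' S'' e') {e'' : ∀ ⦃K⦄, S.X K → S''.X K}
    (h'' : IsMap S S'' e'') (d : ∀ ⦃K⦄ (x : S.X K), S.L x → S''.L (e'' x) → S'.L (e x))
    (he : ∀ ⦃K⦄ (x : S.X K), S.L x → S'.L (e x) → e' (e x) = e'' x) :
    h.hom χ ≫ h'.hom χ = h''.hom χ :=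
  hom_ext fun _ x hx => by
    rw [Ob.comp_apply, h.hom_cl hx, h''.hom_cl hx]
    by_cases k : S'.L (e x)
    · rw [h'.hom_cl k, he x hx k]
    · rw [cl_dead k, map_zero, cl_dead fun k' => k (d x hx k')]

/-- Commutative squares. -/
theorem IsMap.comm {a : ∀ ⦃K⦄, S.X K → P.X K} {b : ∀ ⦃K⦄, P.X K → S''.X K} (h : IsMap S S' e)
    (h' : IsMap S' S'' e') (ha : IsMap S P a) (hb : IsMap P S'' b)
    (d : ∀ ⦃K⦄ (x : S.X K), S.L x → (S'.L (e x) ∧ S''.L (e' (e x)) ↔ P.L (a x) ∧ S''.L (b (a x))))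
    (he : ∀ ⦃K⦄ (x : S.X K), S.L x → S'.L (e x) → P.L (a x) → e' (e x) = b (a x)) :
    h.hom χ ≫ h'.hom χ = ha.hom χ ≫ hb.hom χ :=
  hom_ext fun _ x hx => by
    rw [Ob.comp_apply, Ob.comp_apply, h.hom_cl hx, ha.hom_cl hx]
    by_cases k : S'.L (e x) <;> by_cases k' : P.L (a x)
    · rw [h'.hom_cl k, hb.hom_cl k', he x hx k k']
    · rw [h'.hom_cl k, cl_dead k', map_zero, cl_dead fun l => k' ((d x hx).1 ⟨k, l⟩).1]
    · rw [hb.hom_cl k', cl_dead k, map_zero, cl_dead fun l => k ((d x hx).2 ⟨k', l⟩).1]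
    · rw [cl_dead k, cl_dead k', map_zero, map_zero]

theorem IsMap.bij (h : IsMap S S' e) (live : ∀ ⦃K⦄ (x : S.X K), S.L x → S'.L (e x))
    (inj : ∀ ⦃K⦄ (x x' : S.X K), S.L x → S.L x' → e x = e x' → x = x')
    (surj : ∀ ⦃K⦄ (y : S'.X K), S'.L y → ∃ x, S.L x ∧ e x = y) : Bij (h.hom χ) := by
  refine .of_inv (fun K => S'.lf (pre F (@e K))) (fun K => lin_ext fun x hx => ?_)
    fun K => lin_ext fun y hy => ?_
  · obtain ⟨x', h1, h2, h3⟩ := pre_spec (F := F) ⟨x, hx, rfl⟩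
    rw [LinearMap.comp_apply, h.hom_cl hx, lf_cl (live x hx), h3, inj x' x h1 hx h2]
    rfl
  · obtain ⟨x, h1, h2, h3⟩ := pre_spec (F := F) (surj y hy)
    rw [LinearMap.comp_apply, lf_cl hy, h3, h.hom_cl h1, h2]
    rfl

/-- Restriction to locally closed subsets that correspond. -/
theorem IsMap.restr (h : IsMap S S' e) {T : S.Cond} {T' : S'.Cond} (c : S.Conv T) (c' : S'.Conv T')
    (he : ∀ ⦃K⦄ (x : S.X K), S.L x → S'.L (e x) → (T x ↔ T' (e x))) :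
    IsMap (S.restr T c) (S'.restr T' c') e := by
  refine ⟨fun _ x hx k => h.f x hx.1 k.1, fun _ _ φ x y hx hy r => ?_,
    fun _ _ φ x hx hd k z hz r => ?_⟩
  · have s := h.sp φ x y hx.1 hy.1 r
    exact ⟨fun k => ⟨⟨(s.1 k.1).1, (he x hx.1 (s.1 k.1).1).1 hx.2⟩, (s.1 k.1).2⟩,
      fun k l z hz => s.2 (fun k' => k ⟨k', (he y hy.1 k').1 hy.2⟩) l.1 z hz.1⟩
  rcases R_or_Dd (S := S) φ x with ⟨y, hy, r'⟩ | k'
  · have s := h.sp φ x y hx.1 hy r'
    by_cases l : S'.L (e y)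
    · exact hd hx y ⟨hy, (he y hy l).2 (S'.func φ _ z _ k.1 hz.1 l r (s.1 l).2 ▸ hz.2)⟩ r'
    · exact s.2 l k.1 z hz.1 r
  · exact h.dead φ x hx.1 k' k.1 z hz.1 r

theorem IsMap.withF (h : IsMap S S' e) {g : ∀ ⦃K⦄, S.X K → K} {g' : ∀ ⦃K⦄, S'.X K → K}
    (c : S.RegF g) (c' : S'.RegF g') (he : ∀ ⦃K⦄ (x : S.X K), S.L x → S'.L (e x) → g' (e x) = g x) :
    IsMap (S.withF g c) (S'.withF g' c') e := ⟨he, h.sp, h.dead⟩

theorem IsMap.prod {a : ∀ ⦃K⦄, P.X K → P'.X K} (h : IsMap S S' e) (h' : IsMap P P' a) :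
    IsMap (S.prod P) (S'.prod P') fun _ x => (e x.1, a x.2) := by
  refine ⟨fun _ x hx k => congrArg₂ (· + ·) (h.f _ hx.1 k.1) (h'.f _ hx.2 k.2),
    fun _ _ φ x y hx hy r => ?_, fun _ _ φ x hx hd k z hz r => ?_⟩
  · have s := h.sp φ _ _ hx.1 hy.1 r.1
    have s' := h'.sp φ _ _ hx.2 hy.2 r.2
    refine ⟨fun k => ⟨⟨(s.1 k.1).1, (s'.1 k.2).1⟩, (s.1 k.1).2, (s'.1 k.2).2⟩,
      fun k l z hz r' => ?_⟩
    by_cases k' : S'.L (e y.1)
    · exact s'.2 (fun k'' => k ⟨k', k''⟩) l.2 _ hz.2 r'.2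
    · exact s.2 k' l.1 _ hz.1 r'.1
  rcases prod_Dd hx hd with l | l
  · exact h.dead φ _ hx.1 l k.1 _ hz.1 r.1
  · exact h'.dead φ _ hx.2 l k.2 _ hz.2 r.2

theorem IsMap.fib {c : ∀ ⦃K⦄, S.X K → K[X]} {hc : S.RegP c} {c' : ∀ ⦃K⦄, S'.X K → K[X]}
    {hc' : S'.RegP c'} {d : ∀ ⦃K⦄, P.X K → K[X]} {hd : P.RegP d} (h : IsMap S S' e)
    (he : ∀ ⦃K⦄ (x : S.X K), S.L x → S'.L (e x) → c' (e x) = c x) :
    IsMap (S.fib P c hc d hd) (S'.fib P c' hc' d hd) fun _ x => (e x.1, x.2) :=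
  (h.prod isMap_id).restr _ _ fun _ x hx k => by rw [he x.1 hx.1 k.1]

/-- The inclusion of a closed subset. -/
theorem isMap_closed (h : S.Closed T) : IsMap (S.restr T h.conv) S fun _ x => x :=
  .of_proper (reg_restr _) (fun _ _ _ => rfl) fun _ _ φ x z hx hz r =>
    ⟨z, ⟨hz, h φ x z hx.1 hz r hx.2⟩, r⟩

/-- The restriction to an open subset. -/
theorem isMap_open (h : S.Open T) : IsMap S (S.restr T h.conv) fun _ x => x :=
  ⟨fun _ _ _ _ => rfl, fun _ _ φ x y hx hy r => ⟨fun k => ⟨⟨hx, h φ x y hx hy r k.2⟩, r⟩,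
    fun k _ z hz r' => k (S.func φ x z y hx hz.1 hy r' r ▸ hz)⟩,
    fun _ _ _ _ hx hd _ z hz => hd hx z hz.1⟩

/-- The localization sequence, for varieties with the same points. -/
theorem ses {S₁ S₃ : Pt k} {i : ∀ ⦃K⦄, S₁.X K → S.X K} {p : ∀ ⦃K⦄, S.X K → S₃.X K}
    (hi : IsMap S₁ S i) (hp : IsMap S S₃ p) (live : ∀ ⦃K⦄ (x : S₁.X K), S₁.L x → S.L (i x))
    (inj : ∀ ⦃K⦄ (x x' : S₁.X K), S₁.L x → S₁.L x' → i x = i x' → x = x')
    (ex : ∀ ⦃K⦄ (y : S.X K), S.L y → (¬ S₃.L (p y) ↔ ∃ x, S₁.L x ∧ i x = y))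
    (inj' : ∀ ⦃K⦄ (y y' : S.X K), S.L y → S.L y' → S₃.L (p y) → p y = p y' → y = y')
    (surj : ∀ ⦃K⦄ (z : S₃.X K), S₃.L z → ∃ y, S.L y ∧ p y = z) : Ses (hi.hom χ) (hp.hom χ) := by
  refine .of_split (fun K => S.lf (pre F (@i K))) (fun K => S₃.lf (pre F (@p K)))
    (hom_ext fun K x hx => ?_) (fun K => lin_ext fun x hx => ?_) (fun K => lin_ext fun z hz => ?_)
    fun K => lin_ext fun y hy => ?_
  · rw [Ob.comp_apply, hi.hom_cl hx, hp.hom_cl (live x hx),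
      cl_dead ((ex _ (live x hx)).2 ⟨x, hx, rfl⟩)]
    rfl
  · obtain ⟨x', h1, h2, h3⟩ := pre_spec (F := F) ⟨x, hx, rfl⟩
    rw [LinearMap.comp_apply, hi.hom_cl hx, lf_cl (live x hx), h3, inj x' x h1 hx h2]
    rfl
  · obtain ⟨y, h1, h2, h3⟩ := pre_spec (F := F) (surj z hz)
    rw [LinearMap.comp_apply, lf_cl hz, h3, hp.hom_cl h1, h2]
    rfl
  rw [LinearMap.add_apply, LinearMap.comp_apply, LinearMap.comp_apply, lf_cl hy, hp.hom_cl hy]
  by_cases k : S₃.L (p y)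
  · obtain ⟨y', h1, h2, h3⟩ := pre_spec (F := F) ⟨y, hy, rfl⟩
    rw [pre, dif_neg fun l => (ex y hy).2 l k, map_zero, zero_add, lf_cl k, h3,
      inj' y y' hy h1 k h2.symm]
    rfl
  · obtain ⟨x, h1, h2, h3⟩ := pre_spec (F := F) ((ex y hy).1 k)
    rw [h3, hi.hom_cl h1, h2, cl_dead k, map_zero, add_zero]
    rfl

theorem ses_closed (h : S.Closed T) :
    Ses ((isMap_closed h).hom χ) ((isMap_open h.not).hom χ) :=
  ses _ _ (fun _ _ h => h.1) (fun _ _ _ _ _ h => h)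
    (fun _ y hy => ⟨fun k => ⟨y, ⟨hy, not_not.1 fun l => k ⟨hy, l⟩⟩, rfl⟩,
      fun ⟨_, k, l⟩ m => m.2 (l ▸ k.2)⟩) (fun _ _ _ _ _ _ h => h) fun _ z hz => ⟨z, hz.1, rfl⟩

theorem uzero_empty (h : ∀ ⦃K⦄ (x : S.X K), ¬ S.L x) : UZero (S.E χ) :=
  .of_subsingleton fun _ => ⟨fun _ _ => Finsupp.ext fun x => absurd x.2 (h x.1)⟩

theorem uzero_of_closed (h : S.Closed T) (h₁ : UZero ((S.restr T h.conv).E χ))
    (h₂ : UZero ((S.restr _ h.not.conv).E χ)) : UZero (S.E χ) := (ses_closed h).uzero₂ h₁ h₂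

/-- A map that is bijective from the open set of points with live image is invertible if the
closed complement is negligible. -/
theorem IsMap.uiso (h : IsMap S S' e) (cl : S.Closed fun _ x => ¬ S'.L (e x))
    (z : UZero ((S.restr _ cl.conv).E χ))
    (inj : ∀ ⦃K⦄ (x x' : S.X K), S.L x → S.L x' → S'.L (e x) → e x = e x' → x = x')
    (surj : ∀ ⦃K⦄ (y : S'.X K), S'.L y → ∃ x, S.L x ∧ e x = y) : UIso (h.hom χ) :=
  (ses (isMap_closed cl) h (fun _ _ h => h.1) (fun _ _ _ _ _ h => h)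
    (fun _ y hy => ⟨fun k => ⟨y, ⟨hy, k⟩, rfl⟩, fun ⟨_, k, l⟩ => l ▸ k.2⟩) inj surj).uzero₁_iff.1 z

theorem uzero_restr {A B C : S.Cond} {hA : S.Conv A} {hB : (S.restr A hA).Conv B} (hC : S.Conv C)
    (e : ∀ ⦃K⦄ (x : S.X K), S.L x → (C x ↔ A x ∧ B x)) (h : UZero ((S.restr C hC).E χ)) :
    UZero (((S.restr A hA).restr B hB).E χ) := by
  have l : ∀ ⦃K⦄ (x : S.X K), S.L x ∧ C x → (S.L x ∧ A x) ∧ B x :=
    fun _ x k => and_assoc.2 ⟨k.1, (e x k.1).1 k.2⟩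
  have l' : ∀ ⦃K⦄ (x : S.X K), (S.L x ∧ A x) ∧ B x → S.L x ∧ C x :=
    fun _ x k => ⟨k.1.1, (e x k.1.1).2 ⟨k.1.2, k.2⟩⟩
  have m : IsMap (S.restr C hC) ((S.restr A hA).restr B hB) fun _ x => x :=
    .of_inv (g := fun _ x => x) ⟨l, fun _ _ _ _ _ _ _ h => h⟩ ⟨l', fun _ _ _ _ _ _ _ h => h⟩
      (fun _ _ _ => rfl) fun _ _ _ => rfl
  exact (m.bij l (fun _ _ _ _ _ h => h) fun _ y hy => ⟨y, l' y hy, rfl⟩).uiso.uzero_iff.1 h

/-- Vanishing can be checked on a finite cover by locally closed subsets pulled back from `P`. -/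
theorem uzero_of_cover {b : ∀ ⦃K⦄, S.X K → P.X K} (hb : S.Reg P b) {ι : Type} [Finite ι]
    (D : ι → P.Cond) (hD : ∀ i, P.Conv (D i)) (cov : ∀ ⦃K⦄ (x : S.X K), S.L x → ∃ i, D i (b x))
    (h : ∀ (i : ι) (T : P.Cond) (hT : P.Conv T), (∀ ⦃K⦄ (y : P.X K), T y → D i y) →
      UZero ((S.restr _ (hb.conv hT)).E χ)) : UZero (S.E χ) := by
  classical
  have := Fintype.ofFinite ι
  have key : ∀ (s : Finset ι) (T : P.Cond) (hT : P.Conv T),
      (∀ ⦃K⦄ (x : S.X K), S.L x → T (b x) → ∃ i ∈ s, D i (b x)) →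
        UZero ((S.restr _ (hb.conv hT)).E χ) := fun s => by
    induction s using Finset.induction_on with
    | empty => exact fun T hT c => uzero_empty fun _ x hx => by simpa using c x hx.1 hx.2
    | insert i s _ ih =>
      intro T hT c
      obtain ⟨C, h1, h2, h3⟩ := exists_closure (hD i)
      refine uzero_of_closed (S := S.restr _ (hb.conv hT)) (((reg_restr _).comp hb).closed h1)
        (uzero_restr (hb.conv (hT.and h1.conv)) (fun _ _ _ => Iff.rfl) ?_)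
        (uzero_restr (hb.conv (hT.and h1.not.conv)) (fun _ _ _ => Iff.rfl)
          (ih _ (hT.and h1.not.conv) fun _ x hx k => ?_))
      · refine uzero_of_closed (S := S.restr _ (hb.conv (hT.and h1.conv)))
          (((reg_restr _).comp hb).closed h2)
          (uzero_restr (hb.conv (hT.and h2.conv))
            (fun _ _ _ => ⟨fun k => ⟨⟨k.1, k.2.1⟩, k.2⟩, fun k => ⟨k.1.1, k.2⟩⟩)
            (ih _ (hT.and h2.conv) fun _ x hx k => ?_))
          (uzero_restr (hb.conv (hT.and (hD i))) (fun _ x hx => ⟨fun k =>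
            ⟨⟨k.1, h3 _ (hb.live x hx) k.2⟩, fun l => l.2 k.2⟩,
              fun k => ⟨k.1.1, not_not.1 fun l => k.2 ⟨k.1.2, l⟩⟩⟩)
            (h i _ (hT.and (hD i)) fun _ _ k => k.2))
        obtain ⟨j, hj, l⟩ := c x hx k.1
        exact ⟨j, (Finset.mem_insert.1 hj).resolve_left fun m => k.2.2 (m ▸ l), l⟩
      · obtain ⟨j, hj, l⟩ := c x hx k.1
        exact ⟨j, (Finset.mem_insert.1 hj).resolve_left fun m =>
          k.2 (h3 _ (hb.live x hx) (m ▸ l)), l⟩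
  exact uzero_of_closed (T := fun _ _ => True) (fun _ _ _ _ _ _ _ _ h => h)
    (key Finset.univ (fun _ _ => True) (fun _ _ _ _ _ _ _ _ _ _ _ _ _ _ h => h)
      fun _ x hx _ => (cov x hx).imp fun i k => ⟨Finset.mem_univ i, k⟩)
    (uzero_empty fun _ _ h => h.2 trivial)

variable (χ S S') in
/-- The comparison of the product with the tensor product. -/
theorem isLift_ten : IsLift (S.prod S') χ ((S.E χ).ten (S'.E χ)) fun _ x =>
    χ.ev (χ.rt (S.f x.1 + S'.f x.2) - χ.rt (S.f x.1) - χ.rt (S'.f x.2)) •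
      (S.cl F x.1 ⊗ₜ S'.cl F x.2) := by
  refine ⟨fun _ _ φ x y hx hy r => ?_, fun _ _ φ x hx hd => ?_⟩
  · have := Chr.cf_sum (χ := χ) (φ := φ) (b := ![S.f x.1, S'.f x.2]) (b' := ![S.f y.1, S'.f y.2])
      (Fin.forall_fin_two.2 ⟨S.reg φ _ _ hx.1 hy.1 r.1, S'.reg φ _ _ hx.2 hy.2 r.2⟩)
    simp only [Fin.sum_univ_two, Fin.prod_univ_two, Matrix.cons_val_zero, Matrix.cons_val_one,
      ← sub_sub] at this
    rw [map_smul, TensorProduct.map_tmul, map_cl (.of_R hx.1 hy.1 r.1),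
      map_cl (.of_R hx.2 hy.2 r.2), TensorProduct.smul_tmul_smul, smul_smul, smul_smul, this]
  · rw [map_smul, TensorProduct.map_tmul]
    rcases prod_Dd hx hd with l | l
    · rw [map_cl_Dd l, TensorProduct.zero_tmul, smul_zero]
    · rw [map_cl_Dd l, TensorProduct.tmul_zero, smul_zero]

theorem bij_ten : Bij (isLift_ten χ S S').hom := fun K =>
  bij_of_basis' Finsupp.basisSingleOne (Finsupp.basisSingleOne.tensorProduct Finsupp.basisSingleOne)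
    Equiv.subtypeProdEquivProd _ fun x => ⟨_, by
      simpa only [Fin.sum_univ_two, Matrix.cons_val_zero, Matrix.cons_val_one, ← sub_sub] using
        Chr.ev_rt_ne (χ := χ) ![S.f x.1.1, S'.f x.1.2], by
      rw [← basis_cl (S := S.prod S'), IsLift.hom_cl _ x.2,
        S.cl_live ⟨x.1.1, x.2.1⟩, S'.cl_live ⟨x.1.2, x.2.2⟩, Module.Basis.tensorProduct_apply']
      rfl⟩

variable (χ S) in
theorem isLift_pow (α : Type) [Fintype α] : IsLift (S.pi α) χ ((S.E χ).pow α) fun _ x =>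
    χ.ev (χ.rt (∑ a, S.f (x a)) - ∑ a, χ.rt (S.f (x a))) • tp F fun a => S.cl F (x a) := by
  refine ⟨fun _ _ φ x y hx hy r => ?_, fun _ _ φ x hx hd => ?_⟩
  · rw [map_smul, PiTensorProduct.map_tprod]
    simp only [fun a => map_cl (χ := χ) (.of_R (hx a) (hy a) (r a))]
    rw [MultilinearMap.map_smul_univ, smul_smul, smul_smul,
      Chr.cf_sum fun a => S.reg φ _ _ (hx a) (hy a) (r a)]
  · obtain ⟨a, ha⟩ : ∃ a, S.Dd φ (x a) := by
      by_contra! k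
      choose y h1 h2 using fun a => (R_or_Dd φ (x a)).resolve_right (k a)
      exact hd hx y h1 h2
    rw [map_smul, PiTensorProduct.map_tprod, (tp F).map_coord_zero a (map_cl_Dd ha), smul_zero]

theorem bij_pow (α : Type) [Fintype α] : Bij (isLift_pow χ S α).hom := fun K =>
  bij_of_basis' Finsupp.basisSingleOne (Basis.piTensorProduct fun _ => Finsupp.basisSingleOne)
    Equiv.subtypePiEquivPi _ fun x => ⟨_, Chr.ev_rt_ne (χ := χ) fun a => S.f (x.1 a), by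
      rw [← basis_cl (S := S.pi α), IsLift.hom_cl _ x.2, Basis.piTensorProduct_apply]
      simp only [fun a => S.cl_live (F := F) ⟨x.1 a, x.2 a⟩]
      rfl⟩

variable (S) in
theorem isMap_perm {α : Type} [Fintype α] (σ : Equiv.Perm α) :
    IsMap (S.pi α) (S.pi α) fun _ x a => x (σ.symm a) :=
  .of_inv (g := fun _ x a => x (σ a)) ⟨fun _ _ h _ => h _, fun _ _ _ _ _ _ _ h _ => h _⟩
    ⟨fun _ _ h _ => h _, fun _ _ _ _ _ _ _ h _ => h _⟩
    (fun _ x _ => Equiv.sum_comp σ.symm fun a => S.f (x a))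
    fun _ x _ => funext fun a => congrArg x (σ.symm_apply_apply a)

theorem pow_perm {α : Type} [Fintype α] (σ : Equiv.Perm α) :
    (S.isMap_perm σ).hom χ ≫ (isLift_pow χ S α).hom = (isLift_pow χ S α).hom ≫ reidx _ σ :=
  hom_ext fun _ x hx => by
    rw [Ob.comp_apply, Ob.comp_apply, IsMap.hom_cl _ hx, IsLift.hom_cl _ hx,
      IsLift.hom_cl (isLift_pow χ S α) fun a => hx (σ.symm a), map_smul, reidx_tprod,
      Equiv.sum_comp σ.symm fun a => S.f (x a), Equiv.sum_comp σ.symm fun a => χ.rt (S.f (x a))]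

variable (χ S) in
/-- The self-map `e` acts as the scalar `c`. -/
def Acts (e : ∀ ⦃K⦄, S.X K → S.X K) (c : F) : Prop :=
  ∃ h : IsMap S S e, Null (h.hom χ - c • 𝟙 _)

section Acts
variable {a a₁ a₂ : ∀ ⦃K⦄, S.X K → S.X K} {c c₁ c₂ : F}

theorem Acts.of_uzero (h : IsMap S S a) (z : UZero (S.E χ)) : S.Acts χ a c := ⟨h, z.null_left _⟩

theorem Acts.of_fix (he : ∀ ⦃K⦄ (x : S.X K), S.L x → a x = x) : S.Acts χ a 1 :=
  ⟨isMap_id.congr he, by rw [IsMap.hom_id _ he, one_smul, sub_self]; exact .zero⟩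

theorem Acts.comp (h₁ : S.Acts χ a₁ c₁) (h₂ : S.Acts χ a₂ c₂)
    (live : ∀ ⦃K⦄ (x : S.X K), S.L x → S.L (a₁ x))
    (he : ∀ ⦃K⦄ (x : S.X K), S.L x → a x = a₂ (a₁ x)) (hc : c = c₁ * c₂) : S.Acts χ a c := by
  obtain ⟨m₁, n₁⟩ := h₁
  obtain ⟨m₂, n₂⟩ := h₂
  have m : IsMap S S a := (m₁.comp m₂ fun _ x hx _ => live x hx).congr he
  refine ⟨m, ?_⟩
  rw [← m₁.hom_comp m₂ m (fun _ x hx _ => live x hx) fun _ x hx _ => (he x hx).symm, hc]
  simpa [smul_sub, smul_smul] using (n₁.comp (m₂.hom χ)).add (n₂.smul c₁)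

/-- Transport along an invertible map. -/
theorem Acts.of_uiso {b : ∀ ⦃K⦄, S'.X K → S'.X K} (h : IsMap S S' e) (u : UIso (h.hom χ))
    (ha : IsMap S S a) (hb : S'.Acts χ b c) (la : ∀ ⦃K⦄ (x : S.X K), S.L x → S.L (a x))
    (d : ∀ ⦃K⦄ (x : S.X K), S.L x → (S'.L (e (a x)) ↔ S'.L (e x) ∧ S'.L (b (e x))))
    (he : ∀ ⦃K⦄ (x : S.X K), S.L x → S'.L (e x) → e (a x) = b (e x)) : S.Acts χ a c := by
  obtain ⟨m, n⟩ := hb
  refine ⟨ha, .of_comp_uiso u ?_⟩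
  simpa [ha.comm h h m (fun _ x hx => (and_iff_right (la x hx)).trans (d x hx))
    fun _ x hx _ => he x hx] using n.precomp (h.hom χ)

/-- An involution acts as a sign if it does so on a closed invariant subset and its complement. -/
theorem Acts.of_closed [CharZero F] (ha : IsMap S S a) (la : ∀ ⦃K⦄ (x : S.X K), S.L x → S.L (a x))
    (inv : ∀ ⦃K⦄ (x : S.X K), S.L x → a (a x) = x) (hc : c * c = 1) (h : S.Closed T)
    (h₁ : (S.restr T h.conv).Acts χ a c) (h₂ : (S.restr _ h.not.conv).Acts χ a c)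
    (st : ∀ ⦃K⦄ (x : S.X K), S.L x → T x → T (a x)) : S.Acts χ a c := by
  obtain ⟨m₁, n₁⟩ := h₁
  obtain ⟨m₂, n₂⟩ := h₂
  have e₁ : (isMap_closed h).hom χ ≫ ha.hom χ = m₁.hom χ ≫ (isMap_closed h).hom χ :=
    IsMap.comm _ _ _ _ (fun _ x hx => ⟨fun k => ⟨⟨k.2, st x hx.1 hx.2⟩, k.2⟩,
      fun k => ⟨hx.1, k.2⟩⟩) fun _ _ _ _ _ => rfl
  have e₂ : ha.hom χ ≫ (isMap_open h.not).hom χ = (isMap_open h.not).hom χ ≫ m₂.hom χ :=
    IsMap.comm _ _ _ _ (fun _ x hx => ⟨fun k => ⟨⟨hx, fun l => k.2.2 (st x hx l)⟩, k.2⟩,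
      fun k => ⟨k.2.1, k.2⟩⟩) fun _ _ _ _ _ => rfl
  have e₃ : ha.hom χ ≫ ha.hom χ = 𝟙 _ :=
    (ha.hom_comp ha isMap_id (fun _ x hx _ => la x hx) fun _ x hx _ => inv x hx).trans
      (isMap_id.hom_id fun _ _ _ => rfl)
  have n := (ses_closed h).null_of_i (f := ha.hom χ - c • 𝟙 _) (g := ha.hom χ - c • 𝟙 _)
    (by simpa [e₁] using n₁.comp ((isMap_closed h).hom χ))
    (by simpa [e₂] using n₂.precomp ((isMap_open h.not).hom χ))
  refine ⟨ha, ?_⟩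
  rw [show ha.hom χ - c • 𝟙 _ = (-c / 2) • ((ha.hom χ - c • 𝟙 _) ≫ (ha.hom χ - c • 𝟙 _)) by
    simp only [Preadditive.sub_comp, Preadditive.comp_sub, Linear.smul_comp, Linear.comp_smul,
      Category.comp_id, Category.id_comp, e₃]
    match_scalars
    · linear_combination -hc
    · linear_combination (c / 2) * hc]
  exact n.smul _

end Acts

end Pt

end

end Pool.Agent.Lib.MP_fc2ced_ag.K
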