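import Pool.Agent.Lib.MP_fc2ced_ag.K.Base
import Pool.Agent.Lib.MP_fc2ced_ag.K.Map

/-! From Schur-finiteness in all theories to Schur-finiteness of the motive with compact support. -/

open CategoryTheory CategoryTheory.Limits Function

namespace Pool.Agent.Lib.MP_fc2ced_ag.K

noncomputable section

variable {k : Type} [Field k] {F : Type} [Field F] [CharZero F]

open Ob Pt

theorem Place.aeval {K K' : Fld k} {φ : Place K K'} {τ : Type} {x : τ → K} {y : τ → K'}
    (h : ∀ i, φ (x i) (y i)) (g : MvPolynomial τ k) :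
    φ (MvPolynomial.aeval x g) (MvPolynomial.aeval y g) := by
  induction g using MvPolynomial.induction_on with
  | C c => simpa only [MvPolynomial.aeval_C] using φ.alg c
  | add p q hp hq => simpa only [map_add] using hp.add hq
  | mul_X p i hp => simpa only [map_mul, MvPolynomial.aeval_X] using hp.mul (h i)

omit [CharZero F] in
theorem Chr.cf_triv {χ : Chr k F} (hχ : χ.ψ = 1) {K K' : Fld k} {φ : Place K K'} {b : K} {b' : K'}
    (h : φ b b') : χ.cf φ b = 1 := by
  obtain ⟨y', h1, h2⟩ := Chr.exists_rel (χ.rt_spec b) h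
  obtain ⟨c, hc⟩ := χ.exists_cast (Chr.sub_fix (h2.trans (χ.rt_spec b').symm))
  rw [Chr.cf_eq h h1, hc, Chr.ev_cast, hχ, AddChar.one_apply]

variable {σ ι : Type} [Fintype σ] (f : ι → MvPolynomial (Option σ) k)

/-- The affine part of the projective variety cut out by the `f j`. -/
@[reducible] def aff : Pt k :=
  ((line k).pi σ).restr (fun _ x => ∀ j, MvPolynomial.aeval (fun o => Option.elim o 1 x) (f j) = 0)
    (Closed.conv fun _ _ φ _ _ _ _ h e j => (Place.aeval (fun o => by
      cases o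
      exacts [φ.one, h _]) (f j)).eq_of φ.zero (e j))

namespace Bridge

theorem hom_mul {R τ : Type} [CommRing R] [Algebra k R] {g : MvPolynomial τ k} {d : ℕ}
    (h : g.IsHomogeneous d) (t : R) (z : τ → R) :
    MvPolynomial.aeval (fun o => t * z o) g = t ^ d * MvPolynomial.aeval z g := by
  simp only [MvPolynomial.aeval_def, MvPolynomial.eval₂_eq, Finset.mul_sum]
  refine Finset.sum_congr rfl fun m hm => ?_
  simp only [mul_pow, Finset.prod_mul_distrib, Finset.prod_pow_eq_pow_sum]
  rw [h.degree_eq_sum_deg_support hm]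
  ring

variable {f} {A B : FT k} {K K' : Fld k} {N : ℕ}

omit [Fintype σ] in
theorem root (x : A →ₐ[k] K) (z : Cone f A) (j : ι) :
    MvPolynomial.aeval (fun o => x (z.1 o)) (f j) = 0 :=
  congr($(MvPolynomial.comp_aeval z.1 x) (f j)).symm.trans
    ((congrArg x (z.2.2 j)).trans (map_zero x))

theorem uni (z : Cone f A) : ∃ a : Option σ → A, ∑ o, a o * z.1 o = 1 :=
  Ideal.mem_span_range_iff_exists_fun.1 ((Ideal.eq_top_iff_one _).1 z.2.1)

/-- The point is not at infinity. -/
def nz (x : A →ₐ[k] K) : Proj f A → Prop :=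
  Quot.lift (fun z => x (z.1 none) ≠ 0) fun z z' ⟨u, h⟩ => by
    simp [h, Units.smul_def, (u.isUnit.map x).ne_zero]

/-- The affine coordinates. -/
def cd (x : A →ₐ[k] K) : Proj f A → σ → K :=
  Quot.lift (fun z s => x (z.1 (some s)) / x (z.1 none)) fun z z' ⟨u, h⟩ => funext fun s => by
    simp only [h, Units.smul_def, Pi.smul_apply, smul_eq_mul, map_mul]
    exact (mul_div_mul_left _ _ (u.isUnit.map x).ne_zero).symm

open Classical in
variable (F) in
/-- The class of the affine point. -/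
def val (x : A →ₐ[k] K) (p : Fin N → Proj f A) : ((aff f).pi (Fin N)).Live K →₀ F :=
  if ∀ i, nz x (p i) then ((aff f).pi (Fin N)).cl F fun i => cd x (p i) else 0

omit [Fintype σ] in
theorem rep (p : Fin N → Proj f A) : ∃ z : Fin N → Cone f A, p = fun i => Quot.mk _ (z i) := by
  choose z hz using fun i => Quot.exists_rep (p i)
  exact ⟨z, funext fun i => (hz i).symm⟩

theorem live (hf : ∀ j, ∃ d, (f j).IsHomogeneous d) {x : A →ₐ[k] K} {p : Fin N → Proj f A}
    (h : ∀ i, nz x (p i)) : ((aff f).pi (Fin N)).L fun i => cd x (p i) := by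
  obtain ⟨z, rfl⟩ := rep p
  refine fun i => ⟨fun _ => trivial, fun j => ?_⟩
  obtain ⟨d, hd⟩ := hf j
  have := hom_mul hd (x ((z i).1 none))⁻¹ fun o => x ((z i).1 o)
  rw [root, mul_zero] at this
  refine (congrArg (MvPolynomial.aeval · (f j)) (funext fun o => ?_)).trans this
  cases o
  exacts [(inv_mul_cancel₀ (h i)).symm, div_eq_inv_mul _ _]

omit [CharZero F] in
theorem val_sec (hf : ∀ j, ∃ d, (f j).IsHomogeneous d) {χ : Chr k F} (hχ : χ.ψ = 1)
    (p : Fin N → Proj f A) :
    (fun _ x => val F x p) ∈ secs (((aff f).pi (Fin N)).E χ) A := by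
  intro K K' φ x x' e
  obtain ⟨z, rfl⟩ := rep p
  simp only [val]
  split_ifs with h h' h'
  · have r : ((aff f).pi (Fin N)).R φ (fun i => cd x (Quot.mk _ (z i)))
        fun i => cd x' (Quot.mk _ (z i)) := fun i s => (e _).div (e _) (h' i)
    rw [map_cl (.of_R (live hf h) (live hf h') r),
      Chr.cf_triv hχ (Pt.reg _ φ _ _ (live hf h) (live hf h') r), one_smul]
  · refine map_cl_Dd fun _ y _ r => h' fun i h0 => ?_
    obtain ⟨a, ha⟩ := uni (z i)
    have := congrArg x' ha
    rw [map_sum, map_one, Finset.sum_eq_zero] at this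
    · exact zero_ne_one this
    · rintro (_ | s) -
      · rw [map_mul, h0, mul_zero]
      · have h1 := (e _).eq_of ((r i s).mul (e ((z i).1 none))) (div_mul_cancel₀ _ (h i)).symm
        rw [map_mul, h1, h0, mul_zero, mul_zero]
  · exact (h fun i => (e _).ne_zero (h' i)).elim
  · exact map_zero _

omit [CharZero F] in
theorem val_inf {x : A →ₐ[k] K} {p : Fin N → Proj f A} (h : ∃ i, (p i).AtInf) : val F x p = 0 := by
  obtain ⟨i, z, h1, h2⟩ := h
  exact if_neg fun h => (h2 ▸ h i :) ((congrArg x h1).trans (map_zero x))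

omit [CharZero F] in
theorem val_map (x : B →ₐ[k] K) (g : A →ₐ[k] B) (p : Fin N → Proj f A) :
    val F x (fun i => (p i).map g) = val F (x.comp g) p := by
  obtain ⟨z, rfl⟩ := rep p
  rfl

theorem cd_inj {y : B →ₐ[k] K} (hy : Injective y) {p p' : Proj f B} (h : nz y p) (h' : nz y p')
    (e : cd y p = cd y p') : p = p' := by
  induction p using Quot.ind with | _ z => ?_
  induction p' using Quot.ind with | _ z' => ?_
  have k1 : ∀ o, y (z'.1 o) = y (z'.1 none) / y (z.1 none) * y (z.1 o) := by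
    rintro (_ | s)
    · exact (div_mul_cancel₀ _ h).symm
    · have : y (z.1 (some s)) / y (z.1 none) = y (z'.1 (some s)) / y (z'.1 none) := congrFun e s
      rw [div_mul_comm, this, div_mul_cancel₀ _ h']
  obtain ⟨a, ha⟩ := uni z
  obtain ⟨a', ha'⟩ := uni z'
  have k2 : y (∑ o, a o * z'.1 o) = y (z'.1 none) / y (z.1 none) := by
    rw [← mul_one (_ / _), ← map_one y, ← ha, map_sum, map_sum, Finset.mul_sum]
    exact Finset.sum_congr rfl fun o _ => by rw [map_mul, map_mul, k1 o, mul_left_comm]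
  have k3 : ∀ o, z'.1 o = (∑ o, a o * z'.1 o) * z.1 o := fun o => hy (by rw [map_mul, k2, ← k1])
  have k4 : (∑ o, a o * z'.1 o) * ∑ o, a' o * z.1 o = 1 := by
    rw [Finset.mul_sum, ← ha']
    exact Finset.sum_congr rfl fun o _ => by rw [mul_left_comm, ← k3]
  exact Quot.sound ⟨Units.mkOfMulEqOne _ _ k4, funext k3⟩

omit [Fintype σ] in
theorem atInf {y : B →ₐ[k] K} (hy : Injective y) {p : Proj f B} (h : ¬ nz y p) : p.AtInf := by
  induction p using Quot.ind with | _ z => ?_
  exact ⟨z, hy ((not_not.1 h).trans (map_zero y).symm), rfl⟩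

/-- A left inverse over a ring that embeds in the field. -/
theorem exists_inv (hf : ∀ j, ∃ d, (f j).IsHomogeneous d) {y : B →ₐ[k] K} (hy : Injective y) :
    ∃ r : (((aff f).pi (Fin N)).Live K →₀ ℚ) →ₗ[ℚ] (Tup f N B →₀ ℚ) ⧸ bdry f N B,
      ∀ p : Tup f N B, r (val ℚ y p.down) = Submodule.Quotient.mk (Finsupp.single p 1) := by
  classical
  refine ⟨Finsupp.linearCombination ℚ fun w => if h : ∃ p : Tup f N B, (∀ i, nz y (p.down i)) ∧
    (fun i => cd y (p.down i)) = w.1 then Submodule.Quotient.mk (Finsupp.single h.choose 1) else 0,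
    fun p => ?_⟩
  rw [val]
  split_ifs with h
  · have h1 : ∃ q : Tup f N B, (∀ i, nz y (q.down i)) ∧
      (fun i => cd y (q.down i)) = fun i => cd y (p.down i) := ⟨p, h, rfl⟩
    rw [cl_live _ ⟨_, live hf h⟩, Finsupp.linearCombination_single, one_smul, dif_pos h1,
      show h1.choose = p from ULift.ext _ _ (funext fun i => cd_inj hy (h1.choose_spec.1 i) (h i) (congrFun h1.choose_spec.2 i))]
  · obtain ⟨i, hi⟩ := not_forall.1 h
    rw [map_zero, eq_comm, Submodule.Quotient.mk_eq_zero]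
    exact Submodule.subset_span ⟨p, ⟨i, atInf hy hi⟩, rfl⟩

theorem exists_scale (V : ValuationSubring K) (w : σ → K) : ∃ t : K, t ≠ 0 ∧
    (∀ o : Option σ, t * o.elim 1 w ∈ V) ∧ ∃ o : Option σ, t * o.elim 1 w = 1 := by
  obtain ⟨j, hj⟩ := Finite.exists_max fun o : Option σ => V.valuation (o.elim 1 w)
  have h1 : 0 < V.valuation (j.elim 1 w) := ((Valuation.pos_iff _).2 one_ne_zero).trans_le (hj none)
  have h2 := (Valuation.pos_iff _).1 h1
  refine ⟨_, inv_ne_zero h2, fun o => (V.valuation_le_one_iff _).1 ?_, j, inv_mul_cancel₀ h2⟩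
  rw [← div_eq_inv_mul, map_div₀]
  exact (div_le_one₀ h1).2 (hj o)

theorem exists_pt (hf : ∀ j, ∃ d, (f j).IsHomogeneous d) {y : B →ₐ[k] K} (hy : Injective y)
    {w : σ → K} (hw : (aff f).L w) {t : K} (h0 : t ≠ 0)
    (h1 : ∀ o : Option σ, ∃ b, y b = t * o.elim 1 w) (h2 : ∃ o : Option σ, t * o.elim 1 w = 1) :
    ∃ p : Proj f B, nz y p ∧ cd y p = w := by
  choose z hz using h1
  obtain ⟨o, ho⟩ := h2
  have e : y (z none) = t := (hz none).trans (mul_one t)
  refine ⟨Quot.mk _ ⟨z, (Ideal.eq_top_iff_one _).2 (Ideal.subset_span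
    ⟨o, hy (by rw [hz, ho, map_one])⟩), fun j => hy ?_⟩, e ▸ h0, funext fun s => ?_⟩
  · obtain ⟨d, hd⟩ := hf j
    refine congr($(MvPolynomial.comp_aeval z y) (f j)).trans ?_
    rw [funext hz, hom_mul hd, hw.2 j, mul_zero, map_zero]
  · change y (z (some s)) / y (z none) = w s
    rw [e, hz, mul_div_cancel_left₀ _ h0]
    rfl

end Bridge

open Bridge

open Classical in
/-- The comparison map. -/
theorem exists_cmp (hf : ∀ j, ∃ d, (f j).IsHomogeneous d) (χ : Chr k F) (hχ : χ.ψ = 1) (N : ℕ) :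
    ∃ u : Mc f N ⟶ (toPsh k F).obj (((aff f).pi (Fin N)).E χ),
      ∀ (A : FT k) (z : Fin N → Cone f A) (K : Fld k) (x : A →ₐ[k] K),
        (u.app A (Submodule.Quotient.mk (Finsupp.single ⟨fun i => Quot.mk _ (z i)⟩ 1)) :
          secs (((aff f).pi (Fin N)).E χ) A).1 K x =
          if ∀ i, x ((z i).1 none) ≠ 0 then ((aff f).pi (Fin N)).cl F
            fun i s => x ((z i).1 (some s)) / x ((z i).1 none) else 0 := by
  let c (A : FT k) (p : Tup f N A) : ((toPsh k F).obj (((aff f).pi (Fin N)).E χ)).obj A :=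
    (⟨_, val_sec hf hχ p.down⟩ : secs _ A)
  let l (A : FT k) := (bdry f N A).liftQ (Finsupp.linearCombination ℚ (c A)) (by
    refine Submodule.span_le.2 ?_
    rintro _ ⟨p, hp, rfl⟩
    refine (Finsupp.linearCombination_single ..).trans ((one_smul ..).trans ?_)
    exact Subtype.ext (funext fun K => funext fun x => val_inf hp))
  have hl (A : FT k) (p : Tup f N A) :
      l A (Submodule.Quotient.mk (Finsupp.single p 1)) = c A p :=
    (Finsupp.linearCombination_single ..).trans (one_smul ..)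
  refine ⟨⟨fun A => (ModuleCat.ofHom (l A) :), fun A B g => ?_⟩, fun A z K x => ?_⟩
  · refine ModuleCat.hom_ext (Submodule.linearMap_qext _ (Finsupp.lhom_ext' fun p =>
      LinearMap.ext_ring ?_))
    change l B (Submodule.Quotient.mk (Finsupp.mapDomain _ (Finsupp.single p 1))) =
      ((toPsh k F).obj _).map g (l A (Submodule.Quotient.mk (Finsupp.single p 1)))
    rw [Finsupp.mapDomain_single, hl, hl]
    exact Subtype.ext (funext fun K => funext fun x => val_map x g p.down)
  · exact (congrArg (fun s : secs _ A => s.1 K x) (hl A _)).trans (if_congr Iff.rfl rfl rfl)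

open Classical in
theorem hiso_cmp (hf : ∀ j, ∃ d, (f j).IsHomogeneous d) (χ : Chr k ℚ) (hχ : χ.ψ = 1) (N : ℕ)
    (u : Mc f N ⟶ (toPsh k ℚ).obj (((aff f).pi (Fin N)).E χ))
    (hu : ∀ (A : FT k) (z : Fin N → Cone f A) (K : Fld k) (x : A →ₐ[k] K),
      (u.app A (Submodule.Quotient.mk (Finsupp.single ⟨fun i => Quot.mk _ (z i)⟩ 1)) :
        secs (((aff f).pi (Fin N)).E χ) A).1 K x =
        if ∀ i, x ((z i).1 none) ≠ 0 then ((aff f).pi (Fin N)).cl ℚ
          fun i s => x ((z i).1 (some s)) / x ((z i).1 none) else 0) : HIso u := by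
  intro K₀ _ _ _ V A x hx
  let K : Fld k := ⟨K₀⟩
  let e (B : FT k) (y : B →ₐ[k] K) : ((Tup f N B →₀ ℚ) ⧸ bdry f N B) →ₗ[ℚ]
      ((aff f).pi (Fin N)).Live K →₀ ℚ := AddMonoidHom.toRatLinearMap
    { toFun s := (u.app B s : secs (((aff f).pi (Fin N)).E χ) B).1 K y
      map_zero' := congrArg (fun s : secs _ B => s.1 K y) (map_zero (u.app B).hom)
      map_add' s t := congrArg (fun s : secs _ B => s.1 K y) (map_add (u.app B).hom s t) }
  have he (B : FT k) (y : B →ₐ[k] K) (p : Tup f N B) :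
      e B y (Submodule.Quotient.mk (Finsupp.single p 1)) = val ℚ y p.down := by
    obtain ⟨p⟩ := p
    obtain ⟨z, rfl⟩ := rep p
    exact (hu B z K y).trans (if_congr Iff.rfl rfl rfl)
  refine ⟨fun s hs => ?_, fun t => ?_⟩
  · obtain ⟨B, g, y, h1, h2, h3, -⟩ := exists_adjoin (K := K) V x hx ∅ (by simp)
    obtain ⟨r, hr⟩ := exists_inv (N := N) hf h1
    have h4 : r ∘ₗ e B y = LinearMap.id := Submodule.linearMap_qext _ (Finsupp.lhom_ext' fun p =>
      LinearMap.ext_ring ((congrArg r (he B y p)).trans (hr p)))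
    refine ⟨B, g, y, h2, h3, (LinearMap.congr_fun h4 _).symm.trans ?_⟩
    have h5 : u.app B ((Mc f N).map g s) = 0 := by
      rw [NatTrans.naturality_apply, hs, map_zero]
    exact (congrArg r (congrArg (fun s : secs _ B => s.1 K y) h5)).trans (map_zero r)
  · let v := (t : secs (((aff f).pi (Fin N)).E χ) A).1 K x
    choose c c0 c1 c2 using exists_scale (σ := σ) (K := K) V
    obtain ⟨B, g, y, h1, h2, h3, h4⟩ := exists_adjoin (K := K) V x hx
      ((v.support ×ˢ Finset.univ).image fun q : _ × Fin N × Option σ =>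
        c (q.1.1 q.2.1) * q.2.2.elim 1 (q.1.1 q.2.1)) (by
      intro s hs
      obtain ⟨q, -, rfl⟩ := Finset.mem_image.1 hs
      exact c1 _ _)
    obtain ⟨s, hs⟩ : v ∈ LinearMap.range (e B y) := by
      rw [← Finsupp.sum_single v]
      refine Submodule.sum_mem _ fun w hw => ?_
      rw [← Finsupp.smul_single_one, ← cl_live]
      choose p p1 p2 using fun i => exists_pt hf h1 (w.2 i) (c0 (w.1 i)) (fun o => h4 _
        (Finset.mem_image.2 ⟨(w, i, o), Finset.mem_product.2 ⟨hw, Finset.mem_univ _⟩, rfl⟩)) (c2 _)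
      refine Submodule.smul_mem _ _ ⟨_, (he B y ⟨p⟩).trans ?_⟩
      rw [val, if_pos p1, funext p2]
    subst h3
    exact ⟨B, g, y, s, h2, rfl, sub_eq_zero.1 (secs_eq_zero y h1 _ (sub_eq_zero.2 hs))⟩

end

end Pool.Agent.Lib.MP_fc2ced_ag.K
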