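import Pool.Agent.Lib.MP_fc2ced_ag.K.Strata

/-! The locus of flags with an irrelevant member is negligible. -/

open CategoryTheory Function Polynomial

namespace Pool.Agent.Lib.MP_fc2ced_ag.K

noncomputable section

variable {k : Type} [Field k] {F : Type} [Field F] {χ : Chr k F} {n : ℕ} [NeZero n] {w j l : ℕ}
  {I : Finset ℕ} {P : Pt k} {T : PC P}

open Pt Place

theorem closed_irr (T : PC P) (j : ℕ) :
    ((Zv k n w I).over T).Closed fun _ x => ¬ Rel n j (x.1 j) :=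
  Open.not fun _ _ _ _ _ a _ r h => (r.1 j).rel (a.1.1.stab' j).1 h

namespace CleanAux

variable {K : Type} [Field K] {x : ℕ → Sp K} {W : Sp K} {a e : ℤ}

open Classical in
/-- The transformation of flags that is attached to a descent of the member of index `j`. -/
def mv (n j : ℕ) (a e : ℤ) (c : Sp K → ℤ → K) (μ : Sp K → Sq K) (r : K) (x : ℕ → Sp K) :
    ℕ → Sp K :=
  if h : Desc n (x j) a e (c (x j)) (μ (x j)) then fun m => (x m).map (h.psi r) else x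

omit [NeZero n] in
theorem mv_eq {c : Sp K → ℤ → K} {μ : Sp K → Sq K} (hW : x j = W) (h : Desc n W a e (c W) (μ W))
    (r : K) : mv n j a e c μ r x = fun m => (x m).map (h.psi r) := by
  subst hW
  exact dif_pos h

omit [NeZero n] in
theorem le_or (h : Flag n w I x) (hj : j ∈ I) (m : ℕ) : x m ≤ x j ∨ x j ≤ x m := by
  by_cases hm : m ∈ I
  · exact (le_total m j).imp (h.mono m hm j hj) (h.mono j hj m hm)
  by_cases hw : m = w
  · exact .inr (hw ▸ h.le_top j hj)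
  · exact .inl (h.bot m hm hw ▸ bot_le)

omit [NeZero n] in
theorem flag_map {c : ℤ → K} {μ : Sq K} (h : Flag n w I x) (hj : j ∈ I) (hw : w ≤ n + 1)
    (D : Desc n (x j) a e c μ) (he : e < a + w) (r : K) :
    Flag n w I (fun m => (x m).map (D.psi r)) ∧
      (fun m => chi n ((x m).map (D.psi r))) = fun m => chi n (x m) := by
  have k : ∀ m, Stab n ((x m).map (D.psi r)) ∧ chi n ((x m).map (D.psi r)) = chi n (x m) :=
    fun m => by
      rcases le_or h hj m with l | l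
      · rw [D.map_of_le r l]
        exact ⟨(h.stab' m).1, rfl⟩
      · exact D.stab_map r (h.stab' m).1 l
  refine ⟨⟨(D.rel_map r h.rel (h.le_top j hj) hw he).1, fun i _ => (k i).1, fun i hi => ?_,
    fun i hi => Submodule.map_mono (h.le_top i hi),
    fun i hi i' hi' l => Submodule.map_mono (h.mono i hi i' hi' l), fun i h1 h2 => ?_⟩,
    funext fun m => (k m).2⟩
  · exact (Submodule.equivMapOfInjective _ (D.psi_inj r) _).finrank_eq.symm.trans (h.rank i hi)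
  · rw [h.bot i h1 h2, Submodule.map_bot]

end CleanAux

theorem uzero_irr (hχ : χ.ψ 1 ≠ 1) (hw : w ≤ n + 1) (hj : j ∈ I) (T : PC P) :
    UZero ((((Zv k n w I).over T).restr _ (closed_irr T j).conv).E χ) := by
  obtain ⟨ι, _, D, a, e, c, μ, h1, h2, h3, h4, h5⟩ := exists_strata (k := k) (j := j) hw
  have hb : (((Zv k n w I).over T).restr _ (closed_irr T j).conv).Reg (St k n) fun _ x => x.1 j :=
    ⟨fun _ x hx => (hx.1.1.1.stab' j).1, fun _ _ _ _ _ _ _ r => r.1 j⟩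
  refine uzero_of_cover hb D h1 (fun _ x hx => h3 (x.1 w) (x.1 j) hx.1.1.1.rel
    (hx.1.1.1.stab j hj) (hx.1.1.1.le_top j hj) (hx.1.1.1.rank j hj) hx.2) fun i T' hT' sub => ?_
  have d : ∀ ⦃K : Fld k⦄ {x : ℕ → Sp K}, Flag n w I x → T' (x j) →
      Desc n (x j) (a i) (e i) (c i (x j)) (μ i (x j)) := fun _ x l t =>
    h4 i _ (l.stab j hj) (sub _ t)
  refine Flow.uzero hχ (τ := fun K r x =>
    (CleanAux.mv n j (a i) (e i) (@c i K) (@μ i K) (-r) x.1, x.2)) ⟨?_, ?_, ?_, ?_, ?_⟩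
  · rintro K r ⟨x, p⟩ ⟨⟨⟨⟨l, lp⟩, t⟩, nr⟩, t'⟩
    have k := CleanAux.flag_map l hj hw (d l t') (h2 i) (-r)
    have k' : (x j).map ((d l t').psi (-r)) = x j := (d l t').map_of_le _ le_rfl
    rw [CleanAux.mv_eq rfl (d l t')]
    exact ⟨⟨⟨⟨k.1, lp⟩, (congrArg (T.T · p) k.2).mpr t⟩, (congrArg (¬ Rel n j ·) k').mpr nr⟩,
      (congrArg (@T' K) k').mpr t'⟩
  · rintro K ⟨x, p⟩ ⟨⟨⟨⟨l, -⟩, -⟩, -⟩, t'⟩
    rw [CleanAux.mv_eq rfl (d l t'), neg_zero, show (d l t').psi 0 = LinearMap.id from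
      LinearMap.ext (d l t').psi_zero]
    exact Prod.ext (funext fun m => Submodule.map_id _) rfl
  · rintro K r ⟨x, p⟩ ⟨⟨⟨⟨l, -⟩, -⟩, -⟩, t'⟩
    have k' : (x j).map ((d l t').psi (-r)) = x j := (d l t').map_of_le _ le_rfl
    refine Prod.ext ?_ rfl
    change CleanAux.mv n j _ _ _ _ _ (CleanAux.mv n j _ _ _ _ _ x) = x
    rw [CleanAux.mv_eq rfl (d l t'), CleanAux.mv_eq k' (d l t')]
    funext m
    rw [← Submodule.map_comp, show (d l t').psi (- -r) ∘ₗ (d l t').psi (-r) = LinearMap.id from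
      LinearMap.ext ((d l t').psi_neg (-r)), Submodule.map_id]
  · rintro K r ⟨x, p⟩ ⟨⟨⟨⟨l, -⟩, -⟩, -⟩, t'⟩
    rw [CleanAux.mv_eq rfl (d l t')]
    change fU n w ((x w).map _) + P.f p = fU n w (x w) + P.f p + r
    rw [((d l t').rel_map (-r) l.rel (l.le_top j hj) hw (h2 i)).2]
    ring
  · rintro K K' φ r r' ⟨x, p⟩ ⟨y, q⟩ hr ⟨⟨⟨⟨l, -⟩, -⟩, -⟩, t⟩ ⟨⟨⟨⟨l', -⟩, -⟩, -⟩, t'⟩ ⟨s, s'⟩
    obtain ⟨k1, k2⟩ := h5 i φ _ _ (l.stab j hj) (l'.stab j hj) (sub _ t) (sub _ t') (s j)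
    rw [CleanAux.mv_eq rfl (d l t), CleanAux.mv_eq rfl (d l' t')]
    exact ⟨fun m => GR.map (s m) GR.bot bot_le _ _
      (fun _ _ v => VR.psi (d l t) (d l' t') k2 k1 hr.neg v) bot_le
      (inf_le_right.trans (LinearMap.ker_eq_bot.2 ((d l' t').psi_inj _)).le), s'⟩

theorem uu_split (hχ : χ.ψ 1 ≠ 1) (hw : j + l ≤ n + 1) (hI : I ⊆ Finset.Ioo 0 (j + l))
    (hj : j ∈ I) : UU χ (Zv k n (j + l) I) ((Zv k n j (lowI j I)).ten j (Zv k n l (uppI j I)))
      (JI (j + l) I) fun _ x => (low j x, upp n j x) := by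
  intro P T hT
  have pm := pmap_split (k := k) (n := n) hI hj
  have k : ∀ ⦃K⦄ (y : ((Zv k n (j + l) I).over T).X K), ((Zv k n (j + l) I).over T).L y →
      ((((Zv k n j (lowI j I)).ten j (Zv k n l (uppI j I))).over T).L
        ((low j y.1, upp n j y.1), y.2) ↔ Rel n j (y.1 j)) := fun K y hy =>
    ⟨fun h => (hy.1.1.low_iff hI hj).1 h.1.1.1, fun h =>
      have m := And.intro ((hy.1.1.low_iff hI hj).2 h) (hy.1.1.upp_flag hI hj h)
      ⟨⟨m, hy.1.2⟩, hT _ _ _ (fun i hi => (pm.c y.1 hy.1.1 m i hi).symm) hy.2⟩⟩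
  rw [ov, (pm.over hT).hm_eq]
  refine (ses (isMap_closed (closed_irr T j)) (pm.over hT) (fun _ _ h => h.1)
    (fun _ _ _ _ _ h => h) (fun _ y hy => ⟨fun h => ⟨y, ⟨hy, fun r => h ((k y hy).2 r)⟩, rfl⟩,
      fun ⟨_, h, e⟩ m => h.2 (e ▸ (k y hy).1 m)⟩) (fun _ y y' hy hy' m e => ?_)
    fun _ z hz => ?_).uzero₁_iff.1 (uzero_irr hχ hw hj T)
  · have e1 : low j y.1 = low j y'.1 := congrArg (·.1.1) e
    have e2 : upp n j y.1 = upp n j y'.1 := congrArg (·.1.2) e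
    refine Prod.ext ?_ (congrArg (·.2) e)
    rw [← hy.1.1.glue_split hI hj ((k y hy).1 m), e1, e2,
      hy'.1.1.glue_split hI hj ((k y' hy').1 (e ▸ m))]
  · obtain ⟨g1, g2, g3⟩ := hz.1.1.1.glue_flag hI hj hz.1.1.2
    have e : (low j (glue n j l I z.1.1 z.1.2), upp n j (glue n j l I z.1.1 z.1.2)) = z.1 :=
      Prod.ext g2 g3
    refine ⟨(glue n j l I z.1.1 z.1.2, z.2), ⟨⟨g1, hz.1.2⟩, hT _ _ _ (fun i hi => ?_) hz.2⟩,
      Prod.ext e rfl⟩
    have := pm.c _ g1 (e.symm ▸ hz.1.1) i hi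
    rwa [e] at this

end

end Pool.Agent.Lib.MP_fc2ced_ag.K
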