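import Pool.Agent.Lib.MP_fc2ced_ag.K.Geo

/-! Permutations of the coordinates, and the vanishing statements of the norm trick. -/

open CategoryTheory Function Polynomial

namespace Pool.Agent.Lib.MP_fc2ced_ag.K

noncomputable section

section Aux
open Pt hiding X

theorem prod_two {α M : Type} [Fintype α] [CommMonoid M] {u v : α → M} {a b : α} (hab : a ≠ b)
    (h : ∀ c, c ≠ a → c ≠ b → v c = u c) (e : v a * v b = u a * u b) : ∏ c, v c = ∏ c, u c := by
  classical
  have h1 (u : α → M) : ∏ c, u c = u a * u b * ∏ c ∈ (Finset.univ.erase a).erase b, u c := by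
    rw [mul_assoc, Finset.mul_prod_erase _ _ (by simp [hab.symm]),
      Finset.mul_prod_erase _ _ (by simp)]
  rw [h1 u, h1 v, e, Finset.prod_congr rfl fun c hc => h c (by simp_all) (by simp_all)]

theorem sum_two {α M : Type} [Fintype α] [AddCommGroup M] {u v : α → M} {a b : α} (hab : a ≠ b)
    (h : ∀ c, c ≠ a → c ≠ b → v c = u c) : ∑ c, v c = ∑ c, u c + (v a + v b - u a - u b) := by
  classical
  have h1 (u : α → M) : ∑ c, u c = u a + u b + ∑ c ∈ (Finset.univ.erase a).erase b, u c := by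
    rw [add_assoc, Finset.add_sum_erase _ _ (by simp [hab.symm]),
      Finset.add_sum_erase _ _ (by simp)]
  rw [h1 u, h1 v, Finset.sum_congr rfl fun c hc => h c (by simp_all) (by simp_all)]
  abel

theorem chiA_top {K : Type} [Field K] {n w : ℕ} (x : Fin w → Fin n → K) :
    chiA x w = ∏ a, (X - C (∏ i, x a i)) := by simp [chiA]

theorem chiA_coeff {K : Type} [Field K] {n w : ℕ} (x : Fin w → Fin n → K) :
    (chiA x w).coeff 0 = (-1) ^ w * ∏ y : Fin w × Fin n, x y.1 y.2 := by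
  rw [chiA_top, coeff_zero_eq_eval_zero, eval_prod, Fintype.prod_prod_type]
  simp only [eval_sub, eval_X, eval_C, zero_sub, Finset.prod_neg, Finset.card_univ,
    Fintype.card_fin]

section Bump
variable {K : Type} [Field K] {n w : ℕ} {g : ℤ → ℕ → K}

/-- One coefficient of the recurrence is translated. -/
def bump (n : ℕ) (r : K) (g : ℤ → ℕ → K) (i : ℤ) (l : ℕ) : K :=
  if l = 1 ∧ (n : ℤ) ∣ i then g i l - r else g i l

theorem bump_of_ne (r : K) (i : ℤ) {l : ℕ} (h : l ≠ 1) : bump n r g i l = g i l :=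
  if_neg fun e => h e.1

theorem Band.bump_band (h : Band n w g) (hw : 2 ≤ w) (r : K) : Band n w (bump n r g) where
  per i l := by simp only [bump, h.per, dvd_add_self_right]
  one i := (bump_of_ne r i zero_ne_one).trans (h.one i)
  top i := (bump_of_ne r i (by omega)).trans_ne (h.top i)
  zero i l hl := (bump_of_ne r i (by omega)).trans (h.zero i l hl)

theorem bump_zero : bump n 0 g = g := by funext i l; simp [bump]

theorem bump_neg (r : K) : bump n (-r) (bump n r g) = g := by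
  funext i l
  simp only [bump]
  split_ifs <;> simp

theorem sum_bump (hn : 0 < n) (r : K) :
    ∑ i ∈ Finset.range n, bump n r g i 1 = ∑ i ∈ Finset.range n, g i 1 - r := by
  obtain ⟨m, rfl⟩ := Nat.exists_eq_succ_of_ne_zero hn.ne'
  rw [Finset.sum_range_succ', Finset.sum_range_succ', add_sub_assoc]
  congr 1
  refine Finset.sum_congr rfl fun i hi => if_neg fun e => ?_
  have := Nat.le_of_dvd i.succ_pos (Int.natCast_dvd_natCast.1 e.2)
  have := Finset.mem_range.1 hi
  omega

/-- The translation of one coefficient, on flags with only one member. -/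
def bumpF (n w : ℕ) (r : K) (x : ℕ → Sp K) (i : ℕ) : Sp K :=
  if i = w then Sol w (bump n r (coef n w (x w))) else ⊥

variable {x : ℕ → Sp K}

theorem bumpF_top (r : K) : bumpF n w r x w = Sol w (bump n r (coef n w (x w))) := if_pos rfl

theorem Flag.bumpF_flag (h : Flag n w ∅ x) (hw : 2 ≤ w) (r : K) : Flag n w ∅ (bumpF n w r x) :=
  ⟨bumpF_top r ▸ (h.rel.band.bump_band hw r).rel, by simp, by simp, by simp, by simp,
    fun _ _ e => if_neg e⟩

theorem Flag.bumpF_zero (h : Flag n w ∅ x) : bumpF n w 0 x = x := by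
  funext i
  rw [bumpF, bump_zero, ← h.rel.eq_sol]
  split_ifs with e
  · rw [e]
  · exact (h.bot i (by simp) e).symm

theorem Flag.bumpF_neg (h : Flag n w ∅ x) (hw : 2 ≤ w) (r : K) :
    bumpF n w (-r) (bumpF n w r x) = x := by
  funext i
  rw [bumpF, bumpF_top, (h.rel.band.bump_band hw r).coef_sol, bump_neg, ← h.rel.eq_sol]
  split_ifs with e
  · rw [e]
  · exact (h.bot i (by simp) e).symm

theorem Flag.fU_bumpF (h : Flag n w ∅ x) (hn : 0 < n) (hw : 2 ≤ w) (r : K) :
    fU n w (bumpF n w r x w) = fU n w (x w) + r := by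
  rw [bumpF_top, fU, fU, (h.rel.band.bump_band hw r).coef_sol, sum_bump hn]
  ring

theorem Flag.chi_bumpF (h : Flag n w ∅ x) (hw : 2 ≤ w) (r : K) :
    (chi n (bumpF n w r x w)).coeff 0 = (chi n (x w)).coeff 0 := by
  rw [bumpF_top, (h.rel.band.bump_band hw r).chi_sol_coeff]
  conv_rhs => rw [h.rel.eq_sol, h.rel.band.chi_sol_coeff]
  simp only [bump_of_ne r _ (show w ≠ 1 by omega)]

end Bump

theorem Place.gr_bumpF {k : Type} [Field k] {K K' : Fld k} {φ : Place K K'} {n w : ℕ} {x : ℕ → Sp K} {y : ℕ → Sp K'}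
    (hx : Flag n w ∅ x) (hy : Flag n w ∅ y) (hw : 2 ≤ w) (h : φ.GR (x w) (y w)) {r : K} {r' : K'}
    (hr : φ r r') (i : ℕ) : φ.GR (bumpF n w r x i) (bumpF n w r' y i) := by
  simp only [bumpF]
  split_ifs
  · refine Place.CR.sol (fun i l => ?_) (hx.rel.band.bump_band hw r) (hy.rel.band.bump_band hw r')
    simp only [bump]
    split_ifs
    exacts [(h.coef hx.rel hy.rel i l).sub hr, h.coef hx.rel hy.rel i l]
  · exact .bot

end Aux

variable {k : Type} [Field k] {F : Type} [Field F] {χ : Chr k F} {n : ℕ} [NeZero n] {w j l : ℕ}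
  {I : Finset ℕ} {P : Pt k} {T : PC P}

open Pt Place

/-- The entries at `u` and `v` are replaced. -/
def rep2 {K : Type} (u v : Fin w × Fin n) (x : Fin w → Fin n → K) (s t : K) (c : Fin w)
    (i : Fin n) : K := if (c, i) = u then s else if (c, i) = v then t else x c i

theorem swap_coord {u v : Fin w × Fin n} (ne : u ≠ v)
    (hT : ∀ ⦃K : Fld k⦄ (x : Fin w → Fin n → K) (s t : K) (p : P.X K),
      s * t = x u.1 u.2 * x v.1 v.2 → T.T (chiA x) p → T.T (chiA (rep2 u v x s t)) p) :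
    ((Av k n w).over T).Swap (fun _ x => x.1 u.1 u.2) (fun _ x => x.1 v.1 v.2) (fun _ _ => 1)
      fun _ x s t => (rep2 u v x.1 s t, x.2) := by
  have ea {K : Fld k} (x : Fin w → Fin n → K) (s t : K) : rep2 u v x s t u.1 u.2 = s := by
    simp [rep2]
  have eb {K : Fld k} (x : Fin w → Fin n → K) (s t : K) : rep2 u v x s t v.1 v.2 = t := by
    simp [rep2, ne.symm]
  have ec {K : Fld k} (x : Fin w → Fin n → K) (s t : K) (y : Fin w × Fin n) (h : y ≠ u)
      (h' : y ≠ v) : rep2 u v x s t y.1 y.2 = x y.1 y.2 := by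
    rw [rep2, if_neg h, if_neg h']
  have self {K : Fld k} (x y : Fin w → Fin n → K)
      (h : ∀ z : Fin w × Fin n, z ≠ u → z ≠ v → y z.1 z.2 = x z.1 z.2) :
      rep2 u v y (x u.1 u.2) (x v.1 v.2) = x := by
    funext c j
    simp only [rep2]
    split_ifs with h1 h2
    · rw [← h1]
    · rw [← h2]
    · exact h (c, j) h1 h2
  refine ⟨fun _ _ _ _ _ _ _ r => r.1 _ _, fun _ _ _ _ _ _ _ r => r.1 _ _, regF_one,
    fun _ _ _ => one_ne_zero, fun K x _ => Prod.ext (self x.1 x.1 fun _ _ _ => rfl) rfl,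
    fun K x s t h e => ?_, fun K K' φ x y s t s' t' _ _ r hs ht _ => ⟨fun c j => ?_, r.2⟩⟩
  · have h0 : s * t ≠ 0 := e ▸ mul_ne_zero (h.1.1 _ _).2 (h.1.1 _ _).2
    refine ⟨⟨⟨fun c j => ⟨trivial, ?_⟩, h.1.2⟩, hT _ _ _ _ e h.2⟩, ea _ _ _, eb _ _ _, rfl, ?_,
      Prod.ext (self x.1 _ (ec x.1 s t)) rfl⟩
    · simp only [rep2]
      split_ifs
      exacts [left_ne_zero_of_mul h0, right_ne_zero_of_mul h0, (h.1.1 c j).2]
    · change (∑ c, ∑ j, rep2 u v x.1 s t c j) + P.f x.2 = (∑ c, ∑ j, x.1 c j) + P.f x.2 + _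
      rw [← Fintype.sum_prod_type', ← Fintype.sum_prod_type', sum_two ne (ec x.1 s t), ea, eb]
      ring
  · simp only [rep2]
    split_ifs
    exacts [hs, ht, r.1 c j]

variable (χ T) in
/-- The permutations of the coordinates that act by their signs. -/
def sgnActs : Submonoid (Equiv.Perm (Fin w × Fin n)) where
  carrier := {π | (∀ ⦃K⦄ (x : ((Av k n w).over T).X K), ((Av k n w).over T).L x →
      ((Av k n w).over T).L (K := K) (fun c i => x.1 (π (c, i)).1 (π (c, i)).2, x.2)) ∧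
    ((Av k n w).over T).Acts χ (fun _ x => (fun c i => x.1 (π (c, i)).1 (π (c, i)).2, x.2))
      ((Equiv.Perm.sign π : ℤ) : F)}
  one_mem' := ⟨fun _ _ h => h, by simpa using Acts.of_fix fun _ _ _ => rfl⟩
  mul_mem' h h' := ⟨fun _ x a => h'.1 _ (h.1 x a),
    h.2.comp h'.2 h.1 (fun _ _ _ => rfl) (by simp)⟩

theorem swap_mem (hχ : χ.ψ 1 ≠ 1) {u v : Fin w × Fin n} (ne : u ≠ v)
    (hT : ∀ ⦃K : Fld k⦄ (x : Fin w → Fin n → K) (s t : K) (p : P.X K),
      s * t = x u.1 u.2 * x v.1 v.2 → T.T (chiA x) p → T.T (chiA (rep2 u v x s t)) p) :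
    Equiv.swap u v ∈ sgnActs χ T := by
  have e {K : Fld k} (x : Fin w → Fin n → K) : (fun c i => x (Equiv.swap u v (c, i)).1
      (Equiv.swap u v (c, i)).2) = rep2 u v x (x v.1 v.2) (x u.1 u.2) := by
    funext c i
    simp only [rep2, Equiv.swap_apply_def]
    split_ifs <;> rfl
  refine ⟨fun K x h => ?_, ?_⟩
  · rw [e]
    exact ((swap_coord ne hT).spec x _ _ h (mul_comm _ _)).1
  · simp only [e, Equiv.Perm.sign_swap ne]
    simpa using (swap_coord ne hT).acts hχ

theorem extend_mem (hχ : χ.ψ 1 ≠ 1) (a : Fin w) (σ : Equiv.Perm (Fin n)) :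
    Equiv.Perm.prodExtendRight a σ ∈ sgnActs χ T := by
  induction σ using Equiv.Perm.swap_induction_on with
  | one =>
    rw [show Equiv.Perm.prodExtendRight a (1 : Equiv.Perm (Fin n)) = 1 from
      Equiv.ext fun ⟨c, l⟩ => by simp +contextual [Equiv.Perm.prodExtendRight, eq_comm]]
    exact one_mem _
  | swap_mul σ i j hij ih =>
    have e : Equiv.Perm.prodExtendRight a (Equiv.swap i j * σ) =
        Equiv.swap (a, i) (a, j) * Equiv.Perm.prodExtendRight a σ := Equiv.ext fun ⟨c, l⟩ => by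
      by_cases h : c = a
      · subst h
        simp only [Equiv.Perm.prodExtendRight_apply_eq, Equiv.Perm.mul_apply, Equiv.swap_apply_def,
          Prod.mk.injEq, true_and]
        split_ifs <;> rfl
      · simp [Equiv.Perm.prodExtendRight_apply_ne _ h, Equiv.swap_apply_def, h]
    rw [e]
    refine mul_mem (swap_mem hχ (by simpa using hij) fun K x s t p h => ?_) ih
    suffices ∀ c, ∏ l, rep2 (a, i) (a, j) x s t c l = ∏ l, x c l by
      rw [show chiA (rep2 (a, i) (a, j) x s t) = chiA x from funext fun m => by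
        simp only [chiA, this]]
      exact id
    intro c
    by_cases hc : c = a
    · subst hc
      exact prod_two hij (fun l h1 h2 => by simp [rep2, h1, h2]) (by simpa [rep2, hij.symm] using h)
    · simp [rep2, hc]

/-- The same permutation of the coordinates of all operators. -/
theorem acts_diag (hχ : χ.ψ 1 ≠ 1) (T : PC P) (σ : Equiv.Perm (Fin n)) :
    ((Av k n w).over T).Acts χ (fun _ x => (fun a i => x.1 a (σ i), x.2))
      (((Equiv.Perm.sign σ : ℤ) : F) ^ w) := by
  have : Equiv.prodCongrRight (fun _ : Fin w => σ) ∈ sgnActs χ T := by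
    rw [← Equiv.Perm.prod_prodExtendRight _ (Finset.nodup_toList Finset.univ) (by simp)]
    refine list_prod_mem fun π hπ => ?_
    obtain ⟨a, -, rfl⟩ := List.mem_map.1 hπ
    exact extend_mem hχ a σ
  simpa [Equiv.Perm.sign_prodCongrRight] using this.2

section
variable (hχ : χ.ψ 1 ≠ 1) (hT : ∀ ⦃K : Fld k⦄ (c c' : ℕ → K[X]) (p : P.X K),
  (c w).coeff 0 = (c' w).coeff 0 → T.T c p → T.T c' p)
include hχ hT

theorem all_mem (π : Equiv.Perm (Fin w × Fin n)) : π ∈ sgnActs χ T := by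
  induction π using Equiv.Perm.swap_induction_on with
  | one => exact one_mem _
  | swap_mul π u v ne ih =>
    refine mul_mem (swap_mem hχ ne fun K x s t p h => hT _ _ p ?_) ih
    rw [chiA_coeff, chiA_coeff, prod_two (u := fun y : Fin w × Fin n => x y.1 y.2)
      (v := fun y => rep2 u v x s t y.1 y.2) ne (fun y h1 h2 => by simp [rep2, h1, h2])
      (by simpa [rep2, ne.symm] using h)]

theorem acts_swap {a b : Fin w} (h : a ≠ b) :
    ((Av k n w).over T).Acts χ (fun _ x => (pm (Equiv.swap a b) x.1, x.2)) ((-1) ^ n) := by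
  have := (all_mem hχ hT (Equiv.prodCongrLeft fun _ : Fin n => Equiv.swap a b)).2
  rw [show (((Equiv.Perm.sign (Equiv.prodCongrLeft fun _ : Fin n => Equiv.swap a b) : ℤˣ) : ℤ) : F) =
    (-1) ^ n by simp [Equiv.Perm.sign_prodCongrLeft, Equiv.Perm.sign_swap h]] at this
  exact this

theorem null_eI [CharZero F] (hw : 2 ≤ w) : Null (eI χ n w ∅ T) := by
  have d : T.Dep (JI w ∅) := fun _ c c' p e => hT c c' p (by rw [e w (.inr rfl)])
  have ne : (⟨0, by omega⟩ : Fin w) ≠ ⟨1, by omega⟩ := by simp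
  obtain ⟨h1, h2⟩ := acts_swap (n := n) hχ hT ne
  have h3 := h2.comp (eI χ n w ∅ T)
  rw [← h1.hm_eq, Preadditive.sub_comp, Linear.smul_comp, Category.id_comp] at h3
  erw [pm_eI d (young_empty w ▸ Subgroup.mem_top _)] at h3
  rw [eps_swap ne, ← sub_smul] at h3
  have h4 : ((-1 : F) ^ (n + 1) - (-1) ^ n) ≠ 0 := by
    rw [pow_succ, ← mul_sub_one]
    exact mul_ne_zero (pow_ne_zero _ (by norm_num)) (by norm_num)
  simpa [smul_smul, h4] using h3.smul ((-1 : F) ^ (n + 1) - (-1) ^ n)⁻¹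

theorem uzero_norm (hw : 2 ≤ w) : UZero (((Zv k n w ∅).over T).E χ) :=
  Flow.uzero hχ (τ := fun _ r x => (bumpF n w r x.1, x.2))
    ⟨fun _ r x h => ⟨⟨h.1.1.bumpF_flag hw r, h.1.2⟩, hT _ _ _ (h.1.1.chi_bumpF hw r).symm h.2⟩,
      fun _ _ h => Prod.ext h.1.1.bumpF_zero rfl, fun _ r _ h => Prod.ext (h.1.1.bumpF_neg hw r) rfl,
      fun _ r x h => (congrArg (· + P.f x.2) (h.1.1.fU_bumpF (NeZero.pos n) hw r)).trans
        (add_right_comm _ _ _),
      fun _ _ _ _ _ _ _ hr a b h => ⟨gr_bumpF a.1.1 b.1.1 hw (h.1 w) hr, h.2⟩⟩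

end

end

end Pool.Agent.Lib.MP_fc2ced_ag.K
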