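import Pool.Agent.Lib.MP_fc2ced_ag.K.Geo
import Pool.Agent.Lib.MP_fc2ced_ag.K.Cube
import Pool.Agent.Lib.MP_fc2ced_ag.K.Cov

/-! The complex of flags in the spaces of dimension `n + 1` with a single eigenvalue. -/

open CategoryTheory Function Polynomial

namespace Pool.Agent.Lib.MP_fc2ced_ag.K

noncomputable section

variable {k : Type} [Field k] {F : Type} [Field F] {χ : Chr k F} {n : ℕ} [NeZero n] {w j l : ℕ}
  {I : Finset ℕ} {P : Pt k} {T : PC P}

open Pt Place

variable (n) in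
/-- The characteristic polynomial has the single root `a`. -/
def oneEig (a : k) : PC (unit k) where
  T K c _ := c (n + 1) = (Polynomial.X - C (algebraMap k K a)) ^ (n + 1)
  conv _ _ _ φ _ _ _ _ _ _ _ _ _ _ h _ _ _ t _ :=
    (t ▸ h (n + 1)).func ((PR.X.sub (PR.C (φ.alg a))).pow _)

variable [CharZero F]

variable (χ n) in
/-- The terms of the complex. -/
abbrev cuB (a : k) (I : Finset ℕ) : Ob k F := ((Zv k n (n + 1) I).over (oneEig n a)).E χ

variable (χ n) in
/-- The maps of the complex. -/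
abbrev cuD (a : k) (I J : Finset ℕ) : cuB χ n a I ⟶ cuB χ n a J :=
  ov χ (Zv k n (n + 1) I) (Zv k n (n + 1) J) (oneEig n a) fun _ x => forget (n + 1) J x

namespace CubeGAux

open Finset Module

section
variable {K : Type} [Field K] {x : ℕ → Sp K} {b : K}

variable (n b x) in
/-- Flags in the poset of invariant subspaces. -/
abbrev FlE : Prop := Fl (n + 1) (fun U : Sp K => finrank K U)
  (fun U => Rel n (n + 1) U ∧ chi n U = (Polynomial.X - C b) ^ (n + 1)) (Stab n) x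

omit [NeZero n] in
theorem pos {U : Sp K} (h : Stab n U) (e : U ≠ ⊥) : 0 < finrank K U :=
  have := h.fin
  Nat.pos_of_ne_zero fun h => e (Submodule.finrank_eq_zero.1 h)

omit [NeZero n] in
theorem ne_bot {U : Sp K} (h : 0 < finrank K U) : U ≠ ⊥ := fun e => by
  rw [e, finrank_bot] at h
  exact h.false

omit [NeZero n] in
theorem mem_ty {i : ℕ} : i ∈ ty w x ↔ (0 < i ∧ i < w) ∧ x i ≠ ⊥ := by simp [ty]

omit [NeZero n] in
theorem flag_iff (hI : I ⊆ Ioo 0 (n + 1)) :
    Flag n (n + 1) I x ∧ chi n (x (n + 1)) = (Polynomial.X - C b) ^ (n + 1) ↔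
      FlE n x b ∧ ty (n + 1) x = I := by
  refine ⟨fun ⟨h, e⟩ => ?_, fun ⟨h, e⟩ => ?_⟩
  · have m : ∀ i, x i ≠ ⊥ → i ∈ I ∨ i = n + 1 := fun i hi => by
      by_contra c
      exact hi (h.bot i (not_or.1 c).1 (not_or.1 c).2)
    refine ⟨⟨⟨h.rel, e⟩, fun i h1 h2 => ?_, fun i j h1 h2 => ?_⟩, ext fun i => mem_ty.trans
      ⟨fun c => (m i c.2).resolve_right c.1.2.ne, fun c => ⟨mem_Ioo.1 (hI c), ne_bot ?_⟩⟩⟩
    · have := (m i h2).resolve_right h1
      exact ⟨h.stab i this, h.rank i this, (mem_Ioo.1 (hI this)).2⟩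
    · by_cases c : x i = ⊥
      · exact c.le.trans bot_le
      · rcases m i c with d | rfl
        · exact h.le_of d (m j h2) h1
        · rcases m j h2 with d | rfl
          · exact absurd (mem_Ioo.1 (hI d)).2 h1.not_gt
          · exact le_rfl
    · rw [h.rank i c]
      exact (mem_Ioo.1 (hI c)).1
  · subst e
    refine ⟨⟨h.ok.1, fun i hi => (h.good i (mem_ty.1 hi).1.2.ne (mem_ty.1 hi).2).1,
      fun i hi => (h.good i (mem_ty.1 hi).1.2.ne (mem_ty.1 hi).2).2.1,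
      fun i hi => h.mono i _ (mem_ty.1 hi).1.2.le (ne_bot (n.succ_pos.trans_eq h.ok.1.finrank_eq.symm)),
      fun i _ j hj e => h.mono i j e (mem_ty.1 hj).2, fun i h1 h2 => ?_⟩, h.ok.2⟩
    by_contra c
    obtain ⟨a1, a2, a3⟩ := h.good i h2 c
    exact h1 (mem_ty.2 ⟨⟨a2 ▸ pos a1 c, a3⟩, c⟩)

omit [CharZero F] in
theorem exists_bdE (r : ℕ) (v : (ℕ → Sp K) →₀ F)
    (hv : ∀ x ∈ v.support, FlE n x b ∧ (ty (n + 1) x).card = r) (h : bd F (n + 1) v = 0) :
    ∃ u : (ℕ → Sp K) →₀ F, (∀ x ∈ u.support, FlE n x b ∧ (ty (n + 1) x).card = r + 1) ∧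
      bd F (n + 1) u = v := by
  refine exists_bd (fun u h => ⟨h.1.stab, h.1.finrank_eq⟩) (fun _ _ _ h e => ?_) (fun u h => ?_)
    (fun _ => pos) (fun u h => ne_bot (n.succ_pos.trans_eq h.1.finrank_eq.symm)) r v hv h
  · have := h.fin
    exact Submodule.finrank_lt_finrank_of_lt e
  · obtain ⟨c, h1, h2, h3⟩ := h.1.exists_apex (NeZero.pos n) b h.2
    exact ⟨c, h1, fun W g l e => ⟨h2 _ inf_le_right, h3 W l g e⟩⟩

omit [NeZero n] in
theorem forget_erase (h : Flag n w I x) {i : ℕ} (hi : i ≠ w) :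
    forget w (I.erase i) x = update x i ⊥ := by
  funext j
  by_cases e : j = i
  · subst e
    simp [forget, hi]
  · rw [update_of_ne e]
    conv_rhs => rw [← h.forget_self]
    simp [forget, e]

end

variable (a : k) (K : Fld k)

omit [NeZero n] in
theorem dep : (oneEig n a).Dep (JI (n + 1) I) := fun _ _ _ _ h e => (h _ (.inr rfl)).symm.trans e

variable (χ n) in
/-- The chain given by a combination of flags of type `I`. -/
def ph (I : Finset ℕ) : (cuB χ n a I).V K →ₗ[F] ((ℕ → Sp K) →₀ F) :=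
  ((Zv k n (n + 1) I).over (oneEig n a)).lf fun x => Finsupp.single x.1 1

variable (χ n) in
/-- The part of type `I` of a chain. -/
def ps (I : Finset ℕ) : ((ℕ → Sp K) →₀ F) →ₗ[F] (cuB χ n a I).V K :=
  Finsupp.linearCombination F fun x => ((Zv k n (n + 1) I).over (oneEig n a)).cl F (x, ())

variable (χ n) in
/-- The total chain. -/
def Ph (r : ℕ) : (Ob.pi fun I : Pc (n + 1) r => cuB χ n a I.1).V K →ₗ[F] ((ℕ → Sp K) →₀ F) :=
  ∑ I : Pc (n + 1) r, ph χ n a K I.1 ∘ₗ LinearMap.proj I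

variable {a K} {r : ℕ}

theorem live_iff (hI : I ⊆ Ioo 0 (n + 1)) {x : ((Zv k n (n + 1) I).over (oneEig n a)).X K} :
    ((Zv k n (n + 1) I).over (oneEig n a)).L x ↔
      FlE n x.1 (algebraMap k K a) ∧ ty (n + 1) x.1 = I :=
  ⟨fun h => (flag_iff hI).1 ⟨h.1.1, h.2⟩,
    fun h => ⟨⟨((flag_iff hI).2 h).1, trivial⟩, ((flag_iff hI).2 h).2⟩⟩

omit [CharZero F] in
theorem ph_cl {x : ((Zv k n (n + 1) I).over (oneEig n a)).X K}
    (h : ((Zv k n (n + 1) I).over (oneEig n a)).L x) :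
    ph χ n a K I (Pt.cl F _ x) = Finsupp.single x.1 1 := lf_cl h

omit [CharZero F] in
theorem Ph_single (I : Pc (n + 1) r) (v : (cuB χ n a I.1).V K) :
    Ph χ n a K r (Pi.single I v) = ph χ n a K I.1 v := by
  rw [Ph, LinearMap.sum_apply, sum_eq_single I (fun J _ h => by simp [Pi.single_eq_of_ne h])
    (by simp)]
  simp

omit [CharZero F] in
theorem pi_ext' {W : Type} [AddCommGroup W] [Module F W]
    {f g : (Ob.pi fun I : Pc (n + 1) r => cuB χ n a I.1).V K →ₗ[F] W}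
    (h : ∀ (I : Pc (n + 1) r) x, ((Zv k n (n + 1) I.1).over (oneEig n a)).L x →
      f (Pi.single I (Pt.cl F _ x)) = g (Pi.single I (Pt.cl F _ x))) : f = g :=
  LinearMap.pi_ext' fun I => lin_ext (h I)

omit [CharZero F] in
theorem Ph_inj : Injective (Ph χ n a K r) := by
  have : (LinearMap.pi fun I : Pc (n + 1) r => ps χ n a K I.1) ∘ₗ Ph χ n a K r = .id :=
    pi_ext' fun I x hx => funext fun J => by
      rw [LinearMap.comp_apply, Ph_single, ph_cl hx, LinearMap.pi_apply, ps,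
        Finsupp.linearCombination_single, one_smul, LinearMap.id_apply]
      by_cases e : J = I
      · subst e
        rw [Pi.single_eq_same]
      · rw [Pi.single_eq_of_ne e]
        exact cl_dead fun h => e (Subtype.ext
          (((live_iff J.sub).1 h).2.symm.trans ((live_iff I.sub).1 hx).2))
  exact LeftInverse.injective (g := LinearMap.pi fun I : Pc (n + 1) r => ps χ n a K I.1)
    fun v => congr($this v)

omit [CharZero F] in
theorem range_Ph : LinearMap.range (Ph χ n a K r) = Finsupp.supported F F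
    {x | FlE n x (algebraMap k K a) ∧ (ty (n + 1) x).card = r} := by
  refine le_antisymm (LinearMap.range_le_ker_iff (g := Submodule.mkQ _).2 (pi_ext' fun I x hx => ?_)
    |>.trans_eq (Submodule.ker_mkQ _)) ?_
  · rw [LinearMap.comp_apply, Ph_single, ph_cl hx]
    have := (live_iff I.sub).1 hx
    exact (Submodule.Quotient.mk_eq_zero _).2
      (Finsupp.single_mem_supported _ _ ⟨this.1, this.2 ▸ I.card⟩)
  · rw [Finsupp.supported_eq_span_single, Submodule.span_le]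
    rintro _ ⟨x, hx, rfl⟩
    have h : ty (n + 1) x ⊆ Ioo 0 (n + 1) := fun i hi => mem_Ioo.2 (mem_ty.1 hi).1
    exact ⟨Pi.single ⟨_, mem_powersetCard.2 ⟨h, hx.2⟩⟩ (Pt.cl F _ (x, ())),
      (Ph_single _ _).trans (ph_cl ((live_iff h).2 ⟨hx.1, rfl⟩))⟩

omit [CharZero F] in
theorem Ph_totD (v : (Ob.pi fun I : Pc (n + 1) (r + 1) => cuB χ n a I.1).V K) :
    Ph χ n a K r ((totD (cuB χ n a) (cuD χ n a) (n + 1) r).1 K v) =
      bd F (n + 1) (Ph χ n a K (r + 1) v) := by
  refine congr($(pi_ext' (f := Ph χ n a K r ∘ₗ (totD (cuB χ n a) (cuD χ n a) (n + 1) r).1 K)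
    (g := bd F (n + 1) ∘ₗ Ph χ n a K (r + 1)) fun I x hx => ?_) v)
  have e : ∀ J : Pc (n + 1) r, (totD (cuB χ n a) (cuD χ n a) (n + 1) r).1 K
      (Pi.single I (Pt.cl F _ x)) J = sgn F I.1 J.1 • (cuD χ n a I.1 J.1).1 K (Pt.cl F _ x) :=
    fun J => congr(($(piIn_totD (B := cuB χ n a) (dd := cuD χ n a) (n + 1) r I J)).1 K
      (Pt.cl F _ x))
  rw [LinearMap.comp_apply, LinearMap.comp_apply, Ph_single, ph_cl hx, bd,
    Finsupp.linearCombination_single, one_smul, ((live_iff I.sub).1 hx).2, Ph, LinearMap.sum_apply]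
  simp only [LinearMap.comp_apply, LinearMap.proj_apply, e, map_smul]
  rw [sum_coe_sort _ fun J => sgn F I.1 J • ph χ n a K J ((cuD χ n a I.1 J).1 K (Pt.cl F _ x))]
  simp only [sgn, sum_smul, ite_smul, zero_smul]
  rw [sum_comm]
  refine sum_congr rfl fun i hi => ?_
  have s := erase_subset i I.1
  rw [sum_ite_eq', if_pos (mem_powersetCard.2 ⟨s.trans I.sub, by
    rw [card_erase_of_mem hi, I.card]; rfl⟩), (pmap_forget s).ov_cl (dep a) hx,
    ← forget_erase hx.1.1 (mem_Ioo.1 (I.sub hi)).2.ne]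
  exact congrArg _ (ph_cl (x := (_, x.2))
    ⟨⟨hx.1.1.forget_flag s, trivial⟩, (congrArg (chi n) forget_top).trans hx.2⟩)

omit [CharZero F] in
theorem exists_totD (v : (Ob.pi fun I : Pc (n + 1) r => cuB χ n a I.1).V K)
    (h : bd F (n + 1) (Ph χ n a K r v) = 0) :
    ∃ u, (totD (cuB χ n a) (cuD χ n a) (n + 1) r).1 K u = v := by
  obtain ⟨u, h1, h2⟩ := exists_bdE r _ (range_Ph.le ⟨v, rfl⟩) h
  obtain ⟨u, rfl⟩ := (range_Ph (χ := χ)).ge h1
  exact ⟨u, Ph_inj ((Ph_totD u).trans h2)⟩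

end CubeGAux

open CubeGAux in
theorem cube_exact (a : k) : Surj (totD (cuB χ n a) (cuD χ n a) (n + 1) 0) ∧
    ∀ r K, Exact ((totD (cuB χ n a) (cuD χ n a) (n + 1) (r + 1)).1 K)
      ((totD (cuB χ n a) (cuD χ n a) (n + 1) r).1 K) := by
  refine ⟨fun K v => exists_totD v congr($(pi_ext' (f := bd F (n + 1) ∘ₗ Ph χ n a K 0) (g := 0)
    fun I x hx => ?_) v), fun r K v => ⟨fun h => exists_totD v ?_, ?_⟩⟩
  · rw [LinearMap.comp_apply, Ph_single, ph_cl hx, bd, Finsupp.linearCombination_single,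
      ((live_iff I.sub).1 hx).2.trans (Finset.card_eq_zero.1 I.card)]
    simp
  · rw [← Ph_totD, h, map_zero]
  · rintro ⟨u, rfl⟩
    exact Ph_inj (by rw [Ph_totD, Ph_totD, bd_bd, map_zero])

end

end Pool.Agent.Lib.MP_fc2ced_ag.K
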