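import Mathlib

/-! The chain complex of incomplete flags in a graded poset. -/

namespace Pool.Agent.Lib.MP_fc2ced_ag.K

noncomputable section

variable {F : Type} [Field F] {P : Type} [SemilatticeInf P] [OrderBot P]

open Classical in
/-- The type of a incomplete flag. -/
def ty (m : ℕ) (x : ℕ → P) : Finset ℕ := (Finset.Ioo 0 m).filter (x · ≠ ⊥)

variable (F) in
/-- The boundary operator. -/
def bd (m : ℕ) : ((ℕ → P) →₀ F) →ₗ[F] ((ℕ → P) →₀ F) :=
  Finsupp.linearCombination F fun x => ∑ i ∈ ty m x,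
    (-1 : F) ^ ((ty m x).filter (· < i)).card • Finsupp.single (Function.update x i ⊥) 1

/-- Incomplete flags below a top element of rank `m`. -/
structure Fl (m : ℕ) (rk : P → ℕ) (ok good : P → Prop) (x : ℕ → P) : Prop where
  ok : ok (x m)
  good : ∀ i, i ≠ m → x i ≠ ⊥ → good (x i) ∧ rk (x i) = i ∧ i < m
  mono : ∀ i j, i ≤ j → x j ≠ ⊥ → x i ≤ x j

variable (F) in
/-- The incidence signs. -/
def sgn (I J : Finset ℕ) : F :=
  ∑ i ∈ I, if J = I.erase i then (-1 : F) ^ (I.filter (· < i)).card else 0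

namespace Cx

open Finset Function
open Finsupp (single supported linearCombination linearCombination_single lhom_ext' lsingle_apply
  supported_eq_span_single single_mem_supported mem_supported)

open Classical in
/-- The occupied places among the places of `I`. -/
def tI (I : Finset ℕ) (x : ℕ → P) : Finset ℕ := I.filter (x · ≠ ⊥)

variable {I : Finset ℕ} {i j k m r : ℕ} {x : ℕ → P} {a b : P} {p q : P → Prop}
  {v : (ℕ → P) →₀ F}

omit [SemilatticeInf P] [OrderBot P] in
theorem map_mem {S : Set (ℕ → P)} {N : Submodule F ((ℕ → P) →₀ F)}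
    (T : Module.End F ((ℕ → P) →₀ F)) (h : ∀ x ∈ S, T (single x 1) ∈ N)
    (hv : v ∈ supported F F S) : T v ∈ N := by
  rw [supported_eq_span_single] at hv
  exact (Submodule.span_le (p := N.comap T)).2 (by rintro _ ⟨x, hx, rfl⟩; exact h x hx) hv

omit [SemilatticeInf P] [OrderBot P] in
theorem sup_mono {S S' : Set (ℕ → P)} (hv : v ∈ supported F F S) (h : ∀ x ∈ S, x ∈ S') :
    v ∈ supported F F S' := Finsupp.supported_mono h hv

theorem mem_tI : i ∈ tI I x ↔ i ∈ I ∧ x i ≠ ⊥ := by simp [tI]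

theorem tI_out (h : i ∉ I) : tI I (update x i a) = tI I x := by
  ext j
  rw [mem_tI, mem_tI]
  exact and_congr_right fun k => by rw [update_of_ne (by rintro rfl; exact h k)]

theorem tI_bot (h : i ∈ I) (k : x i ≠ ⊥) : (tI I (update x i ⊥)).card + 1 = (tI I x).card := by
  rw [← card_erase_add_one (mem_tI.2 ⟨h, k⟩)]
  congr 2
  ext j
  by_cases e : j = i <;> simp [mem_tI, e]

theorem tI_ins (h : i ∈ I) (k : x i = ⊥) (ha : a ≠ ⊥) :
    (tI I (update x i a)).card = (tI I x).card + 1 := by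
  rw [← tI_bot h (by simpa using ha), update_idem, ← k, update_eq_self]

variable (F) in
open Classical in
/-- Change of one member of a flag, with a sign. -/
def opr (i : ℕ) (p : P → Prop) (a : P) : Module.End F ((ℕ → P) →₀ F) :=
  linearCombination F fun x =>
    if p (x i) then (-1 : F) ^ (tI (Ioo 0 i) x).card • single (update x i a) 1 else 0

theorem opr_pos (h : p (x i)) : opr F i p a (single x 1) =
    (-1 : F) ^ (tI (Ioo 0 i) x).card • single (update x i a) 1 := by
  rw [opr, linearCombination_single, one_smul, if_pos h]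

theorem opr_neg (h : ¬ p (x i)) : opr F i p a (single x 1) = 0 := by
  rw [opr, linearCombination_single, one_smul, if_neg h]

theorem opr_mem {S : Set (ℕ → P)} (h : p (x i) → update x i a ∈ S) :
    opr F i p a (single x 1) ∈ supported F F S := by
  by_cases k : p (x i)
  · rw [opr_pos k]
    exact Submodule.smul_mem _ _ (single_mem_supported _ _ (h k))
  · rw [opr_neg k]
    exact zero_mem _

theorem anti_lt (h0 : 0 < i) (h : i < j) (hp : ∀ c, p c → (c = ⊥ ↔ a ≠ ⊥)) :
    opr F j q b * opr F i p a + opr F i p a * opr F j q b = 0 := by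
  refine lhom_ext' fun x => LinearMap.ext_ring ?_
  simp only [LinearMap.comp_apply, lsingle_apply, LinearMap.add_apply, Module.End.mul_apply,
    LinearMap.zero_apply]
  have e1 : ∀ c, update x i c j = x j := fun c => update_of_ne h.ne' _ _
  have e2 : ∀ c, update x j c i = x i := fun c => update_of_ne h.ne _ _
  by_cases k1 : p (x i) <;> by_cases k2 : q (x j)
  · rw [opr_pos k1, opr_pos k2, map_smul, map_smul, opr_pos (by rwa [e1]), opr_pos (by rwa [e2]),
      tI_out (i := j) (by simp [h.le]), update_comm h.ne, smul_smul, smul_smul, ← add_smul]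
    have m : i ∈ Ioo 0 j := mem_Ioo.2 ⟨h0, h⟩
    by_cases k : x i = ⊥
    · rw [tI_ins m k ((hp _ k1).1 k), pow_succ]
      exact smul_eq_zero_of_left (by ring) _
    · rw [← tI_bot m k, not_not.1 (mt (hp _ k1).2 k), pow_succ]
      exact smul_eq_zero_of_left (by ring) _
  · rw [opr_pos k1, opr_neg k2, map_smul, opr_neg (by rwa [e1]), map_zero, smul_zero, add_zero]
  · rw [opr_neg k1, opr_pos k2, map_smul, opr_neg (by rwa [e2]), map_zero, smul_zero, add_zero]
  · rw [opr_neg k1, opr_neg k2, map_zero, map_zero, add_zero]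

theorem anti (hi : 0 < i) (hj : 0 < j) (h : i ≠ j) (hp : ∀ c, p c → (c = ⊥ ↔ a ≠ ⊥))
    (hq : ∀ c, q c → (c = ⊥ ↔ b ≠ ⊥)) :
    opr F j q b * opr F i p a + opr F i p a * opr F j q b = 0 := by
  rcases h.lt_or_gt with h | h
  · exact anti_lt hi h hp
  · rw [add_comm]
    exact anti_lt hj h hq

variable (F) in
/-- The boundary operator for the places of `I`. -/
def DI (I : Finset ℕ) : Module.End F ((ℕ → P) →₀ F) := ∑ i ∈ I, opr F i (· ≠ ⊥) ⊥

theorem DI_sq (hI : ∀ i ∈ I, 0 < i) : DI F I * DI F I = (0 : Module.End F ((ℕ → P) →₀ F)) := by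
  induction I using Finset.induction_on with
  | empty => simp [DI]
  | insert i I hi ih =>
    have e1 : opr F i (· ≠ ⊥) ⊥ * opr F i (· ≠ ⊥) (⊥ : P) = 0 := by
      refine lhom_ext' fun x => LinearMap.ext_ring ?_
      simp only [LinearMap.comp_apply, lsingle_apply, Module.End.mul_apply, LinearMap.zero_apply]
      by_cases k : x i ≠ ⊥
      · rw [opr_pos k, map_smul, opr_neg (by simp), smul_zero]
      · rw [opr_neg k, map_zero]
    have e2 : opr F i (· ≠ ⊥) ⊥ * DI F I + DI F I * opr F i (· ≠ ⊥) (⊥ : P) = 0 := by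
      rw [DI, mul_sum, sum_mul, ← sum_add_distrib]
      exact sum_eq_zero fun j hj => anti (hI j (mem_insert_of_mem hj)) (hI i (mem_insert_self _ _))
        (by rintro rfl; exact hi hj) (by simp) (by simp)
    rw [DI, sum_insert hi, ← DI, add_mul, mul_add, mul_add, e1,
      ih fun j hj => hI j (mem_insert_of_mem hj), zero_add, add_zero, e2]

theorem cone_id (hI : ∀ i ∈ I, 0 < i) (hi : i ∈ I) (ha : a ≠ ⊥) (hx : x i = ⊥ ∨ x i = a) :
    DI F I (opr F i (· = ⊥) a (single x 1)) + opr F i (· = ⊥) a (DI F I (single x 1)) =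
      single x 1 := by
  have e : DI F I * opr F i (· = ⊥) a + opr F i (· = ⊥) a * DI F I =
      opr F i (· ≠ ⊥) ⊥ * opr F i (· = ⊥) a + opr F i (· = ⊥) a * opr F i (· ≠ ⊥) ⊥ := by
    rw [DI, mul_sum, sum_mul, ← sum_add_distrib]
    exact sum_eq_single_of_mem i hi fun j hj h =>
      anti (hI i hi) (hI j hj) h.symm (by simp [ha]) (by simp)
  refine (LinearMap.congr_fun e _).trans ?_
  simp only [LinearMap.add_apply, Module.End.mul_apply]
  rcases hx with k | k
  · rw [opr_pos (p := (· = ⊥)) k, opr_neg (p := (· ≠ ⊥)) (not_not.2 k), map_smul, map_zero,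
      opr_pos (by simpa using ha), tI_out (by simp), update_idem, ← k, update_eq_self, smul_smul,
      ← pow_add, ← two_mul, pow_mul, neg_one_sq, one_pow, one_smul, add_zero]
  · rw [opr_neg (p := (· = ⊥)) (k ▸ ha), opr_pos (p := (· ≠ ⊥)) (k ▸ ha), map_smul, map_zero,
      opr_pos (by simp), tI_out (by simp), update_idem, ← k, update_eq_self, smul_smul,
      ← pow_add, ← two_mul, pow_mul, neg_one_sq, one_pow, one_smul, zero_add]

theorem bd_eq (m : ℕ) : bd F m = DI (P := P) F (Ioo 0 m) := by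
  classical
  refine lhom_ext' fun x => LinearMap.ext_ring ?_
  simp only [LinearMap.comp_apply, lsingle_apply, bd, DI, linearCombination_single, one_smul,
    LinearMap.sum_apply]
  rw [← sum_subset (s₁ := ty m x) (filter_subset _ _) fun i hi k =>
    opr_neg fun e => k (mem_tI.2 ⟨hi, e⟩)]
  refine sum_congr rfl fun i hi => ?_
  obtain ⟨h1, h2⟩ := mem_tI.1 hi
  rw [opr_pos (p := (· ≠ ⊥)) h2]
  congr 3
  ext j
  have := mem_Ioo.1 h1
  simp only [mem_filter, ty, tI, mem_Ioo]
  exact ⟨fun k => ⟨⟨k.1.1.1, k.2⟩, k.1.2⟩, fun k => ⟨⟨⟨k.1.1, by omega⟩, k.2⟩, k.1.2⟩⟩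

/-- Flags in the places between `k` and `m`. -/
structure Gf (k m : ℕ) (rk : P → ℕ) (pas : (ℕ → P) → Prop) (good : P → Prop) (r : ℕ)
    (x : ℕ → P) : Prop where
  pas : pas x
  good : ∀ i, k < i → i ≤ m → x i ≠ ⊥ → good (x i) ∧ rk (x i) = i
  mono : ∀ i j, k < i → i ≤ j → j ≤ m → x j ≠ ⊥ → x i ≤ x j
  deg : (tI (Ioo k m) x).card = r

variable {rk : P → ℕ} {pas : (ℕ → P) → Prop} {good : P → Prop}

theorem Gf.face (hp : ∀ x i a, k < i → i < m → pas x → pas (update x i a))
    (h : Gf k m rk pas good (r + 1) x) (h1 : k < i) (h2 : i < m) (h3 : x i ≠ ⊥) :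
    Gf k m rk pas good r (update x i ⊥) := by
  refine ⟨hp _ _ _ h1 h2 h.pas, fun j j1 j2 => ?_, fun j l j1 j2 j3 => ?_,
    Nat.succ_injective ((tI_bot (mem_Ioo.2 ⟨h1, h2⟩) h3).trans h.deg)⟩
  · by_cases e : j = i
    · simp [e]
    · simpa [e] using h.good j j1 j2
  · by_cases e : j = i <;> by_cases e' : l = i
    · simp [e]
    · simp [e]
    · simp [e']
    · simpa [e, e'] using h.mono j l j1 j2 j3

/-- Elements that can be inserted into a flag. -/
def Cp (k m : ℕ) (rk : P → ℕ) (good : P → Prop) (x : ℕ → P) (a : P) : Prop :=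
  good a ∧ a ≠ ⊥ ∧ k < rk a ∧ rk a < m ∧ ∀ i, k < i → i ≤ m → x i ≤ a ∨ a ≤ x i

theorem Gf.ins (hp : ∀ x i a, k < i → i < m → pas x → pas (update x i a))
    (hrk : ∀ a b, good a → good b → a < b → rk a < rk b) (h : Gf k m rk pas good r x)
    (c : Cp k m rk good x a) : (x (rk a) = ⊥ ∨ x (rk a) = a) ∧
      (x (rk a) = ⊥ → Gf k m rk pas good (r + 1) (update x (rk a) a)) := by
  obtain ⟨c1, c2, c3, c4, c5⟩ := c
  have le : ∀ a b, good a → good b → a ≤ b → rk b ≤ rk a → a = b := fun a b ga gb e k =>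
    e.eq_or_lt.resolve_right fun l => (hrk a b ga gb l).not_ge k
  refine ⟨or_iff_not_imp_left.2 fun e => ?_, fun e => ⟨hp _ _ _ c3 c4 h.pas, fun j j1 j2 => ?_,
    fun j l j1 j2 j3 => ?_, by rw [tI_ins (mem_Ioo.2 ⟨c3, c4⟩) e c2, h.deg]⟩⟩
  · obtain ⟨g1, g2⟩ := h.good _ c3 c4.le e
    exact (c5 _ c3 c4.le).elim (le _ _ g1 c1 · g2.ge) fun l => (le _ _ c1 g1 l g2.le).symm
  · by_cases e : j = rk a
    · simp [e, c1]
    · simpa [e] using h.good j j1 j2
  · by_cases e : j = rk a <;> by_cases e' : l = rk a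
    · simp [e, e']
    · rw [e, update_self, update_of_ne e']
      intro n
      obtain ⟨g1, g2⟩ := h.good l (by omega) j3 n
      exact (c5 l (by omega) j3).elim (fun l => (le _ _ g1 c1 l (by omega)).ge) id
    · rw [e', update_self, update_of_ne e]
      intro _
      by_cases n : x j = ⊥
      · exact n.le.trans bot_le
      obtain ⟨g1, g2⟩ := h.good j j1 (by omega) n
      exact (c5 j j1 (by omega)).elim id fun l => (le _ _ c1 g1 l (by omega)).ge
    · simpa [e, e'] using h.mono j l j1 j2 j3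

theorem cone (C : P → P) (hp : ∀ x i a, k < i → i < m → pas x → pas (update x i a))
    (hrk : ∀ a b, good a → good b → a < b → rk a < rk b)
    (hC : ∀ x, pas x → k < m ∧ C (x m) < x m ∧
      ∀ a, good a → a ≤ x m → a ≠ ⊥ → good (a ⊓ C (x m)) ∧ a ⊓ C (x m) ≠ ⊥)
    (h0 : ∀ a, good a → a ≠ ⊥ → k < rk a) (hv : v ∈ supported F F {x | Gf k m rk pas good r x})
    (h : DI F (Ioo k m) v = 0) :
    ∃ w ∈ supported F F {x | Gf k m rk pas good (r + 1) x}, DI F (Ioo k m) w = v := by
  classical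
  have hI : ∀ i ∈ Ioo k m, 0 < i := fun i hi => (mem_Ioo.1 hi).1.pos
  obtain ⟨J, hJ⟩ : ∃ J : (ℕ → P) → ℕ, ∀ x, J x = sInf {j | k < j ∧ ¬ x j ≤ C (x m)} :=
    ⟨_, fun _ => rfl⟩
  obtain ⟨γ, hγ⟩ : ∃ γ : (ℕ → P) → P, ∀ x, γ x = x (J x) ⊓ C (x m) := ⟨_, fun _ => rfl⟩
  obtain ⟨wt, hw⟩ : ∃ wt : (ℕ → P) → ℕ, ∀ x,
    wt x = ((Ioo k m).filter fun j => ¬ x j ≤ C (x m)).card := ⟨_, fun _ => rfl⟩
  have J1 : ∀ x, pas x → (k < J x ∧ ¬ x (J x) ≤ C (x m)) ∧
      ∀ j, k < j → ¬ x j ≤ C (x m) → J x ≤ j := fun x hx => by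
    rw [hJ]
    exact ⟨Nat.sInf_mem (s := {j | k < j ∧ ¬ x j ≤ C (x m)})
      ⟨m, (hC x hx).1, (hC x hx).2.1.not_ge⟩, fun j a b => Nat.sInf_le ⟨a, b⟩⟩
  have cp : ∀ r x, Gf k m rk pas good r x → Cp k m rk good x (γ x) := fun r x hx => by
    obtain ⟨⟨a1, a2⟩, a3⟩ := J1 x hx.pas
    obtain ⟨b1, b2, b3⟩ := hC x hx.pas
    have a4 := a3 m b1 b2.not_ge
    have a5 : x (J x) ≠ ⊥ := fun e => a2 (e.le.trans bot_le)
    obtain ⟨g1, g2⟩ := hx.good _ a1 a4 a5
    obtain ⟨g3, g4⟩ := b3 _ g1 (hx.mono _ _ a1 a4 le_rfl b2.ne_bot) a5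
    have := hrk _ _ g3 g1 (inf_lt_left.2 a2)
    rw [hγ]
    refine ⟨g3, g4, h0 _ g3 g4, by omega, fun i i1 i2 => ?_⟩
    rcases lt_or_ge i (J x) with l | l
    · exact .inl (le_inf (hx.mono _ _ i1 l.le a4 a5) (by_contra fun e => (a3 i i1 e).not_gt l))
    · by_cases n : x i = ⊥
      · exact .inl (n.le.trans bot_le)
      · exact .inr (inf_le_left.trans (hx.mono _ _ a1 l i2 n))
  obtain ⟨H, hH⟩ : ∃ H : Module.End F ((ℕ → P) →₀ F), ∀ x,
      H (single x 1) = opr F (rk (γ x)) (· = ⊥) (γ x) (single x 1) :=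
    ⟨linearCombination F fun x => opr F (rk (γ x)) (· = ⊥) (γ x) (single x 1), fun x => by simp⟩
  have ins : ∀ n r x a, Gf k m rk pas good r x → Cp k m rk good x a → a ≤ C (x m) → wt x < n →
      opr F (rk a) (· = ⊥) a (single x 1) ∈
        supported F F {x | Gf k m rk pas good (r + 1) x ∧ wt x < n} := fun n r x a hx c l e =>
    opr_mem fun z => ⟨(hx.ins hp hrk c).2 z, e.trans_eq' (by
      rw [hw, hw, update_of_ne c.2.2.2.1.ne']
      refine congrArg _ (filter_congr fun j _ => ?_)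
      by_cases e : j = rk a
      · simp [e, l, z]
      · rw [update_of_ne e])⟩
  have key : ∀ n x, Gf k m rk pas good r x → wt x < n + 1 →
      (1 - DI F (Ioo k m) * H - H * DI F (Ioo k m) : Module.End F _) (single x 1) ∈
        supported F F {x | Gf k m rk pas good r x ∧ wt x < n} := fun n x hx hn => by
    have c := cp r x hx
    have e := cone_id (F := F) hI (mem_Ioo.2 ⟨c.2.2.1, c.2.2.2.1⟩) c.2.1 (hx.ins hp hrk c).1
    simp only [LinearMap.sub_apply, Module.End.mul_apply, Module.End.one_apply, hH]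
    rw [← eq_sub_of_add_eq' e, ← LinearMap.sub_apply, DI, LinearMap.sum_apply, map_sum]
    refine sum_mem fun i hi => ?_
    by_cases n : x i = ⊥
    · rw [opr_neg (p := (· ≠ ⊥)) (not_not.2 n), map_zero]
      exact zero_mem _
    obtain ⟨i1, i2⟩ := mem_Ioo.1 hi
    obtain ⟨r, rfl⟩ : ∃ s, r = s + 1 := ⟨_, hx.deg.symm.trans (tI_bot hi n).symm⟩
    have hy := hx.face hp i1 i2 n
    have um : update x i ⊥ m = x m := update_of_ne i2.ne' _ _
    rw [opr_pos (p := (· ≠ ⊥)) n, map_smul, LinearMap.sub_apply, hH]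
    refine Submodule.smul_mem _ _ ?_
    obtain ⟨⟨a1, a2⟩, a3⟩ := J1 x hx.pas
    by_cases e : J x = i
    · have l : wt (update x i ⊥) < wt x := by
        rw [hw, hw, um]
        refine card_lt_card ⟨fun j => ?_, fun s => ?_⟩
        · by_cases e : j = i <;> simp [e]
        · simpa using s (mem_filter.2 ⟨hi, e ▸ a2⟩)
      refine sub_mem (ins _ _ _ _ hy ⟨c.1, c.2.1, c.2.2.1, c.2.2.2.1, fun j j1 j2 => ?_⟩
        (by rw [um, hγ]; exact inf_le_right) (by omega))
        (ins _ _ _ _ hy (cp _ _ hy) (by rw [hγ]; exact inf_le_right) (by omega))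
      by_cases e : j = i
      · simp [e]
      · rw [update_of_ne e]
        exact c.2.2.2.2 j j1 j2
    · obtain ⟨⟨b1, b2⟩, b3⟩ := J1 _ hy.pas
      rw [um] at b2 b3
      have : J (update x i ⊥) = J x := le_antisymm (b3 _ a1 (by rwa [update_of_ne e]))
        (a3 _ b1 fun l => b2 (by
          by_cases e : J (update x i ⊥) = i
          · simp [e]
          · rwa [update_of_ne e]))
      rw [hγ (update x i ⊥), this, update_of_ne e, um, ← hγ, sub_self]
      exact zero_mem _
  have main : ∀ n v, v ∈ supported F F {x | Gf k m rk pas good r x ∧ wt x < n} →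
      DI F (Ioo k m) v = 0 →
      ∃ w ∈ supported F F {x | Gf k m rk pas good (r + 1) x}, DI F (Ioo k m) w = v := fun n => by
    induction n with
    | zero => exact fun v hv _ => ⟨0, zero_mem _, by simpa [eq_comm] using hv⟩
    | succ n ih =>
      intro v hv h
      have k1 := map_mem _ (fun x hx => key n x hx.1 hx.2) hv
      simp only [LinearMap.sub_apply, Module.End.mul_apply, Module.End.one_apply, h, map_zero,
        sub_zero] at k1
      obtain ⟨w, w1, w2⟩ := ih _ k1 (by
        rw [map_sub, h, ← Module.End.mul_apply, DI_sq hI, LinearMap.zero_apply, sub_zero])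
      refine ⟨w + H v, add_mem w1 (map_mem H (fun x hx => ?_) hv), by rw [map_add, w2, sub_add_cancel]⟩
      rw [hH]
      exact opr_mem (hx.1.ins hp hrk (cp _ _ hx.1)).2
  exact main ((Ioo k m).card + 1) v (sup_mono hv fun x hx => ⟨hx, by
    rw [hw]; exact Nat.lt_succ_of_le (card_filter_le _ _)⟩) h

theorem fl_iff {ok : P → Prop} (hok : ∀ u, ok u → good u ∧ rk u = m)
    (h0 : ∀ a, good a → a ≠ ⊥ → 0 < rk a) (hm : ∀ u, ok u → u ≠ ⊥) :
    (∀ x ∈ v.support, Fl m rk ok good x ∧ (ty m x).card = r) ↔ v ∈ supported F F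
      {x | Gf 0 m rk (fun x => ok (x m) ∧ ∀ i, i = 0 ∨ m < i → x i = ⊥) good r x} := by
  rw [mem_supported]
  refine forall₂_congr fun x _ => ⟨fun ⟨h, d⟩ => ⟨⟨h.ok, fun i hi => by_contra fun n => ?_⟩,
    fun i _ _ n => ?_, fun i j _ l _ => h.mono i j l, d⟩, fun h => ⟨⟨h.pas.1, fun i e n => ?_,
      fun i j l n => ?_⟩, h.deg⟩⟩
  · have a := hok _ h.ok
    have b := h0 _ a.1 (hm _ h.ok)
    obtain ⟨g1, g2, g3⟩ := h.good i (by omega) n
    have := h0 _ g1 n
    omega
  · by_cases e : i = m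
    · exact e ▸ hok _ h.ok
    · exact ⟨(h.good i e n).1, (h.good i e n).2.1⟩
  · have := mt (h.pas.2 i) n
    obtain ⟨g1, g2⟩ := h.good i (by omega) (by omega) n
    exact ⟨g1, g2, by omega⟩
  · have := mt (h.pas.2 j) n
    by_cases e : i = 0
    · exact (h.pas.2 i (.inl e)).le.trans bot_le
    · exact h.mono i j (by omega) l (by omega) n

theorem bool {α : Type} [DecidableEq α] (s : Finset α) (n : ℕ) : ∀ (k r : ℕ) (b : Finset α)
    (pas : (ℕ → Finset α) → Prop) (v : (ℕ → Finset α) →₀ F), k + n = s.card → b.card = k → b ⊆ s →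
    (∀ x i a, k < i → i < s.card → pas x → pas (update x i a)) → (∀ x, pas x → x s.card = s) →
    r + 1 < n → v ∈ supported F F {x | Gf k s.card Finset.card pas (b ⊆ ·) r x} →
    DI F (Ioo k s.card) v = 0 → ∃ w ∈ supported F F
      {x | Gf k s.card Finset.card pas (b ⊆ ·) (r + 1) x}, DI F (Ioo k s.card) w = v := by
  induction n with
  | zero => exact fun _ _ _ _ _ _ _ _ _ _ h => absurd h (by omega)
  | succ n ih =>
  intro k r b pas v hk hb hs hp ht hr hv h
  obtain ⟨a, as, ab⟩ := exists_mem_notMem_of_card_lt_card (show b.card < s.card by omega)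
  have c1 : (insert a b).card = k + 1 := by rw [card_insert_of_notMem ab, hb]
  have c0 : insert a b ≠ ⊥ := insert_ne_empty a b
  have eI : Ioo k s.card = insert (k + 1) (Ioo (k + 1) s.card) := by
    ext j
    simp only [mem_Ioo, mem_insert]
    omega
  have eD : DI (P := Finset α) F (Ioo k s.card) =
      opr F (k + 1) (· ≠ ⊥) ⊥ + DI F (Ioo (k + 1) s.card) := by
    rw [eI, DI, sum_insert (by simp), DI]
  have ed : ∀ x : ℕ → Finset α, x (k + 1) = insert a b →
      (tI (Ioo k s.card) x).card = (tI (Ioo (k + 1) s.card) x).card + 1 := fun x e => by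
    rw [eI, tI, filter_insert, if_pos (e ▸ c0), card_insert_of_notMem (by simp), tI]
  have av : ∀ r x, Gf k s.card Finset.card pas (b ⊆ ·) r x → x (k + 1) ≠ insert a b →
      Gf k s.card Finset.card pas (fun A => b ⊆ A ∧ ¬ A ⊆ insert a b) r x := fun r x hx e =>
    ⟨hx.pas, fun i i1 i2 n => by
      obtain ⟨g1, g2⟩ := hx.good i i1 i2 n
      refine ⟨⟨g1, fun l => e ?_⟩, g2⟩
      have := card_le_card l
      obtain rfl : i = k + 1 := by omega
      exact eq_of_subset_of_card_le l (by omega), hx.mono, hx.deg⟩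
  obtain ⟨T, T1, T2⟩ : ∃ T : Module.End F ((ℕ → Finset α) →₀ F),
      (∀ x, x (k + 1) = insert a b → T (single x 1) = single x 1) ∧
        ∀ x, x (k + 1) ≠ insert a b → T (single x 1) = 0 :=
    ⟨linearCombination F fun x => if x (k + 1) = insert a b then single x 1 else 0,
      fun x e => by simp [e], fun x e => by simp [e]⟩
  have k1 : (1 - T) v ∈ supported F F
      {x | Gf k s.card Finset.card pas (fun A => b ⊆ A ∧ ¬ A ⊆ insert a b) r x} :=
    map_mem _ (fun x hx => by
      rw [LinearMap.sub_apply, Module.End.one_apply]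
      by_cases e : x (k + 1) = insert a b
      · rw [T1 x e, sub_self]
        exact zero_mem _
      · rw [T2 x e, sub_zero]
        exact single_mem_supported _ _ (av r x hx e)) hv
  obtain ⟨u, u1, u2⟩ : ∃ u ∈ supported F F {x | Gf k s.card Finset.card pas (b ⊆ ·) (r + 1) x ∧
      x (k + 1) = insert a b}, DI F (Ioo (k + 1) s.card) u = T v := by
    cases r with
    | zero =>
      refine ⟨0, zero_mem _, (map_zero _).trans (Eq.symm ?_)⟩
      exact (Submodule.mem_bot F).1 (map_mem T (fun x hx => (Submodule.mem_bot F).2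
        (T2 x fun e => absurd ((ed x e).symm.trans hx.deg) (by omega))) hv)
    | succ r =>
      have e1 : T * DI F (Ioo k s.card) = DI F (Ioo (k + 1) s.card) * T := by
        refine lhom_ext' fun x => LinearMap.ext_ring ?_
        rw [eD]
        simp only [DI, LinearMap.comp_apply, lsingle_apply, Module.End.mul_apply,
          LinearMap.add_apply, LinearMap.sum_apply, map_add, map_sum]
        rw [show T (opr F (k + 1) (· ≠ ⊥) ⊥ (single x 1)) = 0 from (Submodule.mem_bot F).1
          (map_mem (S := {x | x (k + 1) ≠ insert a b}) T (fun x hx => T2 x hx)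
            (opr_mem fun _ => by simpa using c0.symm)), zero_add]
        refine sum_congr rfl fun i hi => ?_
        have e2 : update x i ⊥ (k + 1) = x (k + 1) := update_of_ne (mem_Ioo.1 hi).1.ne _ _
        by_cases e : x (k + 1) = insert a b <;> by_cases n : x i ≠ ⊥
        · rw [T1 x e, opr_pos n, map_smul, T1 _ (e2.trans e)]
        · rw [T1 x e, opr_neg n, map_zero]
        · rw [T2 x e, opr_pos n, map_smul, T2 _ (e2 ▸ e), smul_zero, map_zero]
        · rw [T2 x e, opr_neg n, map_zero, map_zero]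
      obtain ⟨u, u1, u2⟩ := ih (k + 1) r (insert a b) (fun x => pas x ∧ x (k + 1) = insert a b)
        (T v) (by omega) c1 (insert_subset as hs)
        (fun x i c i1 i2 hx => ⟨hp x i c (by omega) i2 hx.1, (update_of_ne i1.ne _ _).trans hx.2⟩)
        (fun x hx => ht x hx.1) (by omega) (map_mem T (fun x hx => by
          by_cases e : x (k + 1) = insert a b
          · rw [T1 x e]
            exact single_mem_supported _ _ ⟨⟨hx.pas, e⟩, fun i i1 i2 n =>
              ⟨e ▸ hx.mono _ i k.lt_succ_self i1.le i2 n, (hx.good i (by omega) i2 n).2⟩,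
              fun i j i1 => hx.mono i j (by omega), Nat.succ_injective ((ed x e).symm.trans hx.deg)⟩
          · rw [T2 x e]
            exact zero_mem _) hv)
        (by rw [← Module.End.mul_apply, ← e1, Module.End.mul_apply, h, map_zero])
      refine ⟨u, sup_mono u1 fun x hx => ⟨⟨hx.pas.1, fun i i1 i2 n => ?_,
        fun i j i1 l j1 n => ?_, by rw [ed x hx.pas.2, hx.deg]⟩, hx.pas.2⟩, u2⟩
      · by_cases e : i = k + 1
        · rw [e, hx.pas.2]
          exact ⟨subset_insert _ _, c1⟩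
        · exact (hx.good i (by omega) i2 n).imp_left (subset_insert a b).trans
      · by_cases e : i = k + 1
        · rcases l.eq_or_lt with rfl | l
          · exact le_rfl
          · rw [e, hx.pas.2]
            exact (hx.good j (by omega) j1 n).1
        · exact hx.mono i j (by omega) l j1 n
  obtain ⟨w, w1, w2⟩ := cone (F := F) (v := v - DI F (Ioo k s.card) u) (r := r) (rk := Finset.card)
    (good := fun A => b ⊆ A ∧ ¬ A ⊆ insert a b) (fun _ => s.erase a) hp
    (fun _ _ _ _ => card_lt_card) (fun x hx => by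
      rw [ht x hx]
      refine ⟨by omega, erase_ssubset as, fun A g l _ => ?_⟩
      have : ¬ A ⊓ s.erase a ⊆ insert a b := fun e => g.2 fun y hy => by
        by_cases z : y = a
        · simp [z]
        · exact e (mem_inter.2 ⟨hy, mem_erase.2 ⟨z, l hy⟩⟩)
      exact ⟨⟨subset_inter g.1 (subset_erase.2 ⟨hs, ab⟩), this⟩, fun e => this (e.le.trans bot_le)⟩)
    (fun A g _ => hb ▸ card_lt_card ⟨g.1, fun l => g.2 (l.trans (subset_insert _ _))⟩) (by
      rw [eD, LinearMap.add_apply, u2, add_comm, ← sub_sub]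
      exact sub_mem k1 (map_mem _ (fun x hx => opr_mem fun n => av _ _
        (hx.1.face hp k.lt_succ_self (by omega) n) (by simpa using c0.symm)) u1))
    (by rw [map_sub, h, ← Module.End.mul_apply, DI_sq fun i hi => (mem_Ioo.1 hi).1.pos,
      LinearMap.zero_apply, sub_zero])
  exact ⟨w + u, add_mem (sup_mono w1 fun x hx => ⟨hx.pas, fun i i1 i2 n =>
    (hx.good i i1 i2 n).imp_left And.left, hx.mono, hx.deg⟩)
    (sup_mono u1 fun x hx => hx.1), by rw [map_add, w2, sub_add_cancel]⟩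

end Cx

theorem bd_bd (m : ℕ) (v : (ℕ → P) →₀ F) : bd F m (bd F m v) = 0 := by
  rw [Cx.bd_eq]
  exact LinearMap.congr_fun (Cx.DI_sq fun i hi => (Finset.mem_Ioo.1 hi).1) v

/-- Acyclicity of conically contractible posets. -/
theorem exists_bd {m : ℕ} {rk : P → ℕ} {ok good : P → Prop}
    (hok : ∀ u, ok u → good u ∧ rk u = m)
    (hrk : ∀ a b, good a → good b → a < b → rk a < rk b)
    (hc : ∀ u, ok u → ∃ c, c < u ∧ ∀ a, good a → a ≤ u → a ≠ ⊥ → good (a ⊓ c) ∧ a ⊓ c ≠ ⊥)
    (h0 : ∀ a, good a → a ≠ ⊥ → 0 < rk a) (hm : ∀ u, ok u → u ≠ ⊥)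
    (r : ℕ) (v : (ℕ → P) →₀ F) (hv : ∀ x ∈ v.support, Fl m rk ok good x ∧ (ty m x).card = r)
    (h : bd F m v = 0) : ∃ w : (ℕ → P) →₀ F,
      (∀ x ∈ w.support, Fl m rk ok good x ∧ (ty m x).card = r + 1) ∧ bd F m w = v := by
  have : Nonempty P := ⟨⊥⟩
  choose! C hC using hc
  simp only [Cx.fl_iff hok h0 hm, Cx.bd_eq] at hv h ⊢
  refine Cx.cone C (fun x i a i1 i2 hx => ⟨by rw [Function.update_of_ne i2.ne']; exact hx.1,
    fun j hj => by rw [Function.update_of_ne (by omega)]; exact hx.2 j hj⟩) hrk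
    (fun x hx => ⟨?_, hC _ hx.1⟩) h0 hv h
  exact (hok _ hx.1).2 ▸ h0 _ (hok _ hx.1).1 (hm _ hx.1)

/-- The complex of flags of subsets is exact below the top degree. -/
theorem exists_bd_bool {α : Type} [DecidableEq α] (s : Finset α) (r : ℕ) (hr : r + 1 < s.card)
    (v : (ℕ → Finset α) →₀ F)
    (hv : ∀ x ∈ v.support, Fl s.card Finset.card (· = s) (fun _ => True) x ∧
      (ty s.card x).card = r) (h : bd F s.card v = 0) : ∃ w : (ℕ → Finset α) →₀ F,
      (∀ x ∈ w.support, Fl s.card Finset.card (· = s) (fun _ => True) x ∧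
        (ty s.card x).card = r + 1) ∧ bd F s.card w = v := by
  simp only [Cx.fl_iff (m := s.card) (rk := Finset.card) (ok := (· = s)) (good := fun _ => True)
    (fun u e => ⟨trivial, congrArg _ e⟩)
    (fun a _ n => Finset.card_pos.2 (Finset.nonempty_iff_ne_empty.2 n))
    (fun u e n => by simp [← e, n] at hr), Cx.bd_eq] at hv h ⊢
  simpa only [Finset.empty_subset] using Cx.bool s s.card 0 r ∅ _ v (zero_add _) rfl
    (Finset.empty_subset _) (fun x i a i1 i2 hx => ⟨by
      rw [Function.update_of_ne i2.ne']; exact hx.1,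
      fun j hj => by rw [Function.update_of_ne (by omega)]; exact hx.2 j hj⟩)
    (fun x hx => hx.1) hr (by simpa only [Finset.empty_subset] using hv) h

end

end Pool.Agent.Lib.MP_fc2ced_ag.K
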