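import Mathlib

/-!
Voevodsky's h-motives with rational coefficients over a field `k`: the derived category of
presheaves of rational vector spaces on affine `k`-schemes of finite type, localized at the
h-local isomorphisms and at the projections `F ⊗ ℚ[𝔸¹] → F`. The valuation rings of algebraically
closed fields are a conservative family of points for the h-topology (Gabber-Kelly).
-/

open CategoryTheory CategoryTheory.Limits CategoryTheory.Pretriangulated

namespace Pool.Agent.Lib.MP_fc2ced_ag.K

noncomputable section

variable (k : Type) [Field k]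

/-- Algebras of finite type over `k`. -/
structure FT where
  A : Type
  [ring : CommRing A]
  [alg : Algebra k A]
  [ft : Algebra.FiniteType k A]

attribute [instance] FT.ring FT.alg FT.ft

instance : CoeSort (FT k) Type := ⟨FT.A⟩

instance catFT : Category (FT k) where
  Hom A B := A →ₐ[k] B
  id A := AlgHom.id k A
  comp f g := g.comp f

/-- Presheaves of rational vector spaces on affine schemes of finite type over `k`. -/
abbrev Psh := FT k ⥤ ModuleCat.{1} ℚ

variable {k}

/-- The map `u` is bijective on the stalks at all valuation rings `V` of algebraically closed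
fields over `k`, that is, it becomes invertible after sheafification in the h-topology. -/
def HIso {F G : Psh k} (u : F ⟶ G) : Prop :=
  ∀ (K : Type) [Field K] [IsAlgClosed K] [Algebra k K] (V : ValuationSubring K) (A : FT k)
    (x : A →ₐ[k] K), (∀ a, x a ∈ V) →
    (∀ s : F.obj A, u.app A s = 0 → ∃ (B : FT k) (g : A →ₐ[k] B) (y : B →ₐ[k] K),
      (∀ b, y b ∈ V) ∧ y.comp g = x ∧ F.map g s = 0) ∧
    ∀ t : G.obj A, ∃ (B : FT k) (g : A →ₐ[k] B) (y : B →ₐ[k] K) (s : F.obj B),
      (∀ b, y b ∈ V) ∧ y.comp g = x ∧ u.app B s = G.map g t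

/-- The space `M ⊗ ℚ[A]` of finitely supported functions `A → M`. -/
def cylObj (A : Type) (M : ModuleCat.{1} ℚ) : ModuleCat.{1} ℚ := ModuleCat.of ℚ (A →₀ M)

/-- The map `u ⊗ ℚ[g]`. -/
def cylHom {A B : Type} {M N : ModuleCat.{1} ℚ} (g : A → B) (u : M ⟶ N) :
    cylObj A M ⟶ cylObj B N :=
  ModuleCat.ofHom (Finsupp.lmapDomain _ ℚ g ∘ₗ Finsupp.mapRange.linearMap u.hom)

/-- The sum of the values `M ⊗ ℚ[A] → M`. -/
def cylSum (A : Type) (M : ModuleCat.{1} ℚ) : cylObj A M ⟶ M :=
  ModuleCat.ofHom (Finsupp.lsum ℚ fun _ => LinearMap.id)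

theorem cylHom_single {A B : Type} {M N : ModuleCat.{1} ℚ} (g : A → B) (u : M ⟶ N) (a : A)
    (s : M) : (cylHom g u).hom (Finsupp.single a s) = Finsupp.single (g a) (u.hom s) :=
  (congrArg (Finsupp.mapDomain g) (Finsupp.mapRange_single (hf := map_zero u.hom))).trans
    Finsupp.mapDomain_single

theorem cylSum_single (A : Type) (M : ModuleCat.{1} ℚ) (a : A) (s : M) :
    (cylSum A M).hom (Finsupp.single a s) = s :=
  Finsupp.lsum_single ℚ (fun _ : A => (LinearMap.id : M →ₗ[ℚ] M)) a s

/-- The presheaf `F ⊗ ℚ[𝔸¹]`. -/
def cyl (F : Psh k) : Psh k where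
  obj A := cylObj A (F.obj A)
  map g := cylHom (AlgHom.toRingHom g) (F.map g)
  map_id A := ModuleCat.hom_ext (Finsupp.lhom_ext fun a s =>
    (cylHom_single _ _ a s).trans (by rw [F.map_id]; rfl))
  map_comp f g := ModuleCat.hom_ext (Finsupp.lhom_ext fun a s =>
    (cylHom_single _ _ a s).trans (((congrArg (cylHom _ (F.map g)).hom
      (cylHom_single _ _ a s)).trans ((cylHom_single _ _ _ _).trans
        (by rw [F.map_comp]; rfl))).symm))

/-- The projection `F ⊗ ℚ[𝔸¹] → F`. -/
def proj (F : Psh k) : cyl F ⟶ F where
  app A := cylSum A (F.obj A)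
  naturality _ B g := ModuleCat.hom_ext (Finsupp.lhom_ext fun a s =>
    ((congrArg (cylSum B (F.obj B)).hom (cylHom_single _ _ a s)).trans
      (cylSum_single _ _ _ _)).trans (congrArg (F.map g).hom (cylSum_single _ _ a s)).symm)

variable (k) in
/-- The maps of presheaves that are inverted in the category of h-motives. -/
inductive Gen : MorphismProperty (Psh k)
  | loc {F G : Psh k} (u : F ⟶ G) (h : HIso u) : Gen u
  | line (F : Psh k) : Gen (proj F)

section
variable {A : Type 2} [Category.{1} A] [Abelian A] [HasDerivedCategory.{2} A]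
  (W : MorphismProperty A)

/-- The zero objects and the cones of the maps in `W`. -/
def Cones : ObjectProperty (DerivedCategory A) := fun Z => IsZero Z ∨ ∃ (F G : A) (u : F ⟶ G),
  W u ∧ ∃ v w, Triangle.mk (Z := Z) ((DerivedCategory.singleFunctor A 0).map u) v w ∈ distTriang _

/-- The thick subcategory of the derived category generated by the cones of the maps in `W`. -/
def Thick : ObjectProperty (DerivedCategory A) := (Cones W).triangEnvelope

open ZeroObject in
instance thickTri : (Thick W).IsTriangulated := by
  have : (Cones W).Nonempty := ⟨0, .inl (isZero_zero _)⟩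
  unfold Thick
  infer_instance

/-- The Verdier quotient of the derived category by the thick subcategory `Thick W`. -/
abbrev Verdier := (Thick W).trW.Localization

/-- The functor to the Verdier quotient. -/
def toVerdier : A ⥤ Verdier W := DerivedCategory.singleFunctor A 0 ⋙ (Thick W).trW.Q

/-- The map `f` becomes zero in the Verdier quotient. -/
def Vanishes {X Y : A} (f : X ⟶ Y) : Prop := (toVerdier W).map f = 0

end

instance derPsh : HasDerivedCategory (Psh k) := HasDerivedCategory.standard _

/-- The idempotents `e_λ`: the primitive central idempotents of the group algebra. -/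
structure IsBlock {G : Type} [Group G] (e : MonoidAlgebra ℚ G) : Prop where
  ne : e ≠ 0
  idem : e * e = e
  central : ∀ r, r * e = e * r
  prim : ∀ e', e' * e' = e' → (∀ r, r * e' = e' * r) → e' * e = 0 ∨ e' * e = e

section
variable {σ ι : Type} (f : ι → MvPolynomial (Option σ) k)

section
variable (A : Type) [CommRing A] [Algebra k A] {B : Type} [CommRing B] [Algebra k B]

/-- Unimodular common zeros of the homogeneous polynomials `f j`. -/
abbrev Cone : Type :=
  {z : Option σ → A // Ideal.span (Set.range z) = ⊤ ∧ ∀ j, MvPolynomial.aeval z (f j) = 0}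

/-- Points of the projective scheme `W` cut out by the `f j` (up to Zariski sheafification). -/
def Proj : Type := Quot fun z z' : Cone f A => ∃ u : Aˣ, z'.1 = u • z.1

variable {f A} in
/-- Change of the ring of values. -/
def Cone.map (g : A →ₐ[k] B) (z : Cone f A) : Cone f B :=
  ⟨g ∘ z.1, by rw [Set.range_comp, ← Ideal.map_span, z.2.1, Ideal.map_top], fun j =>
    congr($(MvPolynomial.comp_aeval z.1 g) (f j)).symm.trans
      ((congrArg g (z.2.2 j)).trans (map_zero g))⟩

variable {f A} in
/-- Change of the ring of values. -/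
def Proj.map (g : A →ₐ[k] B) : Proj f A → Proj f B :=
  Quot.map (Cone.map g) fun z z' ⟨u, h⟩ =>
    ⟨Units.map (g : A →* B) u, funext fun i => by simp [Cone.map, h, Units.smul_def]⟩

variable {f A} in
/-- The point lies on the hyperplane `H` where the coordinate with index `none` vanishes. -/
def Proj.AtInf (x : Proj f A) : Prop := ∃ z : Cone f A, z.1 none = 0 ∧ x = Quot.mk _ z

end

section
variable (N : ℕ) (A : Type) [CommRing A] [Algebra k A] {B : Type} [CommRing B] [Algebra k B]

/-- Points of `W ^ N`. -/
abbrev Tup : Type 1 := ULift.{1} (Fin N → Proj f A)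

/-- The span of the points of `W ^ N` with a coordinate on `H`. -/
def bdry : Submodule ℚ (Tup f N A →₀ ℚ) :=
  Submodule.span ℚ {v | ∃ x : Tup f N A, (∃ i, (x.down i).AtInf) ∧ v = Finsupp.single x 1}

/-- The quotient `ℚ[W ^ N] / ℚ[boundary]`. -/
def McObj : ModuleCat.{1} ℚ := ModuleCat.of ℚ ((Tup f N A →₀ ℚ) ⧸ bdry f N A)

variable {f N A} in
/-- The linear map on `ℚ[W ^ N] / ℚ[boundary]` given by `g : A → B` and a permutation `s` of the
factors. -/
def McMap (g : A →ₐ[k] B) (s : Equiv.Perm (Fin N)) : McObj f N A ⟶ McObj f N B :=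
  ModuleCat.ofHom (Submodule.mapQ _ _
    (Finsupp.lmapDomain ℚ ℚ fun x => ⟨fun i => (x.down (s.symm i)).map g⟩) (by
    refine Submodule.span_le.2 ?_
    rintro _ ⟨x, ⟨i, z, h1, h2⟩, rfl⟩
    refine Submodule.subset_span ⟨_, ⟨s i, ?_⟩, Finsupp.mapDomain_single⟩
    exact ⟨z.map g, (congrArg g h1).trans (map_zero g), by
      simp only [s.symm_apply_apply, h2]; rfl⟩))

variable {f N A} in
theorem McMap_mk (g : A →ₐ[k] B) (s : Equiv.Perm (Fin N)) (x : Tup f N A) (c : ℚ) :
    (McMap g s).hom (Submodule.Quotient.mk (Finsupp.single x c)) = Submodule.Quotient.mk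
      (Finsupp.single ⟨fun i => (x.down (s.symm i)).map g⟩ c) :=
  congrArg Submodule.Quotient.mk Finsupp.mapDomain_single

variable {f A} in
theorem Proj.map_id (y : Proj f A) : y.map (AlgHom.id k A) = y := by
  induction y using Quot.ind; rfl

end

variable (N : ℕ)

/-- The presheaf `(ℚ[W] / ℚ[W ∩ H]) ^ (⊗ N)`. It represents the `N`-th tensor power of the motive
with compact support of the affine scheme `Y = W - H`. -/
def Mc : Psh k where
  obj A := McObj f N A
  map g := McMap g 1
  map_id A := ModuleCat.hom_ext (Submodule.linearMap_qext _ (Finsupp.lhom_ext fun x c =>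
    (McMap_mk _ _ x c).trans (congrArg (fun y => Submodule.Quotient.mk (Finsupp.single y c))
      (congrArg ULift.up (funext fun _ => Proj.map_id _)))))
  map_comp g h := ModuleCat.hom_ext (Submodule.linearMap_qext _ (Finsupp.lhom_ext fun x c =>
    (McMap_mk _ _ x c).trans (((congrArg (McMap h 1).hom (McMap_mk _ _ x c)).trans
      ((McMap_mk _ _ _ c).trans (congrArg (fun y => Submodule.Quotient.mk (Finsupp.single y c))
        (congrArg ULift.up (funext fun i => by
          change Proj.map h (Proj.map g (x.down i)) = Proj.map (g ≫ h) (x.down i)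
          induction x.down i using Quot.ind; rfl))))).symm)))

variable {N} in
/-- The permutation of the factors. -/
def perm (s : Equiv.Perm (Fin N)) : Mc f N ⟶ Mc f N where
  app A := McMap (AlgHom.id k A) s
  naturality A B g := ModuleCat.hom_ext (Submodule.linearMap_qext _ (Finsupp.lhom_ext fun x c =>
    ((congrArg (McMap (AlgHom.id k B) s).hom (McMap_mk g 1 x c)).trans (McMap_mk _ _ _ c)).trans
      (((congrArg (McMap g 1).hom (McMap_mk (AlgHom.id k A) s x c)).trans ((McMap_mk _ _ _ c).trans
        (congrArg (fun y => Submodule.Quotient.mk (Finsupp.single y c))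
          (congrArg ULift.up (funext fun i => by
            simp only [Proj.map_id]; rfl))))).symm)))

/-- The motive with compact support of `Y = W - H` is Schur-finite: some idempotent `e_λ` of
`ℚ[𝔖_N]`, `N ≥ 1`, acts as zero on its `N`-th tensor power in h-motives. -/
def SchurFinite : Prop :=
  ∃ (N : ℕ) (e : MonoidAlgebra ℚ (Equiv.Perm (Fin N))), 0 < N ∧ IsBlock e ∧
    Vanishes (Gen k) (∑ s, e.coeff s • perm f s)

end

end

end Pool.Agent.Lib.MP_fc2ced_ag.K
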