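import Pool.Agent.Lib.MP_fc2ced_ag.K.Omega

/-! Families over a variety with invariants, and self-maps that act as a scalar on all families. -/

open CategoryTheory Function

namespace Pool.Agent.Lib.MP_fc2ced_ag.K

noncomputable section

variable {k : Type} [Field k] {F : Type} [Field F] {χ : Chr k F}

namespace Pt

variable {S S' M : Pt k} {q : ∀ ⦃K⦄, S.X K → K × K}

variable (S) in
/-- A pair of regular functions. -/
def RegQ (q : ∀ ⦃K⦄, S.X K → K × K) : Prop :=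
  (S.RegF fun _ x => (q x).1) ∧ S.RegF fun _ x => (q x).2

variable (S M q) in
/-- The variety `M` is a fibre product of `S` and a space of parameters over the invariants `q`:
the image in `S` can be moved by `mv` inside the fibres of `q`. -/
structure Fam (π : ∀ ⦃K⦄, M.X K → S.X K) (mv : ∀ ⦃K⦄, M.X K → S.X K → M.X K) : Prop where
  reg : M.Reg S π
  self : ∀ ⦃K⦄ (m : M.X K), M.L m → mv m (π m) = m
  spec : ∀ ⦃K⦄ (m : M.X K) (x : S.X K), M.L m → S.L x → q x = q (π m) → M.L (mv m x) ∧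
    π (mv m x) = x ∧ M.f (mv m x) = M.f m + S.f x - S.f (π m) ∧ ∀ y, mv (mv m x) y = mv m y
  sp : ∀ ⦃K K'⦄ (φ : Place K K') (m : M.X K) (m' : M.X K') (x : S.X K) (x' : S.X K'), M.L m →
    M.L m' → M.R φ m m' → S.L x → S.L x' → S.R φ x x' → q x = q (π m) →
    M.R φ (mv m x) (mv m' x')

variable (χ S q) in
/-- The self-map `a` acts as the scalar `c` on all families. -/
def UActs (a : ∀ ⦃K⦄, S.X K → S.X K) (c : F) : Prop :=
  ∀ (M : Pt k) (π : ∀ ⦃K⦄, M.X K → S.X K) (mv : ∀ ⦃K⦄, M.X K → S.X K → M.X K),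
    Fam S M q π mv → M.Acts χ (fun _ m => mv m (a (π m))) c

variable (S q) in
/-- A regular involution that keeps the function and the invariants. -/
structure Invol (a : ∀ ⦃K⦄, S.X K → S.X K) : Prop where
  reg : S.Reg S a
  inv : ∀ ⦃K⦄ (x : S.X K), S.L x → a (a x) = x
  f : ∀ ⦃K⦄ (x : S.X K), S.L x → S.f (a x) = S.f x
  q : ∀ ⦃K⦄ (x : S.X K), S.L x → q (a x) = q x

variable {a a₁ a₂ : ∀ ⦃K⦄, S.X K → S.X K} {c c₁ c₂ : F}

section
variable {π : ∀ ⦃K⦄, M.X K → S.X K} {mv : ∀ ⦃K⦄, M.X K → S.X K → M.X K} {K : Fld k}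

theorem Fam.back (H : Fam S M q π mv) {m : M.X K} {x y : S.X K} (hm : M.L m) (hx : S.L x)
    (e : q x = q (π m)) (e' : y = π m) : mv (mv m x) y = m := by
  rw [(H.spec m x hm hx e).2.2.2, e', H.self m hm]

theorem Fam.invol (H : Fam S M q π mv) (ha : S.Invol q a) {m : M.X K} (hm : M.L m) :
    M.L (mv m (a (π m))) ∧ π (mv m (a (π m))) = a (π m) ∧ M.f (mv m (a (π m))) = M.f m ∧
      mv (mv m (a (π m))) (a (π (mv m (a (π m))))) = m := by
  have l := H.reg.live m hm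
  obtain ⟨h1, h2, h3, -⟩ := H.spec m _ hm (ha.reg.live _ l) (ha.q _ l)
  exact ⟨h1, h2, by rw [h3, ha.f _ l, add_sub_cancel_right],
    H.back hm (ha.reg.live _ l) (ha.q _ l) (by rw [h2, ha.inv _ l])⟩

theorem Fam.isMap (H : Fam S M q π mv) (ha : S.Invol q a) :
    IsMap M M fun _ m => mv m (a (π m)) :=
  have r : M.Reg M fun _ m => mv m (a (π m)) := ⟨fun _ _ hm => (H.invol ha hm).1,
    fun _ _ φ m m' hm hm' r =>
      have s := H.reg.comp ha.reg
      H.sp φ m m' _ _ hm hm' r (s.live m hm) (s.live m' hm') (s.reg φ m m' hm hm' r)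
        (ha.q _ (H.reg.live m hm))⟩
  .of_inv r r (fun _ _ hm => (H.invol ha hm).2.2.1) fun _ _ hm => (H.invol ha hm).2.2.2

theorem Fam.restr (H : Fam S M q π mv) {T : S.Cond} (h : S.Conv T) :
    Fam (S.restr T h) (M.restr _ (H.reg.conv h)) q π mv where
  reg := ⟨fun _ m hm => ⟨H.reg.live m hm.1, hm.2⟩, fun _ _ φ m m' hm hm' =>
    H.reg.reg φ m m' hm.1 hm'.1⟩
  self _ m hm := H.self m hm.1
  spec _ m x hm hx e :=
    have s := H.spec m x hm.1 hx.1 e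
    ⟨⟨s.1, show T _ by rw [s.2.1]; exact hx.2⟩, s.2⟩
  sp _ _ φ m m' x x' hm hm' r hx hx' := H.sp φ m m' x x' hm.1 hm'.1 r hx.1 hx'.1

end

theorem UActs.of_fix (he : ∀ ⦃K⦄ (x : S.X K), S.L x → a x = x) : S.UActs χ q a 1 :=
  fun _ _ _ H => .of_fix fun _ m hm => by rw [he _ (H.reg.live m hm), H.self m hm]

theorem UActs.of_empty (h : ∀ ⦃K⦄ (x : S.X K), ¬ S.L x) : S.UActs χ q a c := fun M _ _ H =>
  have e : ∀ ⦃K⦄ (m : M.X K), ¬ M.L m := fun _ m hm => h _ (H.reg.live m hm)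
  .of_uzero ⟨fun _ m hm => (e m hm).elim, fun _ _ _ m _ hm => (e m hm).elim,
    fun _ _ _ m hm => (e m hm).elim⟩ (uzero_empty e)

theorem UActs.comp (h₁ : S.UActs χ q a₁ c₁) (h₂ : S.UActs χ q a₂ c₂)
    (live : ∀ ⦃K⦄ (x : S.X K), S.L x → S.L (a₁ x) ∧ q (a₁ x) = q x)
    (he : ∀ ⦃K⦄ (x : S.X K), S.L x → a x = a₂ (a₁ x)) (hc : c = c₁ * c₂) : S.UActs χ q a c :=
  fun M π mv H =>
    have s := fun K (m : M.X K) hm =>
      H.spec m _ hm (live _ (H.reg.live m hm)).1 (live _ (H.reg.live m hm)).2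
    (h₁ M π mv H).comp (h₂ M π mv H) (fun K m hm => (s K m hm).1)
      (fun K m hm => by rw [(s K m hm).2.2.2, (s K m hm).2.1, he _ (H.reg.live m hm)]) hc

theorem UActs.congr (h : S.UActs χ q a₁ c) (he : ∀ ⦃K⦄ (x : S.X K), S.L x → a x = a₁ x) :
    S.UActs χ q a c :=
  (of_fix (a := fun _ x => x) fun _ _ _ => rfl).comp h (fun _ _ hx => ⟨hx, rfl⟩) he (one_mul c).symm

theorem UActs.of_closed [CharZero F] (hq : S.RegQ q) (ha : S.Invol q a) (hc : c * c = 1)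
    {T : S.Cond} (h : S.Closed T) (h₁ : (S.restr T h.conv).UActs χ q a c)
    (h₂ : (S.restr _ h.not.conv).UActs χ q a c)
    (st : ∀ ⦃K⦄ (x : S.X K), S.L x → T x → T (a x)) : S.UActs χ q a c := fun M π mv H =>
  have _ := hq
  .of_closed (H.isMap ha) (fun _ _ hm => (H.invol ha hm).1) (fun _ _ hm => (H.invol ha hm).2.2.2) hc
    (H.reg.closed h) (h₁ (M.restr _ _) π mv (H.restr _)) (h₂ (M.restr _ _) π mv (H.restr _))
    fun _ m hm t => show T _ by rw [(H.invol ha hm).2.1]; exact st _ (H.reg.live m hm) t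

theorem UActs.of_flow (hχ : χ.ψ 1 ≠ 1) (hq : S.RegQ q) (ha : S.Invol q a)
    {τ : ∀ ⦃K : Fld k⦄, K → S.X K → S.X K} (h : S.Flow τ)
    (hτ : ∀ ⦃K : Fld k⦄ (r : K) (x : S.X K), S.L x → q (τ r x) = q x) : S.UActs χ q a c := by
  intro M π mv H
  have _ := hq
  have l := H.reg.live
  have s := fun (K : Fld k) (r : K) (m : M.X K) hm =>
    H.spec m _ hm (h.live r _ (l m hm)) (hτ r _ (l m hm))
  refine .of_uzero (H.isMap ha) (Flow.uzero hχ (τ := fun _ r m => mv m (τ r (π m)))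
    ⟨fun K r m hm => (s K r m hm).1, fun _ m hm => ?_, fun K r m hm => ?_, fun K r m hm => ?_,
      fun _ _ φ r r' m m' hr hm hm' e => H.sp φ m m' _ _ hm hm' e (h.live _ _ (l m hm))
        (h.live _ _ (l m' hm')) (h.reg φ r r' _ _ hr (l m hm) (l m' hm')
          (H.reg.reg φ m m' hm hm' e)) (hτ r _ (l m hm))⟩)
  · rw [h.zero _ (l m hm), H.self m hm]
  · rw [(s K r m hm).2.2.2, (s K r m hm).2.1, h.neg r _ (l m hm), H.self m hm]
  · rw [(s K r m hm).2.2.1, h.f r _ (l m hm)]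
    ring

theorem UActs.of_swap (hχ : χ.ψ 1 ≠ 1) (hq : S.RegQ q) {u v κ : ∀ ⦃K⦄, S.X K → K}
    {mv : ∀ ⦃K⦄, S.X K → K → K → S.X K} (h : S.Swap u v κ mv)
    (hm : ∀ ⦃K : Fld k⦄ (x : S.X K) (s t : K), S.L x → s * t = u x * v x → q (mv x s t) = q x) :
    S.UActs χ q (fun _ x => mv x (v x) (u x)) (-1) := by
  intro M π mw H
  have _ := hq
  have l := H.reg.live
  refine Swap.acts hχ (a := fun _ m => u (π m)) (b := fun _ m => v (π m)) (κ := fun _ m => κ (π m))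
    (mv := fun _ m s t => mw m (mv (π m) s t)) ⟨H.reg.regF h.ra, H.reg.regF h.rb, H.reg.regF h.rκ,
      fun _ m hm => h.ne _ (l m hm), fun _ m hm => by rw [h.self _ (l m hm), H.self m hm],
      fun _ m s t lm e => ?_, fun _ _ φ m m' s t s' t' lm lm' r hs ht e => ?_⟩
  · obtain ⟨a1, a2, a3, a4, a5, a6⟩ := h.spec _ s t (l m lm) e
    obtain ⟨b1, b2, b3, b4⟩ := H.spec m _ lm a1 (hm _ s t (l m lm) e)
    rw [b2, b3, b4, a5, a6]
    exact ⟨b1, a2, a3, a4, by ring, H.self m lm⟩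
  · have r' := H.reg.reg φ m m' lm lm' r
    exact H.sp φ m m' _ _ lm lm' r (h.spec _ s t (l m lm) e).1 (h.spec _ s' t' (l m' lm')
      ((hs.mul ht).eq_of ((h.ra φ _ _ (l m lm) (l m' lm') r').mul
        (h.rb φ _ _ (l m lm) (l m' lm') r')) e)).1
      (h.reg φ _ _ s t s' t' (l m lm) (l m' lm') r' hs ht e) (hm _ s t (l m lm) e)

theorem UActs.of_free [CharZero F] (hq : S.RegQ q) {s d : ∀ ⦃K⦄, S.X K → K}
    {mv : ∀ ⦃K⦄, S.X K → K → S.X K} (h : S.Free s d mv)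
    (hm : ∀ ⦃K : Fld k⦄ (x : S.X K) (t : K), S.L x → q (mv x t) = q x) :
    S.UActs χ q (fun _ x => mv x (d x - s x)) 1 := by
  intro M π mw H
  have _ := hq
  have l := H.reg.live
  refine Free.acts (s := fun _ m => s (π m)) (c := fun _ m => d (π m))
    (mv := fun _ m t => mw m (mv (π m) t)) ⟨H.reg.regF h.rs, H.reg.regF h.rc,
      fun _ m hm => by rw [h.self _ (l m hm), H.self m hm], fun _ m t lm => ?_,
      fun _ _ φ m m' t t' lm lm' r ht => H.sp φ m m' _ _ lm lm' r (h.spec _ t (l m lm)).1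
        (h.spec _ t' (l m' lm')).1 (h.reg φ _ _ t t' (l m lm) (l m' lm')
          (H.reg.reg φ m m' lm lm' r) ht) (hm _ t (l m lm))⟩
  obtain ⟨a1, a2, a3, a4, a5⟩ := h.spec _ t (l m lm)
  obtain ⟨b1, b2, b3, b4⟩ := H.spec m _ lm a1 (hm _ t (l m lm))
  rw [b2, b3, b4, a4, a5]
  exact ⟨b1, a2, a3, by ring, H.self m lm⟩

theorem UActs.of_omega [CharZero F] (hχ : χ.ψ 1 ≠ 1) (hq : S.RegQ q)
    {s t u v κ : ∀ ⦃K⦄, S.X K → K} {mv : ∀ ⦃K⦄, S.X K → K → K → K → K → S.X K}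
    (h : S.Omega s t u v κ mv) (hm : ∀ ⦃K : Fld k⦄ (x : S.X K) (s' t' u' v' : K), S.L x →
      s' * t' = 0 → u' * v' = u x * v x → q (mv x s' t' u' v') = q x) :
    S.UActs χ q (fun _ x => mv x (t x) (s x) (v x) (u x)) 1 := by
  intro M π mw H
  have _ := hq
  have l := H.reg.live
  refine Omega.acts hχ (a := fun _ m => s (π m)) (b := fun _ m => t (π m)) (u := fun _ m => u (π m))
    (v := fun _ m => v (π m)) (κ := fun _ m => κ (π m))
    (mv := fun _ m s t u v => mw m (mv (π m) s t u v)) ⟨H.reg.regF h.ra, H.reg.regF h.rb,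
      H.reg.regF h.ru, H.reg.regF h.rv, H.reg.regF h.rκ, fun _ m hm => h.ne _ (l m hm),
      fun _ m hm => by rw [h.self _ (l m hm), H.self m hm], fun _ m s t u v lm e e' => ?_,
      fun _ _ φ m m' a₁ b₁ u₁ v₁ a₂ b₂ u₂ v₂ lm lm' r ha hb hu hv e e' => ?_⟩
  · obtain ⟨a1, a2, a3, a4, a5, a6, a7, a8⟩ := h.spec _ s t u v (l m lm) e e'
    obtain ⟨b1, b2, b3, b4⟩ := H.spec m _ lm a1 (hm _ s t u v (l m lm) e e')
    rw [b2, b3, a7]
    exact ⟨b1, a2, a3, a4, a5, a6, by ring, fun _ _ _ _ => by rw [b4, a8]⟩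
  · have r' := H.reg.reg φ m m' lm lm' r
    exact H.sp φ m m' _ _ lm lm' r (h.spec _ _ _ _ _ (l m lm) e e').1 (h.spec _ _ _ _ _ (l m' lm')
      ((ha.mul hb).eq_of φ.zero e) ((hu.mul hv).eq_of ((h.ru φ _ _ (l m lm) (l m' lm') r').mul
        (h.rv φ _ _ (l m lm) (l m' lm') r')) e')).1
      (h.reg φ _ _ _ _ _ _ _ _ _ _ (l m lm) (l m' lm') r' ha hb hu hv e e')
      (hm _ _ _ _ _ (l m lm) e e')

/-- A family over a family. -/
theorem UActs.of_fam {q' : ∀ ⦃K⦄, S'.X K → K × K} (hq : S.RegQ q) {π : ∀ ⦃K⦄, S'.X K → S.X K}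
    {mv : ∀ ⦃K⦄, S'.X K → S.X K → S'.X K} (h : Fam S S' q π mv)
    (hm : ∀ ⦃K⦄ (m : S'.X K) (x : S.X K), S'.L m → S.L x → q x = q (π m) → q' (mv m x) = q' m)
    (H : S.UActs χ q a c) : S'.UActs χ q' (fun _ m => mv m (a (π m))) c := by
  intro M π' mw G
  have l := G.reg.live
  refine H M (fun _ m => π (π' m)) (fun _ m x => mw m (mv (π' m) x)) ⟨G.reg.comp h.reg,
    fun _ m lm => by rw [h.self _ (l m lm), G.self m lm], fun _ m x lm hx e => ?_,
    fun _ _ φ m m' x x' lm lm' r hx hx' r' e => ?_⟩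
  · obtain ⟨a1, a2, a3, a4⟩ := h.spec _ x (l m lm) hx e
    obtain ⟨b1, b2, b3, b4⟩ := G.spec m _ lm a1 (hm _ x (l m lm) hx e)
    rw [b2, b3, a3]
    exact ⟨b1, a2, by ring, fun _ => by rw [b4, a4]⟩
  · have s := G.reg.comp h.reg
    have t := fun {g} (hg : S.RegF g) =>
      hg φ _ _ (s.live m lm) (s.live m' lm') (s.reg φ m m' lm lm' r)
    exact G.sp φ m m' _ _ lm lm' r (h.spec _ x (l m lm) hx e).1 (h.spec _ x' (l m' lm') hx'
      (Prod.ext ((hq.1 φ x x' hx hx' r').eq_of (t hq.1) (congrArg _ e))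
        ((hq.2 φ x x' hx hx' r').eq_of (t hq.2) (congrArg _ e)))).1
      (h.sp φ _ _ x x' (l m lm) (l m' lm') (G.reg.reg φ m m' lm lm' r) hx hx' r' e)
      (hm _ x (l m lm) hx e)

end Pt

end

end Pool.Agent.Lib.MP_fc2ced_ag.K
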