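import Pool.Agent.Lib.MP_fc2ced_ag.K.PV
import Pool.Agent.Lib.MP_fc2ced_ag.K.GeoR
import Pool.Agent.Lib.MP_fc2ced_ag.K.Kos

/-! The varieties of flags of spaces of solutions of recurrences. -/

open CategoryTheory Function Polynomial

namespace Pool.Agent.Lib.MP_fc2ced_ag.K

noncomputable section

variable {k : Type} [Field k] {F : Type} [Field F] {χ : Chr k F}

open Pt Place

variable (k) (n : ℕ) [NeZero n] (w : ℕ)

/-- Flags of type `I`. -/
@[reducible] def Zs (I : Finset ℕ) : Pt k where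
  X K := ℕ → Sp K
  L _ x := Flag n w I x
  R _ _ φ x y := ∀ i, φ.GR (x i) (y i)
  f _ x := fU n w (x w)
  func _ _ _ _ _ _ _ _ _ h h' := funext fun i => (h i).func (h' i)
  id _ x y a _ := by
    rw [funext_iff]
    exact forall_congr' fun i => have := a.finite i; GR.id_iff
  comp _ _ _ φ φ' x z a b := by
    simp only [GR.comp_iff]
    refine ⟨fun h => ?_, fun ⟨y, _, h, h'⟩ i => ⟨y i, h i, h' i⟩⟩
    choose y h1 h2 using h
    exact ⟨y, flag_of_gr a h1 ((h2 w).rel ((h1 w).stab a.rel.stab) b.rel), h1, h2⟩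
  reg _ _ _ _ _ a b h := (h w).fU a.rel b.rel
  fin _ _ a := flag_fin (NeZero.pos n) a

/-- Flags with the characteristic polynomials of their members. -/
@[reducible] def Zv (I : Finset ℕ) : PV k where
  S := Zs k n w I
  c _ x m := chi n (x m)
  hc m _ _ _ _ _ a _ h := (h m).chi (a.stab' m).1

/-- Families of `w` operators of order one. -/
@[reducible] def Av : PV k where
  S := ((gm k).pi (Fin n)).pi (Fin w)
  c _ x m := chiA x m
  hc m _ _ _ _ _ _ _ h := PR.chiA h m

variable {k n w}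

/-- The permutation of the operators. -/
def pm (σ : Equiv.Perm (Fin w)) ⦃K : Fld k⦄ (x : Fin w → Fin n → K) : Fin w → Fin n → K :=
  fun a => x (σ.symm a)

/-- The indices that occur in flags of type `I`. -/
def JI (w : ℕ) (I : Finset ℕ) : Set ℕ := {m | m ∈ I ∨ m = w}

variable (F n w) in
/-- The power of the sign character. -/
def eps : Equiv.Perm (Fin w) →* F :=
  (powMonoidHom (n + 1)).comp ((Int.castRingHom F).toMonoidHom.comp
    ((Units.coeHom ℤ).comp Equiv.Perm.sign))

open Classical in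
/-- The elements of the Young subgroup. -/
def yS (w : ℕ) (I : Finset ℕ) : Finset (Equiv.Perm (Fin w)) := Finset.univ.filter (· ∈ Young w I)

variable (F n w) in
/-- The coefficients of the idempotent of the Young subgroup. -/
def yR (I : Finset ℕ) (σ : Equiv.Perm (Fin w)) : F := (Nat.card (Young w I) : F)⁻¹ * eps F n w σ

variable (χ n w) in
/-- The idempotent of the Young subgroup. -/
abbrev eI (I : Finset ℕ) {P : Pt k} (T : PC P) :
    ((Av k n w).over T).E χ ⟶ ((Av k n w).over T).E χ :=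
  ∑ σ ∈ yS w I, yR F n w I σ • ov χ (Av k n w) (Av k n w) T (pm σ)

variable (χ n w) in
/-- The roof is an eigenvector for the permutation `σ`. -/
abbrev Ha (I : Finset ℕ) (σ : Equiv.Perm (Fin w)) : Prop :=
  UKills χ (JI w I) (Av k n w) (Zv k n w (Finset.Ioo 0 w)) (Zv k n w I) (fun _ x => jmap n w x)
    (fun _ x => forget w I x) (pm σ) (eps F n w σ)

variable (χ n w) in
/-- The roof identifies the flags of type `I` with the image of the idempotent. -/
abbrev Hb (I : Finset ℕ) : Prop :=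
  UQuo χ (JI w I) (Av k n w) (Zv k n w (Finset.Ioo 0 w)) (Zv k n w I) (fun _ x => jmap n w x)
    (fun _ x => forget w I x) (yS w I) (yR F n w I) pm

variable {I I' : Finset ℕ} {j l : ℕ} {σ τ : Equiv.Perm (Fin w)} {P : Pt k} {T : PC P}

omit [NeZero n] in
theorem eps_mul_self (σ : Equiv.Perm (Fin w)) : eps F n w σ * eps F n w σ = 1 := by
  have h : Equiv.Perm.sign σ * Equiv.Perm.sign σ = 1 := Int.units_mul_self _
  have e : ∀ τ : Equiv.Perm (Fin w), Equiv.Perm.sign τ = 1 → eps F n w τ = 1 := fun τ hτ => by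
    simp [eps, hτ]
  rw [← map_mul]
  exact e _ (by rw [map_mul, h])

omit [NeZero n] in
theorem eps_swap {a b : Fin w} (h : a ≠ b) : eps F n w (Equiv.swap a b) = (-1) ^ (n + 1) := by
  simp [eps, Equiv.Perm.sign_swap h]

theorem JI_mono (h : I ⊆ I') : JI w I ⊆ JI w I' := fun _ hm => hm.imp (fun a => h a) id

theorem JI_add (hI : I ⊆ Finset.Ioo 0 (j + l)) (hj : j ∈ I) :
    JI (j + l) I ⊆ addJ j (JI j (lowI j I)) (JI l (uppI j I)) := by
  intro m hm
  have h0 := Finset.mem_Ioo.1 (hI hj)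
  rcases lt_trichotomy m j with h | h | h
  · exact .inl ⟨h.le, .inl (mem_lowI.2 ⟨hm.resolve_right (by omega), h⟩)⟩
  · exact .inl ⟨h.le, .inr h⟩
  · refine .inr ⟨h, hm.imp (fun a => mem_uppI.2 ⟨?_, by omega⟩) fun a => by omega⟩
    rwa [Nat.add_sub_cancel' h.le]

theorem pmap_forget (hI : I ⊆ I') :
    PMap (Zv k n w I') (Zv k n w I) (JI w I) fun _ x => forget w I x := by
  refine ⟨IsMap.of_proper ⟨fun _ x a => a.forget_flag hI, fun _ _ φ x y _ _ h i => ?_⟩
    (fun _ x _ => congrArg (fU n w) forget_top) fun _ _ φ x z a b h => ?_,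
    fun _ x _ _ m hm => congrArg (chi n) (if_pos hm)⟩
  · unfold forget
    split_ifs
    exacts [h i, GR.bot]
  · have hw : φ.GR (x w) (z w) := by simpa only [forget_top] using h w
    choose y hy using fun i => hw.exists_le (a.stab' i).2
    exact ⟨y, flag_of_gr a hy ((hy w).func hw ▸ b.rel), hy⟩

theorem jmap_live_iff {K : Fld k} {x : ℕ → Sp K} (h : Flag n w (Finset.Ioo 0 w) x) :
    (Av k n w).S.L (jmap n w x) ↔ AllRel n w x := by
  refine ⟨fun a => ?_, fun a b i => ⟨trivial, (h.jmap_spec a).1 b i⟩⟩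
  by_contra hr
  rcases Nat.eq_zero_or_pos w with rfl | hw
  · exact hr fun i hi => by obtain rfl := Nat.le_zero.1 hi; exact h.rel
  · exact (a ⟨0, hw⟩ 0).2 (if_neg hr)

theorem pmap_jmap : PMap (Zv k n w (Finset.Ioo 0 w)) (Av k n w) (JI w (Finset.Ioo 0 w))
    fun _ x => jmap n w x := by
  refine ⟨IsMap.of_open (fun _ _ φ x y a b h hy => (jmap_live_iff a).2 fun i hi =>
    (h i).rel (a.stab' i).1 ((jmap_live_iff b).1 hy i hi))
    (IsMap.of_proper ⟨fun _ x a => a.2, fun _ _ φ x y a b h c i => ?_⟩ (fun _ x a => ?_)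
      fun _ _ φ x z a b h => ?_), fun _ x a b m hm => ?_⟩
  · have ha := (jmap_live_iff a.1).1 a.2
    have hb := (jmap_live_iff b.1).1 b.2
    have h1 : (c : ℕ) ≤ w := c.2.le
    have h2 : (c : ℕ) + 1 ≤ w := c.2
    change φ (jmap n w x c i) (jmap n w y c i)
    unfold jmap
    rw [if_pos ha, if_pos hb]
    exact ((h c).coef (ha _ h1) (hb _ h1) _ _).sub ((h (c + 1)).coef (ha _ h2) (hb _ h2) _ _)
  · have hs := a.1.jmap_spec ((jmap_live_iff a.1).1 a.2)
    have := fU_flagOf hs.1
    rw [hs.2] at this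
    exact this.symm
  · have hs := a.1.jmap_spec ((jmap_live_iff a.1).1 a.2)
    have hz := flagOf_flag fun c i => (b c i).2
    refine ⟨flagOf z, ⟨hz.1, (jmap_live_iff hz.1).2 hz.2.1⟩, fun m => ?_⟩
    have := GR.flagOf h (fun c i => (b c i).2) m
    rwa [hs.2] at this
  · have hs := a.jmap_spec ((jmap_live_iff a).1 b)
    have hm' : m ≤ w := hm.elim (fun e => (Finset.mem_Ioo.1 e).2.le) fun e => e.le
    have := chi_flagOf hs.1 hm'
    rw [hs.2] at this
    exact this.symm

theorem pend_pm (h : σ ∈ Young w I) : PEnd (Av k n w) (JI w I) (pm σ) := by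
  have R : ∀ τ : Equiv.Perm (Fin w), (Av k n w).S.Reg (Av k n w).S (pm τ) := fun τ =>
    ⟨fun _ _ a c => a (τ.symm c), fun _ _ _ _ _ _ _ r c => r (τ.symm c)⟩
  refine ⟨⟨IsMap.of_inv (R σ) (R σ.symm) (fun _ x _ => ?_) fun _ x _ => funext fun c => ?_,
    fun _ x _ _ m hm => ?_⟩, (R σ).live⟩
  · exact Equiv.sum_comp σ.symm fun c => ∑ i, x c i
  · simp [pm]
  · change chiA (pm σ x) m = chiA x m
    unfold chiA
    refine Finset.prod_equiv σ.symm (fun c => ?_) fun c _ => rfl
    simp only [Finset.mem_filter, Finset.mem_univ, true_and]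
    rcases hm with hm | rfl
    · exact ((Young w I).inv_mem h m hm c).symm
    · exact iff_of_true c.2 (σ.symm c).2

theorem ov_pm_one : ov χ (Av k n w) (Av k n w) T (pm 1) = 𝟙 _ := ov_id fun _ _ _ => rfl

theorem ov_pm_mul (hT : T.Dep (JI w I)) (h : σ ∈ Young w I) (h' : τ ∈ Young w I) :
    ov χ (Av k n w) (Av k n w) T (pm (σ * τ)) =
      ov χ (Av k n w) (Av k n w) T (pm τ) ≫ ov χ (Av k n w) (Av k n w) T (pm σ) :=
  ((pend_pm h').toPMap.ov_comp (pend_pm h).toPMap hT (pend_pm ((Young w I).mul_mem h h')).toPMap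
    (fun _ x a _ => (pend_pm h').live x a) fun _ _ _ _ => rfl).symm

omit [NeZero n] in
theorem GeoAux.mem_yS : σ ∈ yS w I ↔ σ ∈ Young w I := by simp [yS]

omit [NeZero n] in
theorem GeoAux.sum_yR [CharZero F] : ∑ σ ∈ yS w I, yR F n w I σ * eps F n w σ = 1 := by
  have h : (yS w I).card = Nat.card (Young w I) := by
    rw [← Nat.card_eq_finsetCard]
    exact Nat.card_congr (Equiv.subtypeEquivRight fun _ => GeoAux.mem_yS)
  simp only [yR, mul_assoc, eps_mul_self, mul_one, Finset.sum_const, nsmul_eq_mul, h]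
  exact mul_inv_cancel₀ (Nat.cast_ne_zero.2 Nat.card_pos.ne')

theorem pm_eI [CharZero F] (hT : T.Dep (JI w I)) (h : σ ∈ Young w I) :
    ov χ (Av k n w) (Av k n w) T (pm σ) ≫ eI χ n w I T = eps F n w σ • eI χ n w I T := by
  rw [Preadditive.comp_sum, Finset.smul_sum]
  refine Finset.sum_equiv (Equiv.mulRight σ) (fun τ => ?_) fun τ hτ => ?_
  · rw [GeoAux.mem_yS, GeoAux.mem_yS]
    exact ((Young w I).mul_mem_cancel_right h).symm
  · rw [Linear.comp_smul, ← ov_pm_mul hT (GeoAux.mem_yS.1 hτ) h, smul_smul]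
    congr 1
    simp only [yR, Equiv.coe_mulRight, map_mul]
    linear_combination (-(Nat.card (Young w I) : F)⁻¹ * eps F n w τ) * eps_mul_self (F := F) (n := n) σ

theorem eI_idem [CharZero F] (hT : T.Dep (JI w I)) :
    eI χ n w I T ≫ eI χ n w I T = eI χ n w I T := by
  rw [Preadditive.sum_comp, Finset.sum_congr rfl fun σ hσ => by
    rw [Linear.smul_comp, pm_eI hT (GeoAux.mem_yS.1 hσ), smul_smul], ← Finset.sum_smul, GeoAux.sum_yR, one_smul]

theorem kills_eI [CharZero F] (h : ∀ σ ∈ Young w I, Ha χ n w I σ) (hT : T.Dep (JI w I)) :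
    Kills (ov χ (Zv k n w (Finset.Ioo 0 w)) (Av k n w) T fun _ x => jmap n w x)
      (ov χ (Zv k n w (Finset.Ioo 0 w)) (Zv k n w I) T fun _ x => forget w I x)
      (eI χ n w I T - 𝟙 _) := by
  have e : eI χ n w I T - 𝟙 _ = ∑ σ ∈ yS w I, yR F n w I σ •
      (ov χ (Av k n w) (Av k n w) T (pm σ) - eps F n w σ • 𝟙 _) := by
    simp only [smul_sub, smul_smul, Finset.sum_sub_distrib, ← Finset.sum_smul, GeoAux.sum_yR, one_smul]
  rw [e]
  exact Kills.sum fun σ hσ => (h σ (GeoAux.mem_yS.1 hσ) P T hT).smul _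

theorem pmap_split (hI : I ⊆ Finset.Ioo 0 (j + l)) (hj : j ∈ I) :
    PMap (Zv k n (j + l) I) ((Zv k n j (lowI j I)).ten j (Zv k n l (uppI j I))) (JI (j + l) I)
      fun _ x => (low j x, upp n j x) := by
  have h0 := Finset.mem_Ioo.1 (hI hj)
  refine ⟨IsMap.of_open (fun _ _ φ x y a b h hy => ?_)
    (IsMap.of_proper ⟨fun _ x a => a.2, fun _ _ φ x y a b h => ⟨fun i => ?_, fun m => ?_⟩⟩
      (fun _ x a => (a.1.fU_split hI hj ((a.1.low_iff hI hj).1 a.2.1)).symm)
      fun _ _ φ x z a b h => ?_), fun _ x a b m hm => ?_⟩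
  · have hr := (h j).rel (a.stab' j).1 ((b.low_iff hI hj).1 hy.1)
    exact ⟨(a.low_iff hI hj).2 hr, a.upp_flag hI hj hr⟩
  · change φ.GR (low j x i) (low j y i)
    unfold low
    split_ifs
    exacts [h i, GR.bot]
  · change φ.GR (upp n j x m) (upp n j y m)
    unfold upp
    by_cases hm : j + m ∈ I ∨ j + m = j + l
    · exact (h _).map_op (h j) (a.1.le_of hj hm (Nat.le_add_right _ _))
        ((a.1.low_iff hI hj).1 a.2.1) ((b.1.low_iff hI hj).1 b.2.1)
    · rw [not_or] at hm
      rw [a.1.bot _ hm.1 hm.2, b.1.bot _ hm.1 hm.2, Submodule.map_bot, Submodule.map_bot]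
      exact GR.bot
  · have hg := b.1.glue_flag hI hj b.2
    refine ⟨glue n j l I z.1 z.2, ⟨hg.1, ?_⟩, fun i => ?_⟩
    · change Flag n j _ (low j _) ∧ Flag n l _ (upp n j _)
      rw [hg.2.1, hg.2.2]
      exact b
    · have e := congrFun (a.1.glue_split hI hj ((a.1.low_iff hI hj).1 a.2.1)) i
      change φ.GR (x i) _
      rw [← e]
      unfold glue
      split_ifs
      exacts [h.1 i, (h.2 _).comap_op (h.1 j) a.2.1.rel b.1.rel, GR.bot]
  · change gl j (fun m => chi n (low j x m)) (fun m => chi n (upp n j x m)) m = chi n (x m)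
    simp only [gl]
    split_ifs with hj'
    · rw [low_of_le hj']
    · have e : j + (m - j) = m := by omega
      rw [low_of_le le_rfl, upp, e]
      exact (((a.low_iff hI hj).1 b.1).chi_map (a.stab' m).1 (a.le_of hj hm (by omega))).symm

theorem pmap_splitA : PMap (Av k n (j + l)) ((Av k n j).ten j (Av k n l)) Set.univ
    fun _ x => (fun a => x (Fin.castAdd l a), fun b => x (Fin.natAdd j b)) := by
  refine ⟨IsMap.of_inv (g := fun _ y => Fin.addCases y.1 y.2)
    ⟨fun _ x a => ⟨fun _ => a _, fun _ => a _⟩, fun _ _ _ _ _ _ _ h => ⟨fun _ => h _, fun _ => h _⟩⟩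
    ⟨fun _ y a c => ?_, fun _ _ φ y y' _ _ h c => ?_⟩
    (fun _ x _ => (Fin.sum_univ_add fun c => ∑ i, x c i).symm) fun _ x _ => funext fun c => ?_,
    fun _ x _ _ m _ => ?_⟩
  · induction c using Fin.addCases with
    | left c => simpa only [Fin.addCases_left] using a.1 c
    | right c => simpa only [Fin.addCases_right] using a.2 c
  · induction c using Fin.addCases with
    | left c => simpa only [Fin.addCases_left] using h.1 c
    | right c => simpa only [Fin.addCases_right] using h.2 c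
  · induction c using Fin.addCases with
    | left c => simp only [Fin.addCases_left]
    | right c => simp only [Fin.addCases_right]
  · change gl j (chiA fun a => x (Fin.castAdd l a)) (chiA fun b => x (Fin.natAdd j b)) m = chiA x m
    simp only [gl, chiA, Finset.prod_filter, Fin.prod_univ_add, Fin.val_castAdd, Fin.val_natAdd]
    split_ifs with hm
    · rw [Finset.prod_eq_one (s := (Finset.univ : Finset (Fin l))) fun b _ => if_neg (by omega),
        mul_one]
    · congr 1
      · exact Finset.prod_congr rfl fun a _ => by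
          rw [if_pos a.2, if_pos (by have := a.2; omega)]
      · exact Finset.prod_congr rfl fun b _ => if_congr (by omega) rfl rfl

end

end Pool.Agent.Lib.MP_fc2ced_ag.K
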