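import Pool.Agent.Lib.MP_fc2ced_ag.K.Place2

/-! Specialization of finite dimensional spaces of vectors along a place. -/

open Module

namespace Pool.Agent.Lib.MP_fc2ced_ag.K

section Lin

variable {F : Type} [Field F] {ι ι' : Type}

theorem lin_basis (V : Submodule F (ι → F)) [FiniteDimensional F V] :
    ∃ (d : ℕ) (y : Fin d → ι → F), V = Submodule.span F (Set.range y) ∧ LinearIndependent F y := by
  let b := Module.finBasis F V
  refine ⟨_, V.subtype ∘ b, ?_, b.linearIndependent.map' V.subtype V.ker_subtype⟩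
  rw [Set.range_comp, ← Submodule.map_span, b.span_eq, Submodule.map_top, Submodule.range_subtype]

theorem lin_drop (V : Submodule F (ι → F)) [FiniteDimensional F V] {z : ι → F} (hz : z ∈ V)
    {i : ι} (hi : z i ≠ 0) :
    finrank F ↥(V ⊓ LinearMap.ker (LinearMap.proj (R := F) (φ := fun _ : ι => F) i)) + 1 =
      finrank F V := by
  have h := LinearMap.finrank_range_add_finrank_ker
    ((LinearMap.proj (R := F) (φ := fun _ : ι => F) i).domRestrict V)
  have h1 : LinearMap.range ((LinearMap.proj (R := F) (φ := fun _ : ι => F) i).domRestrict V) =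
      ⊤ := by
    refine LinearMap.range_eq_top.2 fun c => ⟨⟨(c / z i) • z, V.smul_mem _ hz⟩, ?_⟩
    simp [div_mul_cancel₀ c hi]
  rw [h1, finrank_top, Module.finrank_self, LinearMap.ker_domRestrict,
    ← Submodule.finrank_map_subtype_eq V, Submodule.map_comap_subtype] at h
  omega

theorem lin_rank (V : Submodule F (ι → F)) [FiniteDimensional F V] (G : (ι → F) →ₗ[F] (ι' → F)) :
    finrank F ↥(V.map G) + finrank F ↥(V ⊓ LinearMap.ker G) = finrank F V := by
  have h := LinearMap.finrank_range_add_finrank_ker (G.domRestrict V)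
  rwa [LinearMap.range_domRestrict, LinearMap.ker_domRestrict,
    ← Submodule.finrank_map_subtype_eq V, Submodule.map_comap_subtype] at h

theorem lin_piv (J : Set ι) (d : ℕ) : ∀ (V : Submodule F (ι → F)) [FiniteDimensional F V],
    finrank F V = d → (∀ z ∈ V, (∀ i ∈ J, z i = 0) → z = 0) →
    ∃ j : Fin d → ι, (∀ b, j b ∈ J) ∧ ∀ z ∈ V, (∀ b, z (j b) = 0) → z = 0 := by
  induction d with
  | zero =>
    intro V _ hd _
    refine ⟨Fin.elim0, fun b => b.elim0, fun z hz _ => ?_⟩
    rw [Submodule.finrank_eq_zero] at hd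
    simpa [hd] using hz
  | succ d ih =>
    intro V _ hd hJ
    have hV : V ≠ ⊥ := fun e => by have := Submodule.finrank_eq_zero.2 e; omega
    obtain ⟨z, hz, hz0⟩ := Submodule.exists_mem_ne_zero_of_ne_bot hV
    have : ∃ i ∈ J, z i ≠ 0 := by
      by_contra hc
      push Not at hc
      exact hz0 (hJ z hz hc)
    obtain ⟨i, hiJ, hi⟩ := this
    have hr := lin_drop V hz hi
    obtain ⟨j, hj, hj'⟩ :=
      ih (V ⊓ LinearMap.ker (LinearMap.proj (R := F) (φ := fun _ : ι => F) i)) (by omega)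
        fun w hw => hJ w hw.1
    refine ⟨Fin.cons i j, fun b => ?_, fun w hw h0 => hj' w ⟨hw, ?_⟩ fun b => ?_⟩
    · induction b using Fin.cases with
      | zero => simpa using hiJ
      | succ b => simpa using hj b
    · simpa using h0 0
    · simpa using h0 b.succ

theorem lin_norm (V : Submodule F (ι → F)) [FiniteDimensional F V] {d : ℕ} (hd : finrank F V = d)
    (j : Fin d → ι) (hj : ∀ z ∈ V, (∀ b, z (j b) = 0) → z = 0) :
    ∃ u : Fin d → ι → F, (∀ a, u a ∈ V) ∧ ∀ a b, u a (j b) = if a = b then 1 else 0 := by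
  let r : V →ₗ[F] (Fin d → F) := (LinearMap.funLeft F F j).domRestrict V
  have hi : Function.Injective r := by
    rw [injective_iff_map_eq_zero]
    intro z hz
    exact Subtype.ext (hj z z.2 fun b => congrFun hz b)
  have hs : Function.Surjective r :=
    (LinearMap.injective_iff_surjective_of_finrank_eq_finrank (by simp [hd])).1 hi
  choose u hu using fun a : Fin d => hs fun b => if a = b then 1 else 0
  exact ⟨fun a => u a, fun a => (u a).2, fun a b => congrFun (hu a) b⟩

theorem lin_span (V : Submodule F (ι → F)) [FiniteDimensional F V] {d : ℕ} (hd : finrank F V = d)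
    (j : Fin d → ι) (u : Fin d → ι → F) (hu : ∀ a, u a ∈ V)
    (h : ∀ a b, u a (j b) = if a = b then 1 else 0) :
    V = Submodule.span F (Set.range u) ∧ LinearIndependent F u := by
  have hl : LinearIndependent F u := by
    rw [Fintype.linearIndependent_iff]
    intro c hc b
    simpa [Finset.sum_apply, h] using congrFun hc (j b)
  refine ⟨(Submodule.eq_of_le_of_finrank_eq ?_ ?_).symm, hl⟩
  · exact Submodule.span_le.2 (Set.range_subset_iff.2 hu)
  · rw [finrank_span_eq_card hl, hd, Fintype.card_fin]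

theorem lin_comap {α β : Type} [Fintype β] (G : (ι → F) →ₗ[F] (ι' → F)) (n : α → ι → F)
    (y : β → ι → F) (hn : LinearMap.ker G = Submodule.span F (Set.range n)) :
    (Submodule.span F (Set.range fun b => G (y b))).comap G =
      Submodule.span F (Set.range (Sum.elim n y)) := by
  rw [Set.Sum.elim_range, Submodule.span_union, ← hn]
  have : (Set.range fun b => G (y b)) = G '' Set.range y := Set.range_comp G y
  rw [this, ← Submodule.map_span, Submodule.comap_map_eq, sup_comm]

end Lin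

namespace Place

variable {k : Type} [Field k] {K K' K'' : Fld k} (φ : Place K K') {ι ι' : Type}

/-- Coordinatewise specialization of vectors. -/
def VR (y : ι → K) (y' : ι → K') : Prop := ∀ i, φ (y i) (y' i)

/-- The space `U` specializes to the space `U'` of the same dimension. -/
def GR (U : Submodule K (ι → K)) (U' : Submodule K' (ι → K')) : Prop :=
  ∃ (d : ℕ) (y : Fin d → ι → K) (y' : Fin d → ι → K'), (∀ a, φ.VR (y a) (y' a)) ∧
    U = Submodule.span K (Set.range y) ∧ U' = Submodule.span K' (Set.range y') ∧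
    LinearIndependent K' y'

variable {φ} {U W : Submodule K (ι → K)} {U' W' : Submodule K' (ι → K')}

theorem VR.func {y : ι → K} {y' z' : ι → K'} (h : φ.VR y y') (h' : φ.VR y z') : y' = z' :=
  funext fun i => φ.func (h i) (h' i)

theorem VR.zero : φ.VR (0 : ι → K) 0 := fun _ => φ.zero

theorem VR.smul {y : ι → K} {y' : ι → K'} {c : K} {c' : K'} (hc : φ c c') (h : φ.VR y y') :
    φ.VR (c • y) (c' • y') := fun i => φ.mul hc (h i)

theorem VR.lin {α : Type} [Fintype α] {y : α → ι → K} {y' : α → ι → K'}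
    (h : ∀ a, φ.VR (y a) (y' a)) {c : α → K} {c' : α → K'} (hc : φ.VR c c') :
    φ.VR (∑ a, c a • y a) (∑ a, c' a • y' a) := fun i => by
  rw [Finset.sum_apply, Finset.sum_apply]
  exact Place.sum fun a _ => φ.mul (hc a) (h a i)

variable (φ) in
theorem exists_scale {α : Type} [Finite α] {c : α → K} (hc : c ≠ 0) :
    ∃ (j : α) (c' : α → K'), c j ≠ 0 ∧ c' j = 1 ∧ φ.VR ((c j)⁻¹ • c) c' := by
  obtain ⟨j, hj, h⟩ := φ.exists_max c hc
  choose c' hc' using h
  refine ⟨j, c', hj, ?_, fun a => (hc' a).congr ?_ rfl⟩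
  · have := hc' j
    rw [div_self hj] at this
    exact φ.func this φ.one
  · simp [div_eq_inv_mul]

theorem VR.scale {α : Type} [Fintype α] {y : α → ι → K} {y' : α → ι → K'}
    (h : ∀ a, φ.VR (y a) (y' a)) (h' : LinearIndependent K' y') {c : α → K} (hc : c ≠ 0) :
    ∃ (t : K) (w' : ι → K'), w' ≠ 0 ∧ w' ∈ Submodule.span K' (Set.range y') ∧
      φ.VR (t • ∑ a, c a • y a) w' ∧ ((∀ a, ∃ b, φ (c a) b) ∨ φ t 0) := by
  obtain ⟨j, c', hj, h1, h2⟩ := φ.exists_scale hc
  refine ⟨(c j)⁻¹, ∑ a, c' a • y' a, fun e => ?_, ?_, ?_, ?_⟩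
  · exact one_ne_zero (h1.symm.trans (Fintype.linearIndependent_iff.1 h' c' e j))
  · exact (Submodule.mem_span_range_iff_exists_fun K').2 ⟨c', rfl⟩
  · have := VR.lin h h2
    simpa only [Finset.smul_sum, Pi.smul_apply, smul_eq_mul, mul_smul] using this
  · refine (φ.total (c j)).imp (fun ⟨b, hb⟩ a => ⟨_, (φ.mul hb (h2 a)).congr ?_ rfl⟩) id
    simp [← mul_assoc, mul_inv_cancel₀ hj]

theorem VR.linearIndependent {α : Type} [Finite α] {y : α → ι → K} {y' : α → ι → K'}
    (h : ∀ a, φ.VR (y a) (y' a)) (h' : LinearIndependent K' y') : LinearIndependent K y := by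
  have := Fintype.ofFinite α
  rw [Fintype.linearIndependent_iff]
  intro c hc
  by_contra hn
  have hc0 : c ≠ 0 := fun e => hn fun a => congrFun e a
  obtain ⟨t, w', h0, -, h1, -⟩ := VR.scale h h' hc0
  rw [hc, smul_zero] at h1
  exact h0 (h1.func VR.zero)

/-- The coefficients of a finite vector in a basis that specializes to a basis are finite. -/
theorem VR.coeff {α : Type} [Fintype α] {y : α → ι → K} {y' : α → ι → K'}
    (h : ∀ a, φ.VR (y a) (y' a)) (h' : LinearIndependent K' y') {c : α → K} {z' : ι → K'}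
    (hz : φ.VR (∑ a, c a • y a) z') : ∃ c' : α → K', φ.VR c c' ∧ z' = ∑ a, c' a • y' a := by
  have key : ∀ a, ∃ b, φ (c a) b := by
    by_cases hc : c = 0
    · exact fun a => ⟨0, by rw [hc]; exact φ.zero⟩
    obtain ⟨t, w', h0, -, h1, h2 | h2⟩ := VR.scale h h' hc
    · exact h2
    · exact absurd ((h1.func (VR.smul h2 hz)).trans (zero_smul _ _)) h0
  choose c' hc' using key
  exact ⟨c', hc', hz.func (VR.lin h hc')⟩

theorem GR.mk' {α : Type} [Finite α] {y : α → ι → K} {y' : α → ι → K'}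
    (h : ∀ a, φ.VR (y a) (y' a)) (h' : LinearIndependent K' y') :
    φ.GR (Submodule.span K (Set.range y)) (Submodule.span K' (Set.range y')) := by
  obtain ⟨d, ⟨e⟩⟩ := Finite.exists_equiv_fin α
  refine ⟨d, y ∘ e.symm, y' ∘ e.symm, fun a => h _, ?_, ?_, h'.comp _ e.symm.injective⟩
  · rw [e.symm.surjective.range_comp]
  · rw [e.symm.surjective.range_comp]

theorem GR.bot : φ.GR (⊥ : Submodule K (ι → K)) ⊥ :=
  ⟨0, Fin.elim0, Fin.elim0, fun a => a.elim0, by simp, by simp, linearIndependent_empty_type⟩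

theorem GR.finite (h : φ.GR U U') : FiniteDimensional K U ∧ FiniteDimensional K' U' := by
  obtain ⟨d, y, y', -, rfl, rfl, -⟩ := h
  exact ⟨FiniteDimensional.span_of_finite _ (Set.finite_range _),
    FiniteDimensional.span_of_finite _ (Set.finite_range _)⟩

theorem GR.finrank (h : φ.GR U U') : finrank K' U' = finrank K U := by
  obtain ⟨d, y, y', hv, rfl, rfl, hl⟩ := h
  rw [finrank_span_eq_card hl, finrank_span_eq_card (VR.linearIndependent hv hl)]

theorem GR.mem (h : φ.GR U U') {z : ι → K} {z' : ι → K'} (hz : z ∈ U) (h' : φ.VR z z') :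
    z' ∈ U' := by
  obtain ⟨d, y, y', hv, rfl, rfl, hl⟩ := h
  obtain ⟨c, rfl⟩ := (Submodule.mem_span_range_iff_exists_fun K).1 hz
  obtain ⟨c', -, rfl⟩ := VR.coeff hv hl h'
  exact (Submodule.mem_span_range_iff_exists_fun K').2 ⟨c', rfl⟩

theorem GR.mono (h : φ.GR W W') (h' : φ.GR U U') (e : W ≤ U) : W' ≤ U' := by
  obtain ⟨d, y, y', hv, rfl, rfl, -⟩ := h
  exact Submodule.span_le.2 (Set.range_subset_iff.2 fun a =>
    h'.mem (e (Submodule.subset_span ⟨a, rfl⟩)) (hv a))

theorem GR.func {U₁ : Submodule K' (ι → K')} (h : φ.GR U U') (h' : φ.GR U U₁) : U' = U₁ :=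
  le_antisymm (h.mono h' le_rfl) (h'.mono h le_rfl)

theorem GR.id_iff {V : Submodule K (ι → K)} [FiniteDimensional K U] :
    (Place.id K).GR U V ↔ V = U := by
  obtain ⟨d, y, h1, h2⟩ := lin_basis U
  have h : (Place.id K).GR U U := ⟨d, y, y, fun _ _ => rfl, h1, h1, h2⟩
  exact ⟨fun h' => h'.func h, fun e => e ▸ h⟩

/-- A vector of `U` whose coordinates in `J` are finite is finite, if the vectors of the limit
space are determined by their coordinates in `J`. -/
theorem GR.exists_of_piv (h : φ.GR U U') (J : Set ι)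
    (hJ : ∀ z' ∈ U', (∀ i ∈ J, z' i = 0) → z' = 0) {z : ι → K} (hz : z ∈ U)
    (hf : ∀ i ∈ J, ∃ b, φ (z i) b) : ∃ z', φ.VR z z' := by
  obtain ⟨d, y, y', hv, rfl, rfl, hl⟩ := h
  obtain ⟨c, rfl⟩ := (Submodule.mem_span_range_iff_exists_fun K).1 hz
  have key : ∀ a, ∃ b, φ (c a) b := by
    by_cases hc : c = 0
    · exact fun a => ⟨0, by rw [hc]; exact φ.zero⟩
    obtain ⟨t, w', h0, hm, h1, h2 | h2⟩ := VR.scale hv hl hc
    · exact h2
    · refine absurd (hJ w' hm fun i hi => ?_) h0
      obtain ⟨b, hb⟩ := hf i hi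
      exact (φ.func (h1 i) (φ.mul h2 hb)).trans (zero_mul b)
  choose c' hc' using key
  exact ⟨_, VR.lin hv hc'⟩

/-- Determination by the coordinates in `J` is an open condition. -/
theorem GR.piv (h : φ.GR U U') (J : Set ι) (hJ : ∀ z' ∈ U', (∀ i ∈ J, z' i = 0) → z' = 0) :
    ∀ z ∈ U, (∀ i ∈ J, z i = 0) → z = 0 := by
  intro z hz hz0
  obtain ⟨d, y, y', hv, rfl, rfl, hl⟩ := h
  obtain ⟨c, rfl⟩ := (Submodule.mem_span_range_iff_exists_fun K).1 hz
  by_cases hc : c = 0
  · simp [hc]
  obtain ⟨t, w', h0, hm, h1, -⟩ := VR.scale hv hl hc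
  refine absurd (hJ w' hm fun i hi => ?_) h0
  have := h1 i
  rw [Pi.smul_apply, hz0 i hi, smul_zero] at this
  exact zero_iff.1 this

/-- A family normalized on pivots of the limit space specializes to a normalized family. -/
theorem GR.norm (h : φ.GR U U') {d : ℕ} (j : Fin d → ι)
    (hj : ∀ z' ∈ U', (∀ b, z' (j b) = 0) → z' = 0) (u : Fin d → ι → K) (hu : ∀ a, u a ∈ U)
    (hn : ∀ a b, u a (j b) = if a = b then 1 else 0) :
    ∃ u' : Fin d → ι → K', (∀ a, φ.VR (u a) (u' a)) ∧ (∀ a, u' a ∈ U') ∧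
      ∀ a b, u' a (j b) = if a = b then 1 else 0 := by
  have h1 (a b : Fin d) : φ (u a (j b)) (if a = b then 1 else 0) := by
    rw [hn]
    split_ifs
    · exact φ.one
    · exact φ.zero
  choose u' hu' using fun a => h.exists_of_piv (Set.range j)
    (fun z' hz' h0 => hj z' hz' fun b => h0 _ ⟨b, rfl⟩) (hu a)
    (by rintro _ ⟨b, rfl⟩; exact ⟨_, h1 a b⟩)
  exact ⟨u', hu', fun a => h.mem (hu a) (hu' a), fun a b => φ.func (hu' a (j b)) (h1 a b)⟩

theorem GR.piv' (h : φ.GR U U') {d : ℕ} (j : Fin d → ι)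
    (hj : ∀ z' ∈ U', (∀ b, z' (j b) = 0) → z' = 0) : ∀ z ∈ U, (∀ b, z (j b) = 0) → z = 0 :=
  fun z hz h0 => h.piv (Set.range j) (fun z' hz' h1 => hj z' hz' fun b => h1 _ ⟨b, rfl⟩) z hz
    (by rintro _ ⟨b, rfl⟩; exact h0 b)

theorem GR.comp_iff {φ' : Place K' K''} {U'' : Submodule K'' (ι → K'')} :
    (φ'.comp φ).GR U U'' ↔ ∃ U', φ.GR U U' ∧ φ'.GR U' U'' := by
  constructor
  · rintro ⟨d, y, y'', hv, rfl, rfl, hl⟩
    choose y' h1 h2 using hv
    exact ⟨_, GR.mk' h1 (VR.linearIndependent h2 hl), GR.mk' h2 hl⟩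
  · rintro ⟨U', h, h'⟩
    have := h.finite.1
    have := h'.finite.2
    obtain ⟨j, -, hj⟩ := lin_piv Set.univ _ U'' rfl fun z _ h0 => funext fun i => h0 i trivial
    have hj' := h'.piv' j hj
    have hd := h.finrank.symm.trans h'.finrank.symm
    obtain ⟨u, hu, hn⟩ := lin_norm U hd j (h.piv' j hj')
    obtain ⟨u', h1, hu', hn'⟩ := h.norm j hj' u hu hn
    obtain ⟨u'', h2, hu'', hn''⟩ := h'.norm j hj u' hu' hn'
    have e := lin_span U'' rfl j u'' hu'' hn''
    exact ⟨_, u, u'', fun a i => ⟨_, h1 a i, h2 a i⟩, (lin_span U hd j u hu hn).1, e.1, e.2⟩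

variable (φ) in
theorem GR.exists_fin {α : Type} [Finite α] (n : ℕ) : ∀ V : Submodule K (α → K),
    Module.finrank K V = n → ∃ V', φ.GR V V' := by
  induction n with
  | zero =>
    intro V hd
    rw [Submodule.finrank_eq_zero] at hd
    exact ⟨⊥, hd ▸ GR.bot⟩
  | succ n ih =>
    intro V hd
    have hV : V ≠ ⊥ := fun e => by have := Submodule.finrank_eq_zero.2 e; omega
    obtain ⟨z, hz, hz0⟩ := Submodule.exists_mem_ne_zero_of_ne_bot hV
    obtain ⟨j, c', hj, h1, h2⟩ := φ.exists_scale hz0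
    have hr := lin_drop V hz hj
    obtain ⟨V', d, y, y', hv, e1, -, hl⟩ :=
      ih (V ⊓ LinearMap.ker (LinearMap.proj (R := K) (φ := fun _ : α => K) j)) (by omega)
    have hy (a : Fin d) :
        y a ∈ V ⊓ LinearMap.ker (LinearMap.proj (R := K) (φ := fun _ : α => K) j) :=
      e1 ▸ Submodule.subset_span ⟨a, rfl⟩
    have hy' (a : Fin d) : y' a j = 0 := by
      have := hv a j
      rw [show y a j = 0 from (hy a).2] at this
      exact zero_iff.1 this
    have hv2 : ∀ a : Option (Fin d), φ.VR (a.elim ((z j)⁻¹ • z) y) (a.elim c' y') := by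
      rintro (_ | a)
      · exact h2
      · exact hv a
    have hl2 : LinearIndependent K' fun a : Option (Fin d) => a.elim c' y' := by
      rw [Fintype.linearIndependent_iff]
      intro g hg
      rw [Fintype.sum_option] at hg
      have g0 : g none = 0 := by simpa [Finset.sum_apply, h1, hy'] using congrFun hg j
      rw [g0, zero_smul, zero_add] at hg
      rintro (_ | a)
      · exact g0
      · exact Fintype.linearIndependent_iff.1 hl (fun a => g (some a)) hg a
    have hG := GR.mk' hv2 hl2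
    suffices e2 : Submodule.span K (Set.range fun a : Option (Fin d) =>
        a.elim ((z j)⁻¹ • z) y) = V from ⟨_, e2 ▸ hG⟩
    refine Submodule.eq_of_le_of_finrank_eq (Submodule.span_le.2 (Set.range_subset_iff.2 ?_)) ?_
    · rintro (_ | a)
      · exact V.smul_mem _ hz
      · exact (hy a).1
    · rw [finrank_span_eq_card (VR.linearIndependent hv2 hl2), ← hr, e1,
        finrank_span_eq_card (VR.linearIndependent hv hl), Fintype.card_option]

/-- Properness of Grassmannians. -/
theorem GR.exists_le (h : φ.GR U U') (e : W ≤ U) : ∃ W', φ.GR W W' := by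
  obtain ⟨d, y, y', hv, rfl, rfl, hl⟩ := h
  obtain ⟨V', n, v, v', hw, e1, -, hl'⟩ :=
    GR.exists_fin φ _ (W.comap (Fintype.linearCombination K y)) rfl
  have hG := GR.mk' (φ := φ) (y := Fintype.linearCombination K y ∘ v)
    (y' := Fintype.linearCombination K' y' ∘ v') (fun a => VR.lin hv (hw a))
    (hl'.map' _ (LinearMap.ker_eq_bot.2 hl.fintypeLinearCombination_injective))
  suffices e2 : Submodule.span K (Set.range (Fintype.linearCombination K y ∘ v)) = W from
    ⟨_, e2 ▸ hG⟩
  rw [Set.range_comp, ← Submodule.map_span, ← e1, Submodule.map_comap_eq,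
    Fintype.range_linearCombination, inf_eq_right.2 e]

/-- Images under compatible linear maps. -/
theorem GR.map (h : φ.GR U U') (h₁ : φ.GR W W') (e : W ≤ U) (G : (ι → K) →ₗ[K] (ι' → K))
    (G' : (ι → K') →ₗ[K'] (ι' → K')) (hG : ∀ y y', φ.VR y y' → φ.VR (G y) (G' y'))
    (hk : W ≤ LinearMap.ker G) (hk' : U' ⊓ LinearMap.ker G' ≤ W') :
    φ.GR (U.map G) (U'.map G') := by
  have := h.finite.1
  have := h.finite.2
  have := h₁.finite.2
  have r1 := lin_rank U G
  have r2 := lin_rank U' G'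
  have r3 := Submodule.finrank_mono (le_inf e hk)
  have r4 := Submodule.finrank_mono hk'
  have r5 := h.finrank
  have r6 := h₁.finrank
  obtain ⟨d, y, y', hv, e1, e2, -⟩ := h
  obtain ⟨κ, a, ha, hs, hl⟩ := exists_linearIndependent' K' (G' ∘ y')
  have := Finite.of_injective a ha
  have := Fintype.ofFinite κ
  have hv2 : ∀ b, φ.VR (((G ∘ y) ∘ a) b) (((G' ∘ y') ∘ a) b) := fun b => hG _ _ (hv (a b))
  have e3 : Submodule.span K' (Set.range ((G' ∘ y') ∘ a)) = U'.map G' := by
    rw [hs, Set.range_comp, ← Submodule.map_span, ← e2]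
  have hG' := GR.mk' hv2 hl
  have r7 := hG'.finrank
  rw [e3] at hG' r7
  suffices e4 : Submodule.span K (Set.range ((G ∘ y) ∘ a)) = U.map G from e4 ▸ hG'
  refine Submodule.eq_of_le_of_finrank_le (Submodule.span_le.2 (Set.range_subset_iff.2 fun b =>
    Submodule.mem_map_of_mem (e1 ▸ Submodule.subset_span ⟨a b, rfl⟩))) (by omega)

/-- Preimages under compatible linear maps. -/
theorem GR.comap {V : Submodule K (ι' → K)} {V' : Submodule K' (ι' → K')} (h : φ.GR V V')
    (G : (ι → K) →ₗ[K] (ι' → K)) (G' : (ι → K') →ₗ[K'] (ι' → K'))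
    (hk : φ.GR (LinearMap.ker G) (LinearMap.ker G'))
    (hG : ∀ z z', φ.VR z z' → ∃ y y', φ.VR y y' ∧ G y = z ∧ G' y' = z') :
    φ.GR (V.comap G) (V'.comap G') := by
  obtain ⟨d, v, v', hv, rfl, rfl, hl⟩ := h
  obtain ⟨m, n, n', hn, e1, e2, hl'⟩ := hk
  choose y y' h1 h2 h3 using fun a => hG _ _ (hv a)
  obtain rfl : v = fun b => G (y b) := funext fun b => (h2 b).symm
  obtain rfl : v' = fun b => G' (y' b) := funext fun b => (h3 b).symm
  rw [lin_comap G n y e1, lin_comap G' n' y' e2]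
  refine GR.mk' (by rintro (a | a); exacts [hn a, h1 a]) ?_
  refine hl'.sum_type (hl.of_comp G') ?_
  rw [← e2, Submodule.disjoint_def]
  intro z hz hz'
  obtain ⟨c, rfl⟩ := (Submodule.mem_span_range_iff_exists_fun K').1 hz'
  rw [LinearMap.mem_ker, map_sum] at hz
  have := Fintype.linearIndependent_iff.1 hl c (by simpa only [map_smul] using hz)
  simp [this]

/-- A linear relation with finite coefficients specializes. -/
theorem GR.le_ker (h : φ.GR U U') (G : (ι → K) →ₗ[K] (ι' → K)) (G' : (ι → K') →ₗ[K'] (ι' → K'))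
    (hG : ∀ y y', φ.VR y y' → φ.VR (G y) (G' y')) (hk : U ≤ LinearMap.ker G) :
    U' ≤ LinearMap.ker G' := by
  obtain ⟨d, y, y', hv, rfl, rfl, -⟩ := h
  refine Submodule.span_le.2 (Set.range_subset_iff.2 fun a => ?_)
  have := hG _ _ (hv a)
  rw [show G (y a) = 0 from hk (Submodule.subset_span ⟨a, rfl⟩)] at this
  exact this.func VR.zero

/-- Invariance under compatible maps specializes, and so does the characteristic polynomial. -/
theorem GR.charpoly (h : φ.GR U U') (G : (ι → K) →ₗ[K] (ι → K)) (G' : (ι → K') →ₗ[K'] (ι → K'))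
    (hG : ∀ y y', φ.VR y y' → φ.VR (G y) (G' y')) (hU : ∀ y ∈ U, G y ∈ U)
    [FiniteDimensional K U] [FiniteDimensional K' U'] :
    ∃ hU' : ∀ y ∈ U', G' y ∈ U', φ.PR (G.restrict hU).charpoly (G'.restrict hU').charpoly := by
  have h0 := h
  obtain ⟨d, y, y', hv, rfl, rfl, hl⟩ := h
  have hU' : Submodule.span K' (Set.range y') ≤ (Submodule.span K' (Set.range y')).comap G' :=
    Submodule.span_le.2 (Set.range_subset_iff.2 fun a =>
      h0.mem (hU _ (Submodule.subset_span ⟨a, rfl⟩)) (hG _ _ (hv a)))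
  refine ⟨hU', ?_⟩
  let b := Basis.span (VR.linearIndependent hv hl)
  let b' := Basis.span hl
  have hb (a : Fin d) : (b a : ι → K) = y a := by simp [b]
  have hb' (a : Fin d) : (b' a : ι → K') = y' a := by simp [b']
  rw [← LinearMap.charpoly_toMatrix _ b, ← LinearMap.charpoly_toMatrix _ b']
  refine Place.charpoly fun i j => ?_
  rw [LinearMap.toMatrix_apply, LinearMap.toMatrix_apply]
  have e1 : ∑ a, b.repr (G.restrict hU (b j)) a • y a = G (y j) := by
    have := congrArg Subtype.val (b.sum_repr (G.restrict hU (b j)))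
    simpa only [Submodule.coe_sum, Submodule.coe_smul, hb, LinearMap.coe_restrict_apply] using this
  have e2 : ∑ a, b'.repr (G'.restrict hU' (b' j)) a • y' a = G' (y' j) := by
    have := congrArg Subtype.val (b'.sum_repr (G'.restrict hU' (b' j)))
    simpa only [Submodule.coe_sum, Submodule.coe_smul, hb', LinearMap.coe_restrict_apply] using this
  obtain ⟨c', hc, e3⟩ := VR.coeff hv hl (e1 ▸ hG _ _ (hv j))
  have e4 := hl.fintypeLinearCombination_injective (a₁ := c')
    (a₂ := fun a => b'.repr (G'.restrict hU' (b' j)) a) (e3.symm.trans e2.symm)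
  exact (hc i).congr rfl (congrFun e4 i)

/-- The specialization of a subspace of `U` is determined by finitely many elements, given the
specialization of `U`, if the limit of `U` is determined by the coordinates in a finite set. -/
theorem GR.fin (W : Submodule K (ι → K)) (J : Finset ι) : ∃ S : Finset K,
    ∀ (K' : Fld k) (φ φ' : Place K K'), (∀ s ∈ S, φ s = φ' s) →
      ∀ (U : Submodule K (ι → K)) (U' W' : Submodule K' (ι → K')), W ≤ U → φ.GR U U' →
        φ'.GR U U' → (∀ z' ∈ U', (∀ i ∈ J, z' i = 0) → z' = 0) → φ.GR W W' → φ'.GR W W' := by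
  classical
  by_cases hW : FiniteDimensional K W
  swap
  · exact ⟨∅, fun K' φ φ' _ U U' W' _ _ _ _ h => absurd h.finite.1 hW⟩
  have key (j : Fin (Module.finrank K W) → J) : ∃ u : Fin (Module.finrank K W) → ι → K,
      (∀ z ∈ W, (∀ b, z (j b) = 0) → z = 0) →
        (∀ a, u a ∈ W) ∧ ∀ a b, u a (j b) = if a = b then 1 else 0 := by
    by_cases hj : ∀ z ∈ W, (∀ b, z (j b) = 0) → z = 0
    · exact (lin_norm W rfl (fun b => j b) hj).imp fun u hu _ => hu
    · exact ⟨0, fun h => absurd h hj⟩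
  choose u hu using key
  refine ⟨Finset.univ.image fun x : (Fin (Module.finrank K W) → J) × Fin (Module.finrank K W) × J =>
    u x.1 x.2.1 x.2.2, fun K' φ φ' hS U U' W' e h h' hJ h₁ => ?_⟩
  have := h₁.finite.2
  have e' := h₁.mono h e
  obtain ⟨j, hj, hj'⟩ := lin_piv (J : Set ι) _ W' h₁.finrank fun z hz => hJ z (e' hz)
  obtain ⟨h2, h3⟩ := hu (fun b => ⟨j b, hj b⟩) (h₁.piv' j hj')
  obtain ⟨u', h4, h5, h6⟩ := h₁.norm j hj' _ h2 h3
  have e2 := lin_span W' h₁.finrank j u' h5 h6
  refine ⟨_, _, u', fun a => ?_, (lin_span W rfl j _ h2 h3).1, e2.1, e2.2⟩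
  have h7 (i : ι) (hi : i ∈ J) : φ' (u (fun b => ⟨j b, hj b⟩) a i) (u' a i) := by
    rw [← hS _ (Finset.mem_image.2 ⟨(fun b => ⟨j b, hj b⟩, a, ⟨i, hi⟩), Finset.mem_univ _, rfl⟩)]
    exact h4 a i
  obtain ⟨w, hw⟩ := h'.exists_of_piv (J : Set ι) hJ (e (h2 a)) fun i hi => ⟨_, h7 i hi⟩
  have : w - u' a = 0 := hJ _ (U'.sub_mem (h'.mem (e (h2 a)) hw) (e' (h5 a))) fun i hi =>
    sub_eq_zero.2 (φ'.func (hw i) (h7 i hi))
  exact sub_eq_zero.1 this ▸ hw

end Place

end Pool.Agent.Lib.MP_fc2ced_ag.K
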