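import Pool.Agent.Lib.MP_fc2ced_ag.K.PV

/-! Products of roofs. -/

open CategoryTheory Function Polynomial

namespace Pool.Agent.Lib.MP_fc2ced_ag.K

noncomputable section

variable {k : Type} [Field k] {F : Type} [Field F] {χ : Chr k F}

open Pt

variable {P : Pt k} {V V' W W' : PV k} {J J' : Set ℕ} {m : ℕ}

/-- The second factor becomes a parameter. -/
def PC.left (T : PC P) (m : ℕ) (W : PV k) : PC (W.S.prod P) where
  T _ c y := T.T (gl m c (W.c y.1)) y.2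
  conv _ _ _ φ φ' _ _ _ p p' p'' a b c h h' r r' := T.conv φ φ' _ _ _ _ _ _ a.2 b.2 c.2
    (Place.rel_gl m h fun i => W.hc i φ p.1 p'.1 a.1 b.1 r.1)
    (Place.rel_gl m h' fun i => W.hc i φ' p'.1 p''.1 b.1 c.1 r'.1) r.2 r'.2

/-- The first factor becomes a parameter. -/
def PC.right (T : PC P) (m : ℕ) (V : PV k) : PC (V.S.prod P) where
  T _ c y := T.T (gl m (V.c y.1) c) y.2
  conv _ _ _ φ φ' _ _ _ p p' p'' a b c h h' r r' := T.conv φ φ' _ _ _ _ _ _ a.2 b.2 c.2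
    (Place.rel_gl m (fun i => V.hc i φ p.1 p'.1 a.1 b.1 r.1) h)
    (Place.rel_gl m (fun i => V.hc i φ' p'.1 p''.1 b.1 c.1 r'.1) h') r.2 r'.2

variable {e : ∀ ⦃K⦄, V.S.X K → V'.S.X K} {e' : ∀ ⦃K⦄, W.S.X K → W'.S.X K}

theorem TenAux.gl_congr {K : Type} [Field K] {c c' d d' : ℕ → K[X]} (hm : m ∈ J)
    (h : ∀ i ∈ J, c i = c' i) (h' : ∀ i ∈ J', d i = d' i) (i : ℕ) (hi : i ∈ addJ m J J') :
    gl m c d i = gl m c' d' i := by
  rcases hi with ⟨a, b⟩ | ⟨a, b⟩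
  · rw [gl, gl, if_pos a, if_pos a, h i b]
  · rw [gl, gl, if_neg a.not_ge, if_neg a.not_ge, h m hm, h' _ b]

theorem PMap.ten (h : PMap V V' J e) (h' : PMap W W' J' e') (hm : m ∈ J) :
    PMap (V.ten m W) (V'.ten m W') (addJ m J J') fun _ x => (e x.1, e' x.2) :=
  ⟨h.map.prod h'.map, fun _ x a b => TenAux.gl_congr hm (h.c x.1 a.1 b.1) (h'.c x.2 a.2 b.2)⟩

namespace TenAux

variable {T : PC P}

theorem dep_left (hT : T.Dep (addJ m J J')) (hm : m ∈ J) : (T.left m W).Dep J :=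
  fun _ _ _ _ h => hT _ _ _ (gl_congr hm h fun _ _ => rfl)

theorem dep_right (hT : T.Dep (addJ m J J')) (hm : m ∈ J) : (T.right m V).Dep J' :=
  fun _ _ _ _ h => hT _ _ _ (gl_congr hm (fun _ _ => rfl) h)

variable (V W T m)

theorem isMap_l : IsMap ((V.ten m W).over T) (V.over (T.left m W))
    fun _ x => (x.1.1, x.1.2, x.2) :=
  .of_inv (g := fun _ y => ((y.1, y.2.1), y.2.2))
    ⟨fun _ _ a => ⟨⟨a.1.1.1, a.1.1.2, a.1.2⟩, a.2⟩, fun _ _ _ _ _ _ _ r => ⟨r.1.1, r.1.2, r.2⟩⟩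
    ⟨fun _ _ a => ⟨⟨⟨a.1.1, a.1.2.1⟩, a.1.2.2⟩, a.2⟩, fun _ _ _ _ _ _ _ r => ⟨⟨r.1, r.2.1⟩, r.2.2⟩⟩
    (fun _ _ _ => (add_assoc _ _ _).symm) fun _ _ _ => rfl

theorem isMap_r : IsMap ((V.ten m W).over T) (W.over (T.right m V))
    fun _ x => (x.1.2, x.1.1, x.2) :=
  .of_inv (g := fun _ y => ((y.2.1, y.1), y.2.2))
    ⟨fun _ _ a => ⟨⟨a.1.1.2, a.1.1.1, a.1.2⟩, a.2⟩, fun _ _ _ _ _ _ _ r => ⟨r.1.2, r.1.1, r.2⟩⟩
    ⟨fun _ _ a => ⟨⟨⟨a.1.2.1, a.1.1⟩, a.1.2.2⟩, a.2⟩, fun _ _ _ _ _ _ _ r => ⟨⟨r.2.1, r.1⟩, r.2.2⟩⟩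
    (fun _ _ _ => (add_left_comm _ _ _).trans (add_assoc _ _ _).symm) fun _ _ _ => rfl

theorem uiso_l : UIso ((isMap_l V W m T).hom χ) :=
  ((isMap_l V W m T).bij (fun _ _ a => ⟨⟨a.1.1.1, a.1.1.2, a.1.2⟩, a.2⟩)
    (fun _ _ _ _ _ c => congrArg (fun y => ((y.1, y.2.1), y.2.2)) c)
    fun _ y a => ⟨((y.1, y.2.1), y.2.2), ⟨⟨⟨a.1.1, a.1.2.1⟩, a.1.2.2⟩, a.2⟩, rfl⟩).uiso

theorem uiso_r : UIso ((isMap_r V W m T).hom χ) :=
  ((isMap_r V W m T).bij (fun _ _ a => ⟨⟨a.1.1.2, a.1.1.1, a.1.2⟩, a.2⟩)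
    (fun _ _ _ _ _ c => congrArg (fun y => ((y.2.1, y.1), y.2.2)) c)
    fun _ y a => ⟨((y.2.1, y.1), y.2.2), ⟨⟨⟨a.1.2.1, a.1.1⟩, a.1.2.2⟩, a.2⟩, rfl⟩).uiso

variable (χ) {V} in
/-- A map of the first factor. -/
abbrev ol (e : ∀ ⦃K⦄, V.S.X K → V'.S.X K) :=
  ov χ (V.ten m W) (V'.ten m W) T fun _ x => (e x.1, x.2)

variable (χ) {W} in
/-- A map of the second factor. -/
abbrev or' (e' : ∀ ⦃K⦄, W.S.X K → W'.S.X K) :=
  ov χ (V.ten m W) (V.ten m W') T fun _ x => (x.1, e' x.2)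

variable {V W T m} (hT : T.Dep (addJ m J J')) (hm : m ∈ J)
include hT hm

theorem comm_l (h : PMap V V' J e) : (isMap_l V W m T).hom χ ≫ ov χ V V' (T.left m W) e =
    ol χ W m T e ≫ (isMap_l V' W m T).hom χ := by
  have h1 := (h.ten (pmap_id (V := W)) hm).over hT
  rw [ol, ov, ov, (h.over (dep_left hT hm)).hm_eq, h1.hm_eq]
  exact IsMap.comm _ _ _ _ (fun _ x l => ⟨fun a => ⟨⟨⟨⟨a.2.1.1, a.2.1.2.1⟩, a.2.1.2.2⟩, a.2.2⟩, a.2⟩,
    fun a => ⟨⟨⟨l.1.1.1, l.1.1.2, l.1.2⟩, l.2⟩, a.2⟩⟩) fun _ _ _ _ _ => rfl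

theorem comm_r (h : PMap W W' J' e') : (isMap_r V W m T).hom χ ≫ ov χ W W' (T.right m V) e' =
    or' χ V m T e' ≫ (isMap_r V W' m T).hom χ := by
  have h1 := ((pmap_id (V := V)).ten h hm).over hT
  rw [or', ov, ov, (h.over (dep_right hT hm)).hm_eq, h1.hm_eq]
  exact IsMap.comm _ _ _ _ (fun _ x l => ⟨fun a => ⟨⟨⟨⟨a.2.1.2.1, a.2.1.1⟩, a.2.1.2.2⟩, a.2.2⟩, a.2⟩,
    fun a => ⟨⟨⟨l.1.1.2, l.1.1.1, l.1.2⟩, l.2⟩, a.2⟩⟩) fun _ _ _ _ _ => rfl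

theorem split₁ (h : PMap V V' J e) (h' : PMap W W' J' e') : or' χ V m T e' ≫ ol χ W' m T e =
    ov χ (V.ten m W) (V'.ten m W') T fun _ x => (e x.1, e' x.2) :=
  (pmap_id.ten h' hm).ov_comp (h.ten pmap_id hm) hT (h.ten h' hm) (fun _ _ a b => ⟨a.1, b.2⟩)
    fun _ _ _ _ => rfl

theorem split₂ (h : PMap V V' J e) (h' : PMap W W' J' e') : ol χ W m T e ≫ or' χ V' m T e' =
    ov χ (V.ten m W) (V'.ten m W') T fun _ x => (e x.1, e' x.2) :=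
  (h.ten pmap_id hm).ov_comp (pmap_id.ten h' hm) hT (h.ten h' hm) (fun _ _ a b => ⟨b.1, a.2⟩)
    fun _ _ _ _ => rfl

theorem swap (h : PMap V V' J e) (h' : PMap W W' J' e') :
    or' χ V m T e' ≫ ol χ W' m T e = ol χ W m T e ≫ or' χ V' m T e' :=
  (split₁ hT hm h h').trans (split₂ hT hm h h').symm

theorem uu_l (h : PMap V V' J e) (u : UU χ V V' J e) : UIso (ol χ W m T e) :=
  .of_comp_right (uiso_l V' W m T)
    (by rw [← comm_l hT hm h]; exact (uiso_l V W m T).comp (u _ _ (dep_left hT hm)))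

theorem uu_r (h : PMap W W' J' e') (u : UU χ W W' J' e') : UIso (or' χ V m T e') :=
  .of_comp_right (uiso_r V W' m T)
    (by rw [← comm_r hT hm h]; exact (uiso_r V W m T).comp (u _ _ (dep_right hT hm)))

end TenAux

open TenAux

theorem UU.ten (h : PMap V V' J e) (h' : PMap W W' J' e') (hm : m ∈ J) (u : UU χ V V' J e)
    (u' : UU χ W W' J' e') :
    UU χ (V.ten m W) (V'.ten m W') (addJ m J J') fun _ x => (e x.1, e' x.2) :=
  fun _ _ hT => by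
    rw [← split₁ hT hm h h']
    exact (uu_r hT hm h' u').comp (uu_l hT hm h u)

variable {A Z B A' Z' B' : PV k} {j : ∀ ⦃K⦄, Z.S.X K → A.S.X K} {q : ∀ ⦃K⦄, Z.S.X K → B.S.X K}
  {j' : ∀ ⦃K⦄, Z'.S.X K → A'.S.X K} {q' : ∀ ⦃K⦄, Z'.S.X K → B'.S.X K}
  (R : IsRoof χ J A Z B j q) (R' : IsRoof χ J' A' Z' B' j' q') (hm : m ∈ J)
include R R' hm

theorem IsRoof.ten : IsRoof χ (addJ m J J') (A.ten m A') (Z.ten m Z') (B.ten m B')
    (fun _ x => (j x.1, j' x.2)) fun _ x => (q x.1, q' x.2) :=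
  ⟨R.pj.ten R'.pj hm, R.pq.ten R'.pq hm, fun _ _ a => ⟨R.live _ a.1, R'.live _ a.2⟩,
    UU.ten R.pj R'.pj hm R.uiso R'.uiso⟩

theorem UKills.ten_left {a : ∀ ⦃K⦄, A.S.X K → A.S.X K} {c : F} (ha : PEnd A J a)
    (h : UKills χ J A Z B j q a c) : UKills χ (addJ m J J') (A.ten m A') (Z.ten m Z') (B.ten m B')
      (fun _ x => (j x.1, j' x.2)) (fun _ x => (q x.1, q' x.2)) (fun _ x => (a x.1, x.2)) c := by
  intro P T hT
  rw [← split₁ hT hm R.pj R'.pj, ← split₂ hT hm R.pq R'.pq]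
  have u := uu_l (W := A') hT hm R.pj R.uiso
  refine Kills.comp₁ u (uu_r hT hm R'.pj R'.uiso) (uu_r hT hm R'.pj R'.uiso)
    (swap hT hm R.pq R'.pj) (.of_postcomp (uiso_l B A' m T) ((Kills.of_map u
      (R.uiso _ _ (dep_left hT hm)) (comm_l hT hm R.pj) (comm_l hT hm R.pq)).1 ?_))
  rw [Preadditive.sub_comp, ← comm_l hT hm ha.toPMap, Linear.smul_comp, Category.id_comp]
  simpa using (h _ _ (dep_left hT hm)).precomp ((isMap_l A A' m T).hom χ)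

theorem UKills.ten_right {a : ∀ ⦃K⦄, A'.S.X K → A'.S.X K} {c : F} (ha : PEnd A' J' a)
    (h : UKills χ J' A' Z' B' j' q' a c) :
    UKills χ (addJ m J J') (A.ten m A') (Z.ten m Z') (B.ten m B')
      (fun _ x => (j x.1, j' x.2)) (fun _ x => (q x.1, q' x.2)) (fun _ x => (x.1, a x.2)) c := by
  intro P T hT
  rw [← split₁ hT hm R.pj R'.pj, ← split₂ hT hm R.pq R'.pq]
  have u := uu_r (V := B) hT hm R'.pj R'.uiso
  refine Kills.comp₂ (uu_l hT hm R.pj R.uiso) (uu_r hT hm R'.pj R'.uiso) u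
    (swap hT hm R.pq R'.pj) (z := or' χ Z m T a - c • 𝟙 _) (b := or' χ B m T a - c • 𝟙 _)
    (by simp [swap hT hm R.pj ha.toPMap]) (by simp [swap hT hm R.pq ha.toPMap])
    (.of_postcomp (uiso_r B B' m T) ((Kills.of_map u
      (R'.uiso _ _ (dep_right hT hm)) (comm_r hT hm R'.pj) (comm_r hT hm R'.pq)).1 ?_))
  rw [Preadditive.sub_comp, ← comm_r hT hm ha.toPMap, Linear.smul_comp, Category.id_comp]
  simpa using (h _ _ (dep_right hT hm)).precomp ((isMap_r B A' m T).hom χ)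

theorem UQuo.ten {G G' : Type} {s : Finset G} {s' : Finset G'} {r : G → F} {r' : G' → F}
    {a : G → ∀ ⦃K⦄, A.S.X K → A.S.X K} {a' : G' → ∀ ⦃K⦄, A'.S.X K → A'.S.X K}
    (ha : ∀ g ∈ s, PEnd A J (a g)) (ha' : ∀ g ∈ s', PEnd A' J' (a' g))
    (h : UQuo χ J A Z B j q s r a) (h' : UQuo χ J' A' Z' B' j' q' s' r' a') :
    UQuo χ (addJ m J J') (A.ten m A') (Z.ten m Z') (B.ten m B')
      (fun _ x => (j x.1, j' x.2)) (fun _ x => (q x.1, q' x.2)) (s ×ˢ s')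
      (fun g => r g.1 * r' g.2) fun g _ x => (a g.1 x.1, a' g.2 x.2) := by
  intro P T hT
  rw [← split₁ hT hm R.pj R'.pj, ← split₂ hT hm R.pq R'.pq]
  have u := uu_l (W := A') hT hm R.pj R.uiso
  have u' := uu_r (V := B) hT hm R'.pj R'.uiso
  have sw : ∀ {V V' : PV k} {e : ∀ ⦃K⦄, V.S.X K → V'.S.X K}, PMap V V' J e →
      (∑ g ∈ s', r' g • or' χ V m T (a' g)) ≫ ol χ A' m T e =
        ol χ A' m T e ≫ ∑ g ∈ s', r' g • or' χ V' m T (a' g) := fun he => by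
    rw [Preadditive.sum_comp, Preadditive.comp_sum]
    exact Finset.sum_congr rfl fun g hg => by
      rw [Linear.smul_comp, Linear.comp_smul, swap hT hm he (ha' g hg).toPMap]
  have q1 : Quo (ol χ A' m T j) (ol χ A' m T q) (∑ g ∈ s, r g • ol χ A' m T (a g)) :=
    (Quo.uiso_iff u (R.uiso _ _ (dep_left hT hm)) (comm_l hT hm R.pj) (comm_l hT hm R.pq)
      (uiso_l A A' m T) (uiso_l B A' m T) (by
        rw [Preadditive.sum_comp, Preadditive.comp_sum]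
        exact Finset.sum_congr rfl fun g hg => by
          rw [Linear.smul_comp, Linear.comp_smul, comm_l hT hm (ha g hg).toPMap])).2
      (h _ _ (dep_left hT hm))
  have q2 : Quo (or' χ B m T j') (or' χ B m T q') (∑ g ∈ s', r' g • or' χ B m T (a' g)) :=
    (Quo.uiso_iff u' (R'.uiso _ _ (dep_right hT hm)) (comm_r hT hm R'.pj) (comm_r hT hm R'.pq)
      (uiso_r B A' m T) (uiso_r B B' m T) (by
        rw [Preadditive.sum_comp, Preadditive.comp_sum]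
        exact Finset.sum_congr rfl fun g hg => by
          rw [Linear.smul_comp, Linear.comp_smul, comm_r hT hm (ha' g hg).toPMap])).2
      (h' _ _ (dep_right hT hm))
  have q3 := Quo.comp u (uu_r hT hm R'.pj R'.uiso) u' (swap hT hm R.pq R'.pj) q1 q2 (sw R.pj)
    (sw R.pq)
  refine (congrArg (Quo _ _) ?_).mp q3
  rw [Finset.sum_product, Preadditive.comp_sum]
  refine Finset.sum_congr rfl fun g hg => ?_
  rw [Linear.comp_smul, Preadditive.sum_comp, Finset.smul_sum]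
  exact Finset.sum_congr rfl fun g' hg' => by
    rw [Linear.smul_comp, split₁ hT hm (ha g hg).toPMap (ha' g' hg').toPMap, mul_smul]

end

end Pool.Agent.Lib.MP_fc2ced_ag.K
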