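import Pool.Agent.Lib.MP_fc2ced_ag.K.Bridge

/-! Descent of Schur-finiteness to rational coefficients. -/

open CategoryTheory CategoryTheory.Limits Function

namespace Pool.Agent.Lib.MP_fc2ced_ag.K

noncomputable section

variable {k : Type} [Field k] {F F' : Type} [Field F] [CharZero F] [Field F'] [CharZero F']

open Ob Pt

/-- A nonzero space of functions on a finite group that is stable under translations contains a
function whose image under a rational linear form is a block idempotent. -/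
theorem exists_block_of_sub {G : Type} [Group G] [Finite G]
    (I : Submodule F (G → F)) (hl : ∀ r ∈ I, ∀ g, (fun s => r (g * s)) ∈ I)
    (hr : ∀ r ∈ I, ∀ g, (fun s => r (s * g)) ∈ I) {r : G → F} (h : r ∈ I) (h0 : r ≠ 0) :
    ∃ (l : F →ₗ[ℚ] ℚ) (e : MonoidAlgebra ℚ G), IsBlock e ∧ ∃ r ∈ I, ∀ s, l (r s) = e.coeff s := by
  obtain ⟨s₀, hs₀⟩ := Function.ne_iff.1 h0
  obtain ⟨l, hl₀⟩ := Module.Projective.exists_dual_ne_zero ℚ hs₀
  let S : AddSubmonoid (MonoidAlgebra ℚ G) :=
    { carrier := {a | ∃ r ∈ I, ∀ s, l (r s) = a.coeff s}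
      zero_mem' := ⟨0, zero_mem _, fun s => by simp⟩
      add_mem' := fun ⟨a, ha, ha'⟩ ⟨b, hb, hb'⟩ =>
        ⟨a + b, add_mem ha hb, fun s => by simp [ha', hb']⟩ }
  have hq (q : ℚ) (x : F) : l ((q : F) * x) = q * l x := by
    rw [← Rat.smul_def, map_smul, smul_eq_mul]
  have h1 (c a : MonoidAlgebra ℚ G) (ha : a ∈ S) : c * a ∈ S := by
    induction c using MonoidAlgebra.induction_linear with
    | zero => rw [zero_mul]; exact zero_mem _
    | add _ _ h1 h2 => rw [add_mul]; exact add_mem h1 h2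
    | single g q =>
      obtain ⟨r, hr, hr'⟩ := ha
      exact ⟨(q : F) • fun s => r (g⁻¹ * s), I.smul_mem _ (hl r hr _), fun s => by simp [hq, hr']⟩
  have h2 (a : MonoidAlgebra ℚ G) (ha : a ∈ S) (c : MonoidAlgebra ℚ G) : a * c ∈ S := by
    induction c using MonoidAlgebra.induction_linear with
    | zero => rw [mul_zero]; exact zero_mem _
    | add _ _ h1 h2 => rw [mul_add]; exact add_mem h1 h2
    | single g q =>
      obtain ⟨r, hr₁, hr'⟩ := ha
      exact ⟨(q : F) • fun s => r (s * g⁻¹), I.smul_mem _ (hr r hr₁ _), fun s => by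
        simp [hq, hr', mul_comm q]⟩
  let J : Ideal (MonoidAlgebra ℚ G) := ⟨S, fun c a ha => h1 c a ha⟩
  obtain ⟨e, he, h3, h4, h5, h6⟩ := Naive.exists_block_group J h2 fun hJ => by
    have : MonoidAlgebra.ofCoeff (Finsupp.equivFunOnFinite.symm fun s => l (r s)) ∈ J :=
      ⟨r, h, fun _ => rfl⟩
    rw [hJ, Ideal.mem_bot] at this
    exact hl₀ congr(($this).coeff s₀)
  exact ⟨l, e, ⟨h3, h4, h5, h6⟩, he⟩

section
variable {M : Ob k F} {α : Type} [Fintype α] [DecidableEq α]

omit [CharZero F] in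
theorem act_mul_left (r : Equiv.Perm α → F) (g : Equiv.Perm α) :
    act M (fun s => r (g * s)) = act M r ≫ reidx M g⁻¹ := by
  rw [act, act, Preadditive.sum_comp]
  exact Fintype.sum_equiv (Equiv.mulLeft g) _ _ fun s => by
    rw [Linear.smul_comp, ← reidx_mul, Equiv.coe_mulLeft, inv_mul_cancel_left]

omit [CharZero F] in
theorem act_mul_right (r : Equiv.Perm α → F) (g : Equiv.Perm α) :
    act M (fun s => r (s * g)) = reidx M g⁻¹ ≫ act M r := by
  rw [act, act, Preadditive.comp_sum]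
  exact Fintype.sum_equiv (Equiv.mulRight g) _ _ fun s => by
    rw [Linear.comp_smul, ← reidx_mul, Equiv.coe_mulRight, mul_inv_cancel_right]

end

omit [CharZero F] in
theorem rat_cf {χ : Chr k F} (hχ : χ.ψ = 1) {K K' : Fld k} {φ : Place K K'} {b : K} {b' : K'}
    (h : φ b b') : χ.cf φ b = 1 := by
  obtain ⟨y', h1, h2⟩ := Chr.exists_rel (χ.rt_spec b) h
  obtain ⟨c, hc⟩ := χ.exists_cast (Chr.sub_fix (h2.trans (χ.rt_spec b').symm))
  rw [Chr.cf_eq h h1, hc, Chr.ev_cast, hχ, AddChar.one_apply]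

theorem rat_cl (S : Pt k) (l : F →ₗ[ℚ] F') {K : Fld k} (c : F) (x : S.X K) :
    Finsupp.mapRange l (map_zero l) (c • S.cl F x) = l c • S.cl F' x := by
  by_cases h : S.L x
  · rw [S.cl_live ⟨x, h⟩, S.cl_live ⟨x, h⟩, Finsupp.smul_single_one, Finsupp.smul_single_one,
      Finsupp.mapRange_single]
  · rw [cl_dead h, cl_dead h, smul_zero, smul_zero, Finsupp.mapRange_zero]

theorem rat_map {χ : Chr k F} (hχ : χ.ψ = 1) {χ' : Chr k F'} (hχ' : χ'.ψ = 1) (S : Pt k)
    (l : F →ₗ[ℚ] F') {K K' : Fld k} (φ : Place K K') (v : S.Live K →₀ F) :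
    (S.E χ').map φ (Finsupp.mapRange l (map_zero l) v) =
      Finsupp.mapRange l (map_zero l) ((S.E χ).map φ v) := by
  induction v using Finsupp.induction_linear with
  | zero => simp
  | add a b h1 h2 =>
    rw [Finsupp.mapRange_add (map_add l), map_add, map_add, Finsupp.mapRange_add (map_add l), h1, h2]
  | single x c =>
    rw [← Finsupp.smul_single_one, ← cl_live, rat_cl, map_smul, map_smul]
    rcases R_or_Dd φ x.1 with ⟨y, hy, h⟩ | h
    · rw [map_cl (.of_R x.2 hy h), map_cl (.of_R x.2 hy h), rat_cf hχ (S.reg φ _ y x.2 hy h),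
        rat_cf hχ' (S.reg φ _ y x.2 hy h), one_smul, one_smul, rat_cl]
    · rw [map_cl_Dd h, map_cl_Dd h, smul_zero, smul_zero, Finsupp.mapRange_zero]

omit [CharZero F] in
theorem rat_perm (χ : Chr k F) (S : Pt k) {α : Type} [Fintype α] (s : Equiv.Perm α) {K : Fld k}
    (x : (S.pi α).X K) : ((S.isMap_perm s).hom χ).1 K ((S.pi α).cl F x) =
      (S.pi α).cl F fun a => x (s.symm a) := by
  by_cases h : (S.pi α).L x
  · exact IsMap.hom_cl _ h
  · rw [cl_dead h, map_zero, cl_dead fun e => h fun a => by simpa using e (s a)]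

/-- The change of coefficients, for trivial characters. -/
theorem exists_coef (χ : Chr k F) (hχ : χ.ψ = 1) (χ' : Chr k F') (hχ' : χ'.ψ = 1) (S : Pt k)
    (l : F →ₗ[ℚ] F') : ∃ c : (toPsh k F).obj (S.E χ) ⟶ (toPsh k F').obj (S.E χ'),
      ∀ (A : FT k) (s : secs (S.E χ) A) (K : Fld k) (x : A →ₐ[k] K),
        (c.app A s : secs (S.E χ') A).1 K x = Finsupp.mapRange l (map_zero l) (s.1 K x) := by
  let a (A : FT k) : secs (S.E χ) A →+ secs (S.E χ') A :=
    { toFun s := ⟨fun K x => Finsupp.mapRange l (map_zero l) (s.1 K x), fun K K' φ x x' e => by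
        rw [rat_map hχ hχ', s.2 K K' φ x x' e]⟩
      map_zero' := Subtype.ext (funext fun _ => funext fun _ =>
        Finsupp.mapRange_zero (hf := map_zero l))
      map_add' _ _ := Subtype.ext (funext fun _ => funext fun _ =>
        Finsupp.mapRange_add (hf := map_zero l) (map_add l) _ _) }
  exact ⟨⟨fun A => ModuleCat.ofHom (X := ((toPsh k F).obj (S.E χ)).obj A)
    (Y := ((toPsh k F').obj (S.E χ')).obj A) (AddMonoidHom.toRatLinearMap (a A)),
    fun _ _ _ => rfl⟩, fun _ _ _ _ => rfl⟩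

variable {σ ι : Type} [Fintype σ] (f : ι → MvPolynomial (Option σ) k)

theorem schurFinite_of_sf (hf : ∀ j, ∃ d, (f j).IsHomogeneous d) (χ : Chr k F) (hχ : χ.ψ = 1)
    (h : SF ((aff f).E χ)) : SchurFinite f := by
  classical
  obtain ⟨d, r, hd, hr, h₀⟩ := h.exists_pos (con _)
  let I : Submodule F (Equiv.Perm (Fin d) → F) :=
    (nullSub _ _).comap (Fintype.linearCombination F (reidx ((aff f).E χ)))
  have hI (r : Equiv.Perm (Fin d) → F) : r ∈ I ↔ Null (act ((aff f).E χ) r) := Iff.rfl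
  obtain ⟨l, e, he, r₁, hr₁, hl⟩ := exists_block_of_sub I (fun r hr g => by
      rw [hI, act_mul_left]
      exact ((hI r).1 hr).comp _) (fun r hr g => by
      rw [hI, act_mul_right]
      exact ((hI r).1 hr).precomp _) ((hI r).2 h₀) hr
  have h₃ : Null (∑ s, r₁ s • ((aff f).isMap_perm s).hom χ) := by
    refine .of_comp_uiso (bij_pow (χ := χ) (S := aff f) (Fin d)).uiso ?_
    have := ((hI r₁).1 hr₁).precomp (isLift_pow χ (aff f) (Fin d)).hom
    rw [act, Preadditive.comp_sum] at this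
    rw [Preadditive.sum_comp]
    simpa only [Linear.comp_smul, Linear.smul_comp, pow_perm] using this
  obtain ⟨Θ, hΘ⟩ := exists_theory k F
  have h₄ : (toVerdier (Gen k)).map _ = 0 := hΘ _ (h₃ Θ)
  let χ₀ : Chr k ℚ := { p := χ.p, prime := χ.prime, char := χ.char, ψ := 1 }
  obtain ⟨u, hu⟩ := exists_cmp f hf χ hχ d
  obtain ⟨u₀, hu₀⟩ := exists_cmp f hf χ₀ rfl d
  obtain ⟨c, hc⟩ := exists_coef χ hχ χ₀ rfl ((aff f).pi (Fin d)) l
  have key : (∑ s, e.coeff s • perm f s) ≫ u₀ =
      u ≫ (toPsh k F).map (∑ s, r₁ s • ((aff f).isMap_perm s).hom χ) ≫ c := by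
    rw [Preadditive.sum_comp]
    refine NatTrans.ext (funext fun A => ModuleCat.hom_ext (Submodule.linearMap_qext _
      (Finsupp.lhom_ext' fun X => LinearMap.ext_ring (Subtype.ext (funext fun K =>
        funext fun x => ?_)))))
    obtain ⟨X⟩ := X
    choose z hz using fun i => Quot.exists_rep (X i)
    obtain rfl : (fun i => Quot.mk _ (z i)) = X := funext hz
    let ev : ((toPsh k ℚ).obj (((aff f).pi (Fin d)).E χ₀)).obj A →ₗ[ℚ]
        (((aff f).pi (Fin d)).Live K →₀ ℚ) := AddMonoidHom.toRatLinearMap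
      { toFun s := (s : secs (((aff f).pi (Fin d)).E χ₀) A).1 K x
        map_zero' := rfl
        map_add' _ _ := rfl }
    have e1 (s : Equiv.Perm (Fin d)) : ev (((perm f s ≫ u₀).app A).hom
        (Submodule.Quotient.mk (Finsupp.single ⟨fun i => Quot.mk _ (z i)⟩ 1))) = _ :=
      (congrArg (fun v => ev (u₀.app A (Submodule.Quotient.mk v)))
        Finsupp.mapDomain_single).trans (hu₀ A (fun i => z (s.symm i)) K x)
    refine Eq.trans (b := ∑ s, e.coeff s • ev (((perm f s ≫ u₀).app A).hom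
      (Submodule.Quotient.mk (Finsupp.single ⟨fun i => Quot.mk _ (z i)⟩ 1)))) ?_
      (Eq.trans ?_ (hc A _ K x).symm)
    · change ev (((∑ s, (e.coeff s • perm f s) ≫ u₀).app A).hom
        (Submodule.Quotient.mk (Finsupp.single ⟨fun i => Quot.mk _ (z i)⟩ 1))) = _
      rw [NatTrans.app_sum, ModuleCat.hom_sum, LinearMap.sum_apply, map_sum]
      refine Finset.sum_congr rfl fun s _ => ?_
      rw [Linear.smul_comp, NatTrans.app_smul, ModuleCat.hom_smul, LinearMap.smul_apply, map_smul]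
    · change _ = Finsupp.mapRange.addMonoidHom l.toAddMonoidHom
        ((∑ s, r₁ s • ((aff f).isMap_perm s).hom χ).1 K ((u.app A (Submodule.Quotient.mk
          (Finsupp.single ⟨fun i => Quot.mk _ (z i)⟩ 1)) : secs (((aff f).pi (Fin d)).E χ) A).1 K x))
      rw [hu, sum_app, LinearMap.sum_apply, map_sum]
      refine Finset.sum_congr rfl fun s _ => ?_
      rw [e1, smul_app, LinearMap.smul_apply, ← hl]
      by_cases h1 : ∀ i, x ((z i).1 none) ≠ 0
      · rw [if_pos h1, if_pos fun i => h1 _, rat_perm]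
        exact (rat_cl _ l _ _).symm
      · rw [if_neg h1, if_neg fun h2 => h1 fun i => by simpa using h2 (s i), map_zero, smul_zero,
          smul_zero, map_zero]
  refine ⟨d, e, hd, he, ?_⟩
  have := Gen.isIso (Gen.loc u₀ (hiso_cmp f hf χ₀ rfl d u₀ hu₀))
  rw [Vanishes, ← cancel_mono ((toVerdier (Gen k)).map u₀), ← Functor.map_comp, key,
    Functor.map_comp, Functor.map_comp, h₄, zero_comp, comp_zero, zero_comp]

end

end Pool.Agent.Lib.MP_fc2ced_ag.K
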