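import Pool.Agent.Lib.MP_fc2ced_ag.K.CubeG
import Pool.Agent.Lib.MP_fc2ced_ag.K.Hb
import Pool.Agent.Lib.MP_fc2ced_ag.K.Rat

/-! The motives with compact support of the Kloosterman varieties are Schur-finite. -/

open CategoryTheory Function

namespace Pool.Agent.Lib.MP_fc2ced_ag.K

noncomputable section

variable {k : Type} [Field k] {F : Type} [Field F] {χ : Chr k F} {n : ℕ} [NeZero n] {w j l : ℕ}
  {I : Finset ℕ} {P : Pt k} {T : PC P}

open Pt Place

namespace MainAux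

open Polynomial in
omit [NeZero n] in
theorem chiA_iff {K : Type} [Field K] {x : Fin w → Fin n → K} {a : K} :
    chiA x w = (Polynomial.X - C a) ^ w ↔ ∀ b, ∏ i, x b i = a := by
  have e : chiA x w = ∏ b, (Polynomial.X - C (∏ i, x b i)) := by
    rw [chiA, Finset.filter_true_of_mem fun b _ => b.2]
  rw [e]
  refine ⟨fun h b => ?_, fun h => by simp [h]⟩
  have h1 := congrArg (Polynomial.eval (∏ i, x b i)) h
  rw [eval_prod, Finset.prod_eq_zero (Finset.mem_univ b)
    (by rw [eval_sub, eval_X, eval_C, sub_self]), eval_pow, eval_sub, eval_X, eval_C] at h1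
  exact sub_eq_zero.1 (pow_eq_zero_iff (Fin.pos b).ne' |>.1 h1.symm)

omit [NeZero n] in
theorem dep (a : k) (I : Finset ℕ) : (oneEig n a).Dep (JI (n + 1) I) :=
  fun _ _ _ _ h t => (h (n + 1) (.inr rfl)).symm.trans t

omit [NeZero n] in
theorem isMap_tor (a : k) : IsMap ((Av k n (n + 1)).over (oneEig n a))
    ((tor n a).pi (Fin (n + 1))) fun _ x => x.1 :=
  .of_inv (g := fun _ x => (x, ()))
    ⟨fun _ _ h b => ⟨h.1.1 b, chiA_iff.1 h.2 b⟩, fun _ _ _ _ _ _ _ h => h.1⟩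
    ⟨fun _ _ h => ⟨⟨fun b => (h b).1, trivial⟩, chiA_iff.2 fun b => (h b).2⟩,
      fun _ _ _ _ _ _ _ h => ⟨h, trivial⟩⟩ (fun _ _ _ => (add_zero _).symm) fun _ _ _ => rfl

end MainAux

open MainAux

theorem sf_tor [CharZero F] (hχ : χ.ψ 1 ≠ 1) (a : k) : SF ((tor n a).E χ) := by
  classical
  have y (σ : Equiv.Perm (Fin (n + 1))) : σ ∈ Young (n + 1) ∅ := by simp [young_empty]
  let ρ : MonoidAlgebra F (Equiv.Perm (Fin (n + 1))) →ₐ[F]
      End (((Av k n (n + 1)).over (oneEig n a)).E χ) := MonoidAlgebra.lift F _ _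
    ⟨⟨fun σ => ov χ _ _ (oneEig n a) (pm σ), ov_pm_one⟩, fun σ τ => ov_pm_mul (dep a ∅) (y σ) (y τ)⟩
  obtain ⟨r, hr, h⟩ := null_of_cube (B := cuB χ n a) (dd := cuD χ n a) ρ (eps F n (n + 1))
    eps_mul_self ((isRoof hχ le_rfl subset_rfl).uiso _ _ (dep a _))
    (fun I => ov χ (Zv k n (n + 1) (Finset.Ioo 0 (n + 1))) (Zv k n (n + 1) I) (oneEig n a)
      fun _ x => forget (n + 1) I x)
    (fun I J hI hJ => ((pmap_forget hI).mono (JI_mono hJ)).ov_comp (pmap_forget hJ) (dep a J)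
      (pmap_forget (hJ.trans hI)) (fun _ _ h _ => h.forget_flag hI) fun _ _ _ _ => forget_forget hJ)
    (fun I hI => by
      convert hb hχ le_rfl hI _ _ (dep a I) using 1
      simp only [idem, map_smul, map_sum, Finset.smul_sum, yS, yR, mul_smul, ρ,
        MonoidAlgebra.lift_single]
      rfl) (cube_exact a).1 (cube_exact a).2
  have hb : Bij ((isMap_tor a).hom χ ≫ (isLift_pow χ (tor n a) (Fin (n + 1))).hom) :=
    ((isMap_tor a).bij (fun _ _ h b => ⟨h.1.1 b, chiA_iff.1 h.2 b⟩)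
      (fun _ _ _ _ _ h => Prod.ext h rfl) fun _ x h =>
        ⟨(x, ()), ⟨⟨fun b => (h b).1, trivial⟩, chiA_iff.2 fun b => (h b).2⟩, rfl⟩).comp (bij_pow _)
  refine ⟨n + 1, r.coeff, fun h0 => hr (MonoidAlgebra.coeff_injective (DFunLike.coe_injective h0)),
    .of_uiso_comp hb.uiso ?_⟩
  convert h.comp ((isMap_tor a).hom χ ≫ (isLift_pow χ (tor n a) (Fin (n + 1))).hom) using 1
  have e : (ρ r : _ ⟶ _) = ∑ σ, r.coeff σ • ov χ _ _ (oneEig n a) (pm σ) := by
    rw [MonoidAlgebra.lift_apply]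
    exact Finsupp.sum_fintype _ _ fun _ => zero_smul _ _
  rw [e, act, Preadditive.comp_sum, Preadditive.sum_comp]
  refine Finset.sum_congr rfl fun σ _ => ?_
  have h1 := ((pend_pm (k := k) (n := n) (y σ)).toPMap.over (dep a ∅))
  have h2 : ov χ _ _ (oneEig n a) (pm σ) ≫ (isMap_tor a).hom χ =
      (isMap_tor a).hom χ ≫ ((tor n a).isMap_perm σ).hom χ := by
    rw [ov, h1.hm_eq]
    refine h1.comm _ _ _ (fun _ x hx => ?_) fun _ _ _ _ _ => rfl
    have h3 := fun b => chiA_iff.1 hx.2 b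
    exact iff_of_true ⟨⟨⟨fun b => hx.1.1 _, trivial⟩, chiA_iff.2 fun b => h3 _⟩,
      fun b => ⟨hx.1.1 _, h3 _⟩⟩ ⟨fun b => ⟨hx.1.1 _, h3 _⟩, fun b => ⟨hx.1.1 _, h3 _⟩⟩
  rw [Linear.comp_smul, Category.assoc, ← pow_perm, ← Category.assoc, ← h2, Category.assoc]
  exact (Linear.smul_comp _ _ _ _ _ _).symm

omit [NeZero n] in
theorem main (p : ℕ) [Fact p.Prime] [CharP k p] (hn : 0 < n) (a : k) (ha : a ≠ 0) :
    SchurFinite (σ := Option (Fin n))
      ![MvPolynomial.X (some none) ^ p -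
          MvPolynomial.X (some none) * MvPolynomial.X none ^ (p - 1) -
          (∑ i, MvPolynomial.X (some (some i))) * MvPolynomial.X none ^ (p - 1),
        ∏ i, MvPolynomial.X (some (some i)) - MvPolynomial.C a * MvPolynomial.X none ^ n] := by
  have : NeZero n := ⟨hn.ne'⟩
  have hp : 0 < p := (Fact.out : p.Prime).pos
  have : NeZero p := ⟨hp.ne'⟩
  let χ : Chr k ℂ := ⟨p, ZMod.stdAddChar⟩
  let χ₀ : Chr k ℂ := ⟨p, 1⟩
  have hχ : χ.ψ 1 ≠ 1 := fun h =>
    one_ne_zero (((ZMod.isPrimitive_stdAddChar p).zmod_char_eq_one_iff p 1).1 h)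
  have hs : SF (((tor n a).cover p).E χ₀) := sf_cover χ hχ χ₀ rfl _ fun χ' => by
    by_cases h : χ'.ψ 1 = 1
    · refine sf_tor_triv χ hχ χ' (AddChar.ext _ _ fun c => ?_) hn ha
      obtain ⟨m, rfl⟩ := ZMod.natCast_zmod_surjective c
      rw [← nsmul_one, AddChar.map_nsmul_eq_pow, h, one_pow, AddChar.one_apply]
    · exact sf_tor h a
  refine schurFinite_of_sf _ (fun j => ?_) χ₀ rfl ?_
  · fin_cases j
    · obtain ⟨m, rfl⟩ := Nat.exists_eq_add_of_le' hp
      refine ⟨m + 1, (((MvPolynomial.isHomogeneous_X_pow _ _).sub ?_).sub ?_)⟩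
      · simpa [add_comm] using (MvPolynomial.isHomogeneous_X k (some none)).mul
          (MvPolynomial.isHomogeneous_X_pow none m)
      · simpa [add_comm] using (MvPolynomial.IsHomogeneous.sum Finset.univ _ 1 fun i _ =>
          MvPolynomial.isHomogeneous_X k (some (some i))).mul
            (MvPolynomial.isHomogeneous_X_pow none m)
    · refine ⟨n, MvPolynomial.IsHomogeneous.sub ?_ ?_⟩
      · simpa using MvPolynomial.IsHomogeneous.prod Finset.univ _ (fun _ : Fin n => 1) fun i _ =>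
          MvPolynomial.isHomogeneous_X k (some (some i))
      · simpa using (MvPolynomial.isHomogeneous_C _ a).mul (MvPolynomial.isHomogeneous_X_pow none n)
  · have hl {K : Fld k} (x : Option (Fin n) → K) : (∀ j, MvPolynomial.aeval
        (fun o => Option.elim o 1 x) (![MvPolynomial.X (some none) ^ p -
          MvPolynomial.X (some none) * MvPolynomial.X none ^ (p - 1) -
          (∑ i, MvPolynomial.X (some (some i))) * MvPolynomial.X none ^ (p - 1),
        ∏ i, MvPolynomial.X (some (some i)) - MvPolynomial.C a * MvPolynomial.X none ^ n] j) = 0) ↔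
        x none ^ p - x none = ∑ i, x (some i) ∧ ∏ i, x (some i) = algebraMap k K a := by
      simp [Fin.forall_fin_two, sub_eq_zero]
    have h0 {K : Fld k} {x : Fin n → K} (h : ∏ i, x i = algebraMap k K a) (i : Fin n) : x i ≠ 0 :=
      Finset.prod_ne_zero_iff.1 (h.trans_ne (by simpa using ha)) i (Finset.mem_univ i)
    refine .of_eqv (Eqv.symm ⟨(IsMap.of_inv (S := (tor n a).cover p) (S' := aff _)
      (e := fun _ x o => Option.elim o x.2 x.1) (g := fun _ x => (fun i => x (some i), x none))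
      ⟨fun _ x h => ⟨fun _ => trivial, (hl _).2 ⟨h.2, h.1.1.2⟩⟩, fun _ _ _ _ _ _ _ h o => ?_⟩
      ⟨fun _ x h => ⟨⟨⟨fun i => ⟨trivial, h0 ((hl x).1 h.2).2 i⟩, ((hl x).1 h.2).2⟩, trivial⟩,
        ((hl x).1 h.2).1⟩, fun _ _ _ _ _ _ _ h => ⟨fun i => h _, h _⟩⟩
      (fun _ _ _ => by simp) fun _ _ _ => rfl).hom χ₀, IsMap.bij _
      (fun _ x h => ⟨fun _ => trivial, (hl _).2 ⟨h.2, h.1.1.2⟩⟩)
      (fun _ x x' _ _ h => Prod.ext (funext fun i => congrFun h (some i)) (congrFun h none))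
      fun _ x h => ⟨(fun i => x (some i), x none), ⟨⟨⟨fun i => ⟨trivial, h0 ((hl x).1 h.2).2 i⟩,
        ((hl x).1 h.2).2⟩, trivial⟩, ((hl x).1 h.2).1⟩, funext fun o => by cases o <;> rfl⟩⟩) hs
    cases o
    exacts [h.2, h.1 _]

end

end Pool.Agent.Lib.MP_fc2ced_ag.K
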