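import Pool.Agent.Lib.MP_fc2ced_ag.K.OmegaAux

/-! The involution on the union of two planes. -/

open CategoryTheory Function Polynomial

namespace Pool.Agent.Lib.MP_fc2ced_ag.K

noncomputable section

variable {k : Type} [Field k] {F : Type} [Field F] {χ : Chr k F}

namespace Pt

variable {S : Pt k}

variable (S) in
/-- Coordinates `a, b, u, v` with `a b = 0` and `u v` nonzero and fixed, that enter the function
through `a + b + κ (u b + v a)`. -/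
structure Omega (a b u v κ : ∀ ⦃K⦄, S.X K → K) (mv : ∀ ⦃K⦄, S.X K → K → K → K → K → S.X K) :
    Prop where
  ra : S.RegF a
  rb : S.RegF b
  ru : S.RegF u
  rv : S.RegF v
  rκ : S.RegF κ
  ne : ∀ ⦃K⦄ (x : S.X K), S.L x → κ x ≠ 0 ∧ u x ≠ 0 ∧ v x ≠ 0 ∧ a x * b x = 0
  self : ∀ ⦃K⦄ (x : S.X K), S.L x → mv x (a x) (b x) (u x) (v x) = x
  spec : ∀ ⦃K : Fld k⦄ (x : S.X K) (a' b' u' v' : K), S.L x → a' * b' = 0 → u' * v' = u x * v x →
    S.L (mv x a' b' u' v') ∧ a (mv x a' b' u' v') = a' ∧ b (mv x a' b' u' v') = b' ∧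
    u (mv x a' b' u' v') = u' ∧ v (mv x a' b' u' v') = v' ∧ κ (mv x a' b' u' v') = κ x ∧
    S.f (mv x a' b' u' v') = S.f x + (a' + b' + κ x * (u' * b' + v' * a')) -
      (a x + b x + κ x * (u x * b x + v x * a x)) ∧
    ∀ a'' b'' u'' v'', mv (mv x a' b' u' v') a'' b'' u'' v'' = mv x a'' b'' u'' v''
  reg : ∀ ⦃K K'⦄ (φ : Place K K') (x : S.X K) (y : S.X K') (a₁ b₁ u₁ v₁ : K) (a₂ b₂ u₂ v₂ : K'),
    S.L x → S.L y → S.R φ x y → φ a₁ a₂ → φ b₁ b₂ → φ u₁ u₂ → φ v₁ v₂ → a₁ * b₁ = 0 →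
    u₁ * v₁ = u x * v x → S.R φ (mv x a₁ b₁ u₁ v₁) (mv y a₂ b₂ u₂ v₂)

namespace Omega

variable {a b u v κ : ∀ ⦃K⦄, S.X K → K} {mv : ∀ ⦃K⦄, S.X K → K → K → K → K → S.X K}
  (h : S.Omega a b u v κ mv)

include h

theorem om_spec {K : Fld k} {x : S.X K} (l : S.L x) : S.L (mv x (b x) (a x) (v x) (u x)) ∧
    a (mv x (b x) (a x) (v x) (u x)) = b x ∧
    S.f (mv x (b x) (a x) (v x) (u x)) = S.f x ∧
    (fun y => mv y (b y) (a y) (v y) (u y)) (mv x (b x) (a x) (v x) (u x)) = x := by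
  obtain ⟨h1, h2, h3, h4, h5, -, h7, h8⟩ :=
    h.spec x (b x) (a x) (v x) (u x) l ((mul_comm _ _).trans (h.ne x l).2.2.2) (mul_comm _ _)
  exact ⟨h1, h2, by rw [h7]; ring, by simp only [h2, h3, h4, h5, h8, h.self x l]⟩

theorem om_map : IsMap S S fun _ x => mv x (b x) (a x) (v x) (u x) :=
  have r : S.Reg S fun _ x => mv x (b x) (a x) (v x) (u x) :=
    ⟨fun _ _ l => (h.om_spec l).1, fun _ _ φ x y l l' c => h.reg φ x y _ _ _ _ _ _ _ _ l l' c
      (h.rb φ x y l l' c) (h.ra φ x y l l' c) (h.rv φ x y l l' c) (h.ru φ x y l l' c)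
      ((mul_comm _ _).trans (h.ne x l).2.2.2) (mul_comm _ _)⟩
  .of_inv r r (fun _ _ l => (h.om_spec l).2.2.1) fun _ _ l => (h.om_spec l).2.2.2

/-- The base. -/
@[reducible] def B : Pt k := S.restr (fun _ x => a x = 0 ∧ b x = 0 ∧ u x = 1)
  ((h.ra.eq regF_zero).and ((h.rb.eq regF_zero).and (h.ru.eq regF_one))).conv

theorem bκ : h.B.RegF κ := (reg_restr _).regF h.rκ

theorem bv : h.B.RegF v := (reg_restr _).regF h.rv

theorem e_spec {K : Fld k} {x : S.X K} (l : h.B.L x) {s : K} (hs : s ≠ 0) (t : K) :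
    S.L (mv x 0 t s (v x / s)) ∧ a (mv x 0 t s (v x / s)) = 0 ∧ b (mv x 0 t s (v x / s)) = t ∧
    u (mv x 0 t s (v x / s)) = s ∧ S.f (mv x 0 t s (v x / s)) = S.f x + t * (1 + κ x * s) ∧
    (fun y => mv y 0 0 1 (u y * v y)) (mv x 0 t s (v x / s)) = x ∧
    (fun y => mv y (b y) (a y) (v y) (u y)) (mv x 0 t s (v x / s)) = mv x t 0 (v x / s) s := by
  obtain ⟨l, ha, hb, hu⟩ := l
  obtain ⟨h1, h2, h3, h4, h5, -, h7, h8⟩ :=
    h.spec x 0 t s (v x / s) l (zero_mul _) (by rw [hu, one_mul, mul_div_cancel₀ _ hs])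
  refine ⟨h1, h2, h3, h4, by rw [h7, ha, hb]; ring, ?_, by simp only [h2, h3, h4, h5, h8]⟩
  simpa only [h4, h5, h8, mul_div_cancel₀ _ hs, ha, hb, hu] using h.self x l

theorem g_spec {K : Fld k} {y : S.X K} (l : S.L y) : h.B.L (mv y 0 0 1 (u y * v y)) ∧
    (a y = 0 → mv (mv y 0 0 1 (u y * v y)) 0 (b y) (u y) (v (mv y 0 0 1 (u y * v y)) / u y) = y) := by
  obtain ⟨h1, h2, h3, h4, h5, -, -, h8⟩ := h.spec y 0 0 1 (u y * v y) l (zero_mul _) (one_mul _)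
  refine ⟨⟨h1, h2, h3, h4⟩, fun e => ?_⟩
  rw [h8, h5, mul_div_cancel_left₀ _ (h.ne y l).2.1, ← e, h.self y l]

theorem e_map : IsMap (Om.U h.B h.bκ) S fun _ z => mv z.1 0 z.2.2 z.2.1 (v z.1 / z.2.1) := by
  refine .of_inv (g := fun _ y => (mv y 0 0 1 (u y * v y), u y, b y))
    ⟨fun _ _ l => (h.e_spec l.1.1 l.2 _).1, fun _ _ φ x y l l' c => h.reg φ _ _ _ _ _ _ _ _ _ _
      l.1.1.1 l'.1.1.1 c.1 φ.zero c.2.2 c.2.1
      ((h.rv φ _ _ l.1.1.1 l'.1.1.1 c.1).div c.2.1 l'.2) (zero_mul _)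
      (by rw [l.1.1.2.2.2, one_mul, mul_div_cancel₀ _ l.2])⟩
    ⟨fun _ y l => ⟨⟨(h.g_spec l).1, trivial, trivial⟩, (h.ne y l).2.1⟩, fun _ _ φ x y l l' c =>
      ⟨h.reg φ _ _ _ _ _ _ _ _ _ _ l l' c φ.zero φ.zero φ.one
        ((h.ru φ _ _ l l' c).mul (h.rv φ _ _ l l' c)) (zero_mul _) (one_mul _),
        h.ru φ _ _ l l' c, h.rb φ _ _ l l' c⟩⟩
    (fun _ _ l => (h.e_spec l.1.1 l.2 _).2.2.2.2.1) fun _ z l => ?_
  obtain ⟨-, -, h3, h4, -, h6, -⟩ := h.e_spec l.1.1 l.2 z.2.2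
  exact Prod.ext h6 (Prod.ext h4 h3)

end Omega

open Ob K.Om Om in
theorem Omega.acts [CharZero F] (hχ : χ.ψ 1 ≠ 1) {a b u v κ : ∀ ⦃K⦄, S.X K → K}
    {mv : ∀ ⦃K⦄, S.X K → K → K → K → K → S.X K} (h : S.Omega a b u v κ mv) :
    S.Acts χ (fun _ x => mv x (b x) (a x) (v x) (u x)) 1 := by
  classical
  refine ⟨h.om_map, ?_⟩
  set D := h.om_map.hom χ - (1 : F) • 𝟙 _ with hD
  have dcl : ∀ {K} {y : S.X K}, S.L y →
      D.1 K (S.cl F y) = S.cl F (mv y (b y) (a y) (v y) (u y)) - S.cl F y := fun l => by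
    rw [hD, one_smul, sub_app, LinearMap.sub_apply, h.om_map.hom_cl l]; rfl
  clear_value D
  have v0 : ∀ {K} {x : S.X K}, h.B.L x → v x ≠ 0 := fun l => (h.ne _ l.1).2.2.1
  have ul : ∀ {K} {x : S.X K} {s : K} (t : K), h.B.L x → s ≠ 0 → (U h.B h.bκ).L (x, s, t) :=
    fun _ l hs => ⟨⟨l, trivial, trivial⟩, hs⟩
  have dE : ∀ {K} {x : S.X K} {s : K} (t : K), h.B.L x → s ≠ 0 →
      D.1 K ((h.e_map.hom χ).1 K ((U h.B h.bκ).cl F (x, s, t))) =
        S.cl F (mv x t 0 (v x / s) s) - S.cl F (mv x 0 t s (v x / s)) := fun t l hs => by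
    rw [h.e_map.hom_cl (ul t l hs), dcl (h.e_spec l hs t).1]
    exact congrArg (fun y => S.cl F y - _) (h.e_spec l hs t).2.2.2.2.2.2
  have vv : ∀ {K} {x : S.X K} {s : K}, h.B.L x → v x / (v x / s) = s := fun l =>
    div_div_cancel₀ (v0 l)
  let r K : ((U h.B h.bκ).E χ).V K →ₗ[F] ((P h.B h.bκ).E χ).V K := (U h.B h.bκ).lf fun z =>
    if z.2.2 = 0 then (P h.B h.bκ).cl F (z.1, z.2.1 + v z.1 / z.2.1, 0) else 0
  let g K (y : S.X K) := (U h.B h.bκ).cl F (mv y 0 0 1 (u y * v y), u y, b y)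
  let σ K : (S.E χ).V K →ₗ[F] ((U h.B h.bκ).E χ).V K := S.lf fun y =>
    if a y = 0 then (if b y = 0 then g K y else (2 : F) • g K y) else 0
  let ν K : (S.E χ).V K →ₗ[F] ((U h.B h.bκ).E χ).V K := S.lf fun y =>
    if a y = 0 then g K y else -g K (mv y (b y) (a y) (v y) (u y))
  have σe : ∀ {K} {x : S.X K} {s : K} (t : K), h.B.L x → s ≠ 0 →
      σ K (S.cl F (mv x 0 t s (v x / s))) = if t = 0 then (U h.B h.bκ).cl F (x, s, t) else
        (2 : F) • (U h.B h.bκ).cl F (x, s, t) := fun t l hs => by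
    obtain ⟨h1, h2, h3, h4, -, h6, -⟩ := h.e_spec l hs t
    rw [lf_cl h1, if_pos h2]
    simp only [g, show mv _ 0 0 1 _ = _ from h6]
    rw [h3, h4]
  have eg : ∀ {K} {y : S.X K}, S.L y → a y = 0 → (h.e_map.hom χ).1 K (g K y) = S.cl F y :=
    fun l e => by
      rw [h.e_map.hom_cl (ul _ (h.g_spec l).1 (h.ne _ l).2.1)]
      exact congrArg _ ((h.g_spec l).2 e)
  have T : Ses ((isCor h.B h.bκ h.bv).hom χ)
      ((range D).lift (h.e_map.hom χ ≫ D) fun _ _ => ⟨_, rfl⟩) := by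
    refine ⟨fun K => ?_, fun K w => ⟨fun e => ?_, ?_⟩, fun K ⟨_, w, rfl⟩ => ⟨ν K w, ?_⟩⟩
    · have : r K ∘ₗ ((isCor h.B h.bκ h.bv).hom χ).1 K = (2 : F) • .id := by
        refine lin_ext ?_
        rintro ⟨x, t, c⟩ ⟨l, hc⟩
        obtain ⟨s, hs, rfl⟩ := q_ex t (v0 (x := x) l.1)
        obtain rfl : c = 0 := hc
        rw [LinearMap.comp_apply, k_cl _ _ h.bv l.1 hs, map_add, lf_cl (ul _ l.1 hs),
          lf_cl (ul _ l.1 (div_ne_zero (v0 l.1) hs)), if_pos rfl, if_pos rfl, vv l.1,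
          add_comm (v x / s), two_smul]
        rfl
      rw [injective_iff_map_eq_zero]
      intro w e
      simpa [e] using congr($this w).symm
    · have : ((isCor h.B h.bκ h.bv).hom χ).1 K ∘ₗ r K - σ K ∘ₗ (h.e_map.hom χ ≫ D).1 K =
          (2 : F) • .id := by
        refine lin_ext ?_
        rintro ⟨x, s, t⟩ ⟨l, hs⟩
        replace l : h.B.L x := l.1
        replace hs : s ≠ 0 := hs
        rw [LinearMap.sub_apply, LinearMap.comp_apply, LinearMap.comp_apply, Ob.comp_apply,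
          dE t l hs, map_sub, σe t l hs, lf_cl (ul _ l hs)]
        by_cases ht : t = 0
        · subst ht
          have := σe 0 l (div_ne_zero (v0 l) hs)
          rw [vv l] at this
          rw [this, if_pos rfl, if_pos rfl, if_pos rfl, k_cl _ _ h.bv l hs,
            LinearMap.smul_apply, two_smul]
          exact (fun _ _ => by abel : ∀ x y : (U h.B h.bκ).Live K →₀ F, x + y - (y - x) = x + x) _ _
        · obtain ⟨h1, -, h3, -, -, -, h7⟩ := h.e_spec l hs t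
          obtain ⟨k1, k2, -⟩ := h.om_spec h1
          rw [show mv _ _ _ _ _ = _ from h7] at k1 k2
          rw [if_neg ht, if_neg ht, lf_cl k1, if_neg (by rwa [k2, h3])]
          simp
      have e' : (h.e_map.hom χ ≫ D).1 K w = 0 := congrArg Subtype.val e
      refine ⟨(2 : F)⁻¹ • r K w, ?_⟩
      have := congr($this w)
      rw [LinearMap.sub_apply, LinearMap.comp_apply, LinearMap.comp_apply, e', map_zero,
        sub_zero] at this
      rw [map_smul, this]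
      simp [smul_smul]
    · rintro ⟨w, rfl⟩
      refine Subtype.ext (congr($(lin_ext (f := (h.e_map.hom χ ≫ D).1 K ∘ₗ
        ((isCor h.B h.bκ h.bv).hom χ).1 K) (g := 0) ?_) w))
      rintro ⟨x, t, c⟩ ⟨l, hc⟩
      obtain ⟨s, hs, rfl⟩ := q_ex t (v0 (x := x) l.1)
      obtain rfl : c = 0 := hc
      rw [LinearMap.comp_apply, k_cl _ _ h.bv l.1 hs, map_add, Ob.comp_apply, Ob.comp_apply, dE 0 l.1 hs,
        dE 0 l.1 (div_ne_zero (v0 l.1) hs), vv l.1]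
      simp
    · refine Subtype.ext (congr($(lin_ext (f := (h.e_map.hom χ ≫ D).1 K ∘ₗ ν K) (g := D.1 K)
        fun y l => ?_) w))
      rw [LinearMap.comp_apply, Ob.comp_apply, lf_cl l]
      obtain ⟨k1, k2, -, k4⟩ := h.om_spec l
      split_ifs with e
      · rw [eg l e]
      · rw [map_neg, eg k1 (k2.trans ((mul_eq_zero.1 (h.ne y l).2.2.2).resolve_left e)), map_neg,
          dcl k1, dcl l, neg_sub, show mv _ _ _ _ _ = y from k4]
  exact ((T.uzero₃_iff.2 (uiso_k _ _ hχ (fun _ x (l : h.B.L x) => (h.ne x l.1).1) h.bv)).null_left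
    (range D).incl).precomp ((range D).lift D fun _ w => ⟨w, rfl⟩)

end Pt

end

end Pool.Agent.Lib.MP_fc2ced_ag.K
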