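import Pool.Agent.Lib.MP_fc2ced_ag.K.Van

/-! The transfer along the quotient of the multiplicative group by an involution. -/

open CategoryTheory Function Polynomial

namespace Pool.Agent.Lib.MP_fc2ced_ag.K

noncomputable section

variable {k : Type} [Field k] {F : Type} [Field F] {χ : Chr k F}

namespace Om

/-- The roots of a quadratic polynomial. -/
def q {K : Type} [Field K] (t c : K) : Multiset K := (X ^ 2 - C t * X + C c).roots

theorem q_eq {K : Type} [Field K] {s s' t c : K} (h : s + s' = t) (h' : s * s' = c) :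
    q t c = {s, s'} := by
  rw [q, show (X ^ 2 - C t * X + C c : K[X]) = (X - C s) * (X - C s') by
      rw [← h, ← h', C_add, C_mul]; ring,
    roots_mul (mul_ne_zero (X_sub_C_ne_zero _) (X_sub_C_ne_zero _)), roots_X_sub_C, roots_X_sub_C]
  rfl

theorem q_monic {K : Type} [Field K] (t c : K) : (X ^ 2 - C t * X + C c).Monic := by monicity!

theorem q_mem {K : Type} [Field K] {s t c : K} (h : s ∈ q t c) : s ^ 2 - t * s + c = 0 := by
  simpa using (mem_roots (q_monic t c).ne_zero).1 h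

theorem q_ex {K : Fld k} (t : K) {c : K} (hc : c ≠ 0) : ∃ s : K, s ≠ 0 ∧ s + c / s = t := by
  obtain ⟨s, hs⟩ := IsAlgClosed.exists_root (X ^ 2 - C t * X + C c : K[X]) (by
    rw [show (X ^ 2 - C t * X + C c : K[X]).degree = 2 by compute_degree!]; decide)
  have e : s ^ 2 - t * s + c = 0 := by simpa using hs
  have h0 : s ≠ 0 := by rintro rfl; exact hc (by simpa using e)
  exact ⟨s, h0, by field_simp; linear_combination e⟩

theorem q_rel {K K' : Fld k} {φ : Place K K'} {t c : K} {t' c' : K'} (h : φ t t') (h' : φ c c') :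
    Multiset.Rel φ.R (q t c) (q t' c') :=
  (((Place.PR.X.pow 2).sub ((Place.PR.C h).mul Place.PR.X)).add (Place.PR.C h')).roots
    (q_monic t c)

theorem cls_q {S : Pt k} {K : Fld k} {s s' t c : K} (h : s + s' = t) (h' : s * s' = c)
    (e : K → S.X K) : S.cls F ((q t c).map e) = S.cl F (e s) + S.cl F (e s') := by
  simp [q_eq h h']

end Om

namespace Pt.Om

open K.Om

variable (B : Pt k) {κ w : ∀ ⦃K⦄, B.X K → K} (hκ : B.RegF κ)

/-- The plane over `B`. -/
@[reducible] def M : Pt k := (B.prod ((line k).prod (line k))).withF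
  (fun _ z => B.f z.1 + z.2.2 * (1 + κ z.1 * z.2.1)) fun _ _ φ _ _ a b c =>
    (B.reg φ _ _ a.1 b.1 c.1).add (c.2.2.mul (φ.one.add ((hκ φ _ _ a.1 b.1 c.1).mul c.2.1)))

theorem cb : (M B hκ).Closed fun _ z => z.2.2 = 0 := fun _ _ φ _ _ _ _ c e => c.2.2.eq_of φ.zero e

theorem cu : (M B hκ).Closed fun _ z => z.2.1 = 0 := fun _ _ φ _ _ _ _ c e => c.2.1.eq_of φ.zero e

/-- The first axis. -/
@[reducible] def P : Pt k := (M B hκ).restr _ (cb B hκ).conv

/-- The complement of the second axis. -/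
@[reducible] def U : Pt k := (M B hκ).restr _ (cu B hκ).not.conv

theorem uiso_j (hχ : χ.ψ 1 ≠ 1) (h0 : ∀ ⦃K⦄ (x : B.X K), B.L x → κ x ≠ 0) :
    UIso ((isMap_closed (cb B hκ)).hom χ ≫ (isMap_open (cu B hκ).not).hom χ) := by
  refine ((ses_closed (cb B hκ)).uzero₃_iff.1 (Flow.uzero hχ
    (τ := fun _ r z => (z.1, z.2.1 + r / (κ z.1 * z.2.2), z.2.2)) ⟨fun _ _ _ h => h, ?_, ?_, ?_,
      fun _ _ φ _ _ x y h a b c => ⟨c.1, c.2.1.add (h.div ((hκ φ _ _ a.1.1 b.1.1 c.1).mul c.2.2)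
        (mul_ne_zero (h0 _ b.1.1) b.2)), c.2.2⟩⟩)).comp
    ((ses_closed (cu B hκ)).uzero₁_iff.1 (Flow.uzero hχ
      (τ := fun _ r z => (z.1, z.2.1, z.2.2 + r)) ⟨fun _ _ _ h => h, ?_, ?_, ?_,
        fun _ _ φ _ _ x y h a b c => ⟨c.1, c.2.1, c.2.2.add h⟩⟩))
  · intro K x _
    simp
  · intro K r x _
    simp [neg_div]
  · intro K r x h
    have := h0 _ h.1.1
    have := h.2
    dsimp only
    field_simp
    ring
  · intro K x _
    simp
  · intro K r x _
    simp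
  · intro K r x h
    dsimp only
    rw [h.2]
    ring

variable (w) in
/-- The family of transfers. -/
def m ⦃K : Fld k⦄ (r : K) (z : (P B hκ).X K) : Multiset ((U B hκ).X K) :=
  (q z.2.1 (r * w z.1)).map fun s => (z.1, s, 0)

theorem isFam (hw : B.RegF w) : IsFam (P B hκ) (U B hκ) 0 (m B w hκ) where
  f K r x h z hz _ := by
    obtain ⟨s, -, rfl⟩ := Multiset.mem_map.1 hz
    simp [h.2]
  sp K K' φ r r' x y h a b c :=
    Multiset.rel_map.2 ((q_rel c.2.1 (h.mul (hw φ _ _ a.1.1 b.1.1 c.1))).mono fun s _ s' _ e =>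
      ⟨fun l => ⟨⟨a.1, e.ne_zero l.2⟩, c.1, e, φ.zero⟩,
        fun l _ z l' c' => l ⟨b.1, fun e' => l'.2 ((c'.2.1.func e).trans e')⟩⟩)
  dead K K' φ r r' x h a d z hz := by
    obtain ⟨s, hs, rfl⟩ := Multiset.mem_map.1 hz
    intro l y l' c
    refine d a (y.1, y.2.1 + r' * w y.1 / y.2.1, 0) ⟨l'.1, rfl⟩ ⟨c.1, ?_, a.2 ▸ φ.zero⟩
    refine (c.2.1.add ((h.mul (hw φ _ _ a.1.1 l'.1.1 c.1)).div c.2.1 l'.2)).congr ?_ rfl
    have : s ≠ 0 := l.2
    field_simp
    linear_combination q_mem hs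

theorem isCor (hw : B.RegF w) : IsCor (P B hκ) (U B hκ) fun _ z => m B w hκ 1 z :=
  ⟨fun _ x h z hz l => by simpa using (isFam B hκ hw).f 1 x h z hz l,
    fun _ _ φ x y => (isFam B hκ hw).sp φ 1 1 x y φ.one,
    fun _ _ φ x => (isFam B hκ hw).dead φ 1 1 x φ.one⟩

theorem uiso_k (hχ : χ.ψ 1 ≠ 1) (h0 : ∀ ⦃K⦄ (x : B.X K), B.L x → κ x ≠ 0) (hw : B.RegF w) :
    UIso ((isCor B hκ hw).hom χ) := by
  refine .of_null_sub ((isFam B hκ hw).null_sub (fun K x h => ?_)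
    fun K x h => IsCor.hom_cl _ h).symm (uiso_j B hκ hχ h0)
  rw [Ob.comp_apply, IsMap.hom_cl _ h, IsMap.hom_cl _ h.1, m,
    cls_q (zero_add _) (by rw [zero_mul, zero_mul]),
    cl_dead (S := U B hκ) (x := (x.1, 0, 0)) fun l => l.2 rfl, zero_add, ← h.2]

theorem k_cl (hw : B.RegF w) {K : Fld k} {x : B.X K} (h : B.L x) {s : K} (hs : s ≠ 0) :
    ((isCor B hκ hw).hom χ).1 K ((P B hκ).cl F (x, s + w x / s, 0)) =
      (U B hκ).cl F (x, s, 0) + (U B hκ).cl F (x, w x / s, 0) := by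
  rw [(isCor B hκ hw).hom_cl ⟨⟨h, trivial, trivial⟩, rfl⟩, m, cls_q rfl (by field_simp)]

end Pt.Om

end

end Pool.Agent.Lib.MP_fc2ced_ag.K
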