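import Pool.Agent.Lib.MP_fc2ced_ag.K.Defs

/-! Algebraically closed fields over `k` and places between them. -/

open Polynomial

namespace Pool.Agent.Lib.MP_fc2ced_ag.K

noncomputable section

variable {k : Type} [Field k]

set_option linter.dupNamespace false in
variable (k) in
/-- Algebraically closed fields over `k`. -/
structure Fld where
  K : Type
  [field : Field K]
  [alg : Algebra k K]
  [closed : IsAlgClosed K]

attribute [instance] Fld.field Fld.alg Fld.closed

instance : CoeSort (Fld k) Type := ⟨Fld.K⟩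

/-- A place over `k`, as a relation: `R a b` means that `a` is finite with value `b`. -/
@[ext] structure Place (K K' : Fld k) where
  R : K → K' → Prop
  func : ∀ {a b b'}, R a b → R a b' → b = b'
  alg : ∀ c : k, R (algebraMap k K c) (algebraMap k K' c)
  add : ∀ {a a' b b'}, R a b → R a' b' → R (a + a') (b + b')
  mul : ∀ {a a' b b'}, R a b → R a' b' → R (a * a') (b * b')
  total : ∀ a, (∃ b, R a b) ∨ R a⁻¹ 0

instance (K K' : Fld k) : CoeFun (Place K K') fun _ => K → K' → Prop := ⟨Place.R⟩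

namespace Place

variable {K K' K'' : Fld k} (φ : Place K K') {a a' : K} {b b' : K'}

theorem zero : φ 0 0 := by simpa using φ.alg 0
theorem one : φ 1 1 := by simpa using φ.alg 1
theorem natCast (m : ℕ) : φ m m := by simpa using φ.alg m
theorem intCast (m : ℤ) : φ m m := by simpa using φ.alg m

variable {φ}

theorem R.add (h : φ a b) (h' : φ a' b') : φ (a + a') (b + b') := φ.add h h'
theorem R.mul (h : φ a b) (h' : φ a' b') : φ (a * a') (b * b') := φ.mul h h'
theorem R.func (h : φ a b) (h' : φ a b') : b = b' := φ.func h h'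
theorem R.neg (h : φ a b) : φ (-a) (-b) := by simpa using φ.mul (φ.alg (-1)) h
theorem R.sub (h : φ a b) (h' : φ a' b') : φ (a - a') (b - b') := by
  simpa only [sub_eq_add_neg] using φ.add h h'.neg
theorem R.ne_zero (h : φ a b) (hb : b ≠ 0) : a ≠ 0 := fun e => hb (φ.func (e ▸ h) φ.zero)
theorem zero_iff : φ 0 b ↔ b = 0 := ⟨fun h => φ.func h φ.zero, fun h => h ▸ φ.zero⟩
theorem R.inv (h : φ a b) (hb : b ≠ 0) : φ a⁻¹ b⁻¹ := by
  rcases φ.total a⁻¹ with ⟨c, hc⟩ | h0
  · have := φ.mul h hc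
    rw [mul_inv_cancel₀ (h.ne_zero hb)] at this
    rwa [← eq_inv_of_mul_eq_one_right (φ.func this φ.one)]
  · rw [inv_inv] at h0
    exact absurd (φ.func h h0) hb
theorem R.div (h : φ a b) (h' : φ a' b') (hb : b' ≠ 0) : φ (a / a') (b / b') := by
  simpa only [div_eq_mul_inv] using φ.mul h (h'.inv hb)
theorem R.pow (h : φ a b) (m : ℕ) : φ (a ^ m) (b ^ m) := by
  induction m with
  | zero => simpa using φ.one
  | succ m ih => simpa only [pow_succ] using φ.mul ih h
theorem sum {ι : Type*} {s : Finset ι} {x : ι → K} {y : ι → K'} (h : ∀ i ∈ s, φ (x i) (y i)) :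
    φ (∑ i ∈ s, x i) (∑ i ∈ s, y i) := by
  classical
  induction s using Finset.induction_on with
  | empty => simpa using φ.zero
  | insert i s hi ih =>
    rw [Finset.sum_insert hi, Finset.sum_insert hi]
    exact φ.add (h i (by simp)) (ih fun j hj => h j (by simp [hj]))
theorem prod {ι : Type*} {s : Finset ι} {x : ι → K} {y : ι → K'} (h : ∀ i ∈ s, φ (x i) (y i)) :
    φ (∏ i ∈ s, x i) (∏ i ∈ s, y i) := by
  classical
  induction s using Finset.induction_on with
  | empty => simpa using φ.one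
  | insert i s hi ih =>
    rw [Finset.prod_insert hi, Finset.prod_insert hi]
    exact φ.mul (h i (by simp)) (ih fun j hj => h j (by simp [hj]))
theorem R.congr {a₁ : K} {b₁ : K'} (h : φ a b) (e : a = a₁) (e' : b = b₁) : φ a₁ b₁ := e ▸ e' ▸ h
/-- An equation between finite elements specializes. -/
theorem R.eq_of (h : φ a b) (h' : φ a' b') (e : a = a') : b = b' := φ.func (e ▸ h) h'
/-- An element that is not finite is nonzero with inverse of value zero. -/
theorem inv_of_not (h : ¬ ∃ b, φ a b) : a ≠ 0 ∧ φ a⁻¹ 0 :=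
  ⟨fun e => h ⟨0, e ▸ φ.zero⟩, (φ.total a).resolve_left h⟩
theorem not_of_inv (ha : a ≠ 0) (h : φ a⁻¹ 0) : ¬ ∃ b, φ a b := fun ⟨b, hb⟩ => by
  have := φ.mul hb h
  rw [mul_inv_cancel₀ ha, mul_zero] at this
  exact one_ne_zero (φ.func φ.one this)

/-- The identity. -/
protected def id (K : Fld k) : Place K K where
  R a b := b = a
  func h h' := h.trans h'.symm
  alg _ := rfl
  add h h' := by rw [h, h']
  mul h h' := by rw [h, h']
  total a := .inl ⟨a, rfl⟩

/-- The composition: first `φ`, then `φ'`. -/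
def comp (φ' : Place K' K'') (φ : Place K K') : Place K K'' where
  R a c := ∃ b, φ a b ∧ φ' b c
  func := fun ⟨_, h1, h2⟩ ⟨_, h3, h4⟩ => φ'.func h2 (φ.func h3 h1 ▸ h4)
  alg c := ⟨_, φ.alg c, φ'.alg c⟩
  add := fun ⟨_, h1, h2⟩ ⟨_, h3, h4⟩ => ⟨_, φ.add h1 h3, φ'.add h2 h4⟩
  mul := fun ⟨_, h1, h2⟩ ⟨_, h3, h4⟩ => ⟨_, φ.mul h1 h3, φ'.mul h2 h4⟩
  total a := by
    by_cases h : ∃ b, φ a b
    · obtain ⟨b, hb⟩ := h
      by_cases h' : ∃ c, φ' b c
      · exact .inl (h'.imp fun c hc => ⟨b, hb, hc⟩)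
      · exact .inr ⟨_, hb.inv (inv_of_not h').1, (inv_of_not h').2⟩
    · exact .inr ⟨0, (inv_of_not h).2, φ'.zero⟩

@[simp] theorem id_iff {a b : K} : Place.id K a b ↔ b = a := Iff.rfl
@[simp] theorem comp_iff {φ' : Place K' K''} {c : K''} :
    φ'.comp φ a c ↔ ∃ b, φ a b ∧ φ' b c := Iff.rfl

/-- The place given by a homomorphism of fields. -/
def ofHom (g : K →ₐ[k] K') : Place K K' where
  R a b := b = g a
  func h h' := h.trans h'.symm
  alg c := (g.commutes c).symm
  add h h' := by rw [h, h', map_add]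
  mul h h' := by rw [h, h', map_mul]
  total a := .inl ⟨_, rfl⟩

variable (φ) in
/-- The valuation ring of the place. -/
def D : ValuationSubring K where
  carrier := {a | ∃ b, φ a b}
  mul_mem' := fun ⟨_, h⟩ ⟨_, h'⟩ => ⟨_, φ.mul h h'⟩
  one_mem' := ⟨_, φ.one⟩
  add_mem' := fun ⟨_, h⟩ ⟨_, h'⟩ => ⟨_, φ.add h h'⟩
  zero_mem' := ⟨_, φ.zero⟩
  neg_mem' := fun ⟨_, h⟩ => ⟨_, h.neg⟩
  mem_or_inv_mem' a := (φ.total a).imp id fun h => ⟨0, h⟩

theorem mem_D : a ∈ φ.D ↔ ∃ b, φ a b := Iff.rfl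

variable (φ) in
/-- The residue homomorphism of the place. -/
def hom : φ.D →+* K' where
  toFun a := a.2.choose
  map_one' := φ.func (1 : φ.D).2.choose_spec φ.one
  map_mul' a a' := φ.func (a * a').2.choose_spec (φ.mul a.2.choose_spec a'.2.choose_spec)
  map_zero' := φ.func (0 : φ.D).2.choose_spec φ.zero
  map_add' a a' := φ.func (a + a').2.choose_spec (φ.add a.2.choose_spec a'.2.choose_spec)

theorem rel_hom (a : φ.D) : φ a (φ.hom a) := a.2.choose_spec
theorem hom_eq {a : φ.D} (h : φ a b) : φ.hom a = b := φ.func (rel_hom a) h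
theorem iff_hom : φ a b ↔ ∃ z : φ.D, (z : K) = a ∧ φ.hom z = b :=
  ⟨fun h => ⟨⟨a, b, h⟩, rfl, hom_eq h⟩, fun ⟨z, h1, h2⟩ => h1 ▸ h2 ▸ rel_hom z⟩

/-- A family of related elements comes from the valuation ring. -/
theorem exists_lift {ι : Sort*} {x : ι → K} {y : ι → K'} (h : ∀ i, φ (x i) (y i)) :
    ∃ z : ι → φ.D, (∀ i, (z i : K) = x i) ∧ ∀ i, φ.hom (z i) = y i :=
  ⟨fun i => ⟨x i, y i, h i⟩, fun _ => rfl, fun i => hom_eq (h i)⟩

variable (φ) in
/-- Coefficientwise specialization of polynomials. -/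
def PR (p : K[X]) (q : K'[X]) : Prop := ∀ i, φ (p.coeff i) (q.coeff i)

end Place

end

end Pool.Agent.Lib.MP_fc2ced_ag.K
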