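import Pool.Agent.Lib.MP_fc2ced_ag.K.Ob

/-! Tensor powers, and the objects given by conditions on the points of a functor to sets. -/

open CategoryTheory Function
open PiTensorProduct hiding tprod
open PiTensorProduct renaming tprod → tp
open scoped TensorProduct

namespace Pool.Agent.Lib.MP_fc2ced_ag.K

noncomputable section

variable {k : Type} [Field k] {F : Type} [Field F]

theorem bij_of_basis {V W ι κ : Type} [AddCommGroup V] [Module F V] [AddCommGroup W] [Module F W]
    (b : Module.Basis ι F V) (b' : Module.Basis κ F W) (e : ι ≃ κ) (f : V →ₗ[F] W)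
    (h : ∀ i, f (b i) = b' (e i)) : Bijective f := by
  have : f = (b.equiv b' e).toLinearMap := b.ext fun i => by simp [h]
  rw [this]; exact (b.equiv b' e).bijective

attribute [local ext] PiTensorProduct.ext

namespace Ob

variable {M M' M'' N N' N'' : Ob k F} {α β γ : Type} [Finite α] [Finite β] [Finite γ]

/-- The tensor power. -/
@[reducible] def pow (M : Ob k F) (α : Type) [Finite α] : Ob k F where
  V O := ⨂[F] _ : α, M.V O
  map g := PiTensorProduct.map fun _ => M.map g
  map_id O := by rw [M.map_id, PiTensorProduct.map_id]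
  map_comp f g := by rw [M.map_comp, PiTensorProduct.map_comp]
  fin O v := by
    classical
    have := Fintype.ofFinite α
    induction v using PiTensorProduct.induction_on with
    | add _ _ h1 h2 => exact add_mem h1 h2
    | smul_tprod c m =>
      choose S hS using fun a => M.fin O (m a)
      refine Submodule.smul_mem _ _ ⟨Finset.univ.biUnion S, fun O' f g h => ?_⟩
      rw [map_tprod, map_tprod]
      congr 1
      exact funext fun a => hS a O' f g fun s hs =>
        h s (Finset.mem_biUnion.2 ⟨a, Finset.mem_univ _, hs⟩)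

/-- The tensor product of a family of morphisms. -/
def powMap (g : α → (M ⟶ N)) : M.pow α ⟶ N.pow α :=
  ⟨fun O => PiTensorProduct.map fun a => (g a).1 O, fun O O' h => by
    ext; simp [Ob.nat]⟩

@[simp] theorem powMap_app (g : α → (M ⟶ N)) (O : Fld k) :
    (powMap g).1 O = PiTensorProduct.map fun a => (g a).1 O := rfl

@[simp] theorem powMap_id : powMap (fun _ : α => 𝟙 M) = 𝟙 _ := by ext; simp

theorem powMap_comp (f : α → (M ⟶ M')) (g : α → (M' ⟶ M'')) :
    powMap f ≫ powMap g = powMap fun a => f a ≫ g a := by ext; simp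

theorem powMap_zero (g : α → (M ⟶ N)) {a : α} (h : g a = 0) : powMap g = 0 := by
  ext O m
  simpa using (tp F).map_coord_zero (m := fun a => (g a).1 O (m a)) a (by simp [h])

theorem powMap_add [Fintype α] [DecidableEq α] (f g : α → (M ⟶ N)) :
    powMap (f + g) = ∑ S : Finset α, powMap (S.piecewise f g) := by
  ext O m
  have := (tp F).map_add_univ (fun a => (f a).1 O (m a)) fun a => (g a).1 O (m a)
  simp only [powMap_app, Pi.add_apply, add_app, LinearMap.compMultilinearMap_apply, map_tprod,
    LinearMap.add_apply, sum_app, LinearMap.sum_apply]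
  refine this.trans (Finset.sum_congr rfl fun S _ => congrArg _ (funext fun a => ?_))
  by_cases h : a ∈ S <;> simp [h]

/-- Reindexing of tensor powers. -/
def reidx (M : Ob k F) (e : α ≃ β) : M.pow α ⟶ M.pow β :=
  ⟨fun O => (reindex F (fun _ => M.V O) e).toLinearMap, fun O O' h => by ext; simp⟩

@[simp] theorem reidx_app (e : α ≃ β) (O : Fld k) :
    (reidx M e).1 O = (reindex F (fun _ => M.V O) e).toLinearMap := rfl

theorem reidx_tprod (e : α ≃ β) (O : Fld k) (m : α → M.V O) :
    (reidx M e).1 O (tp F m) = tp F fun b => m (e.symm b) := reindex_tprod e m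

theorem bij_reidx (e : α ≃ β) : Bij (reidx M e) :=
  fun O => (reindex F (fun _ => M.V O) e).bijective

theorem reidx_comp (e : α ≃ β) (e' : β ≃ γ) : reidx M e ≫ reidx M e' = reidx M (e.trans e') := by
  ext; simp

theorem reidx_mul (σ τ : Equiv.Perm α) : reidx M (σ * τ) = reidx M τ ≫ reidx M σ :=
  (reidx_comp _ _).symm

@[simp] theorem reidx_one : reidx M (1 : Equiv.Perm α) = 𝟙 _ := by
  ext; simp [Equiv.Perm.one_def]

theorem reidx_nat (e : α ≃ β) (g : β → (M ⟶ N)) :
    reidx M e ≫ powMap g = powMap (fun a => g (e a)) ≫ reidx N e := by ext; simp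

/-- A tensor power indexed by a disjoint union. -/
def sumHom (M : Ob k F) (e : α ⊕ β ≃ γ) : (M.pow α).ten (M.pow β) ⟶ M.pow γ :=
  (⟨fun O => (tmulEquiv F (M.V O)).toLinearMap, fun O O' h => by
    ext a b
    simp only [LinearMap.compMultilinearMap_apply, TensorProduct.AlgebraTensorModule.curry_apply,
      LinearMap.restrictScalars_self, TensorProduct.curry_apply, LinearMap.comp_apply,
      TensorProduct.map_tmul, map_tprod, LinearEquiv.coe_coe, tmulEquiv_apply]
    congr 1; ext (_ | _) <;> rfl⟩ : _ ⟶ M.pow (α ⊕ β)) ≫ reidx M e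

theorem sumHom_app (e : α ⊕ β ≃ γ) (O : Fld k) : (sumHom M e).1 O =
    (reindex F (fun _ => M.V O) e).toLinearMap ∘ₗ (tmulEquiv F (M.V O)).toLinearMap := rfl

theorem sumHom_tprod (e : α ⊕ β ≃ γ) (O : Fld k) (a : α → M.V O) (b : β → M.V O) :
    (sumHom M e).1 O (tp F a ⊗ₜ tp F b) = tp F fun c => Sum.elim a b (e.symm c) := by
  simp [sumHom]

theorem bij_sumHom (e : α ⊕ β ≃ γ) : Bij (sumHom M e) :=
  Bij.comp (fun O => (tmulEquiv F (M.V O)).bijective) (bij_reidx e)

theorem sumHom_nat (e : α ⊕ β ≃ γ) (g : γ → (M ⟶ N)) :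
    sumHom M e ≫ powMap g = tenMap (powMap fun a => g (e (.inl a)))
      (powMap fun b => g (e (.inr b))) ≫ sumHom N e := by
  ext O a b
  simp only [comp_app, LinearMap.compMultilinearMap_apply, LinearMap.restrictScalars_self,
    TensorProduct.AlgebraTensorModule.curry_apply, TensorProduct.curry_apply, LinearMap.comp_apply,
    sumHom_app, powMap_app, map_tprod, tenMap_app, TensorProduct.map_tmul, LinearEquiv.coe_coe,
    tmulEquiv_apply, reindex_tprod]
  congr 1; ext c
  obtain ⟨c | c, rfl⟩ := e.surjective c <;> simp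

theorem sumHom_reidx (e : α ⊕ β ≃ γ) (σ : Equiv.Perm α) (τ : Equiv.Perm β) :
    tenMap (reidx M σ) (reidx M τ) ≫ sumHom M e =
      sumHom M e ≫ reidx M (e.permCongr (σ.sumCongr τ)) := by
  ext O a b
  simp only [comp_app, LinearMap.compMultilinearMap_apply, LinearMap.restrictScalars_self,
    TensorProduct.AlgebraTensorModule.curry_apply, TensorProduct.curry_apply, LinearMap.comp_apply,
    sumHom_app, tenMap_app, TensorProduct.map_tmul, reidx_app, LinearEquiv.coe_coe,
    tmulEquiv_apply, reindex_tprod]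
  congr 1; ext c
  obtain ⟨c | c, rfl⟩ := e.surjective c <;> simp [Equiv.permCongr_def]

/-- The first tensor power. -/
def oneHom (M : Ob k F) (α : Type) [Unique α] : M.pow α ⟶ M :=
  ⟨fun O => (subsingletonEquiv (s := fun _ => M.V O) default).toLinearMap, fun O O' h => by
    ext; simp⟩

theorem bij_oneHom (α : Type) [Unique α] : Bij (oneHom M α) :=
  fun O => (subsingletonEquiv (s := fun _ => M.V O) default).bijective

theorem oneHom_nat (α : Type) [Unique α] (f : M ⟶ N) :
    powMap (fun _ => f) ≫ oneHom N α = oneHom M α ≫ f := by ext; simp [oneHom]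

/-- The empty tensor power. -/
def emptyHom (M : Ob k F) (α : Type) [IsEmpty α] : M.pow α ⟶ one k F :=
  ⟨fun O => (isEmptyEquiv α (s := fun _ => M.V O)).toLinearMap, fun O O' h => by ext; simp⟩

theorem bij_emptyHom (α : Type) [IsEmpty α] : Bij (emptyHom M α) :=
  fun O => (isEmptyEquiv α (s := fun _ => M.V O)).bijective

theorem emptyHom_nat (α : Type) [IsEmpty α] (f : α → (M ⟶ N)) :
    powMap f ≫ emptyHom N α = emptyHom M α := by ext; simp [emptyHom]

/-- Tensor powers of a tensor product. -/
def tenPow (M N : Ob k F) (α : Type) [Finite α] : (M.pow α).ten (N.pow α) ⟶ (M.ten N).pow α :=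
  ⟨fun O => TensorProduct.lift (map₂ fun _ => TensorProduct.mk F (M.V O) (N.V O)),
    fun O O' h => by ext; simp [map₂_tprod_tprod]⟩

@[simp] theorem tenPow_app (O : Fld k) : (tenPow M N α).1 O =
    TensorProduct.lift (map₂ fun _ => TensorProduct.mk F (M.V O) (N.V O)) := rfl

theorem tenPow_tprod (O : Fld k) (a : α → M.V O) (b : α → N.V O) :
    (tenPow M N α).1 O (tp F a ⊗ₜ tp F b) = tp F fun c => a c ⊗ₜ b c := by
  simp [tenPow, map₂_tprod_tprod]

theorem bij_tenPow : Bij (tenPow M N α) := fun O =>
  bij_of_basis ((Basis.piTensorProduct fun _ => Module.Basis.ofVectorSpace F (M.V O)).tensorProduct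
    (Basis.piTensorProduct fun _ => Module.Basis.ofVectorSpace F (N.V O)))
    (Basis.piTensorProduct fun _ => (Module.Basis.ofVectorSpace F (M.V O)).tensorProduct
      (Module.Basis.ofVectorSpace F (N.V O))) (Equiv.arrowProdEquivProdArrow _ _ _).symm _
    fun ⟨a, b⟩ => by
      simp [Module.Basis.tensorProduct_apply, Equiv.arrowProdEquivProdArrow, map₂_tprod_tprod]

theorem tenPow_reidx (σ : Equiv.Perm α) :
    tenMap (reidx M σ) (reidx N σ) ≫ tenPow M N α = tenPow M N α ≫ reidx _ σ := by
  ext; simp [map₂_tprod_tprod]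

end Ob

end

end Pool.Agent.Lib.MP_fc2ced_ag.K
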