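import Pool.Agent.Lib.MP_fc2ced_ag.K.SF
import Pool.Agent.Lib.MP_fc2ced_ag.K.Place2

/-! Varieties with a function, as functors on fields and places, and the part of the motive with
compact support of the Artin-Schreier covering cut out by an additive character. -/

open CategoryTheory Function Polynomial

namespace Pool.Agent.Lib.MP_fc2ced_ag.K

noncomputable section

variable {k : Type} [Field k] {F : Type} [Field F]

variable (k F) in
/-- An additive character of the prime field. -/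
structure Chr where
  p : ℕ
  [prime : Fact p.Prime]
  [char : CharP k p]
  ψ : AddChar (ZMod p) F

instance Chr.factPrime {k F : Type} {_ : Field k} {_ : Field F} (χ : Chr k F) : Fact χ.p.Prime :=
  χ.prime

theorem Chr.charFld (χ : Chr k F) (K : Fld k) : CharP K χ.p :=
  have := χ.char
  charP_of_injective_algebraMap (algebraMap k K).injective _

open Classical in
/-- The value of a place. -/
def Place.val {K K' : Fld k} (φ : Place K K') (a : K) : K' :=
  if h : ∃ b, φ a b then h.choose else 0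

theorem Place.val_eq {K K' : Fld k} {φ : Place K K'} {a : K} {b : K'} (h : φ a b) :
    φ.val a = b := by
  rw [Place.val, dif_pos ⟨b, h⟩]
  exact φ.func (Exists.choose_spec ⟨b, h⟩) h

namespace Chr

variable (χ : Chr k F) {K K' K'' : Fld k}

theorem exists_rt (b : K) : ∃ y : K, y ^ χ.p - y = b := by
  have h1 := χ.prime.out.one_lt
  have hd : (X ^ χ.p - X - C b : K[X]).natDegree = χ.p := by
    compute_degree! <;> simp [h1.ne, h1.le, χ.prime.out.ne_zero]
  obtain ⟨y, hy⟩ := IsAlgClosed.exists_root (X ^ χ.p - X - C b : K[X]) (by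
    intro h; have := natDegree_eq_zero_iff_degree_le_zero.2 h.le; omega)
  exact ⟨y, by simpa [sub_eq_zero] using hy⟩

/-- A chosen solution of the Artin-Schreier equation. -/
def rt (b : K) : K := (χ.exists_rt b).choose

theorem rt_spec (b : K) : χ.rt b ^ χ.p - χ.rt b = b := (χ.exists_rt b).choose_spec

/-- The embedding of the prime field. -/
def cst (K : Fld k) : ZMod χ.p →+* K := have := χ.charFld K; ZMod.castHom dvd_rfl K

open Classical in
/-- The character, extended by zero from the prime field. -/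
def ev (z : K) : F := if h : ∃ c : ZMod χ.p, z = χ.cst K c then χ.ψ h.choose else 0

theorem ev_cast (c : ZMod χ.p) : χ.ev (χ.cst K c) = χ.ψ c := by
  have h : ∃ c' : ZMod χ.p, χ.cst K c = χ.cst K c' := ⟨c, rfl⟩
  rw [ev, dif_pos h, ← (χ.cst K).injective h.choose_spec]

theorem exists_cast {z : K} (h : z ^ χ.p = z) : ∃ c : ZMod χ.p, z = χ.cst K c := by
  have := χ.charFld K
  obtain ⟨c, hc⟩ := (mem_bot_iff_intCast χ.p K).1
    ((Subfield.mem_bot_iff_pow_eq_self K χ.p).2 h)
  exact ⟨c, by rw [map_intCast, hc]⟩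

theorem rel_cast (φ : Place K K') (c : ZMod χ.p) :
    φ (χ.cst K c) (χ.cst K' c) := by
  obtain ⟨m, rfl⟩ := ZMod.intCast_surjective c
  simpa only [map_intCast] using φ.intCast m

@[simp] theorem ev_zero : χ.ev (0 : K) = 1 := by simpa using χ.ev_cast (K := K) 0

theorem ev_one : χ.ev (1 : K) = χ.ψ 1 := by simpa using χ.ev_cast (K := K) 1

variable {χ}

theorem ev_add {z w : K} (hz : z ^ χ.p = z) (hw : w ^ χ.p = w) :
    χ.ev (z + w) = χ.ev z * χ.ev w := by
  obtain ⟨c, rfl⟩ := χ.exists_cast hz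
  obtain ⟨d, rfl⟩ := χ.exists_cast hw
  rw [← map_add, ev_cast, ev_cast, ev_cast, AddChar.map_add_eq_mul]

theorem ev_rel {φ : Place K K'} {z : K} {z' : K'} (hz : z ^ χ.p = z) (h : φ z z') :
    χ.ev z' = χ.ev z := by
  obtain ⟨c, rfl⟩ := χ.exists_cast hz
  rw [φ.func h (χ.rel_cast φ c), ev_cast, ev_cast]

theorem ev_ne_zero {z : K} (hz : z ^ χ.p = z) : χ.ev z ≠ 0 := by
  have := χ.charFld K
  have := ev_add hz (w := -z) (by rw [neg_pow, hz, neg_one_pow_char, neg_one_mul])
  rw [add_neg_cancel, ev_zero] at this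
  exact left_ne_zero_of_mul_eq_one this.symm

theorem sub_fix {y y' : K} (h : y ^ χ.p - y = y' ^ χ.p - y') : (y - y') ^ χ.p = y - y' := by
  have := χ.charFld K
  rw [sub_pow_char]; linear_combination h

theorem exists_rel {φ : Place K K'} {y b : K} {b' : K'} (hy : y ^ χ.p - y = b) (h : φ b b') :
    ∃ y', φ y y' ∧ y' ^ χ.p - y' = b' := by
  have h1 := χ.prime.out.one_lt
  obtain ⟨y', hy'⟩ := (((Place.PR.X.pow χ.p).sub Place.PR.X).sub (Place.PR.C h)).exists_root
    (by monicity! <;> simp [h1, h1.le]) (a := y) (by simp [hy])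
  exact ⟨y', hy', ((hy'.pow _).sub hy').eq_of h hy⟩

variable (χ) in
/-- The cocycle that describes the Artin-Schreier local system. -/
def cf (φ : Place K K') (b : K) : F := χ.ev (φ.val (χ.rt b) - χ.rt (φ.val b))

theorem cf_eq {φ : Place K K'} {b : K} {b' y' : K'} (h : φ b b') (hy : φ (χ.rt b) y') :
    χ.cf φ b = χ.ev (y' - χ.rt b') := by rw [cf, Place.val_eq h, Place.val_eq hy]

theorem cf_id (b : K) : χ.cf (Place.id K) b = 1 := by
  rw [cf_eq (b' := b) (y' := χ.rt b) rfl rfl, sub_self, ev_zero]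

theorem cf_comp {φ : Place K K'} {φ' : Place K' K''} {b : K} {b' : K'} {b'' : K''} (h : φ b b')
    (h' : φ' b' b'') : χ.cf (φ'.comp φ) b = χ.cf φ b * χ.cf φ' b' := by
  obtain ⟨y', h1, h2⟩ := exists_rel (χ.rt_spec b) h
  obtain ⟨y'', h3, h4⟩ := exists_rel h2 h'
  obtain ⟨w, h5, h6⟩ := exists_rel (χ.rt_spec b') h'
  rw [cf_eq (φ := φ'.comp φ) ⟨_, h, h'⟩ ⟨_, h1, h3⟩, cf_eq h h1, cf_eq h' h5,
    ← ev_rel (sub_fix (h2.trans (χ.rt_spec b').symm)) (h3.sub h5),
    ← ev_add (sub_fix (h4.trans h6.symm)) (sub_fix (h6.trans (χ.rt_spec b'').symm)),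
    sub_add_sub_cancel]

end Chr

variable (k) in
/-- A variety with a function: points over every field, of which the live ones count, and the
specialization relation along places. -/
structure Pt where
  X : Fld k → Type
  L : ∀ ⦃K⦄, X K → Prop
  R : ∀ ⦃K K'⦄, Place K K' → X K → X K' → Prop
  f : ∀ ⦃K⦄, X K → K
  func : ∀ ⦃K K'⦄ (φ : Place K K') (x : X K) (y y' : X K'), L x → L y → L y' → R φ x y →
    R φ x y' → y = y'
  id : ∀ ⦃K⦄ (x y : X K), L x → L y → (R (Place.id K) x y ↔ y = x)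
  comp : ∀ ⦃K K' K''⦄ (φ : Place K K') (φ' : Place K' K'') (x : X K) (z : X K''), L x → L z →
    (R (φ'.comp φ) x z ↔ ∃ y, L y ∧ R φ x y ∧ R φ' y z)
  reg : ∀ ⦃K K'⦄ (φ : Place K K') (x : X K) (y : X K'), L x → L y → R φ x y → φ (f x) (f y)
  fin : ∀ ⦃K⦄ (x : X K), L x → ∃ S : Finset K, ∀ (K' : Fld k) (φ φ' : Place K K'),
    (∀ s ∈ S, φ s = φ' s) → ∀ y, L y → R φ x y → R φ' x y

namespace Pt

variable (S S' : Pt k) {K K' K'' : Fld k}

/-- Conditions on points. -/
abbrev Cond := ∀ ⦃K : Fld k⦄, S.X K → Prop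

/-- The live points. -/
abbrev Live (K : Fld k) := {x : S.X K // S.L x}

open Classical in
variable (F) in
/-- The class of a point. -/
def cl (x : S.X K) : S.Live K →₀ F := if h : S.L x then Finsupp.single ⟨x, h⟩ 1 else 0

theorem cl_live (x : S.Live K) : S.cl F x.1 = Finsupp.single x 1 := dif_pos x.2

variable {S} in
theorem cl_dead {x : S.X K} (h : ¬ S.L x) : S.cl F x = 0 := dif_neg h

/-- The linear map with given values on points. -/
@[irreducible] def lf {W : Type} [AddCommGroup W] [Module F W] (c : S.X K → W) :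
    (S.Live K →₀ F) →ₗ[F] W := Finsupp.linearCombination F fun x => c x.1

variable {S} in
theorem lf_cl {W : Type} [AddCommGroup W] [Module F W] {c : S.X K → W} {x : S.X K} (h : S.L x) :
    S.lf c (S.cl F x) = c x := by
  rw [S.cl_live ⟨x, h⟩]; simp [lf]

variable {S} in
theorem lin_ext {W : Type} [AddCommGroup W] [Module F W] {f g : (S.Live K →₀ F) →ₗ[F] W}
    (h : ∀ x, S.L x → f (S.cl F x) = g (S.cl F x)) : f = g :=
  Finsupp.lhom_ext' fun x => LinearMap.ext_ring (by simpa [← cl_live] using h x.1 x.2)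

/-- The point has no live specialization. -/
def Dd (φ : Place K K') (x : S.X K) : Prop := S.L x → ∀ y, S.L y → ¬ S.R φ x y

/-- The class of `x` specializes to the class of `y`. -/
def Sp (φ : Place K K') (x : S.X K) (y : S.X K') : Prop :=
  (S.L y → S.L x ∧ S.R φ x y) ∧ (¬ S.L y → S.Dd φ x)

open Classical in
variable (F) in
/-- The class of the specialization. -/
def sp (φ : Place K K') (x : S.X K) : S.Live K' →₀ F :=
  if h : ∃ y, S.L y ∧ S.R φ x y then S.cl F h.choose else 0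

variable {S S'}

theorem Sp.of_R {φ : Place K K'} {x : S.X K} {y : S.X K'} (hx : S.L x) (hy : S.L y)
    (h : S.R φ x y) : S.Sp φ x y := ⟨fun _ => ⟨hx, h⟩, fun h' => absurd hy h'⟩

theorem sp_of_R {φ : Place K K'} {x : S.X K} {y : S.X K'} (hx : S.L x) (hy : S.L y)
    (h : S.R φ x y) : S.sp F φ x = S.cl F y := by
  have h' : ∃ y, S.L y ∧ S.R φ x y := ⟨y, hy, h⟩
  rw [sp, dif_pos h', S.func φ x _ y hx h'.choose_spec.1 hy h'.choose_spec.2 h]

theorem sp_of_Dd {φ : Place K K'} {x : S.X K} (hx : S.L x) (h : S.Dd φ x) : S.sp F φ x = 0 :=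
  dif_neg fun ⟨y, h1, h2⟩ => h hx y h1 h2

theorem R_or_Dd (φ : Place K K') (x : S.X K) : (∃ y, S.L y ∧ S.R φ x y) ∨ S.Dd φ x := by
  by_cases h : ∃ y, S.L y ∧ S.R φ x y
  · exact .inl h
  · exact .inr fun _ y h1 h2 => h ⟨y, h1, h2⟩

variable (χ : Chr k F)

variable (S) in
/-- The part of the motive with compact support of the covering `y ^ p - y = f` on which the
Galois group acts through the character. -/
@[reducible] def E : Ob k F where
  V K := S.Live K →₀ F
  map φ := S.lf fun x => χ.cf φ (S.f x) • S.sp F φ x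
  map_id K := lin_ext fun x hx => by
    rw [lf_cl hx, Chr.cf_id, one_smul, sp_of_R hx hx ((S.id x x hx hx).2 rfl)]; rfl
  map_comp φ φ' := lin_ext fun x hx => by
    rw [LinearMap.comp_apply, lf_cl hx, lf_cl hx, map_smul]
    rcases R_or_Dd φ x with ⟨y, hy, h⟩ | h
    · rw [sp_of_R hx hy h, lf_cl hy]
      rcases R_or_Dd φ' y with ⟨z, hz, h'⟩ | h'
      · rw [sp_of_R hy hz h', sp_of_R hx hz ((S.comp φ φ' x z hx hz).2 ⟨y, hy, h, h'⟩),
          Chr.cf_comp (S.reg φ x y hx hy h) (S.reg φ' y z hy hz h'), mul_smul]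
      · rw [sp_of_Dd hy h', sp_of_Dd hx fun _ z hz h1 => by
          obtain ⟨y', h2, h3, h4⟩ := (S.comp φ φ' x z hx hz).1 h1
          exact h' hy z hz (S.func φ x y' y hx h2 hy h3 h ▸ h4)]
        simp
    · rw [sp_of_Dd hx h, sp_of_Dd hx fun _ z hz h1 => by
        obtain ⟨y', h2, h3, -⟩ := (S.comp φ φ' x z hx hz).1 h1
        exact h hx y' h2 h3]
      simp
  fin K v := by
    classical
    induction v using Finsupp.induction_linear with
    | zero => exact zero_mem _
    | add _ _ h1 h2 => exact add_mem h1 h2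
    | single x c =>
      rw [← Finsupp.smul_single_one, ← cl_live]
      obtain ⟨T, hT⟩ := S.fin x.1 x.2
      refine Submodule.smul_mem _ _ ⟨insert (S.f x.1) (insert (χ.rt (S.f x.1)) T),
        fun K' φ φ' h => ?_⟩
      have h' : ∀ s ∈ T, φ s = φ' s := fun s hs => h s (by simp [hs])
      rw [lf_cl x.2, lf_cl x.2]
      congr 1
      · simp only [Chr.cf, Place.val, h (S.f x.1) (by simp), h (χ.rt (S.f x.1)) (by simp)]
      · rcases R_or_Dd φ x.1 with ⟨y, hy, h1⟩ | h1
        · rw [sp_of_R x.2 hy h1, sp_of_R x.2 hy (hT _ φ φ' h' y hy h1)]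
        · rw [sp_of_Dd x.2 h1, sp_of_Dd x.2 fun _ y hy h2 =>
            h1 x.2 y hy (hT _ φ' φ (fun s hs => (h' s hs).symm) y hy h2)]

variable {χ}

theorem map_cl_Dd {φ : Place K K'} {x : S.X K} (h : S.Dd φ x) :
    (S.E χ).map φ (S.cl F x) = 0 := by
  by_cases hx : S.L x
  · rw [lf_cl hx, sp_of_Dd hx h, smul_zero]
  · rw [cl_dead hx, map_zero]

theorem map_cl {φ : Place K K'} {x : S.X K} {y : S.X K'} (h : S.Sp φ x y) :
    (S.E χ).map φ (S.cl F x) = χ.cf φ (S.f x) • S.cl F y := by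
  by_cases hy : S.L y
  · rw [lf_cl (h.1 hy).1, sp_of_R (h.1 hy).1 hy (h.1 hy).2]
  · rw [map_cl_Dd (h.2 hy), cl_dead hy, smul_zero]

theorem hom_ext {M : Ob k F} {f g : S.E χ ⟶ M}
    (h : ∀ (K : Fld k) (x : S.X K), S.L x → f.1 K (S.cl F x) = g.1 K (S.cl F x)) : f = g :=
  Ob.hom_ext fun K => lin_ext (h K)

variable (χ S) in
/-- Values on points that define a morphism. -/
structure IsLift (M : Ob k F) (c : ∀ ⦃K⦄, S.X K → M.V K) : Prop where
  sp : ∀ ⦃K K'⦄ (φ : Place K K') (x : S.X K) (y : S.X K'), S.L x → S.L y → S.R φ x y →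
    M.map φ (c x) = χ.cf φ (S.f x) • c y
  dead : ∀ ⦃K K'⦄ (φ : Place K K') (x : S.X K), S.L x → S.Dd φ x → M.map φ (c x) = 0

/-- The morphism with given values on points. -/
def IsLift.hom {M : Ob k F} {c : ∀ ⦃K⦄, S.X K → M.V K} (h : IsLift S χ M c) : S.E χ ⟶ M :=
  ⟨fun K => S.lf (@c K), fun K K' φ => lin_ext fun x hx => by
    rw [LinearMap.comp_apply, LinearMap.comp_apply, lf_cl (c := @c K) hx]
    rcases R_or_Dd φ x with ⟨y, hy, h1⟩ | h1
    · rw [map_cl (.of_R hx hy h1), map_smul, lf_cl hy, h.sp φ x y hx hy h1]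
    · rw [map_cl_Dd h1, map_zero, h.dead φ x hx h1]⟩

theorem IsLift.hom_cl {M : Ob k F} {c : ∀ ⦃K⦄, S.X K → M.V K} (h : IsLift S χ M c) {x : S.X K}
    (hx : S.L x) : h.hom.1 K (S.cl F x) = c x := lf_cl hx

variable (S S') in
/-- A map on points that induces a morphism; points with dead image are sent to zero. -/
structure IsMap (e : ∀ ⦃K⦄, S.X K → S'.X K) : Prop where
  f : ∀ ⦃K⦄ (x : S.X K), S.L x → S'.L (e x) → S'.f (e x) = S.f x
  sp : ∀ ⦃K K'⦄ (φ : Place K K') (x : S.X K) (y : S.X K'), S.L x → S.L y → S.R φ x y →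
    S'.Sp φ (e x) (e y)
  dead : ∀ ⦃K K'⦄ (φ : Place K K') (x : S.X K), S.L x → S.Dd φ x → S'.Dd φ (e x)

variable {e : ∀ ⦃K⦄, S.X K → S'.X K}

variable (χ) in
theorem IsMap.isLift (h : IsMap S S' e) : IsLift S χ (S'.E χ) fun _ x => S'.cl F (e x) where
  sp K K' φ x y hx hy h1 := by
    by_cases h2 : S'.L (e y)
    · rw [map_cl (h.sp φ x y hx hy h1), h.f x hx ((h.sp φ x y hx hy h1).1 h2).1]
    · rw [map_cl (h.sp φ x y hx hy h1), cl_dead h2, smul_zero, smul_zero]
  dead K K' φ x hx h1 := map_cl_Dd (h.dead φ x hx h1)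

variable (χ) in
/-- The morphism given by a map on points. -/
def IsMap.hom (h : IsMap S S' e) : S.E χ ⟶ S'.E χ := (h.isLift χ).hom

theorem IsMap.hom_cl (h : IsMap S S' e) {x : S.X K} (hx : S.L x) :
    (h.hom χ).1 K (S.cl F x) = S'.cl F (e x) := lf_cl hx

variable (S S') in
/-- A multivalued map on points that induces a morphism. -/
structure IsCor (m : ∀ ⦃K⦄, S.X K → Multiset (S'.X K)) : Prop where
  f : ∀ ⦃K⦄ (x : S.X K), S.L x → ∀ z ∈ m x, S'.L z → S'.f z = S.f x
  sp : ∀ ⦃K K'⦄ (φ : Place K K') (x : S.X K) (y : S.X K'), S.L x → S.L y → S.R φ x y →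
    Multiset.Rel (S'.Sp φ) (m x) (m y)
  dead : ∀ ⦃K K'⦄ (φ : Place K K') (x : S.X K), S.L x → S.Dd φ x → ∀ z ∈ m x, S'.Dd φ z

variable (F S) in
/-- The class of a multiset of points. -/
def cls (s : Multiset (S.X K)) : S.Live K →₀ F := (s.map (S.cl F)).sum

@[simp] theorem cls_zero : S.cls F (0 : Multiset (S.X K)) = 0 := rfl
@[simp] theorem cls_cons (x : S.X K) (s : Multiset (S.X K)) :
    S.cls F (x ::ₘ s) = S.cl F x + S.cls F s := by simp [cls]
@[simp] theorem cls_singleton (x : S.X K) : S.cls F {x} = S.cl F x := by simp [cls]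

theorem map_cls {φ : Place K K'} {s : Multiset (S.X K)} {t : Multiset (S.X K')} {b : K}
    (hf : ∀ z ∈ s, S.L z → S.f z = b) (h : Multiset.Rel (S.Sp φ) s t) :
    (S.E χ).map φ (S.cls F s) = χ.cf φ b • S.cls F t := by
  induction h with
  | zero => simp
  | @cons x y s t h1 _ ih =>
    rw [cls_cons, cls_cons, map_add, smul_add, ih fun z hz => hf z (by simp [hz]), map_cl h1]
    by_cases hy : S.L y
    · rw [hf x (by simp) (h1.1 hy).1]
    · rw [cl_dead hy, smul_zero, smul_zero]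

theorem map_cls_Dd {φ : Place K K'} {s : Multiset (S.X K)} (h : ∀ z ∈ s, S.Dd φ z) :
    (S.E χ).map φ (S.cls F s) = 0 := by
  induction s using Multiset.induction_on with
  | empty => simp
  | cons x s ih =>
    rw [cls_cons, map_add, map_cl_Dd (h x (by simp)), ih fun z hz => h z (by simp [hz]), add_zero]

variable {m : ∀ ⦃K⦄, S.X K → Multiset (S'.X K)}

variable (χ) in
theorem IsCor.isLift (h : IsCor S S' m) : IsLift S χ (S'.E χ) fun _ x => S'.cls F (m x) where
  sp _ _ φ x y hx hy h1 := map_cls (h.f x hx) (h.sp φ x y hx hy h1)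
  dead _ _ φ x hx h1 := map_cls_Dd (h.dead φ x hx h1)

variable (χ) in
/-- The morphism given by a multivalued map on points. -/
def IsCor.hom (h : IsCor S S' m) : S.E χ ⟶ S'.E χ := (h.isLift χ).hom

theorem IsCor.hom_cl (h : IsCor S S' m) {x : S.X K} (hx : S.L x) :
    (h.hom χ).1 K (S.cl F x) = S'.cls F (m x) := lf_cl hx

end Pt

end

end Pool.Agent.Lib.MP_fc2ced_ag.K
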