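import Pool.Agent.Lib.MP_fc2ced_ag.K.Th
import Pool.Agent.Lib.MP_fc2ced_ag.NReg

section

/-! Tensor powers in theories. -/

open CategoryTheory Function
open scoped TensorProduct

namespace Pool.Agent.Lib.MP_fc2ced_ag.K

noncomputable section

variable {k : Type} [Field k] {F : Type} [Field F]

open Ob

variable {M M' M'' N N' : Ob k F}

namespace Con
theorem of_bij {f : M ⟶ M'} (_ : Bij f) (_ : Con M') : Con M := trivial
protected theorem prod (_ : Con M) (_ : Con N) : Con (M.prod N) := trivial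
theorem uiso_iff {f : M ⟶ M'} (_ : UIso f) : Con M ↔ Con M' := Iff.rfl
protected theorem ten (_ : Con M) (_ : Con N) : Con (M.ten N) := trivial
protected theorem one : Con (one k F) := trivial
end Con

/-- Isomorphic objects. -/
def Eqv (M N : Ob k F) : Prop := ∃ f : M ⟶ N, Bij f

namespace Eqv

theorem refl (M : Ob k F) : Eqv M M := ⟨𝟙 M, .of_isIso _⟩
theorem symm (h : Eqv M N) : Eqv N M :=
  h.elim fun f hf => have := hf.isIso; ⟨inv f, .of_isIso _⟩
theorem trans (h : Eqv M M') (h' : Eqv M' M'') : Eqv M M'' :=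
  h.elim fun _ hf => h'.elim fun _ hg => ⟨_, hf.comp hg⟩
theorem ten (h : Eqv M M') (h' : Eqv N N') : Eqv (M.ten N) (M'.ten N') :=
  h.elim fun _ hf => h'.elim fun _ hg => ⟨_, hf.ten hg⟩
theorem swap (M N : Ob k F) : Eqv (M.ten N) (N.ten M) := ⟨_, bij_swap M N⟩
theorem assoc (M N P : Ob k F) : Eqv (M.ten (N.ten P)) ((M.ten N).ten P) := ⟨_, bij_assoc M N P⟩
theorem rid (M : Ob k F) : Eqv (M.ten (one k F)) M := ⟨_, bij_rid M⟩
theorem reidx (M : Ob k F) {α β : Type} [Finite α] [Finite β] (e : α ≃ β) :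
    Eqv (M.pow α) (M.pow β) := ⟨_, bij_reidx e⟩
theorem empty (M : Ob k F) (α : Type) [IsEmpty α] : Eqv (M.pow α) (one k F) := ⟨_, bij_emptyHom α⟩
theorem option (M : Ob k F) (α : Type) [Finite α] : Eqv (M.pow (Option α)) ((M.pow α).ten M) :=
  (symm ⟨_, bij_sumHom (Equiv.optionEquivSumPUnit.{0} α).symm⟩).trans
    ((refl _).ten ⟨_, bij_oneHom _⟩)
theorem con (h : Eqv M N) (h' : Con N) : Con M := h.elim fun _ hf => h'.of_bij hf

end Eqv

theorem pow_induction {P : Ob k F → Prop} (hE : ∀ M N, Eqv M N → P N → P M) (h1 : P (one k F))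
    (ht : ∀ N, P N → P (N.ten M)) (α : Type) [Finite α] : P (M.pow α) := by
  refine Finite.induction_empty_option (P := fun α => ∀ [Finite α], P (M.pow α))
    (fun e h _ => ?_) ?_ (fun h _ => ?_) α
  · have := Finite.of_equiv _ e.symm
    exact hE _ _ (.reidx M e.symm) h
  · exact fun {_} => hE _ _ (.empty M _) h1
  · exact hE _ _ (.option M _) (ht _ h)

protected theorem Con.pow (h : Con M) (α : Type) [Finite α] : Con (M.pow α) :=
  pow_induction (fun _ _ => Eqv.con) .one (fun _ h' => h'.ten h) α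

theorem UIso.pow {f : M ⟶ N} (hf : UIso f) (hM : Con M) (α : Type) [Finite α] :
    UIso (powMap fun _ : α => f) := by
  have hN := (Con.uiso_iff hf).1 hM
  refine Finite.induction_empty_option (P := fun α => ∀ [Finite α], UIso (powMap fun _ : α => f))
    (fun {α β} e h _ => ?_) ?_ (fun {α} _ h _ => ?_) α
  · have := Finite.of_equiv _ e.symm
    refine (bij_reidx e).uiso.of_comp_left ?_
    rw [reidx_nat]
    exact h.comp (bij_reidx e).uiso
  · intro _
    refine .of_comp_right (bij_emptyHom _).uiso ?_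
    rw [emptyHom_nat]; exact (bij_emptyHom _).uiso
  · refine (bij_sumHom (Equiv.optionEquivSumPUnit.{0} α).symm).uiso.of_comp_left ?_
    rw [sumHom_nat]
    refine .comp (h.ten₂ ?_ (hM.pow _) (hN.pow _)) (bij_sumHom _).uiso
    refine .of_comp_right (bij_oneHom _).uiso ?_
    rw [oneHom_nat]; exact (bij_oneHom _).uiso.comp hf

/-- The action of a linear combination of permutations. -/
def act (M : Ob k F) {α : Type} [Fintype α] [DecidableEq α] (r : Equiv.Perm α → F) :
    M.pow α ⟶ M.pow α := ∑ σ, r σ • reidx M σ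

theorem act_nat {α : Type} [Fintype α] [DecidableEq α] (r : Equiv.Perm α → F) (f : M ⟶ N) :
    act M r ≫ powMap (fun _ => f) = powMap (fun _ => f) ≫ act N r := by
  simp only [act, Preadditive.sum_comp, Preadditive.comp_sum, Linear.smul_comp, Linear.comp_smul,
    reidx_nat]

/-- An identity holds on every subset of the factors. -/
theorem Null.emb {α β : Type} [Finite α] [Fintype β] [DecidableEq β] (hM : Con M) (j : β ↪ α)
    (g : α → (M ⟶ N)) {r : Equiv.Perm β → F} (h : Null (powMap (fun b => g (j b)) ≫ act N r)) :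
    Null (powMap g ≫ ∑ s, r s • reidx N (s.viaEmbedding j)) := by
  classical
  let e : β ⊕ {a // a ∉ Set.range j} ≃ α :=
    ((Equiv.ofInjective j j.injective).sumCongr (.refl _)).trans (Equiv.sumCompl _)
  have he (s : Equiv.Perm β) : e.permCongr (s.sumCongr 1) = s.viaEmbedding j := by
    ext a
    obtain ⟨b | b, rfl⟩ := e.surjective a
    · rw [Equiv.permCongr_apply, e.symm_apply_apply]
      exact (Equiv.Perm.viaEmbedding_apply s j b).symm
    · rw [Equiv.permCongr_apply, e.symm_apply_apply]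
      exact (Equiv.Perm.viaEmbedding_apply_of_notMem s j _ b.2).symm
  refine .of_uiso_comp (bij_sumHom e).uiso ?_
  have e1 : sumHom N e ≫ ∑ s, r s • reidx N (s.viaEmbedding j) =
      tenMap (act N r) (𝟙 _) ≫ sumHom N e := by
    rw [← tenL_apply, act, map_sum, LinearMap.sum_apply, Preadditive.sum_comp,
      Preadditive.comp_sum]
    refine Finset.sum_congr rfl fun s _ => ?_
    rw [map_smul, LinearMap.smul_apply, Linear.smul_comp, Linear.comp_smul, tenL_apply,
      ← reidx_one, sumHom_reidx, he]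
  rw [← Category.assoc, sumHom_nat, Category.assoc, e1, ← Category.assoc, ← tenMap_comp]
  exact (h.ten₁ _ (hM.pow _)).comp _

end

end Pool.Agent.Lib.MP_fc2ced_ag.K
end

section

/-! Tools for Schur-finiteness: growth arguments, idempotents, and the filtration of a tensor
power defined by a subobject. -/

open CategoryTheory Function
open PiTensorProduct hiding tprod
open PiTensorProduct renaming tprod → tp
open scoped TensorProduct

set_option linter.unusedSectionVars false

namespace Pool.Agent.Lib.MP_fc2ced_ag.K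

noncomputable section

variable {k : Type} [Field k] {F : Type} [Field F]

open Ob

variable {M M' N : Ob k F}

namespace SFA

theorem exists_act {α β : Type} [Fintype α] [DecidableEq α] [Fintype β] [DecidableEq β]
    {φ : Equiv.Perm β → Equiv.Perm α} (hφ : Injective φ) {r : Equiv.Perm β → F} (hr : r ≠ 0) :
    ∃ r' : Equiv.Perm α → F, r' ≠ 0 ∧ ∀ M : Ob k F, act M r' = ∑ s, r s • reidx M (φ s) := by
  refine ⟨extend φ r 0, fun h => hr (funext fun s => ?_), fun M => ?_⟩
  · simpa [hφ.extend_apply] using congrFun h (φ s)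
  · refine (Fintype.sum_of_injective φ hφ _ _ (fun σ hσ => ?_) fun s => ?_).symm
    · rw [extend_apply' _ _ _ hσ]; simp
    · rw [hφ.extend_apply]

section Lin

variable {V : Type*} [AddCommGroup V] [Module F V]

theorem exists_rel {ι κ : Type} [Fintype ι] [Fintype κ] (P : Submodule F V) (u : ι → V)
    (t : κ → V) (hc : Fintype.card κ < Fintype.card ι)
    (h : ∀ i, u i ∈ Submodule.span F (Set.range t) ⊔ P) :
    ∃ r : ι → F, r ≠ 0 ∧ ∑ i, r i • u i ∈ P := by
  classical
  have hn : ¬ LinearIndependent F fun i => P.mkQ (u i) := fun hl => by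
    have := linearIndependent_le_span_aux' _ hl (Set.range fun j => P.mkQ (t j)) (by
      rintro _ ⟨i, rfl⟩
      obtain ⟨a, ha, b, hb, e⟩ := Submodule.mem_sup.1 (h i)
      have h1 := Submodule.mem_map_of_mem (f := P.mkQ) ha
      rw [Submodule.map_span, ← Set.range_comp] at h1
      change P.mkQ (u i) ∈ _
      rw [← e, map_add, show P.mkQ b = 0 from (Submodule.Quotient.mk_eq_zero _).2 hb, add_zero]
      exact h1)
    exact absurd (this.trans (Fintype.card_range_le _)) (not_le.2 hc)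
  obtain ⟨r, h1, i, hi⟩ := Fintype.not_linearIndependent_iff.1 hn
  refine ⟨r, fun e => hi (congrFun e i), (Submodule.Quotient.mk_eq_zero _).1 ?_⟩
  change P.mkQ _ = 0
  simpa only [map_sum, map_smul] using h1

theorem lower_of_rel' {d n : ℕ} (P : Submodule F V) (u : Equiv.Perm (Fin n) → V)
    (σ : Equiv.Perm (Fin n)) (T : Fin d ↪ Fin n) (h1 : StrictMono T)
    (h2 : StrictAnti fun a => σ (T a)) {r : Equiv.Perm (Fin d) → F} (hr : r ≠ 0)
    (h : ∀ π : Equiv.Perm (Fin n), ∑ s, r s • u (π * s.viaEmbedding T) ∈ P) :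
    u σ ∈ Submodule.span F (u '' {τ | Naive.LexLt τ σ}) ⊔ P := by
  obtain ⟨s₀, hs₀⟩ := Function.ne_iff.1 hr
  refine Naive.lower_of_rel P u σ T h1 h2 (fun τ => (r s₀)⁻¹ * r (s₀ * τ))
    (by rw [mul_one]; exact inv_mul_cancel₀ hs₀) ?_
  have h3 := P.smul_mem (r s₀)⁻¹ (h (σ * (s₀⁻¹).viaEmbedding T))
  rw [← Equiv.sum_comp (Equiv.mulLeft s₀), Finset.smul_sum] at h3
  refine Set.mem_of_eq_of_mem (s := (P : Set V)) (Finset.sum_congr rfl fun τ _ => Eq.symm ?_) h3
  rw [smul_smul, mul_assoc σ, ← Equiv.Perm.viaEmbeddingHom_apply,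
    ← Equiv.Perm.viaEmbeddingHom_apply, ← Equiv.Perm.viaEmbeddingHom_apply, ← map_mul]
  simp

end Lin

open Classical in
theorem card_good (d n : ℕ) :
    Fintype.card {σ : Equiv.Perm (Fin n) // Naive.Good d σ} ≤ (d ^ 2) ^ n := by
  rw [Fintype.card_subtype]
  exact Naive.card_good d n

theorem null_emb {α β : Type} [Finite α] [Fintype β] [DecidableEq β] (hM : Con M) (j : β ↪ α)
    (g : α → (M ⟶ N)) {r : Equiv.Perm β → F} (h : Null (powMap (fun b => g (j b)) ≫ act N r))
    (π : Equiv.Perm α) :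
    ∑ s, r s • (powMap g ≫ reidx N (π * s.viaEmbedding j)) ∈ nullSub (M.pow α) (N.pow α) := by
  have := (Null.emb hM j g h).comp (reidx N π)
  simp only [Preadditive.sum_comp, Preadditive.comp_sum, Linear.smul_comp, Linear.comp_smul,
    Category.assoc, ← reidx_mul] at this
  exact this

theorem span_good {d : ℕ} (hM : Con M) {r : Equiv.Perm (Fin d) → F} (hr : r ≠ 0)
    (h : Null (act M r)) {n : ℕ} (σ : Equiv.Perm (Fin n)) :
    reidx M σ ∈ Submodule.span F (reidx M '' {τ | Naive.Good d τ}) ⊔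
      nullSub (M.pow (Fin n)) (M.pow (Fin n)) :=
  Naive.span_good_of_rel _ (reidx M) r hr (fun π j => by
    simpa using null_emb hM j (fun _ => 𝟙 M) (h.precomp _) π) σ

/-- The action of the group algebra. -/
def actA (M : Ob k F) (α : Type) [Fintype α] [DecidableEq α] :
    MonoidAlgebra F (Equiv.Perm α) →ₐ[F] End (M.pow α) :=
  MonoidAlgebra.lift F _ _ ⟨⟨reidx M, reidx_one⟩, reidx_mul⟩

theorem actA_eq {α : Type} [Fintype α] [DecidableEq α] (x : MonoidAlgebra F (Equiv.Perm α)) :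
    actA M α x = act M x.coeff := by
  rw [actA, MonoidAlgebra.lift_apply, Finsupp.sum_fintype _ _ fun _ => by simp]
  rfl

theorem act_mul {α : Type} [Fintype α] [DecidableEq α] (x y : MonoidAlgebra F (Equiv.Perm α)) :
    act M (x * y).coeff = act M y.coeff ≫ act M x.coeff := by
  rw [← actA_eq, ← actA_eq, ← actA_eq, map_mul]
  rfl

theorem exists_idem [CharZero F] {α : Type} [Fintype α] [DecidableEq α] {r : Equiv.Perm α → F}
    (hr : r ≠ 0) (h : Null (act M r)) : ∃ e : Equiv.Perm α → F, e ≠ 0 ∧ Null (act M e) ∧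
      ∀ N : Ob k F, act N e ≫ act N e = act N e := by
  have : NeZero ((Nat.card (Equiv.Perm α) : ℕ) : F) := ⟨by
    have := Nat.card_pos (α := Equiv.Perm α)
    exact_mod_cast this.ne'⟩
  let x : MonoidAlgebra F (Equiv.Perm α) := .ofCoeff (Finsupp.equivFunOnFinite.symm r)
  obtain ⟨e, he, hI⟩ := IsSemisimpleRing.ideal_eq_span_idempotent (Ideal.span {x})
  obtain ⟨a, ha⟩ := Ideal.mem_span_singleton'.1 (hI ▸ Ideal.subset_span rfl : e ∈ Ideal.span {x})
  obtain ⟨b, hb⟩ := Ideal.mem_span_singleton'.1 (hI ▸ Ideal.subset_span rfl : x ∈ Ideal.span {e})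
  refine ⟨e.coeff, fun h0 => hr ?_, ?_, fun N => by rw [← act_mul, he.eq]⟩
  · have h1 : e = 0 := MonoidAlgebra.coeff_eq_zero.1 (DFunLike.coe_injective h0)
    rw [h1, mul_zero] at hb
    exact (congrArg (fun y : MonoidAlgebra F (Equiv.Perm α) => (y.coeff : _ → F)) hb).symm
  · rw [← ha, act_mul]
    exact h.comp _

section Piece

variable {U V W : Type} [AddCommGroup U] [Module F U] [AddCommGroup V] [Module F V]
  [AddCommGroup W] [Module F W] {α : Type} [Fintype α] [DecidableEq α]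

variable (α) in
/-- The sum over the subsets `S` of size `t` of the maps that are `f` on `S` and `g` off `S`. -/
def lpc (t : ℕ) (f g : U →ₗ[F] V) : (⨂[F] _ : α, U) →ₗ[F] ⨂[F] _ : α, V :=
  ∑ S ∈ Finset.powersetCard t Finset.univ,
    PiTensorProduct.map (S.piecewise (fun _ => f) fun _ => g)

theorem lpc_tp (t : ℕ) (f g : U →ₗ[F] V) (m : α → U) :
    lpc α t f g (tp F m) = ∑ S ∈ Finset.powersetCard t Finset.univ,
      tp F (S.piecewise (fun a => f (m a)) fun a => g (m a)) := by
  rw [lpc, LinearMap.sum_apply]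
  refine Finset.sum_congr rfl fun S _ => ?_
  rw [map_tprod]
  congr 1
  funext a
  by_cases ha : a ∈ S <;> simp [ha]

theorem lpc_map (t : ℕ) (f g : V →ₗ[F] W) (h : U →ₗ[F] V) :
    lpc α t f g ∘ₗ PiTensorProduct.map (fun _ => h) = lpc α t (f ∘ₗ h) (g ∘ₗ h) := by
  refine PiTensorProduct.ext (MultilinearMap.ext fun m => ?_)
  simp only [LinearMap.compMultilinearMap_apply, LinearMap.comp_apply, map_tprod, lpc_tp]

theorem exists_not_mem {S S' : Finset α} (hne : S' ≠ S) (hc : S'.card = S.card) :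
    ∃ a ∈ S, a ∉ S' := by
  by_contra h
  push Not at h
  exact hne (Finset.eq_of_subset_of_card_le h hc.le).symm

theorem lpc_comp (t : ℕ) (f' g' : V →ₗ[F] W) (f g : U →ₗ[F] V) (h : g' ∘ₗ f = 0) :
    lpc α t f' g' ∘ₗ lpc α t f g = lpc α t (f' ∘ₗ f) (g' ∘ₗ g) := by
  refine PiTensorProduct.ext (MultilinearMap.ext fun m => ?_)
  simp only [LinearMap.compMultilinearMap_apply, LinearMap.comp_apply, lpc_tp, map_sum]
  refine Finset.sum_congr rfl fun S hS => ?_
  rw [Finset.sum_eq_single_of_mem S hS]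
  · congr 1
    funext a
    by_cases ha : a ∈ S <;> simp [ha]
  · intro S' hS' hne
    obtain ⟨a, ha, ha'⟩ := exists_not_mem hne
      ((Finset.mem_powersetCard.1 hS').2.trans (Finset.mem_powersetCard.1 hS).2.symm)
    refine (tp F).map_coord_zero a ?_
    simpa [ha, ha'] using congr($h (m a))

variable (α) in
/-- The span of the pure tensors with at least `t` entries in `P`. -/
def fil (t : ℕ) (P : Submodule F V) : Submodule F (⨂[F] _ : α, V) :=
  Submodule.span F {x | ∃ (m : α → V) (S : Finset α), t ≤ S.card ∧ (∀ a ∈ S, m a ∈ P) ∧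
    x = tp F m}

theorem tp_mem_fil {t : ℕ} {P : Submodule F V} {m : α → V} {S : Finset α} (h : t ≤ S.card)
    (hm : ∀ a ∈ S, m a ∈ P) : tp F m ∈ fil α t P := Submodule.subset_span ⟨m, S, h, hm, rfl⟩

theorem map_mem_of_tp (φ : (⨂[F] _ : α, U) →ₗ[F] W) (Q : Submodule F W)
    (h : ∀ m, φ (tp F m) ∈ Q) (v : ⨂[F] _ : α, U) : φ v ∈ Q := by
  induction v using PiTensorProduct.induction_on with
  | smul_tprod c m => rw [map_smul]; exact Q.smul_mem c (h m)
  | add x y hx hy => rw [map_add]; exact add_mem hx hy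

theorem map_mem_of_fil {t : ℕ} {P : Submodule F V} (φ : (⨂[F] _ : α, V) →ₗ[F] W)
    (Q : Submodule F W) (h : ∀ (m : α → V) (S : Finset α), t ≤ S.card → (∀ a ∈ S, m a ∈ P) →
      φ (tp F m) ∈ Q) {v : ⨂[F] _ : α, V} (hv : v ∈ fil α t P) : φ v ∈ Q := by
  refine (Submodule.span_le.2 ?_ : fil α t P ≤ Q.comap φ) hv
  rintro _ ⟨m, S, h1, h2, rfl⟩
  exact h m S h1 h2

theorem fil_zero (P : Submodule F V) (v : ⨂[F] _ : α, V) : v ∈ fil α 0 P :=
  map_mem_of_tp .id _ (fun _ => tp_mem_fil (S := ∅) le_rfl (by simp)) v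

theorem fil_top {t : ℕ} (ht : Fintype.card α < t) (P : Submodule F V) {v : ⨂[F] _ : α, V}
    (hv : v ∈ fil α t P) : v = 0 :=
  map_mem_of_fil .id ⊥ (fun _ S h _ => absurd (h.trans S.card_le_univ) (not_le.2 ht)) hv

theorem lpc_mem (t : ℕ) {P : Submodule F V} {f : U →ₗ[F] V} (hf : ∀ u, f u ∈ P) (g : U →ₗ[F] V)
    (v : ⨂[F] _ : α, U) : lpc α t f g v ∈ fil α t P :=
  map_mem_of_tp _ _ (fun m => by
    rw [lpc_tp]
    exact Submodule.sum_mem _ fun S hS => tp_mem_fil (Finset.mem_powersetCard.1 hS).2.ge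
      fun a ha => by simpa [ha] using hf _) v

theorem lpc_sub_mem (t : ℕ) {P : Submodule F V} {f : U →ₗ[F] V} (hf : ∀ u, f u ∈ P)
    {g g' : U →ₗ[F] V} (hg : ∀ u, g u - g' u ∈ P) (v : ⨂[F] _ : α, U) :
    lpc α t f g v - lpc α t f g' v ∈ fil α (t + 1) P := by
  refine map_mem_of_tp (lpc α t f g - lpc α t f g') _ (fun m => ?_) v
  rw [LinearMap.sub_apply, lpc_tp, lpc_tp, ← Finset.sum_sub_distrib]
  refine Submodule.sum_mem _ fun S hS => ?_
  have e : S.piecewise (fun a => f (m a)) (fun a => g (m a)) =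
      S.piecewise 0 (fun a => g (m a) - g' (m a)) +
        S.piecewise (fun a => f (m a)) fun a => g' (m a) := by
    funext a
    by_cases ha : a ∈ S <;> simp [ha]
  rw [e, (tp F).map_add_univ, ← Finset.add_sum_erase _ _ (Finset.mem_univ ∅),
    Finset.piecewise_empty, add_sub_cancel_left]
  refine Submodule.sum_mem _ fun S' hS' => ?_
  obtain ⟨a, ha⟩ := Finset.nonempty_iff_ne_empty.2 (Finset.ne_of_mem_erase hS')
  by_cases haS : a ∈ S
  · rw [(tp F).map_coord_zero a (by simp [ha, haS])]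
    exact zero_mem _
  · refine tp_mem_fil (S := insert a S) ?_ fun b hb => ?_
    · rw [Finset.card_insert_of_notMem haS, (Finset.mem_powersetCard.1 hS).2]
    · by_cases h1 : b ∈ S' <;> by_cases h2 : b ∈ S
      · simp [h1, h2]
      · simpa [h1, h2] using hg _
      · simpa [h1, h2] using hf _
      · rcases Finset.mem_insert.1 hb with rfl | hb
        · exact absurd ha h1
        · exact absurd hb h2

theorem lpc_surj (t : ℕ) (i : U →ₗ[F] V) {v : ⨂[F] _ : α, V}
    (hv : v ∈ fil α t (LinearMap.range i)) :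
    v ∈ LinearMap.range (lpc α t (i ∘ₗ .fst F U V) (.snd F U V)) := by
  refine map_mem_of_fil .id _ (fun m S h1 h2 => ?_) hv
  obtain ⟨S', h3, h4⟩ := Finset.exists_subset_card_eq h1
  choose! w hw using h2
  refine ⟨tp F (S'.piecewise (fun a => (w a, 0)) fun a => (0, m a)), ?_⟩
  rw [lpc_tp, Finset.sum_eq_single_of_mem S' (Finset.mem_powersetCard.2 ⟨S'.subset_univ, h4⟩)]
  · change _ = tp F m
    congr 1
    funext a
    by_cases ha : a ∈ S'
    · simpa [ha] using hw a (h3 ha)
    · simp [ha]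
  · intro S'' hS hne
    obtain ⟨a, ha, ha'⟩ := exists_not_mem hne ((Finset.mem_powersetCard.1 hS).2.trans h4.symm)
    exact (tp F).map_coord_zero a (by simp [ha, ha'])

end Piece

section PieceOb

variable {α : Type} [Fintype α] [DecidableEq α]

variable (α) in
/-- The morphism version of `lpc`. -/
def pc (t : ℕ) (f g : M ⟶ N) : M.pow α ⟶ N.pow α :=
  ∑ S ∈ Finset.powersetCard t Finset.univ, powMap (S.piecewise (fun _ => f) fun _ => g)

theorem pc_app (t : ℕ) (f g : M ⟶ N) (O : Fld k) :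
    (pc α t f g).1 O = lpc α t (f.1 O) (g.1 O) := by
  rw [pc, sum_app, lpc]
  refine Finset.sum_congr rfl fun S _ => ?_
  rw [powMap_app]
  congr 1
  funext a
  by_cases ha : a ∈ S <;> simp [ha]

theorem reidx_pc (t : ℕ) (f g : M ⟶ N) (σ : Equiv.Perm α) :
    reidx M σ ≫ pc α t f g = pc α t f g ≫ reidx N σ := by
  rw [pc, Preadditive.comp_sum, Preadditive.sum_comp]
  refine Finset.sum_equiv σ.symm.finsetCongr (fun S => by simp) fun S _ => ?_
  rw [reidx_nat]
  congr 2
  funext a
  by_cases ha : σ a ∈ S <;> simp [ha]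

theorem act_pc (t : ℕ) (f g : M ⟶ N) (r : Equiv.Perm α → F) :
    act M r ≫ pc α t f g = pc α t f g ≫ act N r := by
  simp only [act, Preadditive.sum_comp, Linear.smul_comp, reidx_pc]
  simp only [Preadditive.comp_sum, Linear.comp_smul]

variable (α) in
/-- The filtration of a tensor power by the number of factors in the image of `i`. -/
def Fil (t : ℕ) (i : M ⟶ N) : Sub (N.pow α) where
  S O := fil α t (LinearMap.range (i.1 O))
  map_mem g _ hv := map_mem_of_fil _ _ (fun m S h1 h2 => by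
    rw [map_tprod]
    exact tp_mem_fil h1 fun a ha => (range i).map_mem g _ (h2 a ha)) hv

end PieceOb

end SFA

end

end Pool.Agent.Lib.MP_fc2ced_ag.K
end

section

/-! Schur-finite objects: retracts, sums, tensor products, extensions. -/

open CategoryTheory Function

namespace Pool.Agent.Lib.MP_fc2ced_ag.K

noncomputable section

variable {k : Type} [Field k] {F : Type} [Field F]

open Ob

variable {M M' N : Ob k F}

/-- A nonzero combination of permutations kills a tensor power, in all theories. -/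
def SF (M : Ob k F) : Prop :=
  ∃ (d : ℕ) (r : Equiv.Perm (Fin d) → F), r ≠ 0 ∧ Null (act M r)

namespace SF

open SFA

theorem of_fintype {α : Type} [Fintype α] [DecidableEq α] {r : Equiv.Perm α → F} (hr : r ≠ 0)
    (h : Null (act M r)) : SF M := by
  let e := Fintype.equivFin α
  obtain ⟨r', h1, h2⟩ := exists_act (k := k) e.permCongr.injective hr
  refine ⟨_, r', h1, ?_⟩
  have h3 : act M r' = reidx M e.symm ≫ act M r ≫ reidx M e := by
    rw [h2]
    simp only [act, Preadditive.sum_comp, Preadditive.comp_sum, Linear.smul_comp,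
      Linear.comp_smul, reidx_comp]
    rfl
  rw [h3]
  exact (h.comp _).precomp _

theorem of_inj {α β : Type} [Fintype α] [DecidableEq α] [Fintype β] [DecidableEq β]
    {φ : Equiv.Perm β → Equiv.Perm α} (hφ : Injective φ) {r : Equiv.Perm β → F} (hr : r ≠ 0)
    (h : Null (∑ s, r s • reidx M (φ s))) : SF M := by
  obtain ⟨r', h1, h2⟩ := exists_act (k := k) hφ hr
  exact of_fintype h1 (h2 M ▸ h)

/-- The degree can be taken positive. -/
theorem exists_pos (h : SF M) (hM : Con M) :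
    ∃ (d : ℕ) (r : Equiv.Perm (Fin d) → F), 0 < d ∧ r ≠ 0 ∧ Null (act M r) := by
  obtain ⟨d, r, hr, h⟩ := h
  obtain ⟨r', h1, h2⟩ := exists_act (k := k)
    (Equiv.Perm.viaEmbeddingHom_injective (Fin.castSuccEmb (n := d))) hr
  refine ⟨d + 1, r', d.succ_pos, h1, ?_⟩
  rw [h2]
  simpa [Equiv.Perm.viaEmbeddingHom_apply] using
    Null.emb hM Fin.castSuccEmb (fun _ => 𝟙 M) (h.precomp _)

theorem retract (h : SF M) (hM : Con M') {s : M' ⟶ M} {p : M ⟶ M'} (e : UIso (s ≫ p)) :
    SF M' := by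
  obtain ⟨d, r, hr, h⟩ := h
  refine ⟨d, r, hr, .of_uiso_comp (e.pow hM (Fin d)) ?_⟩
  rw [← powMap_comp, Category.assoc, ← act_nat]
  exact (h.comp _).precomp _

theorem uiso_iff {f : M ⟶ N} (hf : UIso f) (hM : Con M) : SF M ↔ SF N :=
  exists₂_congr fun d r => and_congr_right fun _ =>
    ⟨fun h => .of_uiso_comp (hf.pow hM (Fin d)) (act_nat r f ▸ h.comp _),
      fun h => .of_comp_uiso (hf.pow hM (Fin d)) (act_nat r f ▸ h.precomp _)⟩

theorem of_uzero (h : UZero M) : SF M :=
  ⟨1, 1, one_ne_zero, ((bij_oneHom (Fin 1)).uiso.uzero_iff.2 h).null_left _⟩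

theorem tenPow_act {α : Type} [Fintype α] [DecidableEq α] (r : Equiv.Perm α → F) :
    (∑ s, r s • tenMap (reidx M s) (reidx N s)) ≫ tenPow M N α =
      tenPow M N α ≫ act (M.ten N) r := by
  simp only [act, Preadditive.sum_comp, Preadditive.comp_sum, Linear.smul_comp, Linear.comp_smul,
    tenPow_reidx]

theorem sq (h : SF (M.ten M)) : SF M := by
  obtain ⟨d, r, hr, h⟩ := h
  have h1 : Null (∑ s, r s • tenMap (reidx M s) (reidx M s)) :=
    .of_comp_uiso bij_tenPow.uiso (by rw [tenPow_act]; exact h.precomp _)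
  refine of_inj (φ := fun s => (Equiv.refl _).permCongr (s.sumCongr s)) (fun s t hst => ?_) hr
    (.of_uiso_comp (bij_sumHom (Equiv.refl _)).uiso ?_)
  · ext a
    have := congrArg (fun σ : Equiv.Perm (Fin d ⊕ Fin d) => σ (.inl a)) hst
    simp only [Equiv.permCongr_apply, Equiv.refl_symm, Equiv.refl_apply, Equiv.sumCongr_apply,
      Sum.map_inl, Sum.inl.injEq] at this
    rw [this]
  · have := h1.comp (sumHom M (Equiv.refl _))
    simp only [Preadditive.sum_comp, Linear.smul_comp, sumHom_reidx] at this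
    simpa only [Preadditive.comp_sum, Linear.comp_smul] using this

protected theorem ten (hM : Con M) (hN : Con N) (h : SF M) (h' : SF N) : SF (M.ten N) := by
  classical
  obtain ⟨d, r, hr, h⟩ := h
  obtain ⟨d', r', hr', h'⟩ := h'
  obtain ⟨n, -, hn⟩ := Naive.exists_pow_lt_factorial (d ^ 2 * d' ^ 2)
  obtain ⟨c, hc, h1⟩ := exists_rel (nullSub ((M.pow (Fin n)).ten (N.pow (Fin n))) _)
    (fun s : Equiv.Perm (Fin n) => tenMap (reidx M s) (reidx N s))
    (fun g : {σ : Equiv.Perm (Fin n) // Naive.Good d σ} ×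
      {σ : Equiv.Perm (Fin n) // Naive.Good d' σ} => tenMap (reidx M g.1.1) (reidx N g.2.1))
    (by
      rw [Fintype.card_prod, Fintype.card_perm, Fintype.card_fin]
      refine lt_of_le_of_lt (Nat.mul_le_mul (card_good d n) (card_good d' n)) ?_
      rwa [← mul_pow])
    (fun s => by
      obtain ⟨a, ha, a', ha', e⟩ := Submodule.mem_sup.1 (span_good hM hr h s)
      obtain ⟨b, hb, b', hb', e'⟩ := Submodule.mem_sup.1 (span_good hN hr' h' s)
      rw [← e', ← tenL_apply, map_add]
      refine add_mem ?_ (Submodule.mem_sup_right (Null.ten₂ hb' _ (hM.pow _)))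
      rw [← e, map_add, LinearMap.add_apply]
      refine add_mem (Submodule.mem_sup_left ?_)
        (Submodule.mem_sup_right (Null.ten₁ ha' _ (hN.pow _)))
      have := Submodule.apply_mem_map₂ tenL ha hb
      rw [Submodule.map₂_span_span] at this
      refine Submodule.span_mono ?_ this
      rintro _ ⟨_, ⟨g, hg, rfl⟩, _, ⟨g', hg', rfl⟩, rfl⟩
      exact ⟨(⟨g, hg⟩, ⟨g', hg'⟩), rfl⟩)
  exact ⟨n, c, hc, .of_uiso_comp bij_tenPow.uiso (by rw [← tenPow_act]; exact Null.comp h1 _)⟩

protected theorem prod (hM : Con M) (hN : Con N) (h : SF M) (h' : SF N) : SF (M.prod N) := by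
  classical
  obtain ⟨d, r, hr, h⟩ := h
  obtain ⟨d', r', hr', h'⟩ := h'
  obtain ⟨n, -, hn⟩ := Naive.exists_pow_lt_factorial (2 * (d + d') ^ 2)
  let P : Finset (Fin n) → ((M.prod N).pow (Fin n) ⟶ (M.prod N).pow (Fin n)) := fun S =>
    powMap (S.piecewise (fun _ => fst M N ≫ inl M N) fun _ => snd M N ≫ inr M N)
  have hP : ∑ S, P S = 𝟙 _ := by
    rw [← powMap_add, ← powMap_id]
    exact congrArg powMap (funext fun _ => prod_total)
  have key : ∀ (S : Finset (Fin n)) (σ : Equiv.Perm (Fin n)), P S ≫ reidx _ σ ∈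
      Submodule.span F ((fun τ => P S ≫ reidx _ τ) '' {τ | Naive.Good (d + d') τ}) ⊔
        nullSub _ _ := by
    intro S
    refine Naive.straighten _ (fun τ => P S ≫ reidx _ τ) fun σ hσ => ?_
    simp only [Naive.Good, not_forall, not_lt] at hσ
    obtain ⟨t, ht, hc⟩ := hσ
    have h1 := Finset.card_filter_add_card_filter_not (s := t) (· ∈ S)
    rcases (show d ≤ (t.filter (· ∈ S)).card ∨ d' ≤ (t.filter (· ∉ S)).card by omega) with h2 | h2
    · obtain ⟨T, h3, h4, h5⟩ := Naive.exists_emb σ _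
        (ht.mono (Finset.coe_subset.2 (Finset.filter_subset _ _))) h2
      refine lower_of_rel' _ _ σ T h3 h4 hr (null_emb (hM.prod hN) T _ ?_)
      rw [show (fun b => S.piecewise (fun _ => fst M N ≫ inl M N) (fun _ => snd M N ≫ inr M N)
        (T b)) = fun _ => fst M N ≫ inl M N from funext fun b =>
          S.piecewise_eq_of_mem _ _ (Finset.mem_filter.1 (h5 b)).2, ← powMap_comp,
        Category.assoc, ← act_nat]
      exact (h.comp _).precomp _
    · obtain ⟨T, h3, h4, h5⟩ := Naive.exists_emb σ _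
        (ht.mono (Finset.coe_subset.2 (Finset.filter_subset _ _))) h2
      refine lower_of_rel' _ _ σ T h3 h4 hr' (null_emb (hM.prod hN) T _ ?_)
      rw [show (fun b => S.piecewise (fun _ => fst M N ≫ inl M N) (fun _ => snd M N ≫ inr M N)
        (T b)) = fun _ => snd M N ≫ inr M N from funext fun b =>
          S.piecewise_eq_of_notMem _ _ (Finset.mem_filter.1 (h5 b)).2, ← powMap_comp,
        Category.assoc, ← act_nat]
      exact (h'.comp _).precomp _
  obtain ⟨c, hc, h1⟩ := exists_rel (nullSub ((M.prod N).pow (Fin n)) _)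
    (fun s : Equiv.Perm (Fin n) => reidx (M.prod N) s)
    (fun g : Finset (Fin n) × {σ : Equiv.Perm (Fin n) // Naive.Good (d + d') σ} =>
      P g.1 ≫ reidx _ g.2.1)
    (by
      rw [Fintype.card_prod, Fintype.card_perm, Fintype.card_finset, Fintype.card_fin]
      refine lt_of_le_of_lt (Nat.mul_le_mul_left _ (card_good (d + d') n)) ?_
      rwa [← mul_pow])
    (fun s => by
      rw [← Category.id_comp (reidx _ s), ← hP, Preadditive.sum_comp]
      refine Submodule.sum_mem _ fun S _ => ?_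
      obtain ⟨a, ha, a', ha', e⟩ := Submodule.mem_sup.1 (key S s)
      rw [← e]
      refine add_mem (Submodule.mem_sup_left (Submodule.span_mono ?_ ha))
        (Submodule.mem_sup_right ha')
      rintro _ ⟨g, hg, rfl⟩
      exact ⟨(S, ⟨g, hg⟩), rfl⟩)
  exact ⟨n, c, hc, h1⟩

/-- On each graded piece of the filtration the action factors through the split object. -/
theorem null_graded {M₁ M₂ M₃ : Ob k F} {i : M₁ ⟶ M₂} {p : M₂ ⟶ M₃} (T : Ses i p) {α : Type}
    [Fintype α] [DecidableEq α] {e : Equiv.Perm α → F} (he : Null (act (M₁.prod M₃) e)) (t : ℕ) :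
    Null ((Fil α t i).incl ≫ act M₂ e ≫ (Fil α (t + 1) i).proj) := by
  let A := pc α t (fst M₁ M₂ ≫ i) (snd M₁ M₂)
  let B := pc α t (fst M₁ M₂ ≫ inl M₁ M₃) (snd M₁ M₂ ≫ p ≫ inr M₁ M₃)
  let b := fst M₁ M₂ ≫ inl M₁ M₃ + snd M₁ M₂ ≫ p ≫ inr M₁ M₃
  choose r s hr hs hrs using T.exists_split
  have hr' O v : r O (i.1 O v) = v := congr($(hr O) v)
  have hs' O v : p.1 O (s O v) = v := congr($(hs O) v)
  have hp O v : p.1 O (i.1 O v) = 0 := (T.exact O).apply_apply_eq_zero v
  let A' := (Fil α t i).lift A fun O v => by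
    rw [pc_app]
    exact lpc_mem t (P := LinearMap.range (i.1 O)) (fun u => ⟨u.1, rfl⟩) _ v
  have hA' : Surj A' := fun O v => by
    obtain ⟨w, hw⟩ := lpc_surj t (i.1 O) v.2
    exact ⟨w, Subtype.ext ((congr($(pc_app t (fst M₁ M₂ ≫ i) (snd M₁ M₂) O) w)).trans hw)⟩
  obtain ⟨lam, hlam⟩ := hA'.desc B fun O v hv => by
    have h1 : A.1 O v = 0 := congrArg Subtype.val hv
    have h2 := lpc_comp (α := α) t (LinearMap.inl F (M₁.V O) (M₃.V O) ∘ₗ r O)
      (LinearMap.inr F (M₁.V O) (M₃.V O) ∘ₗ p.1 O)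
      ((fst M₁ M₂ ≫ i).1 O) ((snd M₁ M₂).1 O) (by ext <;> simp [hp])
    rw [← pc_app, show (LinearMap.inl F (M₁.V O) (M₃.V O) ∘ₗ r O) ∘ₗ (fst M₁ M₂ ≫ i).1 O =
      (fst M₁ M₂ ≫ inl M₁ M₃).1 O by ext <;> simp [hr'],
      show (LinearMap.inr F (M₁.V O) (M₃.V O) ∘ₗ p.1 O) ∘ₗ (snd M₁ M₂).1 O =
        (snd M₁ M₂ ≫ p ≫ inr M₁ M₃).1 O from rfl, ← pc_app] at h2
    rw [← h2, LinearMap.comp_apply, h1, map_zero]
  have hb : Surj (powMap fun _ : α => b) := fun O v =>
    ⟨PiTensorProduct.map (fun _ => (LinearMap.id : M₁.V O →ₗ[F] _).prodMap (s O)) v, by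
      rw [powMap_app, ← LinearMap.comp_apply, ← PiTensorProduct.map_comp,
        show (fun _ : α => b.1 O ∘ₗ (LinearMap.id : M₁.V O →ₗ[F] _).prodMap (s O)) =
          fun _ => LinearMap.id from funext fun _ => by ext <;> simp [b, hs'],
        PiTensorProduct.map_id]
      rfl⟩
  let C O := lpc α t (i.1 O ∘ₗ .fst F (M₁.V O) (M₃.V O)) (s O ∘ₗ .snd F (M₁.V O) (M₃.V O))
  let D O := lpc α t ((fst M₁ M₂ ≫ i).1 O) (s O ∘ₗ p.1 O ∘ₗ .snd F (M₁.V O) (M₂.V O))
  have hD O v : (A ≫ (Fil α (t + 1) i).proj).1 O v = (Fil α (t + 1) i).proj.1 O (D O v) := by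
    refine (Submodule.Quotient.eq _).2 ?_
    rw [pc_app]
    refine lpc_sub_mem t (P := LinearMap.range (i.1 O)) (fun u => ⟨u.1, rfl⟩)
      (fun u => ⟨r O u.2, ?_⟩) v
    exact eq_sub_of_add_eq congr($(hrs O) u.2)
  have hC1 O v : C O ((powMap fun _ : α => b).1 O v) = D O v := by
    rw [powMap_app, ← LinearMap.comp_apply, lpc_map]
    congr 2 <;> ext <;> simp [b]
  have hC2 O v : C O (B.1 O v) = D O v := by
    rw [pc_app, ← LinearMap.comp_apply, lpc_comp _ _ _ _ _ (by ext <;> simp)]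
    congr 2
  obtain ⟨kap, hkap⟩ := hb.desc (A ≫ (Fil α (t + 1) i).proj) fun O v hv => by
    rw [hD, ← hC1, hv, map_zero, map_zero]
  have hB : B ≫ kap = A ≫ (Fil α (t + 1) i).proj := hom_ext fun O => LinearMap.ext fun v => by
    obtain ⟨w, hw⟩ := hb O (B.1 O v)
    rw [Ob.comp_apply, ← hw, ← Ob.comp_apply, hkap, hD, hD, ← hC1, hw, hC2]
  have key : (Fil α t i).incl ≫ act M₂ e ≫ (Fil α (t + 1) i).proj =
      lam ≫ act (M₁.prod M₃) e ≫ kap := hA'.cancel (by
    rw [← Category.assoc, ← Category.assoc, Sub.lift_incl, ← act_pc, Category.assoc, ← hB,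
      ← Category.assoc, act_pc, ← Category.assoc A', hlam, Category.assoc])
  rw [key]
  exact (he.comp _).precomp _

theorem ses₂ [CharZero F] {M₁ M₂ M₃ : Ob k F} {i : M₁ ⟶ M₂} {p : M₂ ⟶ M₃} (T : Ses i p)
    (c₁ : Con M₁) (c₃ : Con M₃) (h₁ : SF M₁) (h₃ : SF M₃) : SF M₂ := by
  obtain ⟨n, r, hr, h⟩ := SF.prod c₁ c₃ h₁ h₃
  obtain ⟨e, he, h1, h2⟩ := exists_idem hr h
  have key : ∀ j t, n + 1 = t + j → Null ((Fil (Fin n) t i).incl ≫ act M₂ e) := by
    intro j
    induction j with
    | zero =>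
      intro t ht
      have h0 : (Fil (Fin n) t i).incl = 0 := hom_ext fun O => LinearMap.ext fun v =>
        fil_top (by rw [Fintype.card_fin]; omega) _ v.2
      rw [h0, Limits.zero_comp]
      exact .zero
    | succ j ih =>
      intro t ht
      have := (Fil (Fin n) (t + 1) i).ses.null_of_i (ih (t + 1) (by omega))
        (g := (Fil (Fin n) t i).incl ≫ act M₂ e)
        (by rw [Category.assoc]; exact null_graded T h1 t)
      rwa [Category.assoc, h2] at this
  refine ⟨n, e, he, .of_uiso_comp (Bij.uiso (f := (Fil (Fin n) 0 i).incl) fun O =>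
    ⟨(Fil (Fin n) 0 i).ses.inj O, fun v => ⟨⟨v, fil_zero _ v⟩, rfl⟩⟩) (key (n + 1) 0 (by omega))⟩

end SF

end

end Pool.Agent.Lib.MP_fc2ced_ag.K
end

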