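import Mathlib

/-! Periodic linear recurrences and their spaces of solutions: definitions. -/

open Module Polynomial

namespace Pool.Agent.Lib.MP_fc2ced_ag.K

noncomputable section

variable {K : Type} [Field K]

/-- Doubly infinite sequences. -/
abbrev Sq (K : Type) := ℤ → K

/-- Spaces of sequences. -/
abbrev Sp (K : Type) [Field K] := Submodule K (Sq K)

variable (K) in
/-- The shift by the period: `sh y i = y (i - n)`. -/
def sh (n : ℕ) : Sq K ≃ₗ[K] Sq K := LinearEquiv.funCongrLeft K K (Equiv.subRight (n : ℤ))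

@[simp] theorem sh_apply (n : ℕ) (y : Sq K) (i : ℤ) : sh K n y i = y (i - n) := rfl
@[simp] theorem sh_symm_apply (n : ℕ) (y : Sq K) (i : ℤ) : (sh K n).symm y i = y (i + n) := rfl

/-- The difference operator of order `w` with coefficients `g`. -/
def op (w : ℕ) (g : ℤ → ℕ → K) : Sq K →ₗ[K] Sq K where
  toFun y i := ∑ l ∈ Finset.range (w + 1), g i l * y (i + l)
  map_add' y z := funext fun i => by simp [mul_add, Finset.sum_add_distrib]
  map_smul' c y := funext fun i => by simp [Finset.mul_sum, mul_left_comm]

theorem op_apply (w : ℕ) (g : ℤ → ℕ → K) (y : Sq K) (i : ℤ) :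
    op w g y i = ∑ l ∈ Finset.range (w + 1), g i l * y (i + l) := rfl

/-- Periodic coefficients with first coefficient one and nonzero last coefficient. -/
structure Band (n w : ℕ) (g : ℤ → ℕ → K) : Prop where
  per : ∀ i l, g (i + n) l = g i l
  one : ∀ i, g i 0 = 1
  top : ∀ i, g i w ≠ 0
  zero : ∀ i l, w < l → g i l = 0

/-- The solutions of the recurrence. -/
def Sol (w : ℕ) (g : ℤ → ℕ → K) : Sp K := LinearMap.ker (op w g)

/-- Relevant spaces of sequences. -/
def Rel (n w : ℕ) (U : Sp K) : Prop := ∃ g, Band n w g ∧ U = Sol w g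

open Classical in
/-- The recurrence of a relevant space. -/
def coef (n w : ℕ) (U : Sp K) : ℤ → ℕ → K := if h : Rel n w U then h.choose else 0

/-- The function on relevant spaces whose exponential sums are studied. -/
def fU (n w : ℕ) (U : Sp K) : K := -∑ i ∈ Finset.range n, coef n w U i 1

/-- Finite dimensional spaces that are invariant under the shift. -/
structure Stab (n : ℕ) (U : Sp K) : Prop where
  fin : FiniteDimensional K U
  mem : ∀ y ∈ U, sh K n y ∈ U

open Classical in
/-- The characteristic polynomial of the shift. -/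
def chi (n : ℕ) (U : Sp K) : K[X] :=
  if h : Stab n U then have := h.fin; ((sh K n).toLinearMap.restrict h.mem).charpoly else 1

/-- The coefficients of the composition of two operators: first `g`, then `g'`. -/
def conv (g g' : ℤ → ℕ → K) (i : ℤ) (m : ℕ) : K :=
  ∑ a ∈ Finset.range (m + 1), g' i a * g (i + a) (m - a)

/-- The operator of order one `y i - x i * y (i + 1)`, for `x` of period `n`. -/
def wh {n : ℕ} [NeZero n] (x : Fin n → K) (i : ℤ) (l : ℕ) : K :=
  if l = 0 then 1 else if l = 1 then -x (Fin.intCast i) else 0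

/-- Incomplete flags of invariant subspaces, of type `I`, of a relevant space of dimension `w`. -/
structure Flag (n w : ℕ) (I : Finset ℕ) (F : ℕ → Sp K) : Prop where
  rel : Rel n w (F w)
  stab : ∀ i ∈ I, Stab n (F i)
  rank : ∀ i ∈ I, finrank K (F i) = i
  le_top : ∀ i ∈ I, F i ≤ F w
  mono : ∀ i ∈ I, ∀ j ∈ I, i ≤ j → F i ≤ F j
  bot : ∀ i, i ∉ I → i ≠ w → F i = ⊥

/-- Forgetting the members of a flag outside `I`. -/
def forget (w : ℕ) (I : Finset ℕ) (F : ℕ → Sp K) (i : ℕ) : Sp K :=
  if i ∈ I ∨ i = w then F i else ⊥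

/-- All members of a full flag are relevant. -/
def AllRel (n w : ℕ) (F : ℕ → Sp K) : Prop := ∀ i ≤ w, Rel n i (F i)

open Classical in
/-- The operators of order one attached to a full flag of relevant spaces. -/
def jmap (n w : ℕ) (F : ℕ → Sp K) (a : Fin w) (i : Fin n) : K :=
  if AllRel n w F then coef n a (F a) i 1 - coef n (a + 1) (F (a + 1)) i 1 else 0

/-- The coefficients of the composition of the first `m` operators of order one. -/
def whs {n w : ℕ} [NeZero n] (x : Fin w → Fin n → K) : ℕ → ℤ → ℕ → K
  | 0 => fun _ l => if l = 0 then 1 else 0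
  | m + 1 => if h : m < w then conv (whs x m) (wh (x ⟨m, h⟩)) else 0

/-- The full flag attached to operators of order one. -/
def flagOf {n w : ℕ} [NeZero n] (x : Fin w → Fin n → K) (m : ℕ) : Sp K :=
  if m ≤ w then Sol m (whs x m) else ⊥

/-- The polynomial with roots the products of the entries of the `x a`, for `a < m`. -/
def chiA {n w : ℕ} (x : Fin w → Fin n → K) (m : ℕ) : K[X] :=
  ∏ a ∈ Finset.univ.filter fun a : Fin w => (a : ℕ) < m, (X - C (∏ i, x a i))

/-- The part of the type below `j`. -/
def lowI (j : ℕ) (I : Finset ℕ) : Finset ℕ := I.filter (· < j)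

/-- The part of the type above `j`, shifted. -/
def uppI (j : ℕ) (I : Finset ℕ) : Finset ℕ := (I.filter (j < ·)).image (· - j)

/-- The lower part of a flag. -/
def low (j : ℕ) (F : ℕ → Sp K) (i : ℕ) : Sp K := if i ≤ j then F i else ⊥

/-- The upper part of a flag, divided by the member of dimension `j`. -/
def upp (n j : ℕ) (F : ℕ → Sp K) (m : ℕ) : Sp K := (F (j + m)).map (op j (coef n j (F j)))

/-- The flag of type `I` with given lower and upper parts. -/
def glue (n j l : ℕ) (I : Finset ℕ) (F G : ℕ → Sp K) (i : ℕ) : Sp K :=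
  if i ≤ j then F i else if i ∈ I ∨ i = j + l then (G (i - j)).comap (op j (coef n j (F j))) else ⊥

section Psi
variable (n : ℕ) (j : ℤ) (θ : Sq K →ₗ[K] K) (μ : Sq K) (h : θ μ = 0) (r : K)

/-- The transvection `y ↦ y + r θ(y) μ`. -/
def tv : Sq K ≃ₗ[K] Sq K :=
  LinearEquiv.ofLinearMap (LinearMap.id + r • θ.smulRight μ) (LinearMap.id - r • θ.smulRight μ)
    (LinearMap.ext fun y => by simp [h]) (LinearMap.ext fun y => by simp [h])

/-- The sequence that agrees with `y` on `(j, j + n]` and whose translates are given by the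
powers of the translation followed by the transvection. -/
def Psi : Sq K →ₗ[K] Sq K :=
  LinearMap.pi fun t => LinearMap.proj ((t - j - 1) % n + j + 1) ∘ₗ
    ((tv θ μ h r * (sh K n).symm) ^ ((t - j - 1) / n) : Sq K ≃ₗ[K] Sq K).toLinearMap

end Psi

/-- The functional `y (j + 1) + ∑ c l * y l`, the sum over `j + 2 ≤ l ≤ e`. -/
def theta (j e : ℤ) (c : ℤ → K) : Sq K →ₗ[K] K where
  toFun y := y (j + 1) + ∑ l ∈ Finset.Icc (j + 2) e, c l * y l
  map_add' y z := by simp [mul_add, Finset.sum_add_distrib]; ring
  map_smul' a y := by simp [Finset.mul_sum, mul_left_comm, mul_add]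

end

end Pool.Agent.Lib.MP_fc2ced_ag.K
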