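import Pool.Agent.Lib.MP_fc2ced_ag.K.Seq

/-! Solutions of recurrences: windows, uniqueness of the recurrence, composition and division. -/

open Module Polynomial

namespace Pool.Agent.Lib.MP_fc2ced_ag.K

variable {K : Type} [Field K] {n w j l : ℕ} {g g' : ℤ → ℕ → K} {U V W : Sp K}

theorem mem_Sol {y : Sq K} : y ∈ Sol w g ↔ ∀ i, op w g y i = 0 := funext_iff

theorem Band.fwd (h : Band n w g) {y : Sq K} {i : ℤ} (h0 : ∀ t, i ≤ t → t < i + w → y t = 0)
    (m : ℕ) (h1 : ∀ t, i ≤ t → t < i + m → op w g y t = 0) :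
    ∀ t, i ≤ t → t < i + w + m → y t = 0 := by
  induction m with
  | zero => simpa using h0
  | succ m ih =>
    have k := ih fun t a b => h1 t a (by omega)
    intro t a b
    rcases lt_or_ge t (i + w + m) with c | c
    · exact k t a c
    have e := h1 (i + m) (by omega) (by omega)
    rw [op_apply, Finset.sum_range_succ, Finset.sum_eq_zero fun x hx => by
      rw [k _ (by omega) (by have := Finset.mem_range.1 hx; omega), mul_zero], zero_add] at e
    rw [show t = i + m + w by omega]
    exact (mul_eq_zero.1 e).resolve_left (h.top _)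

theorem Band.bwd (h : Band n w g) {y : Sq K} {i : ℤ} (h0 : ∀ t, i ≤ t → t < i + w → y t = 0)
    (h1 : ∀ t, op w g y t = 0) (m : ℕ) : ∀ t, i - m ≤ t → t < i + w → y t = 0 := by
  induction m with
  | zero => simpa using h0
  | succ m ih =>
    intro t a b
    rcases le_or_gt (i - m) t with c | c
    · exact ih t c b
    have e := h1 t
    rwa [op_apply, Finset.sum_range_succ', Finset.sum_eq_zero fun x hx => by
      rw [ih _ (by omega) (by have := Finset.mem_range.1 hx; omega), mul_zero], zero_add, h.one,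
      one_mul, Nat.cast_zero, add_zero] at e

theorem exists_fix (ρ : ℤ → ℕ) (F : Sq K → Sq K)
    (hF : ∀ y y' t, (∀ s, ρ s < ρ t → y s = y' s) → F y t = F y' t) : ∃ y, ∀ t, y t = F y t := by
  have k : ∀ a b t, ρ t < a → ρ t < b → F^[a] 0 t = F^[b] 0 t := fun a => by
    induction a with
    | zero => exact fun _ _ h => absurd h (Nat.not_lt_zero _)
    | succ a ih =>
      rintro (_ | b) t h1 h2
      · exact absurd h2 (Nat.not_lt_zero _)
      · rw [Function.iterate_succ_apply', Function.iterate_succ_apply']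
        exact hF _ _ _ fun s hs => ih _ _ (by omega) (by omega)
  refine ⟨fun t => F^[ρ t + 1] 0 t, fun t => ?_⟩
  exact (congrFun (Function.iterate_succ_apply' F _ 0) t).trans
    (hF _ _ _ fun s hs => k _ _ _ hs (Nat.lt_succ_self _))

/-- A solution is determined by its values on any window. -/
theorem Band.eq_zero (h : Band n w g) {y : Sq K} (hy : y ∈ Sol w g) (i : ℤ)
    (h0 : ∀ t, i ≤ t → t < i + w → y t = 0) : y = 0 := by
  funext t
  rcases le_or_gt i t with c | c
  · exact h.fwd h0 (t - i + 1).toNat (fun s _ _ => mem_Sol.1 hy s) t c (by omega)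
  · exact h.bwd h0 (mem_Sol.1 hy) (i - t).toNat t (by omega) (by omega)

/-- The inhomogeneous equation is solvable with any values on a window. -/
theorem Band.exists_sol (h : Band n w g) (z v : Sq K) (i : ℤ) :
    ∃ y, op w g y = z ∧ ∀ t, i ≤ t → t < i + w → y t = v t := by
  obtain ⟨y, hy⟩ := exists_fix (fun t => if t < i then (i - t).toNat else (t - i - w + 1).toNat)
    (fun y t => if t < i then z t - ∑ b ∈ Finset.range w, g t (b + 1) * y (t + (b + 1 : ℕ))
      else if t < i + w then v t
      else (z (t - w) - ∑ b ∈ Finset.range w, g (t - w) b * y (t - w + b)) / g (t - w) w)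
    fun y y' t k => by
      split_ifs with a c
      · refine congrArg _ (Finset.sum_congr rfl fun b hb => congrArg _ (k _ ?_))
        have := Finset.mem_range.1 hb
        split_ifs <;> omega
      · rfl
      · refine congrArg (fun x => (_ - x) / _)
          (Finset.sum_congr rfl fun b hb => congrArg _ (k _ ?_))
        have := Finset.mem_range.1 hb
        split_ifs <;> omega
  refine ⟨y, funext fun t => ?_, fun t a b => by rw [hy, if_neg a.not_gt, if_pos b]⟩
  rcases lt_or_ge t i with c | c
  · rw [op_apply, Finset.sum_range_succ', h.one, one_mul, Nat.cast_zero, add_zero, hy t, if_pos c,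
      add_sub_cancel]
  · rw [op_apply, Finset.sum_range_succ, hy (t + w), if_neg (by omega), if_neg (by omega),
      add_sub_cancel_right, mul_div_cancel₀ _ (h.top t), add_sub_cancel]

/-- Restriction to a window. -/
def win (U : Sp K) (w : ℕ) (i : ℤ) : U →ₗ[K] (Fin w → K) :=
  LinearMap.funLeft K K (fun k : Fin w => i + (k : ℕ)) ∘ₗ U.subtype

/-- Every family of values on a window is attained. -/
def Su (U : Sp K) (w : ℕ) : Prop :=
  ∀ (v : Sq K) (i : ℤ), ∃ y ∈ U, ∀ t, i ≤ t → t < i + w → y t = v t

theorem win_inj {i : ℤ} (h : ∀ y ∈ U, (∀ t, i ≤ t → t < i + w → y t = 0) → y = 0) :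
    Function.Injective (win U w i) :=
  (injective_iff_map_eq_zero _).2 fun y e => Subtype.ext (h y y.2 fun t a b => by
    have := congrFun e ⟨(t - i).toNat, by omega⟩
    rwa [show t = i + ((t - i).toNat : ℕ) by omega])

theorem Band.su (h : Band n w g) : Su (Sol w g) w := fun v i => h.exists_sol 0 v i

theorem Band.win_bij (h : Band n w g) : Function.Bijective (win (Sol w g) w 0) :=
  ⟨win_inj fun _ hy => h.eq_zero hy 0, fun v => by
    obtain ⟨y, hy, e⟩ := h.su (fun t => if k : t.toNat < w then v ⟨_, k⟩ else 0) 0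
    refine ⟨⟨y, hy⟩, funext fun k => (e (0 + (k : ℕ)) (by omega) (by omega)).trans ?_⟩
    simp⟩

theorem Band.finrank_sol (h : Band n w g) : finrank K (Sol w g) = w := by
  simpa using (LinearEquiv.ofBijective _ h.win_bij).finrank_eq

theorem Band.op_sh (h : Band n w g) (y : Sq K) : op w g (sh K n y) = sh K n (op w g y) := by
  funext i
  rw [sh_apply, op_apply, op_apply]
  refine Finset.sum_congr rfl fun b _ => ?_
  rw [sh_apply, ← h.per (i - n), sub_add_cancel, add_sub_right_comm]

theorem Band.stab (h : Band n w g) : Stab n (Sol w g) :=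
  ⟨.of_injective _ h.win_bij.1, fun y hy => by
    rw [Sol, LinearMap.mem_ker] at hy ⊢
    rw [h.op_sh, hy, map_zero]⟩

/-- Normalized relations between the values on a window of length `w + 1`. -/
structure An (U : Sp K) (w : ℕ) (i : ℤ) (c : ℕ → K) : Prop where
  one : c 0 = 1
  zero : ∀ l, w < l → c l = 0
  ann : ∀ y ∈ U, ∑ l ∈ Finset.range (w + 1), c l * y (i + l) = 0

theorem An.val {i : ℤ} {c : ℕ → K} (h : An U w i c) {y : Sq K} (hy : y ∈ U) (hl : l < w)
    (e : ∀ t, i + 1 ≤ t → t < i + 1 + w → y t = if t = i + 1 + l then 1 else 0) :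
    c (l + 1) = -y i := by
  have k := h.ann y hy
  rw [Finset.sum_range_succ', h.one, one_mul, Nat.cast_zero, add_zero,
    Finset.sum_eq_single_of_mem l (Finset.mem_range.2 hl) fun b hb hne => by
      rw [e _ (by omega) (by have := Finset.mem_range.1 hb; omega), if_neg (by omega), mul_zero],
    e _ (by omega) (by omega), if_pos (by omega), mul_one] at k
  exact eq_neg_of_add_eq_zero_left k

theorem An.unique {i : ℤ} {c c' : ℕ → K} (h : An U w i c) (h' : An U w i c') (s : Su U w) :
    c = c' := by
  funext l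
  rcases l with _ | l
  · rw [h.one, h'.one]
  rcases lt_or_ge l w with a | a
  · obtain ⟨y, hy, e⟩ := s (fun t => if t = i + 1 + l then 1 else 0) (i + 1)
    rw [h.val hy a e, h'.val hy a e]
  · rw [h.zero _ (by omega), h'.zero _ (by omega)]

theorem An.top {i : ℤ} {c : ℕ → K} (h : An U w i c) (s : Su U w) : c w ≠ 0 := fun e => by
  obtain ⟨y, hy, k⟩ := s (fun t => if t = i then 1 else 0) i
  have a := h.ann y hy
  rcases w with _ | w
  · exact one_ne_zero (h.one.symm.trans e)
  rw [Finset.sum_range_succ, e, zero_mul, add_zero, Finset.sum_range_succ', h.one,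
    Finset.sum_eq_zero fun b hb => by
      rw [k _ (by omega) (by have := Finset.mem_range.1 hb; omega), if_neg (by omega), mul_zero],
    k _ (by omega) (by omega)] at a
  simp at a

theorem exists_an (s : Su U w) {i : ℤ}
    (h : ∀ y ∈ U, (∀ t, i + 1 ≤ t → t < i + 1 + w → y t = 0) → y = 0) : ∃ c, An U w i c := by
  choose Y hY e using fun l : ℕ => s (fun t => if t = i + 1 + l then 1 else 0) (i + 1)
  refine ⟨fun l => if l = 0 then 1 else if l ≤ w then -Y (l - 1) i else 0, if_pos rfl,
    fun l hl => by rw [if_neg (by omega), if_neg (by omega)], fun y hy => ?_⟩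
  have k := congrFun (h (y - ∑ l ∈ Finset.range w, y (i + 1 + l) • Y l)
    (sub_mem hy (sum_mem fun l _ => U.smul_mem _ (hY l))) fun t a b => by
      rw [Pi.sub_apply, Finset.sum_apply, Finset.sum_eq_single_of_mem (t - (i + 1)).toNat
        (Finset.mem_range.2 (by omega)) fun l _ hne => by
          rw [Pi.smul_apply, e _ t a b, if_neg (by omega), smul_zero], Pi.smul_apply, e _ t a b,
        if_pos (by omega), smul_eq_mul, mul_one, sub_eq_zero]
      exact congrArg y (by omega)) i
  rw [Pi.sub_apply, Finset.sum_apply, Pi.zero_apply, sub_eq_zero] at k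
  rw [Finset.sum_range_succ', if_pos rfl, one_mul, Nat.cast_zero, add_zero, k,
    ← Finset.sum_add_distrib]
  refine Finset.sum_eq_zero fun l hl => ?_
  rw [if_neg (by omega), if_pos (by have := Finset.mem_range.1 hl; omega), Pi.smul_apply,
    show i + (l + 1 : ℕ) = i + 1 + l by omega, smul_eq_mul, Nat.add_sub_cancel]
  ring

theorem Band.unique (h : Band n w g) (h' : Band n w g') (e : Sol w g ≤ Sol w g') : g = g' :=
  funext fun i => An.unique ⟨h.one i, h.zero i, fun _ hy => mem_Sol.1 hy i⟩
    ⟨h'.one i, h'.zero i, fun _ hy => mem_Sol.1 (e hy) i⟩ h.su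

theorem Band.rel (h : Band n w g) : Rel n w (Sol w g) := ⟨g, h, rfl⟩

theorem Rel.band (h : Rel n w U) : Band n w (coef n w U) := by
  rw [coef, dif_pos h]
  exact h.choose_spec.1

theorem Rel.eq_sol (h : Rel n w U) : U = Sol w (coef n w U) := by
  rw [coef, dif_pos h]
  exact h.choose_spec.2

theorem Band.coef_sol (h : Band n w g) : coef n w (Sol w g) = g :=
  h.rel.band.unique h h.rel.eq_sol.ge

theorem Rel.stab (h : Rel n w U) : Stab n U := h.eq_sol ▸ h.band.stab

theorem Rel.finrank_eq (h : Rel n w U) : finrank K U = w := by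
  obtain ⟨g, k, rfl⟩ := h
  exact k.finrank_sol

theorem Rel.eq_zero (h : Rel n w U) {y : Sq K} (hy : y ∈ U) (i : ℤ)
    (h0 : ∀ t, i ≤ t → t < i + w → y t = 0) : y = 0 :=
  h.band.eq_zero (h.eq_sol.le hy) i h0

theorem rel_zero_iff : Rel n 0 U ↔ U = ⊥ := by
  refine ⟨fun h => eq_bot_iff.2 fun y hy => h.eq_zero hy 0 fun t a b => by omega, fun h => ?_⟩
  have k : Band n 0 fun (_ : ℤ) (l : ℕ) => if l = 0 then (1 : K) else 0 :=
    ⟨fun _ _ => rfl, fun _ => if_pos rfl, fun _ => by simp, fun _ _ a => if_neg a.ne'⟩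
  exact ⟨_, k, h.trans (eq_bot_iff.2 fun y hy => k.eq_zero hy 0 fun t a b => by omega).symm⟩

theorem coef_zero (U : Sp K) (i : ℤ) : coef n 0 U i 1 = 0 := by
  by_cases h : Rel n 0 U
  · exact h.band.zero i 1 one_pos
  · rw [coef, dif_neg h]
    rfl

theorem Stab.symm_mem (h : Stab n U) {y : Sq K} (hy : y ∈ U) : (sh K n).symm y ∈ U := by
  have := h.fin
  obtain ⟨x, e⟩ := LinearMap.surjective_of_injective (f := (sh K n).toLinearMap.restrict h.mem)
    (fun a b e => Subtype.ext ((sh K n).injective (congrArg Subtype.val e))) ⟨y, hy⟩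
  rw [← show sh K n x = y from congrArg Subtype.val e, LinearEquiv.symm_apply_apply]
  exact x.2

theorem Stab.bot : Stab n (⊥ : Sp K) :=
  ⟨inferInstance, fun y hy => by rw [(Submodule.mem_bot K).1 hy, map_zero]; exact zero_mem _⟩

theorem Stab.shift_mem (h : Stab n U) {y : Sq K} (hy : y ∈ U) (q : ℤ) :
    (fun t => y (t + q * n)) ∈ U := by
  induction q using Int.induction_on with
  | zero => simpa using hy
  | succ q ih =>
    convert h.symm_mem ih using 1
    exact funext fun t => congrArg y (show _ = t + n + q * n by ring)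
  | pred q ih =>
    convert h.mem _ ih using 1
    exact funext fun t => congrArg y (show _ = t - n + -q * n by ring)

theorem Band.eq_sol (h : Band n w g) [FiniteDimensional K U] (hr : Module.finrank K U = w)
    (e : U ≤ Sol w g) : U = Sol w g :=
  have := h.stab.fin
  Submodule.eq_of_le_of_finrank_eq e (hr.trans h.finrank_sol.symm)

/-- Relevance in terms of windows. -/
theorem rel_iff : Rel n w U ↔ Stab n U ∧ finrank K U = w ∧
    ∀ y ∈ U, ∀ i : ℤ, (∀ t, i ≤ t → t < i + w → y t = 0) → y = 0 := by
  refine ⟨fun h => ⟨h.stab, h.finrank_eq, fun y hy => h.eq_zero hy⟩, fun ⟨h1, h2, h3⟩ => ?_⟩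
  have := h1.fin
  have s : Su U w := fun v i => by
    obtain ⟨y, e⟩ := (LinearMap.injective_iff_surjective_of_finrank_eq_finrank
      (by simpa using h2)).1 (win_inj fun y hy => h3 y hy i) fun k => v (i + (k : ℕ))
    refine ⟨y, y.2, fun t a b => ?_⟩
    have := congrFun e ⟨(t - i).toNat, by omega⟩
    rwa [show t = i + ((t - i).toNat : ℕ) by omega]
  choose c hc using fun i => exists_an s fun y hy => h3 y hy (i + 1)
  have b : Band n w c := ⟨fun i => congrFun (An.unique ⟨(hc _).one, (hc _).zero, fun y hy => by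
    simpa only [sh_apply, add_sub_right_comm, sub_add_cancel] using
      (hc (i + n)).ann _ (h1.mem y hy)⟩ (hc i) s), fun i => (hc i).one, fun i => (hc i).top s,
    fun i => (hc i).zero⟩
  exact ⟨c, b, b.eq_sol h2 fun y hy => mem_Sol.2 fun i => (hc i).ann y hy⟩

/-- It suffices to look at finitely many windows. -/
theorem rel_iff' (hn : 0 < n) : Rel n w U ↔ Stab n U ∧ finrank K U = w ∧
    ∀ i : ℕ, i < n → ∀ y ∈ U, (∀ t : ℤ, i ≤ t → t < i + w → y t = 0) → y = 0 := by
  refine rel_iff.trans (and_congr_right fun h => and_congr_right fun _ =>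
    ⟨fun k i _ y hy => k y hy i, fun k y hy i h0 => funext fun t => ?_⟩)
  have a := Int.emod_nonneg i (show (n : ℤ) ≠ 0 by omega)
  have b := Int.emod_lt_of_pos i (show (0 : ℤ) < n by omega)
  have c := Int.emod_add_ediv_mul i n
  simpa using congrFun (k (i % n).toNat (by omega) _ (h.shift_mem hy (i / n))
    fun t a b => h0 _ (by omega) (by omega)) (t - i / n * n)

theorem Band.op_conv (h : Band n j g) (h' : Band n l g') :
    op (j + l) (conv g g') = op l g' ∘ₗ op j g := by
  ext y i
  have e := Finset.sum_range_diag_flip (j + l + 1)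
    fun a b => g' i a * (g (i + a) b * y (i + a + b))
  simp only [LinearMap.comp_apply, op_apply, conv, Finset.sum_mul, Finset.mul_sum]
  refine (Finset.sum_congr rfl fun m _ => Finset.sum_congr rfl fun a ha => ?_).trans (e.trans
    ((Finset.sum_subset (Finset.range_mono (by omega)) fun a _ ha => Finset.sum_eq_zero fun b _ => by
      rw [h'.zero i a (by simpa using ha), zero_mul]).symm.trans
    (Finset.sum_congr rfl fun a ha => (Finset.sum_subset (Finset.range_mono ?_) fun b _ hb => by
      rw [h.zero _ b (by simpa using hb), zero_mul, mul_zero]).symm)))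
  · have := Finset.mem_range.1 ha
    rw [mul_assoc, show i + a + (m - a : ℕ) = i + m by omega]
  · have := Finset.mem_range.1 ha
    omega

theorem Band.conv_one (h : Band n j g) (h' : Band n l g') (i : ℤ) :
    conv g g' i 1 = g i 1 + g' i 1 := by
  simp [conv, Finset.sum_range_succ, h.one, h'.one]

theorem Band.conv_top (h : Band n j g) (h' : Band n l g') (i : ℤ) :
    conv g g' i (j + l) = g' i l * g (i + l) j := by
  rw [conv, Finset.sum_eq_single_of_mem l (Finset.mem_range.2 (by omega)) fun a _ ha => by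
    rcases lt_or_gt_of_ne ha with c | c
    · rw [h.zero _ _ (by omega), mul_zero]
    · rw [h'.zero _ _ c, zero_mul], Nat.add_sub_cancel]

theorem Band.band_conv (h : Band n j g) (h' : Band n l g') : Band n (j + l) (conv g g') where
  per i m := Finset.sum_congr rfl fun a _ => by rw [h'.per, add_right_comm, h.per]
  one i := by simp [conv, h.one, h'.one]
  top i := by
    rw [h.conv_top h']
    exact mul_ne_zero (h'.top _) (h.top _)
  zero i m hm := Finset.sum_eq_zero fun a _ => by
    rcases le_or_gt a l with c | c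
    · rw [h.zero _ _ (by omega), mul_zero]
    · rw [h'.zero _ _ c, zero_mul]

theorem Band.sol_conv (h : Band n j g) (h' : Band n l g') :
    Sol (j + l) (conv g g') = (Sol l g').comap (op j g) := by
  rw [Sol, h.op_conv h', LinearMap.ker_comp, Sol]

theorem Rel.stab_map (h' : Rel n j W) (h : Stab n U) (e : W ≤ U) :
    Stab n (U.map (op j (coef n j W))) ∧
      Module.finrank K U = j + Module.finrank K (U.map (op j (coef n j W))) := by
  have := h.fin
  refine ⟨⟨inferInstance, ?_⟩, ?_⟩
  · rintro _ ⟨y, hy, rfl⟩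
    exact ⟨_, h.mem y hy, h'.band.op_sh y⟩
  · rw [← ((op j (coef n j W)).domRestrict U).finrank_range_add_finrank_ker,
      LinearMap.range_domRestrict, LinearMap.ker_domRestrict, ← Sol, ← h'.eq_sol,
      (Submodule.comapSubtypeEquivOfLe e).finrank_eq, h'.finrank_eq, add_comm]

/-- Division of a relevant space by a relevant subspace. -/
theorem Rel.rel_map (h : Rel n (j + l) U) (h' : Rel n j W) (e : W ≤ U) :
    Rel n l (U.map (op j (coef n j W))) ∧
      coef n (j + l) U = conv (coef n j W) (coef n l (U.map (op j (coef n j W)))) := by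
  obtain ⟨a, b⟩ := h'.stab_map h.stab e
  have k : Rel n l (U.map (op j (coef n j W))) := rel_iff.2 ⟨a, by
    rw [h.finrank_eq] at b; omega, by
    rintro _ ⟨y, hy, rfl⟩ i h0
    obtain ⟨x, hx, c⟩ := h'.band.exists_sol 0 y i
    have d : op j (coef n j W) (y - x) = op j (coef n j W) y := by rw [map_sub, hx, sub_zero]
    rw [← d, h.eq_zero (sub_mem hy (e (h'.eq_sol.ge hx))) i fun t p q =>
      h'.band.fwd (fun s p q => sub_eq_zero.2 (c s p q).symm) l (d ▸ h0) t p (by omega),
      map_zero]⟩
  refine ⟨k, h.band.unique (h'.band.band_conv k.band) ?_⟩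
  rw [← h.eq_sol, h'.band.sol_conv k.band, ← k.eq_sol]
  exact Submodule.le_comap_map _ _

theorem Rel.rel_comap (h : Rel n l V) (h' : Rel n j W) :
    Rel n (j + l) (V.comap (op j (coef n j W))) :=
  ⟨_, h'.band.band_conv h.band, by rw [h'.band.sol_conv h.band, ← h.eq_sol]⟩

theorem Rel.fU_map (h : Rel n (j + l) U) (h' : Rel n j W) (e : W ≤ U) :
    fU n (j + l) U = fU n j W + fU n l (U.map (op j (coef n j W))) := by
  obtain ⟨a, b⟩ := h.rel_map h' e
  simp only [fU, b, h'.band.conv_one a.band, Finset.sum_add_distrib, neg_add]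

theorem Rel.stab_comap (h' : Rel n j W) (h : Stab n V) :
    Stab n (V.comap (op j (coef n j W))) ∧ W ≤ V.comap (op j (coef n j W)) ∧
      (V.comap (op j (coef n j W))).map (op j (coef n j W)) = V := by
  have a : (V.comap (op j (coef n j W))).map (op j (coef n j W)) = V :=
    Submodule.map_comap_eq_of_surjective (fun z => (h'.band.exists_sol z 0 0).imp fun _ k => k.1) V
  have b : W ≤ V.comap (op j (coef n j W)) := h'.eq_sol.le.trans (LinearMap.ker_le_comap _)
  refine ⟨⟨Module.Finite.iff_fg.2 (Submodule.fg_of_fg_map_of_fg_inf_ker (op j (coef n j W)) ?_ ?_),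
    fun y hy => ?_⟩, b, a⟩
  · rw [a]
    exact Module.Finite.iff_fg.1 h.fin
  · rw [← Sol, ← h'.eq_sol, inf_eq_right.2 b]
    exact Module.Finite.iff_fg.1 h'.stab.fin
  · rw [Submodule.mem_comap, h'.band.op_sh]
    exact h.mem _ hy

theorem Rel.comap_map (h' : Rel n j W) (e : W ≤ U) :
    (U.map (op j (coef n j W))).comap (op j (coef n j W)) = U :=
  Submodule.comap_map_eq_self (h'.eq_sol.ge.trans e)

end Pool.Agent.Lib.MP_fc2ced_ag.K
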