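import Pool.Agent.Lib.MP_fc2ced_ag.K.Geo

/-! The reversed adjoint of a recurrence of order two. -/

open CategoryTheory Function Polynomial

namespace Pool.Agent.Lib.MP_fc2ced_ag.K

noncomputable section

variable {k : Type} [Field k] {F : Type} [Field F] {χ : Chr k F} {n : ℕ} [NeZero n] {w j l : ℕ}
  {I : Finset ℕ} {P : Pt k} {T : PC P}

open Pt Place

section
variable {K : Type} [Field K]

/-- The solution of `ω i = g (-i) 2 * ω (i + 1)` with `ω 0 = 1`. -/
def wt (g : ℤ → ℕ → K) (i : ℤ) : K :=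
  (∏ t ∈ Finset.Ico i 0, g (-t) 2) * (∏ t ∈ Finset.Ico 0 i, g (-t) 2)⁻¹

/-- The reversal of sequences, with weights. -/
def thL (g : ℤ → ℕ → K) : Sq K →ₗ[K] Sq K where
  toFun y i := y (2 - i) * wt g i
  map_add' _ _ := funext fun _ => add_mul _ _ _
  map_smul' _ _ := funext fun _ => mul_assoc _ _ _

variable (n) in
/-- The involution on flags. -/
def star (x : ℕ → Sp K) (m : ℕ) : Sp K := (x m).map (thL (coef n 2 (x 2)))

namespace StarAux

variable {g g₁ : ℤ → ℕ → K} {U : Sp K}

theorem const {α : Type} {f : ℤ → α} (h : ∀ i, f i = f (i + 1)) (i j : ℤ) : f i = f j := by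
  have k : ∀ i, f i = f 0 := fun i => by
    induction i using Int.induction_on with
    | zero => rfl
    | succ m ih => rw [← h, ih]
    | pred m ih => rw [h, sub_add_cancel, ih]
  rw [k i, k j]

theorem wt_ne (h : ∀ i, g i 2 ≠ 0) (i : ℤ) : wt g i ≠ 0 :=
  mul_ne_zero (Finset.prod_ne_zero_iff.2 fun _ _ => h _)
    (inv_ne_zero (Finset.prod_ne_zero_iff.2 fun _ _ => h _))

theorem wt_step (h : ∀ i, g i 2 ≠ 0) (i : ℤ) : wt g i = g (-i) 2 * wt g (i + 1) := by
  unfold wt
  rcases lt_or_ge i 0 with e | e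
  · rw [← Finset.insert_Ico_add_one_left_eq_Ico e, Finset.prod_insert (by simp),
      Finset.Ico_eq_empty_of_le e.le, Finset.Ico_eq_empty_of_le (show i + 1 ≤ 0 from e), mul_assoc]
  · rw [← Finset.insert_Ico_right_eq_Ico_add_one e, Finset.prod_insert (by simp),
      Finset.Ico_eq_empty_of_le e, Finset.Ico_eq_empty_of_le (show 0 ≤ i + 1 by omega), mul_inv,
      mul_left_comm, mul_inv_cancel_left₀ (h _)]

omit [NeZero n] in
theorem wt_sub (h : Band n 2 g) (i : ℤ) :
    wt g (i - n) = (∏ t ∈ Finset.range n, g t 2) * wt g i := by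
  have k : ∀ m : ℕ, wt g (1 - m) = (∏ t ∈ Finset.range m, g t 2) * wt g 1 := fun m => by
    induction m with
    | zero => simp
    | succ m ih =>
      rw [wt_step h.top, Finset.prod_range_succ, show 1 - ((m + 1 : ℕ) : ℤ) + 1 = 1 - m by omega,
        show -(1 - ((m + 1 : ℕ) : ℤ)) = m by omega, ih, mul_left_comm, mul_assoc]
  rw [← div_eq_iff (wt_ne h.top i), const (f := fun i => wt g (i - n) / wt g i) (fun i => ?_) i 1,
    k, mul_div_cancel_right₀ _ (wt_ne h.top 1)]
  rw [wt_step h.top i, wt_step h.top (i - n), neg_sub', sub_neg_eq_add, h.per,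
    mul_div_mul_left _ _ (h.top _), sub_add_eq_add_sub]

/-- The reversal as an isomorphism. -/
def thE (h : ∀ i, g i 2 ≠ 0) : Sq K ≃ₗ[K] Sq K := .ofBijective (thL g)
  ⟨fun y z e => funext fun i => by
    simpa only [sub_sub_cancel] using mul_right_cancel₀ (wt_ne h _) (congrFun e (2 - i)),
  fun z => ⟨fun i => z (2 - i) / wt g (2 - i), funext fun i => by
    change z (2 - (2 - i)) / wt g (2 - (2 - i)) * wt g i = z i
    rw [sub_sub_cancel, div_mul_cancel₀ _ (wt_ne h i)]⟩⟩

omit [NeZero n] in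
theorem chi_th (h : Band n 2 g) (hU : Stab n U) : Stab n (U.map (thL g)) ∧
    (Module.finrank K U = 2 → (chi n U).coeff 0 = ∏ t ∈ Finset.range n, g t 2 →
      chi n (U.map (thL g)) = chi n U) :=
  chi_map_inv hU (thE h.top) _ (Finset.prod_ne_zero_iff.2 fun _ _ => h.top _) fun y =>
    funext fun i => by
      change y (2 - (i - n)) * wt g (i - n) = _ * (y (2 - i + n) * wt g i)
      rw [wt_sub h, mul_left_comm, sub_sub_eq_add_sub, sub_add_eq_add_sub]

theorem rank_th (h : ∀ i, g i 2 ≠ 0) (U : Sp K) :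
    Module.finrank K (U.map (thL g)) = Module.finrank K U := (thE h).finrank_map_eq U

/-- The adjoint coefficients. -/
def gs (g : ℤ → ℕ → K) (i : ℤ) (l : ℕ) : K := if l = 2 then g (-i - 1) 2 else g (-i) l

omit [NeZero n] in
theorem band_neg (h : Band n w g) : Band n w fun i => g (-i) :=
  ⟨fun i l => by rw [← h.per, neg_add, neg_add_cancel_right], fun _ => h.one _, fun _ => h.top _,
    fun _ => h.zero _⟩

omit [NeZero n] in
theorem band_gs (h : Band n 2 g) : Band n 2 (gs g) :=
  ⟨fun i l => by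
    rw [gs, gs, ← h.per (-(i + n) - 1), ← h.per (-(i + n)), show -(i + n) + n = -i by ring,
      show -(i + n) - 1 + n = -i - 1 by ring], fun _ => h.one _, fun _ => h.top _,
    fun _ l e => (if_neg e.ne').trans (h.zero _ l e)⟩

theorem op_one (y : Sq K) (i : ℤ) : op 1 g y i = g i 0 * y i + g i 1 * y (i + 1) := by
  simp [op_apply, Finset.sum_range_succ]

theorem op_two (y : Sq K) (i : ℤ) :
    op 2 g y i = g i 0 * y i + g i 1 * y (i + 1) + g i 2 * y (i + 2) := by
  simp [op_apply, Finset.sum_range_succ]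

omit [NeZero n] in
theorem map_sol (h : Band n 2 g) : (Sol 2 g).map (thL g) = Sol 2 (gs g) := by
  have := (chi_th h h.stab).1.fin
  refine (band_gs h).eq_sol ((rank_th h.top _).trans h.finrank_sol) ?_
  rintro _ ⟨y, hy, rfl⟩
  refine mem_Sol.2 fun i => ?_
  have e := mem_Sol.1 hy (-i)
  rw [op_two, h.one] at e
  rw [op_two, (band_gs h).one]
  change 1 * (y (2 - i) * _) + g (-i) 1 * (y (2 - (i + 1)) * _) +
    g (-i - 1) 2 * (y (2 - (i + 2)) * _) = 0
  rw [wt_step h.top i, wt_step h.top (i + 1), show 2 - i = -i + 2 by ring,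
    show 2 - (i + 1) = -i + 1 by ring, show 2 - (i + 2) = -i by ring, neg_add', add_assoc i,
    one_add_one_eq_two]
  linear_combination g (-i - 1) 2 * wt g (i + 2) * e

omit [NeZero n] in
theorem map_one (h : Band n 2 g) (hU : Rel n 1 U) (e : U ≤ Sol 2 g) : Rel n 1 (U.map (thL g)) ∧
    ∀ i, coef n 1 (U.map (thL g)) i 1 = g (-i) 1 - coef n 1 U (-i) 1 := by
  obtain ⟨h1, h2⟩ := Rel.rel_map (j := 1) (l := 1) h.rel hU e
  have h3 := fun i => hU.band.conv_one h1.band i
  rw [← h2, h.coef_sol] at h3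
  have := (chi_th h hU.stab).1.fin
  have h4 := (band_neg h1.band).eq_sol ((rank_th h.top U).trans hU.finrank_eq) (by
    rintro _ ⟨y, hy, rfl⟩
    refine mem_Sol.2 fun i => ?_
    have e1 := mem_Sol.1 (e hy) (-i)
    have e2 := mem_Sol.1 (hU.eq_sol ▸ hy :) (-i)
    rw [op_two, h.one, h3] at e1
    rw [op_one, hU.band.one] at e2
    rw [op_one, h1.band.one]
    change 1 * (y (2 - i) * _) + _ * (y (2 - (i + 1)) * _) = 0
    rw [wt_step h.top i, show 2 - i = -i + 2 by ring, show 2 - (i + 1) = -i + 1 by ring]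
    linear_combination wt g (i + 1) * (e1 - e2))
  rw [h4, (band_neg h1.band).coef_sol]
  exact ⟨(band_neg h1.band).rel, fun i => by rw [h3, add_sub_cancel_left]⟩

theorem map_map (h : ∀ i, g i 2 ≠ 0) (U : Sp K) : (U.map (thL g)).map (thL (gs g)) = U := by
  have h' : ∀ i, gs g i 2 ≠ 0 := fun _ => h _
  have e : thL (gs g) ∘ₗ thL g = (wt g (2 - 0) * wt (gs g) 0) • LinearMap.id :=
    LinearMap.ext fun y => funext fun i => by
      change y (2 - (2 - i)) * wt g (2 - i) * wt (gs g) i = _ * y i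
      rw [sub_sub_cancel, mul_assoc, mul_comm,
        const (f := fun i => wt g (2 - i) * wt (gs g) i) (fun i => ?_) i 0]
      rw [wt_step h' i, wt_step h (2 - (i + 1)), show 2 - (i + 1) + 1 = 2 - i by ring,
        show -(2 - (i + 1)) = - -i - 1 by ring, mul_left_comm, mul_assoc]
      rfl
  rw [← Submodule.map_comp, e, Submodule.map_smul _ _ _ (mul_ne_zero (wt_ne h _) (wt_ne h' _)),
    Submodule.map_id]

theorem per_neg (h : Band n w g) (a : Fin n) (l : ℕ) :
    g ((-a : Fin n) : ℕ) l = g (-(a : ℕ)) l := by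
  rw [Fin.val_neg]
  split_ifs with e
  · simp [e]
  · rw [Nat.cast_sub a.2.le, sub_eq_neg_add, h.per]

end StarAux

open StarAux

variable {x : ℕ → Sp K}

omit [NeZero n] in
theorem Flag.star_top (h : Flag n 2 I x) : star n x 2 = Sol 2 (gs (coef n 2 (x 2))) :=
  (congrArg (Submodule.map _) h.rel.eq_sol).trans (map_sol h.rel.band)

omit [NeZero n] in
theorem Flag.coef_star' (h : Flag n 2 I x) : coef n 2 (star n x 2) = gs (coef n 2 (x 2)) := by
  rw [h.star_top, (band_gs h.rel.band).coef_sol]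

theorem Flag.star_flag (hI : I ⊆ Finset.Ioo 0 2) (h : Flag n 2 I x) : Flag n 2 I (star n x) :=
  ⟨h.star_top ▸ (band_gs h.rel.band).rel, fun i hi => (chi_th h.rel.band (h.stab i hi)).1,
    fun i hi => (rank_th h.rel.band.top _).trans (h.rank i hi),
    fun i hi => Submodule.map_mono (h.le_top i hi),
    fun i hi j hj e => Submodule.map_mono (h.mono i hi j hj e),
    fun i hi e => by rw [star, h.bot i hi e, Submodule.map_bot]⟩

theorem Flag.coef_star (h : Flag n 2 I x) (i : ℤ) :
    coef n 2 (star n x 2) i 1 = coef n 2 (x 2) (-i) 1 ∧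
      coef n 2 (star n x 2) i 2 = coef n 2 (x 2) (-i - 1) 2 := by
  rw [h.coef_star']
  exact ⟨rfl, rfl⟩

theorem Flag.star_star (h : Flag n 2 I x) : star n (star n x) = x :=
  funext fun m => by rw [star, h.coef_star', star, map_map h.rel.band.top]

theorem Flag.fU_star (h : Flag n 2 I x) : fU n 2 (star n x 2) = fU n 2 (x 2) := by
  simp only [fU, (h.coef_star _).1, Finset.sum_range, ← per_neg h.rel.band]
  exact congrArg _ (Equiv.sum_comp (Equiv.neg (Fin n)) fun a => coef n 2 (x 2) (a : ℕ) 1)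

theorem Flag.chi_star (h : Flag n 2 I x) : chi n (star n x 2) = chi n (x 2) :=
  (chi_th h.rel.band h.rel.stab).2 h.rel.finrank_eq (by
    simpa only [← h.rel.eq_sol, neg_one_sq, one_mul] using h.rel.band.chi_sol_coeff)

omit [NeZero n] in
theorem forget_star : forget 2 I (star n x) = star n (forget 2 I x) := funext fun i => by
  rw [star, forget_top, forget, forget]
  split_ifs
  exacts [rfl, (Submodule.map_bot _).symm]

theorem Flag.allRel_star (h : Flag n 2 (Finset.Ioo 0 2) x) (hr : AllRel n 2 x) :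
    AllRel n 2 (star n x) := fun i hi => by
  have h' := h.star_flag subset_rfl
  interval_cases i
  · exact rel_zero_iff.2 (h'.bot 0 (by decide) (by decide))
  · exact (StarAux.map_one h.rel.band (hr 1 hi) (h.rel.eq_sol ▸ h.le_top 1 (by decide) :)).1
  · exact h'.rel

theorem Flag.jmap_star (h : Flag n 2 (Finset.Ioo 0 2) x) :
    jmap n 2 (star n x) = fun a i => jmap n 2 x a.rev (-i) := by
  funext a i
  by_cases hr : AllRel n 2 x
  · have h1 := hr 1 one_le_two
    have e := (StarAux.map_one h.rel.band h1 (h.rel.eq_sol ▸ h.le_top 1 (by decide) :)).2 (i : ℕ)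
    rw [jmap, jmap, if_pos hr, if_pos (h.allRel_star hr)]
    fin_cases a
    · change coef n 0 _ _ 1 - coef n 1 (star n x 1) _ 1 = coef n 1 (x 1) _ 1 - coef n 2 (x 2) _ 1
      rw [coef_zero, per_neg h1.band, per_neg h.rel.band, star, e, zero_sub, neg_sub]
    · change coef n 1 (star n x 1) _ 1 - coef n 2 (star n x 2) _ 1 =
        coef n 0 _ _ 1 - coef n 1 (x 1) _ 1
      rw [coef_zero, per_neg h1.band, (h.coef_star _).1, star, e, sub_sub_cancel_left, zero_sub]
  · rw [jmap, jmap, if_neg hr,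
      if_neg fun e => hr (h.star_star ▸ (h.star_flag subset_rfl).allRel_star e)]

end

theorem pend_star (hI : I ⊆ Finset.Ioo 0 2) : PEnd (Zv k n 2 I) {2} fun _ x => star n x := by
  have r : (Zs k n 2 I).Reg (Zs k n 2 I) fun _ x => star n x :=
    ⟨fun _ _ h => h.star_flag hI, fun _ _ φ x y a b h i => by
      have c := (h 2).coef a.rel b.rel
      refine (h i).map GR.bot bot_le _ _ (fun z z' e t => (e _).mul (R.mul
        (Place.prod fun _ _ => c _ _) ((Place.prod fun _ _ => c _ _).inv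
          (Finset.prod_ne_zero_iff.2 fun _ _ => b.rel.band.top _)))) bot_le (inf_le_right.trans ?_)
      exact (LinearMap.ker_eq_bot.2 (StarAux.thE b.rel.band.top).injective).le⟩
  exact ⟨⟨.of_inv r r (fun _ _ h => h.fU_star) fun _ _ h => h.star_star,
    fun _ _ h _ _ e => e ▸ h.chi_star⟩, r.live⟩

end

end Pool.Agent.Lib.MP_fc2ced_ag.K
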