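import Pool.Agent.Lib.MP_fc2ced_ag.K.Star
import Pool.Agent.Lib.MP_fc2ced_ag.K.BlkC

/-! The reversed adjoint acts by a sign. -/

open CategoryTheory Function Polynomial

namespace Pool.Agent.Lib.MP_fc2ced_ag.K

noncomputable section

variable {k : Type} [Field k] {F : Type} [Field F] {χ : Chr k F} {n : ℕ} [NeZero n] {w j l : ℕ}
  {I : Finset ℕ} {P : Pt k} {T : PC P}

open Pt Place

namespace StarAAux

variable {K K' : Fld k} {φ : Place K K'} {y : (seqs k n).X K} {y' : (seqs k n).X K'} {t : K} {t' : K'}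
  {x : ℕ → Sp K} {x' : ℕ → Sp K'}

variable (n) in
/-- The periodic recurrence with coefficients `t, y.1` and `y.2`. -/
def per (y : (seqs k n).X K) (t : K) (i : ℤ) (l : ℕ) : K :=
  if l = 0 then 1 else if l = 1 then -(if i % n = 0 then t else y.1 (i % n).toNat)
  else if l = 2 then -y.2 (i % n).toNat else 0

variable (n) in
/-- The flag given by the solutions of the recurrence. -/
def fl (y : (seqs k n).X K) (t : K) (m : ℕ) : Sp K := if m = 2 then Sol 2 (per n y t) else ⊥

variable (n) in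
/-- The coefficients of the recurrence, but one. -/
def pr (x : ℕ → Sp K) : (seqs k n).X K :=
  (fun i => if 0 < i ∧ i < n then -coef n 2 (x 2) i 1 else 0,
    fun i => if i < n then -coef n 2 (x 2) i 2 else 0)

variable (n) in
/-- The remaining coefficient. -/
def s0 (x : ℕ → Sp K) : K := -coef n 2 (x 2) 0 1

variable (n) in
/-- The trace divided by the lower left entry. -/
def tau (y : (seqs k n).X K) : K :=
  (mono y.1 y.2 n 0 0 + mono y.1 y.2 n 1 1) / mono y.1 y.2 n 1 0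

theorem mod_lt (i : ℤ) : 0 ≤ i % n ∧ i % n < n :=
  have : (0 : ℤ) < n := Int.natCast_pos.2 (NeZero.pos n)
  ⟨Int.emod_nonneg _ this.ne', Int.emod_lt_of_pos _ this⟩

theorem band_per (h : (seqs k n).L y) (t : K) : Band n 2 (per n y t) where
  per i l := by simp only [per, Int.add_emod_right]
  one _ := rfl
  top i := neg_ne_zero.2 (h.2.2 _ (by have := mod_lt (n := n) i; omega))
  zero i l hl := by rw [per, if_neg (by omega), if_neg (by omega), if_neg (by omega)]

theorem coef_fl (h : (seqs k n).L y) (t : K) : coef n 2 (fl n y t 2) = per n y t :=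
  (band_per h t).coef_sol

theorem flag_fl (h : (seqs k n).L y) (t : K) : Flag n 2 ∅ (fl n y t) :=
  ⟨(band_per h t).rel, by simp, by simp, by simp, by simp, fun _ _ e => if_neg e⟩

omit [NeZero n] in
theorem per_nat (t : K) {i : ℕ} (hi : i < n) :
    -per n y t i 1 = (if i = 0 then t else y.1 i) ∧ -per n y t i 2 = y.2 i := by
  have e : (i : ℤ) % n = i := Int.emod_eq_of_lt (by omega) (by omega)
  simp [per, e]

theorem pr_fl (h : (seqs k n).L y) (t : K) : pr n (fl n y t) = y := by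
  refine Prod.ext (funext fun i => ?_) (funext fun i => ?_) <;> simp only [pr, coef_fl h] <;>
    split_ifs with e
  · rw [(per_nat t e.2).1, if_neg e.1.ne']
  · rcases (by omega : i = 0 ∨ n ≤ i) with e | e
    exacts [e ▸ h.1.symm, (h.2.1 i e).1.symm]
  · exact (per_nat t e).2
  · exact (h.2.1 i (by omega)).2.symm

theorem s0_fl (h : (seqs k n).L y) (t : K) : s0 n (fl n y t) = t := by
  rw [s0, coef_fl h]
  exact (per_nat t (NeZero.pos n)).1

omit [NeZero n] in
theorem live_pr (h : Flag n 2 ∅ x) : (seqs k n).L (pr n x) :=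
  ⟨by simp [pr], fun _ _ => ⟨if_neg (by omega), if_neg (by omega)⟩,
    fun _ hi => (if_pos hi).trans_ne (neg_ne_zero.2 (h.rel.band.top _))⟩

theorem fl_pr (h : Flag n 2 ∅ x) : fl n (pr n x) (s0 n x) = x := by
  have b := h.rel.band
  have e : per n (pr n x) (s0 n x) = coef n 2 (x 2) := by
    funext i l
    obtain ⟨h0, h1⟩ := mod_lt (n := n) i
    have e := b.per_mul (i % n) l (i / n)
    rw [Int.emod_add_mul_ediv] at e
    rw [e]
    obtain ⟨m, hm⟩ := Int.eq_ofNat_of_zero_le h0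
    simp only [per, pr, s0, hm, Int.toNat_natCast]
    rcases l with _ | _ | _ | l
    · exact (b.one _).symm
    · by_cases h2 : m = 0
      · simp [h2]
      · simp [h2, show 0 < m ∧ m < n by omega]
    · simp [show m < n by omega]
    · simp [b.zero _ (l + 1 + 1 + 1) (by omega)]
  funext i
  rw [fl, e, ← h.rel.eq_sol]
  split_ifs with e
  · rw [e]
  · exact (h.bot i (by simp) e).symm

theorem fU_fl (h : (seqs k n).L y) (t : K) : fU n 2 (fl n y t 2) = t + (seqs k n).f y := by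
  rw [fU, coef_fl h, ← Finset.sum_neg_distrib,
    Finset.sum_congr rfl fun i hi => (per_nat t (Finset.mem_range.1 hi)).1]
  obtain ⟨m, rfl⟩ := Nat.exists_eq_succ_of_ne_zero (NeZero.ne n)
  simp [Finset.sum_range_succ', h.1, add_comm]

theorem chi_fl (h : (seqs k n).L y) (t : K) : chi n (fl n y t 2) = Polynomial.X ^ 2 -
    C (mono y.1 y.2 n 0 0 + mono y.1 y.2 n 1 1 + t * mono y.1 y.2 n 1 0) * Polynomial.X +
      C (mono y.1 y.2 n).det := by
  have e : mono (fun i => -per n y t i 1) (fun i => -per n y t i 2) n =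
      !![1, t; 0, 1] * mono y.1 y.2 n := by
    rw [mono_congr (fun i hi => (per_nat t hi).1) fun i hi => (per_nat t hi).2]
    obtain ⟨m, rfl⟩ := Nat.exists_eq_succ_of_ne_zero (NeZero.ne n)
    rw [mono_succ', mono_succ', ← Matrix.mul_assoc, h.1]
    simp
  change chi n (Sol 2 _) = _
  rw [(band_per h t).chi_two, e, Matrix.charpoly_fin_two, Matrix.det_mul, Matrix.trace_fin_two]
  simp [Matrix.mul_apply, Fin.sum_univ_two, add_right_comm]

theorem gr_fl (h : (seqs k n).L y) (h' : (seqs k n).L y') (r : (seqs k n).R φ y y') (e : φ t t')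
    (i : ℕ) : φ.GR (fl n y t i) (fl n y' t' i) := by
  simp only [fl]
  split_ifs
  · refine CR.sol (fun i l => ?_) (band_per h t) (band_per h' t')
    simp only [per]
    split_ifs
    exacts [φ.one, e.neg, (r.1 _).neg, (r.2 _).neg, φ.zero]
  · exact .bot

omit [NeZero n] in
theorem rel_pr (h : Flag n 2 ∅ x) (h' : Flag n 2 ∅ x') (r : φ.GR (x 2) (x' 2)) :
    (seqs k n).R φ (pr n x) (pr n x') ∧ φ (s0 n x) (s0 n x') := by
  have c := r.coef h.rel h'.rel
  refine ⟨⟨fun i => ?_, fun i => ?_⟩, (c _ _).neg⟩ <;> simp only [pr] <;> split_ifs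
  exacts [(c _ _).neg, φ.zero, (c _ _).neg, φ.zero]

theorem pr_star (h : Flag n 2 ∅ x) : pr n (star n x) = revs n (pr n x) ∧
    s0 n (star n x) = s0 n x := by
  have b := h.rel.band
  refine ⟨Prod.ext (funext fun i => ?_) (funext fun i => ?_), by
    rw [s0, (h.coef_star 0).1, neg_zero, s0]⟩ <;> simp only [pr, revs] <;>
    refine if_ctx_congr Iff.rfl (fun hi => ?_) fun _ => rfl
  · rw [if_pos (by omega), (h.coef_star i).1, ← b.per]
    congr 2
    omega
  · rw [if_pos (by omega), (h.coef_star i).2, ← b.per]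
    congr 2
    omega

omit [NeZero n] in
theorem mono_revs (h : (seqs k n).L y) :
    mono (revs n y).1 (revs n y).2 n 1 0 = mono y.1 y.2 n 1 0 ∧ tau n (revs n y) = tau n y := by
  simp [tau, (revs_spec n y h).2.2, add_comm]

end StarAAux

open StarAAux in
theorem star_acts [CharZero F] (hχ : χ.ψ 1 ≠ 1) (hT : T.Dep {2}) :
    ((Zv k n 2 ∅).over T).Acts χ (fun _ x => (star n x.1, x.2)) ((-1) ^ (n + 1)) := by
  have ha := (pend_star (k := k) (n := n) (Finset.empty_subset _)).toPMap.over hT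
  have hp : ((Zv k n 2 ∅).over T).Reg (seqs k n) fun _ x => pr n x.1 :=
    ⟨fun _ _ h => live_pr h.1.1, fun _ _ _ _ _ h h' r => (rel_pr h.1.1 h'.1.1 (r.1 2)).1⟩
  have hc := hp.closed (((cb k n).rg 1 0).eq regF_zero)
  have e : ∀ ⦃K⦄ (x : ((Zv k n 2 ∅).over T).X K), ((Zv k n 2 ∅).over T).L x →
      (cb k n).g (pr n (star n x.1)) 1 0 = (cb k n).g (pr n x.1) 1 0 := fun _ x h => by
    rw [(pr_star h.1.1).1]
    exact (mono_revs (live_pr h.1.1)).1
  have lv : ∀ ⦃K⦄ (x : ((Zv k n 2 ∅).over T).X K) (y : (seqs k n).X K) (t : K),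
      ((Zv k n 2 ∅).over T).L x → (seqs k n).L y →
      chi n (fl n y t 2) = chi n (fl n (pr n x.1) (s0 n x.1) 2) →
      ((Zv k n 2 ∅).over T).L (K := K) (fl n y t, x.2) := fun _ x y t h h' e =>
    ⟨⟨flag_fl h' t, h.1.2⟩, hT _ _ _ (fun m hm => by
      rw [fl_pr h.1.1] at e
      rw [show m = 2 from hm]
      exact e.symm) h.2⟩
  refine .of_closed ha (fun _ x h => ⟨⟨h.1.1.star_flag (Finset.empty_subset _), h.1.2⟩,
      hT _ _ _ (fun m hm => by rw [show m = 2 from hm]; exact h.1.1.chi_star.symm) h.2⟩)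
    (fun _ x h => Prod.ext h.1.1.star_star rfl)
    (by rw [← mul_pow, neg_mul_neg, one_mul, one_pow]) hc
    (.of_uzero (ha.restr _ _ fun _ x h _ => by rw [← e x h])
      (Flow.uzero hχ (τ := fun _ r x => (fl n (pr n x.1) (s0 n x.1 + r), x.2))
        ⟨fun _ r x h => ?_, fun _ x h => ?_, fun _ r x h => ?_, fun _ r x h => ?_,
          fun _ _ φ r r' x y hr h h' s => ?_⟩))
    ((Acts.of_fix (a := fun _ x => x) fun _ _ _ => rfl).comp
      (cb_big hχ (NeZero.pos n) (Pt.restr _ _ hc.not.conv) (fun _ x => pr n x.1)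
        (fun _ x y => (fl n y (s0 n x.1 + tau n (pr n x.1) - tau n y), x.2))
        ⟨⟨fun _ x h => ⟨hp.live x h.1, h.2⟩, fun _ _ φ x y h h' => hp.reg φ x y h.1 h'.1⟩,
          fun _ x h => ?_, fun _ x y h h' q => ?_, fun _ _ φ x x' y y' h h' r a a' s _ => ?_⟩)
      (fun _ _ h => h) (fun _ x h => ?_) (one_mul _).symm)
    fun _ x h t => (e x h).trans t
  · have l := live_pr h.1.1.1
    have q : mono (pr n x.1).1 (pr n x.1).2 n 1 0 = 0 := h.2
    refine ⟨lv x _ _ h.1 l ?_, (congrArg (fun u => (cb k n).g u 1 0) (pr_fl l _)).trans q⟩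
    rw [chi_fl l, chi_fl l, q, mul_zero, mul_zero]
  · rw [add_zero, fl_pr h.1.1.1]
  · have l := live_pr h.1.1.1
    rw [pr_fl l, s0_fl l, add_neg_cancel_right, fl_pr h.1.1.1]
  · have l := live_pr h.1.1.1
    change fU n 2 _ + _ = fU n 2 (x.1 2) + _ + _
    conv_rhs => rw [← fl_pr h.1.1.1]
    rw [fU_fl l, fU_fl l]
    ring
  · have c := rel_pr h.1.1.1 h'.1.1.1 (s.1 2)
    exact ⟨gr_fl (live_pr h.1.1.1) (live_pr h'.1.1.1) c.1 (c.2.add hr), s.2⟩
  · rw [add_sub_cancel_right, fl_pr h.1.1.1]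
  · have l := live_pr h.1.1.1
    have q1 : mono y.1 y.2 n 1 0 = mono (pr n x.1).1 (pr n x.1).2 n 1 0 := congrArg Prod.fst q
    have q2 : (mono y.1 y.2 n).det = (mono (pr n x.1).1 (pr n x.1).2 n).det := congrArg Prod.snd q
    have q3 : mono (pr n x.1).1 (pr n x.1).2 n 1 0 ≠ 0 := h.2
    refine ⟨⟨lv x _ _ h.1 h'.1 ?_, (congrArg (fun u => (cb k n).g u 1 0) (pr_fl h'.1 _)).trans_ne h'.2⟩,
      pr_fl h'.1 _, ?_, fun z => ?_⟩
    · rw [chi_fl l, chi_fl h'.1, q2, tau, tau, q1]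
      congr 4
      field_simp
      ring
    · change fU n 2 _ + _ = fU n 2 (x.1 2) + _ + (_ - tau n y) - (_ - tau n (pr n x.1))
      conv_rhs => rw [← fl_pr h.1.1.1]
      rw [fU_fl l, fU_fl h'.1, pr_fl l]
      ring
    · rw [pr_fl h'.1, s0_fl h'.1, sub_add_cancel]
  · have c := rel_pr h.1.1.1 h'.1.1.1 (r.1 2)
    have d : ∀ {u : (seqs k n).X _} {v : (seqs k n).X _}, (seqs k n).R φ u v →
        mono v.1 v.2 n 1 0 ≠ 0 → φ (tau n u) (tau n v) := fun r h =>
      ((Place.mono r.1 r.2 n 0 0).add (Place.mono r.1 r.2 n 1 1)).div (Place.mono r.1 r.2 n 1 0) h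
    exact ⟨gr_fl a.1 a'.1 s ((c.2.add (d c.1 h'.2)).sub (d s a'.2)), r.2⟩
  · dsimp only
    rw [(mono_revs (live_pr h.1.1.1)).2, add_sub_cancel_right, ← (pr_star h.1.1.1).1,
      ← (pr_star h.1.1.1).2, fl_pr (h.1.1.1.star_flag (Finset.empty_subset _))]

end

end Pool.Agent.Lib.MP_fc2ced_ag.K
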