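import Pool.Agent.Lib.MP_fc2ced_ag.K.Geo

/-! The variety of invariant subspaces and the strata on which the data of a descent are regular. -/

open CategoryTheory Function Polynomial

namespace Pool.Agent.Lib.MP_fc2ced_ag.K

noncomputable section

variable {k : Type} [Field k] {F : Type} [Field F] {χ : Chr k F} {n : ℕ} [NeZero n] {w j l : ℕ}
  {I : Finset ℕ} {P : Pt k} {T : PC P}

open Pt Place

namespace StrataAux

section Lin

variable {K : Type} [Field K] {W : Sp K} {a e : ℤ} {Q J : Finset ℤ}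

/-- The recurrence with constant coefficients given by a polynomial in the shift. -/
def pb (n m : ℕ) (p : K[X]) (_ : ℤ) (l : ℕ) : K :=
  ∑ b ∈ Finset.range (m + 1), if l = n * (m - b) then p.coeff b else 0

theorem band_pb (W : Sp K) : Band n (n * (chi n W).natDegree)
    (pb n (chi n W).natDegree (chi n W)) := by
  have hn := NeZero.pos n
  refine ⟨fun _ _ => rfl, fun i => ?_, fun i => ?_, fun i l hl => ?_⟩
  · rw [pb, Finset.sum_eq_single_of_mem _ (Finset.self_mem_range_succ _) fun b hb hne =>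
      if_neg (Nat.mul_pos hn (by have := Finset.mem_range.1 hb; omega)).ne, if_pos (by simp)]
    exact chi_monic W
  · rw [pb, Finset.sum_eq_single_of_mem 0 (by simp) fun b hb hne =>
      if_neg fun h => by
        have := Nat.eq_of_mul_eq_mul_left hn h
        have := Finset.mem_range.1 hb
        omega, if_pos (by simp)]
    exact chi_coeff_zero W
  · exact Finset.sum_eq_zero fun b _ =>
      if_neg ((Nat.mul_le_mul_left n (Nat.sub_le _ b)).trans_lt hl).ne'

omit [NeZero n] in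
theorem le_sol (hW : Stab n W) :
    W ≤ Sol (n * (chi n W).natDegree) (pb n (chi n W).natDegree (chi n W)) := by
  have := hW.fin
  intro y hy
  have h1 (b : ℕ) (t : ℤ) :
      ((((sh K n).toLinearMap.restrict hW.mem) ^ b) ⟨y, hy⟩ : Sq K) t = y (t - b * n) := by
    induction b generalizing t with
    | zero => simp
    | succ b ih =>
      rw [pow_succ', Module.End.mul_apply, LinearMap.coe_restrict_apply, LinearEquiv.coe_coe,
        sh_apply, ih]
      congr 1
      push_cast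
      ring
  have h2 := LinearMap.aeval_self_charpoly ((sh K n).toLinearMap.restrict hW.mem)
  rw [← hW.chi_eq, aeval_eq_sum_range] at h2
  refine mem_Sol.2 fun i => ?_
  have h3 := congr((($h2 ⟨y, hy⟩ : W) : Sq K) (i + (chi n W).natDegree * n))
  simp only [LinearMap.sum_apply, LinearMap.smul_apply, Submodule.coe_sum, Submodule.coe_smul,
    Finset.sum_apply, Pi.smul_apply, h1, smul_eq_mul] at h3
  simp only [op_apply, pb, Finset.sum_mul]
  rw [Finset.sum_comm]
  refine Eq.trans (Finset.sum_congr rfl fun b hb => ?_) h3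
  have hb' := Nat.lt_succ_iff.1 (Finset.mem_range.1 hb)
  rw [Finset.sum_eq_single_of_mem (n * ((chi n W).natDegree - b)) (Finset.mem_range.2
    (Nat.lt_succ_of_le (Nat.mul_le_mul_left n (Nat.sub_le _ b))))
    fun l _ hl => by rw [if_neg hl, zero_mul], if_pos rfl]
  congr 2
  push_cast [hb']
  ring

/-- Normalized vectors. -/
def NA (W : Sp K) (a : ℤ) (Q : Finset ℤ) (μ : Sq K) : Prop :=
  μ ∈ W ∧ μ a = 1 ∧ ∀ t ∈ Q, t ≠ a → μ t = 0

/-- The coordinates in `Q` determine the vectors. -/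
def NB (W : Sp K) (Q : Finset ℤ) : Prop := ∀ y ∈ W, (∀ t ∈ Q, y t = 0) → y = 0

/-- Normalized relations. -/
def NC (W : Sp K) (a : ℤ) (J : Finset ℤ) (c : J → K) : Prop :=
  ∀ y ∈ W, ∑ l, c l * y l = -y (a + 1)

/-- The coordinates in `J` are independent. -/
def ND (W : Sp K) (J : Finset ℤ) : Prop := ∀ c : J → K, (∀ y ∈ W, ∑ l, c l * y l = 0) → c = 0

theorem NA.unique {μ μ' : Sq K} (h : NA W a Q μ) (h' : NA W a Q μ') (b : NB W Q) : μ = μ' :=
  sub_eq_zero.1 (b _ (W.sub_mem h.1 h'.1) fun t ht => by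
    by_cases k : t = a
    · rw [k, Pi.sub_apply, h.2.1, h'.2.1, sub_self]
    · rw [Pi.sub_apply, h.2.2 t ht k, h'.2.2 t ht k, sub_self])

theorem NC.unique {c c' : J → K} (h : NC W a J c) (h' : NC W a J c') (d : ND W J) : c = c' :=
  sub_eq_zero.1 (d _ fun y hy => by
    simp only [Pi.sub_apply, sub_mul, Finset.sum_sub_distrib, h y hy, h' y hy, sub_self])

theorem rel_span {d : ℕ} {y : Fin d → Sq K} (c : J → K) (g : Sq K →ₗ[K] K) :
    (∀ z ∈ Submodule.span K (Set.range y), ∑ l, c l * z l = g z) ↔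
      ∑ l, c l • (fun b => y b l) = fun b => g (y b) := by
  refine ⟨fun h => funext fun b => ?_, fun h z hz => ?_⟩
  · simpa [Finset.sum_apply] using h _ (Submodule.subset_span ⟨b, rfl⟩)
  induction hz using Submodule.span_induction with
  | mem z hz =>
    obtain ⟨b, rfl⟩ := hz
    simpa [Finset.sum_apply] using congrFun h b
  | zero => simp
  | add u v _ _ h1 h2 => simp only [Pi.add_apply, mul_add, Finset.sum_add_distrib, h1, h2, map_add]
  | smul r u _ h1 =>
    simp only [Pi.smul_apply, smul_eq_mul, map_smul, ← h1, Finset.mul_sum, mul_left_comm]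

theorem nd_iff {d : ℕ} {y : Fin d → Sq K} : ND (Submodule.span K (Set.range y)) J ↔
    LinearIndependent K fun (l : J) b => y b l := by
  rw [Fintype.linearIndependent_iff]
  exact forall_congr' fun c => imp_congr (rel_span c 0) funext_iff

theorem exists_AB [FiniteDimensional K W] {μ : Sq K} (hμ : μ ∈ W) (h1 : μ a = 1) (hae : a < e)
    (h0 : ∀ t, a < t → t ≤ e → μ t = 0) {B : Finset ℤ} (hB : NB W B) (hB' : Finset.Icc a e ⊆ B) :
    ∃ Q ⊆ B, Finset.Icc a e ⊆ Q ∧ (∃ μ, NA W a Q μ) ∧ NB W Q := by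
  classical
  let V : Sp K := W ⊓ Submodule.pi (Set.Icc a e) fun _ => ⊥
  have hV (z : Sq K) : z ∈ V ↔ z ∈ W ∧ ∀ t, a ≤ t → t ≤ e → z t = 0 :=
    and_congr_right fun _ => ⟨fun h t b c => h t ⟨b, c⟩, fun h t k => h t k.1 k.2⟩
  have : FiniteDimensional K V := Submodule.finiteDimensional_of_le inf_le_left
  obtain ⟨j, j1, j2⟩ := lin_piv (B : Set ℤ) _ V rfl fun z hz => hB z hz.1
  obtain ⟨u, u1, u2⟩ := lin_norm V rfl j j2
  have u3 (t : ℤ) (k : a ≤ t) (k' : t ≤ e) : (μ - ∑ b, μ (j b) • u b) t = μ t := by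
    simp [Finset.sum_apply, fun b => ((hV _).1 (u1 b)).2 t k k']
  refine ⟨Finset.Icc a e ∪ Finset.univ.image j, Finset.union_subset hB'
    (Finset.image_subset_iff.2 fun b _ => j1 b), Finset.subset_union_left,
    ⟨μ - ∑ b, μ (j b) • u b, W.sub_mem hμ (W.sum_mem fun b _ => W.smul_mem _ (u1 b).1),
      (u3 a le_rfl hae.le).trans h1, fun t ht hne => ?_⟩, fun y hy k => j2 y ((hV y).2
      ⟨hy, fun t b c => k t (Finset.mem_union_left _ (Finset.mem_Icc.2 ⟨b, c⟩))⟩)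
      fun b => k _ (Finset.mem_union_right _ (Finset.mem_image_of_mem j (Finset.mem_univ b)))⟩
  rcases Finset.mem_union.1 ht with k | k
  · have k' := Finset.mem_Icc.1 k
    exact (u3 t k'.1 k'.2).trans (h0 t (by omega) k'.2)
  · obtain ⟨b, -, rfl⟩ := Finset.mem_image.1 k
    simp [Finset.sum_apply, u2]

theorem exists_CD (h : ∀ y ∈ W, (∀ t, a + 1 < t → t ≤ e → y t = 0) → y (a + 1) = 0) :
    ∃ J ⊆ Finset.Icc (a + 2) e, (∃ c, NC W a J c) ∧ ND W J := by
  classical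
  let v : ℤ → W →ₗ[K] K := fun l => (LinearMap.proj (φ := fun _ : ℤ => K) l).domRestrict W
  obtain ⟨b, b1, -, b2, b3⟩ := exists_linearIndepOn_extension (linearIndepOn_empty K v)
    (Set.empty_subset (Finset.Icc (a + 2) e : Set ℤ))
  lift b to Finset ℤ using (Finset.finite_toSet _).subset b1
  have h1 : v (a + 1) ∈ Submodule.span K (Set.range fun l : Finset.Icc (a + 2) e => v l) :=
    mem_span_of_iInf_ker_le_ker fun y hy => h y y.2 fun t k k' =>
      (Submodule.mem_iInf _).1 hy ⟨t, Finset.mem_Icc.2 ⟨by omega, k'⟩⟩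
  have h2 : -v (a + 1) ∈ Submodule.span K (Set.range fun l : b => v l) := by
    rw [Set.image_eq_range v (b : Set ℤ)] at b2
    refine neg_mem (Submodule.span_le.2 ?_ h1)
    rintro _ ⟨l, rfl⟩
    exact b2 ⟨l, l.2, rfl⟩
  obtain ⟨c, hc⟩ := (Submodule.mem_span_range_iff_exists_fun K).1 h2
  refine ⟨b, b1, ⟨c, fun y hy => ?_⟩, fun c hc => funext (Fintype.linearIndependent_iff.1
    (show LinearIndependent K fun l : b => v l from b3) c (LinearMap.ext fun y => ?_))⟩
  · simpa [v, LinearMap.sum_apply] using congr($hc ⟨y, hy⟩)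
  · simpa [v, LinearMap.sum_apply] using hc y y.2

/-- Extension by zero. -/
def ex0 (J : Finset ℤ) (c : J → K) (t : ℤ) : K := if h : t ∈ J then c ⟨t, h⟩ else 0

theorem NC.theta {c : J → K} (h : NC W a J c) (hJ : J ⊆ Finset.Icc (a + 2) e) :
    ∀ y ∈ W, theta a e (ex0 J c) y = 0 := fun y hy => by
  change y (a + 1) + ∑ l ∈ Finset.Icc (a + 2) e, ex0 J c l * y l = 0
  rw [← Finset.sum_subset hJ fun t _ ht => by rw [ex0, dif_neg ht, zero_mul],
    ← Finset.sum_coe_sort J, Finset.sum_congr rfl fun l _ => by rw [ex0, dif_pos l.2], h y hy,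
    add_neg_cancel]

end Lin

variable {K K' : Fld k} {φ : Place K K'} {W : Sp K} {W' : Sp K'} {a : ℤ} {Q J : Finset ℤ}

theorem NB.gen (b : NB W' Q) (h : φ.GR W W') : NB W Q := h.piv (Q : Set ℤ) b

theorem NA.spec {μ : Sq K} (hA : NA W a Q μ) (b : NB W' Q) (h : φ.GR W W') :
    ∃ μ', φ.VR μ μ' ∧ NA W' a Q μ' := by
  obtain ⟨μ', hv⟩ := h.exists_of_piv (Q : Set ℤ) b hA.1 fun t ht => by
    by_cases k : t = a
    · exact ⟨1, by rw [k, hA.2.1]; exact φ.one⟩
    · exact ⟨0, by rw [hA.2.2 t ht k]; exact φ.zero⟩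
  exact ⟨μ', hv, h.mem hA.1 hv, (hv a).eq_of φ.one hA.2.1,
    fun t ht k => (hv t).eq_of φ.zero (hA.2.2 t ht k)⟩

theorem ND.gen (d : ND W' J) (h : φ.GR W W') : ND W J := by
  obtain ⟨m, y, y', hv, rfl, rfl, -⟩ := h
  exact nd_iff.2 (VR.linearIndependent (fun l b => hv b l) (nd_iff.1 d))

theorem NC.spec {c : J → K} (hC : NC W a J c) (d : ND W' J) (h : φ.GR W W') :
    ∃ c', φ.VR c c' ∧ NC W' a J c' := by
  obtain ⟨m, y, y', hv, rfl, rfl, -⟩ := h
  have e := (rel_span c (-LinearMap.proj (φ := fun _ : ℤ => K) (a + 1))).1 hC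
  obtain ⟨c', h1, h2⟩ := VR.coeff (φ := φ) (fun (l : J) b => hv b l) (nd_iff.1 d) (c := c)
    (z' := fun b => -y' b (a + 1)) (by rw [e]; exact fun b => (hv b (a + 1)).neg)
  exact ⟨c', h1, (rel_span c' (-LinearMap.proj (φ := fun _ : ℤ => K') (a + 1))).2 h2.symm⟩

/-- The index set of the strata. -/
def Ix (n w : ℕ) : Finset (ℤ × ℤ × Finset ℤ × Finset ℤ) :=
  (Finset.Ico (0 : ℤ) (n + w) ×ˢ Finset.Ico (0 : ℤ) (n + w) ×ˢ
    (Finset.Ico (0 : ℤ) (n + w)).powerset ×ˢ (Finset.Ico (0 : ℤ) (n + w)).powerset).filter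
    fun x => x.1 < x.2.1 ∧ x.2.1 < x.1 + w ∧ Finset.Icc x.1 x.2.1 ⊆ x.2.2.1 ∧
      x.2.2.2 ⊆ Finset.Icc (x.1 + 2) x.2.1

end StrataAux

open StrataAux

theorem stab_fin {K : Fld k} {W : Sp K} (hW : Stab n W) : ∃ S : Finset K,
    ∀ (K' : Fld k) (φ φ' : Place K K'), (∀ s ∈ S, φ s = φ' s) → ∀ W' : Sp K', Stab n W' →
      φ.GR W W' → φ'.GR W W' := by
  classical
  obtain ⟨S, hS⟩ := GR.fin W (Finset.Ico (0 : ℤ) (n * (chi n W).natDegree : ℕ))
  refine ⟨S ∪ (Finset.range ((chi n W).natDegree + 1)).image (chi n W).coeff,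
    fun K' φ φ' e W' hW' h => ?_⟩
  have h1 := h.chi hW
  have h2 := (h1.monic (chi_monic W)).2
  have b' := band_pb (n := n) W'
  rw [h2] at b'
  have key (ψ : Place K K') (hψ : ∀ b ∈ Finset.range ((chi n W).natDegree + 1),
      ψ ((chi n W).coeff b) ((chi n W').coeff b)) := CR.sol (φ := ψ) (fun i l =>
    Place.sum (s := Finset.range ((chi n W).natDegree + 1)) fun b hb => by
      split_ifs
      exacts [hψ b hb, ψ.zero]) (band_pb W) b'
  exact hS K' φ φ' (fun s hs => e s (Finset.mem_union_left _ hs)) _ _ _ (le_sol hW)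
    (key φ fun b _ => h1 b) (key φ' fun b hb => by
      rw [← e _ (Finset.mem_union_right _ (Finset.mem_image_of_mem _ hb))]
      exact h1 b)
    (fun z hz k => b'.eq_zero hz 0 fun t a c => k t (Finset.mem_Ico.2 ⟨a, by omega⟩)) h

variable (k n) in
/-- Invariant subspaces. -/
@[reducible] def St : Pt k where
  X K := Sp K
  L _ x := Stab n x
  R _ _ φ := φ.GR
  f _ _ := 0
  func _ _ _ _ _ _ _ _ _ := GR.func
  id _ _ _ a _ := have := a.fin; GR.id_iff
  comp _ _ _ _ _ _ _ a _ := GR.comp_iff.trans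
    ⟨fun ⟨y, h⟩ => ⟨y, h.1.stab a, h⟩, fun ⟨y, _, h⟩ => ⟨y, h⟩⟩
  reg _ _ φ _ _ _ _ _ := φ.zero
  fin _ _ a := stab_fin a

/-- A finite cover of the irrelevant subspaces by locally closed sets on which a descent can be
chosen that depends regularly on the subspace. -/
theorem exists_strata (hw : w ≤ n + 1) : ∃ (ι : Type) (_ : Finite ι) (D : ι → (St k n).Cond)
    (a e : ι → ℤ) (c : ι → ∀ ⦃K : Fld k⦄, Sp K → ℤ → K) (μ : ι → ∀ ⦃K : Fld k⦄, Sp K → Sq K),
    (∀ i, (St k n).Conv (D i)) ∧ (∀ i, e i < a i + w) ∧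
    (∀ ⦃K : Fld k⦄ (U W : Sp K), Rel n w U → Stab n W → W ≤ U → Module.finrank K W = j →
      ¬ Rel n j W → ∃ i, D i W) ∧
    (∀ i ⦃K : Fld k⦄ (W : Sp K), Stab n W → D i W → Desc n W (a i) (e i) (c i W) (μ i W)) ∧
    ∀ i ⦃K K' : Fld k⦄ (φ : Place K K') (W : Sp K) (W' : Sp K'), Stab n W → Stab n W' → D i W →
      D i W' → φ.GR W W' → φ.VR (μ i W) (μ i W') ∧
        ∀ t, a i + 2 ≤ t → t ≤ e i → φ (c i W t) (c i W' t) := by
  have hI (i : Ix n w) := (Finset.mem_filter.1 i.2).2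
  refine ⟨Ix n w, inferInstance, fun i _ W => (∃ μ, NA W i.1.1 i.1.2.2.1 μ) ∧ NB W i.1.2.2.1 ∧
      (∃ c, NC W i.1.1 i.1.2.2.2 c) ∧ ND W i.1.2.2.2, fun i => i.1.1, fun i => i.1.2.1,
    fun i _ W => ex0 _ (Classical.epsilon (NC W i.1.1 i.1.2.2.2)),
    fun i _ W => Classical.epsilon (NA W i.1.1 i.1.2.2.1),
    fun i _ _ _ φ φ' x y z _ _ _ r r' hx hz => ?_, fun i => (hI i).2.1,
    fun K U W hU hW le hj h => ?_, fun i K W hW hD => ?_,
    fun i K K' φ W W' _ _ hD hD' r => ⟨?_, fun t _ _ => ?_⟩⟩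
  · have b := hz.2.1.gen r'
    have d := hz.2.2.2.gen r'
    exact ⟨hx.1.elim fun _ h => (h.spec b r).imp fun _ h => h.2, b,
      hx.2.2.1.elim fun _ h => (h.spec d r).imp fun _ h => h.2, d⟩
  · have := hW.fin
    obtain ⟨a, e, h0, h1, h2, h3, ⟨μ, m1, m2, m3⟩, h4⟩ :=
      exists_descent (NeZero.pos n) hU hW le hj h
    obtain ⟨Q, q1, q2, q3, q4⟩ := exists_AB m1 m2 h2 m3 (B := Finset.Ico (0 : ℤ) (n + w))
      (fun y hy k => hU.eq_zero (le hy) a fun t b c => k t (Finset.mem_Ico.2 (by omega)))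
      fun t ht => Finset.mem_Ico.2 (by have := Finset.mem_Icc.1 ht; omega)
    obtain ⟨J, j1, j2, j3⟩ := exists_CD h4
    refine ⟨⟨(a, e, Q, J), Finset.mem_filter.2 ⟨?_, h2, h3, q2, j1⟩⟩, q3, q4, j2, j3⟩
    simp only [Finset.mem_product, Finset.mem_Ico, Finset.mem_powerset]
    exact ⟨by omega, by omega, q1, fun t ht =>
      Finset.mem_Ico.2 (by have := Finset.mem_Icc.1 (j1 ht); omega)⟩
  · have hA := Classical.epsilon_spec hD.1
    obtain ⟨h1, h2, h3, h4⟩ := hI i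
    exact ⟨NeZero.pos n, hW, h1, by beta_reduce; omega, hA.1, hA.2.1, fun t b c =>
      hA.2.2 t (h3 (Finset.mem_Icc.2 ⟨b.le, c⟩)) b.ne', (Classical.epsilon_spec hD.2.2.1).theta h4⟩
  · obtain ⟨μ', h1, h2⟩ := NA.spec (Classical.epsilon_spec hD.1) hD'.2.1 r
    rwa [h2.unique (Classical.epsilon_spec hD'.1) hD'.2.1] at h1
  · obtain ⟨c', h1, h2⟩ := NC.spec (Classical.epsilon_spec hD.2.2.1) hD'.2.2.2 r
    rw [h2.unique (Classical.epsilon_spec hD'.2.2.1) hD'.2.2.2] at h1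
    simp only [ex0]
    split_ifs
    exacts [h1 _, φ.zero]

end

end Pool.Agent.Lib.MP_fc2ced_ag.K
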