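import Pool.Agent.Lib.MP_fc2ced_ag.K.Map

/-! Homotopies and the basic vanishing statements. -/

open CategoryTheory Function Polynomial

namespace Pool.Agent.Lib.MP_fc2ced_ag.K

noncomputable section

variable {k : Type} [Field k] {F : Type} [Field F] {χ : Chr k F}

open Ob

/-- The monic quadratic polynomial with sum `σ` and product `π` of the roots. -/
def quad {K : Type} [Field K] (σ π : K) : K[X] := X ^ 2 - C σ * X + C π

theorem quad_monic {K : Type} [Field K] (σ π : K) : (quad σ π).Monic := by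
  unfold quad; monicity!

theorem quad_root {K : Type} [Field K] {σ π s : K} : (quad σ π).IsRoot s ↔ s * (σ - s) = π := by
  simp only [quad, IsRoot.def, eval_add, eval_sub, eval_pow, eval_X, eval_mul, eval_C]
  constructor <;> intro h <;> linear_combination -h

theorem quad_mem {K : Type} [Field K] {σ π s : K} (h : s ∈ (quad σ π).roots) :
    s * (σ - s) = π := quad_root.1 (isRoot_of_mem_roots h)

theorem quad_roots {K : Type} [Field K] {σ π a b : K} (h : σ = a + b) (h' : π = a * b) :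
    (quad σ π).roots = {a, b} := by
  have e : quad σ π = (X - C a) * (X - C b) := by
    rw [quad, h, h', C_add, C_mul]; ring
  rw [e, roots_mul (mul_ne_zero (X_sub_C_ne_zero a) (X_sub_C_ne_zero b)), roots_X_sub_C,
    roots_X_sub_C]
  rfl

theorem quad_PR {K K' : Fld k} {φ : Place K K'} {σ π : K} {σ' π' : K'} (h : φ σ σ')
    (h' : φ π π') : φ.PR (quad σ π) (quad σ' π') :=
  ((Place.PR.X.pow 2).sub ((Place.PR.C h).mul Place.PR.X)).add (Place.PR.C h')

theorem quad_fin {K K' : Fld k} {φ : Place K K'} {σ π s : K} {σ' π' : K'} (h : φ σ σ')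
    (h' : φ π π') (e : s * (σ - s) = π) : ∃ s', φ s s' :=
  (quad_PR h h').exists_root (quad_monic _ _) (quad_root.2 e)

theorem Chr.add_as (χ : Chr k F) {K : Fld k} {y b : K} (h : y ^ χ.p - y = b) (r : K) :
    (y + r) ^ χ.p - (y + r) = b + (r ^ χ.p - r) := by
  have := χ.charFld K
  rw [add_pow_char]; linear_combination h

namespace Pt

variable {S S' : Pt k}

variable (S S') in
/-- A family of multivalued maps over the affine line that translates the function by `t` times
the parameter (`t = 0` or `t = 1`). -/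
structure IsFam (t : ℕ) (m : ∀ ⦃K : Fld k⦄, K → S.X K → Multiset (S'.X K)) : Prop where
  f : ∀ ⦃K : Fld k⦄ (r : K) (x : S.X K), S.L x → ∀ z ∈ m r x, S'.L z → S'.f z = S.f x + (t : K) * r
  sp : ∀ ⦃K K'⦄ (φ : Place K K') (r : K) (r' : K') (x : S.X K) (y : S.X K'), φ r r' → S.L x →
    S.L y → S.R φ x y → Multiset.Rel (S'.Sp φ) (m r x) (m r' y)
  dead : ∀ ⦃K K'⦄ (φ : Place K K') (r : K) (r' : K') (x : S.X K), φ r r' → S.L x → S.Dd φ x →
    ∀ z ∈ m r x, S'.Dd φ z

variable {m : ∀ ⦃K : Fld k⦄, K → S.X K → Multiset (S'.X K)}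

/-- Homotopic maps agree. -/
theorem IsFam.null_sub (h : IsFam S S' 0 m) {u v : S.E χ ⟶ S'.E χ}
    (hu : ∀ ⦃K⦄ (x : S.X K), S.L x → u.1 K (S.cl F x) = S'.cls F (m 0 x))
    (hv : ∀ ⦃K⦄ (x : S.X K), S.L x → v.1 K (S.cl F x) = S'.cls F (m 1 x)) : Null (u - v) := by
  let H : Htpy (S.E χ) (S'.E χ) :=
    { h := fun O r => S.lf fun x => S'.cls F (m r x)
      nat := fun O O' φ r r' hr => lin_ext fun x hx => by
        rw [LinearMap.comp_apply, LinearMap.comp_apply,
          lf_cl (c := fun x => S'.cls F (m r x)) hx]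
        rcases R_or_Dd φ x with ⟨y, hy, h1⟩ | h1
        · rw [map_cl (.of_R hx hy h1), map_smul, lf_cl hy,
            map_cls (b := S.f x) (fun z hz hl => by simpa using h.f r x hx z hz hl)
              (h.sp φ r r' x y hr hx hy h1)]
        · rw [map_cl_Dd h1, map_zero, map_cls_Dd (h.dead φ r r' x hr hx h1)] }
  have e0 : H.val 0 = u := hom_ext fun K x hx => by
    rw [hu x hx, Htpy.val_app, map_zero]; exact lf_cl hx
  have e1 : H.val 1 = v := hom_ext fun K x hx => by
    rw [hv x hx, Htpy.val_app, map_one]; exact lf_cl hx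
  exact e0 ▸ e1 ▸ H.null

/-- A map that moves in a family that translates the function vanishes. -/
theorem IsFam.null (hχ : χ.ψ 1 ≠ 1) (h : IsFam S S' 1 m) {u : S.E χ ⟶ S'.E χ}
    (hu : ∀ ⦃K⦄ (x : S.X K), S.L x → u.1 K (S.cl F x) = S'.cls F (m 0 x)) : Null u := by
  let H : Htpy (S.E χ) (S'.E χ) :=
    { h := fun O r => S.lf fun x =>
        χ.ev (χ.rt (S.f x) + r - χ.rt (S.f x + (r ^ χ.p - r))) • S'.cls F (m (r ^ χ.p - r) x)
      nat := fun O O' φ r r' hr => lin_ext fun x hx => by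
        have hs := (hr.pow χ.p).sub hr
        rw [LinearMap.comp_apply, LinearMap.comp_apply, lf_cl (c := fun x =>
          χ.ev (χ.rt (S.f x) + r - χ.rt (S.f x + (r ^ χ.p - r))) •
            S'.cls F (m (r ^ χ.p - r) x)) hx, map_smul]
        rcases R_or_Dd φ x with ⟨y, hy, h1⟩ | h1
        · have hb := S.reg φ x y hx hy h1
          obtain ⟨y1, a1, a2⟩ := Chr.exists_rel (χ.rt_spec (S.f x)) hb
          obtain ⟨y2, b1, b2⟩ := Chr.exists_rel (χ.rt_spec (S.f x + (r ^ χ.p - r))) (hb.add hs)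
          rw [map_cl (.of_R hx hy h1), map_smul, lf_cl hy,
            map_cls (b := S.f x + (r ^ χ.p - r))
              (fun z hz hl => by simpa using h.f _ x hx z hz hl)
              (h.sp φ _ _ x y hs hx hy h1), smul_smul, smul_smul, Chr.cf_eq hb a1,
            Chr.cf_eq (hb.add hs) b1,
            ← Chr.ev_rel (Chr.sub_fix ((χ.add_as (χ.rt_spec _) r).trans (χ.rt_spec _).symm))
              ((a1.add hr).sub b1),
            ← Chr.ev_add (Chr.sub_fix (a2.trans (χ.rt_spec _).symm))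
              (Chr.sub_fix ((χ.add_as (χ.rt_spec _) r').trans (χ.rt_spec _).symm)),
            ← Chr.ev_add (Chr.sub_fix ((χ.add_as a2 r').trans b2.symm))
              (Chr.sub_fix (b2.trans (χ.rt_spec _).symm))]
          congr 2
          ring
        · rw [map_cl_Dd h1, map_zero, map_cls_Dd (h.dead φ _ _ x hs hx h1), smul_zero] }
  have hp := χ.prime.out.ne_zero
  have e0 : H.val 0 = u := hom_ext fun K x hx => by
    rw [hu x hx, Htpy.val_app, map_zero]
    refine (lf_cl hx).trans ?_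
    simp [zero_pow hp]
  have e1 : H.val 1 = χ.ψ 1 • u := hom_ext fun K x hx => by
    change _ = χ.ψ 1 • u.1 K (S.cl F x)
    rw [hu x hx, Htpy.val_app, map_one]
    refine (lf_cl hx).trans ?_
    simp [Chr.ev_one]
  have := H.null.smul (1 - χ.ψ 1)⁻¹
  rwa [e0, e1, ← one_smul F u, smul_smul, ← sub_smul, smul_smul, mul_one,
    inv_mul_cancel₀ (sub_ne_zero.2 hχ.symm), one_smul] at this

variable (S) in
/-- An action of the additive group that translates the function. -/
structure Flow (τ : ∀ ⦃K : Fld k⦄, K → S.X K → S.X K) : Prop where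
  live : ∀ ⦃K : Fld k⦄ (r : K) (x : S.X K), S.L x → S.L (τ r x)
  zero : ∀ ⦃K⦄ (x : S.X K), S.L x → τ 0 x = x
  neg : ∀ ⦃K : Fld k⦄ (r : K) (x : S.X K), S.L x → τ (-r) (τ r x) = x
  f : ∀ ⦃K : Fld k⦄ (r : K) (x : S.X K), S.L x → S.f (τ r x) = S.f x + r
  reg : ∀ ⦃K K'⦄ (φ : Place K K') (r : K) (r' : K') (x : S.X K) (y : S.X K'), φ r r' → S.L x →
    S.L y → S.R φ x y → S.R φ (τ r x) (τ r' y)

theorem Flow.uzero (hχ : χ.ψ 1 ≠ 1) {τ : ∀ ⦃K : Fld k⦄, K → S.X K → S.X K} (h : S.Flow τ) :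
    UZero (S.E χ) := by
  have fam : IsFam S S 1 fun _ r x => {τ r x} :=
    { f := fun K r x hx z hz _ => by
        rw [Multiset.mem_singleton.1 hz, h.f r x hx, Nat.cast_one, one_mul]
      sp := fun K K' φ r r' x y hr hx hy h1 => .cons
        (.of_R (h.live r x hx) (h.live r' y hy) (h.reg φ r r' x y hr hx hy h1)) .zero
      dead := fun K K' φ r r' x hr hx h1 z hz hl w hw h2 => by
        rw [Multiset.mem_singleton.1 hz] at h2 hl
        have := h.reg φ _ _ _ w hr.neg hl hw h2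
        rw [h.neg r x hx] at this
        exact h1 hx _ (h.live _ w hw) this }
  refine UZero.iff_null.2 (fam.null hχ fun K x hx => ?_)
  rw [cls_singleton, h.zero x hx]
  rfl

variable (S) in
/-- Two coordinates `a, b` that can be moved by `mv` keeping their product, and that enter the
function through `κ (a + b)`. -/
structure Swap (a b κ : ∀ ⦃K⦄, S.X K → K) (mv : ∀ ⦃K⦄, S.X K → K → K → S.X K) : Prop where
  ra : S.RegF a
  rb : S.RegF b
  rκ : S.RegF κ
  ne : ∀ ⦃K⦄ (x : S.X K), S.L x → κ x ≠ 0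
  self : ∀ ⦃K⦄ (x : S.X K), S.L x → mv x (a x) (b x) = x
  spec : ∀ ⦃K : Fld k⦄ (x : S.X K) (s t : K), S.L x → s * t = a x * b x → S.L (mv x s t) ∧
    a (mv x s t) = s ∧ b (mv x s t) = t ∧ κ (mv x s t) = κ x ∧
    S.f (mv x s t) = S.f x + κ x * (s + t - a x - b x) ∧ mv (mv x s t) (a x) (b x) = x
  reg : ∀ ⦃K K'⦄ (φ : Place K K') (x : S.X K) (y : S.X K') (s t : K) (s' t' : K'), S.L x → S.L y →
    S.R φ x y → φ s s' → φ t t' → s * t = a x * b x → S.R φ (mv x s t) (mv y s' t')

theorem Swap.acts (hχ : χ.ψ 1 ≠ 1) {a b κ : ∀ ⦃K⦄, S.X K → K} {mv : ∀ ⦃K⦄, S.X K → K → K → S.X K}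
    (h : S.Swap a b κ mv) : S.Acts χ (fun _ x => mv x (b x) (a x)) (-1) := by
  have back : ∀ ⦃K K'⦄ (φ : Place K K') (x : S.X K) (s t : K) (w : S.X K') (a' b' : K'), S.L x →
      s * t = a x * b x → S.L w → S.R φ (mv x s t) w → φ (a x) a' → φ (b x) b' → ¬ S.Dd φ x := by
    intro K K' φ x s t w a' b' hx e hw h2 ha hb h1
    obtain ⟨l, e1, e2, -, -, e5⟩ := h.spec x s t hx e
    have r1 := h.ra φ _ w l hw h2
    have r2 := h.rb φ _ w l hw h2
    have := h.reg φ _ w (a x) (b x) a' b' l hw h2 ha hb (by rw [e1, e2, e])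
    rw [e5] at this
    exact h1 hx _ (h.spec w a' b' hw
      ((ha.mul hb).eq_of (r1.mul r2) (by rw [e1, e2, e]))).1 this
  have im : IsMap S S fun _ x => mv x (b x) (a x) :=
    { f := fun K x hx _ => by
        rw [(h.spec x _ _ hx (mul_comm _ _)).2.2.2.2.1]; ring
      sp := fun K K' φ x y hx hy h1 => .of_R (h.spec x _ _ hx (mul_comm _ _)).1
        (h.spec y _ _ hy (mul_comm _ _)).1 (h.reg φ x y _ _ _ _ hx hy h1
          (h.rb φ x y hx hy h1) (h.ra φ x y hx hy h1) (mul_comm _ _))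
      dead := fun K K' φ x hx h1 l w hw h2 => by
        obtain ⟨-, e1, e2, -⟩ := h.spec x _ _ hx (mul_comm (b x) (a x))
        exact back φ x _ _ w _ _ hx (mul_comm _ _) hw h2 (e2 ▸ h.rb φ _ w l hw h2)
          (e1 ▸ h.ra φ _ w l hw h2) h1 }
  have fam : IsFam S S 1 fun _ r x => (quad (a x + b x + r / κ x) (a x * b x)).roots.map
      fun s => mv x s (a x + b x + r / κ x - s) :=
    { f := fun K r x hx z hz _ => by
        obtain ⟨s, hs, rfl⟩ := Multiset.mem_map.1 hz
        have := h.ne x hx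
        rw [(h.spec x _ _ hx (quad_mem hs)).2.2.2.2.1, Nat.cast_one]
        field_simp
        ring
      sp := fun K K' φ r r' x y hr hx hy h1 => by
        have r1 := h.ra φ x y hx hy h1
        have r2 := h.rb φ x y hx hy h1
        have r3 := (r1.add r2).add (hr.div (h.rκ φ x y hx hy h1) (h.ne y hy))
        refine Multiset.rel_map.2 (((quad_PR r3 (r1.mul r2)).roots (quad_monic _ _)).mono
          fun s hs s' hs' r4 => ?_)
        exact .of_R (h.spec x _ _ hx (quad_mem hs)).1 (h.spec y _ _ hy (quad_mem hs')).1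
          (h.reg φ x y _ _ _ _ hx hy h1 r4 (r3.sub r4) (quad_mem hs))
      dead := fun K K' φ r r' x hr hx h1 z hz l w hw h2 => by
        obtain ⟨s, hs, rfl⟩ := Multiset.mem_map.1 hz
        have e := quad_mem hs
        obtain ⟨-, e1, e2, e3, -⟩ := h.spec x _ _ hx e
        have r1 := h.ra φ _ w l hw h2
        have r2 := h.rb φ _ w l hw h2
        have r3 := h.rκ φ _ w l hw h2
        rw [e1] at r1
        rw [e2] at r2
        rw [e3] at r3
        have r4 : φ (a x + b x) _ := ((r1.add r2).sub (hr.div r3 (h.ne w hw))).congr (by ring) rfl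
        have r5 : φ (a x * b x) _ := (r1.mul r2).congr e rfl
        obtain ⟨a', ha⟩ := quad_fin r4 r5 (s := a x) (by ring)
        obtain ⟨b', hb⟩ := quad_fin r4 r5 (s := b x) (by ring)
        exact back φ x _ _ w a' b' hx e hw h2 ha hb h1 }
  refine ⟨im, fam.null hχ fun K x hx => ?_⟩
  rw [neg_smul, one_smul, sub_neg_eq_add, quad_roots (a := b x) (b := a x) (by ring) (mul_comm _ _)]
  change (im.hom χ).1 K (S.cl F x) + S.cl F x = _
  rw [im.hom_cl hx, Multiset.insert_eq_cons, Multiset.map_cons, Multiset.map_singleton, cls_cons,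
    cls_singleton, zero_div, add_zero, add_sub_cancel_right, add_sub_cancel_left, h.self x hx]

variable (S) in
/-- A coordinate `s` that can be moved freely by `mv`, keeping the functions `f` and `c`. -/
structure Free (s c : ∀ ⦃K⦄, S.X K → K) (mv : ∀ ⦃K⦄, S.X K → K → S.X K) : Prop where
  rs : S.RegF s
  rc : S.RegF c
  self : ∀ ⦃K⦄ (x : S.X K), S.L x → mv x (s x) = x
  spec : ∀ ⦃K : Fld k⦄ (x : S.X K) (t : K), S.L x → S.L (mv x t) ∧ s (mv x t) = t ∧
    c (mv x t) = c x ∧ S.f (mv x t) = S.f x ∧ mv (mv x t) (s x) = x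
  reg : ∀ ⦃K K'⦄ (φ : Place K K') (x : S.X K) (y : S.X K') (t : K) (t' : K'), S.L x → S.L y →
    S.R φ x y → φ t t' → S.R φ (mv x t) (mv y t')

theorem Free.acts [CharZero F] {s c : ∀ ⦃K⦄, S.X K → K} {mv : ∀ ⦃K⦄, S.X K → K → S.X K}
    (h : S.Free s c mv) : S.Acts χ (fun _ x => mv x (c x - s x)) 1 := by
  have back : ∀ ⦃K K'⦄ (φ : Place K K') (x : S.X K) (t : K) (w : S.X K') (s' : K'), S.L x →
      S.L w → S.R φ (mv x t) w → φ (s x) s' → ¬ S.Dd φ x := by
    intro K K' φ x t w s' hx hw h2 hs h1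
    obtain ⟨l, -, -, -, e⟩ := h.spec x t hx
    have := h.reg φ _ w (s x) s' l hw h2 hs
    rw [e] at this
    exact h1 hx _ (h.spec w s' hw).1 this
  have im : IsMap S S fun _ x => mv x (c x - s x) :=
    { f := fun K x hx _ => (h.spec x _ hx).2.2.2.1
      sp := fun K K' φ x y hx hy h1 => .of_R (h.spec x _ hx).1 (h.spec y _ hy).1
        (h.reg φ x y _ _ hx hy h1 ((h.rc φ x y hx hy h1).sub (h.rs φ x y hx hy h1)))
      dead := fun K K' φ x hx h1 l w hw h2 => by
        obtain ⟨-, e1, e2, -⟩ := h.spec x (c x - s x) hx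
        have r1 := h.rs φ _ w l hw h2
        have r2 := h.rc φ _ w l hw h2
        rw [e1] at r1
        rw [e2] at r2
        exact back φ x _ w _ hx hw h2 ((r2.sub r1).congr (by ring) rfl) h1 }
  have two : ∀ ⦃K K' : Fld k⦄ (φ : Place K K'), φ 2 2 := fun K K' φ => by
    simpa using φ.natCast 2
  have fam : IsFam S S 0 fun _ r x => (quad (2 * ((1 - r) * s x + r * (c x - s x)))
      ((1 - r) * s x ^ 2 + r * (c x - s x) ^ 2)).roots.map (mv x) :=
    { f := fun K r x hx z hz _ => by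
        obtain ⟨t, -, rfl⟩ := Multiset.mem_map.1 hz
        rw [(h.spec x t hx).2.2.2.1, Nat.cast_zero, zero_mul, add_zero]
      sp := fun K K' φ r r' x y hr hx hy h1 => by
        have r1 := h.rs φ x y hx hy h1
        have r2 := (h.rc φ x y hx hy h1).sub r1
        have r3 := φ.one.sub hr
        refine Multiset.rel_map.2 (((quad_PR ((two φ).mul ((r3.mul r1).add (hr.mul r2)))
          ((r3.mul (r1.pow 2)).add (hr.mul (r2.pow 2)))).roots (quad_monic _ _)).mono
          fun t _ t' _ r4 => ?_)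
        exact .of_R (h.spec x _ hx).1 (h.spec y _ hy).1 (h.reg φ x y _ _ hx hy h1 r4)
      dead := fun K K' φ r r' x hr hx h1 z hz l w hw h2 => by
        obtain ⟨t, ht, rfl⟩ := Multiset.mem_map.1 hz
        have e := quad_mem ht
        obtain ⟨-, e1, e2, -⟩ := h.spec x t hx
        have r1 := h.rs φ _ w l hw h2
        have r2 := h.rc φ _ w l hw h2
        rw [e1] at r1
        rw [e2] at r2
        have r3 := φ.one.sub hr
        have r4 := r2.sub r1
        obtain ⟨s', hs⟩ := quad_fin ((two φ).mul ((r3.mul r1).add (hr.mul r4)))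
          ((r3.mul (r1.pow 2)).add (hr.mul (r4.pow 2))) (s := s x) (by linear_combination e)
        exact back φ x t w s' hx hw h2 hs h1 }
  have key : Null ((𝟙 _ + 𝟙 _) - (im.hom χ + im.hom χ)) := by
    refine fam.null_sub (fun K x hx => ?_) fun K x hx => ?_
    · rw [quad_roots (a := s x) (b := s x) (by ring) (by ring)]
      change S.cl F x + S.cl F x = _
      rw [Multiset.insert_eq_cons, Multiset.map_cons, Multiset.map_singleton, cls_cons,
        cls_singleton, h.self x hx]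
    · rw [quad_roots (a := c x - s x) (b := c x - s x) (by ring) (by ring)]
      change (im.hom χ).1 K (S.cl F x) + (im.hom χ).1 K (S.cl F x) = _
      rw [im.hom_cl hx, Multiset.insert_eq_cons, Multiset.map_cons, Multiset.map_singleton,
        cls_cons, cls_singleton]
  refine ⟨im, ?_⟩
  have := key.smul (-(2 : F)⁻¹)
  convert this using 1
  module

variable (S) in
/-- A root of a monic polynomial is added. -/
@[reducible] def root (c : ∀ ⦃K⦄, S.X K → K[X]) (hc : S.RegP c) : Pt k :=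
  (S.prod (line k)).restr (fun _ x => (c x.1).IsRoot x.2) (Closed.conv fun _ _ φ _ _ a b h e =>
    ((hc φ _ _ a.1 b.1 h.1).eval h.2).eq_of φ.zero e)

/-- The transfer along the roots, for any variety `S'` of pairs of a point and a root. -/
theorem isCor_root {c : ∀ ⦃K⦄, S.X K → K[X]} (hc : S.RegP c)
    (mo : ∀ ⦃K⦄ (x : S.X K), S.L x → (c x).Monic) {e : ∀ ⦃K⦄, S.X K → K → S'.X K}
    (he : IsMap (S.root c hc) S' fun _ x => e x.1 x.2) :
    IsCor S S' fun _ x => (c x).roots.map (e x) where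
  f K x hx z hz l := by
    obtain ⟨s, hs, rfl⟩ := Multiset.mem_map.1 hz
    exact (he.f (x, s) ⟨⟨hx, trivial⟩, isRoot_of_mem_roots hs⟩ l).trans (add_zero _)
  sp K K' φ x y hx hy h1 := Multiset.rel_map.2 (((hc φ x y hx hy h1).roots (mo x hx)).mono
    fun s hs s' hs' r => he.sp φ (x, s) (y, s') ⟨⟨hx, trivial⟩, isRoot_of_mem_roots hs⟩
      ⟨⟨hy, trivial⟩, isRoot_of_mem_roots hs'⟩ ⟨h1, r⟩)
  dead K K' φ x hx h1 z hz := by
    obtain ⟨s, hs, rfl⟩ := Multiset.mem_map.1 hz
    exact he.dead φ (x, s) ⟨⟨hx, trivial⟩, isRoot_of_mem_roots hs⟩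
      fun _ y hy h2 => h1 hx y.1 hy.1.1 h2.1

theorem isMap_root {c : ∀ ⦃K⦄, S.X K → K[X]} (hc : S.RegP c)
    (mo : ∀ ⦃K⦄ (x : S.X K), S.L x → (c x).Monic) : IsMap (S.root c hc) S fun _ x => x.1 := by
  refine IsMap.of_proper ⟨fun _ _ h => h.1.1, fun _ _ _ _ _ _ _ h => h.1⟩
    (fun _ x _ => (add_zero _).symm) fun K K' φ x z hx hz h1 => ?_
  have r := hc φ x.1 z hx.1.1 hz h1
  obtain ⟨s', hs⟩ := r.exists_root (mo x.1 hx.1.1) hx.2
  exact ⟨(z, s'), ⟨⟨hz, trivial⟩, (r.eval hs).eq_of φ.zero hx.2⟩, h1, hs⟩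

end Pt

end

end Pool.Agent.Lib.MP_fc2ced_ag.K
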